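import Pool.Agent.JG.SG
import Pool.Agent.JXD.S6

/-!
# [JG-SN] the number of points of the reduced curves at `2` and at `λ`

PROOF. `card_two` [SNa]: `k` has four elements, characteristic `2` (`r (2 : Eis) = 0`; `Nat.card k = 4`: `CharP k 2`), `θ = r om` satisfies `θ² + θ + 1 = 0`, so `θ ≠ 0, 1` and `k = {0, 1, θ, θ²}`, `r x = 0 ↔ 2 ∣ x` (`Eis ⧸ 2` has four elements: the classes of `0, 1, om, om²`: every `x` is `≡` one of them modulo `2`, the four images are distinct). `#Point = 1 + #{(x, y) : y² + s y = x³ + c}` (all solutions are nonsingular: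
`2 y + s = s ≠ 0`; see `CMT`, `JD.s1a_ED` in JD/S1.lean and `WeierstrassCurve.Affine.Point` ≃ `Option`). For `x = 0` the equation is `y² + s y = c`, for the three `x ≠ 0` it is `y² + s y = c + 1` (`x³ = 1`). `y ↦ y² + s y` is additive with kernel `{0, s}` and image `{0, z}`, `z = s² (θ² + θ) = ...` (two elements). Number of `y` with `y² + s y = d`: `2` if `d` is in the image `I`, `0` otherwise.
`e = 1` iff `c ∈ I` (`he'`, `r` surjective). `1 ∈ I` iff `s = 1` (`y² + s y = 1`: `s = 1`: `y = θ`; `s = θ`: `y² + θ y` takes the values `0, 1 + θ = θ²`; `s = θ²`: the values `0, 1 + θ² = θ`), i.e. iff `ζ = 1`. So if `ζ = 1`: `c ∈ I` iff `c + 1 ∈ I`: number of solutions `8` if `e = 1`, `0` if `e = -1`: `#Point = 5 + 4 e`. If `ζ ≠ 1`: exactly one of `c, c + 1` is in `I`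
(`I = {0, z}`, `1 ∉ I`, index two): the number of solutions is `2` if `e = 1`, `6` if `e = -1`: `#Point = 5 - 2 e`. And `ζ + star ζ = 2` resp. `-1` (`ζ³ = 1`, `ζ ≠ 1`: `ζ = om, om²`; `ζ² + ζ + 1 = 0`, `star ζ = ζ²`): `5 - (-2 e (ζ + star ζ)) = 5 + 4 e` resp. `5 - 2 e`.
`card_la` [SNb]: `k` has three elements, `{0, 1, -1}`, characteristic `3`; `x³ - x = 0` for all `x`, the equation is `y² = n`; `n = 0`: `3` solutions (`y = 0`), `n = 1`: `6`, `n = -1`: `0` solutions; all are nonsingular (`3 x² - 1 = -1 ≠ 0`).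
`poly_two`, `poly_la` [SNc]: as `JD.s6b_good` (JD/S6.lean): `bc`, `card_residue`, `CU.card_quot`: the residue field has `4` resp. `3` elements (`(2 : Eis).norm = 4`, `la.norm = 3`), `J2_smul`, `J3_smul`, `good_poly` (JG/SG.lean), `J2_map`, `J3_map`, `card_two` with `r = residue ∘ t5b_lo v`, `card_la` (`residue (t5b_lo v la) = 0`, `ε = t5b_lo v (-om ^ 2)`, its residue is `-1`: `-om² + 1 = (1 - om)(1 + om)`, divisible by `la`;
`residue (t5b_lo v c) = n`). `Val2`: `D = 16 (s² + 4 c)`, `(a : ℂ) = emb p + conj (emb p)`: `a = 5 - #Point`, `4 = p (star p)`: `p = -2 e ζ`, `ζ (star ζ) = 1`. `CM27.emb_star`.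
-/

set_option autoImplicit false

open NumberField IsDedekindDomain
open scoped Classical ComplexConjugate

namespace JG

open CM27 CF JZ
open JD (ED ED_map jK)
open CU (la om eE t5b_lo)

/-- multiplication of `F₄` in the basis `1, θ` -/
def SNa_m (p q : ZMod 2 × ZMod 2) : ZMod 2 × ZMod 2 := (p.1 * q.1 + p.2 * q.2, p.1 * q.2 + p.2 * q.1 + p.2 * q.2)

/-- the number of solutions of `y² + s y = x³ + c` in `F₄` -/
def SNa_N (s c : ZMod 2 × ZMod 2) : ℕ :=
  (Finset.univ.filter (fun p : (ZMod 2 × ZMod 2) × (ZMod 2 × ZMod 2) =>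
    SNa_m p.2 p.2 + SNa_m s p.2 = SNa_m p.1 (SNa_m p.1 p.1) + c)).card

theorem SNa_table : ∀ s c : ZMod 2 × ZMod 2, s ≠ 0 →
    ((∃ x, c = SNa_m x x + SNa_m s x) → (s = (1, 0) → SNa_N s c = 8) ∧ (s ≠ (1, 0) → SNa_N s c = 2)) ∧
    ((¬ ∃ x, c = SNa_m x x + SNa_m s x) → (s = (1, 0) → SNa_N s c = 0) ∧ (s ≠ (1, 0) → SNa_N s c = 6)) := by
  decide

/-- reduction modulo `2` -/
def SNa_r (x : Eis) : ZMod 2 × ZMod 2 := ((x.re : ZMod 2), (x.im : ZMod 2))

theorem SNa_r_add (x y : Eis) : SNa_r (x + y) = SNa_r x + SNa_r y := by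
  unfold SNa_r
  apply Prod.ext
  · simp
  · simp

theorem SNa_r_mul (x y : Eis) : SNa_r (x * y) = SNa_m (SNa_r x) (SNa_r y) := by
  have h2 : (-1 : ZMod 2) = 1 := by decide
  unfold SNa_r SNa_m
  apply Prod.ext
  · simp only [QuadraticAlgebra.re_mul]
    push_cast
    rw [h2]
    ring
  · simp only [QuadraticAlgebra.im_mul]
    push_cast
    rw [h2]
    ring

theorem SNa_r_dvd (x : Eis) : (2 : Eis) ∣ x ↔ SNa_r x = 0 := by
  constructor
  · rintro ⟨y, rfl⟩
    rw [SNa_r_mul]
    have h : SNa_r 2 = 0 := by decide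
    rw [h]
    unfold SNa_m
    simp
  · intro h
    have h1 : ((x.re : ℤ) : ZMod 2) = 0 := congrArg Prod.fst h
    have h2 : ((x.im : ℤ) : ZMod 2) = 0 := congrArg Prod.snd h
    rw [ZMod.intCast_zmod_eq_zero_iff_dvd] at h1 h2
    obtain ⟨a, ha⟩ := h1
    obtain ⟨b, hb⟩ := h2
    refine ⟨⟨a, b⟩, ?_⟩
    have e2 : (2 : Eis) = ⟨2, 0⟩ := rfl
    rw [e2]
    apply QuadraticAlgebra.ext
    · rw [QuadraticAlgebra.re_mul, ha]
      simp
    · rw [QuadraticAlgebra.im_mul, hb]
      simp

theorem SNa_r_surj (p : ZMod 2 × ZMod 2) : ∃ x : Eis, SNa_r x = p := by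
  refine ⟨⟨(p.1.val : ℤ), (p.2.val : ℤ)⟩, ?_⟩
  unfold SNa_r
  apply Prod.ext
  · simp
  · simp

/-- the coordinates of `k` -/
theorem SNa_equiv (k : Type) [Field k] [Finite k] (h4 : Nat.card k = 4) (r : Eis →+* k) :
    ∃ f : (ZMod 2 × ZMod 2) ≃ k, (∀ p q, f (p + q) = f p + f q) ∧ (∀ p q, f (SNa_m p q) = f p * f q) ∧
      ∀ x : Eis, f (SNa_r x) = r x := by
  have h20 : (2 : k) = 0 := by
    have h1 : ((Nat.card k : ℕ) : k) = 0 := by
      haveI := Fintype.ofFinite k
      rw [Nat.card_eq_fintype_card]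
      exact Nat.cast_card_eq_zero k
    rw [h4] at h1
    have h2 : (2 : k) ^ 2 = 0 := by
      push_cast at h1
      linear_combination h1
    exact pow_eq_zero_iff (two_ne_zero) |>.1 h2
  haveI : CharP k 2 := CharTwo.of_one_ne_zero_of_two_eq_zero one_ne_zero h20
  let g : ZMod 2 →+* k := ZMod.castHom (dvd_refl 2) k
  have hθ : (r om) ^ 2 = r om + 1 := by
    have h1 : om ^ 2 + om + 1 = 0 := by decide
    have h2 := congrArg r h1
    rw [map_add, map_add, map_pow, map_one, map_zero] at h2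
    linear_combination h2 - (r om + 1) * h20
  let f : ZMod 2 × ZMod 2 → k := fun p => g p.1 + g p.2 * r om
  have hadd : ∀ p q, f (p + q) = f p + f q := by
    intro p q
    show g (p.1 + q.1) + g (p.2 + q.2) * r om = _
    rw [map_add, map_add]
    show _ = (g p.1 + g p.2 * r om) + (g q.1 + g q.2 * r om)
    ring
  have hmul : ∀ p q, f (SNa_m p q) = f p * f q := by
    intro p q
    show g (p.1 * q.1 + p.2 * q.2) + g (p.1 * q.2 + p.2 * q.1 + p.2 * q.2) * r om = _
    simp only [map_add, map_mul]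
    show _ = (g p.1 + g p.2 * r om) * (g q.1 + g q.2 * r om)
    linear_combination -(g p.2 * g q.2) * hθ
  have hr : ∀ x : Eis, f (SNa_r x) = r x := by
    intro x
    have h1 : x = (x.re : Eis) + (x.im : Eis) * om := by
      apply QuadraticAlgebra.ext
      · simp [om]
      · simp [om]
    show g ((x.re : ℤ) : ZMod 2) + g ((x.im : ℤ) : ZMod 2) * r om = _
    conv_rhs => rw [h1]
    rw [map_intCast, map_intCast, map_add, map_mul, map_intCast, map_intCast]
  have hker : ∀ p, f p = 0 → p = 0 := by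
    rintro ⟨a, b⟩ hp
    have hp' : g a + g b * r om = 0 := hp
    have hab : ∀ a : ZMod 2, a = 0 ∨ a = 1 := by decide
    rcases hab a with rfl | rfl <;> rcases hab b with rfl | rfl
    · rfl
    · exfalso
      rw [map_zero, map_one, zero_add, one_mul] at hp'
      rw [hp'] at hθ
      exact one_ne_zero (α := k) (by linear_combination -hθ)
    · exfalso
      rw [map_zero, map_one, zero_mul, add_zero] at hp'
      exact one_ne_zero hp'
    · exfalso
      rw [map_one, one_mul] at hp'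
      have h1 : r om = -1 := by linear_combination hp'
      rw [h1] at hθ
      exact one_ne_zero (α := k) (by linear_combination hθ)
  have hinj : Function.Injective f := by
    intro p q hpq
    have h2 : ∀ p : ZMod 2 × ZMod 2, p + p = 0 := by decide
    have h1 : f (p + q) = 0 := by
      rw [hadd, hpq, ← hadd, h2]
      show g 0 + g 0 * r om = 0
      rw [map_zero, zero_mul, add_zero]
    have h3 := hker _ h1
    have h4 : p = p + (q + q) := by rw [h2, add_zero]
    rw [h4, ← add_assoc, h3, zero_add]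
  have hbij : Function.Bijective f := by
    haveI := Fintype.ofFinite k
    rw [Fintype.bijective_iff_injective_and_card]
    refine ⟨hinj, ?_⟩
    rw [← Nat.card_eq_fintype_card (α := k), h4]
    rfl
  exact ⟨Equiv.ofBijective f hbij, hadd, hmul, hr⟩

/-- [SNa] -/
theorem card_two (k : Type) [Field k] [Finite k] (h4 : Nat.card k = 4) (r : Eis →+* k) (s c e ζ : Eis) (hs : ¬ (2 : Eis) ∣ s)
    (he : e = 1 ∨ e = -1) (he' : e = 1 ↔ ∃ x : Eis, (2 : Eis) ∣ c - x ^ 2 - s * x) (hζ : ζ ^ 3 = 1)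
    (hζ' : ζ = 1 ↔ (2 : Eis) ∣ s - 1) :
    ((Nat.card (J2 (r s) (r c)).toAffine.Point : ℕ) : Eis) = 5 - (-2 * e * ζ + star (-2 * e * ζ)) := by
  obtain ⟨f, fadd, fmul, fr⟩ := SNa_equiv k h4 r
  have f0 : f 0 = 0 := by
    have h1 := fadd 0 0
    rw [add_zero] at h1
    exact left_eq_add.mp h1
  have hs0 : SNa_r s ≠ 0 := fun h => hs ((SNa_r_dvd s).mpr h)
  have hrs : r s ≠ 0 := by
    rw [← fr s]
    intro h
    apply hs0
    apply f.injective
    rw [h, f0]
  have h20 : (2 : k) = 0 := by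
    have h1 : SNa_r 2 = 0 := by decide
    have h2 := fr 2
    rw [h1, f0] at h2
    rw [← map_ofNat r 2, ← h2]
  have hns : ∀ x y : k, (J2 (r s) (r c)).toAffine.Nonsingular x y ↔ y ^ 2 + r s * y = x ^ 3 + r c := by
    intro x y
    rw [WeierstrassCurve.Affine.nonsingular_iff', WeierstrassCurve.Affine.equation_iff]
    simp only [J2]
    constructor
    · rintro ⟨h, -⟩
      linear_combination h
    · intro h
      refine ⟨by linear_combination h, Or.inr ?_⟩
      intro h0
      apply hrs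
      linear_combination h0 - y * h20
  have hN : Nat.card (J2 (r s) (r c)).toAffine.Point = SNa_N (SNa_r s) (SNa_r c) + 1 := by
    have e : {xy : k × k // (J2 (r s) (r c)).toAffine.Nonsingular xy.1 xy.2} ≃
        {p : (ZMod 2 × ZMod 2) × (ZMod 2 × ZMod 2) //
          SNa_m p.2 p.2 + SNa_m (SNa_r s) p.2 = SNa_m p.1 (SNa_m p.1 p.1) + SNa_r c} := by
      refine ((f.prodCongr f).subtypeEquiv ?_).symm
      rintro ⟨x, y⟩
      rw [hns]
      show _ ↔ f y ^ 2 + r s * f y = f x ^ 3 + r c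
      rw [← fr s, ← fr c, pow_two, pow_succ, pow_two, ← fmul, ← fmul, ← fadd, ← fmul, mul_comm, ← fmul,
        ← fadd, f.injective.eq_iff]
    have h1 : Nat.card (J2 (r s) (r c)).toAffine.Point = Nat.card (Option {p : (ZMod 2 × ZMod 2) × (ZMod 2 × ZMod 2) //
          SNa_m p.2 p.2 + SNa_m (SNa_r s) p.2 = SNa_m p.1 (SNa_m p.1 p.1) + SNa_r c}) :=
      Nat.card_congr ((WeierstrassCurve.Affine.nonsingularPointEquiv (J2 (r s) (r c)).toAffine).trans
        (Equiv.optionCongr e))
    rw [h1, Finite.card_option, Nat.card_eq_fintype_card, Fintype.card_subtype]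
    rfl
  have hζ1 : ζ = 1 ↔ SNa_r s = (1, 0) := by
    rw [hζ', SNa_r_dvd]
    have h1 : SNa_r s = SNa_r (s - 1) + (1, 0) := by
      have h2 : SNa_r 1 = (1, 0) := by decide
      rw [← h2, ← SNa_r_add, sub_add_cancel]
    rw [h1]
    constructor
    · intro h
      rw [h, zero_add]
    · intro h
      exact add_eq_right.mp h
  have hex : (∃ x : Eis, (2 : Eis) ∣ c - x ^ 2 - s * x) ↔ ∃ x, SNa_r c = SNa_m x x + SNa_m (SNa_r s) x := by
    have h2 : ∀ p : ZMod 2 × ZMod 2, p + p = 0 := by decide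
    have key : ∀ x : Eis, (2 : Eis) ∣ c - x ^ 2 - s * x ↔
        SNa_r c = SNa_m (SNa_r x) (SNa_r x) + SNa_m (SNa_r s) (SNa_r x) := by
      intro x
      rw [SNa_r_dvd]
      have h3 : SNa_r c = SNa_r (c - x ^ 2 - s * x) +
          (SNa_m (SNa_r x) (SNa_r x) + SNa_m (SNa_r s) (SNa_r x)) := by
        rw [← SNa_r_mul, ← SNa_r_mul, ← SNa_r_add, ← SNa_r_add]
        congr 1
        ring
      constructor
      · intro h
        rw [h, zero_add] at h3
        exact h3
      · intro h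
        rw [← h] at h3
        exact (right_eq_add.mp h3)
    constructor
    · rintro ⟨x, hx⟩
      exact ⟨SNa_r x, (key x).mp hx⟩
    · rintro ⟨p, hp⟩
      obtain ⟨x, rfl⟩ := SNa_r_surj p
      exact ⟨x, (key x).mpr hp⟩
  rw [hN]
  have htab := SNa_table (SNa_r s) (SNa_r c) hs0
  have hstar : star (-2 * e * ζ) = -2 * e * star ζ := by
    rcases he with rfl | rfl
    · rw [mul_one, star_mul, star_neg]
      have h1 : star (2 : Eis) = 2 := by decide
      rw [h1, mul_comm]
    · have h1 : (-2 * -1 : Eis) = 2 := by ring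
      rw [h1, star_mul]
      have h1 : star (2 : Eis) = 2 := by decide
      rw [h1, mul_comm]
  rw [hstar]
  have hsum : (ζ = 1 → ζ + star ζ = 2) ∧ (ζ ≠ 1 → ζ + star ζ = -1) := by
    rcases TH.cube_one_cases hζ with rfl | rfl | rfl
    · decide
    · decide
    · decide
  by_cases h1 : ζ = 1
  · have h2 := hsum.1 h1
    rcases he with rfl | rfl
    · have h3 := ((htab.1 (hex.mp (he'.mp rfl))).1 (hζ1.mp h1))
      rw [h3]
      push_cast
      linear_combination (-2) * h2
    · have h4 : ¬ ∃ x : Eis, (2 : Eis) ∣ c - x ^ 2 - s * x := by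
        rw [← he']
        decide
      have h3 := ((htab.2 (fun h => h4 (hex.mpr h))).1 (hζ1.mp h1))
      rw [h3]
      push_cast
      linear_combination 2 * h2
  · have h2 := hsum.2 h1
    rcases he with rfl | rfl
    · have h3 := ((htab.1 (hex.mp (he'.mp rfl))).2 (fun h => h1 (hζ1.mpr h)))
      rw [h3]
      push_cast
      linear_combination (-2) * h2
    · have h4 : ¬ ∃ x : Eis, (2 : Eis) ∣ c - x ^ 2 - s * x := by
        rw [← he']
        decide
      have h3 := ((htab.2 (fun h => h4 (hex.mpr h))).2 (fun h => h1 (hζ1.mpr h)))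
      rw [h3]
      push_cast
      linear_combination 2 * h2

/-- [SNb] -/
theorem card_la (k : Type) [Field k] [Finite k] (h3 : Nat.card k = 3) (η : k) (n : ℤ) (hn : n = 0 ∨ n = 1 ∨ n = -1) :
    ((Nat.card (J3 0 (-1) η (n : k)).toAffine.Point : ℕ) : ℤ) = 4 + 3 * n := by
  have hF : Fintype k := Fintype.ofFinite k
  have hc : Fintype.card k = 3 := by rw [← Nat.card_eq_fintype_card, h3]
  have h3' : (3 : k) = 0 := by
    have h := FiniteField.cast_card_eq_zero k
    rw [hc] at h
    exact_mod_cast h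
  have hx : ∀ x : k, x ^ 3 = x := by
    intro x
    have h := FiniteField.pow_card x
    rwa [hc] at h
  have hns : ∀ x y : k, (J3 0 (-1) η (n : k)).toAffine.Nonsingular x y ↔ y ^ 2 = (n : k) := by
    intro x y
    rw [WeierstrassCurve.Affine.nonsingular_iff, WeierstrassCurve.Affine.equation_iff]
    simp only [J3]
    constructor
    · rintro ⟨h, -⟩
      have h4 := hx x
      linear_combination h + h4
    · intro h
      refine ⟨?_, Or.inl ?_⟩
      · have h4 := hx x
        linear_combination h - h4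
      · intro h5
        have h6 : (1 : k) = 0 := by linear_combination h5 + x ^ 2 * h3'
        exact one_ne_zero h6
  have e : {xy : k × k // (J3 0 (-1) η (n : k)).toAffine.Nonsingular xy.1 xy.2} ≃
      k × {y : k // y ^ 2 = (n : k)} :=
    { toFun := fun p => (p.1.1, ⟨p.1.2, (hns _ _).1 p.2⟩)
      invFun := fun p => ⟨(p.1, p.2.1), (hns _ _).2 p.2.2⟩
      left_inv := fun p => rfl
      right_inv := fun p => rfl }
  have h5 : Nat.card (J3 0 (-1) η (n : k)).toAffine.Point =
      Nat.card (Option (k × {y : k // y ^ 2 = (n : k)})) :=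
    Nat.card_congr ((WeierstrassCurve.Affine.nonsingularPointEquiv
      (J3 0 (-1) η (n : k)).toAffine).trans (Equiv.optionCongr e))
  have φ : ZMod 3 ≃+* k := ZMod.ringEquivOfPrime k Nat.prime_three hc
  have e' : {y : ZMod 3 // y ^ 2 = (n : ZMod 3)} ≃ {y : k // y ^ 2 = (n : k)} :=
    φ.toEquiv.subtypeEquiv (by
      intro a
      show a ^ 2 = (n : ZMod 3) ↔ (φ a) ^ 2 = (n : k)
      rw [← map_pow, ← map_intCast φ n]
      exact φ.injective.eq_iff.symm)
  have h6 : (Nat.card {y : ZMod 3 // y ^ 2 = (n : ZMod 3)} : ℤ) = 1 + n := by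
    rcases hn with rfl | rfl | rfl
    · rw [Nat.card_eq_fintype_card]
      decide
    · rw [Nat.card_eq_fintype_card]
      decide
    · rw [Nat.card_eq_fintype_card]
      decide
  rw [h5, Finite.card_option, Nat.card_prod, h3, ← Nat.card_congr e']
  push_cast
  rw [h6]
  ring

section
variable {D : Eis} (v : HeightOneSpectrum (𝓞 KK))

/-- [SNc] -/
theorem poly_two (hv : v.asIdeal = Ideal.span {eE (2 : Eis)}) {s c e ζ : Eis} (hs : ¬ (2 : Eis) ∣ s) (hD : D = 16 * (s ^ 2 + 4 * c))
    (he : e = 1 ∨ e = -1) (he' : e = 1 ↔ ∃ x : Eis, (2 : Eis) ∣ c - x ^ 2 - s * x) (hζ : ζ ^ 3 = 1)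
    (hζ' : ζ = 1 ↔ (2 : Eis) ∣ s - 1) :
    ∃ a b : ℤ, (ED (algebraMap (v.adicCompletionIntegers KK) (v.adicCompletion KK) (t5b_lo v D))).localPolynomial
        (v.adicCompletionIntegers KK) = 1 - Polynomial.C a * Polynomial.X + Polynomial.C b * Polynomial.X ^ 2 ∧
      (a : ℂ) = emb (-2 * e * ζ) + conj (emb (-2 * e * ζ)) ∧ (b : ℂ) = emb (-2 * e * ζ) * conj (emb (-2 * e * ζ)) := by
  have hcr := CM27.card_residue KK v
  obtain ⟨hc', hfin⟩ := hcr
  have h2p : Prime (2 : Eis) := TH.b4_two_prime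
  have h4 : Nat.card (IsLocalRing.ResidueField (v.adicCompletionIntegers KK)) = 4 := by
    rw [hc', CU.card_quot hv]
    decide
  have h21 : ¬ (2 : Eis) ∣ 1 := fun h => h2p.not_isUnit (isUnit_of_dvd_one h)
  have h23 : ¬ (2 : Eis) ∣ 3 := by
    intro h
    have h5 : (2 : Eis) ∣ 3 - 2 * 1 := dvd_sub h (dvd_mul_right _ _)
    have h6 : (3 : Eis) - 2 * 1 = 1 := by ring
    rw [h6] at h5
    exact h21 h5
  have h2s : ¬ (2 : Eis) ∣ s ^ 2 + 4 * c := by
    intro h
    have h5 : (2 : Eis) ∣ s ^ 2 + 4 * c - 2 * (2 * c) := dvd_sub h (dvd_mul_right _ _)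
    have h6 : s ^ 2 + 4 * c - 2 * (2 * c) = s ^ 2 := by ring
    rw [h6] at h5
    exact hs (h2p.dvd_of_dvd_pow h5)
  have hJ : IsUnit (J2 (t5b_lo v s) (t5b_lo v c)).Δ := by
    rw [J2_Δ]
    have h5 := CU.t5b_unit hv _ h2s
    have h6 := CU.t5b_unit hv _ h23
    rw [map_ofNat] at h6
    rw [map_add, map_mul, map_pow, map_ofNat] at h5
    have h7 : (-27 : v.adicCompletionIntegers KK) = -(3 ^ 3) := by norm_num
    rw [h7]
    exact ((h6.pow 3).neg).mul (h5.pow 2)
  have h2K : (2 : v.adicCompletion KK) ≠ 0 := by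
    have h1 : algebraMap KK (v.adicCompletion KK) 2 = 2 := map_ofNat _ 2
    rw [← h1]
    intro h2
    rw [map_eq_zero] at h2
    norm_num at h2
  obtain ⟨C, -, hC⟩ := J2_smul (K := v.adicCompletion KK) h2K (t5b_lo v s) (t5b_lo v c)
  have hlD : t5b_lo v D = 16 * (t5b_lo v s ^ 2 + 4 * t5b_lo v c) := by
    rw [hD, map_mul, map_add, map_mul, map_pow, map_ofNat, map_ofNat]
  have hW : ED (algebraMap (v.adicCompletionIntegers KK) (v.adicCompletion KK) (t5b_lo v D)) =
      C • (J2 (t5b_lo v s) (t5b_lo v c)).map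
        (algebraMap (v.adicCompletionIntegers KK) (v.adicCompletion KK)) := by
    rw [hC, ED_map, hlD]
  have hpoly := good_poly hJ C
  rw [← hW] at hpoly
  refine ⟨_, _, hpoly, ?_, ?_⟩
  · have h5 := card_two (IsLocalRing.ResidueField (v.adicCompletionIntegers KK)) h4
      ((IsLocalRing.residue (v.adicCompletionIntegers KK)).comp (t5b_lo v)) s c e ζ hs he he' hζ hζ'
    have h6 := congrArg emb h5
    rw [map_natCast, map_sub, map_add, map_ofNat, CM27.emb_star] at h6
    rw [h4, J2_map]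
    push_cast
    have h7 : ((Nat.card (J2 (IsLocalRing.residue (v.adicCompletionIntegers KK) (t5b_lo v s))
        (IsLocalRing.residue (v.adicCompletionIntegers KK) (t5b_lo v c))).toAffine.Point : ℕ) : ℂ) =
        5 - (emb (-2 * e * ζ) + conj (emb (-2 * e * ζ))) := h6
    rw [h7]
    ring
  · rw [h4]
    have he2 : e ^ 2 = 1 := by
      rcases he with h | h <;> rw [h] <;> ring
    have e1 := JD.s6b_norm_one two_ne_zero he2
    have e2 := JD.s6b_norm_one three_ne_zero hζ
    rw [map_mul, map_mul, map_neg, map_ofNat, map_mul, map_mul, map_neg, map_ofNat]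
    push_cast
    linear_combination (-4 * (emb ζ * conj (emb ζ))) * e1 - 4 * e2

/-- [SNc] -/
theorem poly_la (hv : v.asIdeal = Ideal.span {eE la}) {η c : Eis} {n : ℤ} (hη : η = 1 ∨ η = -1)
    (hD : D = la ^ 3 * (η + la ^ 3 * c)) (hn : n = 0 ∨ n = 1 ∨ n = -1) (hc : la ∣ c - n) {p : Eis} (hp : p * star p = 3)
    (hp' : p + star p = -3 * n) :
    ∃ a b : ℤ, (ED (algebraMap (v.adicCompletionIntegers KK) (v.adicCompletion KK) (t5b_lo v D))).localPolynomial
        (v.adicCompletionIntegers KK) = 1 - Polynomial.C a * Polynomial.X + Polynomial.C b * Polynomial.X ^ 2 ∧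
      (a : ℂ) = emb p + conj (emb p) ∧ (b : ℂ) = emb p * conj (emb p) := by
  have hcr := CM27.card_residue KK v
  obtain ⟨hc', hfin⟩ := hcr
  have h3 : Nat.card (IsLocalRing.ResidueField (v.adicCompletionIntegers KK)) = 3 := by
    rw [hc', CU.card_quot hv]
    decide
  have hl : Irreducible (t5b_lo v la) := CU.t5b_irr' CU.la_prime hv
  have h3e := CU.t5b_three v
  have hη' : t5b_lo v η = 1 ∨ t5b_lo v η = -1 := by
    rcases hη with h | h
    · left; rw [h, map_one]
    · right; rw [h, map_neg, map_one]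
  have hJ := J3_unit hl (CU.t5b_eps v) h3e hη' (t5b_lo v c)
  obtain ⟨C, -, hC⟩ := J3_smul (K := v.adicCompletion KK) hl h3e hη' (t5b_lo v c)
  have hlD : t5b_lo v D = t5b_lo v la ^ 3 * (t5b_lo v η + t5b_lo v la ^ 3 * t5b_lo v c) := by
    rw [hD, map_mul, map_add, map_mul, map_pow]
  have hW : ED (algebraMap (v.adicCompletionIntegers KK) (v.adicCompletion KK) (t5b_lo v D)) =
      C • (J3 (t5b_lo v la) (t5b_lo v (-om ^ 2)) (t5b_lo v η) (t5b_lo v c)).map
        (algebraMap (v.adicCompletionIntegers KK) (v.adicCompletion KK)) := by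
    rw [hC, ED_map, hlD]
  have hpoly := good_poly hJ C
  rw [← hW] at hpoly
  have r0 : IsLocalRing.residue (v.adicCompletionIntegers KK) (t5b_lo v la) = 0 := by
    rw [IsLocalRing.residue_eq_zero_iff]
    exact (IsLocalRing.mem_maximalIdeal _).2 hl.not_isUnit
  have r1 : IsLocalRing.residue (v.adicCompletionIntegers KK) (t5b_lo v (-om ^ 2)) = -1 := by
    have h5 : (-om ^ 2 : Eis) = la * (1 + om) + (-1) := by decide
    rw [h5, map_add, map_mul, map_add, map_mul, r0, zero_mul, zero_add, map_neg, map_neg, map_one,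
      map_one]
  have r2 : IsLocalRing.residue (v.adicCompletionIntegers KK) (t5b_lo v c) =
      (n : IsLocalRing.ResidueField (v.adicCompletionIntegers KK)) := by
    obtain ⟨x, hx⟩ := hc
    have h5 : c = la * x + (n : Eis) := by linear_combination hx
    rw [h5, map_add, map_mul, map_add, map_mul, r0, zero_mul, zero_add, map_intCast, map_intCast]
  refine ⟨_, _, hpoly, ?_, ?_⟩
  · have h5 := card_la (IsLocalRing.ResidueField (v.adicCompletionIntegers KK)) h3
      (IsLocalRing.residue (v.adicCompletionIntegers KK) (t5b_lo v η)) n hn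
    have h6 := congrArg emb hp'
    rw [map_add, CM27.emb_star, map_mul, map_neg, map_ofNat, map_intCast] at h6
    rw [J3_map, r0, r1, r2, h5, h3, h6]
    push_cast
    ring
  · have h6 := congrArg emb hp
    rw [map_mul, CM27.emb_star, map_ofNat] at h6
    rw [h3, h6]
    push_cast
    ring

end

end JG
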