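import Pool.Agent.JG.SP
import Pool.Agent.JG.SN

/-!
# [JG-SQ] minimality, Tamagawa numbers, Néron factors, L-series and period of `E_D`

PROOF. `Good2 D`, `GoodL D`: JG/LVal.lean. `lo v = t5b_lo v`. `min_allG` [SQa]: `places` (JG/SP.lean), then `unit_la'` (with `CU.t5b_irr'`, `CU.t5b_eps v`, `CU.t5b_three v`, `CU.t5b_res hv`, `CU.t5b_unit hv`, `cond_la` (third part)), `unit_two'` (`cond_two4`), `unit_p'` (JG/SA.lean). See `JXD.min_all` (JXD/S5.lean); `map_mul`, `map_pow`, `map_ofNat`.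
`good_two`, `good_la` [SQa]: from `Good2 D`, resp. `GoodL D`: `J2_smul`, `J3_smul` (JG/SG.lean) in `K = v.adicCompletion KK` (`2 ≠ 0` there), `bc` (JD/S5.lean), `J2_Δ` (a unit: `s² + 4 c` is a unit since `2 ∤ s`, `3` is a unit at `(2)`), `J3_unit`. In `good_la`: `l = lo la`, `ε = lo (-om ^ 2)`, `CU.t5b_three v : 3 = lo (-om^2) * lo la ^ 2`.
`tam_allG` [SQb]: `SBSD.tam`, `bc`; `good_tam` if `v = (2)` and `Good2 D` (`good_two`) or `v = (la)` and `GoodL D` (`good_la`); otherwise `tam_la'`, `tam_two'`, `tam_p'` (JG/ST.lean) with `cond_la`, `cond_two`, `cond_two4`, `cond_p` (JG/SP.lean). The residue field is finite: `CM27.card_residue KK v`. `s5b_six_ne` (JD/S5.lean).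
`finprod_tamG` [SQb]: `finprod_induction` with `p c := c ≠ 0 ∧ ¬ 3 ∣ c` (`Nat.Prime.dvd_mul`).
`neron_G` [SQc]: `PI.neron_of` with `min_allG` (see `JXD.finprod_neron`) unless `v = (2)`, `Good2 D` or `v = (la)`, `GoodL D`: `neron_u` (JG/SG.lean) with `π = 2`, resp. `lo la`: `absNorm = 4`, `3` (`CU.absNorm_span`: `(2 : Eis).norm = 4`, `la.norm = 3`).
`finprod_neronG` [SQc]: only the two places `CU.pl 2`, `CU.pl la` (`CU.pl la CU.la_prime`; `TH.b4_two_prime`) have a factor `≠ 1`: `finprod_eq_prod_of_mulSupport_subset` with the set `{pl 2, pl la}` (two different places), or `finprod_mul_distrib` and `finprod_eq_single`. `kap` (JG/LVal.lean).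
`period_G` [SQc]: as `JXD.period_ED` (JXD/S6.lean) with `finprod_neronG`.
`LCW_G` [SQd]: as `JXD.LCW_ED` (JXD/S6.lean) with `PsiG`, `psvG` (JG/LVal.lean; `NAB.cm_one`, `NAB.cm_mul`, `NAB.cm_prime`; `JL.psv6` and `JD.psv6` are the same definition: `rfl`, likewise `JL.Psi6`, `JD.Psi6`). At `v = (2)`: `psvG = p₂`; `Val2`: either `¬ Good2 D`, `p₂ = 0`: `localPoly_bad` (JD/S2.lean) with `min_allG` (`2 ∣ 6 D` is not a unit),
or `poly_two` (JG/SN.lean). At `v = (la)`: `psvG = pl` (`(2) ≠ (la)`), `ValL`: either `¬ GoodL D`, `pl = 0`, `localPoly_bad`, or `poly_la`. Otherwise `v = (b)`, `b ∤ 6`: `psvG = psv6 (eE D) v`: `b ∣ D`: `localPoly_bad`, `JD.psv6_zero`; `b ∤ D`: `JD.s6b_good` (with `JD.Psi6_prime`).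
`PsiG_norm_le` [SQe]: as `JD.Psi6_norm_le` (JD/S6.lean): at `(2)`: `p₂ = 0` or `‖emb p₂‖² = 4` (`p = -2 e ζ`), at `(la)`: `‖emb pl‖² = 3` (`p (star p) = 3`); otherwise `JD.Psi6_norm_le` for the prime ideal. `entire_G` [SQe]: as `JXD.entire_ED` with `LCW_G`, `PsiG_norm_le`.
-/

set_option autoImplicit false

open NumberField IsDedekindDomain ArithmeticFunction
open scoped Classical ComplexConjugate

namespace JG

open CM27 CMT NAB CF JZ
open JD (ED ED_map jK)
open CU (la om eE t5b_lo)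

section
variable {D : Eis} (v : HeightOneSpectrum (𝓞 KK))

/-- [SQa] -/
theorem min_allG (hD : ClG D) (h2 : v.asIdeal = Ideal.span {eE (2 : Eis)} → ¬ Good2 D)
    (h3 : v.asIdeal = Ideal.span {eE la} → ¬ GoodL D) (T : WeierstrassCurve.VariableChange (v.adicCompletion KK))
    (hT : (T • (ED (t5b_lo v D)).map (algebraMap (v.adicCompletionIntegers KK) (v.adicCompletion KK))).IsMinimal
      (v.adicCompletionIntegers KK)) :
    (IsDiscreteValuationRing.maximalIdeal (v.adicCompletionIntegers KK)).valuation (v.adicCompletion KK)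
      (T.u : v.adicCompletion KK) = 1 := by
  rcases places v hD with ⟨hv, k, c, hk, hc, he⟩ | ⟨hv, h3u, h2i, k, c, hk, hc, he⟩ |
    ⟨b, hb, -, hv, h6, h6u, k, c, hk, hc, he⟩
  · have hlo : t5b_lo v D = t5b_lo v la ^ k * t5b_lo v c := by rw [he, map_mul, map_pow]
    rw [hlo] at hT
    exact unit_la' (CU.t5b_irr' CU.la_prime hv) (CU.t5b_eps v) (CU.t5b_three v) (CU.t5b_res hv) _
      (CU.t5b_unit hv _ hc) k hk ((cond_la v hD hv hc he).2.2.1 (h3 hv)) T hT
  · have hlo : t5b_lo v D = 2 ^ k * t5b_lo v c := by rw [he, map_mul, map_pow, map_ofNat]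
    rw [hlo] at hT
    exact unit_two' h2i _ (CU.t5b_unit hv _ hc) k hk
      (fun hk4 x => cond_two4 v hv (h2 hv) hc (by rw [he, hk4]) x) T hT
  · have hlo : t5b_lo v D = t5b_lo v b ^ k * t5b_lo v c := by rw [he, map_mul, map_pow]
    rw [hlo] at hT
    exact unit_p' h6u (t5b_lo v b) (t5b_lo v c) (CU.t5b_irr' hb hv) (CU.t5b_unit hv _ hc) k hk T hT

/-- `2 ≠ 0` in the completion -/
theorem sqa_two_ne : (2 : v.adicCompletion KK) ≠ 0 := by
  have h1 : algebraMap KK (v.adicCompletion KK) 2 = 2 := map_ofNat _ 2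
  rw [← h1]
  intro h2
  rw [map_eq_zero] at h2
  norm_num at h2

/-- [SQa] -/
theorem good_two (hv : v.asIdeal = Ideal.span {eE (2 : Eis)}) {s c : Eis} (hs : ¬ (2 : Eis) ∣ s) (hD : D = 16 * (s ^ 2 + 4 * c)) :
    IsUnit (J2 (t5b_lo v s) (t5b_lo v c)).Δ ∧ ∃ C : WeierstrassCurve.VariableChange (v.adicCompletion KK),
      (C.u : v.adicCompletion KK) = (algebraMap (v.adicCompletionIntegers KK) (v.adicCompletion KK) 2)⁻¹ ∧
      (ED (jK D)).baseChange (v.adicCompletion KK) =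
        C • (J2 (t5b_lo v s) (t5b_lo v c)).map (algebraMap (v.adicCompletionIntegers KK) (v.adicCompletion KK)) := by
  constructor
  · rw [J2_Δ]
    have h1 : -27 * (t5b_lo v s ^ 2 + 4 * t5b_lo v c) ^ 2 = t5b_lo v (-27 * (s ^ 2 + 4 * c) ^ 2) := by
      rw [map_mul, map_pow, map_add, map_pow, map_mul, map_neg, map_ofNat, map_ofNat]
    rw [h1]
    refine CU.t5b_unit hv _ ?_
    have h2 := TH.b4_two_prime
    intro h3
    rcases h2.dvd_or_dvd h3 with h4 | h4
    · apply h2.not_isUnit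
      have h5 : (1 : Eis) = -27 + 2 * 14 := by norm_num
      exact isUnit_of_dvd_one (by
        rw [h5]
        exact dvd_add h4 (dvd_mul_right 2 14))
    · have h5 := h2.dvd_of_dvd_pow h4
      have h6 : (2 : Eis) ∣ s ^ 2 := by
        have h7 : (2 : Eis) ∣ 4 * c := ⟨2 * c, by ring⟩
        exact (dvd_add_left h7).1 h5
      exact hs (h2.dvd_of_dvd_pow h6)
  · obtain ⟨C, hu, hC⟩ := J2_smul (K := v.adicCompletion KK) (sqa_two_ne v) (t5b_lo v s) (t5b_lo v c)
    refine ⟨C, ?_, ?_⟩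
    · rw [hu, map_ofNat]
    · have hlo : t5b_lo v D = 16 * (t5b_lo v s ^ 2 + 4 * t5b_lo v c) := by
        rw [hD, map_mul, map_add, map_pow, map_mul, map_ofNat, map_ofNat]
      rw [hC, JD.bc, ED_map, hlo]

/-- [SQa] -/
theorem good_la (hv : v.asIdeal = Ideal.span {eE la}) {η c : Eis} (hη : η = 1 ∨ η = -1) (hD : D = la ^ 3 * (η + la ^ 3 * c)) :
    IsUnit (J3 (t5b_lo v la) (t5b_lo v (-om ^ 2)) (t5b_lo v η) (t5b_lo v c)).Δ ∧
    ∃ C : WeierstrassCurve.VariableChange (v.adicCompletion KK),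
      (C.u : v.adicCompletion KK) = (algebraMap (v.adicCompletionIntegers KK) (v.adicCompletion KK) (t5b_lo v la))⁻¹ ∧
      (ED (jK D)).baseChange (v.adicCompletion KK) =
        C • (J3 (t5b_lo v la) (t5b_lo v (-om ^ 2)) (t5b_lo v η) (t5b_lo v c)).map
          (algebraMap (v.adicCompletionIntegers KK) (v.adicCompletion KK)) := by
  have hη' : t5b_lo v η = 1 ∨ t5b_lo v η = -1 := by
    rcases hη with h | h
    · left; rw [h, map_one]
    · right; rw [h, map_neg, map_one]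
  have hl := CU.t5b_irr' CU.la_prime hv
  refine ⟨J3_unit hl (CU.t5b_eps v) (CU.t5b_three v) hη' _, ?_⟩
  obtain ⟨C, hu, hC⟩ := J3_smul (K := v.adicCompletion KK) hl (CU.t5b_three v) hη' (t5b_lo v c)
  refine ⟨C, hu, ?_⟩
  have hlo : t5b_lo v D = t5b_lo v la ^ 3 * (t5b_lo v η + t5b_lo v la ^ 3 * t5b_lo v c) := by
    rw [hD, map_mul, map_add, map_mul, map_pow]
  rw [hC, JD.bc, ED_map, hlo]

/-- [SQb] -/
theorem tam_allG (hD : ClG D) : SBSD.tam (ED (jK D)) v ≠ 0 ∧ ¬ 3 ∣ SBSD.tam (ED (jK D)) v := by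
  have hcr := CM27.card_residue KK v
  obtain ⟨-, hfin⟩ := hcr
  unfold SBSD.tam
  by_cases hg2 : v.asIdeal = Ideal.span {eE (2 : Eis)} ∧ Good2 D
  · obtain ⟨hv, s, c, hs, hDe⟩ := hg2
    obtain ⟨hJ, C, -, hC⟩ := good_two v hv hs hDe
    rw [hC, good_tam hJ C]
    norm_num
  by_cases hgl : v.asIdeal = Ideal.span {eE la} ∧ GoodL D
  · obtain ⟨hv, η, c, hη, hDe⟩ := hgl
    obtain ⟨hJ, C, -, hC⟩ := good_la v hv hη hDe
    rw [hC, good_tam hJ C]
    norm_num
  rw [JD.bc]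
  rcases places v hD with ⟨hv, k, c, hk, hc, he⟩ | ⟨hv, h3, h2i, k, c, hk, hc, he⟩ |
    ⟨b, hb, hp, hv, hb6, h6, k, c, hk, hc, he⟩
  · have hD' : t5b_lo v D = t5b_lo v la ^ k * t5b_lo v c := by rw [he, map_mul, map_pow]
    obtain ⟨c0, c24, c3a, c3b⟩ := cond_la v hD hv hc he
    rw [hD']
    exact tam_la' _ _ (CU.t5b_irr' CU.la_prime hv) (CU.t5b_eps v) (CU.t5b_three v) (CU.t5b_res hv)
      _ (CU.t5b_unit hv c hc) k hk c0 c24 (c3a fun h => hgl ⟨hv, h⟩) c3b (JD.s5b_six_ne v)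
  · have hD' : t5b_lo v D = 2 ^ k * t5b_lo v c := by rw [he, map_mul, map_pow, map_ofNat]
    rw [hD']
    refine tam_two' _ _ h2i _ (CU.t5b_unit hv c hc) k hk ?_ ?_
    · intro h4
      rw [h4] at he
      exact cond_two4 v hv (fun h => hg2 ⟨hv, h⟩) hc he
    · intro h8
      exact cond_two v hD hv hc he h8
  · have hD' : t5b_lo v D = t5b_lo v b ^ k * t5b_lo v c := by rw [he, map_mul, map_pow]
    rw [hD']
    exact tam_p' _ _ h6 _ _ (CU.t5b_irr' hb hv) (CU.t5b_unit hv c hc) k hk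
      fun h => cond_p v hD hb hv hb6 hc he h

omit D in
theorem sqc_ne (h2 : v.asIdeal = Ideal.span {eE (2 : Eis)}) : ¬ v.asIdeal = Ideal.span {eE la} := by
  intro h3
  have h4 : eE la ∈ v.asIdeal := by
    rw [h3]
    exact Ideal.mem_span_singleton_self _
  obtain ⟨c, hc⟩ := (CU.mem_iff h2 la).1 h4
  have h5 := congrArg QuadraticAlgebra.re hc
  have h6 : ((2 : Eis) * c).re = 2 * c.re := by
    have h7 : (2 : Eis) * c = c + c := by ring
    rw [h7, QuadraticAlgebra.re_add]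
    ring
  rw [h6] at h5
  have h8 : la.re = 1 := by decide
  omega

theorem sqc_neron (hD : ClG D) (h2 : v.asIdeal = Ideal.span {eE (2 : Eis)} → ¬ Good2 D)
    (h3 : v.asIdeal = Ideal.span {eE la} → ¬ GoodL D) : SBSD.neron (ED (jK D)) v = 1 := by
  refine PI.neron_of KK v (ED (jK D)) fun T hT => ?_
  have h1 : (ED (jK D)).baseChange (v.adicCompletion KK) =
      (ED (t5b_lo v D)).map (algebraMap (v.adicCompletionIntegers KK) (v.adicCompletion KK)) := by
    rw [ED_map]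
    exact JD.bc v D
  rw [h1] at hT
  exact min_allG v hD h2 h3 T hT

/-- [SQc] -/
theorem neron_G (hD : ClG D) : SBSD.neron (ED (jK D)) v =
    (if v.asIdeal = Ideal.span {eE (2 : Eis)} then (if Good2 D then 4 else 1) else 1) *
      (if v.asIdeal = Ideal.span {eE la} then (if GoodL D then 3 else 1) else 1) := by
  by_cases h2 : v.asIdeal = Ideal.span {eE (2 : Eis)}
  · have h3 := sqc_ne v h2
    rw [if_pos h2, if_neg h3, mul_one]
    by_cases hG : Good2 D
    · rw [if_pos hG]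
      obtain ⟨s, c, hs, hDe⟩ := hG
      obtain ⟨hJ, C, hCu, hC⟩ := good_two v h2 hs hDe
      have hi := CU.t5b_irr' TH.b4_two_prime h2
      rw [map_ofNat] at hi
      have h4 := neron_u KK v (ED (jK D)) _ hJ C 2 hi hCu hC
      rw [h4, h2, CU.absNorm_span]
      have h5 : (2 : Eis).norm.natAbs = 4 := by decide
      rw [h5]
      norm_num
    · rw [if_neg hG]
      exact sqc_neron v hD (fun _ => hG) (fun h => absurd h h3)
  · rw [if_neg h2, one_mul]
    by_cases h3 : v.asIdeal = Ideal.span {eE la}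
    · rw [if_pos h3]
      by_cases hG : GoodL D
      · rw [if_pos hG]
        obtain ⟨η, c, hη, hDe⟩ := hG
        obtain ⟨hJ, C, hCu, hC⟩ := good_la v h3 hη hDe
        have hi := CU.t5b_irr' CU.la_prime h3
        have h4 := neron_u KK v (ED (jK D)) _ hJ C _ hi hCu hC
        rw [h4, h3, CU.absNorm_span]
        have h5 : la.norm.natAbs = 3 := by decide
        rw [h5]
        norm_num
      · rw [if_neg hG]
        exact sqc_neron v hD (fun h => absurd h h2) (fun _ => hG)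
    · rw [if_neg h3]
      exact sqc_neron v hD (fun h => absurd h h2) (fun h => absurd h h3)

end

/-- [SQb] -/
theorem finprod_tamG {D : Eis} (hD : ClG D) : ∃ c : ℕ, c ≠ 0 ∧ ¬ 3 ∣ c ∧
    ∏ᶠ v : HeightOneSpectrum (𝓞 KK), SBSD.tam (ED (jK D)) v = c := by
  have h := finprod_induction (f := fun v : HeightOneSpectrum (𝓞 KK) => SBSD.tam (ED (jK D)) v)
    (fun c : ℕ => c ≠ 0 ∧ ¬ 3 ∣ c) (by norm_num)
    (fun x y hx hy => ⟨mul_ne_zero hx.1 hy.1, fun h =>
      ((Nat.Prime.dvd_mul Nat.prime_three).1 h).elim hx.2 hy.2⟩)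
    (fun v => tam_allG v hD)
  exact ⟨_, h.1, h.2, rfl⟩

theorem sqc_single (b : Eis) (hb : Prime b) (a : ℝ) :
    (∏ᶠ v : HeightOneSpectrum (𝓞 KK), (if v.asIdeal = Ideal.span {eE b} then a else 1)) = a ∧
    (Function.mulSupport fun v : HeightOneSpectrum (𝓞 KK) =>
      (if v.asIdeal = Ideal.span {eE b} then a else (1 : ℝ))).Finite := by
  have h1 : ∀ v : HeightOneSpectrum (𝓞 KK), v ≠ CU.pl b hb →
      (if v.asIdeal = Ideal.span {eE b} then a else (1 : ℝ)) = 1 := by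
    intro v hv
    rw [if_neg]
    intro h
    exact hv (HeightOneSpectrum.ext h)
  refine ⟨?_, ?_⟩
  · rw [finprod_eq_single _ (CU.pl b hb) h1]
    exact if_pos (show (CU.pl b hb).asIdeal = Ideal.span {eE b} from rfl)
  · refine (Set.finite_singleton (CU.pl b hb)).subset ?_
    intro v hv
    by_contra h
    exact hv (h1 v h)

/-- [SQc] -/
theorem finprod_neronG {D : Eis} (hD : ClG D) :
    ∏ᶠ v : HeightOneSpectrum (𝓞 KK), SBSD.neron (ED (jK D)) v = kap D := by
  obtain ⟨h1, h2⟩ := sqc_single (2 : Eis) TH.b4_two_prime (if Good2 D then 4 else 1)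
  obtain ⟨h3, h4⟩ := sqc_single la CU.la_prime (if GoodL D then 3 else 1)
  have h5 : (fun v : HeightOneSpectrum (𝓞 KK) => SBSD.neron (ED (jK D)) v) = fun v =>
      (if v.asIdeal = Ideal.span {eE (2 : Eis)} then (if Good2 D then 4 else 1) else 1) *
      (if v.asIdeal = Ideal.span {eE la} then (if GoodL D then 3 else 1) else 1) := by
    funext v
    exact neron_G v hD
  rw [h5, finprod_mul_distrib h2 h4, h1, h3]
  unfold kap
  push_cast
  rfl

/-- [SQc] -/
theorem period_G {D : Eis} (hD : ClG D) (h0 : D ≠ 0) :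
    SBSD.period (ED (jK D)) = √3 * Om ^ 2 / ‖emb (4 * D)‖ ^ ((1 : ℝ) / 3) * kap D := by
  have h1 : ∀ v : InfinitePlace KK,
      SBSD.archPeriod (ED (jK D)) v = √3 * Om ^ 2 / ‖emb (4 * D)‖ ^ ((1 : ℝ) / 3) := by
    intro v
    have hne2 : v.embedding (jK D) ≠ 0 := by
      rw [JD.jK_apply, ← norm_ne_zero_iff, CU.norm_embedding_KK, norm_ne_zero_iff, ← map_zero emb]
      exact fun h => h0 (emb_injective h)
    have h5 : ‖4 * v.embedding (jK D)‖ = ‖emb (4 * D)‖ := by
      rw [norm_mul, JD.jK_apply, CU.norm_embedding_KK, map_mul, norm_mul]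
      congr 1
      have h6 : emb (4 : Eis) = 4 := map_ofNat emb 4
      rw [h6]
    unfold SBSD.archPeriod
    rw [dif_neg (CU.not_isReal_KK v), ED_map, JD.complexArea_ED _ hne2, h5]
    ring
  unfold SBSD.period
  rw [finprod_neronG hD]
  simp only [h1]
  rw [Finset.prod_const, Finset.card_univ, CU.card_place_KK, pow_one]

theorem sqd_key {D p₂ pl : Eis} (v : HeightOneSpectrum (𝓞 KK)) (hD : ClG D) (h1 : ¬ IsUnit (6 * t5b_lo v D))
    (h2 : v.asIdeal = Ideal.span {eE (2 : Eis)} → ¬ Good2 D) (h3 : v.asIdeal = Ideal.span {eE la} → ¬ GoodL D)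
    (h4 : psvG D p₂ pl v = 0) :
    ∃ a b : ℤ, (ED (algebraMap (v.adicCompletionIntegers KK) (v.adicCompletion KK) (t5b_lo v D))).localPolynomial
        (v.adicCompletionIntegers KK) = 1 - Polynomial.C a * Polynomial.X + Polynomial.C b * Polynomial.X ^ 2 ∧
      (a : ℂ) = emb (psvG D p₂ pl v) + conj (emb (psvG D p₂ pl v)) ∧
      (b : ℂ) = emb (psvG D p₂ pl v) * conj (emb (psvG D p₂ pl v)) := by
  refine ⟨0, 0, ?_, ?_, ?_⟩
  · rw [JD.localPoly_bad _ _ _ h1 (fun T hT => min_allG v hD h2 h3 T hT)]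
    simp
  · rw [h4]
    simp
  · rw [h4]
    simp

/-- [SQd] -/
theorem LCW_G {D p₂ pl : Eis} (hD : ClG D) (h2 : Val2 D p₂) (h3 : ValL D pl) :
    LCW KK (ED (jK D)) = IL KK (fun I => emb (PsiG D p₂ pl I)) * IL KK (fun I => conj (emb (PsiG D p₂ pl I))) := by
  have hone : PsiG D p₂ pl 1 = 1 := NAB.cm_one _
  have hmul : ∀ I J : Ideal (𝓞 KK), PsiG D p₂ pl (I * J) = PsiG D p₂ pl I * PsiG D p₂ pl J := fun I J => NAB.cm_mul _ I J
  refine LCW_eq_IL KK _ (fun I => emb (PsiG D p₂ pl I)) (fun I => conj (emb (PsiG D p₂ pl I)))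
    (by simp only [hone, map_one]) (by simp only [hone, map_one])
    (fun I J => by simp only [hmul, map_mul]) (fun I J => by simp only [hmul, map_mul]) ?_
  intro v
  rw [JD.bc]
  have hpr : PsiG D p₂ pl v.asIdeal = psvG D p₂ pl v := NAB.cm_prime _ v
  rw [hpr]
  have hne : ¬ (Ideal.span {eE la} = Ideal.span {eE (2 : Eis)}) := by
    intro h
    have h5 : eE la ∈ Ideal.span {eE (2 : Eis)} := h ▸ Ideal.mem_span_singleton_self _
    have h6 : eE (2 : Eis) ∣ eE la := Ideal.mem_span_singleton.1 h5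
    have h7 : (2 : Eis) ∣ la := (map_dvd_iff eE).1 h6
    have h8 : (2 : Eis) ∣ 3 := by
      have h9 := CU.three_eq
      rw [h9]
      exact (h7.trans (dvd_pow_self la two_ne_zero)).mul_left _
    have h10 : (2 : Eis) ∣ 1 := by
      have h11 : (1 : Eis) = 3 - 2 := by norm_num
      rw [h11]
      exact dvd_sub h8 dvd_rfl
    exact TH.b4_two_prime.not_isUnit (isUnit_of_dvd_one h10)
  rcases places v hD with ⟨hv, k, c, hk, hc, he⟩ | ⟨hv, h3u, h2i, k, c, hk, hc, he⟩ |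
    ⟨b, hb, hp, hv, h6, h6u, k, c, hk, hc, he⟩
  · have hv2 : ¬ v.asIdeal = Ideal.span {eE (2 : Eis)} := fun h => hne (hv.symm.trans h)
    have e1 : psvG D p₂ pl v = pl := (if_neg hv2).trans (if_pos hv)
    rcases h3 with ⟨hn, h0⟩ | ⟨η, c', n, hη, hD', hn, hcn, hp1, hp2⟩
    · refine sqd_key v hD ?_ (fun h => absurd h hv2) (fun _ => hn) (e1.trans h0)
      intro h
      have h1 : (6 : v.adicCompletionIntegers KK) * t5b_lo v D =
          t5b_lo v la * (2 * t5b_lo v (-om ^ 2) * t5b_lo v la * t5b_lo v D) := by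
        have h3 := CU.t5b_three v
        linear_combination (2 * t5b_lo v D) * h3
      rw [h1] at h
      exact (CU.t5b_irr' CU.la_prime hv).not_isUnit (isUnit_of_mul_isUnit_left h)
    · rw [e1]
      exact poly_la v hv hη hD' hn hcn hp1 hp2
  · have e1 : psvG D p₂ pl v = p₂ := if_pos hv
    rcases h2 with ⟨hn, h0⟩ | ⟨s, c', e, ζ, hs, hD', hp1, he1, he2, hz, hz'⟩
    · refine sqd_key v hD ?_ (fun _ => hn) (fun h => absurd (h.symm.trans hv) hne) (e1.trans h0)
      intro h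
      have h1 : (6 : v.adicCompletionIntegers KK) * t5b_lo v D = 2 * (3 * t5b_lo v D) := by ring
      rw [h1] at h
      exact h2i.not_isUnit (isUnit_of_mul_isUnit_left h)
    · rw [e1, hp1]
      exact poly_two v hv hs hD' he1 he2 hz hz'
  · have hvl : ¬ v.asIdeal = Ideal.span {eE la} := by
      intro h
      have h5 : eE b ∣ eE la := Ideal.mem_span_singleton.1 (by rw [← hv, h]; exact Ideal.mem_span_singleton_self _)
      have h7 : b ∣ la := (map_dvd_iff eE).1 h5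
      refine h6 (h7.trans ?_)
      have h8 : (6 : Eis) = 2 * 3 := by norm_num
      rw [h8, CU.three_eq]
      exact ((dvd_pow_self la two_ne_zero).mul_left _).mul_left _
    have hv2 : ¬ v.asIdeal = Ideal.span {eE (2 : Eis)} := by
      intro h
      have h5 : eE b ∣ eE 2 := Ideal.mem_span_singleton.1 (by rw [← hv, h]; exact Ideal.mem_span_singleton_self _)
      have h7 : b ∣ 2 := (map_dvd_iff eE).1 h5
      exact h6 (h7.trans ⟨3, by norm_num⟩)
    have e1 : psvG D p₂ pl v = JD.psv6 (eE D) v := (if_neg hv2).trans (if_neg hvl)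
    by_cases hk0 : k = 0
    · have hbD : ¬ b ∣ 2 * D := by
        intro h
        rcases hb.dvd_or_dvd h with h | h
        · exact h6 (h.trans ⟨3, by norm_num⟩)
        · rw [he, hk0, pow_zero, one_mul] at h
          exact hc h
      have hu : IsUnit (6 * t5b_lo v D) :=
        h6u.mul (CU.t5b_unit hv _ (fun h => hbD (h.mul_left _)))
      rw [e1, ← JD.Psi6_prime]
      exact JD.s6b_good v hb hp hv hbD hu
    · have hbD : b ∣ D := by
        rw [he]
        exact (dvd_pow_self b hk0).mul_right _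
      refine sqd_key v hD ?_ (fun h => absurd h hv2) (fun h => absurd h hvl) ?_
      · intro h
        obtain ⟨x, hx⟩ := hbD
        rw [hx, map_mul] at h
        exact (CU.t5b_irr' hb hv).not_isUnit (isUnit_of_mul_isUnit_left (isUnit_of_mul_isUnit_right h))
      · rw [e1]
        refine JD.psv6_zero _ (Or.inr ?_)
        rw [hv]
        exact Ideal.mem_span_singleton.2 (map_dvd eE hbD)

theorem sqe_one (D p₂ pl : Eis) : PsiG D p₂ pl 1 = 1 := NAB.cm_one _

theorem sqe_mul (D p₂ pl : Eis) (I J : Ideal (𝓞 KK)) : PsiG D p₂ pl (I * J) = PsiG D p₂ pl I * PsiG D p₂ pl J :=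
  NAB.cm_mul _ I J

theorem sqe_prime (D p₂ pl : Eis) (v : HeightOneSpectrum (𝓞 KK)) : PsiG D p₂ pl v.asIdeal = psvG D p₂ pl v :=
  NAB.cm_prime _ v

theorem sqe_root {x : Eis} {n : ℕ} (hn : n ≠ 0) (h : x ^ n = 1) : ‖emb x‖ = 1 := by
  have h1 : ‖emb x‖ ^ n = 1 := by
    rw [← norm_pow, ← map_pow, h, map_one, norm_one]
  exact (pow_eq_one_iff_of_nonneg (norm_nonneg _) hn).1 h1

theorem sqe_two {D p₂ : Eis} (h2 : Val2 D p₂) : ‖emb p₂‖ ^ 2 ≤ 4 := by
  rcases h2 with ⟨-, h⟩ | ⟨s, c, e, ζ, -, -, hp, he, -, hz, -⟩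
  · rw [h, _root_.map_zero, norm_zero]
    norm_num
  · have he2 : e ^ 2 = 1 := by
      rcases he with h | h <;> rw [h] <;> ring
    have h1 := sqe_root two_ne_zero he2
    have h3 := sqe_root three_ne_zero hz
    rw [hp, map_mul, map_mul, map_neg, map_ofNat, norm_mul, norm_mul, h1, h3, norm_neg, mul_one, mul_one]
    norm_num

theorem sqe_la {D pl : Eis} (h3 : ValL D pl) : ‖emb pl‖ ^ 2 ≤ 3 := by
  rcases h3 with ⟨-, h⟩ | ⟨η, c, n, -, -, -, -, hp, -⟩
  · rw [h, _root_.map_zero, norm_zero]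
    norm_num
  · have h1 := congrArg emb hp
    rw [map_mul, map_ofNat, CM27.emb_star, Complex.mul_conj, Complex.normSq_eq_norm_sq] at h1
    have h4 : ‖emb pl‖ ^ 2 = 3 := by exact_mod_cast h1
    exact h4.le

/-- [SQe] -/
theorem PsiG_norm_le {D p₂ pl : Eis} (h2 : Val2 D p₂) (h3 : ValL D pl) (I : Ideal (𝓞 KK)) (hI : I ≠ 0) :
    ‖emb (PsiG D p₂ pl I)‖ ^ 2 ≤ Ideal.absNorm I := by
  refine ideal_induction (F := KK) (P := fun I => ‖emb (PsiG D p₂ pl I)‖ ^ 2 ≤ Ideal.absNorm I) ?_ ?_ I hI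
  · rw [sqe_one, map_one, norm_one, one_pow, map_one, Nat.cast_one]
  · intro v I hI ih
    rw [sqe_mul, sqe_prime, map_mul, norm_mul, mul_pow, map_mul, Nat.cast_mul]
    refine mul_le_mul ?_ ih (by positivity) (by positivity)
    by_cases hv2 : v.asIdeal = Ideal.span {eE (2 : Eis)}
    · have e1 : psvG D p₂ pl v = p₂ := if_pos hv2
      rw [e1, hv2, CU.absNorm_span]
      refine (sqe_two h2).trans ?_
      have e2 : (2 : Eis).norm.natAbs = 4 := by decide
      rw [e2]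
      norm_num
    · by_cases hvl : v.asIdeal = Ideal.span {eE la}
      · have e1 : psvG D p₂ pl v = pl := (if_neg hv2).trans (if_pos hvl)
        rw [e1, hvl, CU.absNorm_span]
        refine (sqe_la h3).trans ?_
        have e2 : la.norm.natAbs = 3 := by decide
        rw [e2]
        norm_num
      · have e1 : psvG D p₂ pl v = JD.Psi6 (eE D) v.asIdeal := ((if_neg hv2).trans (if_neg hvl)).trans (JD.Psi6_prime (eE D) v).symm
        rw [e1]
        exact JD.Psi6_norm_le (eE D) v.asIdeal v.ne_bot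

/-- [SQe] -/
theorem entire_G {D p₂ pl : Eis} (hD : ClG D) (h2 : Val2 D p₂) (h3 : ValL D pl) (Φ : ℂ → ℂ) (hΦ : Differentiable ℂ Φ)
    (hs : ∀ s : ℂ, 3 / 2 < s.re → Φ s = LSeries (fun n => IL KK (fun I => conj (emb (PsiG D p₂ pl I))) n) s) :
    SBSD2.IsEntireLSeries (ED (jK D)) (fun s => Φ s * conj (Φ (conj s))) := by
  obtain ⟨g, hg⟩ : ∃ g : Ideal (𝓞 KK) → ℂ, g = fun I => emb (PsiG D p₂ pl I) := ⟨_, rfl⟩
  have hlam : ∀ I : Ideal (𝓞 KK), I ≠ 0 → ‖g I‖ ^ 2 ≤ Ideal.absNorm I := by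
    intro I hI
    rw [hg]
    exact PsiG_norm_le h2 h3 I hI
  have hlam' : ∀ I : Ideal (𝓞 KK), I ≠ 0 → ‖conj (g I)‖ ^ 2 ≤ Ideal.absNorm I := by
    intro I hI
    rw [Complex.norm_conj]
    exact hlam I hI
  have hs' : ∀ s : ℂ, 3 / 2 < s.re →
      Φ s = LSeries (fun n => IL KK (fun I => conj (g I)) n) s := by
    intro s h5
    rw [hg]
    exact hs s h5
  have cc : Differentiable ℂ (fun s => conj (Φ (conj s))) :=
    fun s => differentiableAt_conj_conj_iff.2 (hΦ (conj s))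
  have hLf : (fun k => ((ED (jK D)).LFunction k : ℂ)) =
      fun k => (IL KK g * IL KK (fun I => conj (g I))) k := by
    have h6 := LCW_G hD h2 h3
    rw [hg, ← h6]
    rfl
  refine ⟨hΦ.mul cc, ?_⟩
  intro s h5
  have t1 := LSeriesSummable_IL KK _ hlam s h5
  have t2 := LSeriesSummable_IL KK _ hlam' s h5
  have t3 : (ED (jK D)).LSeries s =
      LSeries (fun k => ((ED (jK D)).LFunction k : ℂ)) s := rfl
  rw [t3, hLf]
  refine ⟨ArithmeticFunction.LSeriesSummable_mul t1 t2, ?_⟩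
  change Φ s * conj (Φ (conj s)) = _
  rw [ArithmeticFunction.LSeries_mul' t1 t2, hs' s h5, hs' (conj s) (by
    rw [Complex.conj_re]; exact h5), NAB.LSeries_conj, NAB.LSeries_conj, Complex.conj_conj, Complex.conj_conj,
    mul_comm]

end JG
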