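import Pool.Agent.JG.SP

/-!
# [JG-SV] the local square conditions

PROOF. `nz`, `nsqK` [SVa]: `D = 0` is divisible by `2^6`. `x² = jK D`, `x ∈ KK`: `x` is integral over `𝓞 KK` (or `ℤ`), so `x = jK y` (`IsIntegrallyClosed`, `eE`), `y² = D`.
`clV_of` [SVa]: let `v`, `s`, `s² = jK D` in `v.adicCompletion KK`, `places` (JG/SP.lean): `D = π^k c` with `π` a generator of `v`, `¬ π ∣ c`, `k ≤ 5`. `Valued.v (algebraMap KK _ (jK D)) = exp (-k)`: `v.valuation KK (jK D)`, `valuedAdicCompletion_eq_valuation'`; `jK π` has valuation `exp (-1)`, `jK c` has valuation `1` (`CU.t5b_irr'`, `CU.t5b_unit`; or `HeightOneSpectrum.valuation_of_algebraMap`;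
see `JD.g4b_place`, `JG.ov_val` etc.). So `Valued.v s ^ 2 = exp (-k)`, `k` is even, `Valued.v s = exp (-k/2)`, and `s = π^(k/2) s'` with a unit `s'` of `O_v`, `s'² = c` in `O_v` (`t5b_lo v c`).
`v = (la)`: `Valued.v 2 = 1`. `k = 0`: `Valued.v (2 s) = 1`, `g = 1`. `k = 2, 4`: `la ∣ c + 1` (`cond_la`), so `la ∣ s'² + 1` in `O_v`: impossible (`CU.t5b_res hv s'`: `s'² + 1 ≡ 1` or `2`).
`v = (2)`: `Valued.v 2 = exp (-1)`. `k = 0, 2`: contradiction to `cond_two` with `x = s'` (`8 ∣ 0`). `k = 4`: `Valued.v (2 s) = exp (-3)`, `g = exp (-1)`. `v = (b)`, `b ∤ 6`: `Valued.v 2 = 1`, `k = 0`: `g = 1`; `k = 2, 4`: contradiction to `cond_p` with `x = s'`.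
-/

set_option autoImplicit false

open NumberField IsDedekindDomain
open scoped Classical

namespace JG

open CM27 CF JZ
open JD (ED ED_map jK)
open CU (la om eE t5b_lo)

theorem nz {D : Eis} (hD : ClG D) : D ≠ 0 := by
  rintro rfl
  exact hD.free 2 TH.b4_two_prime (dvd_zero _)

/-- [SVa] -/
theorem nsqK {D : Eis} (hD : ClG D) (x : KK) : x ^ 2 ≠ jK D := by
  intro hx
  have h1 : IsIntegral (𝓞 KK) (x ^ 2) := by
    rw [hx]
    exact isIntegral_algebraMap (R := 𝓞 KK) (A := KK) (x := eE D)
  obtain ⟨y, hy⟩ := IsIntegrallyClosed.exists_algebraMap_eq_of_isIntegral_pow (R := 𝓞 KK) (K := KK) two_pos h1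
  obtain ⟨z, rfl⟩ := eE.surjective y
  apply hD.nsq
  refine ⟨z, ?_⟩
  apply eE.injective
  apply RingOfIntegers.coe_injective
  rw [map_pow, map_pow, hy, hx]
  rfl

theorem svb_unit {v : HeightOneSpectrum (𝓞 KK)} {x : v.adicCompletionIntegers KK} (hx : IsUnit x) :
    Valued.v (x : v.adicCompletion KK) = 1 := by
  obtain ⟨y, hy⟩ := hx.exists_right_inv
  have h1 : Valued.v (x : v.adicCompletion KK) ≤ 1 := x.2
  have h2 : Valued.v (y : v.adicCompletion KK) ≤ 1 := y.2
  have h3 : (x : v.adicCompletion KK) * (y : v.adicCompletion KK) = 1 := by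
    have h4 := congrArg (fun z : v.adicCompletionIntegers KK => (z : v.adicCompletion KK)) hy
    exact h4
  have h5 := congrArg Valued.v h3
  rw [map_mul, map_one] at h5
  refine le_antisymm h1 ?_
  calc (1 : WithZero (Multiplicative ℤ)) = Valued.v (x : v.adicCompletion KK) * Valued.v (y : v.adicCompletion KK) := h5.symm
    _ ≤ Valued.v (x : v.adicCompletion KK) * 1 := by gcongr
    _ = _ := mul_one _

theorem svb_root {v : HeightOneSpectrum (𝓞 KK)} {D b c : Eis} {k : ℕ} (hb : Prime b) (hv : v.asIdeal = Ideal.span {eE b})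
    (hc : ¬ b ∣ c) (he : D = b ^ k * c) {s : v.adicCompletion KK}
    (hs : s ^ 2 = algebraMap KK (v.adicCompletion KK) (jK D)) :
    ∃ (n : ℕ) (w : (v.adicCompletionIntegers KK)ˣ), k = 2 * n ∧ (w : v.adicCompletionIntegers KK) ^ 2 = t5b_lo v c ∧
      s = (((w : v.adicCompletionIntegers KK) * t5b_lo v b ^ n : v.adicCompletionIntegers KK) : v.adicCompletion KK) := by
  have hirr := CU.t5b_irr' hb hv
  obtain ⟨u, hu⟩ := CU.t5b_unit hv c hc
  have hs1 : s ^ 2 = algebraMap (v.adicCompletionIntegers KK) (v.adicCompletion KK) (t5b_lo v D) := hs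
  have h1 : IsIntegral (v.adicCompletionIntegers KK) (s ^ 2) := by
    rw [hs1]
    exact isIntegral_algebraMap
  obtain ⟨t, ht⟩ := IsIntegrallyClosed.exists_algebraMap_eq_of_isIntegral_pow two_pos h1
  have h2 : t ^ 2 = t5b_lo v b ^ k * t5b_lo v c := by
    apply IsFractionRing.injective (v.adicCompletionIntegers KK) (v.adicCompletion KK)
    rw [map_pow, ht, hs1, he, map_mul, map_pow]
  have ht0 : t ≠ 0 := by
    rintro rfl
    have h3 : t5b_lo v b ^ k * t5b_lo v c ≠ 0 := by
      rw [← hu]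
      exact mul_ne_zero (pow_ne_zero _ hirr.ne_zero) u.ne_zero
    apply h3
    rw [← h2]
    ring
  obtain ⟨n, w, hw⟩ := IsDiscreteValuationRing.eq_unit_mul_pow_irreducible ht0 hirr
  have h4 : ((u : (v.adicCompletionIntegers KK)ˣ) : v.adicCompletionIntegers KK) * t5b_lo v b ^ k =
      ((w ^ 2 : (v.adicCompletionIntegers KK)ˣ) : v.adicCompletionIntegers KK) * t5b_lo v b ^ (2 * n) := by
    rw [hu, Units.val_pow_eq_pow_val]
    rw [hw] at h2
    linear_combination -h2
  have h5 := IsDiscreteValuationRing.unit_mul_pow_congr_pow hirr hirr _ _ _ _ h4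
  refine ⟨n, w, h5, ?_, ?_⟩
  · subst h5
    have h6 := mul_right_cancel₀ (pow_ne_zero _ hirr.ne_zero) h4
    rw [Units.val_pow_eq_pow_val, hu] at h6
    exact h6.symm
  · rw [← ht, hw]
    rfl

/-- [SVb] -/
theorem clV_of {D : Eis} (hD : ClG D) : ClV D := by
  intro v s hs
  have hval : ∀ (x y : v.adicCompletionIntegers KK), Valued.v ((x * y : v.adicCompletionIntegers KK) : v.adicCompletion KK) =
      Valued.v (x : v.adicCompletion KK) * Valued.v (y : v.adicCompletion KK) := fun x y => map_mul _ _ _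
  have h2co : ((2 : v.adicCompletionIntegers KK) : v.adicCompletion KK) = 2 := rfl
  rcases places v hD with ⟨hv, k, c, hk, hc, he⟩ | ⟨hv, -, -, k, c, hk, hc, he⟩ | ⟨b, hb, -, hv, h6, h6u, k, c, hk, hc, he⟩
  · obtain ⟨n, w, hkn, hw, hsw⟩ := svb_root CU.la_prime hv hc he hs
    have h2u : IsUnit (2 : v.adicCompletionIntegers KK) := by
      have h3 : ¬ la ∣ 2 := by
        rintro ⟨x, hx⟩
        have h4 := CU.la_prime.not_isUnit
        apply h4
        have h5 : la * (la * (-om ^ 2) - x) = 1 := by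
          have h7 : (3 : Eis) = -om ^ 2 * la ^ 2 := by decide
          linear_combination -h7 + hx
        exact IsUnit.of_mul_eq_one _ h5
      have h4 := CU.t5b_unit hv 2 h3
      rwa [map_ofNat] at h4
    have hn : n = 0 := by
      by_contra hn
      have h3 := (cond_la v hD hv hc he).2.1 (by omega)
      rw [← hw] at h3
      have hirr := CU.t5b_irr' CU.la_prime hv
      have h4 : ∀ x : v.adicCompletionIntegers KK, IsUnit x → ¬ t5b_lo v la ∣ x := fun x hx hd =>
        hirr.not_isUnit (isUnit_of_dvd_unit hd hx)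
      rcases CU.t5b_res hv (w : v.adicCompletionIntegers KK) with h5 | h5 | h5
      · exact h4 _ w.isUnit h5
      · apply h4 _ h2u
        have h7 : (2 : v.adicCompletionIntegers KK) = ((w : v.adicCompletionIntegers KK) ^ 2 + 1) -
            ((w : v.adicCompletionIntegers KK) - 1) * ((w : v.adicCompletionIntegers KK) + 1) := by ring
        rw [h7]
        exact dvd_sub h3 (h5.mul_right _)
      · apply h4 _ h2u
        have h7 : (2 : v.adicCompletionIntegers KK) = ((w : v.adicCompletionIntegers KK) ^ 2 + 1) -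
            ((w : v.adicCompletionIntegers KK) + 1) * ((w : v.adicCompletionIntegers KK) - 1) := by ring
        rw [h7]
        exact dvd_sub h3 (h5.mul_right _)
    subst hn
    refine ⟨1, ?_⟩
    rw [one_pow, map_mul, hsw, pow_zero, mul_one, svb_unit w.isUnit, mul_one, ← h2co, svb_unit h2u]
  · obtain ⟨n, w, hkn, hw, hsw⟩ := svb_root TH.b4_two_prime hv hc he hs
    have h3 : ¬ (k = 0 ∨ k = 2) := by
      intro h3
      apply cond_two v hD hv hc he h3 (w : v.adicCompletionIntegers KK)
      rw [hw, sub_self]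
      exact dvd_zero _
    have hn : n = 2 := by omega
    subst hn
    refine ⟨Valued.v (2 : v.adicCompletion KK), ?_⟩
    have h4 : t5b_lo v 2 = 2 := map_ofNat _ 2
    rw [hsw, h4, map_mul, hval, svb_unit w.isUnit, one_mul]
    have h5 : (((2 : v.adicCompletionIntegers KK) ^ 2 : v.adicCompletionIntegers KK) : v.adicCompletion KK) = 2 ^ 2 := rfl
    rw [h5, map_pow]
    exact (pow_succ' _ 2).symm
  · obtain ⟨n, w, hkn, hw, hsw⟩ := svb_root hb hv hc he hs
    have hn : n = 0 := by
      by_contra hn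
      apply cond_p v hD hb hv h6 hc he (by omega) (w : v.adicCompletionIntegers KK)
      rw [hw, sub_self]
      exact dvd_zero _
    subst hn
    have h2u : IsUnit (2 : v.adicCompletionIntegers KK) := by
      have h3 : (6 : v.adicCompletionIntegers KK) = 2 * 3 := by norm_num
      rw [h3] at h6u
      exact isUnit_of_mul_isUnit_left h6u
    refine ⟨1, ?_⟩
    rw [one_pow, map_mul, hsw, pow_zero, mul_one, svb_unit w.isUnit, mul_one, ← h2co, svb_unit h2u]

end JG
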