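import Pool.Agent.JG.SP
import Pool.Agent.JD.E3
import Pool.Agent.JG.SV

/-!
# [JG-SH] the excluded cases: `3` divides the Tamagawa number

`V` = the valuation of the maximal ideal of `A` on `K`. `VC63.NR (ED D) P`: MP_9ab903_nt/NT/V2.lean.

PROOF. `mk_sub` [SHa]: `S` is closed under addition: if `Q₁, Q₂ ∈ S`, `Q₁ + Q₂ ∉ S` then `(Q₁ + Q₂) + (-Q₂) = Q₁ ∉ S`; so `S` is the carrier of a subgroup. `three_dvd_index` [SHa]: in `G ⧸ closure S` the class of `T` is not `0` (`mk_sub`), three times it is `0`: its order is `3` (`addOrderOf_eq_prime`), `addOrderOf_dvd_natCard`.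
`nrX_i` [SHa]: `D̄ = 0`, the reduced curve is `y² = x³`; `(ā, b̄)` is nonsingular iff `ā ≠ 0`: `2, 3` are not both zero in the residue field; `WeierstrassCurve.Affine.nonsingular_iff'`, `JD.s3_nonsing`. If `V x ≥ 1` and `x = algebraMap a`, `a` is a unit, `ā ≠ 0`, `b̄² = ā³ ≠ 0`, `3 ā² ≠ 0` or `2 b̄ ≠ 0`. If `V x < 1`: `x = algebraMap a`, `y = algebraMap b` (`y² = x³ + D`, `V y < 1`), `ā = b̄ = 0`.
`nrX_two` [SHa]: residue characteristic `2`: `(ā, b̄)` is nonsingular iff `3 ā² ≠ 0` iff `ā ≠ 0` (`y` is integral if `x` is).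
`closedX` [SHb]: `hX`: `NR (x, y) ↔ 1 ≤ V x`. `P = (x, y)`, `V x < 1`; `Q = 0` trivial; `Q = (xQ, yQ)`, `V xQ ≥ 1`, so `x ≠ xQ`, `x₃ = m² - x - xQ`, `m = (y - yQ)/(x - xQ)`, `x₃ (x - xQ)² = 2 D - 2 y yQ + x xQ (x + xQ)` (with the two equations). `V (x - xQ) = V xQ`. To show: the right side has valuation `< V xQ ^ 2`.
`V (x xQ (x + xQ)) = V x * V xQ ^ 2`. First alternative (`l ∣ D`): `V D < 1`, `V y < 1`, `V yQ ^ 2 = V xQ ^ 3`, so `V yQ ≤ V xQ ^ 2`. Second alternative (`V 2 < 1`): `V y ≤ 1`, `V (2 D) < 1`, `V yQ ^ 2 ≤ V xQ ^ 3`.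
`three_sq` [SHb]: `VC63.tamagawa_eq`, `mk_sub`/`three_dvd_index` with `closedX`, `S = {NR}` (closed under `-`: `nrX` depends on `x` only), `T = (0, y₀)`, `y₀ ≠ 0`, `2 y₀ ≠ 0`: `T + T = (0, -y₀) = -T` (slope `0`), `T ∉ S` since `V 0 < 1`.
`three_la3` [SHc]: `3 = ε l²`, `9 = ε² l⁴`. `l ∣ D = l³ (η + l y₂²)`; `y₂` is a unit. `T = (-η l, l² y₂)`. `T + T`: slope `m = 3 x²/(2 y) = ε l²/(2 y₂)`, `x (2 T) = m² - 2 x = (9 + 8 η l y₂²)/(4 y₂²) = l x₁'`, `x₁' = (ε² l³ + 8 η y₂²)/(4 y₂²)`, `x₁' + η = (ε² l³ + 12 η y₂²)/(4 y₂²)`, `V (x₁' + η) ≤ V l ^ 2`; `y (2 T) = -(l² y₂ + m (x (2 T) + η l))`,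
`V (y (2 T) + l² y₂) ≤ V l ^ 5`. `3 T = 2 T + T`: if `x (2T) = x (T)`: `2 T = - T` (`2 T = T` is impossible), `3 T = 0`. Otherwise the slope `m'` has `V m' = V (y (2 T) - y) / V (l (x₁' + η)) ≥ V l ^ 2 / V l ^ 3 > 1`, so `V (x (3 T)) > 1`: `NR`. `closedX`, `three_dvd_index`.
`nrY` [SHd] (`D = η + l² (1 + l d)`): `NR (x, y) ↔ 1 ≤ V y`: `JD.nr_iff` has the hypothesis `hD'` which fails here; copy its proof (it uses `s4b_nonsing`, `s4b_x`, `s4b_mem`; not `hD'` in an essential way). `closedY` [SHd]: `P = (x, y)`, `V y < 1`, `x = -η + δ`, `V δ < 1` (`x³ ≡ -η`, `hres`); `Q = (xQ, yQ)`, `V yQ ≥ 1`; `V (xQ + η) ≥ 1`, `x ≠ xQ`.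
`(x₃ + η) (x - xQ)² = (2 D + η x²) + xQ (x² - 2 η x) + xQ² (x + η) - 2 y yQ`, with `2 D + η x² ≡ 3 η ≡ 0`, `x² - 2 η x = 3 - 4 η δ + δ² ≡ 0`, `x + η = δ`. If `V xQ ≤ 1`: `V (x - xQ) = V (xQ + η) = 1` and the right side has valuation `< 1` (`V yQ ≤ 1`). If `V xQ > 1`: `V (x - xQ) = V xQ`, `V yQ ^ 2 = V xQ ^ 3`: the right side has valuation `< V xQ ^ 2`. So `V (x₃ + η) < 1`,
`y₃² = x₃³ + D`, `V y₃ < 1`.
`three_la0` [SHd]: `T = (-η, l y₁)`, `y₁² = 1 + l d`, `(l y₁)² = -η³ + D`. `2 T`: `m = 3/(2 l y₁) = ε l/(2 y₁)`, `x (2 T) = m² + 2 η = -η + l² (ε η + ε²/(4 y₁²))`, `y (2 T) = -(l y₁ + m (x (2 T) + η))`, `V (y (2 T) + l y₁) ≤ V l ^ 3`. `3 T`: `x (2 T) = x (T)`: `3 T = 0`; otherwise `V m' ≥ V l / V l ^ 2 > 1`, `V (x (3 T)) > 1`, so `V (y (3T)) > 1`: `NR`.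
`sqrt_odd` [SHe]: `JD.sqrt_one` (JD/E3.lean) for `c / x²`. `sqrt_two` [SHe]: `c = x² (1 + 8 t)`, `1 + 8 t = (1 + 2 w)²` iff `w² + w = 2 t`; `JD.hensel3` (JD/E1.lean) for `(w² + w - 2 t)(w + 1) = w³ + 2 w² + (1 - 2 t) w - 2 t`, `x₀ = 0`: `V w < 1`, `w + 1 ≠ 0`.
`clG_of` [SHf]: each condition: suppose it fails, find `v` with `3 ∣ tam`. `odd`: `v = (p)` (`CU.pl p hp`), `c ≡ x² mod p`: `lo c = y²` (`sqrt_odd`), `D = (p y)²` or `(p² y)²`: `three_sq`, minimality by `unit_p'` (JG/SA.lean); `SBSD.tam`, `bc` (JD/S5.lean). `two`: `v = (2)`, `sqrt_two`, `unit_two'` (`k = 0, 2`), `three_sq` with `l = 2`. `la24`: `¬ la ∣ c`, `¬ la ∣ c + 1`, so `la ∣ c - 1`: `lo c` is a square,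
`three_sq`, `unit_la'`. `la3`: `c = η + la + la² c'`, `lo (1 + la c') = y₂²` (`sqrt_odd`), `three_la3`; `unit_la'` (`k = 3`: `¬ la³ ∣ c - η'`: `c - η' ≡ η - η' + la mod la²`; in the completion by `dvd_powG`). `la0`: `D = η + la² (1 + la d)`, `three_la0`.
-/

set_option autoImplicit false

open NumberField IsDedekindDomain
open scoped Classical

namespace JG

open CM27 CF JZ
open JD (ED ED_map ED_Δ ED_c₄ ED_equation jK)
open CU (la om eE t5b_lo)

/-- [SHa] -/
theorem mk_sub {G : Type*} [AddCommGroup G] (S : Set G) (h0 : (0 : G) ∈ S) (hneg : ∀ P ∈ S, -P ∈ S)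
    (h : ∀ P Q : G, P ∉ S → Q ∈ S → P + Q ∉ S) (P : G) (hP : P ∈ AddSubgroup.closure S) : P ∈ S := by
  induction hP using AddSubgroup.closure_induction with
  | mem x hx => exact hx
  | zero => exact h0
  | add x y _ _ hx hy =>
    by_contra hxy
    have h1 := h (x + y) (-y) hxy (hneg y hy)
    rw [add_neg_cancel_right] at h1
    exact h1 hx
  | neg x _ hx => exact hneg x hx

/-- [SHa] -/
theorem three_dvd_index {G : Type*} [AddCommGroup G] (S : Set G) (h0 : (0 : G) ∈ S) (hneg : ∀ P ∈ S, -P ∈ S)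
    (h : ∀ P Q : G, P ∉ S → Q ∈ S → P + Q ∉ S) (T : G) (hT : T ∉ S) (h3 : T + T + T ∈ S) :
    3 ∣ (AddSubgroup.closure S).index := by
  haveI : Fact (Nat.Prime 3) := ⟨Nat.prime_three⟩
  have h1 : addOrderOf (QuotientAddGroup.mk T : G ⧸ AddSubgroup.closure S) = 3 := by
    apply addOrderOf_eq_prime
    · have h2 : 3 • (QuotientAddGroup.mk T : G ⧸ AddSubgroup.closure S) = QuotientAddGroup.mk (T + T + T) := by
        rw [show (3 : ℕ) = 1 + 1 + 1 from rfl, add_nsmul, add_nsmul, one_nsmul]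
        rfl
      rw [h2, QuotientAddGroup.eq_zero_iff]
      exact AddSubgroup.subset_closure h3
    · rw [Ne, QuotientAddGroup.eq_zero_iff]
      exact fun h2 => hT (mk_sub S h0 hneg h T h2)
  rw [AddSubgroup.index, ← h1]
  exact addOrderOf_dvd_natCard _

section
variable {A : Type} [CommRing A] [IsDomain A] [IsDiscreteValuationRing A] {K : Type} [Field K]
  [Algebra A K] [IsFractionRing A K] {l ε D : A}

theorem SHa_ns {k : Type} [Field k] (d x y : k) :
    (ED d).toAffine.Nonsingular x y ↔ y ^ 2 = x ^ 3 + d ∧ (3 * x ^ 2 ≠ 0 ∨ 2 * y ≠ 0) := by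
  rw [WeierstrassCurve.Affine.nonsingular_iff', ED_equation]
  simp only [ED]
  refine and_congr_right fun _ => or_congr (not_congr ?_) (not_congr ?_)
  · constructor
    · intro h
      linear_combination -h
    · intro h
      linear_combination -h
  · constructor
    · intro h
      linear_combination h
    · intro h
      linear_combination h

theorem SHa_core (hs : ∀ α β : IsLocalRing.ResidueField A, β ^ 2 = α ^ 3 + IsLocalRing.residue A D →
      ((3 * α ^ 2 ≠ 0 ∨ 2 * β ≠ 0) ↔ α ≠ 0)) (x y : K)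
    (h : ((ED D).map (algebraMap A K)).toAffine.Nonsingular x y) :
    VC63.NR (ED D) (.some x y h) ↔ 1 ≤ (IsDiscreteValuationRing.maximalIdeal A).valuation K x := by
  have hinj : Function.Injective (algebraMap A K) := IsFractionRing.injective A K
  have heq : y ^ 2 = x ^ 3 + algebraMap A K D := by
    have h1 := h.1
    rw [ED_map, ED_equation] at h1
    exact h1
  have hred : (ED D).map (IsLocalRing.residue A) = ED (IsLocalRing.residue A D) := ED_map _ _
  have hAeq : ∀ a b : A, algebraMap A K a = x → algebraMap A K b = y →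
      IsLocalRing.residue A b ^ 2 = IsLocalRing.residue A a ^ 3 + IsLocalRing.residue A D := by
    intro a b ha hb
    have h1 : b ^ 2 = a ^ 3 + D := by
      apply hinj
      rw [map_pow, map_add, map_pow, ha, hb]
      exact heq
    rw [← map_pow, h1, map_add, map_pow]
  simp only [VC63.NR, hred]
  constructor
  · intro H
    by_contra hcon
    rw [not_le] at hcon
    obtain ⟨a, ha⟩ := IsDiscreteValuationRing.exists_lift_of_le_one hcon.le
    obtain ⟨b, hb⟩ : ∃ b : A, algebraMap A K b = y := by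
      refine IsIntegrallyClosed.exists_algebraMap_eq_of_isIntegral_pow (n := 2) (by norm_num) ?_
      have h1 : y ^ 2 = algebraMap A K (a ^ 3 + D) := by
        rw [map_add, map_pow, ha]
        exact heq
      rw [h1]
      exact isIntegral_algebraMap
    have h1 := (SHa_ns _ _ _).1 (H a b ha hb)
    have h2 := (hs _ _ h1.1).1 h1.2
    apply h2
    rw [IsLocalRing.residue_eq_zero_iff]
    rw [← ha, JD.s4b_mem] at hcon
    exact hcon
  · intro H a b ha hb
    rw [SHa_ns]
    have h1 := hAeq a b ha hb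
    refine ⟨h1, (hs _ _ h1).2 ?_⟩
    rw [Ne, IsLocalRing.residue_eq_zero_iff]
    intro hmem
    rw [← JD.s4b_mem (K := K), ha] at hmem
    exact absurd H (not_le.2 hmem)

/-- [SHa] -/
theorem nrX_i (hl : Irreducible l) (hD : l ∣ D) (x y : K) (h : ((ED D).map (algebraMap A K)).toAffine.Nonsingular x y) :
    VC63.NR (ED D) (.some x y h) ↔ 1 ≤ (IsDiscreteValuationRing.maximalIdeal A).valuation K x := by
  refine SHa_core ?_ x y h
  have hD0 : IsLocalRing.residue A D = 0 := by
    rw [IsLocalRing.residue_eq_zero_iff, hl.maximalIdeal_eq, Ideal.mem_span_singleton]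
    exact hD
  intro α β hαβ
  rw [hD0, add_zero] at hαβ
  constructor
  · rintro h1 rfl
    have h2 : β = 0 := by
      apply pow_eq_zero_iff (two_ne_zero) |>.1
      rw [hαβ]
      ring
    rw [h2] at h1
    rcases h1 with h1 | h1
    · exact h1 (by ring)
    · exact h1 (by ring)
  · intro hα
    have hβ : β ≠ 0 := by
      rintro rfl
      apply hα
      apply pow_eq_zero_iff (n := 3) (by norm_num) |>.1
      rw [← hαβ]
      ring
    by_contra hcon
    push Not at hcon
    have h1 := (mul_eq_zero.1 hcon.1).resolve_right (pow_ne_zero 2 hα)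
    have h2 := (mul_eq_zero.1 hcon.2).resolve_right hβ
    exact one_ne_zero (α := IsLocalRing.ResidueField A) (by linear_combination h1 - h2)

/-- [SHa] -/
theorem nrX_two (h2 : Irreducible (2 : A)) (x y : K) (h : ((ED D).map (algebraMap A K)).toAffine.Nonsingular x y) :
    VC63.NR (ED D) (.some x y h) ↔ 1 ≤ (IsDiscreteValuationRing.maximalIdeal A).valuation K x := by
  refine SHa_core ?_ x y h
  have h20 : (2 : IsLocalRing.ResidueField A) = 0 := by
    have h1 : IsLocalRing.residue A 2 = 0 := by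
      rw [IsLocalRing.residue_eq_zero_iff, h2.maximalIdeal_eq, Ideal.mem_span_singleton]
    rwa [map_ofNat] at h1
  intro α β _
  constructor
  · rintro h1 rfl
    rcases h1 with h1 | h1
    · exact h1 (by ring)
    · exact h1 (by rw [h20, zero_mul])
  · intro hα
    left
    intro h1
    apply hα
    apply pow_eq_zero_iff (two_ne_zero) |>.1
    linear_combination h1 - α ^ 2 * h20

/-- the valuation of the sum -/
theorem SHb_val {F Γ : Type*} [Field F] [LinearOrderedCommGroupWithZero Γ] (V : Valuation F Γ) (x y xQ yQ m d : F)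
    (e₁ : y ^ 2 = x ^ 3 + d) (e₂ : yQ ^ 2 = xQ ^ 3 + d) (hP : V x < 1) (hQ : 1 ≤ V xQ)
    (hm : m * (x - xQ) = y - yQ) (hd1 : V d ≤ 1) (h21 : V 2 ≤ 1) (hd : V d < 1 ∨ V 2 < 1) :
    V (m ^ 2 - x - xQ) < 1 := by
  have hQ0 : 0 < V xQ := lt_of_lt_of_le zero_lt_one hQ
  have hsub : V (x - xQ) = V xQ := by
    exact Valuation.map_sub_eq_of_lt_right V (lt_of_lt_of_le hP hQ)
  have hyQ : V yQ ≤ V xQ ^ 2 := by
    have h1 : V yQ ^ 2 ≤ V xQ ^ 3 := by
      rw [← map_pow, e₂]
      refine (V.map_add _ _).trans (max_le (le_of_eq (map_pow _ _ _)) ?_)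
      exact hd1.trans (one_le_pow_of_one_le' hQ 3)
    have h2 : V yQ ^ 2 ≤ (V xQ ^ 2) ^ 2 := by
      refine h1.trans ?_
      rw [← pow_mul]
      exact pow_le_pow_right₀ hQ (by norm_num)
    exact (pow_le_pow_iff_left₀ zero_le' zero_le' two_ne_zero).mp h2
  have hy1 : V y ≤ 1 := by
    have h1 : V y ^ 2 ≤ 1 := by
      rw [← map_pow, e₁]
      refine (V.map_add _ _).trans (max_le ?_ hd1)
      rw [map_pow]
      exact pow_le_one' hP.le 3
    exact (pow_le_one_iff_of_nonneg zero_le' two_ne_zero).mp h1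
  have hQ2 : 0 < V xQ ^ 2 := pow_pos hQ0 2
  have t1 : V (2 * d) < V xQ ^ 2 := by
    refine lt_of_lt_of_le ?_ (one_le_pow_of_one_le' hQ 2)
    rw [map_mul]
    rcases hd with hd | hd
    · exact mul_lt_one_of_nonneg_of_lt_one_right h21 zero_le' hd
    · exact mul_lt_one_of_nonneg_of_lt_one_left zero_le' hd hd1
  have t2 : V (2 * y * yQ) < V xQ ^ 2 := by
    rw [map_mul, map_mul]
    have h1 : V 2 * V y < 1 := by
      rcases hd with hd | hd
      · have h2 : V y < 1 := by
          have h3 : V y ^ 2 < 1 := by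
            rw [← map_pow, e₁]
            refine lt_of_le_of_lt (V.map_add _ _) (max_lt ?_ hd)
            rw [map_pow]
            exact pow_lt_one₀ zero_le' hP (by norm_num)
          exact (pow_lt_one_iff_of_nonneg zero_le' two_ne_zero).mp h3
        exact mul_lt_one_of_nonneg_of_lt_one_right h21 zero_le' h2
      · exact mul_lt_one_of_nonneg_of_lt_one_left zero_le' hd hy1
    calc V 2 * V y * V yQ ≤ V 2 * V y * V xQ ^ 2 := mul_le_mul_right hyQ _
      _ < 1 * V xQ ^ 2 := mul_lt_mul_of_pos_right h1 hQ2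
      _ = V xQ ^ 2 := one_mul _
  have t3 : V (x * xQ * (x + xQ)) < V xQ ^ 2 := by
    rw [map_mul, map_mul]
    have h1 : V (x + xQ) ≤ V xQ := (V.map_add _ _).trans (max_le (hP.le.trans hQ) le_rfl)
    calc V x * V xQ * V (x + xQ) ≤ V x * V xQ * V xQ := mul_le_mul_right h1 _
      _ = V x * V xQ ^ 2 := by rw [pow_two, mul_assoc]
      _ < 1 * V xQ ^ 2 := mul_lt_mul_of_pos_right hP hQ2
      _ = V xQ ^ 2 := one_mul _
  have key : (m ^ 2 - x - xQ) * (x - xQ) ^ 2 = 2 * d - 2 * y * yQ + x * xQ * (x + xQ) := by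
    have h1 : (m * (x - xQ)) ^ 2 = (y - yQ) ^ 2 := by rw [hm]
    linear_combination h1 + e₁ + e₂
  have h5 : V (m ^ 2 - x - xQ) * V xQ ^ 2 < 1 * V xQ ^ 2 := by
    rw [one_mul, ← hsub, ← map_pow, ← map_mul, key, map_pow, hsub]
    refine lt_of_le_of_lt (V.map_add _ _) (max_lt ?_ t3)
    exact lt_of_le_of_lt (V.map_sub _ _) (max_lt t1 t2)
  exact lt_of_mul_lt_mul_right' h5

/-- [SHb] -/
theorem closedX (hl : Irreducible l) (hD : l ∣ D ∨ Irreducible (2 : A))
    (P Q : ((ED D).map (algebraMap A K)).toAffine.Point) (hP : ¬ VC63.NR (ED D) P) (hQ : VC63.NR (ED D) Q) :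
    ¬ VC63.NR (ED D) (P + Q) := by
  have hX : ∀ (x y : K) (h : ((ED D).map (algebraMap A K)).toAffine.Nonsingular x y),
      VC63.NR (ED D) (.some x y h) ↔ 1 ≤ (IsDiscreteValuationRing.maximalIdeal A).valuation K x := by
    intro x y h
    rcases hD with hD | hD
    · exact nrX_i hl hD x y h
    · exact nrX_two hD x y h
  match P, Q, hP, hQ with
  | .zero, _, hP, _ => exact absurd trivial hP
  | .some x y h₁, .zero, hP, _ =>
    have h0 : (WeierstrassCurve.Affine.Point.some x y h₁ : ((ED D).map (algebraMap A K)).toAffine.Point) +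
        WeierstrassCurve.Affine.Point.zero = .some x y h₁ := add_zero _
    rw [h0]
    exact hP
  | .some x y h₁, .some xQ yQ h₂, hP, hQ =>
    rw [hX, not_le] at hP
    rw [hX] at hQ
    have e₁ := h₁.1
    have e₂ := h₂.1
    rw [ED_map, ED_equation] at e₁ e₂
    have hne : x ≠ xQ := by
      rintro rfl
      exact absurd hQ (not_le.2 hP)
    have hxy : ¬(x = xQ ∧ y = ((ED D).map (algebraMap A K)).toAffine.negY xQ yQ) := fun h => hne h.1
    rw [WeierstrassCurve.Affine.Point.add_some hxy, hX, not_le]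
    have hm : ((ED D).map (algebraMap A K)).toAffine.slope x xQ y yQ * (x - xQ) = y - yQ := by
      rw [WeierstrassCurve.Affine.slope_of_X_ne hne, div_mul_cancel₀ _ (sub_ne_zero.2 hne)]
    have hXX : ((ED D).map (algebraMap A K)).toAffine.addX x xQ
        (((ED D).map (algebraMap A K)).toAffine.slope x xQ y yQ) =
        (((ED D).map (algebraMap A K)).toAffine.slope x xQ y yQ) ^ 2 - x - xQ := by
      rw [WeierstrassCurve.Affine.addX]
      simp [ED]
    rw [hXX]
    have hD' : (IsDiscreteValuationRing.maximalIdeal A).valuation K (algebraMap A K D) < 1 ∨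
        (IsDiscreteValuationRing.maximalIdeal A).valuation K 2 < 1 := by
      rcases hD with hD | hD
      · left
        rw [JD.s4b_mem, hl.maximalIdeal_eq, Ideal.mem_span_singleton]
        exact hD
      · right
        rw [← map_ofNat (algebraMap A K) 2, JD.s4b_mem]
        exact (IsLocalRing.mem_maximalIdeal _).2 hD.not_isUnit
    have h2 : (IsDiscreteValuationRing.maximalIdeal A).valuation K 2 ≤ 1 := by
      rw [← map_ofNat (algebraMap A K) 2]
      exact HeightOneSpectrum.valuation_le_one _ _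
    exact SHb_val _ x y xQ yQ _ _ e₁ e₂ hP hQ hm (HeightOneSpectrum.valuation_le_one _ _) h2 hD'

/-- [SHc] helper: if `V (x₁ - x₂) < V (y₁ - y₂)` the sum of two integral points is `0` or not integral -/
theorem shc_add {x₁ y₁ x₂ y₂ : K} (h₁ : ((ED D).map (algebraMap A K)).toAffine.Nonsingular x₁ y₁)
    (h₂ : ((ED D).map (algebraMap A K)).toAffine.Nonsingular x₂ y₂)
    (v₁ : (IsDiscreteValuationRing.maximalIdeal A).valuation K x₁ ≤ 1)
    (v₂ : (IsDiscreteValuationRing.maximalIdeal A).valuation K x₂ ≤ 1)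
    (h : (IsDiscreteValuationRing.maximalIdeal A).valuation K (x₁ - x₂) <
      (IsDiscreteValuationRing.maximalIdeal A).valuation K (y₁ - y₂)) :
    (.some x₁ y₁ h₁ : ((ED D).map (algebraMap A K)).toAffine.Point) + .some x₂ y₂ h₂ = 0 ∨
      ∃ x y, ∃ h : ((ED D).map (algebraMap A K)).toAffine.Nonsingular x y,
        (.some x₁ y₁ h₁ : ((ED D).map (algebraMap A K)).toAffine.Point) + .some x₂ y₂ h₂ = .some x y h ∧
          1 < (IsDiscreteValuationRing.maximalIdeal A).valuation K x := by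
  set V := (IsDiscreteValuationRing.maximalIdeal A).valuation K with hV
  have e₁ := h₁.1
  have e₂ := h₂.1
  rw [ED_map, ED_equation] at e₁ e₂
  have hneg : ∀ x y : K, ((ED D).map (algebraMap A K)).toAffine.negY x y = -y := by
    intro x y
    simp [WeierstrassCurve.Affine.negY, ED]
  by_cases hx : x₁ = x₂
  · left
    apply WeierstrassCurve.Affine.Point.add_of_Y_eq hx
    rw [hneg]
    have h0 : V (y₁ - y₂) ≠ 0 := (lt_of_le_of_lt zero_le h).ne'
    have h1 : y₁ - y₂ ≠ 0 := (Valuation.ne_zero_iff _).1 h0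
    have h2 : (y₁ - y₂) * (y₁ + y₂) = 0 := by
      subst hx
      linear_combination e₁ - e₂
    have h3 := (mul_eq_zero.1 h2).resolve_left h1
    linear_combination h3
  · right
    have hxy : ¬(x₁ = x₂ ∧ y₁ = ((ED D).map (algebraMap A K)).toAffine.negY x₂ y₂) := fun h => hx h.1
    refine ⟨_, _, _, WeierstrassCurve.Affine.Point.add_some hxy, ?_⟩
    rw [WeierstrassCurve.Affine.slope_of_X_ne hx]
    set m := (y₁ - y₂) / (x₁ - x₂) with hm
    have hX : ((ED D).map (algebraMap A K)).toAffine.addX x₁ x₂ m = m ^ 2 - x₁ - x₂ := by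
      rw [WeierstrassCurve.Affine.addX]
      simp [ED]
    rw [hX]
    have hx0 : x₁ - x₂ ≠ 0 := sub_ne_zero.2 hx
    have hvx : V (x₁ - x₂) ≠ 0 := (Valuation.ne_zero_iff _).2 hx0
    have hvm : 1 < V m := by
      rw [hm, map_div₀, one_lt_div₀ (zero_lt_iff.2 hvx)]
      exact h
    have hvm2 : 1 < V (m ^ 2) := by
      rw [map_pow]
      exact one_lt_pow₀ hvm two_ne_zero
    have hs : V (x₁ + x₂) < V (m ^ 2) := lt_of_le_of_lt ((Valuation.map_add_le V v₁ v₂)) hvm2
    rw [show m ^ 2 - x₁ - x₂ = m ^ 2 - (x₁ + x₂) by ring, Valuation.map_sub_eq_of_lt_left _ hs]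
    exact hvm2

/-- [SHc] helper: three times a point -/
theorem shc_three {x y m : K} (h : ((ED D).map (algebraMap A K)).toAffine.Nonsingular x y) (hy : 2 * y ≠ 0)
    (hm : m * (2 * y) = 3 * x ^ 2)
    (hx : (IsDiscreteValuationRing.maximalIdeal A).valuation K x ≤ 1)
    (hm1 : (IsDiscreteValuationRing.maximalIdeal A).valuation K m ≤ 1)
    (hz : (IsDiscreteValuationRing.maximalIdeal A).valuation K (m ^ 2 - 3 * x) <
      (IsDiscreteValuationRing.maximalIdeal A).valuation K (2 * y))
    (h2y : (IsDiscreteValuationRing.maximalIdeal A).valuation K (2 * y) ≤ 1) :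
    (.some x y h : ((ED D).map (algebraMap A K)).toAffine.Point) + .some x y h + .some x y h = 0 ∨
      ∃ x' y', ∃ h' : ((ED D).map (algebraMap A K)).toAffine.Nonsingular x' y',
        (.some x y h : ((ED D).map (algebraMap A K)).toAffine.Point) + .some x y h + .some x y h = .some x' y' h' ∧
          1 < (IsDiscreteValuationRing.maximalIdeal A).valuation K x' := by
  set V := (IsDiscreteValuationRing.maximalIdeal A).valuation K with hV
  have e := h.1
  rw [ED_map, ED_equation] at e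
  have hneg : ∀ x y : K, ((ED D).map (algebraMap A K)).toAffine.negY x y = -y := by
    intro x y
    simp [WeierstrassCurve.Affine.negY, ED]
  have hxy : ¬(x = x ∧ y = ((ED D).map (algebraMap A K)).toAffine.negY x y) := by
    rintro ⟨-, h⟩
    rw [hneg] at h
    exact hy (by linear_combination h)
  have hs := JD.s4c_slope ((ED D).map (algebraMap A K)).toAffine (by simp [ED]) (by simp [ED]) (by simp [ED])
    (by simp [ED]) e e hxy
  have hsm : ((ED D).map (algebraMap A K)).toAffine.slope x x y y = m := by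
    apply mul_right_cancel₀ hy
    rw [hm]
    linear_combination hs
  rw [WeierstrassCurve.Affine.Point.add_some hxy]
  have hX : ((ED D).map (algebraMap A K)).toAffine.addX x x m = m ^ 2 - x - x := by
    rw [WeierstrassCurve.Affine.addX]
    simp [ED]
  have hY : ((ED D).map (algebraMap A K)).toAffine.addY x x y m = -(m * (m ^ 2 - 3 * x) + y) := by
    rw [WeierstrassCurve.Affine.addY, hneg, WeierstrassCurve.Affine.negAddY, hX]
    ring
  have hzz : V (m * (m ^ 2 - 3 * x)) < V (2 * y) := by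
    rw [map_mul]
    exact lt_of_le_of_lt (mul_le_of_le_one_left' hm1) hz
  apply shc_add
  · rw [hsm, hX, show m ^ 2 - x - x = (m ^ 2 - 3 * x) + x by ring]
    exact Valuation.map_add_le V (hz.le.trans h2y) hx
  · exact hx
  · rw [hsm, hX, hY, show m ^ 2 - x - x - x = m ^ 2 - 3 * x by ring,
      show -(m * (m ^ 2 - 3 * x) + y) - y = -(2 * y + m * (m ^ 2 - 3 * x)) by ring, Valuation.map_neg,
      Valuation.map_add_eq_of_lt_left _ hzz]
    exact hz

omit [Field K] [Algebra A K] [IsFractionRing A K] in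
/-- [SHc] helper -/
theorem shc_two (hl : Irreducible l) (h3 : (3 : A) = ε * l ^ 2) : IsUnit (2 : A) := by
  have hl' : l ∈ IsLocalRing.maximalIdeal A := (IsLocalRing.mem_maximalIdeal l).2 hl.not_isUnit
  by_contra h
  have h2 : (2 : A) ∈ IsLocalRing.maximalIdeal A := (IsLocalRing.mem_maximalIdeal _).2 h
  have h3' : (3 : A) ∈ IsLocalRing.maximalIdeal A := by
    rw [h3]
    exact Ideal.mul_mem_left _ _ (Ideal.pow_mem_of_mem _ hl' 2 (by norm_num))
  have h1 : (1 : A) ∈ IsLocalRing.maximalIdeal A := by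
    have := Ideal.sub_mem _ h3' h2
    rwa [show (3 : A) - 2 = 1 by norm_num] at this
  exact (IsLocalRing.mem_maximalIdeal _).1 h1 isUnit_one

/-- [SHc] helper -/
theorem shc_le (a : A) : (IsDiscreteValuationRing.maximalIdeal A).valuation K (algebraMap A K a) ≤ 1 :=
  IsDedekindDomain.HeightOneSpectrum.valuation_le_one _ a

/-- [SHc] helper -/
theorem shc_unit {a : A} (ha : IsUnit a) : (IsDiscreteValuationRing.maximalIdeal A).valuation K (algebraMap A K a) = 1 := by
  refine le_antisymm (shc_le a) (not_lt.1 fun h => ?_)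
  rw [JD.s4b_mem] at h
  exact (IsLocalRing.mem_maximalIdeal _).1 h ha

/-- [SHc] helper -/
theorem shc_lt1 (hl : Irreducible l) (a : A) :
    (IsDiscreteValuationRing.maximalIdeal A).valuation K (algebraMap A K (l * a)) < 1 := by
  rw [JD.s4b_mem]
  exact Ideal.mul_mem_right _ _ ((IsLocalRing.mem_maximalIdeal l).2 hl.not_isUnit)

/-- [SHc] helper -/
theorem shc_lt (hl : Irreducible l) (n : ℕ) (c : A) {u : A} (hu : IsUnit u) :
    (IsDiscreteValuationRing.maximalIdeal A).valuation K (algebraMap A K (l ^ (n + 1) * c)) <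
      (IsDiscreteValuationRing.maximalIdeal A).valuation K (algebraMap A K (l ^ n * u)) := by
  have hinj : Function.Injective (algebraMap A K) := IsFractionRing.injective A K
  have h0 : (IsDiscreteValuationRing.maximalIdeal A).valuation K (algebraMap A K (l ^ n)) ≠ 0 := by
    rw [Valuation.ne_zero_iff]
    intro h
    exact pow_ne_zero n hl.ne_zero (hinj (by rw [h, map_zero]))
  rw [show l ^ (n + 1) * c = l ^ n * (l * c) by ring, map_mul (algebraMap A K) (l ^ n) (l * c),
    map_mul (algebraMap A K) (l ^ n) u, Valuation.map_mul, Valuation.map_mul, shc_unit hu, mul_one]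
  exact mul_lt_of_lt_one_right (zero_lt_iff.2 h0) (shc_lt1 hl c)

/-- [SHc] helper -/
theorem shc_tam (hu : ∀ T : WeierstrassCurve.VariableChange K, (T • (ED D).map (algebraMap A K)).IsMinimal A →
      (IsDiscreteValuationRing.maximalIdeal A).valuation K (T.u : K) = 1)
    (hneg : ∀ P : ((ED D).map (algebraMap A K)).toAffine.Point, VC63.NR (ED D) P → VC63.NR (ED D) (-P))
    (h : ∀ P Q : ((ED D).map (algebraMap A K)).toAffine.Point, ¬ VC63.NR (ED D) P → VC63.NR (ED D) Q →
      ¬ VC63.NR (ED D) (P + Q))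
    (T : ((ED D).map (algebraMap A K)).toAffine.Point) (hT : ¬ VC63.NR (ED D) T) (h3 : VC63.NR (ED D) (T + T + T)) :
    3 ∣ SBSD.tamagawa A (ED (algebraMap A K D)) := by
  rw [← ED_map, VC63.tamagawa_eq (ED D) hu]
  exact three_dvd_index {P : ((ED D).map (algebraMap A K)).toAffine.Point | VC63.NR (ED D) P} trivial hneg h T hT h3

variable (K)

/-- [SHb] -/
theorem three_sq (hl : Irreducible l) (hD : l ∣ D ∨ Irreducible (2 : A)) (hD0 : D ≠ 0) (h2 : (2 : K) ≠ 0)
    (hu : ∀ T : WeierstrassCurve.VariableChange K, (T • (ED D).map (algebraMap A K)).IsMinimal A →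
      (IsDiscreteValuationRing.maximalIdeal A).valuation K (T.u : K) = 1) (y₀ : A) (hy : y₀ ^ 2 = D) :
    3 ∣ SBSD.tamagawa A (ED (algebraMap A K D)) := by
  have hX : ∀ (x y : K) (h : ((ED D).map (algebraMap A K)).toAffine.Nonsingular x y),
      VC63.NR (ED D) (.some x y h) ↔ 1 ≤ (IsDiscreteValuationRing.maximalIdeal A).valuation K x := by
    intro x y h
    rcases hD with hD | hD
    · exact nrX_i hl hD x y h
    · exact nrX_two hD x y h
  have hinj : Function.Injective (algebraMap A K) := IsFractionRing.injective A K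
  have hy0 : algebraMap A K y₀ ≠ 0 := by
    intro h
    have h1 : y₀ = 0 := hinj (by rw [h, map_zero])
    rw [h1] at hy
    exact hD0 (by rw [← hy]; ring)
  have hyK : (algebraMap A K y₀) ^ 2 = algebraMap A K D := by rw [← map_pow, hy]
  have hTn : ((ED D).map (algebraMap A K)).toAffine.Nonsingular 0 (algebraMap A K y₀) := by
    rw [ED_map, SHa_ns]
    refine ⟨by rw [hyK]; ring, Or.inr (mul_ne_zero h2 hy0)⟩
  have hW : SBSD.tamagawa A (ED (algebraMap A K D)) =
      SBSD.tamagawa A ((ED D).map (algebraMap A K)) := by rw [ED_map]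
  rw [hW, VC63.tamagawa_eq (ED D) hu]
  have hneg : ∀ x y : K, ((ED D).map (algebraMap A K)).toAffine.negY x y = -y := by
    intro x y
    rw [WeierstrassCurve.Affine.negY]
    simp [ED]
  refine three_dvd_index _ trivial ?_ (fun P Q hP hQ => closedX hl hD P Q hP hQ)
    (.some 0 (algebraMap A K y₀) hTn) ?_ ?_
  · intro P hP
    match P, hP with
    | .zero, _ => exact trivial
    | .some x y h, hP =>
      have h1 : 1 ≤ (IsDiscreteValuationRing.maximalIdeal A).valuation K x := (hX x y h).1 hP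
      change VC63.NR (ED D) (-(.some x y h))
      rw [WeierstrassCurve.Affine.Point.neg_some, hX]
      exact h1
  · intro h
    have h1 := (hX _ _ hTn).1 h
    rw [map_zero] at h1
    exact absurd h1 (by simp)
  · have hxy : ¬((0 : K) = 0 ∧ algebraMap A K y₀ =
        ((ED D).map (algebraMap A K)).toAffine.negY 0 (algebraMap A K y₀)) := by
      rintro ⟨-, h⟩
      rw [hneg] at h
      apply mul_ne_zero h2 hy0
      linear_combination h
    have hy' : algebraMap A K y₀ ≠ ((ED D).map (algebraMap A K)).toAffine.negY 0 (algebraMap A K y₀) :=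
      fun h => hxy ⟨rfl, h⟩
    have hslope : ((ED D).map (algebraMap A K)).toAffine.slope 0 0 (algebraMap A K y₀) (algebraMap A K y₀) = 0 := by
      rw [WeierstrassCurve.Affine.slope_of_Y_ne rfl hy']
      simp [ED]
    have h1 : (WeierstrassCurve.Affine.Point.some 0 (algebraMap A K y₀) hTn :
        ((ED D).map (algebraMap A K)).toAffine.Point) + .some 0 (algebraMap A K y₀) hTn =
        -.some 0 (algebraMap A K y₀) hTn := by
      rw [WeierstrassCurve.Affine.Point.add_some hxy, WeierstrassCurve.Affine.Point.neg_some,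
        WeierstrassCurve.Affine.Point.some.injEq]
      rw [hslope, WeierstrassCurve.Affine.addX, WeierstrassCurve.Affine.addY, WeierstrassCurve.Affine.negAddY,
        WeierstrassCurve.Affine.addX]
      simp [ED]
    have h2 : (WeierstrassCurve.Affine.Point.some 0 (algebraMap A K y₀) hTn :
        ((ED D).map (algebraMap A K)).toAffine.Point) + .some 0 (algebraMap A K y₀) hTn +
        .some 0 (algebraMap A K y₀) hTn = 0 := by
      rw [h1, neg_add_cancel]
    rw [h2]
    exact trivial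

/-- [SHc] -/
theorem three_la3 (hl : Irreducible l) (hε : IsUnit ε) (h3 : (3 : A) = ε * l ^ 2) {η y₂ : A} (hη : η = 1 ∨ η = -1)
    (hy : IsUnit y₂) (hD : D = l ^ 3 * (η + l * y₂ ^ 2))
    (hu : ∀ T : WeierstrassCurve.VariableChange K, (T • (ED D).map (algebraMap A K)).IsMinimal A →
      (IsDiscreteValuationRing.maximalIdeal A).valuation K (T.u : K) = 1) :
    3 ∣ SBSD.tamagawa A (ED (algebraMap A K D)) := by
  have hinj : Function.Injective (algebraMap A K) := IsFractionRing.injective A K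
  have hη2 : η ^ 2 = 1 := by rcases hη with rfl | rfl <;> ring
  have h2 : IsUnit (2 : A) := shc_two hl h3
  have h2y : IsUnit (2 * y₂) := h2.mul hy
  have hlD : l ∣ D := ⟨l ^ 2 * (η + l * y₂ ^ 2), by rw [hD]; ring⟩
  obtain ⟨w, hw⟩ := h2y.exists_right_inv
  have hl0 : l ≠ 0 := hl.ne_zero
  have e : (l ^ 2 * y₂) ^ 2 = (-η * l) ^ 3 + D := by
    rw [hD]
    linear_combination (η * l ^ 3) * hη2
  have heq : (algebraMap A K (l ^ 2 * y₂)) ^ 2 = (algebraMap A K (-η * l)) ^ 3 + algebraMap A K D := by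
    rw [← map_pow, ← map_pow, ← map_add, e]
  have hy0 : (2 : K) * algebraMap A K (l ^ 2 * y₂) ≠ 0 := by
    rw [show (2 : K) = algebraMap A K 2 by rw [map_ofNat], ← map_mul]
    intro h
    have h1 : 2 * (l ^ 2 * y₂) = 0 := hinj (by rw [h, map_zero])
    rw [show 2 * (l ^ 2 * y₂) = l ^ 2 * (2 * y₂) by ring] at h1
    rcases mul_eq_zero.1 h1 with h | h
    · exact pow_ne_zero 2 hl0 h
    · exact h2y.ne_zero h
  have hns : ((ED D).map (algebraMap A K)).toAffine.Nonsingular (algebraMap A K (-η * l)) (algebraMap A K (l ^ 2 * y₂)) := by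
    rw [ED_map]
    exact JD.s3_nonsing _ _ _ heq (Or.inr hy0)
  refine shc_tam hu ?_ (closedX hl (Or.inl hlD)) (.some _ _ hns) ?_ ?_
  · rintro (_ | ⟨x, y, h⟩) hP
    · exact hP
    · rw [WeierstrassCurve.Affine.Point.neg_some, nrX_i hl hlD]
      exact (nrX_i hl hlD _ _ _).1 hP
  · rw [nrX_i hl hlD, not_le, show -η * l = l * -η by ring]
    exact shc_lt1 hl _
  · have key := shc_three (m := algebraMap A K (ε * l ^ 2 * w)) hns hy0 ?_ (shc_le _) (shc_le _) ?_ ?_
    · rcases key with h | ⟨x', y', h', h, hv⟩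
      · rw [h]
        trivial
      · rw [h, nrX_i hl hlD]
        exact hv.le
    · rw [show (2 : K) = algebraMap A K 2 by rw [map_ofNat], show (3 : K) = algebraMap A K 3 by rw [map_ofNat], ← map_mul,
        ← map_mul, ← map_pow, ← map_mul]
      congr 1
      linear_combination (ε * l ^ 4) * hw - (η ^ 2 * l ^ 2) * h3 - ε * l ^ 4 * hη2
    · rw [show (2 : K) = algebraMap A K 2 by rw [map_ofNat], show (3 : K) = algebraMap A K 3 by rw [map_ofNat], ← map_mul,
        ← map_mul, ← map_pow, ← map_sub, show (ε * l ^ 2 * w) ^ 2 - 3 * (-η * l) = l ^ (2 + 1) * (ε ^ 2 * l * w ^ 2 + ε * η) by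
          linear_combination η * l * h3, show 2 * (l ^ 2 * y₂) = l ^ 2 * (2 * y₂) by ring]
      exact shc_lt hl 2 _ h2y
    · rw [show (2 : K) = algebraMap A K 2 by rw [map_ofNat], ← map_mul]
      exact shc_le _

variable {K}

/-- [SHd] -/
theorem nrY (hl : Irreducible l) (hε : IsUnit ε) (h3 : (3 : A) = ε * l ^ 2) (hres : ∀ x : A, l ∣ x ∨ l ∣ x - 1 ∨ l ∣ x + 1)
    {η d : A} (hη : η = 1 ∨ η = -1) (hD : D = η + l ^ 2 * (1 + l * d)) (x y : K)
    (h : ((ED D).map (algebraMap A K)).toAffine.Nonsingular x y) :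
    VC63.NR (ED D) (.some x y h) ↔ 1 ≤ (IsDiscreteValuationRing.maximalIdeal A).valuation K y := by
  have hinj : Function.Injective (algebraMap A K) := IsFractionRing.injective A K
  have heq : y ^ 2 = x ^ 3 + algebraMap A K D := by
    have h1 := h.1
    rw [ED_map, ED_equation] at h1
    exact h1
  have hred : (ED D).map (IsLocalRing.residue A) = ED (IsLocalRing.residue A D) := ED_map _ _
  have hl' : l ∈ IsLocalRing.maximalIdeal A := (IsLocalRing.mem_maximalIdeal l).2 hl.not_isUnit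
  have h30 : (3 : IsLocalRing.ResidueField A) = 0 := by
    have h1 : IsLocalRing.residue A 3 = 0 := by
      rw [IsLocalRing.residue_eq_zero_iff, h3]
      exact Ideal.mul_mem_left _ _ (Ideal.pow_mem_of_mem _ hl' 2 (by norm_num))
    rwa [map_ofNat] at h1
  simp only [VC63.NR, hred]
  constructor
  · intro H
    by_contra hcon
    push Not at hcon
    obtain ⟨b, hb⟩ := IsDiscreteValuationRing.exists_lift_of_le_one hcon.le
    obtain ⟨a, ha⟩ := JD.s4b_x heq hb
    have h1 := (JD.s4b_nonsing _ h30 _ _ _).1 (H a b ha hb)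
    apply h1.2
    rw [IsLocalRing.residue_eq_zero_iff]
    rw [← hb, JD.s4b_mem] at hcon
    exact hcon
  · intro H a b ha hb
    rw [JD.s4b_nonsing _ h30]
    subst ha hb
    have hAeq : b ^ 2 = a ^ 3 + D := by
      apply hinj
      rw [map_pow, map_add, map_pow]
      exact heq
    refine ⟨?_, ?_⟩
    · rw [← map_pow, hAeq, map_add, map_pow]
    · rw [Ne, IsLocalRing.residue_eq_zero_iff]
      intro hmem
      rw [← JD.s4b_mem (K := K)] at hmem
      exact absurd H (not_le.2 hmem)

/-- [SHd] helper: integral elements with `V < 1` are multiples of `l` -/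
theorem shd_dvd (hl : Irreducible l) {x : K} (h : (IsDiscreteValuationRing.maximalIdeal A).valuation K x < 1) :
    ∃ a : A, x = algebraMap A K (l * a) := by
  obtain ⟨b, hb⟩ := IsDiscreteValuationRing.exists_lift_of_le_one h.le
  rw [← hb, JD.s4b_mem, hl.maximalIdeal_eq, Ideal.mem_span_singleton] at h
  obtain ⟨a, ha⟩ := h
  exact ⟨a, by rw [← hb, ha]⟩

/-- [SHd] helper: `V y < 1` implies `V (x + η) < 1` -/
theorem shd_x (hl : Irreducible l) (h3 : (3 : A) = ε * l ^ 2) (hres : ∀ x : A, l ∣ x ∨ l ∣ x - 1 ∨ l ∣ x + 1)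
    {η d : A} (hη : η = 1 ∨ η = -1) (hD : D = η + l ^ 2 * (1 + l * d)) {x y : K} (h : y ^ 2 = x ^ 3 + algebraMap A K D)
    (hy : (IsDiscreteValuationRing.maximalIdeal A).valuation K y < 1) :
    ∃ s : A, x = algebraMap A K (-η + l * s) := by
  have hinj : Function.Injective (algebraMap A K) := IsFractionRing.injective A K
  obtain ⟨u, hu⟩ := shd_dvd hl hy
  obtain ⟨a, ha⟩ := JD.s4b_x h hu.symm
  have hAeq : (l * u) ^ 2 = a ^ 3 + D := by
    apply hinj
    rw [map_pow, map_add, map_pow, ha, ← hu]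
    exact h
  have h1 : ¬ l ∣ 1 := fun h => hl.not_isUnit (isUnit_of_dvd_one h)
  have hl3 : l ∣ 3 := ⟨ε * l, by rw [h3]; ring⟩
  have h2 : ¬ l ∣ 2 := fun h => h1 (by
    have := dvd_sub hl3 h
    rwa [show (3 : A) - 2 = 1 by norm_num] at this)
  have hη2 : η ^ 2 = 1 := by rcases hη with rfl | rfl <;> ring
  have ha' : l ∣ a + η := by
    rcases hres a with ⟨c, hc⟩ | ⟨c, hc⟩ | ⟨c, hc⟩
    · exfalso
      apply h1
      refine ⟨η * (l * u ^ 2 - l ^ 2 * c ^ 3 - l * (1 + l * d)), ?_⟩
      subst hc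
      linear_combination -hη2 - η * hAeq - η * hD
    · rcases hη with rfl | rfl
      · exfalso
        apply h2
        refine ⟨l * u ^ 2 - l * (1 + l * d) - 3 * c - 3 * l * c ^ 2 - l ^ 2 * c ^ 3, ?_⟩
        have hc' : a = 1 + l * c := by linear_combination hc
        subst hc'
        linear_combination -hAeq - hD
      · exact ⟨c, by linear_combination hc⟩
    · rcases hη with rfl | rfl
      · exact ⟨c, by linear_combination hc⟩
      · exfalso
        apply h2
        refine ⟨-(l * u ^ 2) + l * (1 + l * d) + 3 * c - 3 * l * c ^ 2 + l ^ 2 * c ^ 3, ?_⟩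
        have hc' : a = -1 + l * c := by linear_combination hc
        subst hc'
        linear_combination hAeq + hD
  obtain ⟨s, hs⟩ := ha'
  have hs' : a = -η + l * s := by linear_combination hs
  exact ⟨s, by rw [← ha, hs']⟩

/-- [SHd] helper: `V (x + η) < 1` implies `V y < 1` -/
theorem shd_y (hl : Irreducible l) (h3 : (3 : A) = ε * l ^ 2)
    {η d : A} (hη : η = 1 ∨ η = -1) (hD : D = η + l ^ 2 * (1 + l * d)) {x y : K} (h : y ^ 2 = x ^ 3 + algebraMap A K D)
    (hx : (IsDiscreteValuationRing.maximalIdeal A).valuation K (x + algebraMap A K η) < 1) :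
    (IsDiscreteValuationRing.maximalIdeal A).valuation K y < 1 := by
  have hη2 : η ^ 2 = 1 := by rcases hη with rfl | rfl <;> ring
  obtain ⟨s, hs⟩ := shd_dvd hl hx
  have hx' : x = algebraMap A K (-η + l * s) := by
    rw [map_add, map_neg, ← hs]
    ring
  have h1 : y ^ 2 = algebraMap A K (l * (l ^ 2 * s * ε - η * ε * l ^ 3 * s ^ 2 + l ^ 2 * s ^ 3 + l * (1 + l * d))) := by
    rw [h, hx', ← map_pow, ← map_add]
    congr 1
    rw [hD]
    linear_combination (l * s - η * l ^ 2 * s ^ 2) * h3 + (-η + 3 * l * s) * hη2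
  have h2 : (IsDiscreteValuationRing.maximalIdeal A).valuation K (y ^ 2) < 1 := by
    rw [h1]
    exact shc_lt1 hl _
  rw [map_pow] at h2
  by_contra hcon
  exact absurd (one_le_pow₀ (not_lt.1 hcon) (n := 2)) (not_le.2 h2)

/-- [SHd] -/
theorem closedY (hl : Irreducible l) (hε : IsUnit ε) (h3 : (3 : A) = ε * l ^ 2) (hres : ∀ x : A, l ∣ x ∨ l ∣ x - 1 ∨ l ∣ x + 1)
    {η d : A} (hη : η = 1 ∨ η = -1) (hD : D = η + l ^ 2 * (1 + l * d))
    (P Q : ((ED D).map (algebraMap A K)).toAffine.Point) (hP : ¬ VC63.NR (ED D) P) (hQ : VC63.NR (ED D) Q) :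
    ¬ VC63.NR (ED D) (P + Q) := by
  have hinj : Function.Injective (algebraMap A K) := IsFractionRing.injective A K
  have hη2 : η ^ 2 = 1 := by rcases hη with rfl | rfl <;> ring
  rcases P with _ | ⟨x, y, h⟩
  · exact absurd trivial hP
  rcases Q with _ | ⟨xQ, yQ, hQ'⟩
  · have e : (.some x y h : ((ED D).map (algebraMap A K)).toAffine.Point) + .zero = .some x y h := add_zero _
    rw [e]
    exact hP
  rw [nrY hl hε h3 hres hη hD] at hP hQ
  set V := (IsDiscreteValuationRing.maximalIdeal A).valuation K with hV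
  rw [not_le] at hP
  have e₁ := h.1
  have e₂ := hQ'.1
  rw [ED_map, ED_equation] at e₁ e₂
  obtain ⟨s, hs⟩ := shd_x hl h3 hres hη hD e₁ hP
  have hxη : V (x + algebraMap A K η) < 1 := by
    rw [hs, ← map_add, show -η + l * s + η = l * s by ring]
    exact shc_lt1 hl _
  have hQη : 1 ≤ V (xQ + algebraMap A K η) := by
    by_contra hcon
    exact absurd (shd_y hl h3 hη hD e₂ (not_le.1 hcon)) (not_lt.2 hQ)
  have hne : x ≠ xQ := by
    rintro rfl
    exact absurd hxη (not_lt.2 hQη)
  have hxy : ¬(x = xQ ∧ y = ((ED D).map (algebraMap A K)).toAffine.negY xQ yQ) := fun h => hne h.1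
  rw [WeierstrassCurve.Affine.Point.add_some hxy, nrY hl hε h3 hres hη hD, not_le]
  have h4 := (WeierstrassCurve.Affine.nonsingular_add h hQ' hxy).1
  have h5 := JD.s4c_eq ((ED D).map (algebraMap A K)).toAffine (by simp [ED]) (by simp [ED]) (by simp [ED])
        (by simp [ED]) (d := algebraMap A K D) (by simp [ED]) h4
  apply shd_y hl h3 hη hD h5
  rw [WeierstrassCurve.Affine.slope_of_X_ne hne]
  have hX : ((ED D).map (algebraMap A K)).toAffine.addX x xQ ((y - yQ) / (x - xQ)) = ((y - yQ) / (x - xQ)) ^ 2 - x - xQ := by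
    rw [WeierstrassCurve.Affine.addX]
    simp [ED]
  rw [hX]
  have hx0 : x - xQ ≠ 0 := sub_ne_zero.2 hne
  have hvx : V (x - xQ) = V (xQ + algebraMap A K η) := by
    rw [show x - xQ = (x + algebraMap A K η) - (xQ + algebraMap A K η) by ring]
    exact Valuation.map_sub_eq_of_lt_right _ (lt_of_lt_of_le hxη hQη)
  have key : (((y - yQ) / (x - xQ)) ^ 2 - x - xQ + algebraMap A K η) * (x - xQ) ^ 2 =
      (2 * algebraMap A K D + algebraMap A K η * x ^ 2) + xQ * (x ^ 2 - 2 * algebraMap A K η * x) +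
        xQ ^ 2 * (x + algebraMap A K η) - 2 * y * yQ := by
    field_simp
    linear_combination e₁ + e₂
  have hpos : 0 < V (x - xQ) := zero_lt_iff.2 ((Valuation.ne_zero_iff _).2 hx0)
  suffices hsuf : V ((2 * algebraMap A K D + algebraMap A K η * x ^ 2) + xQ * (x ^ 2 - 2 * algebraMap A K η * x) +
        xQ ^ 2 * (x + algebraMap A K η) - 2 * y * yQ) < V (x - xQ) ^ 2 by
    rw [← key, map_mul, map_pow] at hsuf
    by_contra hcon
    rw [not_lt] at hcon
    exact absurd (le_mul_of_one_le_left (zero_le : 0 ≤ V (x - xQ) ^ 2) hcon) (not_le.2 hsuf)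
  have t1 : V (2 * algebraMap A K D + algebraMap A K η * x ^ 2) < 1 := by
    have e : 2 * algebraMap A K D + algebraMap A K η * x ^ 2 =
        algebraMap A K (l * (ε * η * l + 2 * l * (1 + l * d) - 2 * s + η * l * s ^ 2)) := by
      rw [hs, show (2 : K) = algebraMap A K 2 by rw [map_ofNat], ← map_mul, ← map_pow, ← map_mul, ← map_add]
      congr 1
      rw [hD]
      linear_combination (η - 2 * l * s) * hη2 + η * h3
    rw [e]
    exact shc_lt1 hl _
  have t2 : V (x ^ 2 - 2 * algebraMap A K η * x) < 1 := by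
    have e : x ^ 2 - 2 * algebraMap A K η * x = algebraMap A K (l * (ε * l - 4 * η * s + l * s ^ 2)) := by
      rw [hs, show (2 : K) = algebraMap A K 2 by rw [map_ofNat], ← map_mul, ← map_pow, ← map_mul, ← map_sub]
      congr 1
      linear_combination 3 * hη2 + h3
    rw [e]
    exact shc_lt1 hl _
  have v2 : V 2 ≤ 1 := by
    rw [show (2 : K) = algebraMap A K 2 by rw [map_ofNat]]
    exact shc_le _
  have vD : V (algebraMap A K D) ≤ 1 := shc_le _
  rw [hvx]
  have t4 : V (2 * y * yQ) ≤ V y * V yQ := by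
    rw [map_mul, map_mul]
    exact mul_le_mul_left (mul_le_of_le_one_left' v2) _
  rcases le_or_gt (V xQ) 1 with hq | hq
  · have hyQ : V yQ ≤ 1 := by
      by_contra hcon
      rw [not_le] at hcon
      have h6 : V (yQ ^ 2) ≤ 1 := by
        rw [e₂]
        refine Valuation.map_add_le V ?_ vD
        rw [map_pow]
        exact pow_le_one' hq 3
      rw [map_pow] at h6
      exact absurd (one_lt_pow₀ hcon two_ne_zero) (not_lt.2 h6)
    have h7 : V ((2 * algebraMap A K D + algebraMap A K η * x ^ 2) + xQ * (x ^ 2 - 2 * algebraMap A K η * x) +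
        xQ ^ 2 * (x + algebraMap A K η) - 2 * y * yQ) < 1 := by
      refine Valuation.map_sub_lt V (Valuation.map_add_lt V (Valuation.map_add_lt V t1 ?_) ?_) ?_
      · rw [map_mul]
        exact lt_of_le_of_lt (mul_le_of_le_one_left' hq) t2
      · rw [map_mul, map_pow]
        exact lt_of_le_of_lt (mul_le_of_le_one_left' (pow_le_one' hq 2)) hxη
      · exact lt_of_le_of_lt (t4.trans (mul_le_of_le_one_right' hyQ)) hP
    exact lt_of_lt_of_le h7 (one_le_pow₀ hQη)
  · have hqη : V (xQ + algebraMap A K η) = V xQ :=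
      Valuation.map_add_eq_of_lt_left _ (lt_of_le_of_lt (shc_le _) hq)
    rw [hqη]
    have hq1 : 1 < V xQ ^ 2 := one_lt_pow₀ hq two_ne_zero
    have hyQ : V yQ ≤ V xQ ^ 2 := by
      have h6 : V yQ ^ 2 = V xQ ^ 3 := by
        rw [← map_pow, e₂, Valuation.map_add_eq_of_lt_left, map_pow]
        rw [map_pow]
        exact lt_of_le_of_lt vD (one_lt_pow₀ hq (by norm_num))
      by_contra hcon
      rw [not_le] at hcon
      have h7 : V xQ ^ 3 ≤ (V xQ ^ 2) ^ 2 := by
        rw [← pow_mul]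
        exact pow_le_pow_right₀ hq.le (by norm_num)
      have h8 : (V xQ ^ 2) ^ 2 < V yQ ^ 2 := pow_lt_pow_left₀ hcon zero_le two_ne_zero
      rw [h6] at h8
      exact absurd h7 (not_le.2 h8)
    have hq0 : 0 < V xQ := lt_trans zero_lt_one hq
    refine Valuation.map_sub_lt V (Valuation.map_add_lt V (Valuation.map_add_lt V (t1.trans hq1) ?_) ?_) ?_
    · rw [map_mul, show V xQ ^ 2 = V xQ * V xQ from pow_two _]
      exact mul_lt_mul_of_pos_left (t2.trans hq) hq0
    · rw [map_mul, map_pow]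
      exact mul_lt_of_lt_one_right (pow_pos hq0 2) hxη
    · refine lt_of_le_of_lt (t4.trans (mul_le_mul_right hyQ _)) ?_
      exact mul_lt_of_lt_one_left (pow_pos hq0 2) hP

variable (K)

/-- [SHd] -/
theorem three_la0 (hl : Irreducible l) (hε : IsUnit ε) (h3 : (3 : A) = ε * l ^ 2) (hres : ∀ x : A, l ∣ x ∨ l ∣ x - 1 ∨ l ∣ x + 1)
    {η d y₁ : A} (hη : η = 1 ∨ η = -1) (hD : D = η + l ^ 2 * (1 + l * d)) (hy : y₁ ^ 2 = 1 + l * d)
    (hu : ∀ T : WeierstrassCurve.VariableChange K, (T • (ED D).map (algebraMap A K)).IsMinimal A →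
      (IsDiscreteValuationRing.maximalIdeal A).valuation K (T.u : K) = 1) :
    3 ∣ SBSD.tamagawa A (ED (algebraMap A K D)) := by
  have hinj : Function.Injective (algebraMap A K) := IsFractionRing.injective A K
  have hη2 : η ^ 2 = 1 := by rcases hη with rfl | rfl <;> ring
  have h2 : IsUnit (2 : A) := shc_two hl h3
  have hl' : l ∈ IsLocalRing.maximalIdeal A := (IsLocalRing.mem_maximalIdeal l).2 hl.not_isUnit
  have hyu : IsUnit y₁ := by
    by_contra hcon
    have h1 : y₁ ∈ IsLocalRing.maximalIdeal A := (IsLocalRing.mem_maximalIdeal _).2 hcon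
    have h2 : (1 : A) ∈ IsLocalRing.maximalIdeal A := by
      rw [show (1 : A) = y₁ * y₁ - l * d by linear_combination -hy]
      exact Ideal.sub_mem _ (Ideal.mul_mem_left _ _ h1) (Ideal.mul_mem_right _ _ hl')
    exact (IsLocalRing.mem_maximalIdeal _).1 h2 isUnit_one
  have h2y : IsUnit (2 * y₁) := h2.mul hyu
  obtain ⟨w, hw⟩ := h2y.exists_right_inv
  have hl0 : l ≠ 0 := hl.ne_zero
  have e : (l * y₁) ^ 2 = (-η) ^ 3 + D := by
    rw [hD]
    linear_combination l ^ 2 * hy + η * hη2
  have heq : (algebraMap A K (l * y₁)) ^ 2 = (algebraMap A K (-η)) ^ 3 + algebraMap A K D := by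
    rw [← map_pow, ← map_pow, ← map_add, e]
  have hy0 : (2 : K) * algebraMap A K (l * y₁) ≠ 0 := by
    rw [show (2 : K) = algebraMap A K 2 by rw [map_ofNat], ← map_mul]
    intro h
    have h1 : 2 * (l * y₁) = 0 := hinj (by rw [h, map_zero])
    rw [show 2 * (l * y₁) = l * (2 * y₁) by ring] at h1
    rcases mul_eq_zero.1 h1 with h | h
    · exact hl0 h
    · exact h2y.ne_zero h
  have hns : ((ED D).map (algebraMap A K)).toAffine.Nonsingular (algebraMap A K (-η)) (algebraMap A K (l * y₁)) := by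
    rw [ED_map]
    exact JD.s3_nonsing _ _ _ heq (Or.inr hy0)
  refine shc_tam hu ?_ (closedY hl hε h3 hres hη hD) (.some _ _ hns) ?_ ?_
  · rintro (_ | ⟨x, y, h⟩) hP
    · exact hP
    · rw [WeierstrassCurve.Affine.Point.neg_some, nrY hl hε h3 hres hη hD]
      have hneg : ((ED D).map (algebraMap A K)).toAffine.negY x y = -y := by
        simp [WeierstrassCurve.Affine.negY, ED]
      rw [hneg, Valuation.map_neg]
      exact (nrY hl hε h3 hres hη hD _ _ _).1 hP
  · rw [nrY hl hε h3 hres hη hD, not_le]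
    exact shc_lt1 hl _
  · have key := shc_three (m := algebraMap A K (ε * l * w)) hns hy0 ?_ (shc_le _) (shc_le _) ?_ ?_
    · rcases key with h | ⟨x', y', h', h, hv⟩
      · rw [h]
        trivial
      · rw [h, nrY hl hε h3 hres hη hD]
        have e' := h'.1
        rw [ED_map, ED_equation] at e'
        have h6 : 1 < (IsDiscreteValuationRing.maximalIdeal A).valuation K (y' ^ 2) := by
          have h7 : 1 < (IsDiscreteValuationRing.maximalIdeal A).valuation K (x' ^ 3) := by
            rw [map_pow]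
            exact one_lt_pow₀ hv (by norm_num)
          rw [e', Valuation.map_add_eq_of_lt_left _ (lt_of_le_of_lt (shc_le _) h7)]
          exact h7
        by_contra hcon
        rw [not_le] at hcon
        rw [map_pow] at h6
        exact absurd (pow_le_one' hcon.le 2) (not_le.2 h6)
    · rw [show (2 : K) = algebraMap A K 2 by rw [map_ofNat], show (3 : K) = algebraMap A K 3 by rw [map_ofNat], ← map_mul,
        ← map_mul, ← map_pow, ← map_mul]
      congr 1
      linear_combination (ε * l ^ 2) * hw - h3 - 3 * hη2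
    · rw [show (2 : K) = algebraMap A K 2 by rw [map_ofNat], show (3 : K) = algebraMap A K 3 by rw [map_ofNat], ← map_mul,
        ← map_mul, ← map_pow, ← map_sub, show (ε * l * w) ^ 2 - 3 * (-η) = l ^ (1 + 1) * (ε ^ 2 * w ^ 2 + ε * η) by
          linear_combination η * h3, show 2 * (l * y₁) = l ^ 1 * (2 * y₁) by ring]
      exact shc_lt hl 1 _ h2y
    · rw [show (2 : K) = algebraMap A K 2 by rw [map_ofNat], ← map_mul]
      exact shc_le _

end

theorem she_lt (v : HeightOneSpectrum (𝓞 KK)) {π : v.adicCompletionIntegers KK} (hπ : ¬ IsUnit π) :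
    Valued.v (π : v.adicCompletion KK) < (1 : WithZero (Multiplicative ℤ)) := by
  refine lt_of_le_of_ne π.2 fun h => hπ ?_
  exact HeightOneSpectrum.adicCompletionIntegers.isUnit_iff_valued_eq_one.2 h

theorem she_two (v : HeightOneSpectrum (𝓞 KK)) :
    ((2 : v.adicCompletionIntegers KK) : v.adicCompletion KK) = 2 :=
  map_ofNat (algebraMap (v.adicCompletionIntegers KK) (v.adicCompletion KK)) 2

theorem she_int (v : HeightOneSpectrum (𝓞 KK)) {y : v.adicCompletion KK}
    (h : Valued.v (y ^ 2) = (1 : WithZero (Multiplicative ℤ))) : y ∈ v.adicCompletionIntegers KK := by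
  show Valued.v y ≤ (1 : WithZero (Multiplicative ℤ))
  by_contra hcon
  push Not at hcon
  rw [map_pow] at h
  have h1 := one_lt_pow₀ hcon two_ne_zero
  rw [h] at h1
  exact lt_irrefl _ h1

/-- [SHe] -/
theorem sqrt_odd (v : HeightOneSpectrum (𝓞 KK)) (h2 : IsUnit (2 : v.adicCompletionIntegers KK)) {π c x : v.adicCompletionIntegers KK}
    (hπ : Irreducible π) (hc : IsUnit c) (h : π ∣ c - x ^ 2) : ∃ y : v.adicCompletionIntegers KK, y ^ 2 = c := by
  have h2v : Valued.v (2 : v.adicCompletion KK) = (1 : WithZero (Multiplicative ℤ)) := by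
    rw [← she_two v]
    exact HeightOneSpectrum.adicCompletionIntegers.isUnit_iff_valued_eq_one.1 h2
  have hcv : Valued.v (c : v.adicCompletion KK) = (1 : WithZero (Multiplicative ℤ)) :=
    HeightOneSpectrum.adicCompletionIntegers.isUnit_iff_valued_eq_one.1 hc
  have hπv : Valued.v (π : v.adicCompletion KK) < (1 : WithZero (Multiplicative ℤ)) :=
    she_lt v hπ.not_isUnit
  obtain ⟨t, ht⟩ := h
  have hct : Valued.v ((c : v.adicCompletion KK) - (x : v.adicCompletion KK) ^ 2) < (1 : WithZero (Multiplicative ℤ)) := by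
    have e : (c : v.adicCompletion KK) - (x : v.adicCompletion KK) ^ 2 =
        (π : v.adicCompletion KK) * (t : v.adicCompletion KK) := by
      have h5 := congrArg (algebraMap (v.adicCompletionIntegers KK) (v.adicCompletion KK)) ht
      rw [map_sub, map_pow, map_mul] at h5
      exact h5
    rw [e, map_mul]
    calc Valued.v (π : v.adicCompletion KK) * Valued.v (t : v.adicCompletion KK)
        ≤ Valued.v (π : v.adicCompletion KK) * 1 := mul_le_mul' le_rfl t.2
      _ < 1 := by rw [mul_one]; exact hπv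
  have hx2 : Valued.v ((x : v.adicCompletion KK) ^ 2) = (1 : WithZero (Multiplicative ℤ)) := by
    have e : (x : v.adicCompletion KK) ^ 2 = (c : v.adicCompletion KK) -
        ((c : v.adicCompletion KK) - (x : v.adicCompletion KK) ^ 2) := by ring
    rw [e, Valuation.map_sub_eq_of_lt_left _ (by rw [hcv]; exact hct), hcv]
  have hx0 : (x : v.adicCompletion KK) ≠ 0 := by
    intro h0
    rw [h0, zero_pow two_ne_zero, map_zero] at hx2
    exact zero_ne_one hx2
  obtain ⟨z, hz, -⟩ := JD.sqrt_one v h2v (x := (c : v.adicCompletion KK) / (x : v.adicCompletion KK) ^ 2) (by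
    have e : (c : v.adicCompletion KK) / (x : v.adicCompletion KK) ^ 2 - 1 =
        ((c : v.adicCompletion KK) - (x : v.adicCompletion KK) ^ 2) / (x : v.adicCompletion KK) ^ 2 := by
      field_simp
    rw [e, map_div₀, hx2, div_one]
    exact hct)
  have hzx : (z * (x : v.adicCompletion KK)) ^ 2 = (c : v.adicCompletion KK) := by
    rw [mul_pow, hz]
    field_simp
  refine ⟨⟨z * (x : v.adicCompletion KK), she_int v (by rw [hzx, hcv])⟩, ?_⟩
  apply Subtype.ext
  exact hzx

/-- [SHe] -/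
theorem sqrt_two (v : HeightOneSpectrum (𝓞 KK)) (h2 : Irreducible (2 : v.adicCompletionIntegers KK)) {c x : v.adicCompletionIntegers KK}
    (hc : IsUnit c) (h : 8 ∣ c - x ^ 2) : ∃ y : v.adicCompletionIntegers KK, y ^ 2 = c := by
  have hcv : Valued.v (c : v.adicCompletion KK) = (1 : WithZero (Multiplicative ℤ)) :=
    HeightOneSpectrum.adicCompletionIntegers.isUnit_iff_valued_eq_one.1 hc
  have h2v : Valued.v (2 : v.adicCompletion KK) < (1 : WithZero (Multiplicative ℤ)) := by
    rw [← she_two v]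
    exact she_lt v h2.not_isUnit
  obtain ⟨t, ht⟩ := h
  have hxu : IsUnit x := by
    by_contra hx
    have h1 : x ∈ IsLocalRing.maximalIdeal (v.adicCompletionIntegers KK) := (IsLocalRing.mem_maximalIdeal x).2 hx
    rw [h2.maximalIdeal_eq, Ideal.mem_span_singleton] at h1
    obtain ⟨y, rfl⟩ := h1
    refine h2.not_isUnit (isUnit_of_dvd_unit ⟨4 * t + 2 * y ^ 2, ?_⟩ hc)
    linear_combination ht
  obtain ⟨x', hx'⟩ := hxu.exists_right_inv
  have hxx : (x : v.adicCompletion KK) * (x' : v.adicCompletion KK) = 1 := by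
    have h5 := congrArg (algebraMap (v.adicCompletionIntegers KK) (v.adicCompletion KK)) hx'
    rw [map_mul, map_one] at h5
    exact h5
  have hct : (c : v.adicCompletion KK) - (x : v.adicCompletion KK) ^ 2 = 8 * (t : v.adicCompletion KK) := by
    have h5 := congrArg (algebraMap (v.adicCompletionIntegers KK) (v.adicCompletion KK)) ht
    rw [map_sub, map_pow, map_mul, map_ofNat] at h5
    exact h5
  obtain ⟨T, hT⟩ : ∃ T : v.adicCompletionIntegers KK, T = t * x' ^ 2 := ⟨_, rfl⟩
  have hTe : (T : v.adicCompletion KK) = (t : v.adicCompletion KK) * (x' : v.adicCompletion KK) ^ 2 := by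
    rw [hT]
    rfl
  have hTv : Valued.v (T : v.adicCompletion KK) ≤ (1 : WithZero (Multiplicative ℤ)) := T.2
  have h2T : Valued.v (2 * (T : v.adicCompletion KK)) < (1 : WithZero (Multiplicative ℤ)) := by
    rw [map_mul]
    calc Valued.v (2 : v.adicCompletion KK) * Valued.v (T : v.adicCompletion KK)
        ≤ Valued.v (2 : v.adicCompletion KK) * 1 := mul_le_mul' le_rfl hTv
      _ < 1 := by rw [mul_one]; exact h2v
  have h12T : Valued.v (1 - 2 * (T : v.adicCompletion KK)) = (1 : WithZero (Multiplicative ℤ)) := by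
    rw [Valuation.map_sub_eq_of_lt_left _ (by rw [map_one]; exact h2T), map_one]
  obtain ⟨w, hw, hw'⟩ := JD.hensel3 v (p := 2) (q := 1 - 2 * (T : v.adicCompletion KK))
    (t := -(2 * (T : v.adicCompletion KK))) (x₀ := 0) h2v.le h12T.le (by rw [Valuation.map_neg]; exact h2T.le)
    (by rw [map_zero]; exact zero_le) (by
      have e : (0 : v.adicCompletion KK) ^ 3 + 2 * 0 ^ 2 + (1 - 2 * (T : v.adicCompletion KK)) * 0 +
          -(2 * (T : v.adicCompletion KK)) = -(2 * (T : v.adicCompletion KK)) := by ring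
      rw [e, Valuation.map_neg]
      exact h2T) (by
      have e : 3 * (0 : v.adicCompletion KK) ^ 2 + 2 * 2 * 0 + (1 - 2 * (T : v.adicCompletion KK)) =
          1 - 2 * (T : v.adicCompletion KK) := by ring
      rw [e]
      exact h12T)
  rw [sub_zero] at hw'
  have hw2 : w ^ 2 + w = 2 * (T : v.adicCompletion KK) := by
    have e : (w ^ 2 + w - 2 * (T : v.adicCompletion KK)) * (w + 1) = 0 := by linear_combination hw
    rcases mul_eq_zero.1 e with h1 | h1
    · exact sub_eq_zero.1 h1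
    · exfalso
      have h3 : w = -1 := by linear_combination h1
      rw [h3, Valuation.map_neg, map_one] at hw'
      exact lt_irrefl _ hw'
  have hy : ((x : v.adicCompletion KK) * (1 + 2 * w)) ^ 2 = (c : v.adicCompletion KK) := by
    have e : ((x : v.adicCompletion KK) * (1 + 2 * w)) ^ 2 = (x : v.adicCompletion KK) ^ 2 * (1 + 4 * (w ^ 2 + w)) := by ring
    rw [e, hw2, hTe]
    linear_combination (-1 : v.adicCompletion KK) * hct + (8 * (t : v.adicCompletion KK) * ((x : v.adicCompletion KK) * (x' : v.adicCompletion KK) + 1)) * hxx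
  refine ⟨⟨(x : v.adicCompletion KK) * (1 + 2 * w), she_int v (by rw [hy, hcv])⟩, ?_⟩
  apply Subtype.ext
  exact hy

/-- [SHf] -/
theorem clG_of {D : Eis} (hfree : ∀ p : Eis, Prime p → ¬ p ^ 6 ∣ D) (hnsq : ¬ ∃ x : Eis, x ^ 2 = D)
    (htam : ∀ v : HeightOneSpectrum (𝓞 KK), ¬ 3 ∣ SBSD.tam (ED (jK D)) v) : ClG D := by
  have hdom : IsDomain Eis := eis_isDomain
  have two_ne : ∀ v : HeightOneSpectrum (𝓞 KK), (2 : v.adicCompletion KK) ≠ 0 := fun v h => JD.s5b_six_ne v (by
    rw [show (6 : v.adicCompletion KK) = 2 * 3 by norm_num, h, zero_mul])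
  have hcon : ∀ v : HeightOneSpectrum (𝓞 KK), ¬ 3 ∣ SBSD.tamagawa (v.adicCompletionIntegers KK)
      (ED (algebraMap (v.adicCompletionIntegers KK) (v.adicCompletion KK) (t5b_lo v D))) := by
    intro v h
    apply htam v
    unfold SBSD.tam
    rw [JD.bc]
    exact h
  have hvp : ∀ (p : Eis) (hp : Prime p), (CU.pl p hp).asIdeal = Ideal.span {eE p} := fun p hp => rfl
  refine ⟨hfree, hnsq, ?_, ?_, ?_, ?_, ?_⟩
  · intro p c hp h6 hc hD x hx
    have hv := hvp p hp
    set v := CU.pl p hp with hvdef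
    have hl := CU.t5b_irr' hp hv
    have h2u : IsUnit (2 : v.adicCompletionIntegers KK) := by
      have h1 := CU.t5b_unit hv 2 (fun h => h6 (h.trans ⟨3, by norm_num⟩))
      rwa [map_ofNat] at h1
    have h6u : IsUnit (6 : v.adicCompletionIntegers KK) := by
      have h1 := CU.t5b_unit hv 6 h6
      rwa [map_ofNat] at h1
    have hcu := CU.t5b_unit hv c hc
    obtain ⟨y, hy⟩ := sqrt_odd v h2u hl hcu (x := t5b_lo v x) (by rw [← map_pow, ← map_sub]; exact map_dvd _ hx)
    obtain ⟨k, hk, hDk⟩ : ∃ k : ℕ, (k = 1 ∨ k = 2) ∧ D = p ^ (2 * k) * c := by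
      rcases hD with h | h
      · exact ⟨1, Or.inl rfl, h⟩
      · exact ⟨2, Or.inr rfl, h⟩
    have hlo : t5b_lo v D = t5b_lo v p ^ (2 * k) * t5b_lo v c := by rw [hDk, map_mul, map_pow]
    apply hcon v
    rw [hlo]
    have hk0 : 2 * k ≠ 0 := by omega
    refine three_sq (v.adicCompletion KK) hl (Or.inl ((dvd_pow_self _ hk0).mul_right _))
      (mul_ne_zero (pow_ne_zero _ hl.ne_zero) hcu.ne_zero) (two_ne v)
      (unit_p' h6u _ _ hl hcu (2 * k) (by omega)) (t5b_lo v p ^ k * y) ?_
    rw [mul_pow, hy]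
    ring
  · intro c hc hD x hx
    have hv := hvp 2 TH.b4_two_prime
    set v := CU.pl 2 TH.b4_two_prime with hvdef
    have hl := CU.t5b_irr' TH.b4_two_prime hv
    rw [map_ofNat] at hl
    have hcu := CU.t5b_unit hv c hc
    obtain ⟨y, hy⟩ := sqrt_two v hl hcu (x := t5b_lo v x) (by
      have h1 := map_dvd (t5b_lo v) hx
      rwa [map_ofNat, map_sub, map_pow] at h1)
    obtain ⟨k, hk, hDk⟩ : ∃ k : ℕ, (k = 0 ∨ k = 1) ∧ D = 2 ^ (2 * k) * c := by
      rcases hD with h | h
      · exact ⟨0, Or.inl rfl, by rw [h]; ring⟩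
      · exact ⟨1, Or.inr rfl, h⟩
    have hlo : t5b_lo v D = 2 ^ (2 * k) * t5b_lo v c := by rw [hDk, map_mul, map_pow, map_ofNat]
    apply hcon v
    rw [hlo]
    refine three_sq (v.adicCompletion KK) hl (Or.inr hl)
      (mul_ne_zero (pow_ne_zero _ hl.ne_zero) hcu.ne_zero) (two_ne v)
      (unit_two' hl _ hcu (2 * k) (by omega) (fun h => by omega)) (2 ^ k * y) ?_
    rw [mul_pow, hy]
    ring
  · intro hlaD η hη hdvd
    have hv := hvp la CU.la_prime
    set v := CU.pl la CU.la_prime with hvdef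
    have hl := CU.t5b_irr' CU.la_prime hv
    have hε := CU.t5b_eps v
    have h3 := CU.t5b_three v
    have h2u : IsUnit (2 : v.adicCompletionIntegers KK) := shc_two hl h3
    obtain ⟨d, hd⟩ := hdvd
    have hlo : t5b_lo v D = t5b_lo v η + t5b_lo v la ^ 2 * (1 + t5b_lo v la * t5b_lo v d) := by
      have h1 : D = η + la ^ 2 * (1 + la * d) := by linear_combination hd
      rw [h1]
      simp only [map_add, map_mul, map_pow, map_one]
    have hc1 : ¬ la ∣ 1 + la * d := by
      intro h
      have h4 := dvd_sub h (Dvd.intro d rfl : la ∣ la * d)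
      rw [add_sub_cancel_right] at h4
      exact CU.la_prime.not_isUnit (isUnit_of_dvd_one h4)
    have hcu := CU.t5b_unit hv _ hc1
    rw [map_add, map_one, map_mul] at hcu
    obtain ⟨y, hy⟩ := sqrt_odd v h2u hl hcu (x := 1) ⟨t5b_lo v d, by ring⟩
    have hη' : t5b_lo v η = 1 ∨ t5b_lo v η = -1 := by
      rcases hη with rfl | rfl
      · left; rw [map_one]
      · right; rw [map_neg, map_one]
    refine hcon v (three_la0 (v.adicCompletion KK) hl hε h3 (CU.t5b_res hv) hη' hlo hy ?_)
    have h5 := unit_la' (K := v.adicCompletion KK) hl hε h3 (CU.t5b_res hv) _ (CU.t5b_unit hv D hlaD) 0 (by norm_num) (fun h => by omega)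
    rw [pow_zero, one_mul] at h5
    exact h5
  · intro c hc hD
    have hv := hvp la CU.la_prime
    set v := CU.pl la CU.la_prime with hvdef
    have hl := CU.t5b_irr' CU.la_prime hv
    have hε := CU.t5b_eps v
    have h3 := CU.t5b_three v
    have h2u : IsUnit (2 : v.adicCompletionIntegers KK) := shc_two hl h3
    have hcu := CU.t5b_unit hv c hc
    by_contra hn
    have hn' : t5b_lo v la ∣ t5b_lo v c - 1 := by
      rcases CU.t5b_res hv (t5b_lo v c) with h | h | h
      · exact absurd h (CU.t5b_dvd CU.la_prime hv c hc)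
      · exact h
      · exfalso
        rw [← map_one (t5b_lo v), ← map_add] at h
        exact CU.t5b_dvd CU.la_prime hv _ hn h
    obtain ⟨y, hy⟩ := sqrt_odd v h2u hl hcu (x := 1) (by rwa [one_pow])
    obtain ⟨k, hk, hDk⟩ : ∃ k : ℕ, (k = 1 ∨ k = 2) ∧ D = la ^ (2 * k) * c := by
      rcases hD with h | h
      · exact ⟨1, Or.inl rfl, h⟩
      · exact ⟨2, Or.inr rfl, h⟩
    have hlo : t5b_lo v D = t5b_lo v la ^ (2 * k) * t5b_lo v c := by rw [hDk, map_mul, map_pow]
    apply hcon v
    rw [hlo]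
    have hk0 : 2 * k ≠ 0 := by omega
    refine three_sq (v.adicCompletion KK) hl (Or.inl ((dvd_pow_self _ hk0).mul_right _))
      (mul_ne_zero (pow_ne_zero _ hl.ne_zero) hcu.ne_zero) (two_ne v)
      (unit_la' hl hε h3 (CU.t5b_res hv) _ hcu (2 * k) (by omega) (fun h => by omega)) (t5b_lo v la ^ k * y) ?_
    rw [mul_pow, hy]
    ring
  · intro c hc hD η hη hdvd
    have hv := hvp la CU.la_prime
    set v := CU.pl la CU.la_prime with hvdef
    have hl := CU.t5b_irr' CU.la_prime hv
    have hε := CU.t5b_eps v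
    have h3 := CU.t5b_three v
    have h2u : IsUnit (2 : v.adicCompletionIntegers KK) := shc_two hl h3
    have hcu := CU.t5b_unit hv c hc
    obtain ⟨d, hd⟩ := hdvd
    have hlc : t5b_lo v c = t5b_lo v η + t5b_lo v la * (1 + t5b_lo v la * t5b_lo v d) := by
      have h1 : c = η + la * (1 + la * d) := by linear_combination hd
      rw [h1]
      simp only [map_add, map_mul, map_one]
    have hc1 : ¬ la ∣ 1 + la * d := by
      intro h
      have h4 := dvd_sub h (Dvd.intro d rfl : la ∣ la * d)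
      rw [add_sub_cancel_right] at h4
      exact CU.la_prime.not_isUnit (isUnit_of_dvd_one h4)
    have hcu1 := CU.t5b_unit hv _ hc1
    rw [map_add, map_one, map_mul] at hcu1
    obtain ⟨y, hy⟩ := sqrt_odd v h2u hl hcu1 (x := 1) ⟨t5b_lo v d, by ring⟩
    have hyu : IsUnit y := by
      rw [← hy] at hcu1
      exact isUnit_of_dvd_unit (dvd_pow_self y two_ne_zero) hcu1
    have hη' : t5b_lo v η = 1 ∨ t5b_lo v η = -1 := by
      rcases hη with rfl | rfl
      · left; rw [map_one]
      · right; rw [map_neg, map_one]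
    have hlo : t5b_lo v D = t5b_lo v la ^ 3 * t5b_lo v c := by rw [hD, map_mul, map_pow]
    have h5 := unit_la' (K := v.adicCompletion KK) hl hε h3 (CU.t5b_res hv) _ hcu 3 (by norm_num) (by
      rintro - η' hη'' ⟨z, hz⟩
      have h6 : t5b_lo v η - η' = t5b_lo v la * (t5b_lo v la ^ 2 * z - (1 + t5b_lo v la * t5b_lo v d)) := by
        linear_combination hz - hlc
      have h2l : ¬ t5b_lo v la ∣ 2 := fun h => hl.not_isUnit (isUnit_of_dvd_unit h h2u)
      have h7 : t5b_lo v η - η' = 0 := by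
        rcases hη' with h8 | h8 <;> rcases hη'' with h9 | h9 <;> rw [h8, h9] at h6 ⊢
        · ring
        · exfalso
          exact h2l ⟨_, by rw [← h6]; norm_num⟩
        · exfalso
          exact h2l ((dvd_neg).1 ⟨_, by rw [← h6]; norm_num⟩)
        · ring
      rw [h7] at h6
      have h8 := (mul_eq_zero.1 h6.symm).resolve_left hl.ne_zero
      exact hl.not_isUnit (isUnit_of_dvd_one ⟨t5b_lo v la * z - t5b_lo v d, by linear_combination -h8⟩))
    apply hcon v
    rw [hlo]
    exact three_la3 (v.adicCompletion KK) hl hε h3 hη' hyu (by rw [hlc, hy]) h5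

/-- [SHg] -/
theorem nsq_of {D : Eis} (hD : D ≠ 0) (h : ∀ P : (ED (jK D)).toAffine.Point, 3 • P = 0 → P = 0) : ¬ ∃ x : Eis, x ^ 2 = D := by
  rintro ⟨x, hx⟩
  have hx0 : x ≠ 0 := by
    rintro rfl
    exact hD (by rw [← hx]; ring)
  have hy0 : (jK x : KK) ≠ 0 := by
    intro h0
    exact hx0 (JD.jK_inj (h0.trans (map_zero _).symm))
  have hy : (jK x : KK) ^ 2 = jK D := by rw [← map_pow, hx]
  have hns : (ED (jK D)).toAffine.Nonsingular 0 (jK x) :=
    JD.s3_nonsing (jK D) 0 (jK x) (by rw [hy]; ring) (Or.inr (mul_ne_zero two_ne_zero hy0))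
  have hneg : (ED (jK D)).toAffine.negY 0 (jK x) = -jK x := by
    simp [WeierstrassCurve.Affine.negY, ED]
  have hne : jK x ≠ (ED (jK D)).toAffine.negY 0 (jK x) := by
    rw [hneg]
    intro h1
    have h2 : (2 : KK) * jK x = 0 := by linear_combination h1
    exact (mul_ne_zero two_ne_zero hy0) h2
  have hslope : (ED (jK D)).toAffine.slope 0 0 (jK x) (jK x) = 0 := by
    rw [WeierstrassCurve.Affine.slope_of_Y_ne rfl hne]
    simp [ED]
  have hP2 : (WeierstrassCurve.Affine.Point.some 0 (jK x) hns : (ED (jK D)).toAffine.Point) + .some 0 (jK x) hns =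
      -.some 0 (jK x) hns := by
    rw [WeierstrassCurve.Affine.Point.add_self_of_Y_ne' hne]
    congr 1
    simp only [WeierstrassCurve.Affine.Point.some.injEq]
    rw [hslope]
    constructor
    · simp [WeierstrassCurve.Affine.addX, ED]
    · simp [WeierstrassCurve.Affine.negAddY, WeierstrassCurve.Affine.addX, ED]
  have h3 := h (.some 0 (jK x) hns) (by
    rw [show (3 : ℕ) = 2 + 1 by norm_num, add_smul, one_smul, two_smul, hP2, neg_add_cancel])
  exact WeierstrassCurve.Affine.Point.some_ne_zero hns h3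

end JG
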