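import Pool.Agent.JG.SA
import Pool.Agent.JXD.S4

/-!
# [JG-ST] the Tamagawa numbers of `y² = x³ + D` (abstract discrete valuation ring `A`)

PROOF. `VC63.NR (ED D) P` (MP_9ab903_nt/NT/V2.lean); `JD.index_one`, `JD.index_odd` (JD/S3.lean, JD/S4.lean), `JD.s3_nonsing`, `JD.s3_eq`; `JD.tamagawa_p`, `JD.tamagawa_two` are examples of the proof of `tamX`; `JXD.tamagawa_laX` of `tamY`.
`tamX` [STa]: `index_one`; `P = (algebraMap a, algebraMap b)`: `b² = a³ + D` (`s3_eq`), `l ∤ a` (`h`), so `3 ā² ≠ 0`, `s3_nonsing`. `tamY` [STa]: `1 ≤ V y` resp. `l ∤ b`: `2 b̄ ≠ 0` (`2` is a unit: `JD.unit_la`), `s3_nonsing`. (In both: a point `(x, y)` and `a, b` with `algebraMap a = x`, `algebraMap b = y`.)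
`tamI` [STb]: `VC63.tamagawa_eq`, `JD.index_odd` with `S = {NR}`, `α = IsLocalRing.ResidueField A`, `f P` = the residue of `x₁` if `P = (algebraMap (l x₁), algebraMap b)`, arbitrary otherwise (choice, as in `JD.tamagawa_la`). A point `P` without `NR` is `(algebraMap a, algebraMap b)` with `3 ā² = 0` (`s3_nonsing`), so `l ∣ a`, and `h1`. Let `P = (l x, b)`, `Q = (l x', b')`
be without `NR` and `l ∣ x - x'`. `h2`: `b + b' = l² z`. If `P + Q = 0`: `NR`. Otherwise `P + Q = (x₃, y₃)`, `x₃ = m² - l x - l x'`, `m` the slope, and `m (b + b') = (l x)² + (l x) (l x') + (l x')²` (if `l x ≠ l x'`: `m = (b - b') / (l x - l x')` and `b² - b'² = (l x)³ - (l x')³`; if `l x = l x'`: `b = b'` or `b = -b'`; `b = -b'` is `P + Q = 0`; `m = 3 (l x)² / (2 b)`),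
so `m z = x² + x x' + x'² =: N`, `N ≡ 3 x² mod l`, a unit. So `V m * V z = 1`, `1 ≤ V m`, `V x₃ = V m ^ 2 ≥ 1` (`V (l x) < 1`), so for `a₃ ∈ A` with `algebraMap a₃ = x₃` we have `l ∤ a₃`: `NR` (`s3_nonsing` with `3 ā₃² ≠ 0`). (For the slope: `WeierstrassCurve.Affine.slope_of_X_ne`, `slope_of_Y_ne`, see `JD.s4c_slope`, `JD.add_NR` in JD/S4.lean.)
`tam_p'` [STc] (`2`, `3` units). `k = 0`: `JD.tamagawa_good`. `k = 1`: `JD.tamagawa_p` (or `tamX`). Otherwise `unit_p'` (JG/SA.lean) for `hu`. `k = 2`: `tamX`: `b² = l³ a'³ + l² D'`, `b = l b'`, `b'² = l a'³ + D'`: contradiction to `hk`. `k = 3`: `tamI`: `a = l x`, `b² = l³ (x³ + D')`, `l ∣ b`, `b = l b₁`, `b₁² = l (x³ + D')`, `b₁ = l b₂`,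
`l b₂² = x³ + D'`, so `l ∤ x` (`D'` unit); `l² ∣ b`, `l² ∣ b'`. `k = 4`: `tamX`: `a = l a'`, `b = l b'`, `b'² = l a'³ + l² D'`, `b' = l b''`, `l b''² = a'³ + l D'`, `a' = l a''`, `b''² = l² a''³ + D'`: contradiction to `hk`. `k = 5`: `tamX`: `b'² = l a'³ + l³ D'`, `b' = l b''`, `l b''² = a'³ + l² D'`, `a' = l a''`, `b''² = l² a''³ + l D'`, `b'' = l b₃`,
`l b₃² = l a''³ + D'`, `l ∣ D'`: contradiction.
`tam_two'` [STd] (`l = 2`, `3` is a unit; `unit_two'` for `hu`). `k = 0`: `tamX`: `a = 2 a'`, `D' - b² = -8 a'³`. `k = 1`: `b² = 8 a'³ + 2 D'`: `2 ∣ b`, `4 ∣ 2 D'`. `k = 2`: `tamI`: `a = 2 x`, `b = 2 y`, `y² = 2 x³ + D'`; if `2 ∣ x` then `8 ∣ D' - y²`; `h2`: `y² - y'² = 2 (x³ - x'³)` is divisible by `4`, `(y - y')(y + y') ∈ 4 A`, and `y + y' = (y - y') + 2 y'`,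
so `2 ∣ y + y'`, `4 ∣ b + b'`. `k = 3`: as `tam_p'` `k = 3`. `k = 4`: `tamX`: as `tam_p'` `k = 4`: `b''² = 4 a''³ + D'`: contradiction to `h4`. `k = 5`: as `tam_p'`.
`tam_la'` [STe] (`unit_la'`; `tamY`). `k = 0`: if `l² ∣ D' - η` for an `η`: `JD.tamagawa_la` (JD/S4.lean; its hypotheses: `hl hε h3 hres hη`, `l² ∣ D - η`, `¬ l³ ∣ D - η - l²`, `hK`). Otherwise `JXD.tamagawa_laX`. `k ≥ 1`: `b² = a³ + l^k D'`, `l ∣ b`, so `l ∣ a`. `k = 1`: `l² ∣ l D'`. `k = 2`: `b'² = l a'³ + D'`, `l ∣ b'² + 1`: impossible (`hres b'`: `b'² + 1 ≡ 1, 2 mod l`, units).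
`k = 4`: `b''² = l² a''³ + D'`: as for `k = 2`. `k = 5`: as `tam_p'`. `k = 3`: `b'² = l (a'³ + D')`, `b' = l b''`, `l b''² = a'³ + D'`; `a' ≡ s mod l`, `s ∈ {0, 1, -1}`, `s = 0`: `l ∣ D'`. `s = ± 1`: `a'³ = s + l³ e` (`3 = ε l²`), `D' + s = l b''² - l³ e`. `b'' ≡ 0 mod l`: `l³ ∣ D' + s`: contradiction to `h3a` with `η = -s`.
`b'' ≡ ± 1 mod l`: `b''² ≡ 1 mod l`, `l² ∣ D' + s - l`: contradiction to `h3b` with `η = -s`.
-/

set_option autoImplicit false

open NumberField IsDedekindDomain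
open scoped Classical

namespace JG

open JD (ED ED_map ED_Δ ED_c₄ ED_equation)

theorem sta_two_unit {A : Type} [CommRing A] [IsDomain A] [IsDiscreteValuationRing A] {l ε : A}
    (hl : Irreducible l) (h3 : (3 : A) = ε * l ^ 2) : IsUnit (2 : A) := by
  by_contra h
  have h1 : (2 : A) ∈ IsLocalRing.maximalIdeal A := (IsLocalRing.mem_maximalIdeal _).2 h
  rw [hl.maximalIdeal_eq, Ideal.mem_span_singleton] at h1
  have h4 : l ∣ (1 : A) := by
    have h5 : l ∣ (3 : A) := ⟨ε * l, by rw [h3]; ring⟩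
    have h6 := dvd_sub h5 h1
    rwa [show (3 : A) - 2 = 1 by norm_num] at h6
  exact hl.not_isUnit (isUnit_of_dvd_one h4)

section
variable (A : Type) [CommRing A] [IsDomain A] [IsDiscreteValuationRing A] (K : Type) [Field K]
  [Algebra A K] [IsFractionRing A K]

/-- [STa] -/
theorem tamX (h3 : IsUnit (3 : A)) (l : A) (hl : Irreducible l) (D : A)
    (hu : ∀ T : WeierstrassCurve.VariableChange K, (T • (ED D).map (algebraMap A K)).IsMinimal A →
      (IsDiscreteValuationRing.maximalIdeal A).valuation K (T.u : K) = 1)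
    (h : ∀ a b : A, b ^ 2 = a ^ 3 + D → ¬ l ∣ a) : SBSD.tamagawa A (ED (algebraMap A K D)) = 1 := by
  refine JD.index_one A K D hu ?_
  rintro (_ | ⟨x, y, h'⟩)
  · trivial
  have hred : (ED D).map (IsLocalRing.residue A) = ED (IsLocalRing.residue A D) := ED_map _ _
  simp only [VC63.NR, hred]
  intro a b ha hb
  subst ha hb
  have heq := JD.s3_eq A K h'
  have h3' : (3 : IsLocalRing.ResidueField A) ≠ 0 := by
    have h4 := (h3.map (IsLocalRing.residue A)).ne_zero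
    rwa [map_ofNat] at h4
  refine JD.s3_nonsing _ _ _ (by rw [← map_pow, heq, map_add, map_pow]) (Or.inl ?_)
  intro hc
  have ha0 : IsLocalRing.residue A a = 0 :=
    pow_eq_zero_iff (two_ne_zero) |>.1 ((mul_eq_zero.1 hc).resolve_left h3')
  rw [IsLocalRing.residue_eq_zero_iff, hl.maximalIdeal_eq, Ideal.mem_span_singleton] at ha0
  exact h a b heq ha0

/-- [STa] -/
theorem tamY (l ε : A) (hl : Irreducible l) (h3 : (3 : A) = ε * l ^ 2) (D : A)
    (hu : ∀ T : WeierstrassCurve.VariableChange K, (T • (ED D).map (algebraMap A K)).IsMinimal A →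
      (IsDiscreteValuationRing.maximalIdeal A).valuation K (T.u : K) = 1)
    (h : ∀ a b : A, b ^ 2 = a ^ 3 + D → ¬ l ∣ b) : SBSD.tamagawa A (ED (algebraMap A K D)) = 1 := by
  refine JD.index_one A K D hu ?_
  rintro (_ | ⟨x, y, h'⟩)
  · trivial
  have hred : (ED D).map (IsLocalRing.residue A) = ED (IsLocalRing.residue A D) := ED_map _ _
  simp only [VC63.NR, hred]
  intro a b ha hb
  subst ha hb
  have heq := JD.s3_eq A K h'
  have h2' : (2 : IsLocalRing.ResidueField A) ≠ 0 := by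
    have h4 := ((sta_two_unit hl h3).map (IsLocalRing.residue A)).ne_zero
    rwa [map_ofNat] at h4
  refine JD.s3_nonsing _ _ _ (by rw [← map_pow, heq, map_add, map_pow]) (Or.inr ?_)
  intro hc
  have hb0 : IsLocalRing.residue A b = 0 := (mul_eq_zero.1 hc).resolve_left h2'
  rw [IsLocalRing.residue_eq_zero_iff, hl.maximalIdeal_eq, Ideal.mem_span_singleton] at hb0
  exact h a b heq hb0

/-- the sum of two singular points with congruent coordinates -/
theorem STb_add (h3 : IsUnit (3 : A)) (l : A) (hl : Irreducible l) (D : A) {x x' b b' : A} (hx : IsUnit x)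
    (hxx : l ∣ x - x') (hbb : l ^ 2 ∣ b + b')
    (h₁ : ((ED D).map (algebraMap A K)).toAffine.Nonsingular (algebraMap A K (l * x)) (algebraMap A K b))
    (h₂ : ((ED D).map (algebraMap A K)).toAffine.Nonsingular (algebraMap A K (l * x')) (algebraMap A K b')) :
    VC63.NR (ED D) ((.some _ _ h₁ : ((ED D).map (algebraMap A K)).toAffine.Point) + .some _ _ h₂) := by
  have hinj : Function.Injective (algebraMap A K) := IsFractionRing.injective A K
  have e₁ := h₁.1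
  have e₂ := h₂.1
  rw [ED_map, ED_equation] at e₁ e₂
  by_cases hxy : algebraMap A K (l * x) = algebraMap A K (l * x') ∧
      algebraMap A K b = ((ED D).map (algebraMap A K)).toAffine.negY (algebraMap A K (l * x')) (algebraMap A K b')
  · rw [WeierstrassCurve.Affine.Point.add_of_Y_eq hxy.1 hxy.2]
    exact trivial
  · rw [WeierstrassCurve.Affine.Point.add_some hxy]
    have h4 := (WeierstrassCurve.Affine.nonsingular_add h₁ h₂ hxy).1
    have hm := JD.s4c_slope ((ED D).map (algebraMap A K)).toAffine (by simp [ED]) (by simp [ED]) (by simp [ED])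
      (by simp [ED]) e₁ e₂ hxy
    have hX : ((ED D).map (algebraMap A K)).toAffine.addX (algebraMap A K (l * x)) (algebraMap A K (l * x'))
        (((ED D).map (algebraMap A K)).toAffine.slope (algebraMap A K (l * x)) (algebraMap A K (l * x'))
          (algebraMap A K b) (algebraMap A K b')) =
        (((ED D).map (algebraMap A K)).toAffine.slope (algebraMap A K (l * x)) (algebraMap A K (l * x'))
          (algebraMap A K b) (algebraMap A K b')) ^ 2 - algebraMap A K (l * x) - algebraMap A K (l * x') := by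
      rw [WeierstrassCurve.Affine.addX]
      simp [ED]
    have hred : (ED D).map (IsLocalRing.residue A) = ED (IsLocalRing.residue A D) := ED_map _ _
    simp only [VC63.NR, hred]
    intro a₃ b₃ ha₃ hb₃
    rw [← ha₃, ← hb₃, ED_map, ED_equation] at h4
    have heq : b₃ ^ 2 = a₃ ^ 3 + D := by
      apply hinj
      rw [map_pow, map_add, map_pow]
      exact h4
    have h3' : (3 : IsLocalRing.ResidueField A) ≠ 0 := by
      have h5 := (h3.map (IsLocalRing.residue A)).ne_zero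
      rwa [map_ofNat] at h5
    refine JD.s3_nonsing _ _ _ (by rw [← map_pow, heq, map_add, map_pow]) (Or.inl ?_)
    refine mul_ne_zero h3' (pow_ne_zero 2 ?_)
    rw [Ne, IsLocalRing.residue_eq_zero_iff, hl.maximalIdeal_eq, Ideal.mem_span_singleton]
    rintro ⟨c, hc⟩
    obtain ⟨m, hmdef⟩ : ∃ m, m = ((ED D).map (algebraMap A K)).toAffine.slope (algebraMap A K (l * x))
      (algebraMap A K (l * x')) (algebraMap A K b) (algebraMap A K b') := ⟨_, rfl⟩
    rw [← hmdef] at hm hX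
    rw [← hmdef, hX, hc] at ha₃
    obtain ⟨z, hz⟩ := hbb
    obtain ⟨e, he⟩ := hxx
    have hl0 : algebraMap A K (l ^ 2) ≠ 0 := by
      intro h
      exact pow_ne_zero 2 hl.ne_zero (hinj (by rw [h, map_zero]))
    have hm2 : m * algebraMap A K z = algebraMap A K (x ^ 2 + x * x' + x' ^ 2) := by
      apply mul_left_cancel₀ hl0
      have h5 : algebraMap A K b + algebraMap A K b' = algebraMap A K (l ^ 2) * algebraMap A K z := by
        rw [← map_add, hz, map_mul]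
      rw [h5] at hm
      simp only [map_add, map_mul, map_pow] at hm ⊢
      linear_combination hm
    have hm3 : m ^ 2 = algebraMap A K (l * (c + x + x')) := by
      rw [mul_add, mul_add, map_add, map_add]
      linear_combination -ha₃
    have hu2 : (x ^ 2 + x * x' + x' ^ 2) ^ 2 = l * ((c + x + x') * z ^ 2) := by
      apply hinj
      rw [map_pow, ← hm2, mul_pow, hm3, ← map_pow, ← map_mul]
      congr 1
      ring
    have hprime : Prime l := hl.prime
    have hlu : l ∣ x ^ 2 + x * x' + x' ^ 2 := hprime.dvd_of_dvd_pow ⟨_, hu2⟩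
    obtain ⟨u', hu'⟩ := hlu
    have hx' : x' = x - l * e := by linear_combination -he
    have h6 : l ∣ 3 * x ^ 2 := by
      refine ⟨u' + 3 * x * e - l * e ^ 2, ?_⟩
      rw [hx'] at hu'
      linear_combination hu'
    exact hl.not_isUnit (isUnit_of_dvd_unit h6 (h3.mul (hx.pow 2)))

/-- [STb] -/
theorem tamI [Finite (IsLocalRing.ResidueField A)] (h3 : IsUnit (3 : A)) (l : A) (hl : Irreducible l) (D : A)
    (hu : ∀ T : WeierstrassCurve.VariableChange K, (T • (ED D).map (algebraMap A K)).IsMinimal A →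
      (IsDiscreteValuationRing.maximalIdeal A).valuation K (T.u : K) = 1)
    (h1 : ∀ a b : A, b ^ 2 = a ^ 3 + D → l ∣ a → ∃ x : A, IsUnit x ∧ a = l * x)
    (h2 : ∀ a b a' b' x x' : A, b ^ 2 = a ^ 3 + D → b' ^ 2 = a' ^ 3 + D → a = l * x → a' = l * x' → l ∣ x - x' →
      l ^ 2 ∣ b + b') :
    SBSD.tamagawa A (ED (algebraMap A K D)) ≠ 0 ∧ ¬ 3 ∣ SBSD.tamagawa A (ED (algebraMap A K D)) := by
  have hW : SBSD.tamagawa A (ED (algebraMap A K D)) =
      SBSD.tamagawa A ((ED D).map (algebraMap A K)) := by rw [ED_map]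
  rw [hW, VC63.tamagawa_eq (ED D) hu]
  have h3' : (3 : IsLocalRing.ResidueField A) ≠ 0 := by
    have h5 := (h3.map (IsLocalRing.residue A)).ne_zero
    rwa [map_ofNat] at h5
  have hred : (ED D).map (IsLocalRing.residue A) = ED (IsLocalRing.residue A D) := ED_map _ _
  let Sg : ((ED D).map (algebraMap A K)).toAffine.Point → Prop := fun P =>
    ∃ x b : A, IsUnit x ∧ ∃ hn : ((ED D).map (algebraMap A K)).toAffine.Nonsingular
      (algebraMap A K (l * x)) (algebraMap A K b), P = .some _ _ hn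
  have hSg : ∀ P : ((ED D).map (algebraMap A K)).toAffine.Point, ¬ VC63.NR (ED D) P → Sg P := by
    intro P hP
    match P, hP with
    | .zero, hP => exact absurd trivial hP
    | .some x y h, hP =>
      simp only [VC63.NR, hred] at hP
      push Not at hP
      obtain ⟨a, b, ha, hb, hns⟩ := hP
      subst ha hb
      have heq := JD.s3_eq A K h
      have hla : l ∣ a := by
        by_contra hla
        apply hns
        refine JD.s3_nonsing _ _ _ (by rw [← map_pow, heq, map_add, map_pow]) (Or.inl ?_)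
        refine mul_ne_zero h3' (pow_ne_zero 2 ?_)
        rw [Ne, IsLocalRing.residue_eq_zero_iff, hl.maximalIdeal_eq, Ideal.mem_span_singleton]
        exact hla
      obtain ⟨x, hx, hax⟩ := h1 a b heq hla
      subst hax
      exact ⟨x, b, hx, h, rfl⟩
  let f : ((ED D).map (algebraMap A K)).toAffine.Point → IsLocalRing.ResidueField A := fun P =>
    if h : Sg P then IsLocalRing.residue A h.choose else 0
  refine JD.index_odd {P : ((ED D).map (algebraMap A K)).toAffine.Point | VC63.NR (ED D) P} ?_ f ?_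
  · exact trivial
  · intro P Q hP hQ hf
    have hS1 : Sg P := hSg P hP
    have hS2 : Sg Q := hSg Q hQ
    have e1 : f P = IsLocalRing.residue A hS1.choose := dif_pos hS1
    have e2 : f Q = IsLocalRing.residue A hS2.choose := dif_pos hS2
    rw [e1, e2] at hf
    obtain ⟨hx1, hn1, hP1⟩ := hS1.choose_spec.choose_spec
    obtain ⟨hx2, hn2, hQ1⟩ := hS2.choose_spec.choose_spec
    have hxx : l ∣ hS1.choose - hS2.choose := by
      rw [← Ideal.mem_span_singleton, ← hl.maximalIdeal_eq, ← IsLocalRing.residue_eq_zero_iff, map_sub, hf, sub_self]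
    have hbb := h2 _ _ _ _ _ _ (JD.s3_eq A K hn1) (JD.s3_eq A K hn2) rfl rfl hxx
    have h6 := STb_add A K h3 l hl D hx1 hxx hbb hn1 hn2
    rw [← hP1, ← hQ1] at h6
    exact h6

/-- [STc] -/
theorem tam_p' [Finite (IsLocalRing.ResidueField A)] (h6 : IsUnit (6 : A)) (l D' : A) (hl : Irreducible l) (hD : IsUnit D')
    (k : ℕ) (hk5 : k ≤ 5) (hk : k = 2 ∨ k = 4 → ∀ x : A, ¬ l ∣ D' - x ^ 2) :
    SBSD.tamagawa A (ED (algebraMap A K (l ^ k * D'))) ≠ 0 ∧ ¬ 3 ∣ SBSD.tamagawa A (ED (algebraMap A K (l ^ k * D'))) := by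
  have hlp : Prime l := hl.prime
  have hl0 : l ≠ 0 := hl.ne_zero
  have h3 : IsUnit (3 : A) := isUnit_of_dvd_unit ⟨2, by norm_num⟩ h6
  have hlD : ¬ l ∣ D' := fun h => hl.not_isUnit (isUnit_of_dvd_unit h hD)
  have fin1 : SBSD.tamagawa A (ED (algebraMap A K (l ^ k * D'))) = 1 →
      SBSD.tamagawa A (ED (algebraMap A K (l ^ k * D'))) ≠ 0 ∧
        ¬ 3 ∣ SBSD.tamagawa A (ED (algebraMap A K (l ^ k * D'))) := by
    intro h
    rw [h]
    norm_num
  have hu : ∀ T : WeierstrassCurve.VariableChange K, (T • (ED (l ^ k * D')).map (algebraMap A K)).IsMinimal A →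
      (IsDiscreteValuationRing.maximalIdeal A).valuation K (T.u : K) = 1 :=
    fun T hT => unit_p' h6 l D' hl hD k hk5 T hT
  interval_cases k
  · refine fin1 (JD.tamagawa_good A K (l ^ 0 * D') ?_)
    rw [pow_zero, one_mul]
    exact h6.mul hD
  · refine fin1 (tamX A K h3 l hl _ hu ?_)
    rintro a b h ⟨a', rfl⟩
    have hb : l ∣ b := hlp.dvd_of_dvd_pow (n := 2) ⟨l ^ 2 * a' ^ 3 + D', by rw [h]; ring⟩
    obtain ⟨b', rfl⟩ := hb
    refine hlD ⟨b' ^ 2 - l * a' ^ 3, mul_left_cancel₀ hl0 ?_⟩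
    linear_combination -h
  · refine fin1 (tamX A K h3 l hl _ hu ?_)
    rintro a b h ⟨a', rfl⟩
    have hb : l ∣ b := hlp.dvd_of_dvd_pow (n := 2) ⟨l ^ 2 * a' ^ 3 + l * D', by rw [h]; ring⟩
    obtain ⟨b', rfl⟩ := hb
    refine hk (Or.inl rfl) b' ⟨-a' ^ 3, mul_left_cancel₀ (pow_ne_zero 2 hl0) ?_⟩
    linear_combination -h
  · have hx : ∀ x b : A, b ^ 2 = (l * x) ^ 3 + l ^ 3 * D' → ¬ l ∣ x ∧ l ^ 2 ∣ b := by
      intro x b h
      have hb : l ∣ b := hlp.dvd_of_dvd_pow (n := 2) ⟨l ^ 2 * (x ^ 3 + D'), by rw [h]; ring⟩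
      obtain ⟨b', rfl⟩ := hb
      have h1 : b' ^ 2 = l * (x ^ 3 + D') := by
        refine mul_left_cancel₀ (pow_ne_zero 2 hl0) ?_
        linear_combination h
      obtain ⟨b'', rfl⟩ := hlp.dvd_of_dvd_pow (n := 2) (Dvd.intro _ h1.symm)
      have h4 : l * b'' ^ 2 = x ^ 3 + D' := by
        refine mul_left_cancel₀ hl0 ?_
        linear_combination h1
      refine ⟨?_, ⟨b'', by ring⟩⟩
      rintro ⟨y, rfl⟩
      exact hlD ⟨b'' ^ 2 - l ^ 2 * y ^ 3, by linear_combination -h4⟩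
    refine tamI A K h3 l hl _ hu ?_ ?_
    · rintro a b h ⟨x, rfl⟩
      refine ⟨x, ?_, rfl⟩
      by_contra hc
      have h1 : x ∈ IsLocalRing.maximalIdeal A := (IsLocalRing.mem_maximalIdeal x).2 hc
      rw [hl.maximalIdeal_eq, Ideal.mem_span_singleton] at h1
      exact (hx x b h).1 h1
    · rintro a b a' b' x x' h h' rfl rfl -
      exact dvd_add (hx x b h).2 (hx x' b' h').2
  · refine fin1 (tamX A K h3 l hl _ hu ?_)
    rintro a b h ⟨a', rfl⟩
    have hb : l ∣ b := hlp.dvd_of_dvd_pow (n := 2) ⟨l ^ 2 * a' ^ 3 + l ^ 3 * D', by rw [h]; ring⟩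
    obtain ⟨b', rfl⟩ := hb
    have h1 : b' ^ 2 = l * (a' ^ 3 + l * D') := by
      refine mul_left_cancel₀ (pow_ne_zero 2 hl0) ?_
      linear_combination h
    obtain ⟨b'', rfl⟩ := hlp.dvd_of_dvd_pow (n := 2) (Dvd.intro _ h1.symm)
    have h4 : a' ^ 3 = l * (b'' ^ 2 - D') := by
      refine mul_left_cancel₀ hl0 ?_
      linear_combination -h1
    obtain ⟨a'', rfl⟩ := hlp.dvd_of_dvd_pow (n := 3) (Dvd.intro _ h4.symm)
    refine hk (Or.inr rfl) b'' ⟨-l * a'' ^ 3, mul_left_cancel₀ hl0 ?_⟩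
    linear_combination h4
  · refine fin1 (tamX A K h3 l hl _ hu ?_)
    rintro a b h ⟨a', rfl⟩
    have hb : l ∣ b := hlp.dvd_of_dvd_pow (n := 2) ⟨l ^ 2 * a' ^ 3 + l ^ 4 * D', by rw [h]; ring⟩
    obtain ⟨b', rfl⟩ := hb
    have h1 : b' ^ 2 = l * (a' ^ 3 + l ^ 2 * D') := by
      refine mul_left_cancel₀ (pow_ne_zero 2 hl0) ?_
      linear_combination h
    obtain ⟨b'', rfl⟩ := hlp.dvd_of_dvd_pow (n := 2) (Dvd.intro _ h1.symm)
    have h4 : a' ^ 3 = l * (b'' ^ 2 - l * D') := by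
      refine mul_left_cancel₀ hl0 ?_
      linear_combination -h1
    obtain ⟨a'', rfl⟩ := hlp.dvd_of_dvd_pow (n := 3) (Dvd.intro _ h4.symm)
    have h5 : b'' ^ 2 = l * (l * a'' ^ 3 + D') := by
      refine mul_left_cancel₀ hl0 ?_
      linear_combination -h4
    obtain ⟨c, rfl⟩ := hlp.dvd_of_dvd_pow (n := 2) (Dvd.intro _ h5.symm)
    refine hlD ⟨c ^ 2 - a'' ^ 3, mul_left_cancel₀ hl0 ?_⟩
    linear_combination -h5

/-- descent for exponent `3` -/
theorem STd_three {R : Type} [CommRing R] [IsDomain R] {l D' : R} (hp : Prime l) (hD : ¬ l ∣ D') {x b : R}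
    (hab : b ^ 2 = (l * x) ^ 3 + l ^ 3 * D') : ¬ l ∣ x ∧ l ^ 2 ∣ b := by
  obtain ⟨b₁, rfl⟩ : l ∣ b := hp.dvd_of_dvd_pow (n := 2) ⟨l ^ 2 * (x ^ 3 + D'), by linear_combination hab⟩
  have h1 : b₁ ^ 2 = l * (x ^ 3 + D') :=
    mul_left_cancel₀ (pow_ne_zero 2 hp.ne_zero) (by linear_combination hab)
  obtain ⟨b₂, rfl⟩ : l ∣ b₁ := hp.dvd_of_dvd_pow (n := 2) ⟨x ^ 3 + D', h1⟩
  have h2 : l * b₂ ^ 2 = x ^ 3 + D' := mul_left_cancel₀ hp.ne_zero (by linear_combination h1)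
  refine ⟨?_, ⟨b₂, by ring⟩⟩
  rintro ⟨x', rfl⟩
  exact hD ⟨b₂ ^ 2 - l ^ 2 * x' ^ 3, by linear_combination -h2⟩

/-- descent for exponent `4` -/
theorem STd_four {R : Type} [CommRing R] [IsDomain R] {l D' : R} (hp : Prime l) {a b : R}
    (hab : b ^ 2 = a ^ 3 + l ^ 4 * D') (ha : l ∣ a) : ∃ x y : R, y ^ 2 = l ^ 2 * x ^ 3 + D' := by
  obtain ⟨a₁, rfl⟩ := ha
  obtain ⟨b₁, rfl⟩ : l ∣ b := hp.dvd_of_dvd_pow (n := 2) ⟨l ^ 2 * a₁ ^ 3 + l ^ 3 * D', by linear_combination hab⟩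
  have h1 : b₁ ^ 2 = l * a₁ ^ 3 + l ^ 2 * D' :=
    mul_left_cancel₀ (pow_ne_zero 2 hp.ne_zero) (by linear_combination hab)
  obtain ⟨b₂, rfl⟩ : l ∣ b₁ := hp.dvd_of_dvd_pow (n := 2) ⟨a₁ ^ 3 + l * D', by linear_combination h1⟩
  have h2 : l * b₂ ^ 2 = a₁ ^ 3 + l * D' := mul_left_cancel₀ hp.ne_zero (by linear_combination h1)
  obtain ⟨a₂, rfl⟩ : l ∣ a₁ := hp.dvd_of_dvd_pow (n := 3) ⟨b₂ ^ 2 - D', by linear_combination -h2⟩
  exact ⟨a₂, b₂, mul_left_cancel₀ hp.ne_zero (by linear_combination h2)⟩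

/-- descent for exponent `5` -/
theorem STd_five {R : Type} [CommRing R] [IsDomain R] {l D' : R} (hp : Prime l) (hD : ¬ l ∣ D') {a b : R}
    (hab : b ^ 2 = a ^ 3 + l ^ 5 * D') : ¬ l ∣ a := by
  intro ha
  obtain ⟨x, y, h⟩ := STd_four (D' := l * D') (b := b) hp (by linear_combination hab) ha
  obtain ⟨z, rfl⟩ : l ∣ y := hp.dvd_of_dvd_pow (n := 2) ⟨l * x ^ 3 + D', by linear_combination h⟩
  exact hD ⟨z ^ 2 - x ^ 3, mul_left_cancel₀ hp.ne_zero (by linear_combination -h)⟩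

/-- [STd] -/
theorem tam_two' [Finite (IsLocalRing.ResidueField A)] (h2 : Irreducible (2 : A)) (D' : A) (hD : IsUnit D') (k : ℕ) (hk : k ≤ 5)
    (h4 : k = 4 → ∀ x : A, ¬ (4 : A) ∣ D' - x ^ 2) (h8 : k = 0 ∨ k = 2 → ∀ x : A, ¬ (8 : A) ∣ D' - x ^ 2) :
    SBSD.tamagawa A (ED (algebraMap A K (2 ^ k * D'))) ≠ 0 ∧ ¬ 3 ∣ SBSD.tamagawa A (ED (algebraMap A K (2 ^ k * D'))) := by
  have hp : Prime (2 : A) := h2.prime
  have hD2 : ¬ (2 : A) ∣ D' := fun h => h2.not_isUnit (isUnit_of_dvd_unit h hD)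
  have h3 : IsUnit (3 : A) := by
    by_contra h
    have h1 : (3 : A) ∈ IsLocalRing.maximalIdeal A := (IsLocalRing.mem_maximalIdeal _).2 h
    have h2' : (2 : A) ∈ IsLocalRing.maximalIdeal A := (IsLocalRing.mem_maximalIdeal _).2 h2.not_isUnit
    have h3 : (1 : A) ∈ IsLocalRing.maximalIdeal A := by
      have h4 := Ideal.sub_mem _ h1 h2'
      rwa [show (3 : A) - 2 = 1 by norm_num] at h4
    exact (IsLocalRing.mem_maximalIdeal _).1 h3 isUnit_one
  have hu := unit_two' (K := K) h2 D' hD k hk h4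
  have one : ∀ n : ℕ, n = 1 → n ≠ 0 ∧ ¬ 3 ∣ n := by
    rintro n rfl
    exact ⟨one_ne_zero, by norm_num⟩
  have hun : ∀ x : A, ¬ (2 : A) ∣ x → IsUnit x := by
    intro x hx
    by_contra hxu
    have h1 : x ∈ IsLocalRing.maximalIdeal A := (IsLocalRing.mem_maximalIdeal _).2 hxu
    rw [h2.maximalIdeal_eq, Ideal.mem_span_singleton] at h1
    exact hx h1
  obtain rfl | rfl | rfl | rfl | rfl | rfl : k = 0 ∨ k = 1 ∨ k = 2 ∨ k = 3 ∨ k = 4 ∨ k = 5 := by omega
  · apply one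
    refine tamX A K h3 2 h2 _ hu ?_
    rintro a b hab ⟨a', rfl⟩
    exact h8 (Or.inl rfl) b ⟨-a' ^ 3, by linear_combination -hab⟩
  · apply one
    refine tamX A K h3 2 h2 _ hu ?_
    rintro a b hab ⟨a', rfl⟩
    obtain ⟨b', rfl⟩ : (2 : A) ∣ b := hp.dvd_of_dvd_pow (n := 2) ⟨4 * a' ^ 3 + D', by linear_combination hab⟩
    exact hD2 ⟨b' ^ 2 - 2 * a' ^ 3, mul_left_cancel₀ hp.ne_zero (by linear_combination -hab)⟩
  · have key : ∀ x b : A, b ^ 2 = (2 * x) ^ 3 + 2 ^ 2 * D' → ∃ y : A, b = 2 * y ∧ y ^ 2 = 2 * x ^ 3 + D' := by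
      intro x b hab
      obtain ⟨y, rfl⟩ : (2 : A) ∣ b := hp.dvd_of_dvd_pow (n := 2) ⟨4 * x ^ 3 + 2 * D', by linear_combination hab⟩
      exact ⟨y, rfl, mul_left_cancel₀ (pow_ne_zero 2 hp.ne_zero) (by linear_combination hab)⟩
    refine tamI A K h3 2 h2 _ hu ?_ ?_
    · rintro a b hab ⟨x, rfl⟩
      obtain ⟨y, -, hy⟩ := key x b hab
      refine ⟨x, hun x ?_, rfl⟩
      rintro ⟨x', rfl⟩
      exact h8 (Or.inr rfl) y ⟨-2 * x' ^ 3, by linear_combination -hy⟩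
    · intro a b a' b' x x' hab hab' ha ha' hxx
      subst ha ha'
      obtain ⟨y, rfl, hy⟩ := key x b hab
      obtain ⟨y', rfl, hy'⟩ := key x' b' hab'
      obtain ⟨c, hc⟩ : (2 : A) ∣ y + y' := hp.dvd_of_dvd_pow (n := 2)
        ⟨x ^ 3 - x' ^ 3 + y * y' + y' ^ 2, by linear_combination hy - hy'⟩
      exact ⟨c, by linear_combination 2 * hc⟩
  · refine tamI A K h3 2 h2 _ hu ?_ ?_
    · rintro a b hab ⟨x, rfl⟩
      exact ⟨x, hun x (STd_three hp hD2 hab).1, rfl⟩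
    · intro a b a' b' x x' hab hab' ha ha' hxx
      subst ha ha'
      exact dvd_add (STd_three hp hD2 hab).2 (STd_three hp hD2 hab').2
  · apply one
    refine tamX A K h3 2 h2 _ hu ?_
    intro a b hab ha
    obtain ⟨x, y, h⟩ := STd_four hp hab ha
    exact h4 rfl y ⟨-x ^ 3, by linear_combination -h⟩
  · apply one
    refine tamX A K h3 2 h2 _ hu ?_
    intro a b hab
    exact STd_five hp hD2 hab

/-- [STe] -/
theorem tam_la' {l ε : A} (hl : Irreducible l) (hε : IsUnit ε) (h3 : (3 : A) = ε * l ^ 2)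
    (hres : ∀ x : A, l ∣ x ∨ l ∣ x - 1 ∨ l ∣ x + 1) (D' : A) (hD : IsUnit D') (k : ℕ) (hk : k ≤ 5)
    (h0 : k = 0 → ∀ η : A, (η = 1 ∨ η = -1) → ¬ l ^ 3 ∣ D' - η - l ^ 2)
    (h24 : k = 2 ∨ k = 4 → l ∣ D' + 1)
    (h3a : k = 3 → ∀ η : A, (η = 1 ∨ η = -1) → ¬ l ^ 3 ∣ D' - η)
    (h3b : k = 3 → ∀ η : A, (η = 1 ∨ η = -1) → ¬ l ^ 2 ∣ D' - (η + l)) (hK : (6 : K) ≠ 0) :
    SBSD.tamagawa A (ED (algebraMap A K (l ^ k * D'))) ≠ 0 ∧ ¬ 3 ∣ SBSD.tamagawa A (ED (algebraMap A K (l ^ k * D'))) := by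
  have hp : Prime l := hl.prime
  have hDl : ¬ l ∣ D' := fun h => hl.not_isUnit (isUnit_of_dvd_unit h hD)
  have hl1 : ¬ l ∣ 1 := fun h => hl.not_isUnit (isUnit_of_dvd_one h)
  have hsq1 : ∀ b : A, ¬ l ∣ b ^ 2 + 1 := by
    intro b hb
    rcases hres b with h | h | h
    · obtain ⟨c, hc⟩ := h
      obtain ⟨d, hd⟩ := hb
      exact hl1 ⟨d - c * b, by linear_combination hd - b * hc⟩
    · obtain ⟨c, hc⟩ := h
      obtain ⟨d, hd⟩ := hb
      exact hl1 ⟨ε * l - d + c * (b + 1), by linear_combination h3 - hd + (b + 1) * hc⟩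
    · obtain ⟨c, hc⟩ := h
      obtain ⟨d, hd⟩ := hb
      exact hl1 ⟨ε * l - d + c * (b - 1), by linear_combination h3 - hd + (b - 1) * hc⟩
  have one : ∀ n : ℕ, n = 1 → n ≠ 0 ∧ ¬ 3 ∣ n := by
    rintro n rfl
    exact ⟨one_ne_zero, by norm_num⟩
  have hu := unit_la' (K := K) hl hε h3 hres D' hD k hk h3a
  obtain rfl | rfl | rfl | rfl | rfl | rfl : k = 0 ∨ k = 1 ∨ k = 2 ∨ k = 3 ∨ k = 4 ∨ k = 5 := by omega
  · rw [pow_zero, one_mul]
    by_cases hη : ∃ η : A, (η = 1 ∨ η = -1) ∧ l ^ 2 ∣ D' - η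
    · obtain ⟨η, hη, hη2⟩ := hη
      exact JD.tamagawa_la K hl hε h3 hres hη hη2 (h0 rfl η hη) hK
    · apply one
      exact JXD.tamagawa_laX K hl hε h3 hres hD (fun η hη' h => hη ⟨η, hη', h⟩)
  · apply one
    refine tamY A K l ε hl h3 _ hu ?_
    rintro a b hab ⟨b', rfl⟩
    obtain ⟨a', rfl⟩ : l ∣ a := hp.dvd_of_dvd_pow (n := 3) ⟨l * b' ^ 2 - D', by linear_combination -hab⟩
    exact hDl ⟨b' ^ 2 - l * a' ^ 3, mul_left_cancel₀ hp.ne_zero (by linear_combination -hab)⟩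
  · apply one
    refine tamY A K l ε hl h3 _ hu ?_
    rintro a b hab ⟨b', rfl⟩
    obtain ⟨a', rfl⟩ : l ∣ a := hp.dvd_of_dvd_pow (n := 3) ⟨l * b' ^ 2 - l * D', by linear_combination -hab⟩
    have h1 : b' ^ 2 = l * a' ^ 3 + D' :=
      mul_left_cancel₀ (pow_ne_zero 2 hp.ne_zero) (by linear_combination hab)
    obtain ⟨c, hc⟩ := h24 (Or.inl rfl)
    exact hsq1 b' ⟨a' ^ 3 + c, by linear_combination h1 + hc⟩
  · apply one
    refine tamY A K l ε hl h3 _ hu ?_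
    rintro a b hab ⟨b', rfl⟩
    obtain ⟨a', rfl⟩ : l ∣ a := hp.dvd_of_dvd_pow (n := 3) ⟨l * b' ^ 2 - l ^ 2 * D', by linear_combination -hab⟩
    have h1 : b' ^ 2 = l * (a' ^ 3 + D') :=
      mul_left_cancel₀ (pow_ne_zero 2 hp.ne_zero) (by linear_combination hab)
    obtain ⟨c, rfl⟩ : l ∣ b' := hp.dvd_of_dvd_pow (n := 2) ⟨a' ^ 3 + D', h1⟩
    have h2 : l * c ^ 2 = a' ^ 3 + D' := mul_left_cancel₀ hp.ne_zero (by linear_combination h1)
    have key : ∀ s : A, (s = 1 ∨ s = -1) → ¬ l ∣ a' - s := by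
      rintro s hs ⟨m, hm⟩
      have hs2 : s ^ 2 = 1 := by
        rcases hs with rfl | rfl
        · ring
        · ring
      have hs' : -s = 1 ∨ -s = -1 := by
        rcases hs with rfl | rfl
        · exact Or.inr rfl
        · exact Or.inl (neg_neg 1)
      have hm' : a' = s + l * m := by linear_combination hm
      have h5 : D' + s = l * c ^ 2 - l ^ 3 * (ε * m + ε * s * l * m ^ 2 + m ^ 3) := by
        subst hm'
        linear_combination -h2 + (-s - 3 * l * m) * hs2 + (-l * m - s * l ^ 2 * m ^ 2) * h3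
      rcases hres c with h | h | h
      · obtain ⟨d, rfl⟩ := h
        exact h3a rfl (-s) hs' ⟨d ^ 2 - (ε * m + ε * s * l * m ^ 2 + m ^ 3), by linear_combination h5⟩
      · obtain ⟨d, hd⟩ := h
        have hd' : c = 1 + l * d := by linear_combination hd
        subst hd'
        exact h3b rfl (-s) hs' ⟨2 * d + l * d ^ 2 - l * (ε * m + ε * s * l * m ^ 2 + m ^ 3),
          by linear_combination h5⟩
      · obtain ⟨d, hd⟩ := h
        have hd' : c = -1 + l * d := by linear_combination hd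
        subst hd'
        exact h3b rfl (-s) hs' ⟨-2 * d + l * d ^ 2 - l * (ε * m + ε * s * l * m ^ 2 + m ^ 3),
          by linear_combination h5⟩
    rcases hres a' with h | h | h
    · obtain ⟨m, rfl⟩ := h
      exact hDl ⟨c ^ 2 - l ^ 2 * m ^ 3, by linear_combination -h2⟩
    · exact key 1 (Or.inl rfl) h
    · exact key (-1) (Or.inr rfl) (by rwa [sub_neg_eq_add])
  · apply one
    refine tamY A K l ε hl h3 _ hu ?_
    rintro a b hab ⟨b', rfl⟩
    have ha : l ∣ a := hp.dvd_of_dvd_pow (n := 3) ⟨l * b' ^ 2 - l ^ 3 * D', by linear_combination -hab⟩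
    obtain ⟨x, y, h⟩ := STd_four hp hab ha
    obtain ⟨c, hc⟩ := h24 (Or.inr rfl)
    exact hsq1 y ⟨l * x ^ 3 + c, by linear_combination h + hc⟩
  · apply one
    refine tamY A K l ε hl h3 _ hu ?_
    rintro a b hab ⟨b', rfl⟩
    have ha : l ∣ a := hp.dvd_of_dvd_pow (n := 3) ⟨l * b' ^ 2 - l ^ 4 * D', by linear_combination -hab⟩
    exact STd_five hp hDl hab ha

end

end JG
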