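import Pool.Agent.JG.Cls
import Pool.Agent.JG.ST
import Pool.Agent.JXD.S6

/-!
# [JG-SP] the places of `ℚ(ω)`: approximation, the conditions of `ClG` in the completions

PROOF. `lo v := CU.t5b_lo v : Eis → O_v`. `approxG` [SPa]: `n = 0` trivial. Reduction modulo the maximal ideal is surjective on `Eis`: as `JD.s5a_approx` (JD/S5.lean; `CMT.residue_completion`): `x = lo m + lo b * y`; induction on `n` (`y = lo m' + (lo b)^n z`). `dvd_powG` [SPa]: `←` clear. `→`: `D`-adic: if `b^n ∤ y`, `y ≠ 0`, write `y = b^j y'`, `¬ b ∣ y'`, `j < n` (or induction on `n`: if `(lo b)^(n+1) ∣ lo y` then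
`lo b ∣ lo y`, so `b ∣ y` (`CU.t5b_dvd`), `y = b y'`, cancel `lo b ≠ 0`). `not_sqG` [SPa]: if `(lo b)^n ∣ lo c - x²` take `m` for `x` and `n` (`approxG`): `(lo b)^n ∣ lo (c - m²)`, `dvd_powG`.
`exists_kc` [SPa]: `b^6 ∤ D`, so there is a largest `k ≤ 5` with `b^k ∣ D`: `D = b^k c`, `¬ b ∣ c` (`Nat.find` or six cases).
`places` [SPb]: `CU.gen_cases`: `v = (la)`, or `v = (b)`, `b` primary prime; `b ∤ 3` (`CU.primary_not_three`). If `b ∣ 2`: `b` and `2` are associated (see `JXD.place_cases`), `v = (2)`. Otherwise `b ∤ 6`. `exists_kc` for `2`, resp. `b`, resp. `la`.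
(1) `v = (la)`: `l = lo la`, `D' = lo c`; (2) `v = (2)`: `lo 2 = 2` (`map_ofNat`); (3): `l = lo b`. The units: `CU.t5b_unit`; irreducible: `CU.t5b_irr'`; `IsUnit 3`, `IsUnit 6` as in `JXD.place_cases`.
`cond_p` [SPb]: from `hD.odd`, `not_sqG` with `n = 1`. `cond_two` [SPb]: `8 = 2³`, `hD.two` (for `k = 0`: `c = D`, `¬ 2 ∣ D`; `k = 2`: `D = 2² c`), `not_sqG` with `n = 3`. `cond_two4` [SPb]: if `4 ∣ lo c - x²`, then (`n = 2`) `4 ∣ c - m²`, `c = m² + 4 c'`, `¬ 2 ∣ m`, `D = 16 (m² + 4 c')`: `Good2 D`.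
`cond_la` [SPb]: `η ∈ {1, -1}` in `O_v` comes from `Eis` (see `JXD.tam_la` in JXD/S5.lean), `dvd_powG`; (a) `hD.la0`; (b) `hD.la24`; (c) if `la³ ∣ c - η` then `GoodL D`; (d) `hD.la3`.
-/

set_option autoImplicit false

open NumberField IsDedekindDomain
open scoped Classical

namespace JG

open CM27 CF JZ
open JD (ED ED_map jK)
open CU (la om eE t5b_lo)

section
variable {v : HeightOneSpectrum (𝓞 KK)} {b : Eis}

theorem spa_approx (hb : Prime b) (hv : v.asIdeal = Ideal.span {eE b}) (x : v.adicCompletionIntegers KK) :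
    ∃ (m : Eis) (y : v.adicCompletionIntegers KK), x = t5b_lo v m + t5b_lo v b * y := by
  have hirr : Irreducible (t5b_lo v b) := CU.t5b_irr' hb hv
  obtain ⟨m, hm⟩ := (CMT.residue_completion KK v).1 (IsLocalRing.residue (v.adicCompletionIntegers KK) x)
  have h1 : IsLocalRing.residue (v.adicCompletionIntegers KK) (x - t5b_lo v (eE.symm m)) = 0 := by
    have h2 : t5b_lo v (eE.symm m) = algebraMap (𝓞 KK) (v.adicCompletionIntegers KK) m := by
      show algebraMap (𝓞 KK) (v.adicCompletionIntegers KK) (eE (eE.symm m)) = _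
      rw [eE.apply_symm_apply]
    rw [map_sub, h2, ← hm, RingHom.comp_apply, sub_self]
  rw [IsLocalRing.residue_eq_zero_iff,
    (IsDiscreteValuationRing.irreducible_iff_uniformizer _).1 hirr, Ideal.mem_span_singleton] at h1
  obtain ⟨y, hy⟩ := h1
  refine ⟨eE.symm m, y, ?_⟩
  linear_combination hy

/-- [SPa] -/
theorem approxG (hb : Prime b) (hv : v.asIdeal = Ideal.span {eE b}) (n : ℕ) (x : v.adicCompletionIntegers KK) :
    ∃ m : Eis, t5b_lo v b ^ n ∣ x - t5b_lo v m := by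
  induction n generalizing x with
  | zero => exact ⟨0, by rw [pow_zero]; exact one_dvd _⟩
  | succ n ih =>
    obtain ⟨m, y, hy⟩ := ih x
    obtain ⟨m', y', hy'⟩ := spa_approx hb hv y
    refine ⟨m + b ^ n * m', y', ?_⟩
    rw [map_add, map_mul, map_pow]
    rw [hy'] at hy
    linear_combination hy

/-- [SPa] -/
theorem dvd_powG (hb : Prime b) (hv : v.asIdeal = Ideal.span {eE b}) (n : ℕ) (y : Eis) :
    t5b_lo v b ^ n ∣ t5b_lo v y ↔ b ^ n ∣ y := by
  constructor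
  · intro h
    induction n generalizing y with
    | zero => rw [pow_zero]; exact one_dvd y
    | succ n ih =>
      have h1 : b ∣ y := by
        by_contra h2
        exact CU.t5b_dvd hb hv y h2 ((dvd_pow_self _ (Nat.succ_ne_zero n)).trans h)
      obtain ⟨y', rfl⟩ := h1
      rw [map_mul, pow_succ'] at h
      have h3 := (mul_dvd_mul_iff_left (CU.t5b_irr' hb hv).ne_zero).1 h
      rw [pow_succ']
      exact mul_dvd_mul_left b (ih y' h3)
  · rintro ⟨z, rfl⟩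
    rw [map_mul, map_pow]
    exact dvd_mul_right _ _

/-- [SPa] -/
theorem not_sqG' (hb : Prime b) (hv : v.asIdeal = Ideal.span {eE b}) (n : ℕ) (c : Eis) (x : v.adicCompletionIntegers KK)
    (h : t5b_lo v b ^ n ∣ t5b_lo v c - x ^ 2) : ∃ m : Eis, b ^ n ∣ c - m ^ 2 := by
  obtain ⟨m, hm⟩ := approxG hb hv n x
  refine ⟨m, (dvd_powG hb hv n (c - m ^ 2)).1 ?_⟩
  have h1 : t5b_lo v (c - m ^ 2) = (t5b_lo v c - x ^ 2) + (x - t5b_lo v m) * (x + t5b_lo v m) := by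
    rw [map_sub, map_pow]
    ring
  rw [h1]
  exact dvd_add h (hm.mul_right _)

end

/-- [SPa] -/
theorem exists_kc {D : Eis} (hD : ClG D) {b : Eis} (hb : Prime b) : ∃ (k : ℕ) (c : Eis), k ≤ 5 ∧ ¬ b ∣ c ∧ D = b ^ k * c := by
  classical
  have hex : ∃ n : ℕ, ¬ b ^ n ∣ D := ⟨6, hD.free b hb⟩
  have h6 : Nat.find hex ≤ 6 := Nat.find_min' hex (hD.free b hb)
  have h0 : Nat.find hex ≠ 0 := by
    intro h0
    have h1 := Nat.find_spec hex
    rw [h0, pow_zero] at h1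
    exact h1 (one_dvd D)
  have h1 : b ^ (Nat.find hex - 1) ∣ D := by
    by_contra h2
    have h3 := Nat.find_min' hex h2
    omega
  obtain ⟨c, hc⟩ := h1
  refine ⟨Nat.find hex - 1, c, by omega, ?_, hc⟩
  rintro ⟨c', rfl⟩
  apply Nat.find_spec hex
  refine ⟨c', ?_⟩
  have e : Nat.find hex = Nat.find hex - 1 + 1 := by omega
  rw [e, pow_succ, mul_assoc]
  exact hc

section
variable {D : Eis} (v : HeightOneSpectrum (𝓞 KK))

/-- [SPb] -/
theorem places (hD : ClG D) :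
    (v.asIdeal = Ideal.span {eE la} ∧ ∃ (k : ℕ) (c : Eis), k ≤ 5 ∧ ¬ la ∣ c ∧ D = la ^ k * c) ∨
    (v.asIdeal = Ideal.span {eE (2 : Eis)} ∧ IsUnit (3 : v.adicCompletionIntegers KK) ∧ Irreducible (2 : v.adicCompletionIntegers KK) ∧
      ∃ (k : ℕ) (c : Eis), k ≤ 5 ∧ ¬ (2 : Eis) ∣ c ∧ D = 2 ^ k * c) ∨
    (∃ b : Eis, Prime b ∧ Primary b ∧ v.asIdeal = Ideal.span {eE b} ∧ ¬ b ∣ 6 ∧ IsUnit (6 : v.adicCompletionIntegers KK) ∧
      ∃ (k : ℕ) (c : Eis), k ≤ 5 ∧ ¬ b ∣ c ∧ D = b ^ k * c) := by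
  have hdom : IsDomain Eis := eis_isDomain
  rcases CU.gen_cases (v := v) with hv | ⟨b, hb, hp, hv⟩
  · left
    exact ⟨hv, exists_kc hD CU.la_prime⟩
  right
  have hb3 : ¬ b ∣ 3 := CU.primary_not_three hp hb
  by_cases hb2 : b ∣ 2
  · left
    have hass : Associated b 2 := hb.irreducible.associated_of_dvd TH.b4_two_prime.irreducible hb2
    have hv2 : v.asIdeal = Ideal.span {eE (2 : Eis)} := by
      rw [hv]
      exact CU.s1_span hass
    have u3 : IsUnit (3 : v.adicCompletionIntegers KK) := by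
      have h1 := CU.t5b_unit hv 3 hb3
      rwa [map_ofNat] at h1
    refine ⟨hv2, u3, ?_, exists_kc hD TH.b4_two_prime⟩
    have h1 := CU.t5b_irr' TH.b4_two_prime hv2
    rwa [map_ofNat] at h1
  · right
    have h6 : ¬ b ∣ 6 := by
      intro h3
      have h4 : (6 : Eis) = 2 * 3 := by norm_num
      rw [h4] at h3
      exact (hb.dvd_or_dvd h3).elim hb2 hb3
    refine ⟨b, hb, hp, hv, h6, ?_, exists_kc hD hb⟩
    have h1 := CU.t5b_unit hv 6 h6
    rwa [map_ofNat] at h1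

/-- [SPb] -/
theorem cond_p (hD : ClG D) {b : Eis} (hb : Prime b) (hv : v.asIdeal = Ideal.span {eE b}) (h6 : ¬ b ∣ 6) {k : ℕ} {c : Eis}
    (hc : ¬ b ∣ c) (he : D = b ^ k * c) (hk : k = 2 ∨ k = 4) (x : v.adicCompletionIntegers KK) :
    ¬ t5b_lo v b ∣ t5b_lo v c - x ^ 2 := by
  intro h
  rw [← pow_one (t5b_lo v b)] at h
  obtain ⟨m, hm⟩ := not_sqG' hb hv 1 c x h
  rw [pow_one] at hm
  refine hD.odd b c hb h6 hc ?_ m hm
  rcases hk with rfl | rfl
  · exact Or.inl he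
  · exact Or.inr he

/-- [SPb] -/
theorem cond_two (hD : ClG D) (hv : v.asIdeal = Ideal.span {eE (2 : Eis)}) {k : ℕ} {c : Eis}
    (hc : ¬ (2 : Eis) ∣ c) (he : D = 2 ^ k * c) (hk : k = 0 ∨ k = 2) (x : v.adicCompletionIntegers KK) :
    ¬ (8 : v.adicCompletionIntegers KK) ∣ t5b_lo v c - x ^ 2 := by
  intro h
  have h2 : t5b_lo v (2 : Eis) ^ 3 = (8 : v.adicCompletionIntegers KK) := by
    rw [map_ofNat]
    norm_num
  rw [← h2] at h
  obtain ⟨m, hm⟩ := not_sqG' TH.b4_two_prime hv 3 c x h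
  have h8 : (2 : Eis) ^ 3 = 8 := by norm_num
  rw [h8] at hm
  refine hD.two c hc ?_ m hm
  rcases hk with rfl | rfl
  · left
    rw [he, pow_zero, one_mul]
  · exact Or.inr he

/-- [SPb] -/
theorem cond_two4 (hv : v.asIdeal = Ideal.span {eE (2 : Eis)}) (hG : ¬ Good2 D) {c : Eis}
    (hc : ¬ (2 : Eis) ∣ c) (he : D = 2 ^ 4 * c) (x : v.adicCompletionIntegers KK) :
    ¬ (4 : v.adicCompletionIntegers KK) ∣ t5b_lo v c - x ^ 2 := by
  intro h
  have h2 : t5b_lo v (2 : Eis) ^ 2 = (4 : v.adicCompletionIntegers KK) := by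
    rw [map_ofNat]
    norm_num
  rw [← h2] at h
  obtain ⟨m, c', hc'⟩ := not_sqG' TH.b4_two_prime hv 2 c x h
  have h4 : c = m ^ 2 + 4 * c' := by linear_combination hc'
  refine hG ⟨m, c', ?_, ?_⟩
  · rintro ⟨m', rfl⟩
    apply hc
    rw [h4]
    exact ⟨2 * m' ^ 2 + 2 * c', by ring⟩
  · rw [he, h4]
    ring

/-- [SPb] -/
theorem cond_la (hD : ClG D) (hv : v.asIdeal = Ideal.span {eE la}) {k : ℕ} {c : Eis} (hc : ¬ la ∣ c) (he : D = la ^ k * c) :
    (k = 0 → ∀ η : v.adicCompletionIntegers KK, (η = 1 ∨ η = -1) → ¬ t5b_lo v la ^ 3 ∣ t5b_lo v c - η - t5b_lo v la ^ 2) ∧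
    (k = 2 ∨ k = 4 → t5b_lo v la ∣ t5b_lo v c + 1) ∧
    (¬ GoodL D → k = 3 → ∀ η : v.adicCompletionIntegers KK, (η = 1 ∨ η = -1) → ¬ t5b_lo v la ^ 3 ∣ t5b_lo v c - η) ∧
    (k = 3 → ∀ η : v.adicCompletionIntegers KK, (η = 1 ∨ η = -1) → ¬ t5b_lo v la ^ 2 ∣ t5b_lo v c - (η + t5b_lo v la)) := by
  have hη : ∀ η' : v.adicCompletionIntegers KK, (η' = 1 ∨ η' = -1) →
      ∃ η : Eis, (η = 1 ∨ η = -1) ∧ η' = t5b_lo v η := by
    intro η' hη'
    rcases hη' with rfl | rfl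
    · exact ⟨1, Or.inl rfl, (map_one _).symm⟩
    · exact ⟨-1, Or.inr rfl, by rw [map_neg, map_one]⟩
  refine ⟨?_, ?_, ?_, ?_⟩
  · rintro rfl η' hη' h
    obtain ⟨η, hη1, rfl⟩ := hη η' hη'
    rw [pow_zero, one_mul] at he
    rw [← map_pow (t5b_lo v) la 2, ← map_sub, ← map_sub] at h
    have h1 := (dvd_powG CU.la_prime hv 3 (c - η - la ^ 2)).1 h
    rw [← he] at h1 hc
    exact hD.la0 hc η hη1 h1
  · intro hk
    have h1 : la ∣ c + 1 := by
      refine hD.la24 c hc ?_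
      rcases hk with rfl | rfl
      · exact Or.inl he
      · exact Or.inr he
    have h2 := map_dvd (t5b_lo v) h1
    rwa [map_add, map_one] at h2
  · rintro hG rfl η' hη' h
    obtain ⟨η, hη1, rfl⟩ := hη η' hη'
    rw [← map_sub] at h
    obtain ⟨c', hc'⟩ := (dvd_powG CU.la_prime hv 3 (c - η)).1 h
    refine hG ⟨η, c', hη1, ?_⟩
    rw [he]
    linear_combination la ^ 3 * hc'
  · rintro rfl η' hη' h
    obtain ⟨η, hη1, rfl⟩ := hη η' hη'
    rw [← map_add, ← map_sub] at h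
    have h1 := (dvd_powG CU.la_prime hv 2 (c - (η + la))).1 h
    exact hD.la3 c hc he η hη1 h1

end

end JG
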