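import Pool.Agent.JXD.Z1
import Pool.Agent.JXD.T1
import Pool.Agent.JXD.E10
import Pool.Agent.JD.T4

/-!
# [JG] descent by `λ = 1 - ω` on `y² = x³ + D` over `K = ℚ(ω)` for general `D`: definitions

`F = K(√D)` is an abstract number field with an algebra structure over `KK`, `r² = D`, `τ` the conjugation (`JD.Quad D r τ`).
`D` is an arbitrary nonzero element of `ℤ[ω]`. The condition on the class of an element at `λ` is an abstract predicate `P` (structure `LC`),
which is determined in the files `K..` for the different valuations of `D` at `λ`.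
-/

set_option autoImplicit false

open NumberField IsDedekindDomain
open scoped Classical

namespace JG

open CM27 CF JZ JX JXD
open JD hiding G5b_unit G5b_val LCW_ED below_val descent det_unit disc_eq eis_cube entire_ED exists_H exists_basis exists_cj exists_den exists_int exists_kappa exists_ov exists_phiE exists_quad exists_u0 final_of finite_of_phiE finprod_neron finprod_tam finrank_KD fix_int fix_of_two g4a_exp g4a_le g4a_norm g4a_one g4a_split g4b_place g5a_norm g5a_tau g5a_three g5a_unit int_KK int_jF int_r jr_inj kk_cube m1_cube min_all n5_gen ne_of_cl not_three ov_D ov_eight ov_mem ov_trans ov_val period_ED place_cases q3a_dvd_lt q3a_la_sq q3a_le q3a_sq_lt q3b_ext q3b_int q3b_le q3b_neg q3b_pos q3b_pos_iff q3b_sq q3b_tau q3b_three q4b_crt q5_coe q5_den quot_all quot_eq s5b_not_la sha_zero step tam_la tam_one tau_jF val_prime z1_norm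
open CU (la om eE)

/-- At the places where `D` is a square `s²`, the valuation of `2 s` is divisible by `3`. -/
def ClV (D : Eis) : Prop :=
  ∀ (v : HeightOneSpectrum (𝓞 KK)) (s : v.adicCompletion KK), s ^ 2 = algebraMap KK (v.adicCompletion KK) (jK D) →
    ∃ g : WithZero (Multiplicative ℤ), Valued.v (2 * s) = g ^ 3

/-- The properties of the condition `P` on the classes of elements of norm `1` at `λ`. -/
structure LC {F : Type} [Field F] [NumberField F] [Algebra KK F] (τ : F ≃ₐ[KK] F) (P : F → Prop) : Prop where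
  mul : ∀ a b : F, N1 τ a → N1 τ b → P a → P b → P (a * b)
  inv : ∀ a : F, N1 τ a → P a → P a⁻¹
  cube : ∀ a : F, N1 τ a → P (a ^ 3)
  one : ∀ a : F, a ^ 8 = 1 → P a
  adjust : ∀ a b : F, N1 τ a → N1 τ b → ¬ P b → ∃ j : ℕ, P (a * b ^ j)

/-- The elements `a` with `a ā = 1` whose divisor is a cube, units over `λ`, with the condition `P`. -/
def LamP {F : Type} [Field F] [NumberField F] [Algebra KK F] (τ : F ≃ₐ[KK] F) (P : F → Prop) (a : F) : Prop :=
  a * τ a = 1 ∧
  (∀ w : HeightOneSpectrum (𝓞 F), ∃ g : WithZero (Multiplicative ℤ), w.valuation F a = g ^ 3) ∧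
  (∀ w : HeightOneSpectrum (𝓞 F), OvLa w → w.valuation F a = 1) ∧ P a

/-- All elements of `LamP` are cubes. -/
def NoBadP {F : Type} [Field F] [NumberField F] [Algebra KK F] (τ : F ≃ₐ[KK] F) (P : F → Prop) : Prop :=
  ∀ a : F, LamP τ P a → ∃ c : F, c ^ 3 = a

/-- The class of a local point at `λ` satisfies `P`. -/
def Dir {F : Type} [Field F] [NumberField F] [Algebra KK F] (D : Eis) (r : F) (τ : F ≃ₐ[KK] F) (P : F → Prop) : Prop :=
  ∀ b : F, b ≠ 0 → (∃ t : F, b * τ b = t ^ 3) → ∀ w : HeightOneSpectrum (𝓞 F), OvLa w → LocK D r b w →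
    ∀ a k : F, N1 τ a → a = b ^ 2 * k ^ 3 → P a

/-- An element of norm `1` which satisfies `P` comes from a local point at `λ`. -/
def Conv {F : Type} [Field F] [NumberField F] [Algebra KK F] (D : Eis) (r : F) (τ : F ≃ₐ[KK] F) (P : F → Prop) : Prop :=
  ∀ (a : F) (u y : KK), N1 τ a → P a → a = algebraMap KK F u + algebraMap KK F y * r →
    ∀ v : HeightOneSpectrum (𝓞 KK), v.asIdeal = Ideal.span {eE la} →
      ∀ (M : Type) [Field M] [Algebra (v.adicCompletion KK) M] (ρ : M),
        ρ ^ 2 = algebraMap (v.adicCompletion KK) M (algebraMap KK (v.adicCompletion KK) (jK D)) →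
        LocSol (algebraMap KK (v.adicCompletion KK) (jK D)) ρ
          (algebraMap (v.adicCompletion KK) M (algebraMap KK (v.adicCompletion KK) u) +
            algebraMap (v.adicCompletion KK) M (algebraMap KK (v.adicCompletion KK) y) * ρ)

end JG
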