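import Pool.Agent.JG.LVal
import Pool.Agent.JG.Defs

/-!
# [JG-Cls] the class of the `D`: sixth-power-free, not a square, with Tamagawa numbers prime to `3`
-/

set_option autoImplicit false

open NumberField IsDedekindDomain
open scoped Classical

namespace JG

open CM27 CF JZ
open CU (la eE)

/-- Sixth-power-free, not a square, and the conditions which mean that `3` does not divide the Tamagawa numbers. -/
structure ClG (D : Eis) : Prop where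
  free : ∀ p : Eis, Prime p → ¬ p ^ 6 ∣ D
  nsq : ¬ ∃ x : Eis, x ^ 2 = D
  odd : ∀ p c : Eis, Prime p → ¬ p ∣ 6 → ¬ p ∣ c → (D = p ^ 2 * c ∨ D = p ^ 4 * c) → ∀ x : Eis, ¬ p ∣ c - x ^ 2
  two : ∀ c : Eis, ¬ (2 : Eis) ∣ c → (D = c ∨ D = 2 ^ 2 * c) → ∀ x : Eis, ¬ (8 : Eis) ∣ c - x ^ 2
  la0 : ¬ la ∣ D → ∀ η : Eis, (η = 1 ∨ η = -1) → ¬ la ^ 3 ∣ D - η - la ^ 2
  la24 : ∀ c : Eis, ¬ la ∣ c → (D = la ^ 2 * c ∨ D = la ^ 4 * c) → la ∣ c + 1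
  la3 : ∀ c : Eis, ¬ la ∣ c → D = la ^ 3 * c → ∀ η : Eis, (η = 1 ∨ η = -1) → ¬ la ^ 2 ∣ c - (η + la)

end JG
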