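import Pool.Agent.JD.S5

/-!
# [JG-SJ] every elliptic curve over `ℚ(ω)` with `j = 0` is isomorphic to `y² = x³ + D` with `D ∈ ℤ[ω]` sixth-power-free

PROOF. `exists_free` [SJa]: induction on the norm of `x ≠ 0` (`x.norm.natAbs`; the norm is multiplicative and the norm of a prime is at least `2`): if `p^6 ∣ x` for a prime `p`, `x = p^6 x'`, take `e', D` for `x'`, `e = p e'`.
`exists_delta` [SJa]: characteristic `0`: `s = -a₁/2`, `r = -(a₂ - s a₁ - s²)/3`, `t = -(a₃ + r a₁)/2`, `u = 1` (`WeierstrassCurve.variableChange_a₁`, …): `C • W` has `a₁ = a₂ = a₃ = 0`, and `c₄ (C • W) = -48 a₄ = 0`, so `a₄ = 0`: `C • W = ED δ`.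
`exists_D` [SJa]: `exists_delta`, `δ ≠ 0` (`Δ ≠ 0`), `δ = jK x / jK y` (`KK` is the field of fractions of its ring of integers, `eE` is an isomorphism `Eis ≃ 𝓞 KK`; `IsFractionRing.div_surjective`), `δ = jK (x y^5) / jK y ^ 6`; `x y^5 = e^6 D` (`exists_free`), `δ = (jK e / jK y)^6 jK D`. The change of variables `⟨u, 0, 0, 0⟩` maps `ED (u^6 d)` to `ED d`.
-/

set_option autoImplicit false

open NumberField IsDedekindDomain
open scoped Classical

namespace JG

open CM27 CF JZ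
open JD (ED ED_map ED_Δ ED_c₄ ED_equation jK)
open CU (eE)

/-- [SJa] -/
theorem exists_free {x : Eis} (hx : x ≠ 0) : ∃ e D : Eis, e ≠ 0 ∧ x = e ^ 6 * D ∧ ∀ p : Eis, Prime p → ¬ p ^ 6 ∣ D := by
  have hdom : IsDomain Eis := emb_injective.isDomain emb
  have hpid : IsPrincipalIdealRing Eis := eis_pid
  have hwf : WellFounded (DvdNotUnit (α := Eis)) := wellFounded_dvdNotUnit
  revert hx
  refine hwf.induction (C := fun x : Eis => x ≠ 0 → ∃ e D : Eis, e ≠ 0 ∧ x = e ^ 6 * D ∧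
    ∀ p : Eis, Prime p → ¬ p ^ 6 ∣ D) x ?_
  intro x ih hx
  by_cases hex : ∃ p : Eis, Prime p ∧ p ^ 6 ∣ x
  · obtain ⟨p, hp, x', hx'⟩ := hex
    have hx0 : x' ≠ 0 := by
      intro h0
      exact hx (by rw [hx', h0, mul_zero])
    have hnu : ¬ IsUnit (p ^ 6) := fun hu => hp.not_unit ((isUnit_pow_iff (by norm_num)).1 hu)
    obtain ⟨e, D, he, hD, hfree⟩ := ih x' ⟨hx0, p ^ 6, hnu, by rw [hx', mul_comm]⟩ hx0
    refine ⟨p * e, D, mul_ne_zero hp.ne_zero he, ?_, hfree⟩
    rw [hx', hD]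
    ring
  · exact ⟨1, x, one_ne_zero, by ring, fun p hp hd => hex ⟨p, hp, hd⟩⟩

/-- [SJa] -/
theorem exists_delta {K : Type} [Field K] [CharZero K] (W : WeierstrassCurve K) (h4 : W.c₄ = 0) :
    ∃ (δ : K) (C : WeierstrassCurve.VariableChange K), C • W = ED δ := by
  have h2 : (2 : K) ≠ 0 := two_ne_zero
  have h3 : (3 : K) ≠ 0 := three_ne_zero
  have h48 : (48 : K) ≠ 0 := by norm_num
  set C : WeierstrassCurve.VariableChange K :=
    ⟨1, -(W.a₂ - (-W.a₁ / 2) * W.a₁ - (-W.a₁ / 2) ^ 2) / 3, -W.a₁ / 2,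
      -(W.a₃ + (-(W.a₂ - (-W.a₁ / 2) * W.a₁ - (-W.a₁ / 2) ^ 2) / 3) * W.a₁) / 2⟩ with hC
  have e1 : (C • W).a₁ = 0 := by
    rw [WeierstrassCurve.variableChange_a₁, hC]
    field_simp
    ring
  have e2 : (C • W).a₂ = 0 := by
    rw [WeierstrassCurve.variableChange_a₂, hC]
    field_simp
    ring
  have e3 : (C • W).a₃ = 0 := by
    rw [WeierstrassCurve.variableChange_a₃, hC]
    field_simp
    ring
  have e4 : (C • W).a₄ = 0 := by
    have h5 : (C • W).c₄ = 0 := by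
      rw [WeierstrassCurve.variableChange_c₄, h4, mul_zero]
    have h6 : (C • W).c₄ = -48 * (C • W).a₄ := by
      rw [WeierstrassCurve.c₄, WeierstrassCurve.b₂, WeierstrassCurve.b₄, e1, e2, e3]
      ring
    rw [h5] at h6
    have h7 : (48 : K) * (C • W).a₄ = 0 := by linear_combination h6
    rcases mul_eq_zero.1 h7 with h8 | h8
    · exact absurd h8 h48
    · exact h8
  refine ⟨(C • W).a₆, C, ?_⟩
  unfold ED
  ext
  · exact e1
  · exact e2
  · exact e3
  · exact e4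
  · rfl

/-- [SJa] -/
theorem exists_D (W : WeierstrassCurve KK) (hΔ : W.Δ ≠ 0) (h4 : W.c₄ = 0) :
    ∃ (D : Eis) (C : WeierstrassCurve.VariableChange KK), (∀ p : Eis, Prime p → ¬ p ^ 6 ∣ D) ∧ W = C • ED (jK D) := by
  obtain ⟨δ, C, hC⟩ := exists_delta W h4
  have hδ : δ ≠ 0 := by
    intro h0
    have h1 : (C • W).Δ = 0 := by
      rw [hC, h0, ED_Δ]
      ring
    rw [WeierstrassCurve.variableChange_Δ] at h1
    rcases mul_eq_zero.1 h1 with h2 | h2
    · exact absurd h2 (by simp)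
    · exact hΔ h2
  obtain ⟨x', y', hy', hxy⟩ := IsFractionRing.div_surjective (A := 𝓞 KK) δ
  obtain ⟨x, rfl⟩ := eE.surjective x'
  obtain ⟨y, rfl⟩ := eE.surjective y'
  have hxy' : jK x / jK y = δ := hxy
  have hx : jK x ≠ 0 := by
    intro h0
    rw [h0, zero_div] at hxy'
    exact hδ hxy'.symm
  have hy : jK y ≠ 0 := by
    intro h0
    rw [h0, div_zero] at hxy'
    exact hδ hxy'.symm
  have hdom : IsDomain Eis := emb_injective.isDomain emb
  have hx0 : x ≠ 0 := by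
    intro h0
    exact hx (by rw [h0, map_zero])
  have hy0 : y ≠ 0 := by
    intro h0
    exact hy (by rw [h0, map_zero])
  obtain ⟨e, D, he, hD, hfree⟩ := exists_free (mul_ne_zero hx0 (pow_ne_zero 5 hy0))
  have he' : jK e ≠ 0 := by
    intro h0
    exact he (JD.jK_inj (by rw [h0, map_zero]))
  set u : KK := jK e / jK y with hu
  have hu0 : u ≠ 0 := div_ne_zero he' hy
  have h1 : δ = u ^ 6 * jK D := by
    have h2 := congrArg jK hD
    rw [map_mul, map_pow, map_mul, map_pow] at h2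
    rw [← hxy', hu, div_pow, div_mul_eq_mul_div, div_eq_div_iff hy (pow_ne_zero 6 hy)]
    linear_combination (jK y) * h2
  set C' : WeierstrassCurve.VariableChange KK := ⟨Units.mk0 u hu0, 0, 0, 0⟩ with hC'
  have h2 : C' • ED δ = ED (jK D) := by
    unfold ED
    refine WeierstrassCurve.ext ?_ ?_ ?_ ?_ ?_
    · rw [WeierstrassCurve.variableChange_a₁]
      simp [hC']
    · rw [WeierstrassCurve.variableChange_a₂]
      simp [hC']
    · rw [WeierstrassCurve.variableChange_a₃]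
      simp [hC']
    · rw [WeierstrassCurve.variableChange_a₄]
      simp [hC']
    · rw [WeierstrassCurve.variableChange_a₆]
      simp only [hC', h1]
      have h3 : ((Units.mk0 u hu0)⁻¹ : KKˣ).val = u⁻¹ := by simp
      rw [h3, inv_pow]
      have h4 : u ^ 6 ≠ 0 := pow_ne_zero 6 hu0
      have h5 : ∀ a b : KK, a ≠ 0 → a⁻¹ * (a * b) = b := fun a b ha => inv_mul_cancel_left₀ ha b
      have h6 := h5 (u ^ 6) (jK D) h4
      simpa using h6
  refine ⟨D, C⁻¹ * C'⁻¹, hfree, ?_⟩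
  rw [mul_smul, ← h2, inv_smul_smul, ← hC, inv_smul_smul]

end JG
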