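import Pool.Agent.JG.H1
import Pool.Agent.JD.M1

/-!
# [JG-M1] every point of `E_D(K)` is in the image of `phiE`
-/

set_option autoImplicit false

open NumberField IsDedekindDomain
open scoped Classical

namespace JG

open CM27 CF JZ JX JXD
open JD hiding G5b_unit G5b_val LCW_ED below_val descent det_unit disc_eq eis_cube entire_ED exists_H exists_basis exists_cj exists_den exists_int exists_kappa exists_ov exists_phiE exists_quad exists_u0 final_of finite_of_phiE finprod_neron finprod_tam finrank_KD fix_int fix_of_two g4a_exp g4a_le g4a_norm g4a_one g4a_split g4b_place g5a_norm g5a_tau g5a_three g5a_unit int_KK int_jF int_r jr_inj kk_cube m1_cube min_all n5_gen ne_of_cl not_three ov_D ov_eight ov_mem ov_trans ov_val period_ED place_cases q3a_dvd_lt q3a_la_sq q3a_le q3a_sq_lt q3b_ext q3b_int q3b_le q3b_neg q3b_pos q3b_pos_iff q3b_sq q3b_tau q3b_three q4b_crt q5_coe q5_den quot_all quot_eq s5b_not_la sha_zero step tam_la tam_one tau_jF val_prime z1_norm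
open CU (la om eE)

section
variable {D : Eis} {F : Type} [Field F] [NumberField F] [Algebra KK F] {r : F} {τ : F ≃ₐ[KK] F} {P : F → Prop}

theorem not_sqG (hD : D ≠ 0) (hQ : Quad D r τ) (y : KK) : y ^ 2 ≠ jK D := by
  intro h
  have h1 : (algebraMap KK F y) ^ 2 = r ^ 2 := by rw [hQ.sq, jF_apply, ← map_pow, h]
  have h2 : τ r = r := by
    rcases sq_eq_sq_iff_eq_or_eq_neg.1 h1 with h3 | h3
    · rw [← h3, τ.commutes]
    · have h4 : r = algebraMap KK F (-y) := by rw [map_neg, h3, neg_neg]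
      rw [h4, τ.commutes]
  rw [hQ.tau] at h2
  have h3 : (2 : F) * r = 0 := by linear_combination -h2
  exact mul_ne_zero two_ne_zero (r_ne hD hQ) h3

theorem m1_cube (hD : D ≠ 0) (hV : ClV D) (hQ : Quad D r τ) (hdir : Dir D r τ P) (hN : NoBadP τ P) {x y : KK} (heq : y ^ 2 = x ^ 3 + jK D) :
    algebraMap KK F y - r ≠ 0 ∧ ∃ c : F, c ^ 3 = algebraMap KK F y - r := by
  have hb0 : algebraMap KK F y - r ≠ 0 := by
    intro h0
    have h1 : algebraMap KK F y = r := sub_eq_zero.1 h0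
    have h2 : algebraMap KK F (y ^ 2) = algebraMap KK F (jK D) := by
      rw [map_pow, h1, hQ.sq, jF_apply]
    exact not_sqG hD hQ y ((algebraMap KK F).injective h2)
  have hbt : (algebraMap KK F y - r) * τ (algebraMap KK F y - r) = (algebraMap KK F x) ^ 3 := by
    rw [map_sub, τ.commutes, hQ.tau]
    have h2 : (algebraMap KK F y) ^ 2 = (algebraMap KK F x) ^ 3 + r ^ 2 := by
      rw [hQ.sq, jF_apply, ← map_pow, ← map_pow, ← map_add, heq]
    linear_combination h2
  have hloc : ∀ w, LocK D r (algebraMap KK F y - r) w := by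
    intro w
    obtain ⟨v, φ, hB⟩ := exists_Below w
    refine Or.inr (Or.inr ⟨v, φ, algebraMap KK _ x, algebraMap KK _ y, 1, hB, one_ne_zero, ?_, ?_, ?_⟩)
    · rw [← map_pow, ← map_pow, ← map_add, heq]
    · rw [hB.comm, ← map_sub]
      exact fun h0 => hb0 ((algebraMap F (w.adicCompletion F)).injective (h0.trans (map_zero _).symm))
    · rw [hB.comm, ← map_sub, one_pow, mul_one]
  exact ⟨hb0, cube_of_loc hD hV hQ hdir hN hb0 ⟨_, hbt⟩ hloc⟩

theorem exists_phiE (hD : D ≠ 0) (hV : ClV D) (hQ : Quad D r τ) (hdir : Dir D r τ P) (hN : NoBadP τ P) {o : KK} (ho : o ^ 2 + o + 1 = 0)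
    (R : (ED (jK D)).toAffine.Point) : ∃ Q, phiE ho Q = R := by
  have hD0 : D ≠ 0 := hD
  have hdK : jK D ≠ 0 := fun h0 => hD0 (jK_inj (h0.trans (map_zero jK).symm))
  rcases R with _ | ⟨x, y, hP⟩
  · exact ⟨0, phiE_zero ho⟩
  have heq : y ^ 2 = x ^ 3 + jK D := (ED_nonsingular two_ne_zero three_ne_zero hdK x y).1 hP
  obtain ⟨hb0, c, hc⟩ := m1_cube (F := F) hD hV hQ hdir hN heq
  have ho' : (algebraMap KK F o) ^ 2 + algebraMap KK F o + 1 = 0 := CUD.am_o ho
  obtain ⟨h1, e1⟩ : ∃ h', ptE (algebraMap KK F) rfl (.some x y hP : (ED (jK D)).toAffine.Point) =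
      .some (algebraMap KK F x) (algebraMap KK F y) h' := ⟨_, rfl⟩
  obtain ⟨Q2, hQ2⟩ := m1_F ho' (r_ne hD0 hQ) hQ.sq h1 hc hb0
  obtain ⟨R₀, hR1⟩ := m1_aux (τ : F →+* F) (fun z => tau_tau hD0 hQ z) (fun k => τ.commutes k) (τ.commutes (jK D)) ho
    ho' (fun R h => exists_ptE hD0 hQ R h) (.some x y hP) Q2 (hQ2.trans e1.symm)
  exact m1_end hdK ho hR1

end

end JG
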