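import Pool.Agent.JG.TG
import Pool.Agent.JG.SQ
import Pool.Agent.JG.M1
import Pool.Agent.JXD.T4

/-!
# [JG-ZG] the conjecture of Birch and Swinnerton-Dyer modulo `3` for the curves `y² = x³ + D` over `ℚ(ω)` with Tamagawa numbers prime to `3` and without rational point of order `3`, given the central values
-/

set_option autoImplicit false

open NumberField IsDedekindDomain
open scoped Classical ComplexConjugate

namespace JG

open CM27 NAB CF JZ JX JXD
open JD hiding G5b_unit G5b_val LCW_ED below_val descent det_unit disc_eq eis_cube entire_ED exists_H exists_basis exists_cj exists_den exists_int exists_kappa exists_ov exists_phiE exists_quad exists_u0 final_of finite_of_phiE finprod_neron finprod_tam finrank_KD fix_int fix_of_two g4a_exp g4a_le g4a_norm g4a_one g4a_split g4b_place g5a_norm g5a_tau g5a_three g5a_unit int_KK int_jF int_r jr_inj kk_cube m1_cube min_all n5_gen ne_of_cl not_three ov_D ov_eight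 ov_mem ov_trans ov_val period_ED place_cases q3a_dvd_lt q3a_la_sq q3a_le q3a_sq_lt q3b_ext q3b_int q3b_le q3b_neg q3b_pos q3b_pos_iff q3b_sq q3b_tau q3b_three q4b_crt q5_coe q5_den quot_all quot_eq s5b_not_la sha_zero step tam_la tam_one tau_jF val_prime z1_norm
open CU (la om eE)
open JL (KD sD)

theorem kap_pos (D : Eis) : 0 < kap D := by
  unfold kap
  split_ifs <;> norm_num

/-- The quotient of the conjecture. -/
theorem quotG {D : Eis} (hD : ClG D) : ∃ c : ℕ, c ≠ 0 ∧ ¬ 3 ∣ c ∧ ∀ (a : ℂ) (q : ℚ),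
    a = (((q : ℝ) * kap D / ‖emb (4 * D)‖ ^ ((1 : ℝ) / 3) : ℝ) : ℂ) * (Om : ℂ) ^ 2 →
    ∀ t : ℕ, quot D a t = ((q * (t : ℚ) ^ 2 / (c : ℚ) : ℚ) : ℂ) := by
  obtain ⟨c, hc, hc3, htam⟩ := finprod_tamG hD
  have hD0 : D ≠ 0 := nz hD
  refine ⟨c, hc, hc3, ?_⟩
  intro a q ha t
  have := CM27.eis_isDomain
  have hX0 : (0 : ℝ) < ‖emb (4 * D)‖ :=
    norm_pos_iff.2 ((map_ne_zero_iff emb emb_injective).2 (mul_ne_zero (by decide) hD0))
  have hOm0 : (0 : ℝ) < Om := Om_pos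
  have hs3 : (0 : ℝ) < √3 := by positivity
  have hY0 : (0 : ℝ) < ‖emb (4 * D)‖ ^ ((1 : ℝ) / 3) := Real.rpow_pos_of_pos hX0 _
  rw [quot, period_G hD hD0, htam, CU.abs_discr_KK, ha]
  generalize ‖emb (4 * D)‖ ^ ((1 : ℝ) / 3) = Y at *
  have hc0 : (c : ℝ) ≠ 0 := by exact_mod_cast hc
  have hk0 : (kap D : ℝ) ≠ 0 := by exact_mod_cast (kap_pos D).ne'
  have key : (q : ℝ) * kap D / Y * Om ^ 2 * √3 * (t : ℝ) ^ 2 / (√3 * Om ^ 2 / Y * kap D * (c : ℝ)) =
      (q : ℝ) * (t : ℝ) ^ 2 / c := by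
    field_simp
  have key2 := congrArg (fun x : ℝ => (x : ℂ)) key
  simp only [Complex.ofReal_mul, Complex.ofReal_div, Complex.ofReal_pow, Complex.ofReal_natCast,
    Complex.ofReal_ratCast] at key2
  push_cast
  exact key2

/-- The descent. -/
theorem descent {D : Eis} {F : Type} [Field F] [NumberField F] [Algebra KK F] {r : F} {τ : F ≃ₐ[KK] F}
    (hD : ClG D) (hQ : Quad D r τ) (hN : NoBadP τ (PG D r)) :
    Finite (ED (jK D)).toAffine.Point ∧ ¬ 3 ∣ Nat.card (ED (jK D)).toAffine.Point ∧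
      ∀ (x : SBSD.Sha (ED (jK D))) (k : ℕ), 3 ^ k • x = 0 → x = 0 := by
  have hD0 : D ≠ 0 := nz hD
  obtain ⟨-, hdir, -⟩ := types hD hQ
  obtain ⟨h1, h2⟩ := finite_of_phiE hD0 hQ exists_o (exists_phiE hD0 (clV_of hD) hQ hdir hN exists_o)
  exact ⟨h1, h2, fun x k h => sha_zero hD0 (clV_of hD) hQ hdir hN x k h⟩

theorem descent_UCG {D : Eis} (hD : ClG D) (h : UCG D) :
    Finite (ED (jK D)).toAffine.Point ∧ ¬ 3 ∣ Nat.card (ED (jK D)).toAffine.Point ∧
      ∀ (x : SBSD.Sha (ED (jK D))) (k : ℕ), 3 ^ k • x = 0 → x = 0 := by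
  letI := algK (KD D) (w_mem D)
  obtain ⟨τ, hQ⟩ := exists_quadG hD
  exact descent hD hQ (noBad_of_UCG hD h τ hQ)

/-- The class number of `ℚ(ω, √D)` is prime to `3` and there is a unit `u` such that the class of `u / ū` at `λ` is not the class of a local point,
if and only if `E_D(K)` is finite and the Tate–Shafarevich group has no element of order `3`. -/
theorem uc_iffG {D : Eis} (hD : ClG D) : UCG D ↔
    (Finite (ED (jK D)).toAffine.Point ∧ ∀ x : SBSD.Sha (ED (jK D)), 3 • x = 0 → x = 0) := by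
  constructor
  · intro h
    obtain ⟨h1, -, h3⟩ := descent_UCG hD h
    exact ⟨h1, fun x hx => h3 x 1 (by rw [pow_one]; exact hx)⟩
  · rintro ⟨h1, h2⟩
    letI := algK (KD D) (w_mem D)
    obtain ⟨τ, hQ⟩ := exists_quadG hD
    exact uc_of_noBadG hD τ hQ (noBad_of_fin (nz hD) (clV_of hD) hQ (types hD hQ).2.2 h1 h2)

theorem valG (q : ℚ) (t c : ℕ) (hq : q ≠ 0) (ht : t ≠ 0) (hc : c ≠ 0) (hc3 : ¬ 3 ∣ c) :
    padicValRat 3 (q * (t : ℚ) ^ 2 / (c : ℚ)) = padicValRat 3 q + 2 * padicValRat 3 (t : ℚ) := by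
  have hf : Fact (Nat.Prime 3) := ⟨Nat.prime_three⟩
  have h2' : (t : ℚ) ≠ 0 := by exact_mod_cast ht
  have hc1 : (c : ℚ) ≠ 0 := by exact_mod_cast hc
  rw [padicValRat.div (mul_ne_zero hq (pow_ne_zero _ h2')) hc1,
    padicValRat.mul hq (pow_ne_zero _ h2'), padicValRat.pow, CU.z1_padic_nat c hc3]
  push_cast
  ring

/-- The `3`-part of the conjecture. -/
theorem final_allG {D : Eis} (hD : ClG D) (h : UCG D) (hL : LValG D) : SBSD3.ThreePartRankZero (ED (jK D)) := by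
  obtain ⟨p₂, pl, hp2, hpl, Φ, hΦ, hs, q, hq, -, hu⟩ := hL
  obtain ⟨hq0, hv⟩ := hu.2 h
  obtain ⟨hfin, hcard, hsha⟩ := descent_UCG hD h
  obtain ⟨c, hc, hc3, hquot⟩ := quotG hD
  have hE := entire_G hD hp2 hpl Φ hΦ hs
  have hD0 : D ≠ 0 := nz hD
  have hL1 : Φ 1 * conj (Φ (conj 1)) = (((q : ℝ) * kap D / ‖emb (4 * D)‖ ^ ((1 : ℝ) / 3) : ℝ) : ℂ) * (Om : ℂ) ^ 2 := by
    rw [map_one]
    exact hq
  set t := Nat.card (ED (jK D)).toAffine.Point with ht
  have ht1 : t ≠ 0 := by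
    intro h0
    rw [h0] at hcard
    exact hcard (dvd_zero 3)
  have ht0 : (t : ℚ) ≠ 0 := by exact_mod_cast ht1
  have hc1 : (c : ℚ) ≠ 0 := by exact_mod_cast hc
  have hL0 : Φ 1 * conj (Φ (conj 1)) ≠ 0 := by
    rw [hL1]
    have := CM27.eis_isDomain
    have hX0 : (0 : ℝ) < ‖emb (4 * D)‖ :=
      norm_pos_iff.2 ((map_ne_zero_iff emb emb_injective).2 (mul_ne_zero (by decide) hD0))
    have hY0 : (0 : ℝ) < ‖emb (4 * D)‖ ^ ((1 : ℝ) / 3) := Real.rpow_pos_of_pos hX0 _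
    have hOmC : (Om : ℂ) ≠ 0 := by exact_mod_cast Om_pos.ne'
    refine mul_ne_zero ?_ (pow_ne_zero _ hOmC)
    rw [Complex.ofReal_ne_zero]
    have hq1 : (q : ℝ) ≠ 0 := by exact_mod_cast hq0
    have hk0 : (kap D : ℝ) ≠ 0 := by exact_mod_cast (kap_pos D).ne'
    positivity
  refine ⟨z1_elliptic hD0, hfin, fun s => Φ s * conj (Φ (conj s)), hE, ?_, hL0, hsha,
    q * (t : ℚ) ^ 2 / (c : ℚ), ?_, ?_, ?_⟩
  · exact CMT.order_eq _ (AnalyticAt.analyticOrderAt_eq_zero (hE.1.analyticAt 1) |>.2 hL0)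
  · exact div_ne_zero (mul_ne_zero hq0 (pow_ne_zero _ ht0)) hc1
  · rw [valG q t c hq0 ht1 hc hc3, hv, CU.z1_padic_nat t hcard]
    norm_num
  · have h5 := hquot _ q hL1 t
    rw [quot] at h5
    rw [SBSD2.bsdQuotient, CMT.card_tors]
    exact h5

/-- The conjecture modulo `3` for all `D`. -/
theorem modThreeG {D : Eis} (hD : ClG D) (hL : LValG D) : CUE.ModThree (ED (jK D)) := by
  obtain ⟨p₂, pl, hp2, hpl, Φ, hΦ, hs, q, hq, hv, hu⟩ := hL
  obtain ⟨c, hc, hc3, hquot⟩ := quotG hD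
  have hL1 : Φ 1 * conj (Φ (conj 1)) = (((q : ℝ) * kap D / ‖emb (4 * D)‖ ^ ((1 : ℝ) / 3) : ℝ) : ℂ) * (Om : ℂ) ^ 2 := by
    rw [map_one]
    exact hq
  set t := tcard (ED (jK D)) with ht
  have hc1 : (c : ℚ) ≠ 0 := by exact_mod_cast hc
  have ht0 : 0 ≤ padicValRat 3 (t : ℚ) := by
    rw [padicValRat.of_nat]
    positivity
  refine ⟨z1_elliptic (nz hD), fun s => Φ s * conj (Φ (conj s)), entire_G hD hp2 hpl Φ hΦ hs,
    q * (t : ℚ) ^ 2 / (c : ℚ), ?_, ?_, ?_⟩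
  · have h5 := hquot _ q hL1 t
    rw [quot] at h5
    rw [bsd_eq]
    exact h5
  · by_cases h1 : q = 0
    · rw [h1]; simp
    by_cases h2 : t = 0
    · rw [h2]; simp
    rw [valG q t c h1 h2 hc hc3]
    have := hv.resolve_left h1
    linarith
  · rw [← uc_iffG hD, ← hu]
    constructor
    · rintro ⟨h1, h2⟩
      have h3 : q ≠ 0 := by
        rintro rfl
        simp at h1
      have h4 : t ≠ 0 := by
        intro h5
        rw [h5] at h1
        simp at h1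
      rw [valG q t c h3 h4 hc hc3] at h2
      have := hv.resolve_left h3
      exact ⟨h3, by linarith⟩
    · intro h
      obtain ⟨hfin, hcard, -⟩ := descent_UCG hD (hu.1 h)
      obtain ⟨h1, h2⟩ := h
      have ht3 : ¬ 3 ∣ t := by
        rw [ht, tcard_eq]
        exact hcard
      have h4 : t ≠ 0 := by
        intro h5
        rw [h5] at ht3
        exact ht3 (dvd_zero 3)
      have h4' : (t : ℚ) ≠ 0 := by exact_mod_cast h4
      refine ⟨div_ne_zero (mul_ne_zero h1 (pow_ne_zero _ h4')) hc1, ?_⟩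
      rw [valG q t c h1 h4 hc hc3, h2, CU.z1_padic_nat t ht3]
      norm_num

end JG
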