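import Pool.Agent.JG.FG

/-!
# [JG-HG] the class `ClG` in terms of the curve: sixth-power-free, no rational point of order `3`, Tamagawa numbers prime to `3`
-/

set_option autoImplicit false

open NumberField IsDedekindDomain
open scoped Classical

namespace JG

open CM27 CF JZ
open JD (ED ED_Δ ED_c₄ ED_equation jK jK_inj omE phiE phiE_eq_zero phiE_phiE exists_o)

theorem ED_ne {D : Eis} (h0 : D ≠ 0) : (ED (jK D)).Δ ≠ 0 := by
  rw [ED_Δ]
  have h1 : jK D ≠ 0 := fun h => h0 (jK_inj (h.trans (map_zero jK).symm))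
  exact mul_ne_zero (by norm_num) (pow_ne_zero _ h1)

theorem three_core {K : Type} [Field K] [CharZero K] [inst : DecidableEq K] {d o : K} (hd : d ≠ 0) (ho : o ^ 2 + o + 1 = 0)
    (hn : ∀ y : K, y ^ 2 ≠ d) (P : (ED d).toAffine.Point) (hP : 3 • P = 0) : P = 0 := by
  obtain rfl : inst = fun a b => Classical.propDecidable (a = b) := Subsingleton.elim _ _
  have hker : ∀ Q : (ED d).toAffine.Point, phiE ho Q = 0 → Q = 0 := by
    intro Q hQ
    rw [phiE_eq_zero hd ho] at hQ
    cases Q with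
    | zero => rfl
    | some x y hxy =>
      have hx : x = 0 := hQ
      subst hx
      have heq : y ^ 2 = 0 ^ 3 + d := (ED_equation d 0 y).1 hxy.1
      exact (hn y (by linear_combination heq)).elim
  refine hker P (hker _ ?_)
  have h4 : 3 • omE ho P = omE ho (3 • P) := (map_nsmul (omE ho) 3 P).symm
  rw [phiE_phiE hd, h4, hP, map_zero, neg_zero]

/-- There is no point of order `3`. -/
theorem no_three {D : Eis} (hD : ClG D) (P : (ED (jK D)).toAffine.Point) (hP : 3 • P = 0) : P = 0 :=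
  three_core (fun h => nz hD (jK_inj (h.trans (map_zero jK).symm))) exists_o (nsqK hD) P hP

/-- The class `ClG` in terms of the curve. -/
theorem clG_iff (D : Eis) : ClG D ↔ D ≠ 0 ∧ (∀ p : Eis, Prime p → ¬ p ^ 6 ∣ D) ∧
    (∀ P : (ED (jK D)).toAffine.Point, 3 • P = 0 → P = 0) ∧
    ∀ v : HeightOneSpectrum (𝓞 KK), ¬ 3 ∣ SBSD.tam (ED (jK D)) v := by
  constructor
  · intro h
    exact ⟨nz h, h.free, no_three h, fun v => (tam_allG v h).2⟩
  · rintro ⟨h0, h1, h2, h3⟩
    exact clG_of h1 (nsq_of h0 h2) h3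

/-- The conjecture modulo `3` for every elliptic curve over `ℚ(ω)` with `j = 0`, no rational point of order `3` and Tamagawa numbers prime to `3`. -/
theorem modThree_j (hL : ∀ D : Eis, ClG D → LValG D) (E : WeierstrassCurve KK) [E.IsElliptic] (hj : E.j = 0)
    (h3 : ∀ P : E.toAffine.Point, 3 • P = 0 → P = 0) (htam : ∀ v : HeightOneSpectrum (𝓞 KK), ¬ 3 ∣ SBSD.tam E v) :
    CUE.ModThree E :=
  modThree_all hL E E.isUnit_Δ.ne_zero (E.j_eq_zero_iff.1 hj) h3 htam

/-- The `3`-part of the conjecture in the case of rank `0`. -/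
theorem threePart_all (hL : ∀ D : Eis, ClG D → LValG D) (W : WeierstrassCurve KK) (hΔ : W.Δ ≠ 0) (h4 : W.c₄ = 0)
    (h3 : ∀ P : W.toAffine.Point, 3 • P = 0 → P = 0) (htam : ∀ v : HeightOneSpectrum (𝓞 KK), ¬ 3 ∣ SBSD.tam W v)
    (hfin : Finite W.toAffine.Point) (hsha : ∀ x : SBSD.Sha W, 3 • x = 0 → x = 0) : SBSD3.ThreePartRankZero W := by
  obtain ⟨D, C, hD, rfl⟩ := exists_cl W hΔ h4 h3 htam
  have hΔ0 := ED_ne (nz hD)
  have h5 : UCG D := (uc_iffG hD).2 ⟨by
    have h6 := (ISO.pts (ED (jK D)) C).1.1 (by convert hfin)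
    convert h6, (ISO.sha_smul (ED (jK D)) C 3).1 hsha⟩
  exact (ISO.threePart_smul (ED (jK D)) hΔ0 C).2 (final_allG hD h5 (hL D hD))

end JG
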