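import Pool.Agent.JG.B3

/-!
# [JG-L4] the valuation of the class of a local point at a split place

PROOF. `below_cube` [L4a]: `Valued.v y = g³`; if `y = 0` clear (`g' = 0`). Otherwise `g ≠ 0`; the valuation of the completion is surjective (`HeightOneSpectrum`: `v.valuedAdicCompletion_surjective` / take `π : KK` with `v.valuation KK π = g`, `HeightOneSpectrum.valuation_surjective`, and its image in the completion,
`HeightOneSpectrum.valuedAdicCompletion_eq_valuation'`): `Valued.v p = g`, `p ≠ 0`, `z = y / p³` has `Valued.v z = 1`, so `Valued.v (φ z) = 1` (`hB.int` for `z` and `z⁻¹`), `Valued.v (φ y) = (Valued.v (φ p))³`.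
`sq_of_split` [L4b]: let `w'` be the conjugate place (`exists_cj`), `w' x = w (τ x)`; by hypothesis `w' ≠ w`, so there is an integral `x` with `w x < 1`, `w' x = 1` (two different maximal ideals; `HeightOneSpectrum.valuation_lt_one_iff_mem`, `HeightOneSpectrum.valuation_eq_one_iff_notMem`; an element of `w.asIdeal` not in `w'.asIdeal`).
`x + τ x = jF a`, `x * τ x = jF N` (`fix_int`, `tau_tau`; `a, N : Eis`). `w (jF a) = 1` (`w x < 1`, `w (τ x) = w' x = 1`), `w (jF N) < 1`. In `C = v.adicCompletion KK` let `a', N'` be the images of `jK a`, `jK N`: `Valued.v a' = 1` and `Valued.v N' < 1` (`hB`: `φ a' = i (jF a)`; both are `≤ 1` (`E7c_natle`-like: the image of an integer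
has valuation `≤ 1`: `HeightOneSpectrum.valuation_le_one`, `valuedAdicCompletion_eq_valuation'`); if `Valued.v N' = 1` then `Valued.v (φ N') = 1` by `hB.int` for the inverse, contradiction; if `Valued.v a' < 1`: then `a'` has a power... simpler: if `Valued.v a' < 1` choose `π` in `C` with ... : `φ` is continuous? not needed:
`Valued.v a' < 1` implies `a'^n = π * z` for a uniformizer; hence use: `w (jF a) = 1` means `jF a ∉ w.asIdeal`, and `v.asIdeal` maps into `w.asIdeal`: for `c ∈ 𝓞 KK` with `v.valuation c < 1`: `Valued.v (φ c) < 1`. Proof: the maximal ideal of `C`'s integers is mapped by `φ` into a proper ideal: if `Valued.v c < 1` and `Valued.v (φ c) = 1`: the elements `1 + c z`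
are units of the integers of `C` for all integral `z`; choose `z ∈ 𝓞 KK` with `1 + (jF c) z ∈ w.asIdeal` (`𝓞 F / w` is finite: `(jF c)^n ≡ 1` for some `n ≥ 1`, so `1 - c^n` is a unit of `C` (`Valued.v (c^n) < 1`), but `Valued.v (φ (1 - c^n)) < 1`, contradiction to `hB.int` of the inverse).) See also `JD.l0a_map`, `JD.below_la`, `JD.l0b_ideal` (JD/L0.lean).
Then `z² - z + N'/a'² = 0` has a root `z` with `Valued.v z < 1` by Hensel (`JD.hensel3`-style; or: the cubic `z (z² - z + m) = z³ - z² + m z` ...; use `HenselianLocalRing` of `v.adicCompletionIntegers KK` as in the proof of `JD.hensel3`, JD/E1.lean): the derivative `2 z - 1` at `0` is a unit. So `a'² - 4 N' = (a' (1 - 2 z))²` is a square `c²`,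
`c ≠ 0` (`Valued.v c`: if `c = 0` then `x = τ x`; contradiction to `w x < 1 = w (τ x)`). `(x - τ x)² = jF (a² - 4 N)` and `x - τ x = algebraMap y * r` for a `y : KK` (`exists_uv`: `x = u + y' r`, `x - τ x = 2 y' r`), `y ≠ 0`: `y² D = a² - 4 N`, so `s = c / y` has `s² = D` in `C`. `φ s = ± i r` as both have the square `i (jF D)`; replace `s` by `-s`.
`val_pt` [L4c]: `(Y - R)(Y + R) = X³`. If `w (Y - R) < w (2 R)` then `w (Y + R) = w (2 R)`(`Y + R = (Y - R) + 2 R`), so `w (Y - R) = w X ^ 3 / g ^ 3`. If `w (Y - R) > w (2 R)`: `w (Y + R) = w (Y - R)`, `w (Y - R)^2 = w X ^ 3`: `w (Y - R) = (w (Y - R) / w X) ^ 3 ...`: with `t = w (Y - R)`, `m = w X`, `t² = m³`, `t ≠ 0`, `m ≠ 0`: `t = (t / m)^3 · ...`: `(m/ (t/m))`: `t = t³ / t² = (t / m)³`.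
If `w (Y - R) = w (2 R)`: clear.
`val_split` [L4d]: `exists_Below w` gives `v, φ`; in the third case of `LocK` its own `v, φ`. `sq_of_split`, `hV v s`, `below_cube`: `Valued.v (2 * i r) = g³`. (1) `i b = t³`. (2) `i (2 r b) = t³`. (3) `val_pt` for `X = φ x`, `Y = φ y`, `R = i r`. `Valued.v (i b) = w.valuation F b` (`JD.h1_val`). `IsCube x` is `∃ t, t ^ 3 = x` (see its definition in CUD).
-/

set_option autoImplicit false

open NumberField IsDedekindDomain
open scoped Classical

namespace JG

open CM27 CF JZ JX JXD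
open JD hiding G5b_unit G5b_val LCW_ED below_val descent det_unit disc_eq eis_cube entire_ED exists_H exists_basis exists_cj exists_den exists_int exists_kappa exists_ov exists_phiE exists_quad exists_u0 final_of finite_of_phiE finprod_neron finprod_tam finrank_KD fix_int fix_of_two g4a_exp g4a_le g4a_norm g4a_one g4a_split g4b_place g5a_norm g5a_tau g5a_three g5a_unit int_KK int_jF int_r jr_inj kk_cube m1_cube min_all n5_gen ne_of_cl not_three ov_D ov_eight ov_mem ov_trans ov_val period_ED place_cases q3a_dvd_lt q3a_la_sq q3a_le q3a_sq_lt q3b_ext q3b_int q3b_le q3b_neg q3b_pos q3b_pos_iff q3b_sq q3b_tau q3b_three q4b_crt q5_coe q5_den quot_all quot_eq s5b_not_la sha_zero step tam_la tam_one tau_jF val_prime z1_norm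
open CU (la om eE)
open CUD (IsCube)

section
variable {D : Eis} {F : Type} [Field F] [NumberField F] [Algebra KK F] {r : F} {τ : F ≃ₐ[KK] F}

private theorem l4a_unit {v : HeightOneSpectrum (𝓞 KK)} {w : HeightOneSpectrum (𝓞 F)}
    {φ : v.adicCompletion KK →+* w.adicCompletion F} (hB : Below v w φ) {y : v.adicCompletion KK}
    (hy1 : Valued.v y = (1 : WithZero (Multiplicative ℤ))) :
    Valued.v (φ y) = (1 : WithZero (Multiplicative ℤ)) := by
  have hy0 : y ≠ 0 := by
    rintro rfl
    rw [map_zero] at hy1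
    exact zero_ne_one hy1
  have e1 : Valued.v (φ y) ≤ (1 : WithZero (Multiplicative ℤ)) := hB.int y hy1.le
  have e2 : Valued.v (φ y⁻¹) ≤ (1 : WithZero (Multiplicative ℤ)) := by
    refine hB.int y⁻¹ ?_
    rw [map_inv₀, hy1, inv_one]
  refine le_antisymm e1 ?_
  rw [map_inv₀, map_inv₀] at e2
  have h0 : (Valued.v (φ y) : WithZero (Multiplicative ℤ)) ≠ 0 :=
    (Valuation.ne_zero_iff _).2 ((map_ne_zero φ).2 hy0)
  exact (inv_le_one₀ (zero_lt_iff.2 h0)).1 e2

/-- [L4a] -/
theorem below_cube {v : HeightOneSpectrum (𝓞 KK)} {w : HeightOneSpectrum (𝓞 F)}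
    {φ : v.adicCompletion KK →+* w.adicCompletion F} (hB : Below v w φ) {y : v.adicCompletion KK}
    {g : WithZero (Multiplicative ℤ)} (h : Valued.v y = g ^ 3) :
    ∃ g' : WithZero (Multiplicative ℤ), Valued.v (φ y) = g' ^ 3 := by
  rcases eq_or_ne y 0 with rfl | hy
  · exact ⟨0, by rw [map_zero, map_zero]; simp⟩
  have hv0 : (Valued.v y : WithZero (Multiplicative ℤ)) ≠ 0 := (Valuation.ne_zero_iff _).2 hy
  have hg0 : g ≠ 0 := by
    rintro rfl
    apply hv0
    rw [h]
    simp
  obtain ⟨p, hp⟩ := v.valuation_surjective KK g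
  have hp1 : Valued.v (algebraMap KK (v.adicCompletion KK) p) = g := by
    rw [← hp]
    exact HeightOneSpectrum.valuedAdicCompletion_eq_valuation' v p
  have hp0 : algebraMap KK (v.adicCompletion KK) p ≠ 0 := by
    intro h0
    rw [h0, map_zero] at hp1
    exact hg0 hp1.symm
  have hz : Valued.v (y / algebraMap KK (v.adicCompletion KK) p ^ 3) =
      (1 : WithZero (Multiplicative ℤ)) := by
    rw [map_div₀, map_pow, h, hp1]
    exact div_self (pow_ne_zero 3 hg0)
  have hz2 := l4a_unit hB hz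
  refine ⟨Valued.v (φ (algebraMap KK (v.adicCompletion KK) p)), ?_⟩
  rw [map_div₀, map_div₀, map_pow, map_pow] at hz2
  have hne : (Valued.v (φ (algebraMap KK (v.adicCompletion KK) p)) :
      WithZero (Multiplicative ℤ)) ≠ 0 :=
    (Valuation.ne_zero_iff _).2 ((map_ne_zero φ).2 hp0)
  exact (div_eq_one_iff_eq (pow_ne_zero 3 hne)).1 hz2

/-- [L4b] -/
theorem sq_of_split (hD : D ≠ 0) (hQ : Quad D r τ) {v : HeightOneSpectrum (𝓞 KK)} {w : HeightOneSpectrum (𝓞 F)}
    {φ : v.adicCompletion KK →+* w.adicCompletion F} (hB : Below v w φ) {x : F}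
    (hne : w.valuation F (τ x) ≠ w.valuation F x) :
    ∃ s : v.adicCompletion KK, s ^ 2 = algebraMap KK (v.adicCompletion KK) (jK D) ∧
      φ s = algebraMap F (w.adicCompletion F) r := by
  have hdom := eis_isDomain
  -- the conjugate place
  obtain ⟨w', hw'⟩ := exists_cj τ w
  have hww : ¬ w.asIdeal ≤ w'.asIdeal := by
    intro hle
    have h1 : w.asIdeal = w'.asIdeal := w.isMaximal.eq_of_le w'.isPrime.ne_top hle
    have h2 : w = w' := HeightOneSpectrum.ext h1
    apply hne
    rw [← hw', ← h2]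
  obtain ⟨t, ht1, ht2⟩ := SetLike.not_le_iff_exists.1 hww
  have hx1 : w.valuation F (algebraMap (𝓞 F) F t) < 1 :=
    (HeightOneSpectrum.valuation_lt_one_iff_mem w t).2 ht1
  have hx2 : w.valuation F (τ (algebraMap (𝓞 F) F t)) = 1 := by
    rw [← hw']
    exact (HeightOneSpectrum.valuation_eq_one_iff_notMem w').2 ht2
  set z : F := algebraMap (𝓞 F) F t with hz
  have hzi : IsIntegral ℤ z := RingOfIntegers.isIntegral_coe t
  have hzi' : IsIntegral ℤ (τ z) := hzi.map (τ : F ≃ₐ[KK] F).toRingEquiv.toRingHom.toIntAlgHom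
  have htt := tau_tau hD hQ z
  obtain ⟨a, ha⟩ := fix_int hD hQ (z := z + τ z) (by rw [map_add, htt, add_comm])
    (hzi.add hzi')
  obtain ⟨N, hN⟩ := fix_int hD hQ (z := z * τ z) (by rw [map_mul, htt, mul_comm])
    (hzi.mul hzi')
  have hwa : w.valuation F (jF F a) = 1 := by
    rw [← ha, Valuation.map_add_eq_of_lt_right, hx2]
    rw [hx2]
    exact hx1
  have hwN : w.valuation F (jF F N) < 1 := by
    rw [← hN, map_mul, hx2, mul_one]
    exact hx1
  have hphi : ∀ c : Eis, Valued.v (φ (algebraMap KK (v.adicCompletion KK) (jK c))) =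
      w.valuation F (jF F c) := by
    intro c
    rw [hB.comm]
    exact HeightOneSpectrum.valuedAdicCompletion_eq_valuation' w (algebraMap KK F (jK c))
  have hle : ∀ c : Eis, Valued.v (algebraMap KK (v.adicCompletion KK) (jK c)) ≤
      (1 : WithZero (Multiplicative ℤ)) := by
    intro c
    have e1 : Valued.v (algebraMap KK (v.adicCompletion KK) (jK c)) = v.valuation KK (jK c) :=
      HeightOneSpectrum.valuedAdicCompletion_eq_valuation' v (jK c)
    exact (le_of_eq e1).trans (v.valuation_le_one (eE c))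
  have hN1 : Valued.v (algebraMap KK (v.adicCompletion KK) (jK N)) <
      (1 : WithZero (Multiplicative ℤ)) := by
    refine lt_of_le_of_ne (hle N) ?_
    intro h1
    have h2 := l4a_unit hB h1
    rw [hphi] at h2
    exact hwN.ne h2
  have ha1 : Valued.v (algebraMap KK (v.adicCompletion KK) (jK a)) =
      (1 : WithZero (Multiplicative ℤ)) := by
    by_contra hcon
    have hlt := lt_of_le_of_ne (hle a) hcon
    -- a power of `jF a` is congruent to `1`
    obtain ⟨c, hc⟩ : ∃ c : 𝓞 F, algebraMap (𝓞 F) F c = jF F a := by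
      have h1 : IsIntegral ℤ (jF F a) := by
        rw [← ha]
        exact hzi.add hzi'
      exact ⟨⟨jF F a, h1⟩, rfl⟩
    have hcm : c ∉ w.asIdeal := by
      rw [← HeightOneSpectrum.valuation_eq_one_iff_notMem (K := F) w, hc]
      exact hwa
    obtain ⟨n, hn0, hn⟩ : ∃ n : ℕ, 0 < n ∧ c ^ n - 1 ∈ w.asIdeal := by
      haveI : w.asIdeal.IsMaximal := w.isMaximal
      haveI : Finite (𝓞 F ⧸ w.asIdeal) := Ideal.finiteQuotientOfFreeOfNeBot w.asIdeal w.ne_bot
      letI : Field (𝓞 F ⧸ w.asIdeal) := Ideal.Quotient.field w.asIdeal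
      have h0 : Ideal.Quotient.mk w.asIdeal c ≠ 0 := by
        rw [Ne, Ideal.Quotient.eq_zero_iff_mem]
        exact hcm
      obtain ⟨n, hn0, hn⟩ := isOfFinOrder_iff_pow_eq_one.1
        (isOfFinOrder_of_finite (Units.mk0 (Ideal.Quotient.mk w.asIdeal c) h0))
      refine ⟨n, hn0, ?_⟩
      rw [← Ideal.Quotient.eq_zero_iff_mem, map_sub, map_pow, map_one, sub_eq_zero]
      have h1 := congrArg Units.val hn
      rw [Units.val_pow_eq_pow_val, Units.val_mk0, Units.val_one] at h1
      exact h1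
    have h1 : w.valuation F (jF F a ^ n - 1) < 1 := by
      have h2 := (HeightOneSpectrum.valuation_lt_one_iff_mem (K := F) w (c ^ n - 1)).2 hn
      have e : algebraMap (𝓞 F) F (c ^ n - 1) = jF F a ^ n - 1 := by
        rw [map_sub, map_pow, map_one, hc]
      rw [← e]
      exact h2
    have h2 : Valued.v (algebraMap KK (v.adicCompletion KK) (jK (a ^ n - 1))) =
        (1 : WithZero (Multiplicative ℤ)) := by
      rw [map_sub, map_sub, map_one, map_one, Valuation.map_sub_eq_of_lt_right, map_one]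
      rw [map_one, map_pow, map_pow, map_pow]
      exact pow_lt_one₀ zero_le hlt hn0.ne'
    have h3 := l4a_unit hB h2
    rw [hphi, map_sub, map_pow, map_one] at h3
    exact h1.ne h3
  set a' := algebraMap KK (v.adicCompletion KK) (jK a) with ha'
  set N' := algebraMap KK (v.adicCompletion KK) (jK N) with hN'
  have ha0 : a' ≠ 0 := by
    intro h0
    rw [h0, map_zero] at ha1
    exact zero_ne_one ha1
  have hm : Valued.v (N' / a' ^ 2) < (1 : WithZero (Multiplicative ℤ)) := by
    rw [map_div₀, map_pow, ha1, one_pow, div_one]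
    exact hN1
  obtain ⟨s, hs1, hs2⟩ := hensel3 v (p := -1) (q := N' / a' ^ 2) (t := 0) (x₀ := 1)
    (by rw [Valuation.map_neg, map_one]) hm.le (by rw [map_zero]; exact zero_le)
    (by rw [map_one])
    (by
      have h5 : (1 : v.adicCompletion KK) ^ 3 + -1 * 1 ^ 2 + N' / a' ^ 2 * 1 + 0 =
        N' / a' ^ 2 := by ring
      rw [h5]
      exact hm)
    (by
      have h5 : 3 * (1 : v.adicCompletion KK) ^ 2 + 2 * (-1) * 1 + N' / a' ^ 2 =
        1 + N' / a' ^ 2 := by ring
      rw [h5, Valuation.map_add_eq_of_lt_left, map_one]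
      rw [map_one]
      exact hm)
  have hs0 : s ≠ 0 := by
    rintro rfl
    rw [zero_sub, Valuation.map_neg, map_one] at hs2
    exact lt_irrefl _ hs2
  have hs3 : s ^ 2 - s + N' / a' ^ 2 = 0 := by
    have h5 : s * (s ^ 2 - s + N' / a' ^ 2) = 0 := by
      rw [← hs1]
      ring
    exact (mul_eq_zero.1 h5).resolve_left hs0
  -- the square root of the discriminant
  have hc : (a' * (2 * s - 1)) ^ 2 = a' ^ 2 - 4 * N' := by
    have h5 : a' ^ 2 * (N' / a' ^ 2) = N' := by
      field_simp
    linear_combination (4 * a' ^ 2) * hs3 - 4 * h5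
  obtain ⟨u, y, huy⟩ := exists_uv hD hQ z
  have huy' : τ z = algebraMap KK F u - algebraMap KK F y * r := by
    rw [huy, map_add, map_mul, τ.commutes, τ.commutes, hQ.tau]
    ring
  have hy0 : y ≠ 0 := by
    rintro rfl
    have h5 : τ z = z := by
      rw [huy', huy, map_zero]
      ring
    rw [h5] at hx2
    exact hx1.ne hx2
  have hD2 : (2 * y) ^ 2 * jK D = jK a ^ 2 - 4 * jK N := by
    apply (algebraMap KK F).injective
    have e1 : algebraMap KK F (jK D) = r ^ 2 := by
      rw [hQ.sq]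
      rfl
    have e2 : algebraMap KK F (jK a) = z + τ z := by
      rw [ha]
      rfl
    have e3 : algebraMap KK F (jK N) = z * τ z := by
      rw [hN]
      rfl
    rw [map_mul, map_sub, map_pow, map_pow, map_mul, map_mul, map_ofNat, map_ofNat, e1, e2, e3,
      huy', huy]
    ring
  have h2y : algebraMap KK (v.adicCompletion KK) (2 * y) ≠ 0 := by
    rw [Ne, map_eq_zero]
    exact mul_ne_zero two_ne_zero hy0
  have hD3 : algebraMap KK (v.adicCompletion KK) (2 * y) ^ 2 *
      algebraMap KK (v.adicCompletion KK) (jK D) = a' ^ 2 - 4 * N' := by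
    have h5 := congrArg (algebraMap KK (v.adicCompletion KK)) hD2
    rw [map_mul, map_pow, map_sub, map_pow, map_mul (algebraMap KK (v.adicCompletion KK)) 4,
      map_ofNat] at h5
    exact h5
  have hfin : (a' * (2 * s - 1) / algebraMap KK (v.adicCompletion KK) (2 * y)) ^ 2 =
      algebraMap KK (v.adicCompletion KK) (jK D) := by
    rw [div_pow, hc, ← hD3, mul_div_cancel_left₀ _ (pow_ne_zero 2 h2y)]
  set q := a' * (2 * s - 1) / algebraMap KK (v.adicCompletion KK) (2 * y) with hq
  have hsq : φ q ^ 2 = algebraMap F (w.adicCompletion F) r ^ 2 := by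
    rw [← map_pow, hfin, hB.comm, ← map_pow, hQ.sq]
    rfl
  rcases sq_eq_sq_iff_eq_or_eq_neg.1 hsq with h5 | h5
  · exact ⟨q, hfin, h5⟩
  · refine ⟨-q, ?_, ?_⟩
    · rw [neg_sq, hfin]
    · rw [map_neg, h5, neg_neg]

/-- [L4c] -/
theorem val_pt {C : Type} [Field C] (w : Valuation C (WithZero (Multiplicative ℤ))) {X Y R : C}
    {g : WithZero (Multiplicative ℤ)} (hg : w (2 * R) = g ^ 3) (hR : 2 * R ≠ 0) (h : Y ^ 2 = X ^ 3 + R ^ 2) (hne : Y - R ≠ 0) :
    ∃ g' : WithZero (Multiplicative ℤ), w (Y - R) = g' ^ 3 := by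
  have hg0 : g ≠ 0 := by
    rintro rfl
    rw [zero_pow three_ne_zero] at hg
    exact hR ((Valuation.zero_iff w).1 hg)
  have h1 : (Y - R) * (Y + R) = X ^ 3 := by linear_combination h
  have h2 : w (Y - R) * w (Y + R) = w X ^ 3 := by rw [← map_mul, h1, map_pow]
  have e1 : Y + R = (Y - R) + 2 * R := by ring
  have hne0 : w (Y - R) ≠ 0 := (Valuation.ne_zero_iff w).2 hne
  rcases lt_trichotomy (w (Y - R)) (w (2 * R)) with hlt | heq | hgt
  · have h3 : w (Y + R) = g ^ 3 := by
      rw [e1, Valuation.map_add_eq_of_lt_right _ hlt, hg]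
    rw [h3] at h2
    refine ⟨w X / g, ?_⟩
    rw [div_pow, ← h2, mul_div_cancel_right₀ _ (pow_ne_zero 3 hg0)]
  · exact ⟨g, by rw [heq, hg]⟩
  · have h3 : w (Y + R) = w (Y - R) := by
      rw [e1, Valuation.map_add_eq_of_lt_left _ hgt]
    rw [h3] at h2
    refine ⟨w (Y - R) / w X, ?_⟩
    rw [div_pow, ← h2, pow_succ, ← pow_two, mul_div_cancel_left₀ _ (pow_ne_zero 2 hne0)]

/-- [L4d] -/
theorem val_split (hD : D ≠ 0) (hV : ClV D) (hQ : Quad D r τ) (w : HeightOneSpectrum (𝓞 F)) {x : F}
    (hne : w.valuation F (τ x) ≠ w.valuation F x) {b : F} (hb : b ≠ 0) (h : LocK D r b w) :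
    ∃ g : WithZero (Multiplicative ℤ), w.valuation F b = g ^ 3 := by
  have hjF : jF F D = algebraMap KK F (jK D) := rfl
  have hr0 : r ≠ 0 := by
    intro h
    have h1 := hQ.sq
    rw [h, hjF] at h1
    have h2 : jK D = 0 := by
      apply (algebraMap KK F).injective
      rw [← h1, map_zero]
      ring
    exact hD (jK_inj (by rw [h2, map_zero]))
  have hi : Function.Injective (algebraMap F (w.adicCompletion F)) :=
    (algebraMap F (w.adicCompletion F)).injective
  have h2r : (2 : w.adicCompletion F) * algebraMap F (w.adicCompletion F) r ≠ 0 := by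
    have h1 : (2 : w.adicCompletion F) * algebraMap F (w.adicCompletion F) r =
        algebraMap F (w.adicCompletion F) (2 * r) := by
      rw [map_mul, map_ofNat]
    rw [h1, Ne, map_eq_zero]
    exact mul_ne_zero two_ne_zero hr0
  have key : ∀ (v : HeightOneSpectrum (𝓞 KK)) (φ : v.adicCompletion KK →+* w.adicCompletion F),
      Below v w φ → ∃ g' : WithZero (Multiplicative ℤ),
        Valued.v (2 * algebraMap F (w.adicCompletion F) r) = g' ^ 3 := by
    intro v φ hB
    obtain ⟨s, hs, hs'⟩ := sq_of_split hD hQ hB hne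
    obtain ⟨g, hg⟩ := hV v s hs
    obtain ⟨g', hg'⟩ := below_cube hB hg
    rw [map_mul, map_ofNat, hs'] at hg'
    exact ⟨g', hg'⟩
  rcases h with ⟨t, ht⟩ | ⟨t, ht⟩ | ⟨v, φ, x', y', g, hB, hg, hxy, hne', hb'⟩
  · refine ⟨Valued.v t, ?_⟩
    rw [← h1_val, ht, map_pow]
  · obtain ⟨v, φ, hB⟩ := exists_Below w
    obtain ⟨g', hg'⟩ := key v φ hB
    have hg0 : g' ≠ 0 := by
      rintro rfl
      rw [zero_pow three_ne_zero, map_eq_zero] at hg'
      exact h2r hg'
    refine ⟨Valued.v t / g', ?_⟩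
    rw [map_mul, map_mul, map_ofNat] at ht
    have h1 := congrArg (Valued.v : w.adicCompletion F → WithZero (Multiplicative ℤ)) ht
    rw [map_mul, map_pow, hg', h1_val] at h1
    rw [div_pow, ← h1]
    field_simp
  · obtain ⟨g', hg'⟩ := key v φ hB
    have h1 : φ y' ^ 2 = φ x' ^ 3 + algebraMap F (w.adicCompletion F) r ^ 2 := by
      have h2 := congrArg φ hxy
      rw [map_pow, map_add, map_pow, hB.comm, ← hjF, ← hQ.sq, map_pow] at h2
      exact h2
    obtain ⟨g'', hg''⟩ := val_pt Valued.v hg' h2r h1 hne'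
    refine ⟨g'' * Valued.v g, ?_⟩
    rw [← h1_val, hb', map_mul, map_pow, hg'', mul_pow]

end

end JG
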