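import Pool.Agent.JG.E7
import Pool.Agent.JG.M1
import Pool.Agent.JD.E10

/-!
# [JG-E10] `E_D(K)` finite and no element of order `3` in `Sha` imply `NoBadP`
-/

set_option autoImplicit false

open NumberField IsDedekindDomain
open scoped Classical

namespace JG

open CM27 CF JZ JX JXD
open JD hiding G5b_unit G5b_val LCW_ED below_val descent det_unit disc_eq eis_cube entire_ED exists_H exists_basis exists_cj exists_den exists_int exists_kappa exists_ov exists_phiE exists_quad exists_u0 final_of finite_of_phiE finprod_neron finprod_tam finrank_KD fix_int fix_of_two g4a_exp g4a_le g4a_norm g4a_one g4a_split g4b_place g5a_norm g5a_tau g5a_three g5a_unit int_KK int_jF int_r jr_inj kk_cube m1_cube min_all n5_gen ne_of_cl not_three ov_D ov_eight ov_mem ov_trans ov_val period_ED place_cases q3a_dvd_lt q3a_la_sq q3a_le q3a_sq_lt q3b_ext q3b_int q3b_le q3b_neg q3b_pos q3b_pos_iff q3b_sq q3b_tau q3b_three q4b_crt q5_coe q5_den quot_all quot_eq s5b_not_la sha_zero step tam_la tam_one tau_jF val_prime z1_norm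
open CU (la om eE W3)
open CUD (gal_comm alg_comm tau_comm am_ne am_o)

theorem noBad_of_fin {D : Eis} {F : Type} [Field F] [NumberField F] [Algebra KK F] {r : F} {τ : F ≃ₐ[KK] F} {P : F → Prop}
    (hD : D ≠ 0) (hV : ClV D) (hQ : Quad D r τ) (hconv : Conv D r τ P) (hfin : Finite (ED (jK D)).toAffine.Point)
    (hsha : ∀ x : SBSD.Sha (ED (jK D)), 3 • x = 0 → x = 0) : NoBadP τ P := by
  intro α hα
  have hD0 : D ≠ 0 := hD
  have hjD : jK D ≠ 0 := fun h => hD0 (jK_inj (h.trans (map_zero jK).symm))
  obtain ⟨u, y, huy⟩ := exists_uv hD0 hQ α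
  have h1 := lam_norm hQ hα.1 huy
  have halg := N3a_alg F
  have hCK : CharZero (AlgebraicClosure KK) :=
    charZero_of_injective_algebraMap (algebraMap KK (AlgebraicClosure KK)).injective
  let ι : F →ₐ[KK] AlgebraicClosure KK := IsAlgClosed.lift
  have hι : Function.Injective ι := RingHom.injective (ι : F →+* AlgebraicClosure KK)
  have hρ : (ι r) ^ 2 = algebraMap KK (AlgebraicClosure KK) (jK D) := by
    rw [← map_pow, hQ.sq, jF_apply, ι.commutes]
  have h0 : 2 * ι r ≠ 0 := by
    refine mul_ne_zero two_ne_zero ?_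
    exact (map_ne_zero_iff ι hι).2 (r_ne hD0 hQ)
  obtain ⟨s, hs⟩ := IsAlgClosed.exists_pow_nat_eq (ι α) (n := 3) (by norm_num)
  have hs' : s ^ 3 = algebraMap KK (AlgebraicClosure KK) u + algebraMap KK (AlgebraicClosure KK) y * ι r := by
    rw [hs, huy, map_add, map_mul, ι.commutes, ι.commutes]
  obtain ⟨R, hR⟩ := cob_of_sha hjD exists_o h1 hsha hρ h0 hs' (fun v ρ' hρ' => locSol_all hD hV hQ hconv hα huy v hρ')
  have hfix := fix_of_cob hjD exists_o (not_sqG hD hQ) h1 hfin hρ h0 hs' R hR
  have hmem : s ∈ IntermediateField.adjoin KK {ι r} := by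
    rw [← InfiniteGalois.fixedField_fixingSubgroup (IntermediateField.adjoin KK {ι r}),
      IntermediateField.mem_fixedField_iff]
    intro σ hσ
    refine hfix σ ?_
    rw [IntermediateField.mem_fixingSubgroup_iff] at hσ
    exact hσ _ (IntermediateField.mem_adjoin_simple_self KK (ι r))
  have hle : IntermediateField.adjoin KK {ι r} ≤ ι.fieldRange := by
    rw [IntermediateField.adjoin_le_iff]
    rintro _ rfl
    exact ⟨r, rfl⟩
  obtain ⟨c, hc⟩ := hle hmem
  refine ⟨c, hι ?_⟩
  rw [map_pow, ← hs]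
  exact congrArg (fun z => z ^ 3) hc

end JG
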