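import Pool.Agent.JG.L4

/-!
# [JG-H1] the global lemma
-/

set_option autoImplicit false

open NumberField IsDedekindDomain
open scoped Classical

namespace JG

open CM27 CF JZ JX JXD
open JD hiding G5b_unit G5b_val LCW_ED below_val descent det_unit disc_eq eis_cube entire_ED exists_H exists_basis exists_cj exists_den exists_int exists_kappa exists_ov exists_phiE exists_quad exists_u0 final_of finite_of_phiE finprod_neron finprod_tam finrank_KD fix_int fix_of_two g4a_exp g4a_le g4a_norm g4a_one g4a_split g4b_place g5a_norm g5a_tau g5a_three g5a_unit int_KK int_jF int_r jr_inj kk_cube m1_cube min_all n5_gen ne_of_cl not_three ov_D ov_eight ov_mem ov_trans ov_val period_ED place_cases q3a_dvd_lt q3a_la_sq q3a_le q3a_sq_lt q3b_ext q3b_int q3b_le q3b_neg q3b_pos q3b_pos_iff q3b_sq q3b_tau q3b_three q4b_crt q5_coe q5_den quot_all quot_eq s5b_not_la sha_zero step tam_la tam_one tau_jF val_prime z1_norm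
open CU (la om eE)
open CUD (IsCube)

section
variable {D : Eis} {F : Type} [Field F] [NumberField F] [Algebra KK F] {r : F} {τ : F ≃ₐ[KK] F} {P : F → Prop}
  (hD : D ≠ 0) (hV : ClV D) (hQ : Quad D r τ) (hdir : Dir D r τ P)
include hD hV hQ hdir

theorem cube_of_loc (hN : NoBadP τ P) {b : F} (hb : b ≠ 0) (hc : ∃ t : F, b * τ b = t ^ 3)
    (hloc : ∀ w : HeightOneSpectrum (𝓞 F), LocK D r b w) : ∃ c : F, c ^ 3 = b := by
  obtain ⟨t, ht⟩ := hc
  have hD0 := hD
  have hτb : τ b ≠ 0 := by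
    intro h
    exact hb ((map_eq_zero_iff τ τ.injective).1 h)
  have ht0 : t ≠ 0 := by
    rintro rfl
    rw [zero_pow three_ne_zero] at ht
    exact mul_ne_zero hb hτb ht
  obtain ⟨α, hα⟩ : ∃ α, α = b / τ b := ⟨_, rfl⟩
  have hα1 : α * τ α = 1 := by
    rw [hα, map_div₀, tau_tau hD0 hQ]
    field_simp
  have hα0 : α ≠ 0 := left_ne_zero_of_mul (by rw [hα1]; exact one_ne_zero)
  have hαt : α = b ^ 2 / t ^ 3 := by
    rw [hα, ← ht]
    field_simp
  have hαv : ∀ w : HeightOneSpectrum (𝓞 F), ∃ g : WithZero (Multiplicative ℤ),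
      w.valuation F α = g ^ 3 := by
    intro w
    by_cases h2 : ∀ x : F, w.valuation F (τ x) = w.valuation F x
    · refine ⟨1, ?_⟩
      rw [hα, map_div₀, h2 b, div_self, one_pow]
      exact (Valuation.ne_zero_iff _).2 hb
    · push Not at h2
      obtain ⟨x, hx⟩ := h2
      obtain ⟨g, hg⟩ := val_split hD hV hQ w hx hb (hloc w)
      obtain ⟨w', hw'⟩ := exists_cj τ w
      obtain ⟨g', hg'⟩ := val_split hD hV hQ w' (x := x) (by
        rw [hw', hw', tau_tau hD hQ]
        exact hx.symm) hb (hloc w')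
      rw [hw'] at hg'
      exact ⟨g / g', by rw [hα, map_div₀, hg, hg', div_pow]⟩
  obtain ⟨k, hk1, hk⟩ := exists_kappa hD hQ hα1 (fun w _ => hαv w)
  have hk0 : k ≠ 0 := left_ne_zero_of_mul (by rw [hk1]; exact one_ne_zero)
  obtain ⟨a, ha⟩ : ∃ a, a = α / k ^ 3 := ⟨_, rfl⟩
  have hτk : τ k ≠ 0 := right_ne_zero_of_mul (by rw [hk1]; exact one_ne_zero)
  have ha1 : a * τ a = 1 := by
    rw [ha, map_div₀, map_pow]
    have e : α / k ^ 3 * (τ α / τ k ^ 3) = (α * τ α) / (k * τ k) ^ 3 := by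
      field_simp
    rw [e, hα1, hk1]
    norm_num
  have ha0 : a ≠ 0 := left_ne_zero_of_mul (by rw [ha1]; exact one_ne_zero)
  have hav : ∀ w : HeightOneSpectrum (𝓞 F), ∃ g : WithZero (Multiplicative ℤ),
      w.valuation F a = g ^ 3 := by
    intro w
    obtain ⟨g, hg⟩ := hαv w
    exact ⟨g / w.valuation F k, by rw [ha, map_div₀, hg, map_pow, div_pow]⟩
  have hn : N1 τ a := by
    refine ⟨ha1, fun w hw => ?_⟩
    rw [ha, map_div₀, map_pow, hk w hw, div_self]
    exact pow_ne_zero _ ((Valuation.ne_zero_iff _).2 hk0)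
  have hak : a = b ^ 2 * (1 / (t * k)) ^ 3 := by
    rw [ha, hαt]
    field_simp
  have hLam : LamP τ P a := by
    obtain ⟨w, hw⟩ := exists_ov hD hQ
    exact ⟨ha1, hav, hn.2, hdir b hb ⟨t, ht⟩ w hw (hloc w) a _ hn hak⟩
  obtain ⟨c, hc⟩ := hN _ hLam
  -- `α = (c k)³`, `b² = (c k t)³`
  have hc0 : c ≠ 0 := by
    rintro rfl
    rw [zero_pow three_ne_zero] at hc
    exact ha0 hc.symm
  have hm3 : (c * k * t) ^ 3 = b ^ 2 := by
    rw [mul_pow, mul_pow, hc, ha, hαt]
    field_simp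
  have hm0 : c * k * t ≠ 0 := mul_ne_zero (mul_ne_zero hc0 hk0) ht0
  refine ⟨b / (c * k * t), ?_⟩
  rw [div_pow, hm3]
  field_simp

end

end JG
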