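import Pool.Agent.JG.K0y
import Pool.Agent.JXD.F2

/-!
# [JG-K24] `D = λ^(2m) D'`, `m = 1, 2`, `D' ≡ -1 mod λ`

`Loc3 V l ε` (JD/L1.lean): `V l = exp (-1)`, `3 = ε l²`, residue field `F₃`. `m = 1`: the line `q ≡ t mod λ²` (`Lc 0`); `m = 2`: the line `λ ∣ q` (`Li`), with respect to `D'`, `r' = r / λ^m`.

PROOF. `pt24` [K24a]: `V x > 1`: `V (l^(2m) d') ≤ 1`, so `V y ^ 2 = V x ^ 3`; `V x = exp n`, `n ≥ 1`, `2 log V y = 3 n`, so `n` is even, `n ≥ 2`, `V y ≥ exp 3`. `V x = 1`: `V y = 1`; `x ≡ ± 1` (`hL.res`), `y² ≡ x³`, so `x ≡ 1 mod l` (`x ≡ -1` would give `y² ≡ -1`, but `y ≡ ± 1`, `V 2 = 1`),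
`V (x³ - 1) ≤ exp (-3)` (`JD.l1_cube`), so `V (y² - 1) ≤ exp (-2)`, `y ≡ η mod l`, `V (y + η) = 1`, `V (y - η) ≤ exp (-2)`. `V x < 1`: `V x ≤ exp (-1)`, `V (x³) ≤ exp (-3)`. `m = 1`: `V y² = exp (-2)` (`V (l² d') = exp (-2)`), `y = l y₁`, `y₁² = d' + x³ / l²`, `V (y₁² + 1) < 1`, but `y₁ ≡ ± 1`: contradiction.
`m = 2`: `V x = exp (-1)`: `V y² = exp (-3)`, impossible. `V x ≤ exp (-2)`: `V (x³) ≤ exp (-6)`, `y = l² y₁`, `y₁² = d' + x³ / l⁴`, contradiction as before.
`dir24_loc` [K24b]: (in a field `C` with a valuation; no residue condition): `e = R / Y`, `w e ≤ exp (-1)`, `α = (Y - R) / (Y + R) = (1 + (-e)) / (1 - (-e))`; `JXD.f2_pure` (JXD/F2.lean) with `L = exp (-1)`, `-e`, `t = η l^m s`: `32 (-e) - t = -(l^m s) (32 / Y + η) = -(l^m s / Y) (33 + (η Y - 1))`, `w 33 ≤ exp (-2)`,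
`w (η Y - 1) = w (Y - η) ≤ exp (-2)`. `w α = 1` since `w e < 1`.
`dir_2`, `dir_4` [K24c]: `D' ≡ -1 mod λ` is not a square at `λ`: `conj_inv` (JG/K0x.lean) for `D', r'` gives `hinv`, `loc_red` (JG/KB.lean; for `D`, `r`): (1) `i b = t³`: `i a = (t² i k)³`: `pl_of_unit` with `α = 1`, `q = 0`. (2) a point `x, y` over `v.adicCompletion KK`: `pt24` there (`Loc3` from `e7a_loc`, JD/E7.lean, with `l0b_ideal`; `l` = the image of `jK la`;
`d'` = the image of `jK D'`; `V (d' + 1) < 1` from `la ∣ D' + 1`, `e7a_le`). Let `X = φ x`, `Y = φ y`, `R = i r = L^m S`, `L = i (jF la) = φ l`, `S = i r'`, valuations are preserved by `φ` (`below_val` for `D', r'`). `Y + R ≠ 0`, `X ≠ 0` (`(Y - R)(Y + R) = X³`, `V x ≥ 1` or `V y ≥ exp 3`...; if `V y ≥ exp 3` then `V x > 1`).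
`α = (Y - R)/(Y + R)`, `(Y - R)² = α X³`, `i a = (i b)² (i k)³ = α (X g² i k)³`. `V y ≥ exp 3`: `w (R / Y) ≤ exp (-4)`, `w (α^8 - (α^8)⁻¹) ≤ exp (-3)`, `q = 0` (`f2_pure` with `t = 0`, `L = exp (-1)`). Otherwise `dir24_loc`: `m = 1`: `q = η`; `m = 2`: `q = η la`. `pl_of_unit` for `D', r'`.
`sol24` [K24d]: as `sol_minusX` (JXD/E3.lean) with `Λ = l^m`, `V Λ ≤ exp (-1)`. `P = T8 u`, `Q = y U7 u`, `(φ u + φ y ρ')^8 = φ P + φ Q ρ'` (`e3x_pow8`). (i) `3 ∣ t`: `e3x_est` with `P₂ = 1`, `Q₂ = 0`, `t₂ = 0`; `sol_la`, `e3x_cube`. (ii) `3 ∤ t`: `sqrt_one`: `y₀² = 1 + l^(2m) d'`, `V (y₀ - 1) < 1`, `V (y₀ + 1) = 1`,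
so `V (y₀ - 1) ≤ exp (-2)`. `σ = ± 1` with `3 ∣ t - σ`. `θ = φ y₀ + φ (-(σ l^m)) ρ'`, `P₂ = T8 y₀`, `Q₂ = -(σ l^m) U7 y₀`, `y₀² - (σ l^m)² d' = 1`; `V (P₂ - 1) ≤ exp (-2)` (`T8 1 = 1`; `T8 x - T8 1` is divisible by `x - 1`), `V (2 Q₂ - (-σ) l^m) ≤ exp (-3)` (`U7 1 = 8`, `V (U7 y₀ - 8) ≤ exp (-2)`, `-16 + 1 = -15`,
`V 15 ≤ exp (-2)`). `e3x_est` with `t₂ = -σ`; `sol_la`, `e3x_cube`: `θ α = γ³` with `γ` in `adjoin`, `α = φ u + φ y ρ'`. `θ (φ y₀ + σ ρ) = 1` (`ρ = φ (l^m) ρ'`). `σ = -1`: the point `(1, y₀)`: `φ y₀ - ρ = θ⁻¹ = α (γ⁻¹)³`. `σ = 1`: the point `(1, -y₀)`: `φ (-y₀) - ρ = -θ⁻¹ = α (-γ⁻¹)³`.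
`conv_2`, `conv_4` [K24e]: `a = u + y r = u + (y jK (la^m)) r'`; `lam_la` (JG/K0y.lean) for `D', r'`. `m = 1`: `q ≡ t mod la²`, `la q ≡ t la mod la³`. `m = 2`: `q = la q₁`, `q₁ = t + la q₂` (`JXD.pac_digit`), `la q ≡ t la² mod la³`. `ρ' = ρ / φ (l^m)`, `sol24`.
-/

set_option autoImplicit false

open NumberField IsDedekindDomain
open scoped Classical

namespace JG

open CM27 CF JZ JX JXD
open JD hiding G5b_unit G5b_val LCW_ED below_val descent det_unit disc_eq eis_cube entire_ED exists_H exists_basis exists_cj exists_den exists_int exists_kappa exists_ov exists_phiE exists_quad exists_u0 final_of finite_of_phiE finprod_neron finprod_tam finrank_KD fix_int fix_of_two g4a_exp g4a_le g4a_norm g4a_one g4a_split g4b_place g5a_norm g5a_tau g5a_three g5a_unit int_KK int_jF int_r jr_inj kk_cube m1_cube min_all n5_gen ne_of_cl not_three ov_D ov_eight ov_mem ov_trans ov_val period_ED place_cases q3a_dvd_lt q3a_la_sq q3a_le q3a_sq_lt q3b_ext q3b_int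 q3b_le q3b_neg q3b_pos q3b_pos_iff q3b_sq q3b_tau q3b_three q4b_crt q5_coe q5_den quot_all quot_eq s5b_not_la sha_zero step tam_la tam_one tau_jF val_prime z1_norm
open CU (la om eE)
open CUD (IsCube)

theorem not_la_of {D' : Eis} (hl : la ∣ D' + 1) : ¬ la ∣ D' := by
  intro h
  have h1 := dvd_sub hl h
  rw [add_sub_cancel_left] at h1
  exact CU.la_prime.not_isUnit (isUnit_of_dvd_one h1)

/-- a nonzero element has a valuation `exp n` -/
theorem K24a_exp {C : Type} [Field C] {V : Valuation C (WithZero (Multiplicative ℤ))} {z : C} (hz : z ≠ 0) :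
    ∃ n : ℤ, V z = WithZero.exp n :=
  ⟨WithZero.log (V z), (WithZero.exp_log ((Valuation.ne_zero_iff V).2 hz)).symm⟩

theorem K24a_pow (n : ℤ) (k : ℕ) : (WithZero.exp n : WithZero (Multiplicative ℤ)) ^ k = WithZero.exp (k * n) := by
  rw [← WithZero.exp_nsmul, nsmul_eq_mul]

/-- `-1` is not a square in the residue field -/
theorem K24a_no {C : Type} [Field C] {V : Valuation C (WithZero (Multiplicative ℤ))} {l ε : C} (hL : Loc3 V l ε)
    {d' z : C} (hd : V (d' + 1) < 1) (hz : V (z ^ 2 - d') < 1) : False := by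
  have h1 : V (z ^ 2 + 1) < 1 := by
    have e : z ^ 2 + 1 = (z ^ 2 - d') + (d' + 1) := by ring
    rw [e]
    exact Valuation.map_add_lt _ hz hd
  have h2 : V (z ^ 2) = 1 := by
    refine l1_one_of (y := (-1 : C)) (by rw [Valuation.map_neg, map_one]) ?_
    rw [sub_neg_eq_add]
    exact h1
  have h3 : V z = 1 := by
    rw [map_pow] at h2
    exact (pow_eq_one_iff.1 h2).resolve_right two_ne_zero
  have h4 : V (z ^ 2 - 1) < 1 := by
    have e : z ^ 2 - 1 = (z - 1) * (z + 1) := by ring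
    have hm1 : V (z - 1) ≤ 1 := Valuation.map_sub_le _ h3.le (map_one V).le
    have hp1 : V (z + 1) ≤ 1 := Valuation.map_add_le _ h3.le (map_one V).le
    rw [e, map_mul]
    rcases hL.res z h3.le with h | h | h
    · exact absurd h3 h.ne
    · exact lt_of_le_of_lt (mul_le_of_le_one_right' hp1) h
    · exact lt_of_le_of_lt (mul_le_of_le_one_left' hm1) h
  have h5 : V (2 : C) < 1 := by
    have e : (2 : C) = (z ^ 2 + 1) - (z ^ 2 - 1) := by ring
    rw [e]
    exact Valuation.map_sub_lt _ h1 h4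
  rw [l1_two hL] at h5
  exact lt_irrefl _ h5

/-- [K24a] -/
theorem pt24 {C : Type} [Field C] {V : Valuation C (WithZero (Multiplicative ℤ))} {l ε : C} (hL : Loc3 V l ε) {m : ℕ}
    (hm : m = 1 ∨ m = 2) {d' x y : C} (hd : V (d' + 1) < 1) (he : y ^ 2 = x ^ 3 + l ^ (2 * m) * d') :
    (1 < V x ∧ WithZero.exp (3 : ℤ) ≤ V y) ∨ (V x = 1 ∧ ∃ η : ℤ, (η = 1 ∨ η = -1) ∧ V (y - (η : C)) ≤ WithZero.exp (-2 : ℤ)) := by
  have hl0 : l ≠ 0 := by
    rintro rfl
    have h := hL.hl
    rw [map_zero] at h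
    exact WithZero.exp_ne_zero h.symm
  have hd1 : V d' = 1 := by
    refine l1_one_of (y := (-1 : C)) (by rw [Valuation.map_neg, map_one]) ?_
    rw [sub_neg_eq_add]
    exact hd
  have hld : V (l ^ (2 * m) * d') = WithZero.exp (-(2 * (m : ℤ))) := by
    rw [map_mul, map_pow, hd1, mul_one, hL.hl, K24a_pow]
    congr 1
    push_cast
    ring
  have hm1 : (1 : ℤ) ≤ m := by rcases hm with rfl | rfl <;> norm_num
  have hld1 : V (l ^ (2 * m) * d') ≤ WithZero.exp (-2 : ℤ) := by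
    rw [hld, WithZero.exp_le_exp]
    omega
  have hldlt : V (l ^ (2 * m) * d') < 1 := l1_of_le (by norm_num) hld1
  rcases lt_trichotomy (V x) 1 with hx | hx | hx
  · exfalso
    have hx1 := l1_lt1 hx
    -- the quotient of `y` by `l ^ m`
    have key : V x ^ 3 < WithZero.exp (-(2 * (m : ℤ))) → False := by
      intro h
      refine K24a_no hL hd (z := y / l ^ m) ?_
      have e : (y / l ^ m) ^ 2 - d' = x ^ 3 / l ^ (2 * m) := by
        rw [div_pow, he, ← pow_mul, mul_comm m 2]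
        field_simp
        ring
      have hlm : V (l ^ (2 * m)) = WithZero.exp (-(2 * (m : ℤ))) := by
        rw [map_mul, hd1, mul_one] at hld
        exact hld
      rw [e, map_div₀, hlm, div_lt_iff₀ (WithZero.exp_pos), one_mul, map_pow]
      exact h
    have hx3 : V x ^ 3 ≤ WithZero.exp (-3 : ℤ) := by
      calc V x ^ 3 ≤ WithZero.exp (-1 : ℤ) ^ 3 := pow_le_pow_left₀ zero_le hx1 3
        _ = WithZero.exp (-3 : ℤ) := by rw [K24a_pow]; norm_num
    rcases hm with rfl | rfl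
    · apply key
      refine lt_of_le_of_lt hx3 ?_
      rw [WithZero.exp_lt_exp]
      norm_num
    · by_cases h2 : V x ≤ WithZero.exp (-2 : ℤ)
      · apply key
        have hx6 : V x ^ 3 ≤ WithZero.exp (-6 : ℤ) := by
          calc V x ^ 3 ≤ WithZero.exp (-2 : ℤ) ^ 3 := pow_le_pow_left₀ zero_le h2 3
            _ = WithZero.exp (-6 : ℤ) := by rw [K24a_pow]; norm_num
        refine lt_of_le_of_lt hx6 ?_
        rw [WithZero.exp_lt_exp]
        norm_num
      · have hx2 : V x = WithZero.exp (-1 : ℤ) := by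
          refine le_antisymm hx1 ?_
          by_contra hc
          exact h2 (l1_lt (not_le.1 hc))
        have hx3' : V (x ^ 3) = WithZero.exp (-3 : ℤ) := by
          rw [map_pow, hx2, K24a_pow]
          norm_num
        have hy2 : V (y ^ 2) = WithZero.exp (-3 : ℤ) := by
          rw [he, Valuation.map_add_eq_of_lt_left _ (by
            rw [hld, hx3', WithZero.exp_lt_exp]
            norm_num), hx3']
        have hy0 : y ≠ 0 := by
          rintro rfl
          rw [zero_pow two_ne_zero, map_zero] at hy2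
          exact WithZero.exp_ne_zero hy2.symm
        obtain ⟨k, hk⟩ := K24a_exp (V := V) hy0
        rw [map_pow, hk, K24a_pow, WithZero.exp_inj] at hy2
        push_cast at hy2
        omega
  · right
    refine ⟨hx, ?_⟩
    have hx3 : V (x ^ 3) = 1 := by rw [map_pow, hx, one_pow]
    have hy2 : V (y ^ 2) = 1 := by
      rw [he, Valuation.map_add_eq_of_lt_left _ (by rw [hx3]; exact hldlt), hx3]
    have hy : V y = 1 := by
      rw [map_pow] at hy2
      exact (pow_eq_one_iff.1 hy2).resolve_right two_ne_zero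
    obtain ⟨η, hη, hyη⟩ : ∃ η : ℤ, (η = 1 ∨ η = -1) ∧ V (y - (η : C)) < 1 := by
      rcases hL.res y hy.le with h | h | h
      · exact absurd hy h.ne
      · exact ⟨1, Or.inl rfl, by rw [Int.cast_one]; exact h⟩
      · exact ⟨-1, Or.inr rfl, by rw [Int.cast_neg, Int.cast_one, sub_neg_eq_add]; exact h⟩
    have hη2 : (η : C) ^ 2 = 1 := by
      rcases hη with rfl | rfl
      · rw [Int.cast_one, one_pow]
      · rw [Int.cast_neg, Int.cast_one, neg_sq, one_pow]
    have hvη : V (η : C) = 1 := by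
      have h := congrArg V hη2
      rw [map_pow, map_one] at h
      exact (pow_eq_one_iff.1 h).resolve_right two_ne_zero
    have hp : V (y + (η : C)) = 1 := by
      have e : y + (η : C) = (y - (η : C)) + 2 * (η : C) := by ring
      have h2 : V (2 * (η : C)) = 1 := by rw [map_mul, l1_two hL, hvη, one_mul]
      rw [e, Valuation.map_add_eq_of_lt_right _ (by rw [h2]; exact hyη), h2]
    have hfac : V (y ^ 2 - 1) = V (y - (η : C)) := by
      have e : y ^ 2 - 1 = (y - (η : C)) * (y + (η : C)) := by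
        rw [← hη2]
        ring
      rw [e, map_mul, hp, mul_one]
    obtain ⟨s, hs, -, hs3⟩ := l1_cube hL hx
    refine ⟨η, hη, ?_⟩
    rcases hs with rfl | rfl
    · rw [← hfac]
      have e : y ^ 2 - 1 = (x ^ 3 - 1) + l ^ (2 * m) * d' := by
        rw [he]
        ring
      rw [e]
      refine Valuation.map_add_le _ (le_trans hs3 ?_) hld1
      rw [WithZero.exp_le_exp]
      norm_num
    · exfalso
      refine K24a_no hL (d' := (-1 : C)) (z := y) ?_ ?_
      · rw [neg_add_cancel, map_zero]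
        exact zero_lt_one
      · have e : y ^ 2 - -1 = (x ^ 3 - -1) + l ^ (2 * m) * d' := by
          rw [he]
          ring
        rw [e]
        exact Valuation.map_add_lt _ (l1_of_le (by norm_num) hs3) hldlt
  · left
    refine ⟨hx, ?_⟩
    have hx0 : x ≠ 0 := by
      rintro rfl
      rw [map_zero] at hx
      exact not_lt_zero hx
    obtain ⟨n, hn⟩ := K24a_exp (V := V) hx0
    have hn1 : 0 < n := by
      rw [hn, ← WithZero.exp_zero, WithZero.exp_lt_exp] at hx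
      exact hx
    have hx3 : V (x ^ 3) = WithZero.exp (3 * n) := by
      rw [map_pow, hn, K24a_pow]
      norm_num
    have hlt : V (l ^ (2 * m) * d') < V (x ^ 3) := by
      rw [hx3]
      refine lt_trans hldlt ?_
      rw [← WithZero.exp_zero, WithZero.exp_lt_exp]
      omega
    have hy2 : V (y ^ 2) = WithZero.exp (3 * n) := by
      rw [he, Valuation.map_add_eq_of_lt_left _ hlt, hx3]
    have hy0 : y ≠ 0 := by
      rintro rfl
      rw [zero_pow two_ne_zero, map_zero] at hy2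
      exact WithZero.exp_ne_zero hy2.symm
    obtain ⟨k, hk⟩ := K24a_exp (V := V) hy0
    rw [map_pow, hk, K24a_pow, WithZero.exp_inj] at hy2
    push_cast at hy2
    rw [hk, WithZero.exp_le_exp]
    omega

/-- [K24b] -/
theorem dir24_loc {C : Type} [Field C] {w : Valuation C (WithZero (Multiplicative ℤ))} {l ε : C} (hl : w l = WithZero.exp (-1 : ℤ))
    (hε : w ε = 1) (h3 : (3 : C) = ε * l ^ 2) {m : ℕ} (hm : m = 1 ∨ m = 2) {Y s : C} (hs : w s = 1) {η : ℤ} (hη : η = 1 ∨ η = -1)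
    (hY : w (Y - (η : C)) ≤ WithZero.exp (-2 : ℤ)) :
    w ((Y - l ^ m * s) / (Y + l ^ m * s)) = 1 ∧
      w (((Y - l ^ m * s) / (Y + l ^ m * s)) ^ 8 - (((Y - l ^ m * s) / (Y + l ^ m * s)) ^ 8)⁻¹ - (η : C) * l ^ m * s) ≤
        WithZero.exp (-3 : ℤ) := by
  have hη1 : w (η : C) = 1 := by
    rcases hη with rfl | rfl
    · rw [Int.cast_one, map_one]
    · rw [Int.cast_neg, Int.cast_one, Valuation.map_neg, map_one]
  have hη2 : (η : C) * (η : C) = 1 := by
    rcases hη with rfl | rfl <;> norm_num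
  have hY1 : w Y = 1 := l1_one_of hη1 (l1_of_le (by norm_num) hY)
  have hY0 : Y ≠ 0 := by
    intro h
    rw [h, map_zero] at hY1
    exact zero_ne_one hY1
  have hlm : w (l ^ m) ≤ WithZero.exp (-1 : ℤ) := by
    rw [map_pow, hl, ← WithZero.exp_nsmul, WithZero.exp_le_exp]
    rcases hm with rfl | rfl <;> norm_num
  have hR : w (l ^ m * s) ≤ WithZero.exp (-1 : ℤ) := by
    rw [map_mul, hs, mul_one]
    exact hlm
  set R : C := l ^ m * s with hRdef
  have he : w (-(R / Y)) ≤ WithZero.exp (-1 : ℤ) := by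
    rw [Valuation.map_neg, map_div₀, hY1, div_one]
    exact hR
  have he1 : w (-(R / Y)) < 1 := l1_of_le (by norm_num) he
  have h1e : w (1 - -(R / Y)) = 1 := by
    rw [Valuation.map_sub_eq_of_lt_left _ (by rw [map_one]; exact he1), map_one]
  have h2e : w (1 + -(R / Y)) = 1 := by
    rw [Valuation.map_add_eq_of_lt_left _ (by rw [map_one]; exact he1), map_one]
  have n1 : (1 - -(R / Y)) ≠ 0 := by
    intro h
    rw [h, map_zero] at h1e
    exact zero_ne_one h1e
  have n2 : (1 + -(R / Y)) ≠ 0 := by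
    intro h
    rw [h, map_zero] at h2e
    exact zero_ne_one h2e
  have hα : (Y - R) / (Y + R) = (1 + -(R / Y)) / (1 - -(R / Y)) := by
    have e1 : Y - R = Y * (1 + -(R / Y)) := by
      field_simp
      ring
    have e2 : Y + R = Y * (1 - -(R / Y)) := by
      field_simp
      ring
    rw [e1, e2, mul_div_mul_left _ _ hY0]
  have hL : (WithZero.exp (-1 : ℤ) : WithZero (Multiplicative ℤ)) < 1 := by
    rw [← WithZero.exp_zero, WithZero.exp_lt_exp]
    norm_num
  have hL3 : (WithZero.exp (-1 : ℤ) : WithZero (Multiplicative ℤ)) ^ 3 = WithZero.exp (-3 : ℤ) := by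
    rw [← WithZero.exp_nsmul]
    norm_num
  have hn : ∀ n : ℕ, w (n : C) ≤ 1 := fun n => by
    have := dt_int (w := w) (n : ℤ)
    rwa [Int.cast_natCast] at this
  have h33 : w (33 + ((η : C) * Y - 1)) ≤ WithZero.exp (-2 : ℤ) := by
    refine Valuation.map_add_le _ ?_ ?_
    · have e1 : (33 : C) = (11 : ℕ) * (ε * l ^ 2) := by
        rw [← h3]
        norm_num
      rw [e1, map_mul, map_mul, hε, one_mul, map_pow, hl, ← WithZero.exp_nsmul]
      refine (mul_le_of_le_one_left' (hn 11)).trans ?_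
      norm_num
    · have e1 : (η : C) * Y - 1 = (η : C) * (Y - (η : C)) := by
        rw [mul_sub, hη2]
      rw [e1, map_mul, hη1, one_mul]
      exact hY
  have ht : w (32 * (-(R / Y)) - (η : C) * l ^ m * s) ≤ WithZero.exp (-1 : ℤ) ^ 3 := by
    have e1 : 32 * (-(R / Y)) - (η : C) * l ^ m * s = -(R / Y) * (33 + ((η : C) * Y - 1)) := by
      have e2 : (η : C) * l ^ m * s = (η : C) * R := by rw [hRdef]; ring
      rw [e2]
      field_simp
      ring
    rw [e1, map_mul, hL3]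
    have e2 : (WithZero.exp (-3 : ℤ) : WithZero (Multiplicative ℤ)) = WithZero.exp (-1 : ℤ) * WithZero.exp (-2 : ℤ) := by
      rw [← WithZero.exp_add]
      norm_num
    rw [e2]
    exact mul_le_mul' he h33
  have key := f2_pure w hL hn he ht n1 n2
  rw [hα]
  refine ⟨?_, ?_⟩
  · rw [map_div₀, h1e, h2e, div_one]
  · rw [← hL3]
    exact key

theorem k24_quad {D' : Eis} {F : Type} [Field F] [NumberField F] [Algebra KK F] {r' : F} {τ : F ≃ₐ[KK] F}
    (hQ' : Quad D' r' τ) (m : ℕ) : Quad (la ^ (2 * m) * D') (jF F (la ^ m) * r') τ := by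
  refine ⟨hQ'.fr, ?_, ?_⟩
  · rw [mul_pow, hQ'.sq, map_mul, pow_mul', map_pow _ (la ^ m) 2]
  · rw [map_mul, tau_jF, hQ'.tau, mul_neg]

section
variable {D' : Eis} {F : Type} [Field F] [NumberField F] [Algebra KK F] {r' : F} {τ : F ≃ₐ[KK] F}
  (hD : D' ≠ 0) (hl : la ∣ D' + 1) (hQ' : Quad D' r' τ)
include hD hl hQ'

theorem k24_dir {m : ℕ} (hm : m = 1 ∨ m = 2) {L : Eis → Prop} (hL0 : L 0)
    (hL1 : ∀ η : ℤ, (η = 1 ∨ η = -1) → L ((η : Eis) * la ^ (m - 1))) :
    Dir (la ^ (2 * m) * D') (jF F (la ^ m) * r') τ (PL L r') := by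
  intro b hb hbt w hw h a k ha hak
  have hla : ¬ la ∣ D' := not_la_of hl
  have hl' : la ∣ D' - (-1) := by rwa [sub_neg_eq_add]
  have hla0 : la ≠ 0 := CU.la_prime.ne_zero
  have hD1 : la ^ (2 * m) * D' ≠ 0 := by
    have hdom := eis_isDomain
    exact mul_ne_zero (pow_ne_zero _ hla0) hD
  have hQ := k24_quad hQ' m
  set i := algebraMap F (w.adicCompletion F) with hi
  have hv : ∀ x : F, Valued.v (i x) = w.valuation F x :=
    fun x => HeightOneSpectrum.valuedAdicCompletion_eq_valuation' w x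
  rcases loc_red hD1 hQ w hw (conj_inv hD hQ' w hw hla hl') hb hbt h with h | h
  · obtain ⟨t, ht⟩ := h
    refine pl_of_unit hD hla hQ' w hw ha (α := 1) (G := t ^ 2 * i k) (q := 0) (map_one _) ?_ hL0 ?_
    · rw [hak, map_mul, map_pow, map_pow, ht]
      ring
    · rw [mul_zero, map_zero, zero_mul, map_zero, one_pow, inv_one, sub_self, sub_zero, map_zero]
      exact zero_le
  · obtain ⟨v, φ, x, y, g, hB, hg, he, hne, hbg⟩ := h
    have hval : ∀ x : v.adicCompletion KK, Valued.v (φ x) = Valued.v x :=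
      fun x => below_val hB hw hD hla hQ' x
    have hvi := l0b_ideal hB hw
    have hloc := e7a_loc hvi
    have hd : Valued.v (algebraMap KK (v.adicCompletion KK) (jK D') + 1) < (1 : WithZero (Multiplicative ℤ)) := by
      have e1 : algebraMap KK (v.adicCompletion KK) (jK D') + 1 = algebraMap KK (v.adicCompletion KK) (jK (D' + 1)) := by
        rw [map_add, map_add, map_one, map_one]
      rw [e1]
      have h2 : la ^ 1 ∣ D' + 1 := by rwa [pow_one]
      exact lt_of_le_of_lt ((e7a_le hvi 1 _).2 h2) l0b_lt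
    have he2 : y ^ 2 = x ^ 3 + (algebraMap KK (v.adicCompletion KK) (jK la)) ^ (2 * m) *
        algebraMap KK (v.adicCompletion KK) (jK D') := by
      rw [he]
      simp only [map_mul, map_pow]
    have hX3 : (φ y) ^ 2 = (φ x) ^ 3 + (i (jF F (la ^ m) * r')) ^ 2 := by
      rw [← map_pow φ, he, map_add, map_pow φ, ← map_pow i, hQ.sq]
      congr 1
      exact hB.comm (jK (la ^ (2 * m) * D'))
    set X := φ x with hX
    set Y := φ y with hY
    have hRS : i (jF F (la ^ m) * r') = (i (jF F la)) ^ m * i r' := by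
      rw [map_mul, map_pow, map_pow]
    set S := i r' with hS
    set l := i (jF F la) with hldef
    set R := i (jF F (la ^ m) * r') with hR
    have hvS : Valued.v S = (1 : WithZero (Multiplicative ℤ)) := by
      rw [hS, hv]
      exact (ov_D hla hQ' w hw).2
    have hvl : Valued.v l = (WithZero.exp (-1 : ℤ) : WithZero (Multiplicative ℤ)) := by
      rw [hldef, hv]
      exact ov_val hD hQ' hla w hw
    have hvR : Valued.v R ≤ (WithZero.exp (-1 : ℤ) : WithZero (Multiplicative ℤ)) := by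
      rw [hRS, map_mul, hvS, mul_one, map_pow, hvl, ← WithZero.exp_nsmul, WithZero.exp_le_exp]
      rcases hm with rfl | rfl <;> norm_num
    have hfin : ∀ q : Eis, L q → Valued.v ((Y - R) / (Y + R)) = (1 : WithZero (Multiplicative ℤ)) →
        Valued.v (((Y - R) / (Y + R)) ^ 8 - (((Y - R) / (Y + R)) ^ 8)⁻¹ - i (jF F (la * q) * r')) ≤ WithZero.exp (-3 : ℤ) →
        PL L r' a := by
      intro q hq h1 h2
      have hne2 : Y + R ≠ 0 := by
        intro h0
        rw [h0, div_zero, map_zero] at h1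
        exact zero_ne_one h1
      refine pl_of_unit hD hla hQ' w hw ha (α := (Y - R) / (Y + R)) (G := X * g ^ 2 * i k) (q := q) h1 ?_ hq h2
      rw [hak, map_mul, map_pow, map_pow, hbg]
      have e1 : (Y - R) ^ 2 = (Y - R) / (Y + R) * X ^ 3 := by
        have e2 : X ^ 3 = (Y - R) * (Y + R) := by linear_combination -hX3
        rw [e2]
        field_simp
      calc ((Y - R) * g ^ 3) ^ 2 * (i k) ^ 3 = (Y - R) ^ 2 * (g ^ 2 * i k) ^ 3 := by ring
        _ = (Y - R) / (Y + R) * X ^ 3 * (g ^ 2 * i k) ^ 3 := by rw [e1]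
        _ = (Y - R) / (Y + R) * (X * g ^ 2 * i k) ^ 3 := by ring
    rcases pt24 hloc hm hd he2 with ⟨-, h3⟩ | ⟨-, η, hη, h3⟩
    · rw [← hval y, ← hY] at h3
      have hY0 : Y ≠ 0 := by
        intro h0
        rw [h0, map_zero] at h3
        exact absurd h3 (not_le.2 (zero_lt_iff.2 WithZero.exp_ne_zero))
      have hvY0 : (Valued.v Y : WithZero (Multiplicative ℤ)) ≠ 0 := (Valuation.ne_zero_iff _).2 hY0
      have hRY : Valued.v (-(R / Y)) ≤ (WithZero.exp (-4 : ℤ) : WithZero (Multiplicative ℤ)) := by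
        rw [Valuation.map_neg, map_div₀, div_le_iff₀ (zero_lt_iff.2 hvY0)]
        refine hvR.trans ?_
        have e1 : (WithZero.exp (-1 : ℤ) : WithZero (Multiplicative ℤ)) = WithZero.exp (-4 : ℤ) * WithZero.exp (3 : ℤ) := by
          rw [← WithZero.exp_add]
          norm_num
        rw [e1]
        exact mul_le_mul_right h3 _
      have he1 : Valued.v (-(R / Y)) < (1 : WithZero (Multiplicative ℤ)) := l1_of_le (by norm_num) hRY
      have h1e : Valued.v (1 - -(R / Y)) = (1 : WithZero (Multiplicative ℤ)) := by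
        rw [Valuation.map_sub_eq_of_lt_left _ (by rw [map_one]; exact he1), map_one]
      have h2e : Valued.v (1 + -(R / Y)) = (1 : WithZero (Multiplicative ℤ)) := by
        rw [Valuation.map_add_eq_of_lt_left _ (by rw [map_one]; exact he1), map_one]
      have n1 : (1 - -(R / Y)) ≠ 0 := by
        intro h
        rw [h, map_zero] at h1e
        exact zero_ne_one h1e
      have n2 : (1 + -(R / Y)) ≠ 0 := by
        intro h
        rw [h, map_zero] at h2e
        exact zero_ne_one h2e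
      have hα : (Y - R) / (Y + R) = (1 + -(R / Y)) / (1 - -(R / Y)) := by
        have e1 : Y - R = Y * (1 + -(R / Y)) := by
          field_simp
          ring
        have e2 : Y + R = Y * (1 - -(R / Y)) := by
          field_simp
          ring
        rw [e1, e2, mul_div_mul_left _ _ hY0]
      have hL : (WithZero.exp (-1 : ℤ) : WithZero (Multiplicative ℤ)) < 1 := l0b_lt
      have hL3 : (WithZero.exp (-1 : ℤ) : WithZero (Multiplicative ℤ)) ^ 3 = WithZero.exp (-3 : ℤ) := by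
        rw [← WithZero.exp_nsmul]
        norm_num
      have hn : ∀ n : ℕ, Valued.v ((n : w.adicCompletion F)) ≤ (1 : WithZero (Multiplicative ℤ)) := fun n => by
        have := dt_int (w := (Valued.v : Valuation (w.adicCompletion F) (WithZero (Multiplicative ℤ)))) (n : ℤ)
        rwa [Int.cast_natCast] at this
      have hRY1 : Valued.v (-(R / Y)) ≤ (WithZero.exp (-1 : ℤ) : WithZero (Multiplicative ℤ)) :=
        hRY.trans (by rw [WithZero.exp_le_exp]; norm_num)
      have ht : Valued.v (32 * (-(R / Y)) - 0) ≤ (WithZero.exp (-1 : ℤ) : WithZero (Multiplicative ℤ)) ^ 3 := by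
        rw [sub_zero, hL3, map_mul]
        have h32 : Valued.v (32 : w.adicCompletion F) ≤ (1 : WithZero (Multiplicative ℤ)) := by exact_mod_cast hn 32
        refine (mul_le_of_le_one_left' h32).trans (hRY.trans ?_)
        rw [WithZero.exp_le_exp]
        norm_num
      have key := f2_pure _ hL hn hRY1 ht n1 n2
      refine hfin 0 hL0 ?_ ?_
      · rw [hα, map_div₀, h1e, h2e, div_one]
      · rw [hα, mul_zero, map_zero, zero_mul, map_zero, ← hL3]
        exact key
    · have h4 : Valued.v (Y - (η : w.adicCompletion F)) ≤ (WithZero.exp (-2 : ℤ) : WithZero (Multiplicative ℤ)) := by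
        have e1 : Y - (η : w.adicCompletion F) = φ (y - (η : v.adicCompletion KK)) := by
          rw [map_sub, map_intCast]
        rw [e1, hval]
        exact h3
      have hε : Valued.v (i (jF F (-om ^ 2))) = (1 : WithZero (Multiplicative ℤ)) := by
        have e1 : φ (algebraMap KK (v.adicCompletion KK) (jK (-om ^ 2))) = i (jF F (-om ^ 2)) := hB.comm (jK (-om ^ 2))
        rw [← e1, hval]
        exact hloc.heps
      have h33 : (3 : w.adicCompletion F) = i (jF F (-om ^ 2)) * l ^ 2 := by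
        rw [hldef, ← map_pow, ← map_pow, ← map_mul, ← map_mul, ← CU.three_eq, map_ofNat, map_ofNat]
      have h5 := dir24_loc hvl hε h33 hm hvS hη h4
      rw [← hRS] at h5
      refine hfin ((η : Eis) * la ^ (m - 1)) (hL1 η hη) h5.1 ?_
      have e1 : i (jF F (la * ((η : Eis) * la ^ (m - 1))) * r') = (η : w.adicCompletion F) * l ^ m * S := by
        have e2 : la * ((η : Eis) * la ^ (m - 1)) = (η : Eis) * la ^ m := by
          rcases hm with rfl | rfl
          · ring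
          · ring
        rw [e2, map_mul, map_mul, map_mul, map_intCast, map_intCast, map_pow, map_pow]
      rw [e1]
      exact h5.2

/-- [K24c] -/
theorem dir_2 : Dir (la ^ 2 * D') (jF F la * r') τ (PL (Lc 0) r') := by
  have h := k24_dir hD hl hQ' (m := 1) (Or.inl rfl) (L := Lc 0) ⟨0, by simp⟩ (fun η _ => ⟨η, by simp⟩)
  simpa using h

/-- [K24c] -/
theorem dir_4 : Dir (la ^ 4 * D') (jF F (la ^ 2) * r') τ (PL Li r') := by
  have h := k24_dir hD hl hQ' (m := 2) (Or.inr rfl) (L := Li) (dvd_zero _) (fun η _ => by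
    show la ∣ _
    simp)
  simpa using h

end

section k24d
open WithZero
variable {C : Type} [Field C] {w : Valuation C (WithZero (Multiplicative ℤ))} {l ε : C}

theorem k24d_T8 {x : C} (hx : w (x ^ 2 - 1) ≤ exp (-2 : ℤ)) (hx1 : w x ≤ 1) :
    w (T8 x - 1) ≤ exp (-2 : ℤ) := by
  have h1 : w (1 : C) ≤ exp (0 : ℤ) := by rw [map_one, exp_zero]
  have h2 : w (2 : C) ≤ exp (0 : ℤ) := e3_num 2
  have h32 : w (32 : C) ≤ exp (0 : ℤ) := e3_num 32
  have hx0 : w x ≤ exp (0 : ℤ) := e3_one hx1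
  have hx2 : w (x * x) ≤ exp (0 : ℤ) := e3_mul _ hx0 hx0 (by norm_num)
  have h3 : w (2 * (x * x) - 1) ≤ exp (0 : ℤ) := w.map_sub_le (e3_mul _ h2 hx2 (by norm_num)) h1
  have e : T8 x - 1 = (32 * (x * x)) * ((x ^ 2 - 1) * ((2 * (x * x) - 1) * (2 * (x * x) - 1))) := by
    unfold T8
    ring
  rw [e]
  exact e3_mul _ (e3_mul 0 h32 hx2 (by norm_num)) (e3_mul (-2) hx (e3_mul 0 h3 h3 (by norm_num)) (by norm_num)) (by norm_num)

theorem k24d_U7 {x : C} {k : ℤ} (hx : w (x - 1) ≤ exp k) (hx1 : w x ≤ 1) : w (U7 x - 8) ≤ exp k := by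
  have hx0 : w x ≤ exp (0 : ℤ) := e3_one hx1
  have hp : ∀ n : ℕ, w (x ^ n) ≤ exp (0 : ℤ) := fun n => by
    rw [map_pow, exp_zero]
    exact pow_le_one' hx1 n
  have hc : ∀ (c : ℤ) (n : ℕ), w ((c : C) * x ^ n) ≤ exp (0 : ℤ) := fun c n =>
    e3_mul _ (by rw [exp_zero]; exact dt_int c) (hp n) (by norm_num)
  have e : U7 x - 8 = (x - 1) * (((128 : ℤ) : C) * x ^ 6 + (((128 : ℤ) : C) * x ^ 5 + ((((-64 : ℤ) : C) * x ^ 4 +
      ((((-64 : ℤ) : C) * x ^ 3 + (((16 : ℤ) : C) * x ^ 2 + (((16 : ℤ) : C) * x ^ 1 + ((8 : ℤ) : C) * x ^ 0)))))))) := by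
    unfold U7
    push_cast
    ring
  rw [e]
  refine e3_mul _ hx (w.map_add_le (hc _ _) (w.map_add_le (hc _ _) (w.map_add_le (hc _ _) (w.map_add_le (hc _ _)
    (w.map_add_le (hc _ _) (w.map_add_le (hc _ _) (hc _ _))))))) (by norm_num)

end k24d

/-- [K24d] -/
theorem sol24 (v : HeightOneSpectrum (𝓞 KK)) {l ε d' u y : v.adicCompletion KK}
    (hL : Loc3 (Valued.v : Valuation (v.adicCompletion KK) (WithZero (Multiplicative ℤ))) l ε)
    (hε : Valued.v (ε + 1) < (1 : WithZero (Multiplicative ℤ))) {m : ℕ} (hm : m = 1 ∨ m = 2)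
    (hd : Valued.v (d' + 1) < (1 : WithZero (Multiplicative ℤ)))
    (h : u ^ 2 - y ^ 2 * d' = 1) (hT : Valued.v (T8 u - 1) < (1 : WithZero (Multiplicative ℤ))) (t : ℤ)
    (ht : Valued.v (2 * (y * U7 u) - (t : v.adicCompletion KK) * l ^ m) ≤ WithZero.exp (-3 : ℤ))
    {M : Type} [Field M] [Algebra (v.adicCompletion KK) M] {ρ ρ' : M} (hr : ρ' ^ 2 = algebraMap (v.adicCompletion KK) M d')
    (hρ : ρ = algebraMap (v.adicCompletion KK) M (l ^ m) * ρ') :
    LocSol (l ^ (2 * m) * d') ρ (algebraMap (v.adicCompletion KK) M u + algebraMap (v.adicCompletion KK) M y * ρ') := by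
  have hV2 := l1_two hL
  have hV3 := l1_three hL
  have hl0 : l ≠ 0 := by
    intro h0
    have h1 := hL.hl
    rw [h0, map_zero] at h1
    exact WithZero.exp_ne_zero h1.symm
  have hVd : Valued.v d' = (1 : WithZero (Multiplicative ℤ)) := by
    refine l1_one_of (y := -1) (by rw [Valuation.map_neg, map_one]) ?_
    rw [sub_neg_eq_add]
    exact hd
  have hΛ : Valued.v (l ^ m) ≤ (WithZero.exp (-1 : ℤ) : WithZero (Multiplicative ℤ)) := by
    rw [map_pow, hL.hl, ← WithZero.exp_nsmul, WithZero.exp_le_exp]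
    rcases hm with rfl | rfl <;> norm_num
  have hΛ2 : Valued.v (l ^ (2 * m)) ≤ (WithZero.exp (-2 : ℤ) : WithZero (Multiplicative ℤ)) := by
    rw [map_pow, hL.hl, ← WithZero.exp_nsmul, WithZero.exp_le_exp]
    rcases hm with rfl | rfl <;> norm_num
  set φ := algebraMap (v.adicCompletion KK) M with hφ
  have hlm0 : φ (l ^ m) ≠ 0 := (map_ne_zero φ).2 (pow_ne_zero m hl0)
  have hρm : ρ ∈ IntermediateField.adjoin (v.adicCompletion KK) {ρ} := IntermediateField.mem_adjoin_simple_self _ ρ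
  have hr' : ρ' ∈ IntermediateField.adjoin (v.adicCompletion KK) {ρ} := by
    have e : ρ' = ρ / φ (l ^ m) := by rw [hρ]; field_simp
    rw [e]
    exact div_mem hρm (algebraMap_mem _ _)
  have hadj : ∀ z ∈ IntermediateField.adjoin (v.adicCompletion KK) {ρ'}, z ∈ IntermediateField.adjoin (v.adicCompletion KK) {ρ} := by
    intro z hz
    exact (IntermediateField.adjoin_simple_le_iff.2 hr') hz
  have hmem : ∀ p q : v.adicCompletion KK, φ p + φ q * ρ' ∈ IntermediateField.adjoin (v.adicCompletion KK) {ρ'} := fun p q =>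
    add_mem (algebraMap_mem _ p) (mul_mem (algebraMap_mem _ q) (IntermediateField.mem_adjoin_simple_self _ ρ'))
  obtain ⟨hα8, hPQ⟩ := e3x_pow8 φ hr h
  obtain ⟨P, hPd⟩ : ∃ P : v.adicCompletion KK, P = T8 u := ⟨_, rfl⟩
  obtain ⟨Q, hQd⟩ : ∃ Q : v.adicCompletion KK, Q = y * U7 u := ⟨_, rfl⟩
  rw [← hPd, ← hQd] at hα8 hPQ
  rw [← hQd] at ht
  rw [← hPd] at hT
  have hα0 : φ u + φ y * ρ' ≠ 0 := by
    intro h0
    have h2 : φ u ^ 2 - φ y ^ 2 * φ d' = 1 := by
      have := congrArg φ h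
      simpa only [map_sub, map_mul, map_pow, map_one] using this
    have h1 : (φ u + φ y * ρ') * (φ u - φ y * ρ') = 1 := by
      linear_combination h2 - (φ y ^ 2) * hr
    rw [h0, zero_mul] at h1
    exact zero_ne_one h1
  by_cases h3 : (3 : ℤ) ∣ t
  · -- the class is a cube
    obtain ⟨hq, -⟩ := e3x_est hL hVd (P := P) (Q := Q) (P₂ := 1) (Q₂ := 0) (t := t) (t₂ := 0) hΛ ht (by
      rw [mul_zero, Int.cast_zero, zero_mul, sub_zero, map_zero]
      exact zero_le) (by rw [add_zero]; exact h3) hPQ hT (by rw [sub_self, map_zero]; exact zero_le)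
    have e : P * 0 + 1 * Q = Q := by ring
    rw [e] at hq
    have hs := sol_la v hL hε hd hT hq hPQ
    obtain ⟨γ, hγ, hγ3⟩ := e3x_cube hr hPQ hs hα8 hα0 (hmem u y)
    exact Or.inl ⟨γ, hadj γ hγ, hγ3⟩
  -- the class of a point `(1, ± y₀)`
  obtain ⟨y₀, hy₀, hy₀'⟩ := sqrt_one v hV2 (x := 1 + l ^ (2 * m) * d') (by
    have h1 : 1 + l ^ (2 * m) * d' - 1 = l ^ (2 * m) * d' := by ring
    rw [h1, map_mul, hVd, mul_one]
    exact l1_of_le (by norm_num) hΛ2)
  obtain ⟨σ, hσ, hσt⟩ : ∃ σ : ℤ, (σ = 1 ∨ σ = -1) ∧ (3 : ℤ) ∣ t + -σ := by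
    have h4 : t % 3 = 1 ∨ t % 3 = 2 := by omega
    rcases h4 with h6 | h6
    · exact ⟨1, Or.inl rfl, by omega⟩
    · exact ⟨-1, Or.inr rfl, by omega⟩
  have hVy₀ : Valued.v y₀ = (1 : WithZero (Multiplicative ℤ)) := l1_one_of (map_one _) hy₀'
  have hVy₀1 : Valued.v (y₀ + 1) = (1 : WithZero (Multiplicative ℤ)) := by
    refine l1_one_of hV2 ?_
    have e : y₀ + 1 - 2 = y₀ - 1 := by ring
    rw [e]
    exact hy₀'
  have hsq : Valued.v (y₀ ^ 2 - 1) ≤ (WithZero.exp (-2 : ℤ) : WithZero (Multiplicative ℤ)) := by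
    have e : y₀ ^ 2 - 1 = l ^ (2 * m) * d' := by rw [hy₀]; ring
    rw [e, map_mul, hVd, mul_one]
    exact hΛ2
  have hm1 : Valued.v (y₀ - 1) ≤ (WithZero.exp (-2 : ℤ) : WithZero (Multiplicative ℤ)) := by
    have e : y₀ ^ 2 - 1 = (y₀ - 1) * (y₀ + 1) := by ring
    rw [e, map_mul, hVy₀1, mul_one] at hsq
    exact hsq
  have hσ2 : (σ : v.adicCompletion KK) ^ 2 = 1 := by
    rcases hσ with rfl | rfl
    · push_cast; ring
    · push_cast; ring
  have hVσ : Valued.v (σ : v.adicCompletion KK) = (1 : WithZero (Multiplicative ℤ)) := by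
    rcases hσ with rfl | rfl
    · rw [Int.cast_one, map_one]
    · rw [Int.cast_neg, Int.cast_one, Valuation.map_neg, map_one]
  have hlm2 : (l ^ m) ^ 2 = l ^ (2 * m) := by rw [← pow_mul, mul_comm]
  have hAB : y₀ ^ 2 - (-((σ : v.adicCompletion KK) * l ^ m)) ^ 2 * d' = 1 := by
    rw [neg_sq, mul_pow, hσ2, one_mul, hlm2, hy₀]
    ring
  obtain ⟨hθ8, hPQ2⟩ := e3x_pow8 φ hr hAB
  have hT2 := k24d_T8 hsq hVy₀.le
  have hU := k24d_U7 hm1 hVy₀.le
  obtain ⟨P₂, hP2d⟩ : ∃ P₂ : v.adicCompletion KK, P₂ = T8 y₀ := ⟨_, rfl⟩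
  obtain ⟨Q₂, hQ2d⟩ : ∃ Q₂ : v.adicCompletion KK, Q₂ = -((σ : v.adicCompletion KK) * l ^ m) * U7 y₀ := ⟨_, rfl⟩
  rw [← hP2d, ← hQ2d] at hθ8 hPQ2
  rw [← hP2d] at hT2
  have hU2 : Valued.v (2 * Q₂ - ((-σ : ℤ) : v.adicCompletion KK) * l ^ m) ≤ (WithZero.exp (-3 : ℤ) : WithZero (Multiplicative ℤ)) := by
    have e : 2 * Q₂ - ((-σ : ℤ) : v.adicCompletion KK) * l ^ m =
        (-((σ : v.adicCompletion KK) * l ^ m)) * (2 * (U7 y₀ - 8) + 3 * 5) := by
      rw [hQ2d]
      push_cast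
      ring
    rw [e]
    refine e3_mul (m := -1) (n := -2) _ ?_ ?_ (by norm_num)
    · rw [Valuation.map_neg, map_mul, hVσ, one_mul]
      exact hΛ
    · exact Valuation.map_add_le _ (e3_mul _ (e3_num 2) hU (by norm_num)) (e3_mul _ (e3x_three hL) (e3_num 5) (by norm_num))
  obtain ⟨hest1, hest2⟩ := e3x_est hL hVd hΛ ht hU2 hσt hPQ hT hT2
  have hN : (P * P₂ + Q * Q₂ * d') ^ 2 - (P * Q₂ + P₂ * Q) ^ 2 * d' = 1 := by
    linear_combination (P₂ ^ 2 - Q₂ ^ 2 * d') * hPQ + hPQ2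
  have hs := sol_la v hL hε hd hest2 hest1 hN
  obtain ⟨α, hα⟩ : ∃ α : M, α = φ u + φ y * ρ' := ⟨_, rfl⟩
  obtain ⟨θ, hθ⟩ : ∃ θ : M, θ = φ y₀ + φ (-((σ : v.adicCompletion KK) * l ^ m)) * ρ' := ⟨_, rfl⟩
  rw [← hα] at hα8 hα0
  rw [← hθ] at hθ8
  have hσφ : φ (σ : v.adicCompletion KK) = (σ : M) := map_intCast φ σ
  have hθρ : θ = φ y₀ - (σ : M) * ρ := by
    rw [hθ, hρ, map_neg, map_mul, hσφ]
    ring
  have hσM : (σ : M) ^ 2 = 1 := by
    have := congrArg φ hσ2
    rwa [map_pow, hσφ, map_one] at this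
  have hρ2 : ρ ^ 2 = φ (l ^ (2 * m)) * φ d' := by
    rw [hρ, mul_pow, hr, ← map_pow, hlm2]
  have hy₀M : φ y₀ ^ 2 = 1 + φ (l ^ (2 * m)) * φ d' := by
    have := congrArg φ hy₀
    simpa only [map_add, map_mul, map_pow, map_one] using this
  have hθi : θ * (φ y₀ + (σ : M) * ρ) = 1 := by
    rw [hθρ]
    linear_combination hy₀M - hρ2 - ρ ^ 2 * hσM
  have hθ0 : θ ≠ 0 := left_ne_zero_of_mul (by rw [hθi]; exact one_ne_zero)
  have hθα : θ * α ≠ 0 := mul_ne_zero hθ0 hα0
  have h8 : (θ * α) ^ 8 = φ (P * P₂ + Q * Q₂ * d') + φ (P * Q₂ + P₂ * Q) * ρ' := by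
    rw [mul_pow, hθ8, hα8]
    simp only [map_add, map_mul]
    linear_combination (φ Q * φ Q₂) * hr
  have hθm : θ ∈ IntermediateField.adjoin (v.adicCompletion KK) {ρ'} := by
    rw [hθ]
    exact hmem _ _
  have hαm : α ∈ IntermediateField.adjoin (v.adicCompletion KK) {ρ'} := by
    rw [hα]
    exact hmem u y
  obtain ⟨γ, hγ, hγ3⟩ := e3x_cube hr hN hs h8 hθα (mul_mem hθm hαm)
  have hγ0 : γ ≠ 0 := by
    rintro rfl
    rw [zero_pow three_ne_zero] at hγ3
    exact hθα hγ3.symm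
  have hγm := hadj γ hγ
  have hinv : φ y₀ + (σ : M) * ρ = α * (γ⁻¹) ^ 3 := by
    rw [inv_pow, hγ3]
    field_simp
    linear_combination hθi
  rw [← hα]
  right
  rcases hσ with hσ1 | hσ1
  · -- the point `(1, -y₀)`
    have e1 : φ (-y₀) - ρ = -(φ y₀ + (σ : M) * ρ) := by
      rw [hσ1, map_neg, Int.cast_one]
      ring
    refine ⟨1, -y₀, -γ⁻¹, neg_mem (inv_mem hγm), neg_ne_zero.2 (inv_ne_zero hγ0), ?_, ?_, ?_⟩
    · rw [neg_sq, hy₀]
      ring
    · rw [← hφ, e1]
      exact neg_ne_zero.2 (right_ne_zero_of_mul (a := θ) (by rw [hθi]; exact one_ne_zero))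
    · rw [← hφ, e1, hinv]
      ring
  · have e1 : φ y₀ - ρ = φ y₀ + (σ : M) * ρ := by
      rw [hσ1]
      push_cast
      ring
    refine ⟨1, y₀, γ⁻¹, inv_mem hγm, inv_ne_zero hγ0, ?_, ?_, ?_⟩
    · rw [hy₀]
      ring
    · rw [← hφ, e1]
      exact right_ne_zero_of_mul (a := θ) (by rw [hθi]; exact one_ne_zero)
    · rw [← hφ, e1, hinv]

section
variable {D' : Eis} {F : Type} [Field F] [NumberField F] [Algebra KK F] {r' : F} {τ : F ≃ₐ[KK] F}
  (hD : D' ≠ 0) (hl : la ∣ D' + 1) (hQ' : Quad D' r' τ)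
include hD hl hQ'

theorem k24_conv {m : ℕ} (hm : m = 1 ∨ m = 2) {L : Eis → Prop}
    (hL : ∀ q : Eis, L q → ∃ t : ℤ, la ^ 3 ∣ la * q - (t : Eis) * la ^ m) :
    Conv (la ^ (2 * m) * D') (jF F (la ^ m) * r') τ (PL L r') := by
  intro a u y ha hP huy v hv M _ _ ρ hρ
  have hla : ¬ la ∣ D' := not_la_of hl
  have hloc := e7a_loc hv
  have huy' : a = algebraMap KK F u + algebraMap KK F (y * jK (la ^ m)) * r' := by
    rw [huy, map_mul, ← jF_apply]
    ring
  obtain ⟨hu0, hy0, hT0, q, hq, hq0⟩ := lam_la hD hla hQ' ha hP huy' v hv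
  obtain ⟨t, ht0⟩ := hL q hq
  have ht1 : v.valuation KK (2 * ((y * jK (la ^ m)) * U7 u) - jK ((t : Eis) * la ^ m)) ≤ WithZero.exp (-3 : ℤ) := by
    have e : 2 * ((y * jK (la ^ m)) * U7 u) - jK ((t : Eis) * la ^ m) =
        (2 * ((y * jK (la ^ m)) * U7 u) - jK (la * q)) + jK (la * q - (t : Eis) * la ^ m) := by
      rw [map_sub]
      ring
    rw [e]
    refine Valuation.map_add_le _ hq0 ?_
    have h5 := (e7a_le hv 3 _).2 ht0
    have h6 : Valued.v (algebraMap KK (v.adicCompletion KK) (jK (la * q - (t : Eis) * la ^ m))) =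
        v.valuation KK (jK (la * q - (t : Eis) * la ^ m)) := HeightOneSpectrum.valuedAdicCompletion_eq_valuation' v _
    rw [h6] at h5
    exact h5
  set V : Valuation (v.adicCompletion KK) (WithZero (Multiplicative ℤ)) := Valued.v with hV
  set i := algebraMap KK (v.adicCompletion KK) with hi
  have hval : ∀ x : KK, V (i x) = v.valuation KK x := fun x =>
    HeightOneSpectrum.valuedAdicCompletion_eq_valuation' v x
  have hT : V (T8 (i u) - 1) < 1 := by
    have e1 : T8 (i u) - 1 = i (T8 u - 1) := by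
      rw [map_sub, map_one]
      exact congrArg (fun z => z - 1) (e7x_T8 i u)
    rw [e1, hval]
    exact hT0
  have hε : V (i (jK (-om ^ 2)) + 1) < 1 := by
    have h1 : i (jK (-om ^ 2)) + 1 = i (jK (-om ^ 2 + 1)) := by
      rw [map_add, map_add, map_one, map_one]
    rw [h1]
    have h2 : la ^ 1 ∣ (-om ^ 2 + 1 : Eis) := by
      refine ⟨1 + om, ?_⟩
      rw [pow_one]
      show (-om ^ 2 + 1 : Eis) = (1 - om) * (1 + om)
      ring
    have h3 := (e7a_le hv 1 _).2 h2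
    exact lt_of_le_of_lt h3 l0b_lt
  have hd : V (i (jK D') + 1) < 1 := by
    have e1 : i (jK D') + 1 = i (jK (D' + 1)) := by
      rw [map_add, map_add, map_one, map_one]
    rw [e1]
    have h2 : la ^ 1 ∣ D' + 1 := by rwa [pow_one]
    exact lt_of_le_of_lt ((e7a_le hv 1 _).2 h2) l0b_lt
  have hnorm : (i u) ^ 2 - (i y * i (jK la) ^ m) ^ 2 * i (jK D') = 1 := by
    have := congrArg i (lam_norm hQ' ha.1 huy')
    simpa only [map_sub, map_mul, map_pow, map_one] using this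
  have ht : V (2 * ((i y * i (jK la) ^ m) * U7 (i u)) - (t : v.adicCompletion KK) * i (jK la) ^ m) ≤
      WithZero.exp (-3 : ℤ) := by
    have e1 : 2 * ((i y * i (jK la) ^ m) * U7 (i u)) - (t : v.adicCompletion KK) * i (jK la) ^ m =
        i (2 * ((y * jK (la ^ m)) * U7 u) - jK ((t : Eis) * la ^ m)) := by
      have e2 : U7 (i u) = i (U7 u) := e7x_U7 i u
      rw [e2]
      simp only [map_sub, map_mul, map_pow, map_ofNat, map_intCast]
    rw [e1, hval]
    exact ht1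
  have hl0 : i (jK la) ≠ 0 := by
    intro h0
    have h1 := hloc.hl
    rw [h0, map_zero] at h1
    exact WithZero.exp_ne_zero h1.symm
  set f := algebraMap (v.adicCompletion KK) M with hf
  have hlm0 : f (i (jK la) ^ m) ≠ 0 := (map_ne_zero f).2 (pow_ne_zero _ hl0)
  have hD2 : i (jK (la ^ (2 * m) * D')) = i (jK la) ^ (2 * m) * i (jK D') := by
    simp only [map_mul, map_pow]
  rw [hD2] at hρ
  have hr : (ρ / f (i (jK la) ^ m)) ^ 2 = f (i (jK D')) := by
    rw [div_pow, hρ, div_eq_iff (pow_ne_zero _ hlm0), map_mul, ← map_pow f, mul_comm]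
    congr 2
    ring
  have hρ2 : ρ = f (i (jK la) ^ m) * (ρ / f (i (jK la) ^ m)) := by
    rw [mul_div_cancel₀ _ hlm0]
  have key := sol24 v hloc hε hm hd hnorm hT t ht hr hρ2
  rw [hD2]
  have e3 : f (i u) + f (i y * i (jK la) ^ m) * (ρ / f (i (jK la) ^ m)) = f (i u) + f (i y) * ρ := by
    rw [map_mul f, mul_assoc, ← hρ2]
  rw [← hf, e3] at key
  exact key

/-- [K24e] -/
theorem conv_2 : Conv (la ^ 2 * D') (jF F la * r') τ (PL (Lc 0) r') := by
  have h := k24_conv hD hl hQ' (m := 1) (Or.inl rfl) (L := Lc 0) (fun q ⟨t, c, hc⟩ => ⟨t, c, by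
    rw [Int.cast_zero, zero_mul, add_zero, mul_one] at hc
    linear_combination la * hc⟩)
  simpa using h

/-- [K24e] -/
theorem conv_4 : Conv (la ^ 4 * D') (jF F (la ^ 2) * r') τ (PL Li r') := by
  have h := k24_conv hD hl hQ' (m := 2) (Or.inr rfl) (L := Li) (fun q ⟨q₁, hq₁⟩ => by
    obtain ⟨t, -, b, hb⟩ := pac_digit q₁
    refine ⟨t, b, ?_⟩
    rw [hq₁, hb]
    ring)
  simpa using h

end

end JG
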