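import Pool.Agent.JG.B3
import Pool.Agent.JXD.E6

/-!
# [JG-E6] the elements of `LamP` at the split places of `KK`
-/

set_option autoImplicit false

open NumberField IsDedekindDomain
open scoped Classical

namespace JG

open CM27 CF JZ JX JXD
open JD hiding G5b_unit G5b_val LCW_ED below_val descent det_unit disc_eq eis_cube entire_ED exists_H exists_basis exists_cj exists_den exists_int exists_kappa exists_ov exists_phiE exists_quad exists_u0 final_of finite_of_phiE finprod_neron finprod_tam finrank_KD fix_int fix_of_two g4a_exp g4a_le g4a_norm g4a_one g4a_split g4b_place g5a_norm g5a_tau g5a_three g5a_unit int_KK int_jF int_r jr_inj kk_cube m1_cube min_all n5_gen ne_of_cl not_three ov_D ov_eight ov_mem ov_trans ov_val period_ED place_cases q3a_dvd_lt q3a_la_sq q3a_le q3a_sq_lt q3b_ext q3b_int q3b_le q3b_neg q3b_pos q3b_pos_iff q3b_sq q3b_tau q3b_three q4b_crt q5_coe q5_den quot_all quot_eq s5b_not_la sha_zero step tam_la tam_one tau_jF val_prime z1_norm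
open CU (la om eE)

section
variable {D : Eis} {F : Type} [Field F] [NumberField F] [Algebra KK F] {r : F} {τ : F ≃ₐ[KK] F} {P : F → Prop}
  {α : F} {u y : KK}

theorem lam_norm (hQ : Quad D r τ) (hα : α * τ α = 1) (huy : α = algebraMap KK F u + algebraMap KK F y * r) :
    u ^ 2 - y ^ 2 * jK D = 1 := by
  have h1 := hα
  rw [huy, map_add, map_mul, τ.commutes, τ.commutes, hQ.tau] at h1
  apply (algebraMap KK F).injective
  rw [map_sub, map_pow, map_mul, map_pow, map_one, ← jF_apply, ← hQ.sq]
  linear_combination h1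

theorem split_val (hD : D ≠ 0) (hQ : Quad D r τ) (hα : LamP τ P α) (huy : α = algebraMap KK F u + algebraMap KK F y * r)
    (v : HeightOneSpectrum (𝓞 KK)) {s : v.adicCompletion KK} (hs : s ^ 2 = algebraMap KK (v.adicCompletion KK) (jK D)) :
    ∃ γ : WithZero (Multiplicative ℤ), Valued.v (algebraMap KK (v.adicCompletion KK) u +
      algebraMap KK (v.adicCompletion KK) y * s) = γ ^ 3 := by
  have hD0 : D ≠ 0 := hD
  obtain ⟨i, hi⟩ := e6b_hom hD0 hQ hs
  have hi' : ∀ x : KK, i (algebraMap KK F x) = algebraMap KK (v.adicCompletion KK) x := by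
    intro x
    have h := hi x 0
    rw [map_zero, zero_mul, add_zero, map_zero, zero_mul, add_zero] at h
    exact h
  obtain ⟨w, hw⟩ := e6b_place v i hi'
  have hw1 : ∀ z : F, w.valuation F z = 1 → Valued.v (i z) = (1 : WithZero (Multiplicative ℤ)) := by
    intro z hz
    have hz0 : z ≠ 0 := by
      rintro rfl
      rw [map_zero] at hz
      exact zero_ne_one hz
    refine le_antisymm (hw z hz.le) ?_
    have h1 := hw z⁻¹ (by rw [map_inv₀, hz, inv_one])
    rw [map_inv₀, map_inv₀] at h1
    have h0 : (Valued.v (i z) : WithZero (Multiplicative ℤ)) ≠ 0 :=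
      (Valuation.ne_zero_iff _).2 ((map_ne_zero i).2 hz0)
    exact (inv_le_one₀ (zero_lt_iff.2 h0)).1 h1
  have hα0 : α ≠ 0 := by
    rintro rfl
    have h := hα.1
    rw [zero_mul] at h
    exact zero_ne_one h
  obtain ⟨g, hg⟩ := hα.2.1 w
  have hg0 : g ≠ 0 := by
    rintro rfl
    rw [zero_pow (by norm_num : (3 : ℕ) ≠ 0)] at hg
    exact hα0 ((map_eq_zero _).1 hg)
  obtain ⟨π, hπ⟩ := w.valuation_surjective F g
  have hπ0 : π ≠ 0 := by
    rintro rfl
    rw [map_zero] at hπ
    exact hg0 hπ.symm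
  have h1 : w.valuation F (α / π ^ 3) = 1 := by
    rw [map_div₀, map_pow, hg, hπ, div_self (pow_ne_zero _ hg0)]
  refine ⟨Valued.v (i π), ?_⟩
  have h2 := hw1 _ h1
  have h3 : α = α / π ^ 3 * π ^ 3 := by
    rw [div_mul_cancel₀ _ (pow_ne_zero _ hπ0)]
  rw [← hi, ← huy, h3, map_mul, map_mul, h2, one_mul, map_pow, map_pow]

end

end JG
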