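import Pool.Agent.JG.E5
import Pool.Agent.JG.E6

/-!
# [JG-E7] the class of an element of `LamP` comes from a point at every place
-/

set_option autoImplicit false

open NumberField IsDedekindDomain
open scoped Classical

namespace JG

open CM27 CF JZ JX JXD
open JD hiding G5b_unit G5b_val LCW_ED below_val descent det_unit disc_eq eis_cube entire_ED exists_H exists_basis exists_cj exists_den exists_int exists_kappa exists_ov exists_phiE exists_quad exists_u0 final_of finite_of_phiE finprod_neron finprod_tam finrank_KD fix_int fix_of_two g4a_exp g4a_le g4a_norm g4a_one g4a_split g4b_place g5a_norm g5a_tau g5a_three g5a_unit int_KK int_jF int_r jr_inj kk_cube m1_cube min_all n5_gen ne_of_cl not_three ov_D ov_eight ov_mem ov_trans ov_val period_ED place_cases q3a_dvd_lt q3a_la_sq q3a_le q3a_sq_lt q3b_ext q3b_int q3b_le q3b_neg q3b_pos q3b_pos_iff q3b_sq q3b_tau q3b_three q4b_crt q5_coe q5_den quot_all quot_eq s5b_not_la sha_zero step tam_la tam_one tau_jF val_prime z1_norm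
open CU (la om eE)

theorem v_three {v : HeightOneSpectrum (𝓞 KK)} (hv : v.asIdeal ≠ Ideal.span {eE la}) :
    Valued.v (3 : v.adicCompletion KK) = (1 : WithZero (Multiplicative ℤ)) := by
  have e : (3 : v.adicCompletion KK) = algebraMap KK (v.adicCompletion KK) (jK 3) := by
    rw [map_ofNat, map_ofNat]
  have hint : ∀ a : Eis, v.valuation KK (jK a) ≤ 1 := fun a => by
    rw [jK_apply]
    exact v.valuation_le_one _
  have hla : v.valuation KK (jK la) = 1 := by
    refine le_antisymm (hint la) (not_lt.1 fun h1 => hv ?_)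
    rw [jK_apply] at h1
    have h2 : (eE la : 𝓞 KK) ∈ v.asIdeal := (v.valuation_lt_one_iff_mem (K := KK) _).1 h1
    have hmax : (Ideal.span {(eE la : 𝓞 KK)}).IsMaximal := by
      have hpid : IsPrincipalIdealRing (𝓞 KK) := by
        have : IsPrincipalIdealRing Eis := eis_pid
        exact IsPrincipalIdealRing.of_surjective (eE : Eis →+* 𝓞 KK) eE.surjective
      have hp : Prime (eE la : 𝓞 KK) := (MulEquiv.prime_iff eE.toMulEquiv).2 CU.la_prime
      exact PrincipalIdealRing.isMaximal_of_irreducible hp.irreducible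
    exact (hmax.eq_of_le v.isPrime.ne_top ((Ideal.span_singleton_le_iff_mem _).2 h2)).symm
  have hom : v.valuation KK (jK (-om ^ 2)) = 1 := by
    have h1 : (-om ^ 2 : Eis) * (-om) = 1 := by
      have : om ^ 3 = 1 := CU.om_cube
      linear_combination this
    refine le_antisymm (hint _) (not_lt.1 fun h2 => ?_)
    have h3 := congrArg (fun a : Eis => v.valuation KK (jK a)) h1
    simp only [map_mul, map_one] at h3
    exact absurd h3 (mul_lt_one_of_lt_of_le h2 (hint _)).ne
  have hval : Valued.v (algebraMap KK (v.adicCompletion KK) (jK 3)) = v.valuation KK (jK 3) :=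
    HeightOneSpectrum.valuedAdicCompletion_eq_valuation' v _
  rw [e, hval, CU.three_eq, map_mul, map_pow jK la 2, map_mul, map_pow _ _ 2, hla, hom]
  norm_num

section
variable {D : Eis} {F : Type} [Field F] [NumberField F] [Algebra KK F] {r : F} {τ : F ≃ₐ[KK] F} {P : F → Prop}
  {α : F} {u y : KK}

theorem locSol_all (hD : D ≠ 0) (hV : ClV D) (hQ : Quad D r τ) (hconv : Conv D r τ P) (hα : LamP τ P α)
    (huy : α = algebraMap KK F u + algebraMap KK F y * r) (v : HeightOneSpectrum (𝓞 KK))
    {M : Type} [Field M] [Algebra (v.adicCompletion KK) M] {ρ : M}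
    (hρ : ρ ^ 2 = algebraMap (v.adicCompletion KK) M (algebraMap KK (v.adicCompletion KK) (jK D))) :
    LocSol (algebraMap KK (v.adicCompletion KK) (jK D)) ρ
      (algebraMap (v.adicCompletion KK) M (algebraMap KK (v.adicCompletion KK) u) +
        algebraMap (v.adicCompletion KK) M (algebraMap KK (v.adicCompletion KK) y) * ρ) := by
  by_cases hv : v.asIdeal = Ideal.span {eE la}
  · exact hconv α u y ⟨hα.1, hα.2.2.1⟩ hα.2.2.2 huy v hv M ρ hρ
  have h3 := v_three hv
  have hn := lam_norm hQ hα.1 huy
  have hd0 : algebraMap KK (v.adicCompletion KK) (jK D) ≠ 0 := by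
    intro h0
    exact hD (jK_inj (((map_eq_zero _).1 h0).trans (map_zero jK).symm))
  have hn' : (algebraMap KK (v.adicCompletion KK) u) ^ 2 - (algebraMap KK (v.adicCompletion KK) y) ^ 2 *
      algebraMap KK (v.adicCompletion KK) (jK D) = 1 := by
    have h1 := congrArg (algebraMap KK (v.adicCompletion KK)) hn
    simpa only [map_sub, map_mul, map_pow, map_one] using h1
  by_cases hsq : ∃ s : v.adicCompletion KK, s ^ 2 = algebraMap KK (v.adicCompletion KK) (jK D)
  · obtain ⟨s₀, hs₀⟩ := hsq
    obtain ⟨s, hs, hsρ⟩ : ∃ s : v.adicCompletion KK, s ^ 2 = algebraMap KK (v.adicCompletion KK) (jK D) ∧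
        ρ = algebraMap (v.adicCompletion KK) M s := by
      have h4 : ρ ^ 2 = (algebraMap (v.adicCompletion KK) M s₀) ^ 2 := by rw [hρ, ← map_pow, hs₀]
      rcases sq_eq_sq_iff_eq_or_eq_neg.1 h4 with h5 | h5
      · exact ⟨s₀, hs₀, h5⟩
      · exact ⟨-s₀, by rw [neg_sq]; exact hs₀, by rw [h5, map_neg]⟩
    have hs0 : s ≠ 0 := by
      rintro rfl
      rw [zero_pow two_ne_zero] at hs
      exact hd0 hs.symm
    have ha : algebraMap KK (v.adicCompletion KK) u + algebraMap KK (v.adicCompletion KK) y * s ≠ 0 := by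
      intro h0
      have h1 : (algebraMap KK (v.adicCompletion KK) u + algebraMap KK (v.adicCompletion KK) y * s) *
          (algebraMap KK (v.adicCompletion KK) u - algebraMap KK (v.adicCompletion KK) y * s) = 1 := by
        rw [← hn', ← hs]
        ring
      rw [h0, zero_mul] at h1
      exact zero_ne_one h1
    have hav := split_val hD hQ hα huy v hs
    have hcomb : algebraMap (v.adicCompletion KK) M (algebraMap KK (v.adicCompletion KK) u) +
        algebraMap (v.adicCompletion KK) M (algebraMap KK (v.adicCompletion KK) y) * ρ =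
        algebraMap (v.adicCompletion KK) M (algebraMap KK (v.adicCompletion KK) u +
          algebraMap KK (v.adicCompletion KK) y * s) := by
      rw [hsρ, map_add, map_mul]
    rw [hcomb]
    rcases sol_splitG v h3 hs hs0 (hV v s hs) ha hav with ⟨g, hg⟩ | ⟨x', y', g, hg0, hE, hne, hyg⟩
    · left
      exact ⟨algebraMap _ M g, algebraMap_mem _ g, by rw [← map_pow, hg]⟩
    · right
      refine ⟨x', y', algebraMap _ M g, algebraMap_mem _ g, (map_ne_zero _).2 hg0, hE, ?_, ?_⟩
      · rw [hsρ, ← map_sub]
        exact (map_ne_zero _).2 hne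
      · rw [hsρ, ← map_sub, hyg, map_mul, map_pow]
  · exact locSol_of_sol3 hρ hn' (sol_nonsq v h3 hsq hn')

end

end JG
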