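import Pool.Agent.JG.K0x
import Pool.Agent.JG.E7

/-!
# [JG-K0y] `D` prime to `λ`, `D ≢ ± 1 mod 3`: classes on the line come from local points
-/

set_option autoImplicit false

open NumberField IsDedekindDomain
open scoped Classical

namespace JG

open CM27 CF JZ JX JXD
open JD hiding G5b_unit G5b_val LCW_ED below_val descent det_unit disc_eq eis_cube entire_ED exists_H exists_basis exists_cj exists_den exists_int exists_kappa exists_ov exists_phiE exists_quad exists_u0 final_of finite_of_phiE finprod_neron finprod_tam finrank_KD fix_int fix_of_two g4a_exp g4a_le g4a_norm g4a_one g4a_split g4b_place g5a_norm g5a_tau g5a_three g5a_unit int_KK int_jF int_r jr_inj kk_cube m1_cube min_all n5_gen ne_of_cl not_three ov_D ov_eight ov_mem ov_trans ov_val period_ED place_cases q3a_dvd_lt q3a_la_sq q3a_le q3a_sq_lt q3b_ext q3b_int q3b_le q3b_neg q3b_pos q3b_pos_iff q3b_sq q3b_tau q3b_three q4b_crt q5_coe q5_den quot_all quot_eq s5b_not_la sha_zero step tam_la tam_one tau_jF val_prime z1_norm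
open CU (la om eE)
open CUD (IsCube)

/-- the digits at the place `(la)` -/
theorem e7x_dt {D : Eis} (h3D : ∀ η : Eis, (η = 1 ∨ η = -1) → ¬ (3 : Eis) ∣ D - η) {v : HeightOneSpectrum (𝓞 KK)} (hv : v.asIdeal = Ideal.span {eE la}) {d₀ d₁ d₂ : ℤ}
    (hdig : Dig D d₀ d₁ d₂) :
    Dt (Valued.v : Valuation (v.adicCompletion KK) (WithZero (Multiplicative ℤ)))
      (algebraMap KK (v.adicCompletion KK) (jK la)) (algebraMap KK (v.adicCompletion KK) (jK (-om ^ 2)))
      (algebraMap KK (v.adicCompletion KK) (jK D)) d₀ d₁ d₂ := by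
  have hL := e7a_loc hv
  obtain ⟨h0, h1, -, h3⟩ := hdig
  refine ⟨hL.hl, ?_, hL.three, h0, ?_, ?_⟩
  · have e1 : algebraMap KK (v.adicCompletion KK) (jK (-om ^ 2)) + 1 =
        algebraMap KK (v.adicCompletion KK) (jK (-om ^ 2 + 1)) := by
      rw [map_add, map_add, map_one, map_one]
    rw [e1]
    have h2 : la ^ 1 ∣ (-om ^ 2 + 1 : Eis) := by
      refine ⟨1 + om, ?_⟩
      rw [pow_one]
      show (-om ^ 2 + 1 : Eis) = (1 - om) * (1 + om)
      ring
    have h3 := (e7a_le hv 1 _).2 h2
    exact lt_of_le_of_lt h3 l0b_lt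
  · rcases h1 with h1 | h1 | h1
    · exfalso
      subst h1
      refine h3D (d₀ : Eis) ?_ ?_
      · rcases h0 with h0 | h0
        · left
          rw [h0, Int.cast_one]
        · right
          rw [h0, Int.cast_neg, Int.cast_one]
      · obtain ⟨c, hc⟩ := h3
        have hom : om ^ 3 = 1 := CU.om_cube
        refine ⟨-om * (la * c + (d₂ : Eis)), ?_⟩
        have e1 : D - (d₀ : Eis) = la ^ 2 * (la * c + (d₂ : Eis)) := by
          rw [Int.cast_zero] at hc
          linear_combination hc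
        rw [e1, CU.three_eq]
        linear_combination (-(la ^ 2 * (la * c + (d₂ : Eis)))) * hom
    · left; exact h1
    · right; exact h1
  · have e1 : algebraMap KK (v.adicCompletion KK) (jK D) - ((d₀ : v.adicCompletion KK) +
        (d₁ : v.adicCompletion KK) * algebraMap KK (v.adicCompletion KK) (jK la) +
        (d₂ : v.adicCompletion KK) * algebraMap KK (v.adicCompletion KK) (jK la) ^ 2) =
        algebraMap KK (v.adicCompletion KK) (jK (D - ((d₀ : Eis) + (d₁ : Eis) * la + (d₂ : Eis) * la ^ 2))) := by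
      simp only [map_sub, map_add, map_mul, map_pow, map_intCast]
    rw [e1]
    exact (e7a_le hv 3 _).2 h3

section
variable {D : Eis} {F : Type} [Field F] [NumberField F] [Algebra KK F] {r : F} {τ : F ≃ₐ[KK] F}
  {α : F} {u y : KK}

/-- [E6] -/
theorem lam_la {L : Eis → Prop} (hD : D ≠ 0) (hl : ¬ la ∣ D) (hQ : Quad D r τ) (hα : N1 τ α) (hPL : PL L r α)
    (huy : α = algebraMap KK F u + algebraMap KK F y * r)
    (v : HeightOneSpectrum (𝓞 KK)) (hv : v.asIdeal = Ideal.span {eE la}) :
    v.valuation KK u ≤ 1 ∧ v.valuation KK y ≤ 1 ∧ v.valuation KK (T8 u - 1) < 1 ∧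
      ∃ q : Eis, L q ∧ v.valuation KK (2 * (y * U7 u) - jK (la * q)) ≤ WithZero.exp (-3 : ℤ) := by
  obtain ⟨w, hw⟩ := exists_ov hD hQ
  obtain ⟨w', hw'⟩ := exists_cj τ w
  have how' : OvLa w' := by
    show w'.valuation F (jF F la) < 1
    rw [hw', tau_jF]
    exact hw
  have a1 : w.valuation F α = 1 := hα.2 w hw
  have a2 : w.valuation F (τ α) = 1 := by
    rw [← hw']
    exact hα.2 w' how'
  have h2 : w.valuation F (2 : F) = 1 := by
    have h3 : (2 : F) = jF F 2 := by rw [map_ofNat]
    rw [h3]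
    refine le_antisymm (q3a_le w (int_jF F 2)) (not_lt.1 fun h4 => ?_)
    have h5 := (ov_mem w hw 2).1 h4
    rw [CU.la_dvd_iff] at h5
    revert h5
    decide
  have hr := (ov_D hl hQ w hw).2
  have hτ : τ α = algebraMap KK F u - algebraMap KK F y * r := by
    rw [huy, map_add, map_mul, τ.commutes, τ.commutes, hQ.tau]
    ring
  have hu : w.valuation F (algebraMap KK F u) ≤ 1 := by
    have e : (2 : F) * algebraMap KK F u = α + τ α := by
      rw [hτ, huy]
      ring
    have h5 : w.valuation F ((2 : F) * algebraMap KK F u) ≤ 1 := by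
      rw [e]
      exact Valuation.map_add_le _ a1.le a2.le
    rwa [map_mul, h2, one_mul] at h5
  have hy : w.valuation F (algebraMap KK F y) ≤ 1 := by
    have e : (2 : F) * algebraMap KK F y * r = α - τ α := by
      rw [hτ, huy]
      ring
    have h5 : w.valuation F ((2 : F) * algebraMap KK F y * r) ≤ 1 := by
      rw [e]
      exact Valuation.map_sub_le _ a1.le a2.le
    rwa [map_mul, map_mul, h2, hr, one_mul, mul_one] at h5
  have hn : algebraMap KK F u ^ 2 - algebraMap KK F y ^ 2 * jF F D = 1 := by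
    have h1 := congrArg (algebraMap KK F) (lam_norm hQ hα.1 huy)
    rw [map_sub, map_pow, map_mul, map_pow, map_one, ← jF_apply] at h1
    exact h1
  have hp := (pow8 hQ.sq hn).1
  have hp' := (pow8 (u := algebraMap KK F u) (y := -algebraMap KK F y) hQ.sq (by rw [neg_sq]; exact hn)).1
  rw [← huy] at hp
  have hp2 : τ α ^ 8 = T8 (algebraMap KK F u) - algebraMap KK F y * U7 (algebraMap KK F u) * r := by
    rw [hτ]
    have e1 : algebraMap KK F u - algebraMap KK F y * r = algebraMap KK F u + -algebraMap KK F y * r := by ring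
    rw [e1, hp']
    ring
  have b1 := ov_eight hD hQ w hw a1
  have b2 := ov_eight hD hQ w hw a2
  have hP : w.valuation F (T8 (algebraMap KK F u) - 1) < 1 := by
    have e : (2 : F) * (T8 (algebraMap KK F u) - 1) = (α ^ 8 - 1) + (τ α ^ 8 - 1) := by
      rw [hp, hp2]
      ring
    have h5 : w.valuation F ((2 : F) * (T8 (algebraMap KK F u) - 1)) < 1 := by
      rw [e]
      exact Valuation.map_add_lt _ b1 b2
    rwa [map_mul, h2, one_mul] at h5
  have hinv : (α ^ 8)⁻¹ = τ α ^ 8 := by
    apply inv_eq_of_mul_eq_one_right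
    rw [← mul_pow, hα.1, one_pow]
  obtain ⟨q, hq, hLq⟩ := hPL
  have h3 := hq w hw
  have hl3 : w.valuation F (jF F la) ^ 3 = WithZero.exp (-3 : ℤ) := by
    rw [ov_val hD hQ hl w hw, ← WithZero.exp_nsmul]
    rfl
  have h4 : w.valuation F (2 * (algebraMap KK F y * U7 (algebraMap KK F u)) - jF F (la * q)) ≤ WithZero.exp (-3 : ℤ) := by
    have e : (2 * (algebraMap KK F y * U7 (algebraMap KK F u)) - jF F (la * q)) * r =
        α ^ 8 - (α ^ 8)⁻¹ - jF F (la * q) * r := by
      rw [hinv, hp, hp2]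
      ring
    have h5 : w.valuation F ((2 * (algebraMap KK F y * U7 (algebraMap KK F u)) - jF F (la * q)) * r) ≤
        WithZero.exp (-3 : ℤ) := by
      rw [e, ← hl3]
      exact h3
    rwa [map_mul, hr, mul_one] at h5
  obtain ⟨v', φ, hB⟩ := exists_Below w
  have hv' := l0b_ideal hB hw
  have hvv : v' = v := HeightOneSpectrum.ext (hv'.trans hv.symm)
  subst hvv
  have key : ∀ x : KK, v'.valuation KK x = w.valuation F (algebraMap KK F x) := by
    intro x
    have h5 := below_val hB hw hD hl hQ (algebraMap KK (v'.adicCompletion KK) x)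
    rw [hB.comm] at h5
    rw [← HeightOneSpectrum.valuedAdicCompletion_eq_valuation' w,
      ← HeightOneSpectrum.valuedAdicCompletion_eq_valuation' v']
    exact h5.symm
  refine ⟨?_, ?_, ?_, q, hLq, ?_⟩
  · rw [key]
    exact hu
  · rw [key]
    exact hy
  · rw [key, map_sub, map_one, e6_T8]
    exact hP
  · rw [key, map_sub, map_mul, map_mul, map_ofNat, e6_U7, ← jF_apply]
    exact h4

end

theorem locSol_x {D : Eis} {F : Type} [Field F] [NumberField F] [Algebra KK F] {r : F} {τ : F ≃ₐ[KK] F}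
    {α : F} {u y : KK} (hD : D ≠ 0) (hl : ¬ la ∣ D) (h3D : ∀ η : Eis, (η = 1 ∨ η = -1) → ¬ (3 : Eis) ∣ D - η) (hQ : Quad D r τ)
    {d₀ d₁ d₂ : ℤ} (hdig : Dig D d₀ d₁ d₂) (hα : N1 τ α) (hP : PL (Lc (d₁ * (1 + d₂))) r α)
    (huy : α = algebraMap KK F u + algebraMap KK F y * r)
    (v : HeightOneSpectrum (𝓞 KK)) {M : Type} [Field M] [Algebra (v.adicCompletion KK) M] {ρ : M}
    (hρ : ρ ^ 2 = algebraMap (v.adicCompletion KK) M (algebraMap KK (v.adicCompletion KK) (jK D)))
    (hv : v.asIdeal = Ideal.span {eE la}) :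
    LocSol (algebraMap KK (v.adicCompletion KK) (jK D)) ρ
      (algebraMap (v.adicCompletion KK) M (algebraMap KK (v.adicCompletion KK) u) +
        algebraMap (v.adicCompletion KK) M (algebraMap KK (v.adicCompletion KK) y) * ρ) := by
  have hL := e7a_loc hv
  obtain ⟨hu0, hy0, hT0, q, ⟨t, m, hm⟩, hq⟩ := lam_la hD hl hQ hα hP huy v hv
  have hDt := e7x_dt h3D hv hdig
  have ht0 : v.valuation KK (2 * (y * U7 u) - jK ((t : Eis) * (la * (1 + ((d₁ * (1 + d₂) : ℤ) : Eis) * la)))) ≤
      WithZero.exp (-3 : ℤ) := by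
    have e : 2 * (y * U7 u) - jK ((t : Eis) * (la * (1 + ((d₁ * (1 + d₂) : ℤ) : Eis) * la))) =
        (2 * (y * U7 u) - jK (la * q)) + jK (la ^ 3 * m) := by
      have e1 : la * q = (t : Eis) * (la * (1 + ((d₁ * (1 + d₂) : ℤ) : Eis) * la)) + la ^ 3 * m := by
        linear_combination la * hm
      rw [e1, map_add]
      ring
    rw [e]
    refine Valuation.map_add_le _ hq ?_
    have h5 := (e7a_le hv 3 (la ^ 3 * m)).2 (dvd_mul_right _ _)
    have h6 : Valued.v (algebraMap KK (v.adicCompletion KK) (jK (la ^ 3 * m))) = v.valuation KK (jK (la ^ 3 * m)) :=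
      HeightOneSpectrum.valuedAdicCompletion_eq_valuation' v _
    rw [h6] at h5
    exact h5
  set V : Valuation (v.adicCompletion KK) (WithZero (Multiplicative ℤ)) := Valued.v with hV
  set i := algebraMap KK (v.adicCompletion KK) with hi
  have hval : ∀ x : KK, V (i x) = v.valuation KK x := fun x =>
    HeightOneSpectrum.valuedAdicCompletion_eq_valuation' v x
  have hu : V (i u) ≤ 1 := by rw [hval]; exact hu0
  have hy : V (i y) ≤ 1 := by rw [hval]; exact hy0
  have hT : V (T8 (i u) - 1) < 1 := by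
    have e1 : T8 (i u) - 1 = i (T8 u - 1) := by
      rw [map_sub, map_one]
      exact congrArg (fun z => z - 1) (e7x_T8 i u)
    rw [e1, hval]
    exact hT0
  have ht : V (2 * (i y * U7 (i u)) - (t : v.adicCompletion KK) *
      (i (jK la) * (1 + ((d₁ * (1 + d₂) : ℤ) : v.adicCompletion KK) * i (jK la)))) ≤ WithZero.exp (-3 : ℤ) := by
    have e1 : 2 * (i y * U7 (i u)) - (t : v.adicCompletion KK) *
      (i (jK la) * (1 + ((d₁ * (1 + d₂) : ℤ) : v.adicCompletion KK) * i (jK la))) =
        i (2 * (y * U7 u) - jK ((t : Eis) * (la * (1 + ((d₁ * (1 + d₂) : ℤ) : Eis) * la)))) := by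
      have e2 : U7 (i u) = i (U7 u) := e7x_U7 i u
      rw [e2]
      simp only [map_sub, map_add, map_mul, map_one, map_ofNat, map_intCast]
    rw [e1, hval]
    exact ht0
  have hnorm : i u ^ 2 - i y ^ 2 * i (jK D) = 1 := by
    have := congrArg i (lam_norm hQ hα.1 huy)
    simpa only [map_sub, map_mul, map_pow, map_one] using this
  rcases hDt.h0 with h0 | h0
  · have hd1 : V (i (jK D) - 1) < 1 := by
      have e1 : i (jK D) - 1 = (i (jK D) - ((d₀ : v.adicCompletion KK) + (d₁ : v.adicCompletion KK) * i (jK la) +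
          (d₂ : v.adicCompletion KK) * i (jK la) ^ 2)) +
          i (jK la) * ((d₁ : v.adicCompletion KK) + (d₂ : v.adicCompletion KK) * i (jK la)) := by
        rw [h0, Int.cast_one]
        ring
      rw [e1]
      have hla : V (i (jK la)) < 1 := by
        rw [hDt.hl]
        exact l0b_lt
      refine V.map_add_lt (l1_of_le (by norm_num) hDt.dig) ?_
      rw [map_mul]
      refine lt_of_le_of_lt (mul_le_of_le_one_right' (V.map_add_le (dt_int d₁) ?_)) hla
      rw [map_mul]
      exact mul_le_one' (dt_int d₂) hla.le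
    obtain ⟨z, hz, -⟩ := sqrt_one v (l1_two hL) hd1
    obtain ⟨s, hs, -, hρs⟩ := e7a_root hρ hz
    have hVs : V s = 1 := by
      have h5 : V (i (jK D)) = 1 := l1_one_of (map_one V) hd1
      rw [← hs, map_pow] at h5
      exact (pow_eq_one_iff.1 h5).resolve_right (by norm_num)
    have hys : V (i y * s) ≤ 1 := by
      rw [map_mul, hVs, mul_one]
      exact hy
    have hprod : (i u + i y * s) * (i u - i y * s) = 1 := by
      rw [← hnorm, ← hs]
      ring
    have ha : V (i u + i y * s) = 1 := by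
      refine (E7c_two_three v (V.map_add_le hu hys) (V.map_sub_le hu hys) ?_).1
      rw [hprod, map_one]
    obtain ⟨hp1, hp2⟩ := pow8 hs hnorm
    have hinv : ((i u + i y * s) ^ 8)⁻¹ = T8 (i u) - i y * U7 (i u) * s := by
      rw [hp1]
      refine inv_eq_of_mul_eq_one_right ?_
      rw [← hp2, ← hs]
      ring
    have h6 := e7a_rat hρs (sol_plusX v hL hDt.heps hs hDt h0 ha t (by
      rw [hinv, hp1]
      have e1 : T8 (i u) + i y * U7 (i u) * s - (T8 (i u) - i y * U7 (i u) * s) -
          (t : v.adicCompletion KK) * (i (jK la) * (1 + ((d₁ * (1 + d₂) : ℤ) : v.adicCompletion KK) * i (jK la))) * s =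
          (2 * (i y * U7 (i u)) - (t : v.adicCompletion KK) *
            (i (jK la) * (1 + ((d₁ * (1 + d₂) : ℤ) : v.adicCompletion KK) * i (jK la)))) * s := by ring
      rw [e1, map_mul, hVs, mul_one]
      exact ht))
    rw [map_add, map_mul, ← hρs] at h6
    exact h6
  · exact sol_minusX v hL hDt h0 hu hy hnorm hT t ht hρ

theorem conv_x {D : Eis} {F : Type} [Field F] [NumberField F] [Algebra KK F] {r : F} {τ : F ≃ₐ[KK] F}
    (hD : D ≠ 0) (hl : ¬ la ∣ D) (h3 : ∀ η : Eis, (η = 1 ∨ η = -1) → ¬ (3 : Eis) ∣ D - η) (hQ : Quad D r τ)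
    {d₀ d₁ d₂ : ℤ} (hd : Dig D d₀ d₁ d₂) : Conv D r τ (PL (Lc (d₁ * (1 + d₂))) r) := by
  intro a u y ha hP huy v hv M _ _ ρ hρ
  exact locSol_x hD hl h3 hQ hd ha hP huy v hρ hv

end JG
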