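import Pool.Agent.JG.KR
import Pool.Agent.JG.K0y

/-!
# [JG-K35] `D = λ^(2m) D'`, `m = 1, 2`, `λ` divides `D'` exactly once

`Loc3 V l ε` (JD/L1.lean): `V l = exp (-1)`, `3 = ε l²`, residue field `F₃`. Condition `Q1 D'` (only for `m = 1`): `D' ≢ λ (η + λ) mod λ³` for `η = ± 1`. The condition on the classes is `P8`: `b^8 ≡ 1 mod λ`.

PROOF. `pt35` [K35a]: `V (l^(2m) d') = exp (-(2m+1)) < 1`. `V x > 1`: `V y ^ 2 = V x ^ 3 > 1`. `V x = 1`: `V y = 1`. `V x = exp (-n)`, `n ≥ 1` (or `x = 0`): `V (x³) = exp (-3n)`. If `3 n ≠ 2 m + 1` then `V y ^ 2 = max (exp (-3n), exp (-(2m+1)))`. `m = 2`: `3 n < 5` means `n = 1`, `V y ^ 2 = exp (-3)` impossible; `3 n > 5`: `exp (-5)` impossible.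
`m = 1`: `3 n ≠ 3` means `n ≥ 2` and `V y ^ 2 = exp (-3)`, impossible; so `n = 1`: `x = l x₁`, `V x₁ = 1`, `d' = l u`, `V u = 1`, `y² = l³ (x₁³ + u)`. `V (x₁³ - σ) ≤ exp (-3)`, `σ = ± 1` (`JD.l1_cube`), `V (x₁³ + u) < 1` (otherwise `V y ^ 2 = exp (-3)`), so `V y ≤ exp (-2)`. If `V y = exp (-2)`: `y = l² y₁`, `l y₁² = x₁³ + u`, `y₁² ≡ 1 mod l`,
so `u ≡ -σ + l mod l²`, `d' = l u ≡ l (-σ + l) mod l³`: contradiction to `hq` with `η = -σ`. So `V y ≤ exp (-3)`.
`dir_35` [K35b]: `loc_red` with `invR` (for `D'`, `r'`; the places are the same). `e := r`, `r = jF (la^m) r'`, `w r = exp (-(2m+1)) ≤ exp (-3)`. (1) `i b = t³`: `i a = (t² i k)³ = G³`, `Valued.v G = 1`, `v_eightR`: `Valued.v ((i a)^8 - 1) ≤ exp (-3)`. (2) a point: `pt35` over `v.adicCompletion KK` (`Loc3` from `e7a_loc` with `l0b_ideal`),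
`X = φ x`, `Y = φ y`, `R = i r`, `i a = (Y - R)² (g² i k)³`. First case (`1 ≤ V x`, `1 ≤ V y`): `Y + R ≠ 0`, `α = (Y - R)/(Y + R)`, `(Y - R)² = α X³`; `α = (1 - e)/(1 + e)`, `e = R / Y`, `w e ≤ exp (-3)`, `w (α - 1) ≤ exp (-3)`; `i a = α G³`, `G = X g² i k` a unit; `(i a)^8 - 1 = α^8 G^24 - 1`, `≤ exp (-3)`.
Second case (`m = 1`, `V x = exp (-1)`, `V y ≤ exp (-3)`): `w Y ≤ exp (-6)`, `w R = exp (-3)`, `(Y - R)² = R² (1 - Y/R)²`, `R² = i (jF D) = L³ U`, `L = i (jF la)`, `U = i (jF u)`, `D' = la u`, `u ≡ ± 1 mod la` (`mod_la`), so `w (U^8 - 1) ≤ exp (-2)`; `i a = U (1 - Y/R)² G³`, `G = L g² i k` a unit, `w (Y / R) ≤ exp (-3)`;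
so `w (a^8 - 1) ≤ exp (-2) = w (la)`. At the other places over `λ`: `uniqR`.
`kap35` [K35c]: `κ = (1 + ρ')/(1 - ρ')`, `κ = p + q ρ'`, `p = (1 + d')/(1 - d')`, `q = 2/(1 - d')`, `p² - q² d' = 1`, `κ³ = (4 p³ - 3 p) + q (4 p² - 1) ρ'`. `4 p² - 1 = (3 + 10 d' + 3 d'²)/(1 - d')²`, so `q (4 p² - 1) = 2 (3 + 10 d' + 3 d'²)/(1 - d')³`. Modulo `exp (-3)`: `3 d'² ≡ 0`, `10 d' ≡ d'` (`9 = ε² l⁴`), `(1 - d')³ ≡ 1` (`3 d' ≡ 0`, `d'³ ≡ 0`),
`3 ≡ -l²` (`V (ε + 1) < 1`), `2 d' ≡ -d'` (`3 d' ≡ 0`), `-2 l² ≡ l²`: it is `≡ -d' + l²`. `P`-part: `4 p³ - 3 p ≡ 1 mod l` (`p ≡ 1`).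
`tht` [K35d]: `y₀² = 1 + l^(2m) d'` (`sqrt_one`, JD/E3.lean), `V (y₀ - 1) ≤ exp (-3)` (`V (y₀ + 1) = 1`, `V (l^(2m) d') ≤ exp (-3)`), `T8 1 = 1`, `U7 1 = 8`, `-(σ l^m) * 8 ≡ σ l^m` modulo `9 l^m`.
`sol35` [K35e]: `P = T8 u`, `Q = y U7 u`, `α^8 = φ P + φ Q ρ'` (`e3x_pow8`). `V Q ≤ exp (-1)`: `Q = l (q₁ + l q₂) + O(l³)` with integers `q₁, q₂` (`hL.res` twice), `d' = l (δ₀ + l δ₁) + O(l³)`, `δ₀ = ± 1`, integers. Composition of pairs (`P, Q`), (`P₂, Q₂`) of norm one with `V Q, V Q₂ ≤ exp (-1)`, `V (P - 1), V (P₂ - 1) < 1`: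
`V (P - 1), V (P₂ - 1) ≤ exp (-3)` (`(P - 1)(P + 1) = Q² d'`), so `P Q₂ + P₂ Q ≡ Q + Q₂ mod exp (-3)` and `P P₂ + Q Q₂ d' ≡ 1`. `κ³` has `Q`-part `≡ -(δ₀ l + (δ₁ - 1) l²)`, its inverse (conjugate) the negative. `θ^8`, `θ = y₀ - σ l^m ρ'`, has `Q`-part `≡ σ l^m`. Modulo `l³` the coefficients of `l` and `l²` are modulo `3` (`3 l = ε l³`).
Choose `i, j ∈ {0, 1, -1}` with `Q - i (δ₀ l + (δ₁ - 1) l²) + j l^m ≡ 0 mod l³`: `m = 2`: `i ≡ δ₀ q₁`, `j ≡ i (δ₁ - 1) - q₂`; `m = 1`: `δ₁ ≢ 1 mod 3` (from `hq`: if `δ₁ ≡ 1` then `d' ≡ l (δ₀ + l) mod l³`), `i ≡ (δ₁ - 1) q₂`, `j ≡ i δ₀ - q₁`. Then `α^8 (κ³)^i θ_j^8 = A + B ρ'` with `V (A - 1) < 1`, `V B ≤ exp (-3)`,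
`sol_laR`, `cheb`: it is `γ³`, `γ ∈ adjoin` (`ρ' ∈ adjoin {ρ}`). `α = α^9 / α^8 = (α³)³ κ^(3i) θ_j^8 / γ³`, so `α = θ_j^8 · (cube) = θ_j⁻¹ · (cube)`. `j = 0`: a cube. `j = σ = ± 1`: `θ = y₀ - σ ρ`, `θ⁻¹ = y₀ + σ ρ`. `σ = -1`: the point `(1, y₀)`, `φ y₀ - ρ = θ⁻¹`; `σ = 1`: the point `(1, -y₀)`, `-φ y₀ - ρ = -θ⁻¹` (`-1 = (-1)³`).
See the end of the proof of `sol_minusX` (JXD/E3.lean).
`conv_35` [K35f]: `a = u + y r = u + (y jK (la^m)) r'`. At `w` over `λ`: `w (a^8 - 1) ≤ exp (-2)`; `a^8 = T8 u + y' U7 u r'`, `a^-8 = T8 u - y' U7 u r'` (see `lam_la` in JG/K0y.lean): `w (T8 u - 1) < 1`, `w (2 y' U7 u r') ≤ exp (-2)`, `w r' = exp (-1)`, so `w (y' U7 u) ≤ exp (-1) < 1`; at `v`: `Valued.v (y' U7 u) < 1` (`below_valR`), so `≤ exp (-1)`; `sol35`.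
-/

set_option autoImplicit false

open NumberField IsDedekindDomain
open scoped Classical

namespace JG

open CM27 CF JZ JX JXD
open JD hiding G5b_unit G5b_val LCW_ED below_val descent det_unit disc_eq eis_cube entire_ED exists_H exists_basis exists_cj exists_den exists_int exists_kappa exists_ov exists_phiE exists_quad exists_u0 final_of finite_of_phiE finprod_neron finprod_tam finrank_KD fix_int fix_of_two g4a_exp g4a_le g4a_norm g4a_one g4a_split g4b_place g5a_norm g5a_tau g5a_three g5a_unit int_KK int_jF int_r jr_inj kk_cube m1_cube min_all n5_gen ne_of_cl not_three ov_D ov_eight ov_mem ov_trans ov_val period_ED place_cases q3a_dvd_lt q3a_la_sq q3a_le q3a_sq_lt q3b_ext q3b_int q3b_le q3b_neg q3b_pos q3b_pos_iff q3b_sq q3b_tau q3b_three q4b_crt q5_coe q5_den quot_all quot_eq s5b_not_la sha_zero step tam_la tam_one tau_jF val_prime z1_norm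
open CU (la om eE)
open CUD (IsCube)

theorem K35a_log {C : Type} [Field C] {V : Valuation C (WithZero (Multiplicative ℤ))} {y : C} (hy : y ≠ 0) :
    ∃ k : ℤ, V y = WithZero.exp k := by
  have h0 : V y ≠ 0 := (Valuation.ne_zero_iff V).2 hy
  exact ⟨WithZero.log (V y), (WithZero.exp_log h0).symm⟩

theorem K35a_even {C : Type} [Field C] {V : Valuation C (WithZero (Multiplicative ℤ))} {y : C} {k : ℤ}
    (h : V (y ^ 2) = WithZero.exp k) : ∃ j : ℤ, V y = WithZero.exp j ∧ 2 * j = k := by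
  have hy : y ≠ 0 := by
    rintro rfl
    rw [zero_pow two_ne_zero, map_zero] at h
    exact WithZero.exp_ne_zero h.symm
  obtain ⟨j, hj⟩ := K35a_log (V := V) hy
  refine ⟨j, hj, ?_⟩
  rw [map_pow, hj, ← WithZero.exp_nsmul, WithZero.exp_inj] at h
  rw [nsmul_eq_mul] at h
  push_cast at h
  exact h

/-- [K35a] -/
theorem pt35 {C : Type} [Field C] {V : Valuation C (WithZero (Multiplicative ℤ))} {l ε : C} (hL : Loc3 V l ε) {m : ℕ}
    (hm : m = 1 ∨ m = 2) {d' x y : C} (hd : V d' = WithZero.exp (-1 : ℤ))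
    (hq : m = 1 → ∀ η : C, (η = 1 ∨ η = -1) → ¬ V (d' - l * (η + l)) ≤ WithZero.exp (-3 : ℤ))
    (he : y ^ 2 = x ^ 3 + l ^ (2 * m) * d') :
    (1 ≤ V x ∧ 1 ≤ V y) ∨ (m = 1 ∧ V x = WithZero.exp (-1 : ℤ) ∧ V y ≤ WithZero.exp (-3 : ℤ)) := by
  have hl0 : l ≠ 0 := by
    intro h0
    have h1 := hL.hl
    rw [h0, map_zero] at h1
    exact WithZero.exp_ne_zero h1.symm
  have hdd : V (l ^ (2 * m) * d') = WithZero.exp (-(2 * (m : ℤ) + 1)) := by
    rw [map_mul, map_pow, hL.hl, hd, ← WithZero.exp_nsmul, ← WithZero.exp_add, WithZero.exp_inj,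
      nsmul_eq_mul]
    push_cast
    ring
  have hdd1 : V (l ^ (2 * m) * d') < 1 := by
    rw [hdd, ← WithZero.exp_zero, WithZero.exp_lt_exp]
    omega
  by_cases hx : 1 ≤ V x
  · left
    refine ⟨hx, ?_⟩
    have h3 : 1 ≤ V (x ^ 3) := by
      rw [map_pow]
      exact one_le_pow_of_one_le' hx 3
    have h4 : V (y ^ 2) = V (x ^ 3) := by
      rw [he, Valuation.map_add_eq_of_lt_left V (hdd1.trans_le h3)]
    by_contra h5
    push Not at h5
    have h6 : V (y ^ 2) < 1 := by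
      rw [map_pow]
      exact pow_lt_one' h5 two_ne_zero
    rw [h4] at h6
    exact absurd h6 (not_lt.2 h3)
  · push Not at hx
    by_cases hx0 : x = 0
    · exfalso
      rw [hx0, zero_pow (by norm_num : 3 ≠ 0), zero_add] at he
      rw [← he] at hdd
      obtain ⟨j, -, hj⟩ := K35a_even hdd
      omega
    obtain ⟨n, hn⟩ := K35a_log (V := V) hx0
    have hn0 : n < 0 := by
      rw [hn, ← WithZero.exp_zero, WithZero.exp_lt_exp] at hx
      exact hx
    have hx3 : V (x ^ 3) = WithZero.exp (3 * n) := by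
      rw [map_pow, hn, ← WithZero.exp_nsmul, nsmul_eq_mul]
      push_cast
      rfl
    rcases lt_trichotomy (3 * n) (-(2 * (m : ℤ) + 1)) with h1 | h1 | h1
    · exfalso
      have h2 : V (x ^ 3) < V (l ^ (2 * m) * d') := by
        rw [hx3, hdd, WithZero.exp_lt_exp]
        exact h1
      have h3 : V (y ^ 2) = WithZero.exp (-(2 * (m : ℤ) + 1)) := by
        rw [he, Valuation.map_add_eq_of_lt_right V h2, hdd]
      obtain ⟨j, -, hj⟩ := K35a_even h3
      omega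
    · have hm1 : m = 1 := by omega
      subst hm1
      have hn1 : n = -1 := by omega
      subst hn1
      right
      refine ⟨rfl, hn, ?_⟩
      -- divide
      set x₁ := x / l with hx₁
      set u := d' / l with hu
      have ex : x = l * x₁ := by rw [hx₁]; field_simp
      have ed : d' = l * u := by rw [hu]; field_simp
      have hVx : V x₁ = 1 := by
        rw [hx₁, map_div₀, hn, hL.hl, div_self WithZero.exp_ne_zero]
      have hVu : V u = 1 := by
        rw [hu, map_div₀, hd, hL.hl, div_self WithZero.exp_ne_zero]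
      obtain ⟨σ, hσ, -, hxσ⟩ := JD.l1_cube hL hVx
      have e1 : y ^ 2 = l ^ 3 * (x₁ ^ 3 + u) := by
        rw [he, ex, ed]
        ring
      have hl3 : V (l ^ 3) = WithZero.exp (-3 : ℤ) := by
        rw [map_pow, hL.hl, ← WithZero.exp_nsmul]
        rfl
      have h2 : V (x₁ ^ 3 + u) < 1 := by
        have h3 : V (x₁ ^ 3 + u) ≤ 1 := V.map_add_le (by rw [map_pow, hVx, one_pow]) hVu.le
        refine lt_of_le_of_ne h3 fun h4 => ?_
        have h5 : V (y ^ 2) = WithZero.exp (-3 : ℤ) := by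
          rw [e1, map_mul, h4, mul_one, hl3]
        obtain ⟨j, -, hj⟩ := K35a_even h5
        omega
      by_cases hy0 : y = 0
      · rw [hy0, map_zero]
        exact zero_le
      obtain ⟨k, hk⟩ := K35a_log (V := V) hy0
      rw [hk, WithZero.exp_le_exp]
      have h3 : V (y ^ 2) ≤ WithZero.exp (-4 : ℤ) := by
        rw [e1, map_mul, hl3]
        calc WithZero.exp (-3 : ℤ) * V (x₁ ^ 3 + u)
            ≤ WithZero.exp (-3 : ℤ) * WithZero.exp (-1 : ℤ) := mul_le_mul_right (JD.l1_lt1 h2) _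
          _ = WithZero.exp (-4 : ℤ) := by rw [← WithZero.exp_add]; rfl
      rw [map_pow, hk, ← WithZero.exp_nsmul, WithZero.exp_le_exp, nsmul_eq_mul] at h3
      push_cast at h3
      by_contra h4
      have hk2 : k = -2 := by omega
      subst hk2
      -- y = l² y₁
      set y₁ := y / l ^ 2 with hy₁
      have ey : y = l ^ 2 * y₁ := by rw [hy₁]; field_simp
      have hl2 : V (l ^ 2) = WithZero.exp (-2 : ℤ) := by
        rw [map_pow, hL.hl, ← WithZero.exp_nsmul]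
        rfl
      have hVy : V y₁ = 1 := by
        rw [hy₁, map_div₀, hk, hl2, div_self WithZero.exp_ne_zero]
      have e2 : l * y₁ ^ 2 = x₁ ^ 3 + u := by
        have e3 : l ^ 3 * (l * y₁ ^ 2) = l ^ 3 * (x₁ ^ 3 + u) := by
          rw [← e1, ey]
          ring
        exact mul_left_cancel₀ (pow_ne_zero 3 hl0) e3
      have hyy : V (y₁ ^ 2 - 1) ≤ WithZero.exp (-1 : ℤ) := by
        apply JD.l1_lt1
        rcases hL.res y₁ hVy.le with h5 | h5 | h5
        · exact absurd hVy h5.ne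
        · have e4 : y₁ ^ 2 - 1 = (y₁ - 1) * (y₁ + 1) := by ring
          rw [e4, map_mul]
          exact mul_lt_one_of_lt_of_le h5 (V.map_add_le hVy.le (map_one V).le)
        · have e4 : y₁ ^ 2 - 1 = (y₁ + 1) * (y₁ - 1) := by ring
          rw [e4, map_mul]
          exact mul_lt_one_of_lt_of_le h5 (V.map_sub_le hVy.le (map_one V).le)
      refine hq rfl (-σ) ?_ ?_
      · rcases hσ with h | h
        · right
          rw [h]
        · left
          rw [h, neg_neg]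
      · have e5 : d' - l * (-σ + l) = l * (l * (y₁ ^ 2 - 1) - (x₁ ^ 3 - σ)) := by
          rw [ed]
          linear_combination (-l) * e2
        rw [e5, map_mul, hL.hl]
        have h6 : V (l * (y₁ ^ 2 - 1) - (x₁ ^ 3 - σ)) ≤ WithZero.exp (-2 : ℤ) := by
          refine V.map_sub_le ?_ (hxσ.trans ?_)
          · rw [map_mul, hL.hl]
            calc WithZero.exp (-1 : ℤ) * V (y₁ ^ 2 - 1)
                ≤ WithZero.exp (-1 : ℤ) * WithZero.exp (-1 : ℤ) := mul_le_mul_right hyy _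
              _ = WithZero.exp (-2 : ℤ) := by rw [← WithZero.exp_add]; rfl
          · rw [WithZero.exp_le_exp]
            norm_num
        calc WithZero.exp (-1 : ℤ) * V (l * (y₁ ^ 2 - 1) - (x₁ ^ 3 - σ))
            ≤ WithZero.exp (-1 : ℤ) * WithZero.exp (-2 : ℤ) := mul_le_mul_right h6 _
          _ = WithZero.exp (-3 : ℤ) := by rw [← WithZero.exp_add]; rfl
    · exfalso
      have h2 : V (l ^ (2 * m) * d') < V (x ^ 3) := by
        rw [hx3, hdd, WithZero.exp_lt_exp]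
        exact h1
      have h3 : V (y ^ 2) = WithZero.exp (3 * n) := by
        rw [he, Valuation.map_add_eq_of_lt_left V h2, hx3]
      obtain ⟨j, -, hj⟩ := K35a_even h3
      omega

/-- [K35b] -/
theorem k35b_pow {C Γ : Type} [Field C] [LinearOrderedCommGroupWithZero Γ] (V : Valuation C Γ) {z : C} {c : Γ}
    (h1 : V z ≤ 1) (h : V (z - 1) ≤ c) (j : ℕ) : V (z ^ j - 1) ≤ c := by
  induction j with
  | zero => rw [pow_zero, sub_self, map_zero]; exact zero_le
  | succ j ih =>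
    have e : z ^ (j + 1) - 1 = z ^ j * (z - 1) + (z ^ j - 1) := by ring
    rw [e]
    refine Valuation.map_add_le _ ?_ ih
    rw [map_mul, map_pow]
    exact (mul_le_of_le_one_left' (pow_le_one' h1 j)).trans h

/-- [K35b] -/
theorem k35b_one {g : WithZero (Multiplicative ℤ)} {n : ℕ} (hn : n ≠ 0) (h : g ^ n = 1) : g = 1 := by
  rcases lt_trichotomy g 1 with h2 | h2 | h2
  · exact absurd h (pow_lt_one₀ zero_le h2 hn).ne
  · exact h2
  · exact absurd h (one_lt_pow₀ h2 hn).ne'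

/-- [K35b] -/
theorem k35b_neg {m n : ℤ} (h : n ≤ m) : (WithZero.exp n : WithZero (Multiplicative ℤ)) ≤ WithZero.exp m :=
  WithZero.exp_le_exp.2 h

/-- [K35b] -/
theorem k35b_lt {n : ℤ} (h : n < 0) : (WithZero.exp n : WithZero (Multiplicative ℤ)) < 1 := by
  rw [← WithZero.exp_zero, WithZero.exp_lt_exp]
  exact h

/-- [K35b] -/
theorem k35b_fin {D' : Eis} {F : Type} [Field F] [NumberField F] [Algebra KK F] {r' : F} {τ : F ≃ₐ[KK] F}
    (hD : D' ≠ 0) (hl : la ∣ D') (hl2 : ¬ la ^ 2 ∣ D') (hQ' : Quad D' r' τ) (w : HeightOneSpectrum (𝓞 F)) (hw : OvLa w)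
    {a : F} (ha : N1 τ a) {β G : w.adicCompletion F}
    (hβ : Valued.v (β ^ 8 - 1) ≤ (WithZero.exp (-2 : ℤ) : WithZero (Multiplicative ℤ)))
    (hia : algebraMap F (w.adicCompletion F) a = β * G ^ 3) : P8 a := by
  have hlt : (WithZero.exp (-2 : ℤ) : WithZero (Multiplicative ℤ)) < 1 := k35b_lt (by norm_num)
  have hb8 : Valued.v (β ^ 8) = (1 : WithZero (Multiplicative ℤ)) := by
    have e : β ^ 8 = 1 + (β ^ 8 - 1) := by ring
    rw [e, Valuation.map_add_eq_of_lt_left _ (by rw [map_one]; exact lt_of_le_of_lt hβ hlt), map_one]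
  have hb1 : Valued.v β = (1 : WithZero (Multiplicative ℤ)) := by
    rw [map_pow] at hb8
    exact k35b_one (by norm_num) hb8
  have hG : Valued.v G = (1 : WithZero (Multiplicative ℤ)) := by
    have h1 : Valued.v (algebraMap F (w.adicCompletion F) a) = (1 : WithZero (Multiplicative ℤ)) := by
      rw [h1_val, ha.2 w hw]
    rw [hia, map_mul, hb1, one_mul, map_pow] at h1
    exact k35b_one (by norm_num) h1
  have h24 := (v_eightR hD hl hl2 hQ' w hw hG).2
  have hfin : Valued.v (algebraMap F (w.adicCompletion F) (a ^ 8 - 1)) ≤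
      (WithZero.exp (-2 : ℤ) : WithZero (Multiplicative ℤ)) := by
    have e : algebraMap F (w.adicCompletion F) (a ^ 8 - 1) = β ^ 8 * (G ^ 24 - 1) + (β ^ 8 - 1) := by
      rw [map_sub, map_pow, map_one, hia]
      ring
    rw [e]
    refine Valuation.map_add_le _ ?_ hβ
    rw [map_mul, hb8, one_mul]
    exact h24.trans (k35b_neg (by norm_num))
  rw [h1_val] at hfin
  intro w' hw'
  rw [uniqR hD hl hl2 hQ' w w' hw hw' (a ^ 8 - 1), uniqR hD hl hl2 hQ' w w' hw hw' (jF F la),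
    (ovR hD hl hl2 hQ' w hw).1]
  exact hfin

/-- [K35b] -/
theorem dir_35 {D' : Eis} {F : Type} [Field F] [NumberField F] [Algebra KK F] {r' : F} {τ : F ≃ₐ[KK] F}
    (hD : D' ≠ 0) (hl : la ∣ D') (hl2 : ¬ la ^ 2 ∣ D') (hQ' : Quad D' r' τ) {m : ℕ} (hm : m = 1 ∨ m = 2)
    (hq : m = 1 → ∀ η : Eis, (η = 1 ∨ η = -1) → ¬ la ^ 3 ∣ D' - la * (η + la)) :
    Dir (la ^ (2 * m) * D') (jF F (la ^ m) * r') τ P8 := by
  have hQ : Quad (la ^ (2 * m) * D') (jF F (la ^ m) * r') τ := by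
    refine ⟨hQ'.fr, ?_, ?_⟩
    · rw [mul_pow, hQ'.sq, ← map_pow, ← map_mul, ← pow_mul, mul_comm m 2]
    · rw [map_mul, tau_jF, hQ'.tau, mul_neg]
  have hdom : IsDomain Eis := eis_isDomain
  have hla0 : la ≠ 0 := CU.la_prime.ne_zero
  have hDD : la ^ (2 * m) * D' ≠ 0 := mul_ne_zero (pow_ne_zero _ hla0) hD
  intro b hb hbt w hw hLoc a k ha hak
  obtain ⟨hwla, hwr⟩ := ovR hD hl hl2 hQ' w hw
  have hla_lt : w.valuation F (jF F la) < 1 := hw
  set i := algebraMap F (w.adicCompletion F) with hi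
  have hia0 : i a = (i b) ^ 2 * (i k) ^ 3 := by rw [hak, map_mul, map_pow, map_pow]
  -- the valuation of `r`
  have hwR : Valued.v (i (jF F (la ^ m) * r')) ≤ (WithZero.exp (-3 : ℤ) : WithZero (Multiplicative ℤ)) := by
    rw [hi, h1_val, map_mul, map_pow, map_pow, hwla, hwr, ← WithZero.exp_nsmul, ← WithZero.exp_add]
    apply k35b_neg
    rcases hm with rfl | rfl <;> norm_num
  rcases loc_red hDD hQ w hw (invR hD hl hl2 hQ' w hw) hb hbt hLoc with ⟨t, ht⟩ | ⟨v, φ, x, y, g, hB, hg, he, hne, hbg⟩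
  · refine k35b_fin hD hl hl2 hQ' w hw ha (β := 1) (G := t ^ 2 * i k) ?_ ?_
    · rw [one_pow, sub_self, map_zero]
      exact zero_le
    · have ht' : i b = t ^ 3 := ht
      rw [← hi, hia0, ht']
      ring
  · rw [← hi] at hne hbg
    have hv := l0b_ideal hB hw
    have hL := e7a_loc hv
    have hval : ∀ z : v.adicCompletion KK, (Valued.v (φ z) : WithZero (Multiplicative ℤ)) = Valued.v z ^ 2 :=
      fun z => below_valR hD hl hl2 hQ' hB hw z
    have hdv : Valued.v (algebraMap KK (v.adicCompletion KK) (jK D')) =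
        (WithZero.exp (-1 : ℤ) : WithZero (Multiplicative ℤ)) := by
      have h1 := (e7a_le hv 1 D').2 (by rwa [pow_one])
      have h2 := fun h => hl2 ((e7a_le hv 2 D').1 h)
      have h1' : Valued.v (algebraMap KK (v.adicCompletion KK) (jK D')) ≤
        (WithZero.exp (-1 : ℤ) : WithZero (Multiplicative ℤ)) := h1
      refine le_antisymm h1' (not_lt.1 fun h3 => h2 ?_)
      have h4 := l1_lt h3
      exact h4
    have hq' : m = 1 → ∀ η : v.adicCompletion KK, (η = 1 ∨ η = -1) →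
        ¬ Valued.v (algebraMap KK (v.adicCompletion KK) (jK D') -
          algebraMap KK (v.adicCompletion KK) (jK la) * (η + algebraMap KK (v.adicCompletion KK) (jK la))) ≤
          (WithZero.exp (-3 : ℤ) : WithZero (Multiplicative ℤ)) := by
      intro hm1 η hη h3
      rcases hη with rfl | rfl
      · refine hq hm1 1 (Or.inl rfl) ((e7a_le hv 3 _).1 ?_)
        have e : algebraMap KK (v.adicCompletion KK) (jK (D' - la * (1 + la))) =
            algebraMap KK (v.adicCompletion KK) (jK D') - algebraMap KK (v.adicCompletion KK) (jK la) *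
              (1 + algebraMap KK (v.adicCompletion KK) (jK la)) := by
          simp only [map_sub, map_mul, map_add, map_one]
        rw [e]
        exact h3
      · refine hq hm1 (-1) (Or.inr rfl) ((e7a_le hv 3 _).1 ?_)
        have e : algebraMap KK (v.adicCompletion KK) (jK (D' - la * (-1 + la))) =
            algebraMap KK (v.adicCompletion KK) (jK D') - algebraMap KK (v.adicCompletion KK) (jK la) *
              (-1 + algebraMap KK (v.adicCompletion KK) (jK la)) := by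
          simp only [map_sub, map_mul, map_add, map_one, map_neg]
        rw [e]
        exact h3
    have he1 : y ^ 2 = x ^ 3 + algebraMap KK (v.adicCompletion KK) (jK la) ^ (2 * m) *
        algebraMap KK (v.adicCompletion KK) (jK D') := by
      rw [he, map_mul, map_mul, map_pow, map_pow]
    have hpt := pt35 hL hm hdv hq' he1
    obtain ⟨X, hX⟩ : ∃ X, X = φ x := ⟨_, rfl⟩
    obtain ⟨Y, hY⟩ : ∃ Y, Y = φ y := ⟨_, rfl⟩
    obtain ⟨R, hR⟩ : ∃ R, R = i (jF F (la ^ m) * r') := ⟨_, rfl⟩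
    rw [← hR] at hwR hne hbg
    rw [← hY] at hne hbg
    have hR2 : R ^ 2 = i (jF F (la ^ (2 * m) * D')) := by
      rw [hR, ← map_pow, hQ.sq]
    have heq : Y ^ 2 = X ^ 3 + R ^ 2 := by
      rw [hY, hX, hR2, ← map_pow, he, map_add, map_pow]
      congr 1
      exact hB.comm _
    have hia1 : i a = (Y - R) ^ 2 * (g ^ 2 * i k) ^ 3 := by
      rw [hia0, hbg]
      ring
    rcases hpt with ⟨hx1, hy1⟩ | ⟨hm1, hx1, hy1⟩
    · have hvY : (1 : WithZero (Multiplicative ℤ)) ≤ Valued.v Y := by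
        rw [hY, hval]
        exact one_le_pow₀ hy1
      have hRY : (Valued.v R : WithZero (Multiplicative ℤ)) < Valued.v Y :=
        lt_of_lt_of_le (lt_of_le_of_lt hwR (k35b_lt (by norm_num))) hvY
      have hvYR : (Valued.v (Y + R) : WithZero (Multiplicative ℤ)) = Valued.v Y :=
        Valuation.map_add_eq_of_lt_left _ hRY
      have hvpos : (0 : WithZero (Multiplicative ℤ)) < Valued.v Y := lt_of_lt_of_le zero_lt_one hvY
      have hYR0 : Y + R ≠ 0 := by
        intro h0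
        rw [h0, map_zero] at hvYR
        exact hvpos.ne hvYR
      obtain ⟨α, hα⟩ : ∃ α, α = (Y - R) / (Y + R) := ⟨_, rfl⟩
      have hα1 : Valued.v (α - 1) ≤ (WithZero.exp (-3 : ℤ) : WithZero (Multiplicative ℤ)) := by
        have e : α - 1 = -(2 * R) / (Y + R) := by
          rw [hα]
          field_simp
          ring
        have h2 : (Valued.v (2 : w.adicCompletion F) : WithZero (Multiplicative ℤ)) ≤ 1 := by
          have e2 : (2 : w.adicCompletion F) = i (jF F 2) := by rw [map_ofNat, map_ofNat]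
          rw [e2, hi, h1_val]
          exact q3a_le w (int_jF F 2)
        rw [e, map_div₀, Valuation.map_neg, map_mul, hvYR]
        rw [div_le_iff₀ hvpos]
        calc Valued.v (2 : w.adicCompletion F) * Valued.v R ≤ 1 * Valued.v R := by gcongr
          _ = Valued.v R * 1 := by rw [one_mul, mul_one]
          _ ≤ (WithZero.exp (-3 : ℤ) : WithZero (Multiplicative ℤ)) * Valued.v Y := by gcongr
      have hα2 : (Valued.v α : WithZero (Multiplicative ℤ)) ≤ 1 := by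
        have e : α = 1 + (α - 1) := by ring
        rw [e]
        exact Valuation.map_add_le _ (by rw [map_one]) (hα1.trans (k35b_lt (by norm_num)).le)
      refine k35b_fin hD hl hl2 hQ' w hw ha (β := α) (G := X * (g ^ 2 * i k)) ?_ ?_
      · exact (k35b_pow _ hα2 hα1 8).trans (k35b_neg (by norm_num))
      · rw [← hi, hia1]
        have e : (Y - R) ^ 2 = α * X ^ 3 := by
          have e1 : X ^ 3 = (Y - R) * (Y + R) := by linear_combination -heq
          rw [e1, hα]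
          field_simp
        rw [e]
        ring
    · subst hm1
      obtain ⟨u, hu⟩ := hl
      have hlu : ¬ la ∣ u := by
        rintro ⟨c, hc⟩
        exact hl2 ⟨c, by rw [hu, hc]; ring⟩
      obtain ⟨L, hLd⟩ : ∃ L, L = i (jF F la) := ⟨_, rfl⟩
      obtain ⟨U, hUd⟩ : ∃ U, U = i (jF F u) := ⟨_, rfl⟩
      have hR3 : R ^ 2 = L ^ 3 * U := by
        rw [hR2, hu, hLd, hUd, ← map_pow, ← map_mul, ← map_pow, ← map_mul]
        congr 2
        ring
      have hvR : Valued.v R = (WithZero.exp (-3 : ℤ) : WithZero (Multiplicative ℤ)) := by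
        rw [hR, hi, h1_val, map_mul, map_pow, map_pow, hwla, hwr, ← WithZero.exp_nsmul, ← WithZero.exp_add]
        norm_num
      have hR0 : R ≠ 0 := by
        rintro rfl
        rw [map_zero] at hvR
        exact WithZero.exp_ne_zero hvR.symm
      have hvY : Valued.v Y ≤ (WithZero.exp (-6 : ℤ) : WithZero (Multiplicative ℤ)) := by
        rw [hY, hval]
        calc (Valued.v y : WithZero (Multiplicative ℤ)) ^ 2 ≤ WithZero.exp (-3 : ℤ) ^ 2 :=
              pow_le_pow_left₀ zero_le hy1 2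
          _ = WithZero.exp (-6 : ℤ) := by rw [← WithZero.exp_nsmul]; norm_num
      obtain ⟨e, hed⟩ : ∃ e, e = Y / R := ⟨_, rfl⟩
      have hve : Valued.v e ≤ (WithZero.exp (-3 : ℤ) : WithZero (Multiplicative ℤ)) := by
        rw [hed, map_div₀, hvR, div_le_iff₀ WithZero.exp_pos, ← WithZero.exp_add]
        norm_num
        exact hvY
      have hu8 : la ∣ u ^ 8 - 1 := by
        obtain ⟨η, hη, h3⟩ := mod_la hlu
        have h4 : la ∣ u ^ 8 - η ^ 8 := h3.trans (sub_dvd_pow_sub_pow _ _ 8)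
        rcases hη with rfl | rfl
        · rwa [one_pow] at h4
        · have e8 : (-1 : Eis) ^ 8 = 1 := by norm_num
          rwa [e8] at h4
      have hU8 : Valued.v (U ^ 8 - 1) ≤ (WithZero.exp (-2 : ℤ) : WithZero (Multiplicative ℤ)) := by
        obtain ⟨c, hc⟩ := hu8
        have e1 : U ^ 8 - 1 = i (jF F (u ^ 8 - 1)) := by
          rw [hUd, map_sub, map_sub, map_pow, map_pow, map_one, map_one]
        rw [e1, hc, hi, h1_val, map_mul, map_mul, hwla]
        exact mul_le_of_le_one_right' (q3a_le w (int_jF F c))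
      have hU1 : (Valued.v U : WithZero (Multiplicative ℤ)) ≤ 1 := by
        rw [hUd, hi, h1_val]
        exact q3a_le w (int_jF F u)
      have he1' : (Valued.v (1 - e) : WithZero (Multiplicative ℤ)) ≤ 1 :=
        Valuation.map_sub_le _ (by rw [map_one]) (hve.trans (k35b_lt (by norm_num)).le)
      have he16 : Valued.v ((1 - e) ^ 16 - 1) ≤ (WithZero.exp (-3 : ℤ) : WithZero (Multiplicative ℤ)) := by
        refine k35b_pow _ he1' ?_ 16
        have e1 : 1 - e - 1 = -e := by ring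
        rw [e1, Valuation.map_neg]
        exact hve
      refine k35b_fin hD ⟨u, hu⟩ hl2 hQ' w hw ha (β := U * (1 - e) ^ 2) (G := L * (g ^ 2 * i k)) ?_ ?_
      · have e1 : (U * (1 - e) ^ 2) ^ 8 - 1 = U ^ 8 * ((1 - e) ^ 16 - 1) + (U ^ 8 - 1) := by ring
        rw [e1]
        refine Valuation.map_add_le _ ?_ hU8
        rw [map_mul, map_pow]
        exact (mul_le_of_le_one_left' (pow_le_one' hU1 8)).trans (he16.trans (k35b_neg (by norm_num)))
      · rw [← hi, hia1]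
        have e1 : (Y - R) ^ 2 = R ^ 2 * (1 - e) ^ 2 := by
          rw [hed]
          field_simp
          ring
        rw [e1, hR3]
        ring

/-- [K35c] -/
theorem kap35 {C : Type} [Field C] {V : Valuation C (WithZero (Multiplicative ℤ))} {l ε : C} (hL : Loc3 V l ε)
    (hε : V (ε + 1) < 1) {d' p q : C} (hd : V d' = WithZero.exp (-1 : ℤ)) (hp : p = (1 + d') / (1 - d')) (hq : q = 2 / (1 - d')) :
    p ^ 2 - q ^ 2 * d' = 1 ∧ (4 * p ^ 3 - 3 * p) ^ 2 - (q * (4 * p ^ 2 - 1)) ^ 2 * d' = 1 ∧ V (4 * p ^ 3 - 3 * p - 1) < 1 ∧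
      V (q * (4 * p ^ 2 - 1) + (d' - l ^ 2)) ≤ WithZero.exp (-3 : ℤ) := by
  have hV3 : V (3 : C) = WithZero.exp (-2 : ℤ) := by
    rw [hL.three, map_mul, map_pow, hL.hl, hL.heps, one_mul, ← WithZero.exp_nsmul]
    rfl
  have hV2 : V (2 : C) = 1 := l1_two hL
  have hd1 : V d' < 1 := by
    rw [hd, ← WithZero.exp_zero, WithZero.exp_lt_exp]
    norm_num
  have hD1 : V (1 - d') = 1 := by
    rw [Valuation.map_sub_eq_of_lt_left V (by rw [map_one]; exact hd1), map_one]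
  have hD0 : (1 - d') ≠ 0 := by
    intro h0
    rw [h0, map_zero] at hD1
    exact zero_ne_one hD1
  have hn : p ^ 2 - q ^ 2 * d' = 1 := by
    rw [hp, hq]
    field_simp
    ring
  have hle : ∀ {x y : C} {a b c : ℤ}, V x ≤ WithZero.exp a → V y ≤ WithZero.exp b → a + b ≤ c → V (x * y) ≤ WithZero.exp c := by
    intro x y a b c hx hy hc
    rw [map_mul]
    refine (mul_le_mul' hx hy).trans ?_
    rw [← WithZero.exp_add, WithZero.exp_le_exp]
    exact hc
  have e0 : ∀ {x : C}, V x ≤ 1 → V x ≤ WithZero.exp (0 : ℤ) := by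
    intro x hx
    rwa [WithZero.exp_zero]
  have v1 : V (1 : C) ≤ WithZero.exp (0 : ℤ) := e0 (map_one V).le
  have v2 : V (2 : C) ≤ WithZero.exp (0 : ℤ) := e0 hV2.le
  have v3 : V (3 : C) ≤ WithZero.exp (-2 : ℤ) := hV3.le
  have vl2 : V (l ^ 2) ≤ WithZero.exp (-2 : ℤ) := by
    rw [pow_two]
    exact hle hL.hl.le hL.hl.le (by norm_num)
  have vd2 : V (d' ^ 2) ≤ WithZero.exp (-2 : ℤ) := by
    rw [pow_two]
    exact hle hd.le hd.le (by norm_num)
  have vd3 : V (d' ^ 3) ≤ WithZero.exp (-3 : ℤ) := by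
    rw [pow_succ]
    exact hle vd2 hd.le (by norm_num)
  have vd4 : V (d' ^ 4) ≤ WithZero.exp (-3 : ℤ) := by
    rw [pow_succ]
    exact hle vd3 hd.le (by norm_num)
  have ve : V (ε + 1) ≤ WithZero.exp (-1 : ℤ) := l1_lt1 hε
  have vp1 : V (p - 1) < 1 := by
    have e1 : p - 1 = 2 * d' / (1 - d') := by
      rw [hp]
      field_simp
      ring
    rw [e1, map_div₀, map_mul, hV2, hD1, one_mul, div_one]
    exact hd1
  have vp : V p ≤ 1 := by
    have e1 : p = (p - 1) + 1 := by ring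
    rw [e1]
    exact V.map_add_le vp1.le (map_one V).le
  refine ⟨hn, ?_, ?_, ?_⟩
  · linear_combination (4 * p ^ 2 - 1) ^ 2 * hn
  · have e1 : 4 * p ^ 3 - 3 * p - 1 = (p - 1) * (2 * p + 1) ^ 2 := by ring
    have h1 : V (2 * p + 1) ≤ 1 := by
      refine V.map_add_le ?_ (map_one V).le
      rw [map_mul, hV2, one_mul]
      exact vp
    rw [e1, map_mul, map_pow]
    exact lt_of_le_of_lt (mul_le_of_le_one_right' (pow_le_one' h1 2)) vp1
  · have e1 : q * (4 * p ^ 2 - 1) + (d' - l ^ 2) =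
        (l ^ 2 * (2 * (ε + 1) - 3) + 3 * ((4 + 3) * d') + 3 * d' ^ 2 + 3 * d' ^ 3 - d' ^ 4 + 3 * (l ^ 2 * d') -
          3 * (l ^ 2 * d' ^ 2) + l ^ 2 * d' ^ 3) / (1 - d') ^ 3 := by
      rw [eq_div_iff (pow_ne_zero 3 hD0), hp, hq]
      field_simp
      linear_combination 2 * hL.three
    have v43 : V ((4 + 3) : C) ≤ WithZero.exp (0 : ℤ) := by
      have e2 : (4 + 3 : C) = 2 * 2 + 3 := by norm_num
      rw [e2]
      refine V.map_add_le (hle v2 v2 (by norm_num)) (v3.trans ?_)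
      rw [WithZero.exp_le_exp]
      norm_num
    rw [e1, map_div₀, map_pow, hD1, one_pow, div_one]
    refine V.map_add_le (V.map_sub_le (V.map_add_le (V.map_sub_le (V.map_add_le (V.map_add_le (V.map_add_le ?_ ?_) ?_) ?_) vd4) ?_) ?_) ?_
    · refine hle vl2 (b := -1) (V.map_sub_le (hle v2 ve (by norm_num)) (v3.trans ?_)) (by norm_num)
      rw [WithZero.exp_le_exp]
      norm_num
    · exact hle v3 (hle v43 hd.le (c := -1) (by norm_num)) (by norm_num)
    · exact hle v3 vd2 (by norm_num)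
    · exact hle v3 vd3 (by norm_num)
    · exact hle v3 (hle vl2 hd.le (c := -3) (by norm_num)) (by norm_num)
    · exact hle v3 (hle vl2 vd2 (c := -4) (by norm_num)) (by norm_num)
    · exact hle vl2 vd3 (by norm_num)

section k35d
open WithZero

theorem k35d_num {C : Type} [Field C] (V : Valuation C (WithZero (Multiplicative ℤ))) (n : ℤ) :
    V (n : C) ≤ 1 := by
  have h : ∀ k : ℕ, V (k : C) ≤ 1 := by
    intro k
    induction k with
    | zero => rw [Nat.cast_zero, map_zero]; exact zero_le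
    | succ k ih => rw [Nat.cast_succ]; exact V.map_add_le ih (map_one V).le
  rcases n with n | n
  · rw [Int.ofNat_eq_natCast, Int.cast_natCast]
    exact h n
  · rw [Int.cast_negSucc, Valuation.map_neg]
    exact h (n + 1)

theorem k35d_poly {C : Type} [Field C] (V : Valuation C (WithZero (Multiplicative ℤ))) {z : C}
    (hz : V z ≤ 1) :
    V (128 * z ^ 6 + 128 * z ^ 5 - 64 * z ^ 4 - 64 * z ^ 3 + 16 * z ^ 2 + 16 * z + 8) ≤ 1 := by
  have hn : ∀ (k : ℤ) (j : ℕ), V ((k : C) * z ^ j) ≤ 1 := fun k j => by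
    rw [map_mul, map_pow]
    exact mul_le_one' (k35d_num V k) (pow_le_one' hz j)
  have e : 128 * z ^ 6 + 128 * z ^ 5 - 64 * z ^ 4 - 64 * z ^ 3 + 16 * z ^ 2 + 16 * z + 8 =
      ((128 : ℤ) : C) * z ^ 6 + ((128 : ℤ) : C) * z ^ 5 + ((-64 : ℤ) : C) * z ^ 4 +
      ((-64 : ℤ) : C) * z ^ 3 + ((16 : ℤ) : C) * z ^ 2 + ((16 : ℤ) : C) * z ^ 1 +
      ((8 : ℤ) : C) * z ^ 0 := by
    push_cast
    ring
  rw [e]
  exact V.map_add_le (V.map_add_le (V.map_add_le (V.map_add_le (V.map_add_le (V.map_add_le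
    (hn _ _) (hn _ _)) (hn _ _)) (hn _ _)) (hn _ _)) (hn _ _)) (hn _ _)

end k35d

/-- [K35d] -/
theorem tht (v : HeightOneSpectrum (𝓞 KK)) {l ε d' : v.adicCompletion KK}
    (hL : Loc3 (Valued.v : Valuation (v.adicCompletion KK) (WithZero (Multiplicative ℤ))) l ε) {m : ℕ} (hm : m = 1 ∨ m = 2)
    (hd : Valued.v d' = (WithZero.exp (-1 : ℤ) : WithZero (Multiplicative ℤ))) :
    ∃ y₀ : v.adicCompletion KK, y₀ ^ 2 = 1 + l ^ (2 * m) * d' ∧ Valued.v (y₀ - 1) ≤ WithZero.exp (-3 : ℤ) ∧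
      Valued.v (T8 y₀ - 1) < (1 : WithZero (Multiplicative ℤ)) ∧
      ∀ σ : ℤ, Valued.v (-((σ : v.adicCompletion KK) * l ^ m) * U7 y₀ - (σ : v.adicCompletion KK) * l ^ m) ≤
        WithZero.exp (-3 : ℤ) := by
  set V : Valuation (v.adicCompletion KK) (WithZero (Multiplicative ℤ)) := Valued.v with hV
  have h2 : V 2 = 1 := l1_two hL
  have h1 : V 1 = 1 := map_one V
  have hl1 : V l ≤ 1 := by
    rw [hL.hl]
    exact l0b_lt.le
  have he : V (l ^ (2 * m) * d') ≤ WithZero.exp (-3 : ℤ) := by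
    rw [map_mul, map_pow, hL.hl, hd, ← WithZero.exp_nsmul, ← WithZero.exp_add, WithZero.exp_le_exp]
    rcases hm with rfl | rfl <;> norm_num
  have he1 : V (l ^ (2 * m) * d') < 1 := l1_of_le (by norm_num) he
  obtain ⟨z, hz, hz1⟩ := sqrt_one v h2 (x := 1 + l ^ (2 * m) * d') (by
    have : 1 + l ^ (2 * m) * d' - 1 = l ^ (2 * m) * d' := by ring
    rw [this]
    exact he1)
  have hz1' : V (z - 1) < 1 := hz1
  have hVz : V z = 1 := l1_one_of h1 hz1'
  have hzp : V (z + 1) = 1 := by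
    have e : z + 1 = 2 + (z - 1) := by ring
    rw [e, Valuation.map_add_eq_of_lt_left V (by rw [h2]; exact hz1'), h2]
  have hzm : V (z - 1) ≤ WithZero.exp (-3 : ℤ) := by
    have e : (z - 1) * (z + 1) = l ^ (2 * m) * d' := by linear_combination hz
    have h3 : V ((z - 1) * (z + 1)) ≤ WithZero.exp (-3 : ℤ) := by rw [e]; exact he
    rwa [map_mul, hzp, mul_one] at h3
  refine ⟨z, hz, hzm, ?_, ?_⟩
  · have e : T8 z - 1 = (z - 1) * (((32 : ℤ) : v.adicCompletion KK) * z ^ 2 * (z + 1) *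
        (((2 : ℤ) : v.adicCompletion KK) * z ^ 2 - 1) ^ 2) := by
      unfold T8
      push_cast
      ring
    have h3 : V (((32 : ℤ) : v.adicCompletion KK) * z ^ 2 * (z + 1) *
        (((2 : ℤ) : v.adicCompletion KK) * z ^ 2 - 1) ^ 2) ≤ 1 := by
      rw [map_mul, map_mul, map_mul, map_pow, map_pow, hVz, hzp, one_pow, mul_one, mul_one]
      refine mul_le_one' (k35d_num V _) (pow_le_one' (V.map_sub_le ?_ h1.le) 2)
      rw [map_mul, map_pow, hVz, one_pow, mul_one]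
      exact k35d_num V _
    rw [e, map_mul]
    exact lt_of_le_of_lt (mul_le_of_le_one_right' h3) hz1'
  · intro σ
    have e : -((σ : v.adicCompletion KK) * l ^ m) * U7 z - (σ : v.adicCompletion KK) * l ^ m =
        ((σ : v.adicCompletion KK) * l ^ m) * (-((z - 1) * (128 * z ^ 6 + 128 * z ^ 5 - 64 * z ^ 4 -
          64 * z ^ 3 + 16 * z ^ 2 + 16 * z + 8)) - 3 ^ 2) := by
      unfold U7
      ring
    rw [e, map_mul]
    have h3 : V ((σ : v.adicCompletion KK) * l ^ m) ≤ 1 := by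
      rw [map_mul, map_pow]
      exact mul_le_one' (k35d_num V σ) (pow_le_one' hl1 m)
    refine (mul_le_of_le_one_left' h3).trans (V.map_sub_le ?_ ?_)
    · rw [Valuation.map_neg, map_mul]
      exact (mul_le_of_le_one_right' (k35d_poly V hVz.le)).trans hzm
    · rw [map_pow, hL.three, map_mul, map_pow, hL.heps, hL.hl, one_mul, ← WithZero.exp_nsmul,
        ← WithZero.exp_nsmul, WithZero.exp_le_exp]
      norm_num

section s35aux
open WithZero
variable {C : Type} [Field C] {w : Valuation C (WithZero (Multiplicative ℤ))} {l ε d : C}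

theorem s35_comp (hL : Loc3 w l ε) (hd : w d = exp (-1 : ℤ)) {P Q P₂ Q₂ : C}
    (hP : P ^ 2 - Q ^ 2 * d = 1) (hP1 : w (P - 1) < 1) (hQ : w Q ≤ exp (-1 : ℤ))
    (hP' : P₂ ^ 2 - Q₂ ^ 2 * d = 1) (hP1' : w (P₂ - 1) < 1) (hQ' : w Q₂ ≤ exp (-1 : ℤ)) :
    (P * P₂ + Q * Q₂ * d) ^ 2 - (P * Q₂ + P₂ * Q) ^ 2 * d = 1 ∧ w (P * P₂ + Q * Q₂ * d - 1) < 1 ∧
      w (P * Q₂ + P₂ * Q - (Q + Q₂)) ≤ exp (-3 : ℤ) ∧ w (P * Q₂ + P₂ * Q) ≤ exp (-1 : ℤ) := by
  have key : ∀ R S : C, R ^ 2 - S ^ 2 * d = 1 → w (R - 1) < 1 → w S ≤ exp (-1 : ℤ) → w (R - 1) ≤ exp (-3 : ℤ) := by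
    intro R S h1 h2 h3
    have hRp : w (R + 1) = 1 := by
      have e : R + 1 - 2 = R - 1 := by ring
      refine l1_one_of (l1_two hL) ?_
      rw [e]
      exact h2
    have e : w (R - 1) = w ((R - 1) * (R + 1)) := by rw [map_mul, hRp, mul_one]
    have e2 : (R - 1) * (R + 1) = S * S * d := by linear_combination h1
    rw [e, e2]
    exact e3_mul _ (e3_mul (-2) h3 h3 (by norm_num)) hd.le (by norm_num)
  have k1 := key P Q hP hP1 hQ
  have k2 := key P₂ Q₂ hP' hP1' hQ'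
  have hP0 : w P₂ ≤ exp (0 : ℤ) := by
    have e : P₂ = (P₂ - 1) + 1 := by ring
    rw [e]
    exact w.map_add_le (e3_mono _ k2 (by norm_num)) (by rw [map_one, exp_zero])
  have k3 : w (P * Q₂ + P₂ * Q - (Q + Q₂)) ≤ exp (-3 : ℤ) := by
    have e : P * Q₂ + P₂ * Q - (Q + Q₂) = (P - 1) * Q₂ + (P₂ - 1) * Q := by ring
    rw [e]
    exact w.map_add_le (e3_mul _ k1 hQ' (by norm_num)) (e3_mul _ k2 hQ (by norm_num))
  refine ⟨?_, ?_, k3, ?_⟩
  · linear_combination (P₂ ^ 2 - Q₂ ^ 2 * d) * hP + hP'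
  · have e : P * P₂ + Q * Q₂ * d - 1 = (P - 1) * P₂ + ((P₂ - 1) + Q * Q₂ * d) := by ring
    rw [e]
    refine l1_of_le (n := -1) (by norm_num) (w.map_add_le (e3_mul _ k1 hP0 (by norm_num)) (w.map_add_le
      (e3_mono _ k2 (by norm_num)) (e3_mul _ (e3_mul (-2) hQ hQ' (by norm_num)) hd.le (by norm_num))))
  · have e : P * Q₂ + P₂ * Q = (P * Q₂ + P₂ * Q - (Q + Q₂)) + (Q + Q₂) := by ring
    rw [e]
    exact w.map_add_le (e3_mono _ k3 (by norm_num)) (w.map_add_le hQ hQ')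

theorem s35_res (hL : Loc3 w l ε) {x : C} (hx : w x ≤ 1) :
    ∃ a : ℤ, a ∈ ({0, 1, -1} : Finset ℤ) ∧ w (x - (a : C)) < 1 := by
  rcases hL.res x hx with h | h | h
  · exact ⟨0, by decide, by rw [Int.cast_zero, sub_zero]; exact h⟩
  · exact ⟨1, by decide, by rw [Int.cast_one]; exact h⟩
  · exact ⟨-1, by decide, by rw [Int.cast_neg, Int.cast_one, sub_neg_eq_add]; exact h⟩

theorem s35_dig (hL : Loc3 w l ε) {x : C} (hx : w x ≤ exp (-1 : ℤ)) :
    ∃ a b : ℤ, a ∈ ({0, 1, -1} : Finset ℤ) ∧ b ∈ ({0, 1, -1} : Finset ℤ) ∧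
      w (x - ((a : C) * l + (b : C) * l ^ 2)) ≤ exp (-3 : ℤ) := by
  obtain ⟨t, ht, hwt⟩ := l1_div hL (l1_of_le (by norm_num) hx)
  obtain ⟨a, ha, hta⟩ := s35_res hL hwt
  obtain ⟨s, hs, hws⟩ := l1_div hL hta
  obtain ⟨b, hb, hsb⟩ := s35_res hL hws
  refine ⟨a, b, ha, hb, ?_⟩
  have e : x - ((a : C) * l + (b : C) * l ^ 2) = l * (l * (s - (b : C))) := by
    rw [ht]
    linear_combination l * hs
  rw [e]
  exact e3_mul _ hL.hl.le (e3_mul (-2) hL.hl.le (l1_lt1 hsb) (by norm_num)) (by norm_num)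

theorem s35_dvd (hL : Loc3 w l ε) {n : ℤ} (hn : (3 : ℤ) ∣ n) : w (n : C) ≤ exp (-2 : ℤ) := by
  obtain ⟨k, rfl⟩ := hn
  rw [Int.cast_mul]
  have h0 : w (k : C) ≤ exp (0 : ℤ) := by rw [exp_zero]; exact dt_int k
  have h3 : w ((3 : ℤ) : C) ≤ exp (-2 : ℤ) := by
    have := e3x_three hL
    push_cast
    exact this
  exact e3_mul _ h3 h0 (by norm_num)

theorem s35_fin1 : ∀ δ₀ ∈ ({1, -1} : Finset ℤ), ∀ δ₁ ∈ ({0, -1} : Finset ℤ), ∀ a ∈ ({0, 1, -1} : Finset ℤ),
    ∀ b ∈ ({0, 1, -1} : Finset ℤ), ∃ i ∈ ({0, 1, -1} : Finset ℤ), ∃ j ∈ ({0, 1, -1} : Finset ℤ),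
      (3 : ℤ) ∣ a - i * δ₀ + j ∧ (3 : ℤ) ∣ b - i * (δ₁ - 1) := by
  decide

theorem s35_fin2 : ∀ δ₀ ∈ ({1, -1} : Finset ℤ), ∀ δ₁ ∈ ({0, 1, -1} : Finset ℤ), ∀ a ∈ ({0, 1, -1} : Finset ℤ),
    ∀ b ∈ ({0, 1, -1} : Finset ℤ), ∃ i ∈ ({0, 1, -1} : Finset ℤ), ∃ j ∈ ({0, 1, -1} : Finset ℤ),
      (3 : ℤ) ∣ a - i * δ₀ ∧ (3 : ℤ) ∣ b - i * (δ₁ - 1) + j := by
  decide

theorem s35_choose (hL : Loc3 w l ε) {m : ℕ} (hm : m = 1 ∨ m = 2) (hd : w d = exp (-1 : ℤ))
    (hq : m = 1 → ∀ η : C, (η = 1 ∨ η = -1) → ¬ w (d - l * (η + l)) ≤ exp (-3 : ℤ)) {Q : C} (hQ : w Q ≤ exp (-1 : ℤ)) :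
    ∃ i j : ℤ, i ∈ ({0, 1, -1} : Finset ℤ) ∧ j ∈ ({0, 1, -1} : Finset ℤ) ∧
      w (Q - (i : C) * (d - l ^ 2) + (j : C) * l ^ m) ≤ exp (-3 : ℤ) := by
  obtain ⟨a, b, ha, hb, hab⟩ := s35_dig hL hQ
  obtain ⟨δ₀, δ₁, h0, h1, hδ⟩ := s35_dig hL hd.le
  have hl : w l ≤ exp (-1 : ℤ) := hL.hl.le
  have hl2 : w (l ^ 2) ≤ exp (-2 : ℤ) := by
    rw [pow_two]
    exact e3_mul _ hl hl (by norm_num)
  have hint : ∀ n : ℤ, w (n : C) ≤ exp (0 : ℤ) := fun n => by rw [exp_zero]; exact dt_int n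
  have h0' : δ₀ ∈ ({1, -1} : Finset ℤ) := by
    by_contra hne
    have hz : δ₀ = 0 := by
      simp only [Finset.mem_insert, Finset.mem_singleton] at h0 hne
      omega
    have h2 : w d ≤ exp (-2 : ℤ) := by
      have e : d = (d - ((δ₀ : C) * l + (δ₁ : C) * l ^ 2)) + (δ₁ : C) * l ^ 2 := by
        rw [hz, Int.cast_zero]
        ring
      rw [e]
      exact w.map_add_le (e3_mono _ hδ (by norm_num)) (e3_mul _ (hint δ₁) hl2 (by norm_num))
    rw [hd, exp_le_exp] at h2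
    norm_num at h2
  rcases hm with rfl | rfl
  · have h1' : δ₁ ∈ ({0, -1} : Finset ℤ) := by
      by_contra hne
      have hz : δ₁ = 1 := by
        simp only [Finset.mem_insert, Finset.mem_singleton] at h1 hne
        omega
      refine hq rfl (δ₀ : C) ?_ ?_
      · simp only [Finset.mem_insert, Finset.mem_singleton] at h0'
        rcases h0' with h | h
        · left
          rw [h, Int.cast_one]
        · right
          rw [h, Int.cast_neg, Int.cast_one]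
      · have e : d - l * ((δ₀ : C) + l) = d - ((δ₀ : C) * l + (δ₁ : C) * l ^ 2) := by
          rw [hz, Int.cast_one]
          ring
        rw [e]
        exact hδ
    obtain ⟨i, hi, j, hj, hij1, hij2⟩ := s35_fin1 δ₀ h0' δ₁ h1' a ha b hb
    refine ⟨i, j, hi, hj, ?_⟩
    have e : Q - (i : C) * (d - l ^ 2) + (j : C) * l ^ 1 = (Q - ((a : C) * l + (b : C) * l ^ 2)) +
        (((a - i * δ₀ + j : ℤ) : C) * l + (((b - i * (δ₁ - 1) : ℤ) : C) * l ^ 2 -
          (i : C) * (d - ((δ₀ : C) * l + (δ₁ : C) * l ^ 2)))) := by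
      push_cast
      ring
    rw [e]
    exact w.map_add_le hab (w.map_add_le (e3_mul _ (s35_dvd hL hij1) hl (by norm_num)) (w.map_sub_le
      (e3_mul _ (s35_dvd hL hij2) hl2 (by norm_num)) (e3_mul _ (hint i) hδ (by norm_num))))
  · obtain ⟨i, hi, j, hj, hij1, hij2⟩ := s35_fin2 δ₀ h0' δ₁ h1 a ha b hb
    refine ⟨i, j, hi, hj, ?_⟩
    have e : Q - (i : C) * (d - l ^ 2) + (j : C) * l ^ 2 = (Q - ((a : C) * l + (b : C) * l ^ 2)) +
        (((a - i * δ₀ : ℤ) : C) * l + (((b - i * (δ₁ - 1) + j : ℤ) : C) * l ^ 2 -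
          (i : C) * (d - ((δ₀ : C) * l + (δ₁ : C) * l ^ 2)))) := by
      push_cast
      ring
    rw [e]
    exact w.map_add_le hab (w.map_add_le (e3_mul _ (s35_dvd hL hij1) hl (by norm_num)) (w.map_sub_le
      (e3_mul _ (s35_dvd hL hij2) hl2 (by norm_num)) (e3_mul _ (hint i) hδ (by norm_num))))

/-- the powers `κ^(3 i)`, `i ∈ {0, 1, -1}` -/
theorem s35_kap {M : Type} [Field M] (φ : C →+* M) {ρ' : M} (hr : ρ' ^ 2 = φ d) {Pk Qk p q : C}
    (hPk : Pk = 4 * p ^ 3 - 3 * p) (hQk : Qk = q * (4 * p ^ 2 - 1)) (hpq : p ^ 2 - q ^ 2 * d = 1)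
    (hN : Pk ^ 2 - Qk ^ 2 * d = 1) (hP1 : w (Pk - 1) < 1)
    (hQ1 : w (Qk + (d - l ^ 2)) ≤ exp (-3 : ℤ)) {i : ℤ} (hi : i ∈ ({0, 1, -1} : Finset ℤ)) :
    ∃ (P Q a b : C), (φ a + φ b * ρ') ^ 3 = φ P + φ Q * ρ' ∧ φ a + φ b * ρ' ≠ 0 ∧ P ^ 2 - Q ^ 2 * d = 1 ∧ w (P - 1) < 1 ∧
      w (Q + (i : C) * (d - l ^ 2)) ≤ exp (-3 : ℤ) := by
  have hpq' : φ p ^ 2 - φ q ^ 2 * φ d = 1 := by
    have := congrArg φ hpq
    simpa only [map_sub, map_mul, map_pow, map_one] using this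
  simp only [Finset.mem_insert, Finset.mem_singleton] at hi
  rcases hi with rfl | rfl | rfl
  · refine ⟨1, 0, 1, 0, ?_, ?_, ?_, ?_, ?_⟩
    · rw [map_one, map_zero, zero_mul, add_zero, one_pow]
    · rw [map_one, map_zero, zero_mul, add_zero]
      exact one_ne_zero
    · ring
    · rw [sub_self, map_zero]
      exact zero_lt_one
    · rw [Int.cast_zero, zero_mul, add_zero, map_zero]
      exact zero_le
  · refine ⟨Pk, Qk, p, q, ?_, ?_, hN, hP1, ?_⟩
    · rw [hPk, hQk]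
      simp only [map_sub, map_mul, map_pow, map_ofNat, map_one]
      linear_combination (3 * φ p * φ q ^ 2 + φ q ^ 3 * ρ') * hr - (3 * φ p + φ q * ρ') * hpq'
    · intro h0
      have h1 : (φ p + φ q * ρ') * (φ p - φ q * ρ') = 1 := by
        linear_combination hpq' - (φ q ^ 2) * hr
      rw [h0, zero_mul] at h1
      exact zero_ne_one h1
    · rw [Int.cast_one, one_mul]
      exact hQ1
  · refine ⟨Pk, -Qk, p, -q, ?_, ?_, ?_, hP1, ?_⟩
    · rw [hPk, hQk]
      simp only [map_sub, map_mul, map_pow, map_ofNat, map_one, map_neg]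
      linear_combination (3 * φ p * φ q ^ 2 - φ q ^ 3 * ρ') * hr - (3 * φ p - φ q * ρ') * hpq'
    · intro h0
      have h1 : (φ p + φ (-q) * ρ') * (φ p + φ q * ρ') = 1 := by
        rw [map_neg]
        linear_combination hpq' - (φ q ^ 2) * hr
      rw [h0, zero_mul] at h1
      exact zero_ne_one h1
    · rw [neg_sq]
      exact hN
    · have e : -Qk + ((-1 : ℤ) : C) * (d - l ^ 2) = -(Qk + (d - l ^ 2)) := by
        push_cast
        ring
      rw [e, Valuation.map_neg]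
      exact hQ1

end s35aux

/-- [K35e] -/
theorem sol35 (v : HeightOneSpectrum (𝓞 KK)) {l ε d' u y : v.adicCompletion KK}
    (hL : Loc3 (Valued.v : Valuation (v.adicCompletion KK) (WithZero (Multiplicative ℤ))) l ε)
    (hε : Valued.v (ε + 1) < (1 : WithZero (Multiplicative ℤ))) {m : ℕ} (hm : m = 1 ∨ m = 2)
    (hd : Valued.v d' = (WithZero.exp (-1 : ℤ) : WithZero (Multiplicative ℤ)))
    (hq : m = 1 → ∀ η : v.adicCompletion KK, (η = 1 ∨ η = -1) → ¬ Valued.v (d' - l * (η + l)) ≤ WithZero.exp (-3 : ℤ))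
    (h : u ^ 2 - y ^ 2 * d' = 1) (hT : Valued.v (T8 u - 1) < (1 : WithZero (Multiplicative ℤ)))
    (hQ : Valued.v (y * U7 u) ≤ WithZero.exp (-1 : ℤ))
    {M : Type} [Field M] [Algebra (v.adicCompletion KK) M] {ρ ρ' : M} (hr : ρ' ^ 2 = algebraMap (v.adicCompletion KK) M d')
    (hρ : ρ = algebraMap (v.adicCompletion KK) M (l ^ m) * ρ') :
    LocSol (l ^ (2 * m) * d') ρ (algebraMap (v.adicCompletion KK) M u + algebraMap (v.adicCompletion KK) M y * ρ') := by
  obtain ⟨p, hp⟩ : ∃ p : v.adicCompletion KK, p = (1 + d') / (1 - d') := ⟨_, rfl⟩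
  obtain ⟨q, hqd⟩ : ∃ q : v.adicCompletion KK, q = 2 / (1 - d') := ⟨_, rfl⟩
  obtain ⟨hpq, hkN, hkP, hkQ⟩ := kap35 hL hε hd hp hqd
  obtain ⟨y₀, hy₀, hy₀1, hty, htU⟩ := tht v hL hm hd
  set φ := algebraMap (v.adicCompletion KK) M with hφ
  have hl0 : l ≠ 0 := by
    intro h0
    have h1 := hL.hl
    rw [h0, map_zero] at h1
    exact WithZero.exp_ne_zero h1.symm
  have hφl : φ (l ^ m) ≠ 0 := (map_ne_zero φ).2 (pow_ne_zero m hl0)
  have hρm : ρ ∈ IntermediateField.adjoin (v.adicCompletion KK) {ρ} := IntermediateField.mem_adjoin_simple_self _ ρ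
  have hρ'm : ρ' ∈ IntermediateField.adjoin (v.adicCompletion KK) {ρ} := by
    have e : ρ' = (φ (l ^ m))⁻¹ * ρ := by
      rw [hρ]
      field_simp
    rw [e]
    exact mul_mem (inv_mem (algebraMap_mem _ _)) hρm
  have hmem : ∀ a b : v.adicCompletion KK, φ a + φ b * ρ' ∈ IntermediateField.adjoin (v.adicCompletion KK) {ρ} := fun a b =>
    add_mem (algebraMap_mem _ a) (mul_mem (algebraMap_mem _ b) hρ'm)
  obtain ⟨hα8, hPQ⟩ := e3x_pow8 φ hr h
  obtain ⟨P, hPd⟩ : ∃ P : v.adicCompletion KK, P = T8 u := ⟨_, rfl⟩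
  obtain ⟨Q, hQd⟩ : ∃ Q : v.adicCompletion KK, Q = y * U7 u := ⟨_, rfl⟩
  rw [← hPd, ← hQd] at hα8 hPQ
  rw [← hQd] at hQ
  rw [← hPd] at hT
  have hα0 : φ u + φ y * ρ' ≠ 0 := by
    intro h0
    have h2 : φ u ^ 2 - φ y ^ 2 * φ d' = 1 := by
      have := congrArg φ h
      simpa only [map_sub, map_mul, map_pow, map_one] using this
    have h1 : (φ u + φ y * ρ') * (φ u - φ y * ρ') = 1 := by
      linear_combination h2 - (φ y ^ 2) * hr
    rw [h0, zero_mul] at h1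
    exact zero_ne_one h1
  obtain ⟨i, j, hi, hj, hij⟩ := s35_choose hL hm hd hq hQ
  -- the powers of `κ`
  obtain ⟨P₁, Q₁, a₁, b₁, hk3, hk0, hN1, hP1, hQ1⟩ := s35_kap φ hr rfl rfl hpq hkN hkP hkQ hi
  have hdl : (Valued.v (d' - l ^ 2) : WithZero (Multiplicative ℤ)) ≤ WithZero.exp (-1 : ℤ) := by
    refine Valuation.map_sub_le _ hd.le ?_
    rw [pow_two]
    exact e3_mul _ hL.hl.le hL.hl.le (by norm_num)
  have hQ1' : (Valued.v Q₁ : WithZero (Multiplicative ℤ)) ≤ WithZero.exp (-1 : ℤ) := by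
    have e : Q₁ = (Q₁ + (i : v.adicCompletion KK) * (d' - l ^ 2)) - (i : v.adicCompletion KK) * (d' - l ^ 2) := by ring
    rw [e]
    exact Valuation.map_sub_le _ (e3_mono _ hQ1 (by norm_num))
      (e3_mul _ (by rw [WithZero.exp_zero]; exact dt_int i) hdl (by norm_num))
  obtain ⟨c1, c2, c3, c4⟩ := s35_comp hL hd hPQ hT hQ hN1 hP1 hQ1'
  obtain ⟨A, hA⟩ : ∃ A : v.adicCompletion KK, A = P * P₁ + Q * Q₁ * d' := ⟨_, rfl⟩
  obtain ⟨B, hB⟩ : ∃ B : v.adicCompletion KK, B = P * Q₁ + P₁ * Q := ⟨_, rfl⟩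
  rw [← hA, ← hB] at c1
  rw [← hA] at c2
  rw [← hB] at c3 c4
  obtain ⟨α, hα⟩ : ∃ α : M, α = φ u + φ y * ρ' := ⟨_, rfl⟩
  obtain ⟨κ, hκ⟩ : ∃ κ : M, κ = φ a₁ + φ b₁ * ρ' := ⟨_, rfl⟩
  have hαm : α ∈ IntermediateField.adjoin (v.adicCompletion KK) {ρ} := by rw [hα]; exact hmem _ _
  have hκm : κ ∈ IntermediateField.adjoin (v.adicCompletion KK) {ρ} := by rw [hκ]; exact hmem _ _
  rw [← hα] at hα8 hα0 ⊢
  rw [← hκ] at hk3 hk0
  have hAB : α ^ 8 * κ ^ 3 = φ A + φ B * ρ' := by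
    rw [hα8, hk3, hA, hB]
    simp only [map_add, map_mul]
    linear_combination (φ Q * φ Q₁) * hr
  -- a class with `V B ≤ exp (-3)` is a cube
  have hcube : ∀ A' B' : v.adicCompletion KK, A' ^ 2 - B' ^ 2 * d' = 1 →
      Valued.v (A' - 1) < (1 : WithZero (Multiplicative ℤ)) →
      Valued.v B' ≤ (WithZero.exp (-3 : ℤ) : WithZero (Multiplicative ℤ)) →
      ∃ γ ∈ IntermediateField.adjoin (v.adicCompletion KK) {ρ}, γ ^ 3 = φ A' + φ B' * ρ' ∧ γ ≠ 0 := by
    intro A' B' h1 h2 h3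
    obtain ⟨a, b, k1, k2, k3⟩ := sol_laR v hL hd h2 h3 h1
    have h1' : φ A' ^ 2 - φ B' ^ 2 * φ d' = 1 := by
      have := congrArg φ h1
      simpa only [map_sub, map_mul, map_pow, map_one] using this
    have hβ : (φ a + φ b * ρ') ^ 3 = φ A' + φ B' * ρ' := by
      refine cheb hr ?_ ?_ h1' ?_
      · rw [← k1]
        simp only [map_sub, map_mul, map_pow, map_ofNat]
      · rw [← k2]
        simp only [map_sub, map_mul, map_pow, map_ofNat, map_one]
      · have := (map_ne_zero φ).2 k3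
        simpa only [map_sub, map_mul, map_pow, map_ofNat, map_one] using this
    refine ⟨φ a + φ b * ρ', hmem a b, hβ, ?_⟩
    intro h0
    rw [h0, zero_pow three_ne_zero] at hβ
    have h4 : (φ A' + φ B' * ρ') * (φ A' - φ B' * ρ') = 1 := by
      linear_combination h1' - (φ B' ^ 2) * hr
    rw [← hβ, zero_mul] at h4
    exact zero_ne_one h4
  simp only [Finset.mem_insert, Finset.mem_singleton] at hj
  by_cases hj0 : j = 0
  · -- the class is a cube
    have hB3 : (Valued.v B : WithZero (Multiplicative ℤ)) ≤ WithZero.exp (-3 : ℤ) := by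
      have e : B = (B - (Q + Q₁)) + ((Q - (i : v.adicCompletion KK) * (d' - l ^ 2) + (j : v.adicCompletion KK) * l ^ m) +
          (Q₁ + (i : v.adicCompletion KK) * (d' - l ^ 2))) := by
        rw [hj0, Int.cast_zero]
        ring
      rw [e]
      exact Valuation.map_add_le _ c3 (Valuation.map_add_le _ hij hQ1)
    obtain ⟨γ, hγ, hγ3, hγ0⟩ := hcube A B c1 c2 hB3
    left
    refine ⟨α ^ 3 * κ / γ, div_mem (mul_mem (pow_mem hαm 3) hκm) hγ, ?_⟩
    rw [← hAB] at hγ3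
    rw [div_pow, hγ3]
    have hα8' := pow_ne_zero 8 hα0
    have hκ3' := pow_ne_zero 3 hk0
    field_simp
  -- the class of a point `(1, ± y₀)`
  obtain ⟨P₂, hP2d⟩ : ∃ P₂ : v.adicCompletion KK, P₂ = T8 y₀ := ⟨_, rfl⟩
  obtain ⟨Q₂, hQ2d⟩ : ∃ Q₂ : v.adicCompletion KK, Q₂ = -((j : v.adicCompletion KK) * l ^ m) * U7 y₀ := ⟨_, rfl⟩
  have hj2 : (j : v.adicCompletion KK) ^ 2 = 1 := by
    rcases hj with h5 | h5 | h5
    · exact absurd h5 hj0
    · rw [h5, Int.cast_one, one_pow]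
    · rw [h5, Int.cast_neg, Int.cast_one]
      ring
  have hlm : (l ^ m) ^ 2 = l ^ (2 * m) := by rw [← pow_mul, mul_comm]
  have hNy : y₀ ^ 2 - (-((j : v.adicCompletion KK) * l ^ m)) ^ 2 * d' = 1 := by
    rw [hy₀, neg_sq, mul_pow, hj2, hlm]
    ring
  obtain ⟨hθ8, hPQ2⟩ := e3x_pow8 φ hr hNy
  have hU2 := htU j
  rw [← hP2d, ← hQ2d] at hθ8 hPQ2
  rw [← hQ2d] at hU2
  rw [← hP2d] at hty
  have hjl : (Valued.v ((j : v.adicCompletion KK) * l ^ m) : WithZero (Multiplicative ℤ)) ≤ WithZero.exp (-1 : ℤ) := by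
    refine e3_mul _ (m := 0) (n := -1) (by rw [WithZero.exp_zero]; exact dt_int j) ?_ (by norm_num)
    rcases hm with rfl | rfl
    · rw [pow_one]
      exact hL.hl.le
    · rw [pow_two]
      exact e3_mul _ hL.hl.le hL.hl.le (by norm_num)
  have hQ2' : (Valued.v Q₂ : WithZero (Multiplicative ℤ)) ≤ WithZero.exp (-1 : ℤ) := by
    have e : Q₂ = (Q₂ - (j : v.adicCompletion KK) * l ^ m) + (j : v.adicCompletion KK) * l ^ m := by ring
    rw [e]
    exact Valuation.map_add_le _ (e3_mono _ hU2 (by norm_num)) hjl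
  obtain ⟨f1, f2, f3, -⟩ := s35_comp hL hd c1 c2 c4 hPQ2 hty hQ2'
  have hB3 : (Valued.v (A * Q₂ + P₂ * B) : WithZero (Multiplicative ℤ)) ≤ WithZero.exp (-3 : ℤ) := by
    have e : A * Q₂ + P₂ * B = (A * Q₂ + P₂ * B - (B + Q₂)) + ((B - (Q + Q₁)) +
        ((Q - (i : v.adicCompletion KK) * (d' - l ^ 2) + (j : v.adicCompletion KK) * l ^ m) +
          ((Q₁ + (i : v.adicCompletion KK) * (d' - l ^ 2)) + (Q₂ - (j : v.adicCompletion KK) * l ^ m)))) := by
      ring
    rw [e]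
    exact Valuation.map_add_le _ f3 (Valuation.map_add_le _ c3 (Valuation.map_add_le _ hij (Valuation.map_add_le _ hQ1 hU2)))
  obtain ⟨γ, hγ, hγ3, hγ0⟩ := hcube _ _ f1 f2 hB3
  obtain ⟨θ, hθ⟩ : ∃ θ : M, θ = φ y₀ + φ (-((j : v.adicCompletion KK) * l ^ m)) * ρ' := ⟨_, rfl⟩
  have hθm : θ ∈ IntermediateField.adjoin (v.adicCompletion KK) {ρ} := by rw [hθ]; exact hmem _ _
  rw [← hθ] at hθ8
  have h8 : α ^ 8 * κ ^ 3 * θ ^ 8 = γ ^ 3 := by
    rw [hγ3, hAB, hθ8]
    simp only [map_add, map_mul]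
    linear_combination (φ B * φ Q₂) * hr
  have hθj : θ = φ y₀ - (j : M) * ρ := by
    rw [hθ, hρ, map_neg, map_mul, map_intCast]
    ring
  have hρ2 : ρ ^ 2 = φ (l ^ (2 * m) * d') := by
    rw [hρ, mul_pow, hr, map_mul, ← map_pow, hlm]
  have hy₀M : φ y₀ ^ 2 = 1 + ρ ^ 2 := by
    rw [hρ2]
    have := congrArg φ hy₀
    simpa only [map_add, map_pow, map_one] using this
  have hjM : (j : M) ^ 2 = 1 := by
    have := congrArg φ hj2
    rwa [map_pow, map_intCast, map_one] at this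
  have hθθ : θ * (φ y₀ + (j : M) * ρ) = 1 := by
    rw [hθj]
    linear_combination hy₀M - ρ ^ 2 * hjM
  have hθ0 : θ ≠ 0 := left_ne_zero_of_mul_eq_one hθθ
  obtain ⟨g, hg⟩ : ∃ g : M, g = γ / ((α * θ) ^ 3 * κ) := ⟨_, rfl⟩
  have hgm : g ∈ IntermediateField.adjoin (v.adicCompletion KK) {ρ} := by
    rw [hg]
    exact div_mem hγ (mul_mem (pow_mem (mul_mem hαm hθm) 3) hκm)
  have hg0 : g ≠ 0 := by
    rw [hg]
    exact div_ne_zero hγ0 (mul_ne_zero (pow_ne_zero 3 (mul_ne_zero hα0 hθ0)) hk0)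
  have hg3 : g ^ 3 * (α * θ) = 1 := by
    rw [hg, div_pow, ← h8]
    field_simp
  have hkey : α * g ^ 3 = φ y₀ + (j : M) * ρ := by
    have e1 : (α * g ^ 3) * θ = (φ y₀ + (j : M) * ρ) * θ := by
      rw [mul_comm (φ y₀ + (j : M) * ρ) θ, hθθ, ← hg3]
      ring
    exact mul_right_cancel₀ hθ0 e1
  have hne : φ y₀ + (j : M) * ρ ≠ 0 := by
    rw [← hkey]
    exact mul_ne_zero hα0 (pow_ne_zero 3 hg0)
  right
  rcases hj with h5 | h5 | h5
  · exact absurd h5 hj0
  · -- `j = 1`: the point `(1, -y₀)`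
    rw [h5, Int.cast_one, one_mul] at hkey hne
    refine ⟨1, -y₀, -g, neg_mem hgm, neg_ne_zero.2 hg0, ?_, ?_, ?_⟩
    · rw [neg_sq, hy₀]
      ring
    · rw [← hφ, map_neg]
      intro h0
      apply hne
      linear_combination -h0
    · rw [← hφ, map_neg]
      linear_combination hkey
  · -- `j = -1`: the point `(1, y₀)`
    rw [h5, Int.cast_neg, Int.cast_one] at hkey hne
    refine ⟨1, y₀, g, hgm, hg0, ?_, ?_, ?_⟩
    · rw [hy₀]
      ring
    · rw [← hφ]
      intro h0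
      apply hne
      linear_combination h0
    · rw [← hφ]
      linear_combination -hkey

/-- [K35f] -/
theorem conv_35 {D' : Eis} {F : Type} [Field F] [NumberField F] [Algebra KK F] {r' : F} {τ : F ≃ₐ[KK] F}
    (hD : D' ≠ 0) (hl : la ∣ D') (hl2 : ¬ la ^ 2 ∣ D') (hQ' : Quad D' r' τ) {m : ℕ} (hm : m = 1 ∨ m = 2)
    (hq : m = 1 → ∀ η : Eis, (η = 1 ∨ η = -1) → ¬ la ^ 3 ∣ D' - la * (η + la)) :
    Conv (la ^ (2 * m) * D') (jF F (la ^ m) * r') τ P8 := by
  intro a u y ha hP huy v hv M _ _ ρ hρ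
  have hL := e7a_loc hv
  obtain ⟨w, hw⟩ := exists_ov hD hQ'
  obtain ⟨hwla, hwr⟩ := ovR hD hl hl2 hQ' w hw
  obtain ⟨y₁, hy₁⟩ : ∃ y₁ : KK, y₁ = y * jK (la ^ m) := ⟨_, rfl⟩
  have huy1 : a = algebraMap KK F u + algebraMap KK F y₁ * r' := by
    rw [huy, hy₁, map_mul, jF_apply]
    ring
  have h2 : w.valuation F (2 : F) = 1 := by
    have h3 : (2 : F) = jF F 2 := by rw [map_ofNat]
    rw [h3]
    refine le_antisymm (q3a_le w (int_jF F 2)) (not_lt.1 fun h4 => ?_)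
    have h5 := (ov_mem w hw 2).1 h4
    rw [CU.la_dvd_iff] at h5
    revert h5
    decide
  have hτ : τ a = algebraMap KK F u - algebraMap KK F y₁ * r' := by
    rw [huy1, map_add, map_mul, τ.commutes, τ.commutes, hQ'.tau]
    ring
  have hnK : u ^ 2 - y₁ ^ 2 * jK D' = 1 := lam_norm hQ' ha.1 huy1
  have hn : algebraMap KK F u ^ 2 - algebraMap KK F y₁ ^ 2 * jF F D' = 1 := by
    have h1 := congrArg (algebraMap KK F) hnK
    rw [map_sub, map_pow, map_mul, map_pow, map_one, ← jF_apply] at h1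
    exact h1
  have hp := (pow8 hQ'.sq hn).1
  have hp' := (pow8 (u := algebraMap KK F u) (y := -algebraMap KK F y₁) hQ'.sq (by rw [neg_sq]; exact hn)).1
  rw [← huy1] at hp
  have hp2 : τ a ^ 8 = T8 (algebraMap KK F u) - algebraMap KK F y₁ * U7 (algebraMap KK F u) * r' := by
    rw [hτ]
    have e1 : algebraMap KK F u - algebraMap KK F y₁ * r' = algebraMap KK F u + -algebraMap KK F y₁ * r' := by ring
    rw [e1, hp']
    ring
  have b1 : w.valuation F (a ^ 8 - 1) ≤ WithZero.exp (-2 : ℤ) := by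
    rw [← hwla]
    exact hP w hw
  have b2 : w.valuation F (τ a ^ 8 - 1) ≤ WithZero.exp (-2 : ℤ) := by
    have e : τ a ^ 8 - 1 = τ (a ^ 8 - 1) := by rw [map_sub, map_pow, map_one]
    rw [e, invR hD hl hl2 hQ' w hw]
    exact b1
  have hPw : w.valuation F (T8 (algebraMap KK F u) - 1) < 1 := by
    have e : (2 : F) * (T8 (algebraMap KK F u) - 1) = (a ^ 8 - 1) + (τ a ^ 8 - 1) := by
      rw [hp, hp2]
      ring
    have h5 : w.valuation F ((2 : F) * (T8 (algebraMap KK F u) - 1)) ≤ WithZero.exp (-2 : ℤ) := by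
      rw [e]
      exact Valuation.map_add_le _ b1 b2
    rw [map_mul, h2, one_mul] at h5
    exact l1_of_le (by norm_num) h5
  have hQw : w.valuation F (algebraMap KK F y₁ * U7 (algebraMap KK F u)) < 1 := by
    have e : (2 : F) * (algebraMap KK F y₁ * U7 (algebraMap KK F u)) * r' = (a ^ 8 - 1) - (τ a ^ 8 - 1) := by
      rw [hp, hp2]
      ring
    have h5 : w.valuation F ((2 : F) * (algebraMap KK F y₁ * U7 (algebraMap KK F u)) * r') ≤ WithZero.exp (-2 : ℤ) := by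
      rw [e]
      exact Valuation.map_sub_le _ b1 b2
    rw [map_mul, map_mul, h2, hwr, one_mul] at h5
    by_contra hcon
    rw [not_lt] at hcon
    have h6 : (WithZero.exp (-1 : ℤ) : WithZero (Multiplicative ℤ)) ≤ WithZero.exp (-2 : ℤ) := by
      refine le_trans ?_ h5
      exact le_mul_of_one_le_left' hcon
    rw [WithZero.exp_le_exp] at h6
    norm_num at h6
  obtain ⟨v', φ, hB⟩ := exists_Below w
  have hv' := l0b_ideal hB hw
  have hvv : v' = v := HeightOneSpectrum.ext (hv'.trans hv.symm)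
  subst hvv
  have key : ∀ x : KK, w.valuation F (algebraMap KK F x) < 1 → v'.valuation KK x < 1 := by
    intro x hx
    have h5 := below_valR hD hl hl2 hQ' hB hw (algebraMap KK (v'.adicCompletion KK) x)
    rw [hB.comm] at h5
    rw [← HeightOneSpectrum.valuedAdicCompletion_eq_valuation' w] at hx
    rw [← HeightOneSpectrum.valuedAdicCompletion_eq_valuation' v']
    have h6 : (Valued.v (algebraMap KK (v'.adicCompletion KK) x) : WithZero (Multiplicative ℤ)) ^ 2 < 1 := by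
      rw [← h5]
      exact hx
    exact q3a_sq_lt h6
  have hT0 : v'.valuation KK (T8 u - 1) < 1 := by
    apply key
    rw [map_sub, map_one, e6_T8]
    exact hPw
  have hQ0 : v'.valuation KK (y₁ * U7 u) < 1 := by
    apply key
    rw [map_mul, e6_U7]
    exact hQw
  set i := algebraMap KK (v'.adicCompletion KK) with hi
  have hval : ∀ x : KK, (Valued.v (i x) : WithZero (Multiplicative ℤ)) = v'.valuation KK x := fun x =>
    HeightOneSpectrum.valuedAdicCompletion_eq_valuation' v' x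
  have hT : (Valued.v (T8 (i u) - 1) : WithZero (Multiplicative ℤ)) < 1 := by
    have e1 : T8 (i u) - 1 = i (T8 u - 1) := by
      rw [map_sub, map_one]
      exact congrArg (fun z => z - 1) (e7x_T8 i u)
    rw [e1, hval]
    exact hT0
  have hQv : (Valued.v (i y₁ * U7 (i u)) : WithZero (Multiplicative ℤ)) ≤ WithZero.exp (-1 : ℤ) := by
    have e1 : i y₁ * U7 (i u) = i (y₁ * U7 u) := by
      rw [map_mul]
      exact congrArg (fun z => i y₁ * z) (e7x_U7 i u)
    have h6 : (Valued.v (i y₁ * U7 (i u)) : WithZero (Multiplicative ℤ)) < 1 := by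
      rw [e1, hval]
      exact hQ0
    exact l1_lt1 h6
  have hnorm : i u ^ 2 - i y₁ ^ 2 * i (jK D') = 1 := by
    have := congrArg i hnK
    simpa only [map_sub, map_mul, map_pow, map_one] using this
  have hε : (Valued.v (i (jK (-om ^ 2)) + 1) : WithZero (Multiplicative ℤ)) < 1 := by
    have e1 : i (jK (-om ^ 2)) + 1 = i (jK (-om ^ 2 + 1)) := by
      rw [map_add, map_add, map_one, map_one]
    rw [e1]
    have h2 : la ^ 1 ∣ (-om ^ 2 + 1 : Eis) := by
      refine ⟨1 + om, ?_⟩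
      rw [pow_one]
      show (-om ^ 2 + 1 : Eis) = (1 - om) * (1 + om)
      ring
    have h3 := (e7a_le hv 1 _).2 h2
    exact lt_of_le_of_lt h3 l0b_lt
  have hd : (Valued.v (i (jK D')) : WithZero (Multiplicative ℤ)) = WithZero.exp (-1 : ℤ) := by
    have h3 : (Valued.v (i (jK D')) : WithZero (Multiplicative ℤ)) ≤ WithZero.exp (-1 : ℤ) := by
      have := (e7a_le hv 1 D').2 (by rw [pow_one]; exact hl)
      exact this
    have h4 : ¬ (Valued.v (i (jK D')) : WithZero (Multiplicative ℤ)) ≤ WithZero.exp (-2 : ℤ) := fun h5 =>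
      hl2 ((e7a_le hv 2 D').1 h5)
    refine le_antisymm h3 (not_lt.1 fun h5 => h4 ?_)
    have h6 := l1_lt (w := (Valued.v : Valuation (v'.adicCompletion KK) (WithZero (Multiplicative ℤ)))) h5
    exact h6
  have hq' : m = 1 → ∀ η : v'.adicCompletion KK, (η = 1 ∨ η = -1) →
      ¬ Valued.v (i (jK D') - i (jK la) * (η + i (jK la))) ≤ (WithZero.exp (-3 : ℤ) : WithZero (Multiplicative ℤ)) := by
    intro hm1 η hη hcon
    rcases hη with hη | hη
    · refine hq hm1 1 (Or.inl rfl) ((e7a_le hv 3 _).1 ?_)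
      have e1 : i (jK (D' - la * (1 + la))) = i (jK D') - i (jK la) * (η + i (jK la)) := by
        rw [hη]
        simp only [map_sub, map_add, map_mul, map_one]
      show Valued.v (i (jK (D' - la * (1 + la)))) ≤ (WithZero.exp (-3 : ℤ) : WithZero (Multiplicative ℤ))
      rw [e1]
      exact hcon
    · refine hq hm1 (-1) (Or.inr rfl) ((e7a_le hv 3 _).1 ?_)
      have e1 : i (jK (D' - la * (-1 + la))) = i (jK D') - i (jK la) * (η + i (jK la)) := by
        rw [hη]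
        simp only [map_sub, map_add, map_mul, map_one, map_neg]
      show Valued.v (i (jK (D' - la * (-1 + la)))) ≤ (WithZero.exp (-3 : ℤ) : WithZero (Multiplicative ℤ))
      rw [e1]
      exact hcon
  have hla0 : i (jK la) ≠ 0 := by
    intro h0
    have h1 := hL.hl
    rw [h0, map_zero] at h1
    exact WithZero.exp_ne_zero h1.symm
  have hlam0 : algebraMap (v'.adicCompletion KK) M (i (jK la) ^ m) ≠ 0 := by
    rw [Ne, map_eq_zero]
    exact pow_ne_zero _ hla0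
  have hρ' : ρ = algebraMap (v'.adicCompletion KK) M (i (jK la) ^ m) *
      (ρ / algebraMap (v'.adicCompletion KK) M (i (jK la) ^ m)) := by
    rw [mul_div_cancel₀ _ hlam0]
  have hdd : i (jK (la ^ (2 * m) * D')) = i (jK la) ^ (2 * m) * i (jK D') := by
    simp only [map_mul, map_pow]
  have hr : (ρ / algebraMap (v'.adicCompletion KK) M (i (jK la) ^ m)) ^ 2 =
      algebraMap (v'.adicCompletion KK) M (i (jK D')) := by
    rw [div_pow, hρ, div_eq_iff (pow_ne_zero _ hlam0), ← map_pow, ← map_mul, hdd]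
    congr 1
    ring
  have hfin := sol35 v' hL hε hm hd hq' hnorm hT hQv hr hρ'
  have e3 : algebraMap (v'.adicCompletion KK) M (i y₁) *
      (ρ / algebraMap (v'.adicCompletion KK) M (i (jK la) ^ m)) =
      algebraMap (v'.adicCompletion KK) M (i y) * ρ := by
    have e4 : i y₁ = i y * i (jK la) ^ m := by
      rw [hy₁, map_mul, map_pow, map_pow]
    rw [e4, map_mul, mul_assoc, ← hρ']
  rw [e3, ← hdd] at hfin
  exact hfin

end JG
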