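import Pool.Agent.JG.K1
import Pool.Agent.JG.Cls

/-!
# [JG-KW] `λ` divides `D` exactly once: the condition `Pg` in terms of the class `q` of `b^8 - b⁻⁸ ≡ q √D mod λ³ √D`

Notation: `w (jF la) = exp (-2)`, `w r = exp (-1)` at the places `w` over `λ` (`ovR`, JG/KR.lean); `PsR r b q`: JG/KR.lean. In `ℤ[ω]`: `3 = -om² la²`, so `3 ≡ -la² mod la³`, `3 la ≡ 0 mod la³`, `9 ≡ 0 mod la³`; `D = la (e₀ + e₁ la) mod la³`, `e₀ = ± 1`, so `D² ≡ la²`, `D³ ≡ 0`, `3 D ≡ 0 mod la³`.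

PROOF. `psR_mulX` [KWa]: `E = a^8`, `E' = b^8`, `w (E - 1), w (E' - 1) ≤ exp (-1)` (`ov_eight`), `S = (E - E⁻¹)/2`, `C = (E + E⁻¹)/2`, `C² = 1 + S²`, `2 (S C' + S' C) = E E' - (E E')⁻¹`. `w S ≤ exp (-1)`, `w (C - 1) ≤ exp (-2)` (`(C - 1)(C + 1) = S²`, `w (C + 1) = w 2 = 1`). With `X = 1 + S²/2 - S⁴/8`:
`(C - X)(C + X) = 1 + S² - X² = S⁶/8 - S⁸/64`, so `w (C - X) ≤ exp (-6)`. `2 S = jF q r + O(exp (-7))`, so `S² = jF (q² D)/4 + O(exp (-8))`, `X ≡ 1 + jF (q² D)/8 - jF (q⁴ D²)/128` modulo `exp (-6)`. `9/8 q² D` and `129/128 q⁴ D²` are `≡ 0` (`w 3 = exp (-4)`, `w D = exp (-2)`), so `C ≡ jF (1 - q² D + q⁴ D²)` modulo `exp (-6)`.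
So `2 S C' ≡ jF (q (1 - q'² D + q'⁴ D²)) r` modulo `exp (-7) = w (la)^3 w (r)`, and symmetrically.
`psR_cube'` [KWa]: `x = E - E⁻¹`: `E³ - E⁻³ = 3 x + x³`; `x = jF q r + O(exp (-7))`, `x³ = jF (q³ D) r + O(exp (-7))`.
`psR_gE'` [KWb]: `gE = (Y - r)/(Y + r)`, `Y = jF (Y0 D)`, `w Y = 1`. `gE^8 - gE^-8 = ((Y - r)^16 - (Y + r)^16)/(Y² - r²)^8`, `(Y - r)^16 - (Y + r)^16 = -2 r (16 Y^15 + 560 Y^13 D + 4368 Y^11 D² + D³ (..))`, `Y² - r² = Y² - D ≡ 1` modulo `la⁴` (`Y0_sq`). In `ℤ[ω]` modulo `la³`: `16 ≡ 1 + la²`, `560 D ≡ -D`, `4368 ≡ 0 mod la²`, `Y0 ≡ 1 - D + D²`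
(`5 D ≡ -D`, `4 D³ ≡ 0`), `Y0² ≡ 1 + D`, `Y0^14 ≡ (1 + D)^7 ≡ 1 + D`, `Y0^15 ≡ (1 + D)(1 - D + D²) ≡ 1`, `D Y0^13 ≡ D (1 - D) = D - D²`. So the class is `-2 ((1 + la²) - (D - D²)) = 2 (-1 + D - D² - la²)`.
`w1_star` [KWc]: computation in `ℤ[ω]` modulo `la³` (e.g. in the quotient ring `Eis ⧸ (la³)`, with `l³ = 0`, `3 = -l²`, `3 l = 0`, `e₀² = 1`, or with explicit witnesses); `q = 2 (b + t la z_b)`, `z_b = e₀ + (e₁ - 1 - b²) la`, `q' = 2 (b' + t' la z_b')`; `b, b' ∈ {0, 1, -1}`. `e₀, e₁ mod 3` are determined by `D` (same digits for `q` and `q'`: `la³ ∣ D - la (e₀ + e₁ la)` and the same with `e₀', e₁'` give `e₀ = e₀'`, `3 ∣ e₁ - e₁'`; replace `e₁'` by `e₁`).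
`Q = q (1 - q'² D + q'⁴ D²) + q' (1 - q² D + q⁴ D²)`. `(0, 0)`: `Q ≡ q + q'`. `(0, b')`: `Q ≡ q (1 - D) + q' ≡ 2 (b' + (t + t') la z₁)`. `(b, -b)`: `q = 2 b (1 + la y)`, `q' = -2 b (1 + la y')`, `y = b t z₁`, `y' = -b t' z₁`: `Q ≡ 2 b la (y - y') (1 + D) ≡ 2 (t + t') la z₀`. `(b, b)`: `Q ≡ 2 b (2 (1 - D + D²) + la (y + y')) ≡ 2 (-b + (b + t + t') la z₁)`.
`w1_cube` [KWc]: `3 q + q³ D`: `q ≡ m mod la`, `m ∈ {0, 1, -1}` (`JXD.pac_digit`): `q³ ≡ m`, `3 q ≡ 3 m`: `3 m + m D ≡ m la (e₀ + (e₁ - 1) la) ≡ 2 (2 m) la z₀` (digits of `D` exist: `D = la d`, `d ≡ e₀ + e₁ la mod la²`, `JXD.pac_digit`). `w1_neg` [KWc]: `b ↦ -b`, `t ↦ -t`. `w1_congr` clear. `w1_gE` [KWc]: `D - D² - la² ≡ la e₀ + la² (e₁ - 2) = la z₁`: `b = -1`, `t = 1`.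
`pg_iff` [KWd] `→`: `Pg`: `j, c`. Show by induction on `|j|` (powers `gE^j`, `j ∈ ℤ`): `PsR r (gE^j c³) q₁` with `W1 D q₁` (`psR_cube'` for `c` with `psR_exists`; `psR_gE'`, `psR_mulX`, `psR_inv`, `w1_star`, `w1_cube`, `w1_gE`, `w1_neg`). `x := b^16 - b^-16 - ((gE^j c³)^8 - (gE^j c³)^-8)` has `w x ≤ w (la)^3` and `τ x = -x`, so `x = jF-multiple`: `x / r` is fixed by `τ`,
`x = y r` with `y ∈ KK` (`exists_uv` in JD), and `w y` is an even power (`w (algebraMap y)` for `y ∈ KK` is `exp (2 n)`: the value group of `KK` at `w` is generated by `w (la) = exp (-2)`; see `lam_la` in JG/K0y.lean, `below_valR`), `w y ≤ exp (-5)` gives `w y ≤ exp (-6)`, `w x ≤ exp (-7)`: `PsR r (b²) q₁`. `b = b³ (b²)⁻¹`: `psR_cube'`, `psR_inv`, `psR_mulX`, `w1_star`; `psR_unique`.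
`←`: `W1 D q` with `b₀`. `b₁ = b gE^(b₀)`: by `psR_mulX`, and the computation `(b₀, -b₀)` of `w1_star` (for `b₀ = 0`: nothing) its class is `≡ 2 t la z₀`. `κ³` (`psR_kap`, JG/K1.lean; `κ = (1 + r)/(1 - r)`): the class is `3 p + p³ D ≡ m la z₀` with `m = ± 1` (not `0` since `¬ la² ∣ q_κ`). `b₁ (κ³)^i` has the class `≡ (2 t + i m) la z₀`, choose `i` with `3 ∣ 2 t + i m`: `la³` divides it,
`pg_of_zero`; so `Pg b` by `pg_mul`, `pg_inv`, `pg_cube`, `pg_gE`.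
-/

set_option autoImplicit false

open NumberField IsDedekindDomain
open scoped Classical

namespace JG

open CM27 CF JZ JX JXD
open JD hiding G5b_unit G5b_val LCW_ED below_val descent det_unit disc_eq eis_cube entire_ED exists_H exists_basis exists_cj exists_den exists_int exists_kappa exists_ov exists_phiE exists_quad exists_u0 final_of finite_of_phiE finprod_neron finprod_tam finrank_KD fix_int fix_of_two g4a_exp g4a_le g4a_norm g4a_one g4a_split g4b_place g5a_norm g5a_tau g5a_three g5a_unit int_KK int_jF int_r jr_inj kk_cube m1_cube min_all n5_gen ne_of_cl not_three ov_D ov_eight ov_mem ov_trans ov_val period_ED place_cases q3a_dvd_lt q3a_la_sq q3a_le q3a_sq_lt q3b_ext q3b_int q3b_le q3b_neg q3b_pos q3b_pos_iff q3b_sq q3b_tau q3b_three q4b_crt q5_coe q5_den quot_all quot_eq s5b_not_la sha_zero step tam_la tam_one tau_jF val_prime z1_norm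
open CU (la om eE)

/-- the classes of the local points for `k = 1` -/
def W1 (D q : Eis) : Prop :=
  ∃ b e₀ e₁ t : ℤ, (b = 0 ∨ b = 1 ∨ b = -1) ∧ (e₀ = 1 ∨ e₀ = -1) ∧ la ^ 3 ∣ D - la * ((e₀ : Eis) + (e₁ : Eis) * la) ∧
    la ^ 3 ∣ q - 2 * ((b : Eis) + (t : Eis) * (la * ((e₀ : Eis) + ((e₁ - 1 - b ^ 2 : ℤ) : Eis) * la)))

/-- the group law -/
def star1 (D q q' : Eis) : Eis := q * (1 - q' ^ 2 * D + q' ^ 4 * D ^ 2) + q' * (1 - q ^ 2 * D + q ^ 4 * D ^ 2)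

/-- the quotient modulo `la³` -/
theorem kwb_q (a : Eis) : Ideal.Quotient.mk (Ideal.span {la ^ 3}) a = 0 ↔ la ^ 3 ∣ a := by
  rw [Ideal.Quotient.eq_zero_iff_mem, Ideal.mem_span_singleton]

theorem kwb_l3 : Ideal.Quotient.mk (Ideal.span {la ^ 3}) la ^ 3 = 0 := by
  rw [← map_pow, kwb_q]

theorem kwb_l2 : Ideal.Quotient.mk (Ideal.span {la ^ 3}) la ^ 2 = -3 := by
  have h : Ideal.Quotient.mk (Ideal.span {la ^ 3}) (la ^ 2 + 3) = 0 := by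
    rw [kwb_q]
    have e : la ^ 2 + 3 = la ^ 3 * (1 + om) := by decide
    exact ⟨_, e⟩
  rw [map_add, map_pow, map_ofNat] at h
  linear_combination h

theorem kwb_9 : (9 : Eis ⧸ Ideal.span {la ^ 3}) = 0 := by
  have h := kwb_l2
  have h3 := kwb_l3
  linear_combination (Ideal.Quotient.mk (Ideal.span {la ^ 3}) la) * h3 - (Ideal.Quotient.mk (Ideal.span {la ^ 3}) la ^ 2 - 3) * h

theorem kwb_3D {D : Eis} (hl : la ∣ D) : 3 * Ideal.Quotient.mk (Ideal.span {la ^ 3}) D = 0 := by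
  obtain ⟨d, rfl⟩ := hl
  have h := kwb_l2
  have h3 := kwb_l3
  rw [map_mul]
  linear_combination (Ideal.Quotient.mk (Ideal.span {la ^ 3}) la * Ideal.Quotient.mk (Ideal.span {la ^ 3}) d) * h -
    Ideal.Quotient.mk (Ideal.span {la ^ 3}) d * h3

theorem kwb_D3 {D : Eis} (hl : la ∣ D) : Ideal.Quotient.mk (Ideal.span {la ^ 3}) D ^ 3 = 0 := by
  obtain ⟨d, rfl⟩ := hl
  have h3 := kwb_l3
  rw [map_mul]
  linear_combination (Ideal.Quotient.mk (Ideal.span {la ^ 3}) d ^ 3) * h3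

theorem kwb_alg {R : Type} [CommRing R] {D l Y M : R} (h9 : (9 : R) = 0) (h3D : 3 * D = 0) (hD3 : D ^ 3 = 0) (hl : l ^ 2 = -3)
    (hY : Y = 1 + 5 * D + D ^ 2 + 4 * D ^ 3) (hM : M = 1) :
    -2 * (16 * Y ^ 15 + 560 * Y ^ 13 * D + 4368 * Y ^ 11 * D ^ 2 + D ^ 3 * (11440 * Y ^ 9 + 11440 * Y ^ 7 * D +
      4368 * Y ^ 5 * D ^ 2 + 560 * Y ^ 3 * D ^ 3 + 16 * Y * D ^ 4)) - 2 * (-1 + D - D ^ 2 - l ^ 2) * M = 0 := by
  have hY1 : Y = 1 - D + D ^ 2 := by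
    rw [hY]
    linear_combination 2 * h3D + 4 * hD3
  have hY3 : Y ^ 3 = 1 := by
    rw [hY1]
    linear_combination (-1 + 2 * D) * h3D + (-7 + 6 * D - 3 * D ^ 2 + D ^ 3) * hD3
  have hY15 : Y ^ 15 = 1 := by
    have e : Y ^ 15 = (Y ^ 3) ^ 5 := by ring
    rw [e, hY3, one_pow]
  have hY13 : Y ^ 13 = 1 - D + D ^ 2 := by
    have e : Y ^ 13 = (Y ^ 3) ^ 4 * Y := by ring
    rw [e, hY3, one_pow, one_mul, hY1]
  rw [hM, hY15, hY13, hl]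
  linear_combination (-4) * h9 - 2 * (187 - 187 * D + 1456 * Y ^ 11 * D) * h3D - 2 * (560 + (11440 * Y ^ 9 + 11440 * Y ^ 7 * D +
      4368 * Y ^ 5 * D ^ 2 + 560 * Y ^ 3 * D ^ 3 + 16 * Y * D ^ 4)) * hD3

theorem kwb_fld {K : Type} [Field K] {Y r D N M q A B : K} (hr : r ^ 2 = D) (hA : A = Y - r) (hB : B = Y + r) (hA0 : A ≠ 0) (hB0 : B ≠ 0)
    (hM : M = (Y ^ 2 - D) ^ 8) (hN : N = -2 * (16 * Y ^ 15 + 560 * Y ^ 13 * D + 4368 * Y ^ 11 * D ^ 2 + D ^ 3 * (11440 * Y ^ 9 + 11440 * Y ^ 7 * D +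
      4368 * Y ^ 5 * D ^ 2 + 560 * Y ^ 3 * D ^ 3 + 16 * Y * D ^ 4))) :
    ((A / B) ^ 8 - ((A / B) ^ 8)⁻¹ - q * r) * M = (N - q * M) * r := by
  have hAB : Y ^ 2 - D = A * B := by
    rw [hA, hB, ← hr]
    ring
  have h1 : A ^ 16 - B ^ 16 = N * r := by
    rw [hN, hA, hB, ← hr]
    ring
  have h2 : ((A / B) ^ 8 - ((A / B) ^ 8)⁻¹) * (A * B) ^ 8 = A ^ 16 - B ^ 16 := by
    field_simp
  rw [hM, hAB]
  linear_combination h2 + h1

theorem kwa_pow (n : ℕ) (a : ℤ) : (WithZero.exp a ^ n : WithZero (Multiplicative ℤ)) = WithZero.exp (n * a) := by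
  rw [← WithZero.exp_nsmul, nsmul_eq_mul]

theorem kwa_le {a b : ℤ} (h : a ≤ b) : (WithZero.exp a : WithZero (Multiplicative ℤ)) ≤ WithZero.exp b := by
  rwa [WithZero.exp_le_exp]

theorem kwa_lt1 {a : ℤ} (h : a < 0) : (WithZero.exp a : WithZero (Multiplicative ℤ)) < 1 := by
  rw [← WithZero.exp_zero, WithZero.exp_lt_exp]
  exact h

theorem kwa_mul {F : Type} [Field F] (w : Valuation F (WithZero (Multiplicative ℤ))) {x y : F} {a b c : ℤ}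
    (hx : w x ≤ WithZero.exp a) (hy : w y ≤ WithZero.exp b) (h : a + b ≤ c) : w (x * y) ≤ WithZero.exp c := by
  rw [map_mul]
  refine (mul_le_mul' hx hy).trans ?_
  rw [← WithZero.exp_add]
  exact kwa_le h

theorem kwa_one {F : Type} [Field F] (w : Valuation F (WithZero (Multiplicative ℤ))) {x : F} (hx : w x ≤ 1) :
    w x ≤ WithZero.exp (0 : ℤ) := by
  rwa [WithZero.exp_zero]

/-- [KWa] the local estimate for `(E + E⁻¹)/2` -/
theorem kwa_C {F : Type} [Field F] (w : Valuation F (WithZero (Multiplicative ℤ))) (h2 : w (2 : F) = 1)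
    (h3 : w (3 : F) ≤ WithZero.exp (-4 : ℤ)) (hn : ∀ n : ℕ, w (n : F) ≤ 1) {E y : F} (hE : w (E - 1) ≤ WithZero.exp (-1 : ℤ))
    (hy : w y ≤ WithZero.exp (-1 : ℤ)) (h : w (E - E⁻¹ - y) ≤ WithZero.exp (-7 : ℤ)) :
    w ((E + E⁻¹) / 2 - (1 - y ^ 2 + y ^ 4)) ≤ WithZero.exp (-6 : ℤ) := by
  have h20 : (2 : F) ≠ 0 := by
    intro h0
    rw [h0, map_zero] at h2
    exact zero_ne_one h2
  have hpow2 : ∀ n : ℕ, w ((2 : F) ^ n) = 1 := fun n => by rw [map_pow, h2, one_pow]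
  have hpi2 : ∀ n : ℕ, w (((2 : F) ^ n)⁻¹) ≤ WithZero.exp (0 : ℤ) := fun n => by
    rw [map_inv₀, hpow2, inv_one, WithZero.exp_zero]
  have hE1 : w E = 1 := by
    have e : E = (E - 1) + 1 := by ring
    rw [e, Valuation.map_add_eq_of_lt_right _ (by rw [map_one]; exact lt_of_le_of_lt hE (kwa_lt1 (by norm_num))), map_one]
  have hE0 : E ≠ 0 := by
    intro h0
    rw [h0, map_zero] at hE1
    exact zero_ne_one hE1
  have hE2 : w (E + 1) = 1 := by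
    have e : E + 1 = (E - 1) + 2 := by ring
    rw [e, Valuation.map_add_eq_of_lt_right _ (by rw [h2]; exact lt_of_le_of_lt hE (kwa_lt1 (by norm_num))), h2]
  set C : F := (E + E⁻¹) / 2 with hC
  set x : F := E - E⁻¹ with hx
  have hC1 : w (C + 1) = 1 := by
    have e : (C + 1) * (2 * E) = (E + 1) ^ 2 := by
      rw [hC]
      field_simp
      ring
    have h4 := congrArg w e
    rw [map_mul, map_mul, h2, hE1, map_pow, hE2, one_pow, mul_one, mul_one] at h4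
    exact h4
  have hxv : w x ≤ WithZero.exp (-1 : ℤ) := by
    have e : x = (E - E⁻¹ - y) + y := by rw [hx]; ring
    rw [e]
    exact Valuation.map_add_le _ (h.trans (kwa_le (by norm_num))) hy
  have hx2 : w (x ^ 2) ≤ WithZero.exp (-2 : ℤ) := by
    rw [pow_two]
    exact kwa_mul w hxv hxv (by norm_num)
  have hy2 : w (y ^ 2) ≤ WithZero.exp (-2 : ℤ) := by
    rw [pow_two]
    exact kwa_mul w hy hy (by norm_num)
  have hx4 : w (x ^ 4) ≤ WithZero.exp (-4 : ℤ) := by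
    have e : x ^ 4 = x ^ 2 * x ^ 2 := by ring
    rw [e]
    exact kwa_mul w hx2 hx2 (by norm_num)
  have hy4 : w (y ^ 4) ≤ WithZero.exp (-4 : ℤ) := by
    have e : y ^ 4 = y ^ 2 * y ^ 2 := by ring
    rw [e]
    exact kwa_mul w hy2 hy2 (by norm_num)
  have hx6 : w (x ^ 6) ≤ WithZero.exp (-6 : ℤ) := by
    have e : x ^ 6 = x ^ 2 * x ^ 4 := by ring
    rw [e]
    exact kwa_mul w hx2 hx4 (by norm_num)
  have hx8 : w (x ^ 8) ≤ WithZero.exp (-6 : ℤ) := by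
    have e : x ^ 8 = x ^ 6 * x ^ 2 := by ring
    rw [e]
    exact kwa_mul w hx6 hx2 (by norm_num)
  set X : F := 1 + x ^ 2 * ((2 : F) ^ 3)⁻¹ - x ^ 4 * ((2 : F) ^ 7)⁻¹ with hX
  have hX1 : w (X - 1) ≤ WithZero.exp (-2 : ℤ) := by
    have e : X - 1 = x ^ 2 * ((2 : F) ^ 3)⁻¹ - x ^ 4 * ((2 : F) ^ 7)⁻¹ := by rw [hX]; ring
    rw [e]
    exact Valuation.map_sub_le _ (kwa_mul w hx2 (hpi2 3) (by norm_num)) (kwa_mul w hx4 (hpi2 7) (by norm_num))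
  have hCX : w (C + X) = 1 := by
    have e : C + X = (C + 1) + (X - 1) := by ring
    rw [e, Valuation.map_add_eq_of_lt_left _ (by rw [hC1]; exact lt_of_le_of_lt hX1 (kwa_lt1 (by norm_num))), hC1]
  have hCXm : w (C - X) ≤ WithZero.exp (-6 : ℤ) := by
    have e : (C - X) * (C + X) = x ^ 6 * ((2 : F) ^ 9)⁻¹ - x ^ 8 * ((2 : F) ^ 14)⁻¹ := by
      have e1 : C ^ 2 = 1 + x ^ 2 * ((2 : F) ^ 2)⁻¹ := by
        rw [hC, hx]
        field_simp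
        ring
      have e2 : (C - X) * (C + X) = C ^ 2 - X ^ 2 := by ring
      rw [e2, e1, hX]
      field_simp
      ring
    have h4 : w ((C - X) * (C + X)) ≤ WithZero.exp (-6 : ℤ) := by
      rw [e]
      exact Valuation.map_sub_le _ (kwa_mul w hx6 (hpi2 9) (by norm_num)) (kwa_mul w hx8 (hpi2 14) (by norm_num))
    rwa [map_mul, hCX, mul_one] at h4
  have hd : w (x ^ 2 - y ^ 2) ≤ WithZero.exp (-8 : ℤ) := by
    have e : x ^ 2 - y ^ 2 = (E - E⁻¹ - y) * (x + y) := by rw [hx]; ring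
    rw [e]
    exact kwa_mul w h (Valuation.map_add_le _ hxv hy) (by norm_num)
  have hd4 : w (x ^ 4 - y ^ 4) ≤ WithZero.exp (-8 : ℤ) := by
    have e : x ^ 4 - y ^ 4 = (x ^ 2 - y ^ 2) * (x ^ 2 + y ^ 2) := by ring
    rw [e]
    exact kwa_mul w hd (Valuation.map_add_le _ hx2 hy2) (by norm_num)
  have h9 : w (9 : F) ≤ WithZero.exp (-8 : ℤ) := by
    have e : (9 : F) = 3 * 3 := by norm_num
    rw [e]
    exact kwa_mul w h3 h3 (by norm_num)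
  have h129 : w (129 : F) ≤ WithZero.exp (-4 : ℤ) := by
    have e : (129 : F) = 3 * 43 := by norm_num
    rw [e]
    exact kwa_mul w h3 (kwa_one w (by exact_mod_cast hn 43)) (by norm_num)
  have e : C - (1 - y ^ 2 + y ^ 4) = (C - X) + (((x ^ 2 - y ^ 2) * ((2 : F) ^ 3)⁻¹ + 9 * (y ^ 2 * ((2 : F) ^ 3)⁻¹)) -
      ((x ^ 4 - y ^ 4) * ((2 : F) ^ 7)⁻¹ + 129 * (y ^ 4 * ((2 : F) ^ 7)⁻¹))) := by
    rw [hX]
    field_simp
    ring
  rw [e]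
  refine Valuation.map_add_le _ hCXm (Valuation.map_sub_le _ (Valuation.map_add_le _ ?_ ?_) (Valuation.map_add_le _ ?_ ?_))
  · exact kwa_mul w hd (hpi2 3) (by norm_num)
  · exact kwa_mul w h9 (kwa_mul w hy2 (hpi2 3) (c := -2) (by norm_num)) (by norm_num)
  · exact kwa_mul w hd4 (hpi2 7) (by norm_num)
  · exact kwa_mul w h129 (kwa_mul w hy4 (hpi2 7) (c := -4) (by norm_num)) (by norm_num)

/-- [KWa] the local estimate for a product -/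
theorem kwa_mulE {F : Type} [Field F] (w : Valuation F (WithZero (Multiplicative ℤ))) (h2 : w (2 : F) = 1)
    (h3 : w (3 : F) ≤ WithZero.exp (-4 : ℤ)) (hn : ∀ n : ℕ, w (n : F) ≤ 1) {A B y z : F} (hA : w (A - 1) ≤ WithZero.exp (-1 : ℤ))
    (hB : w (B - 1) ≤ WithZero.exp (-1 : ℤ))
    (hy : w y ≤ WithZero.exp (-1 : ℤ)) (h : w (A - A⁻¹ - y) ≤ WithZero.exp (-7 : ℤ))
    (hz : w z ≤ WithZero.exp (-1 : ℤ)) (h' : w (B - B⁻¹ - z) ≤ WithZero.exp (-7 : ℤ)) :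
    w (A * B - (A * B)⁻¹ - (y * (1 - z ^ 2 + z ^ 4) + z * (1 - y ^ 2 + y ^ 4))) ≤ WithZero.exp (-7 : ℤ) := by
  have h20 : (2 : F) ≠ 0 := by
    intro h0
    rw [h0, map_zero] at h2
    exact zero_ne_one h2
  have hu : ∀ {E : F}, w (E - 1) ≤ WithZero.exp (-1 : ℤ) → w E = 1 ∧ E ≠ 0 := by
    intro E hE
    have hE1 : w E = 1 := by
      have e : E = (E - 1) + 1 := by ring
      rw [e, Valuation.map_add_eq_of_lt_right _ (by rw [map_one]; exact lt_of_le_of_lt hE (kwa_lt1 (by norm_num))), map_one]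
    refine ⟨hE1, ?_⟩
    intro h0
    rw [h0, map_zero] at hE1
    exact zero_ne_one hE1
  have hC : ∀ {E : F}, w (E - 1) ≤ WithZero.exp (-1 : ℤ) → w ((E + E⁻¹) / 2) ≤ WithZero.exp (0 : ℤ) := by
    intro E hE
    obtain ⟨h4, -⟩ := hu hE
    rw [map_div₀, h2, div_one]
    refine Valuation.map_add_le _ (kwa_one w h4.le) (kwa_one w ?_)
    rw [map_inv₀, h4, inv_one]
  have hA0 := (hu hA).2
  have hB0 := (hu hB).2
  have cA := kwa_C w h2 h3 hn hA hy h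
  have cB := kwa_C w h2 h3 hn hB hz h'
  have e : A * B - (A * B)⁻¹ - (y * (1 - z ^ 2 + z ^ 4) + z * (1 - y ^ 2 + y ^ 4)) =
      ((A - A⁻¹ - y) * ((B + B⁻¹) / 2) + y * ((B + B⁻¹) / 2 - (1 - z ^ 2 + z ^ 4))) +
      ((B - B⁻¹ - z) * ((A + A⁻¹) / 2) + z * ((A + A⁻¹) / 2 - (1 - y ^ 2 + y ^ 4))) := by
    field_simp
    ring
  rw [e]
  exact Valuation.map_add_le _ (Valuation.map_add_le _ (kwa_mul w h (hC hB) (by norm_num)) (kwa_mul w hy cB (by norm_num)))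
    (Valuation.map_add_le _ (kwa_mul w h' (hC hA) (by norm_num)) (kwa_mul w hz cA (by norm_num)))

section
variable {D : Eis} {F : Type} [Field F] [NumberField F] [Algebra KK F] {r : F} {τ : F ≃ₐ[KK] F}
  (hD : D ≠ 0) (hl : la ∣ D) (hl2 : ¬ la ^ 2 ∣ D) (hQ : Quad D r τ)
include hD hl hl2 hQ

/-- [KWa] `w (q √D) ≤ exp (-1)` -/
theorem kwa_qr {w : HeightOneSpectrum (𝓞 F)} (hw : OvLa w) (q : Eis) : w.valuation F (jF F q * r) ≤ WithZero.exp (-1 : ℤ) :=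
  kwa_mul (w.valuation F) (kwa_one _ (q3a_le w (int_jF F q))) (ovR hD hl hl2 hQ w hw).2.le (by norm_num)

theorem kwa_two {w : HeightOneSpectrum (𝓞 F)} (hw : OvLa w) : w.valuation F (2 : F) = 1 := by
  have h3 : (2 : F) = jF F 2 := by rw [map_ofNat]
  rw [h3]
  refine le_antisymm (q3a_le w (int_jF F 2)) (not_lt.1 fun h4 => ?_)
  have h5 := (ov_mem w hw 2).1 h4
  rw [CU.la_dvd_iff] at h5
  revert h5
  decide

/-- [KWa] -/
theorem psR_mulX {a b : F} (ha : N1 τ a) (hb : N1 τ b) {q q' : Eis} (h : PsR r a q) (h' : PsR r b q') :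
    PsR r (a * b) (star1 D q q') := by
  intro w hw
  have g1 := h w hw
  have g2 := h' w hw
  rw [k1c_sev hD hl hl2 hQ hw] at g1 g2 ⊢
  have h1 := kwa_mulE (w.valuation F) (kwa_two hD hl hl2 hQ hw) (k1d_three hD hl hl2 hQ w hw) (fun n => G1_nat w n)
    (k1c_one hD hl hl2 hQ hw (ha.2 w hw)) (k1c_one hD hl hl2 hQ hw (hb.2 w hw)) (kwa_qr hD hl hl2 hQ hw q) g1
    (kwa_qr hD hl hl2 hQ hw q') g2
  have e : jF F (star1 D q q') * r = jF F q * r * (1 - (jF F q' * r) ^ 2 + (jF F q' * r) ^ 4) +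
      jF F q' * r * (1 - (jF F q * r) ^ 2 + (jF F q * r) ^ 4) := by
    have e4 : r ^ 4 = jF F D ^ 2 := by rw [← hQ.sq]; ring
    unfold star1
    simp only [map_add, map_mul, map_sub, map_one, map_pow, mul_pow, hQ.sq, e4]
    ring
  rw [e, mul_pow]
  exact h1

/-- [KWa] -/
theorem psR_cube' {a : F} (ha : N1 τ a) {q : Eis} (h : PsR r a q) : PsR r (a ^ 3) (3 * q + q ^ 3 * D) := by
  intro w hw
  have g1 := h w hw
  rw [k1c_sev hD hl hl2 hQ hw] at g1 ⊢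
  have hy := kwa_qr hD hl hl2 hQ hw q
  set y : F := jF F q * r with hydef
  have hx : w.valuation F (a ^ 8 - (a ^ 8)⁻¹) ≤ WithZero.exp (-1 : ℤ) := by
    have e : a ^ 8 - (a ^ 8)⁻¹ = (a ^ 8 - (a ^ 8)⁻¹ - y) + y := by ring
    rw [e]
    exact Valuation.map_add_le _ (g1.trans (kwa_le (by norm_num))) hy
  have ha0 : a ≠ 0 := paa_ne (ha.2 w hw)
  have e : (a ^ 3) ^ 8 - ((a ^ 3) ^ 8)⁻¹ - jF F (3 * q + q ^ 3 * D) * r =
      (a ^ 8 - (a ^ 8)⁻¹ - y) * (3 + (a ^ 8 - (a ^ 8)⁻¹) ^ 2 + (a ^ 8 - (a ^ 8)⁻¹) * y + y ^ 2) := by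
    have e1 : (a ^ 3) ^ 8 - ((a ^ 3) ^ 8)⁻¹ = 3 * (a ^ 8 - (a ^ 8)⁻¹) + (a ^ 8 - (a ^ 8)⁻¹) ^ 3 := by
      field_simp
      ring
    have e2 : jF F (3 * q + q ^ 3 * D) * r = 3 * y + y ^ 3 := by
      rw [hydef, map_add, map_mul, map_mul, map_pow, map_ofNat, ← hQ.sq]
      ring
    rw [e1, e2]
    ring
  have h0 : (WithZero.exp (-1 : ℤ) : WithZero (Multiplicative ℤ)) ≤ WithZero.exp (0 : ℤ) := kwa_le (by norm_num)
  have h3 : w.valuation F (3 : F) ≤ WithZero.exp (0 : ℤ) := kwa_one _ (by exact_mod_cast G1_nat w 3)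
  rw [e]
  refine kwa_mul _ g1 (Valuation.map_add_le _ (Valuation.map_add_le _ (Valuation.map_add_le _ h3 ?_) ?_) ?_) (by norm_num)
  · rw [pow_two]
    exact kwa_mul _ hx hx (by norm_num)
  · exact kwa_mul _ hx hy (by norm_num)
  · rw [pow_two]
    exact kwa_mul _ hy hy (by norm_num)

/-- [KWb] -/
theorem psR_gE' : PsR r (gE D r) (2 * (-1 + D - D ^ 2 - la ^ 2)) := by
  obtain ⟨k, hk⟩ : la ^ 3 ∣ -2 * (16 * Y0 D ^ 15 + 560 * Y0 D ^ 13 * D + 4368 * Y0 D ^ 11 * D ^ 2 + D ^ 3 * (11440 * Y0 D ^ 9 +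
      11440 * Y0 D ^ 7 * D + 4368 * Y0 D ^ 5 * D ^ 2 + 560 * Y0 D ^ 3 * D ^ 3 + 16 * Y0 D * D ^ 4)) -
      2 * (-1 + D - D ^ 2 - la ^ 2) * (Y0 D ^ 2 - D) ^ 8 := by
    rw [← kwb_q]
    have hM : Ideal.Quotient.mk (Ideal.span {la ^ 3}) ((Y0 D ^ 2 - D) ^ 8) = 1 := by
      have h1 : la ^ 3 ∣ Y0 D ^ 2 - 1 - D := Dvd.dvd.trans ⟨la, by ring⟩ (Y0_sq hl).1
      rw [← kwb_q] at h1
      have h2 : Ideal.Quotient.mk (Ideal.span {la ^ 3}) (Y0 D ^ 2 - D) = 1 := by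
        rw [map_sub, map_sub, map_one] at h1
        rw [map_sub]
        linear_combination h1
      rw [map_pow, h2, one_pow]
    have h := kwb_alg (D := Ideal.Quotient.mk (Ideal.span {la ^ 3}) D) (l := Ideal.Quotient.mk (Ideal.span {la ^ 3}) la)
      (Y := Ideal.Quotient.mk (Ideal.span {la ^ 3}) (Y0 D)) (M := Ideal.Quotient.mk (Ideal.span {la ^ 3}) ((Y0 D ^ 2 - D) ^ 8))
      kwb_9 (kwb_3D hl) (kwb_D3 hl) kwb_l2 (by
        unfold Y0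
        simp only [map_add, map_mul, map_pow, map_one, map_ofNat]) hM
    rw [← h]
    simp only [map_add, map_sub, map_mul, map_pow, map_one, map_ofNat, map_neg]
  intro w hw
  obtain ⟨hB, hA⟩ := k1a_val hD hl hl2 hQ hw
  have hMv : w.valuation F (jF F ((Y0 D ^ 2 - D) ^ 8)) = 1 := by
    have e : jF F ((Y0 D ^ 2 - D) ^ 8) = ((jF F (Y0 D) + r) * (jF F (Y0 D) - r)) ^ 8 := by
      rw [map_pow, map_sub, map_pow, ← hQ.sq]
      ring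
    rw [e, map_pow, map_mul, hA, hB, one_mul, one_pow]
  have h1 := kwb_fld (Y := jF F (Y0 D)) (r := r) (D := jF F D) (N := jF F (-2 * (16 * Y0 D ^ 15 + 560 * Y0 D ^ 13 * D +
      4368 * Y0 D ^ 11 * D ^ 2 + D ^ 3 * (11440 * Y0 D ^ 9 +
      11440 * Y0 D ^ 7 * D + 4368 * Y0 D ^ 5 * D ^ 2 + 560 * Y0 D ^ 3 * D ^ 3 + 16 * Y0 D * D ^ 4))))
      (M := jF F ((Y0 D ^ 2 - D) ^ 8)) (q := jF F (2 * (-1 + D - D ^ 2 - la ^ 2))) (A := jF F (Y0 D) - r) (B := jF F (Y0 D) + r)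
      hQ.sq rfl rfl (paa_ne hA) (paa_ne hB) (by simp only [map_pow, map_sub]) (by
        simp only [map_add, map_mul, map_pow, map_ofNat, map_neg])
  rw [← map_mul, ← map_sub, hk] at h1
  have h2 := congrArg (w.valuation F) h1
  rw [map_mul, hMv, mul_one] at h2
  unfold gE
  rw [h2, map_mul, map_mul, map_mul, map_pow, map_pow, mul_assoc]
  refine mul_le_mul' le_rfl (mul_le_of_le_one_left' (q3a_le w (int_jF F k)))

end

theorem kwc_q2 {R : Type} [CommRing R] {l e0 e1 b t f D q : R} (hl : l ^ 3 = 0) (h3l : 3 * l = 0) (he : e0 ^ 2 = 1)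
    (hD : D = l * (e0 + e1 * l)) (hq : q = 2 * (b + t * (l * (e0 + f * l)))) : q ^ 2 * D = b ^ 2 * D - b * t * l ^ 2 := by
  rw [hq, hD]
  linear_combination (b ^ 2 * (e0 + e1 * l) + 3 * b * t * l) * h3l + 8 * b * t * l ^ 2 * he +
    (8 * b * t * (e0 * e1 + f * e0) + 8 * b * t * l * f * e1 + 4 * t ^ 2 * (e0 + f * l) ^ 2 * (e0 + e1 * l)) * hl

theorem kwc_form {R : Type} [CommRing R] {l e0 e1 b t f b' t' f' D q q' : R} (hl : l ^ 3 = 0) (h3l : 3 * l = 0) (he : e0 ^ 2 = 1)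
    (hD : D = l * (e0 + e1 * l)) (hq : q = 2 * (b + t * (l * (e0 + f * l)))) (hq' : q' = 2 * (b' + t' * (l * (e0 + f' * l)))) :
    q * (1 - q' ^ 2 * D + q' ^ 4 * D ^ 2) = 2 * (b + t * l * (e0 + f * l) - b' ^ 2 * b * D - b' ^ 2 * t * l ^ 2 + b * b' * t' * l ^ 2 +
      b * b' ^ 4 * l ^ 2) := by
  have h1 := kwc_q2 hl h3l he hD hq'
  have h2 : q' ^ 4 * D ^ 2 = b' ^ 4 * l ^ 2 := by
    have e : q' ^ 4 * D ^ 2 = (q' ^ 2 * D) ^ 2 := by ring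
    rw [e, h1, hD]
    linear_combination b' ^ 4 * l ^ 2 * he + (b' ^ 4 * (2 * e0 * e1 + e1 ^ 2 * l) - 2 * b' ^ 3 * t' * (e0 + e1 * l) + b' ^ 2 * t' ^ 2 * l) * hl
  rw [h2, h1, hq, hD]
  linear_combination (-2 * t * b' ^ 2 * l ^ 2) * he + (-2 * t * b' ^ 2 * (f * e0 + e0 * e1 + f * e1 * l) + 2 * t * (e0 + f * l) * (b' * t' + b' ^ 4)) * hl

theorem kwc_star {R : Type} [CommRing R] {l e0 e1 t t' D q q' : R} (hl : l ^ 3 = 0) (h3 : (3 : R) = -l ^ 2) (he : e0 ^ 2 = 1)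
    (hD : D = l * (e0 + e1 * l)) (b b' : ℤ) (hb : b = 0 ∨ b = 1 ∨ b = -1) (hb' : b' = 0 ∨ b' = 1 ∨ b' = -1)
    (hq : q = 2 * (b + t * (l * (e0 + (e1 - 1 - b ^ 2) * l)))) (hq' : q' = 2 * (b' + t' * (l * (e0 + (e1 - 1 - b' ^ 2) * l)))) :
    ∃ b'' c : ℤ, (b'' = 0 ∨ b'' = 1 ∨ b'' = -1) ∧ q * (1 - q' ^ 2 * D + q' ^ 4 * D ^ 2) + q' * (1 - q ^ 2 * D + q ^ 4 * D ^ 2) =
      2 * (b'' + (c + t + t') * (l * (e0 + (e1 - 1 - b'' ^ 2) * l))) := by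
  have h3l : 3 * l = 0 := by rw [h3]; linear_combination -hl
  have h1 := kwc_form hl h3l he hD hq hq'
  have h2 := kwc_form hl h3l he hD hq' hq
  rw [h1, h2, hD]
  rcases hb with rfl | rfl | rfl <;> rcases hb' with rfl | rfl | rfl
  · exact ⟨0, 0, Or.inl rfl, by push_cast; ring⟩
  · exact ⟨1, 0, Or.inr (Or.inl rfl), by push_cast; ring⟩
  · exact ⟨-1, 0, Or.inr (Or.inr rfl), by push_cast; ring⟩
  · exact ⟨1, 0, Or.inr (Or.inl rfl), by push_cast; ring⟩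
  · exact ⟨-1, 1, Or.inr (Or.inr rfl), by push_cast; linear_combination 2 * h3 + 2 * (l - (e0 + e1 * l)) * h3l⟩
  · exact ⟨0, 0, Or.inl rfl, by push_cast; linear_combination (-2 * (t + t') * l) * h3l⟩
  · exact ⟨-1, 0, Or.inr (Or.inr rfl), by push_cast; ring⟩
  · exact ⟨0, 0, Or.inl rfl, by push_cast; linear_combination (-2 * (t + t') * l) * h3l⟩
  · exact ⟨1, -1, Or.inr (Or.inl rfl), by push_cast; linear_combination -2 * h3 - 2 * (l - (e0 + e1 * l)) * h3l⟩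

theorem kwc_mk (x : Eis) : la ^ 3 ∣ x ↔ Ideal.Quotient.mk (Ideal.span {la ^ 3}) x = 0 := by
  rw [Ideal.Quotient.eq_zero_iff_mem, Ideal.mem_span_singleton]

theorem kwc_l : (Ideal.Quotient.mk (Ideal.span {la ^ 3}) la) ^ 3 = 0 := by
  rw [← map_pow, ← kwc_mk]

theorem kwc_3 : (3 : Eis ⧸ (Ideal.span {la ^ 3})) = -(Ideal.Quotient.mk (Ideal.span {la ^ 3}) la) ^ 2 := by
  have h1 : (3 : Eis ⧸ (Ideal.span {la ^ 3})) = Ideal.Quotient.mk (Ideal.span {la ^ 3}) (3 : Eis) := (map_ofNat _ 3).symm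
  rw [h1, ← map_pow, ← map_neg, ← sub_eq_zero, ← map_sub, ← kwc_mk]
  exact ⟨1 + om, by decide⟩

/-- the digits of `D` -/
theorem kwc_dig {D : Eis} (hl : la ∣ D) (hl2 : ¬ la ^ 2 ∣ D) : ∃ e₀ e₁ : ℤ, (e₀ = 1 ∨ e₀ = -1) ∧
    la ^ 3 ∣ D - la * ((e₀ : Eis) + (e₁ : Eis) * la) := by
  obtain ⟨d, rfl⟩ := hl
  obtain ⟨e₀, h0, d₁, hd₁⟩ := pac_digit d
  obtain ⟨e₁, -, d₂, hd₂⟩ := pac_digit d₁
  refine ⟨e₀, e₁, ?_, ?_⟩
  · rcases h0 with h0 | h0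
    · exfalso
      apply hl2
      refine ⟨d₁, ?_⟩
      rw [hd₁, h0]
      push_cast
      ring
    · exact h0
  · refine ⟨d₂, ?_⟩
    rw [hd₁, hd₂]
    ring

theorem kwc_not : ¬ la ^ 3 ∣ la ^ 2 := by
  rintro ⟨c, hc⟩
  have hdom : IsDomain Eis := eis_isDomain
  have h1 : la ^ 2 * (la * c) = la ^ 2 * 1 := by rw [mul_one]; linear_combination -hc
  exact CU.la_prime.not_isUnit (IsUnit.of_mul_eq_one _ (mul_left_cancel₀ (pow_ne_zero 2 CU.la_prime.ne_zero) h1))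

section
variable {D : Eis} (hl : la ∣ D) (hl2 : ¬ la ^ 2 ∣ D)
include hl hl2

omit hl hl2 in
theorem w1_congr {q q' : Eis} (h : W1 D q) (hq : la ^ 3 ∣ q - q') : W1 D q' := by
  obtain ⟨b, e₀, e₁, t, h1, h2, h3, h4⟩ := h
  refine ⟨b, e₀, e₁, t, h1, h2, h3, ?_⟩
  have h5 := dvd_sub h4 hq
  have e : ∀ x y z : Eis, x - z - (x - y) = y - z := by intro x y z; ring
  rwa [e] at h5

/-- [KWc] -/
theorem w1_star {q q' : Eis} (h : W1 D q) (h' : W1 D q') : W1 D (star1 D q q') := by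
  obtain ⟨b, e₀, e₁, t, hb, he₀, hD, hq⟩ := h
  obtain ⟨b', e₀', e₁', t', hb', he₀', hD', hq'⟩ := h'
  rw [kwc_mk] at hD hD' hq hq'
  simp only [map_sub, map_mul, map_add, map_pow, map_intCast, map_ofNat] at hD hD' hq hq'
  have hl3 := kwc_l
  have h3 := kwc_3
  set l := Ideal.Quotient.mk (Ideal.span {la ^ 3}) la with hl
  have h3l : 3 * l = 0 := by rw [h3]; linear_combination -hl3
  have hee : e₀' = e₀ := by
    have h1 : ((e₀ : Eis ⧸ (Ideal.span {la ^ 3})) - (e₀' : Eis ⧸ (Ideal.span {la ^ 3}))) * l ^ 2 = 0 := by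
      linear_combination l * hD' - l * hD + (e₁' - e₁) * hl3
    have h2 : ∀ x : ℤ, x = 2 ∨ x = -2 → ((x : ℤ) : Eis ⧸ (Ideal.span {la ^ 3})) * l ^ 2 ≠ 0 := by
      intro x hx h0
      apply kwc_not
      rw [kwc_mk, map_pow, ← hl]
      rcases hx with rfl | rfl
      · push_cast at h0
        linear_combination l * h3l - h0
      · push_cast at h0
        linear_combination l * h3l + h0
    by_contra hne
    refine h2 (e₀ - e₀') ?_ ?_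
    · omega
    · push_cast
      exact h1
  rw [hee] at hD' hq'
  have he : (e₀ : Eis ⧸ (Ideal.span {la ^ 3})) ^ 2 = 1 := by
    rcases he₀ with rfl | rfl
    · push_cast; ring
    · push_cast; ring
  have hee1 : ((e₁' : Eis ⧸ (Ideal.span {la ^ 3})) - e₁) * l ^ 2 = 0 := by
    linear_combination hD - hD'
  obtain ⟨b'', c, hb'', hc⟩ := kwc_star (t := (t : Eis ⧸ (Ideal.span {la ^ 3}))) (t' := (t' : Eis ⧸ (Ideal.span {la ^ 3})))
    (e1 := (e₁ : Eis ⧸ (Ideal.span {la ^ 3}))) (D := Ideal.Quotient.mk (Ideal.span {la ^ 3}) D)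
    (q := Ideal.Quotient.mk (Ideal.span {la ^ 3}) q) (q' := Ideal.Quotient.mk (Ideal.span {la ^ 3}) q') hl3 h3 he
    (by linear_combination hD) b b' hb hb' (by
      push_cast at hq
      linear_combination hq) (by
      push_cast at hq'
      linear_combination hq' + 2 * t' * hee1)
  refine ⟨b'', e₀, e₁, c + t + t', hb'', he₀, ?_, ?_⟩
  · rw [kwc_mk]
    simp only [map_sub, map_mul, map_add, map_pow, map_intCast]
    exact hD
  · rw [kwc_mk]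
    unfold star1
    simp only [map_sub, map_mul, map_add, map_pow, map_intCast, map_ofNat, map_one]
    push_cast
    linear_combination hc

/-- [KWc] -/
theorem w1_cube (q : Eis) : W1 D (3 * q + q ^ 3 * D) := by
  obtain ⟨e₀, e₁, he₀, hD⟩ := kwc_dig hl hl2
  obtain ⟨m, -, q₁, hq⟩ := pac_digit q
  refine ⟨0, e₀, e₁, 2 * m, Or.inl rfl, he₀, hD, ?_⟩
  rw [kwc_mk] at hD ⊢
  rw [hq]
  simp only [map_sub, map_mul, map_add, map_pow, map_intCast, map_ofNat] at hD ⊢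
  have hl3 := kwc_l
  have h3 := kwc_3
  set l := Ideal.Quotient.mk (Ideal.span {la ^ 3}) la with hl'
  have h3l : 3 * l = 0 := by rw [h3]; linear_combination -hl3
  have hm : (m : Eis ⧸ (Ideal.span {la ^ 3})) ^ 3 * l = m * l := by
    have h1 : (3 : ℤ) ∣ m ^ 3 - m := by
      have h2 : m % 3 = 0 ∨ m % 3 = 1 ∨ m % 3 = 2 := by omega
      obtain ⟨k, hk⟩ : ∃ k, k = m / 3 := ⟨_, rfl⟩
      rcases h2 with h2 | h2 | h2
      · have h3 : m = 3 * k := by omega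
        exact ⟨9 * k ^ 3 - k, by rw [h3]; ring⟩
      · have h3 : m = 3 * k + 1 := by omega
        exact ⟨9 * k ^ 3 + 9 * k ^ 2 + 2 * k, by rw [h3]; ring⟩
      · have h3 : m = 3 * k + 2 := by omega
        exact ⟨9 * k ^ 3 + 18 * k ^ 2 + 11 * k + 2, by rw [h3]; ring⟩
    obtain ⟨k, hk⟩ := h1
    have h2 : (m : Eis ⧸ (Ideal.span {la ^ 3})) ^ 3 - m = 3 * k := by
      exact_mod_cast congrArg (fun x : ℤ => (x : Eis ⧸ (Ideal.span {la ^ 3}))) hk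
    linear_combination l * h2 + k * h3l
  push_cast
  have hDe : Ideal.Quotient.mk (Ideal.span {la ^ 3}) D = l * ((e₀ : Eis ⧸ (Ideal.span {la ^ 3})) + (e₁ : Eis ⧸ (Ideal.span {la ^ 3})) * l) := by
    linear_combination hD
  rw [hDe]
  set p := Ideal.Quotient.mk (Ideal.span {la ^ 3}) q₁ with hp
  linear_combination m * h3 + (e₀ + e₁ * l) * hm +
    (p + (m ^ 2 * p + m * l * p ^ 2) * (l * (e₀ + e₁ * l)) - m * (e₀ + (e₁ - 1) * l)) * h3l + p ^ 3 * (l * (e₀ + e₁ * l)) * hl3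

/-- [KWc] -/
theorem w1_neg {q : Eis} (h : W1 D q) : W1 D (-q) := by
  obtain ⟨b, e₀, e₁, t, hb, he₀, hD, hq⟩ := h
  refine ⟨-b, e₀, e₁, -t, ?_, he₀, hD, ?_⟩
  · omega
  · have e : -q - 2 * (((-b : ℤ) : Eis) + ((-t : ℤ) : Eis) * (la * ((e₀ : Eis) + ((e₁ - 1 - (-b) ^ 2 : ℤ) : Eis) * la))) =
        -(q - 2 * ((b : Eis) + (t : Eis) * (la * ((e₀ : Eis) + ((e₁ - 1 - b ^ 2 : ℤ) : Eis) * la)))) := by
      push_cast
      ring
    rw [e]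
    exact (dvd_neg).2 hq

/-- [KWc] -/
theorem w1_gE : W1 D (2 * (-1 + D - D ^ 2 - la ^ 2)) := by
  obtain ⟨e₀, e₁, he₀, hD⟩ := kwc_dig hl hl2
  refine ⟨-1, e₀, e₁, 1, Or.inr (Or.inr rfl), he₀, hD, ?_⟩
  rw [kwc_mk] at hD ⊢
  simp only [map_sub, map_mul, map_add, map_pow, map_intCast, map_ofNat, map_neg, map_one] at hD ⊢
  have hl3 := kwc_l
  have he : (e₀ : Eis ⧸ (Ideal.span {la ^ 3})) ^ 2 = 1 := by
    rcases he₀ with rfl | rfl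
    · push_cast; ring
    · push_cast; ring
  set l := Ideal.Quotient.mk (Ideal.span {la ^ 3}) la with hl'
  push_cast
  have hDe : Ideal.Quotient.mk (Ideal.span {la ^ 3}) D = l * ((e₀ : Eis ⧸ (Ideal.span {la ^ 3})) + (e₁ : Eis ⧸ (Ideal.span {la ^ 3})) * l) := by
    linear_combination hD
  rw [hDe]
  linear_combination (-2 * l ^ 2) * he - 2 * (2 * e₀ * e₁ + e₁ ^ 2 * l) * hl3

end

theorem kwd_algp {R : Type} [CommRing R] {D t : R} (h9 : (9 : R) = 0) (h3D : 3 * D = 0) (hD2 : D ^ 2 = -3) :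
    (2 * (1 + t * (D + 6))) * (1 - (2 * (-1 + D - D ^ 2 + 3)) ^ 2 * D + (2 * (-1 + D - D ^ 2 + 3)) ^ 4 * D ^ 2) +
      (2 * (-1 + D - D ^ 2 + 3)) * (1 - (2 * (1 + t * (D + 6))) ^ 2 * D + (2 * (1 + t * (D + 6))) ^ 4 * D ^ 2) = 2 * (t + 1) * (D + 3) := by
  linear_combination ((5958) + (-4288)*t + (24024)*t^2 + (63360)*t^3 + (29088)*t^4 + (14168)*D + (92064)*D*t + (18008)*D*t^2 + (87936)*D*t^3 + (147744)*D*t^4 + (-1808)*D^2 + (2848)*D^2*t + (-3560)*D^2*t^2 + (-2688)*D^2*t^3 + (17952)*D^2*t^4 + (-4360)*D^3 + (-28064)*D^3*t + (-2104)*D^3*t^2 + (-10880)*D^3*t^3 + (-16992)*D^3*t^4 + (512)*D^4 + (-1288)*D^4*t + (-192)*D^4*t^2 + (-2176)*D^4*t^3 + (-5984)*D^4*t^4 + (1024)*D^5 + (6656)*D^5*t + (-128)*D^5*t^3 + (-736)*D^5*t^4 + (-160)*D^6 + (64)*D^6*t + (-32)*D^6*t^4 + (-128)*D^7 + (-928)*D^7*t + (32)*D^8 + (64)*D^8*t + (32)*D^9*t) * hD2 + ((-14184) + (-92192)*t +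 (-18200)*t^2 + (-87936)*t^3 + (-147744)*t^4) * h3D + ((-1986) + (1430)*t + (-8008)*t^2 + (-21120)*t^3 + (-9696)*t^4) * h9

theorem kwd_algm {R : Type} [CommRing R] {D t : R} (h9 : (9 : R) = 0) (h3D : 3 * D = 0) (hD2 : D ^ 2 = -3) :
    (2 * (-1 + t * (D + 6))) * (1 - (-(2 * (-1 + D - D ^ 2 + 3))) ^ 2 * D + (-(2 * (-1 + D - D ^ 2 + 3))) ^ 4 * D ^ 2) +
      (-(2 * (-1 + D - D ^ 2 + 3))) * (1 - (2 * (-1 + t * (D + 6))) ^ 2 * D + (2 * (-1 + t * (D + 6))) ^ 4 * D ^ 2) = 2 * (t - 1) * (D + 3) := by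
  linear_combination ((-5958) + (-4288)*t + (-24024)*t^2 + (63360)*t^3 + (-29088)*t^4 + (-14168)*D + (92064)*D*t + (-18008)*D*t^2 + (87936)*D*t^3 + (-147744)*D*t^4 + (1808)*D^2 + (2848)*D^2*t + (3560)*D^2*t^2 + (-2688)*D^2*t^3 + (-17952)*D^2*t^4 + (4360)*D^3 + (-28064)*D^3*t + (2104)*D^3*t^2 + (-10880)*D^3*t^3 + (16992)*D^3*t^4 + (-512)*D^4 + (-1288)*D^4*t + (192)*D^4*t^2 + (-2176)*D^4*t^3 + (5984)*D^4*t^4 + (-1024)*D^5 + (6656)*D^5*t + (-128)*D^5*t^3 + (736)*D^5*t^4 + (160)*D^6 + (64)*D^6*t + (32)*D^6*t^4 + (128)*D^7 + (-928)*D^7*t + (-32)*D^8 + (64)*D^8*t + (32)*D^9*t) * hD2 + ((14184) + (-92192)*t + (18200)*t^2 + (-87936)*t^3 + (147744)*t^4) * h3D + ((1986) + (1430)*t + (8008)*t^2 + (-21120)*t^3 + (9696)*t^4) * h9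

/-- the classes in terms of `D` and `la` -/
theorem kwd_w1 {D q : Eis} (h : W1 D q) : la ^ 3 ∣ D ^ 2 - la ^ 2 ∧ ∃ b t : ℤ, (b = 0 ∨ b = 1 ∨ b = -1) ∧
    la ^ 3 ∣ q - 2 * ((b : Eis) + (t : Eis) * (D - (1 + (b : Eis) ^ 2) * la ^ 2)) := by
  obtain ⟨b, e₀, e₁, t, h1, h2, ⟨x, hx⟩, ⟨y, hy⟩⟩ := h
  have he : (e₀ : Eis) ^ 2 = 1 := by
    rcases h2 with rfl | rfl
    · norm_num
    · norm_num
  refine ⟨⟨x * (D + la * ((e₀ : Eis) + (e₁ : Eis) * la)) + 2 * (e₀ : Eis) * (e₁ : Eis) + (e₁ : Eis) ^ 2 * la, ?_⟩, b, t, h1,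
    ⟨y - 2 * (t : Eis) * x, ?_⟩⟩
  · linear_combination (D + la * ((e₀ : Eis) + (e₁ : Eis) * la)) * hx + la ^ 2 * he
  · push_cast at hy
    linear_combination hy - 2 * (t : Eis) * hx

theorem kwd_mk {D q : Eis} {b t : ℤ} (h : la ^ 3 ∣ q - 2 * ((b : Eis) + (t : Eis) * (D - (1 + (b : Eis) ^ 2) * la ^ 2))) :
    Ideal.Quotient.mk (Ideal.span {la ^ 3}) q =
      2 * ((b : Eis ⧸ Ideal.span {la ^ 3}) + (t : Eis ⧸ Ideal.span {la ^ 3}) * (Ideal.Quotient.mk (Ideal.span {la ^ 3}) D +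
        3 * (1 + (b : Eis ⧸ Ideal.span {la ^ 3}) ^ 2))) := by
  rw [← kwb_q] at h
  have h2 := kwb_l2
  simp only [map_sub, map_mul, map_add, map_pow, map_intCast, map_one, map_ofNat] at h
  linear_combination h - 2 * (t : Eis ⧸ Ideal.span {la ^ 3}) * (1 + (b : Eis ⧸ Ideal.span {la ^ 3}) ^ 2) * h2

theorem kwd_D2 {D : Eis} (h : la ^ 3 ∣ D ^ 2 - la ^ 2) : Ideal.Quotient.mk (Ideal.span {la ^ 3}) D ^ 2 = -3 := by
  rw [← kwb_q] at h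
  have h2 := kwb_l2
  rw [map_sub, map_pow, map_pow] at h
  linear_combination h + h2

theorem kwd_star (D q q' : Eis) : Ideal.Quotient.mk (Ideal.span {la ^ 3}) (star1 D q q') =
    Ideal.Quotient.mk (Ideal.span {la ^ 3}) q * (1 - Ideal.Quotient.mk (Ideal.span {la ^ 3}) q' ^ 2 * Ideal.Quotient.mk (Ideal.span {la ^ 3}) D +
      Ideal.Quotient.mk (Ideal.span {la ^ 3}) q' ^ 4 * Ideal.Quotient.mk (Ideal.span {la ^ 3}) D ^ 2) +
    Ideal.Quotient.mk (Ideal.span {la ^ 3}) q' * (1 - Ideal.Quotient.mk (Ideal.span {la ^ 3}) q ^ 2 * Ideal.Quotient.mk (Ideal.span {la ^ 3}) D +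
      Ideal.Quotient.mk (Ideal.span {la ^ 3}) q ^ 4 * Ideal.Quotient.mk (Ideal.span {la ^ 3}) D ^ 2) := by
  unfold star1
  simp only [map_add, map_mul, map_sub, map_pow, map_one]

theorem kwd_sp {D q : Eis} {t : ℤ} (hl : la ∣ D) (hD : la ^ 3 ∣ D ^ 2 - la ^ 2)
    (h : la ^ 3 ∣ q - 2 * (((1 : ℤ) : Eis) + (t : Eis) * (D - (1 + ((1 : ℤ) : Eis) ^ 2) * la ^ 2))) :
    la ^ 3 ∣ star1 D q (2 * (-1 + D - D ^ 2 - la ^ 2)) - 2 * ((t + 1 : ℤ) : Eis) * (D - la ^ 2) := by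
  have h1 := kwd_mk h
  have h2 := kwd_D2 hD
  have h3 := kwd_algp (D := Ideal.Quotient.mk (Ideal.span {la ^ 3}) D) (t := (t : Eis ⧸ Ideal.span {la ^ 3})) kwb_9 (kwb_3D hl) h2
  have hm : Ideal.Quotient.mk (Ideal.span {la ^ 3}) (-1 + D - D ^ 2 - la ^ 2) =
      -1 + Ideal.Quotient.mk (Ideal.span {la ^ 3}) D - Ideal.Quotient.mk (Ideal.span {la ^ 3}) D ^ 2 + 3 := by
    simp only [map_sub, map_add, map_neg, map_one, map_pow]
    rw [kwb_l2]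
    ring
  have hq : Ideal.Quotient.mk (Ideal.span {la ^ 3}) q =
      2 * (1 + (t : Eis ⧸ Ideal.span {la ^ 3}) * (Ideal.Quotient.mk (Ideal.span {la ^ 3}) D + 6)) := by
    rw [h1]
    push_cast
    ring
  have hq' : Ideal.Quotient.mk (Ideal.span {la ^ 3}) (2 * (-1 + D - D ^ 2 - la ^ 2)) =
      2 * (-1 + Ideal.Quotient.mk (Ideal.span {la ^ 3}) D - Ideal.Quotient.mk (Ideal.span {la ^ 3}) D ^ 2 + 3) := by
    rw [map_mul, hm, map_ofNat]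
  rw [← kwb_q, map_sub, map_mul, map_mul, map_intCast, map_ofNat, map_sub _ D, map_pow _ la, kwb_l2, kwd_star, hq, hq']
  push_cast
  linear_combination h3

theorem kwd_sm {D q : Eis} {t : ℤ} (hl : la ∣ D) (hD : la ^ 3 ∣ D ^ 2 - la ^ 2)
    (h : la ^ 3 ∣ q - 2 * (((-1 : ℤ) : Eis) + (t : Eis) * (D - (1 + ((-1 : ℤ) : Eis) ^ 2) * la ^ 2))) :
    la ^ 3 ∣ star1 D q (-(2 * (-1 + D - D ^ 2 - la ^ 2))) - 2 * ((t - 1 : ℤ) : Eis) * (D - la ^ 2) := by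
  have h1 := kwd_mk h
  have h2 := kwd_D2 hD
  have h3 := kwd_algm (D := Ideal.Quotient.mk (Ideal.span {la ^ 3}) D) (t := (t : Eis ⧸ Ideal.span {la ^ 3})) kwb_9 (kwb_3D hl) h2
  have hm : Ideal.Quotient.mk (Ideal.span {la ^ 3}) (-1 + D - D ^ 2 - la ^ 2) =
      -1 + Ideal.Quotient.mk (Ideal.span {la ^ 3}) D - Ideal.Quotient.mk (Ideal.span {la ^ 3}) D ^ 2 + 3 := by
    simp only [map_sub, map_add, map_neg, map_one, map_pow]
    rw [kwb_l2]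
    ring
  have hq : Ideal.Quotient.mk (Ideal.span {la ^ 3}) q =
      2 * (-1 + (t : Eis ⧸ Ideal.span {la ^ 3}) * (Ideal.Quotient.mk (Ideal.span {la ^ 3}) D + 6)) := by
    rw [h1]
    push_cast
    ring
  have hq' : Ideal.Quotient.mk (Ideal.span {la ^ 3}) (-(2 * (-1 + D - D ^ 2 - la ^ 2))) =
      -(2 * (-1 + Ideal.Quotient.mk (Ideal.span {la ^ 3}) D - Ideal.Quotient.mk (Ideal.span {la ^ 3}) D ^ 2 + 3)) := by
    rw [map_neg, map_mul, hm, map_ofNat]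
  rw [← kwb_q, map_sub, map_mul, map_mul, map_intCast, map_ofNat, map_sub _ D, map_pow _ la, kwb_l2, kwd_star, hq, hq']
  push_cast
  linear_combination h3

section
variable {D : Eis} {F : Type} [Field F] [NumberField F] [Algebra KK F] {r : F} {τ : F ≃ₐ[KK] F}
  (hD : D ≠ 0) (hl : la ∣ D) (hl2 : ¬ la ^ 2 ∣ D) (hQ : Quad D r τ)
include hD hl hl2 hQ

/-- elements of norm one with a class -/
def kwd_S (D : Eis) (r : F) (τ : F ≃ₐ[KK] F) (x : F) : Prop := N1 τ x ∧ ∃ q : Eis, PsR r x q ∧ W1 D q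

omit hD hQ in
theorem kwd_Sone : kwd_S D r τ (1 : F) := by
  refine ⟨k1a_n1one, _, ?_, w1_cube hl hl2 0⟩
  intro w _
  have e : (1 : F) ^ 8 - ((1 : F) ^ 8)⁻¹ - jF F (3 * 0 + 0 ^ 3 * D) * r = 0 := by
    norm_num
  rw [e, map_zero]
  exact zero_le

theorem kwd_Smul {x y : F} (hx : kwd_S D r τ x) (hy : kwd_S D r τ y) : kwd_S D r τ (x * y) := by
  obtain ⟨h1, q, h2, h3⟩ := hx
  obtain ⟨k1, p, k2, k3⟩ := hy
  exact ⟨n1_mul h1 k1, _, psR_mulX hD hl hl2 hQ h1 k1 h2 k2, w1_star hl hl2 h3 k3⟩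

theorem kwd_Sinv {x : F} (hx : kwd_S D r τ x) : kwd_S D r τ x⁻¹ := by
  obtain ⟨h1, q, h2, h3⟩ := hx
  exact ⟨n1_inv h1, _, psR_inv hD hl hl2 hQ h1 h2, w1_neg hl hl2 h3⟩

theorem kwd_Scube {x : F} (hx : N1 τ x) : kwd_S D r τ (x ^ 3) := by
  obtain ⟨q, hq⟩ := psR_exists hD hl hl2 hQ hx
  exact ⟨n1_pow hx 3, _, psR_cube' hD hl hl2 hQ hx hq, w1_cube hl hl2 q⟩

theorem kwd_Spow (n : ℕ) : kwd_S D r τ (gE D r ^ n) := by
  induction n with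
  | zero =>
    rw [pow_zero]
    exact kwd_Sone hl hl2
  | succ n ih =>
    rw [pow_succ]
    exact kwd_Smul hD hl hl2 hQ ih ⟨gE_n1 hD hl hl2 hQ, _, psR_gE' hD hl hl2 hQ, w1_gE hl hl2⟩

theorem kwd_Szpow (n : ℤ) : kwd_S D r τ (gE D r ^ n) := by
  obtain ⟨k, rfl | rfl⟩ := Int.eq_nat_or_neg n
  · rw [zpow_natCast]
    exact kwd_Spow hD hl hl2 hQ k
  · rw [zpow_neg, zpow_natCast]
    exact kwd_Sinv hD hl hl2 hQ (kwd_Spow hD hl hl2 hQ k)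

/-- elements which are congruent modulo `la³` have the same class -/
theorem kwd_close {x y : F} (hx : N1 τ x) (hy : N1 τ y) {q p : Eis} (hq : PsR r x q) (hp : PsR r y p)
    (h : ∀ w : HeightOneSpectrum (𝓞 F), OvLa w → w.valuation F (x - y) ≤ w.valuation F (jF F la) ^ 3) : la ^ 3 ∣ q - p := by
  obtain ⟨w, hw⟩ := exists_ov hD hQ
  obtain ⟨hwl, hwr⟩ := ovR hD hl hl2 hQ w hw
  have hvx := hx.2 w hw
  have hvy := hy.2 w hw
  have hx0 := paa_ne hvx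
  have hy0 := paa_ne hvy
  have h1 : w.valuation F (x ^ 8 - y ^ 8) ≤ WithZero.exp (-6 : ℤ) := by
    have e : x ^ 8 - y ^ 8 = (x - y) * ((x + y) * (x ^ 2 + y ^ 2) * (x ^ 4 + y ^ 4)) := by ring
    have h6 : w.valuation F (x - y) ≤ WithZero.exp (-6 : ℤ) := by
      refine (h w hw).trans ?_
      rw [hwl, k1d_pow]
      exact k1d_le (by norm_num)
    rw [e]
    refine k1d_mul hD hl hl2 hQ w h6 ?_
    have hp : ∀ n : ℕ, w.valuation F (x ^ n + y ^ n) ≤ 1 := by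
      intro n
      refine Valuation.map_add_le _ ?_ ?_
      · rw [map_pow, hvx, one_pow]
      · rw [map_pow, hvy, one_pow]
    have hp1 := hp 1
    rw [pow_one, pow_one] at hp1
    rw [map_mul, map_mul]
    exact mul_le_one' (mul_le_one' hp1 (hp 2)) (hp 4)
  have h2 : w.valuation F ((x ^ 8)⁻¹ - (y ^ 8)⁻¹) ≤ WithZero.exp (-6 : ℤ) := by
    have e : (x ^ 8)⁻¹ - (y ^ 8)⁻¹ = -((x ^ 8 - y ^ 8) * ((x ^ 8)⁻¹ * (y ^ 8)⁻¹)) := by
      field_simp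
      ring
    rw [e, Valuation.map_neg, map_mul, map_mul, map_inv₀, map_inv₀, map_pow _ x, map_pow _ y, hvx, hvy, one_pow, inv_one, mul_one, mul_one]
    exact h1
  have h3 : w.valuation F (jF F (q - p) * r) ≤ WithZero.exp (-6 : ℤ) := by
    have h4 := hq w hw
    have h5 := hp w hw
    rw [k1c_sev hD hl hl2 hQ hw] at h4 h5
    have e : jF F (q - p) * r = (x ^ 8 - y ^ 8) - ((x ^ 8)⁻¹ - (y ^ 8)⁻¹) - (x ^ 8 - (x ^ 8)⁻¹ - jF F q * r) +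
        (y ^ 8 - (y ^ 8)⁻¹ - jF F p * r) := by
      rw [map_sub]
      ring
    rw [e]
    exact Valuation.map_add_le _ (Valuation.map_sub_le _ (Valuation.map_sub_le _ h1 h2) (h4.trans (k1d_le (by norm_num))))
      (h5.trans (k1d_le (by norm_num)))
  have h7 : w.valuation F (jF F (q - p)) ≤ WithZero.exp (-5 : ℤ) := by
    rw [map_mul, hwr] at h3
    have e : (WithZero.exp (-6 : ℤ) : WithZero (Multiplicative ℤ)) = WithZero.exp (-5 : ℤ) * WithZero.exp (-1 : ℤ) := by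
      rw [k1d_exp]; norm_num
    rw [e] at h3
    exact le_of_mul_le_mul_right h3 (WithZero.exp_pos)
  have hdiv : ∀ (z : Eis) (n : ℤ), n < 0 → w.valuation F (jF F z) ≤ WithZero.exp n →
      ∃ y : Eis, z = la * y ∧ w.valuation F (jF F y) ≤ WithZero.exp (n + 2) := by
    intro z n hn hz
    obtain ⟨y, hy⟩ : la ∣ z := (ov_mem w hw _).1 (lt_of_le_of_lt hz (k1d_lt1 hn))
    refine ⟨y, hy, ?_⟩
    rw [hy, map_mul, map_mul, hwl] at hz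
    have e1 : (WithZero.exp n : WithZero (Multiplicative ℤ)) = WithZero.exp (-2 : ℤ) * WithZero.exp (n + 2) := by
      rw [k1d_exp]
      congr 1
      ring
    rw [e1] at hz
    exact le_of_mul_le_mul_left hz (WithZero.exp_pos)
  obtain ⟨y1, e1, f1⟩ := hdiv _ _ (by norm_num) h7
  obtain ⟨y2, e2, f2⟩ := hdiv _ _ (by norm_num) f1
  obtain ⟨y3, e3, f3⟩ := hdiv _ _ (by norm_num) f2
  exact ⟨y3, by rw [e1, e2, e3]; ring⟩

theorem kwd_to {b : F} (hb : N1 τ b) {q : Eis} (h : PsR r b q) (hP : Pg D r τ b) : W1 D q := by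
  obtain ⟨j, c, hc, hw⟩ := hP
  obtain ⟨h1, q₁, h2, h3⟩ := kwd_Smul hD hl hl2 hQ (kwd_Szpow hD hl hl2 hQ j) (kwd_Scube hD hl hl2 hQ hc)
  have hb2 := n1_pow hb 2
  obtain ⟨q₂, h4⟩ := psR_exists hD hl hl2 hQ hb2
  have h5 := kwd_close hD hl hl2 hQ hb2 h1 h4 h2 hw
  have h6 : W1 D q₂ := w1_congr h3 (by
    have := (dvd_neg (a := la ^ 3)).2 h5
    rwa [neg_sub] at this)
  obtain ⟨k1, q₃, k2, k3⟩ := kwd_Smul hD hl hl2 hQ (kwd_Scube hD hl hl2 hQ hb) (kwd_Sinv hD hl hl2 hQ ⟨hb2, q₂, h4, h6⟩)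
  have hb0 : b ≠ 0 := left_ne_zero_of_mul (by rw [hb.1]; exact one_ne_zero)
  have e : b ^ 3 * (b ^ 2)⁻¹ = b := by
    field_simp
  rw [e] at k2
  exact w1_congr k3 (psR_unique hD hl hl2 hQ k2 h)

/-- the class of `κ³` -/
theorem kwd_kap : ∃ (q : Eis) (m : ℤ), PsR r (((1 + r) / (1 - r)) ^ 3) q ∧ la ∣ q ∧ ¬ (3 : ℤ) ∣ m ∧
    la ^ 3 ∣ q - 2 * (m : Eis) * (D - la ^ 2) := by
  obtain ⟨hk, qk, hqk, hk1, hk2⟩ := psR_kap hD hl hl2 hQ
  obtain ⟨-, q₁, h1, h2⟩ := kwd_Scube hD hl hl2 hQ hk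
  have h3 : W1 D qk := w1_congr h2 (psR_unique hD hl hl2 hQ h1 hqk)
  obtain ⟨-, b, t, hb, h4⟩ := kwd_w1 h3
  have hb0 : b = 0 := by
    have h5 : la ∣ ((2 * b : ℤ) : Eis) := by
      obtain ⟨x, hx⟩ := h4
      obtain ⟨y, hy⟩ := hk1
      obtain ⟨d, hd⟩ := hl
      refine ⟨y - la ^ 2 * x - 2 * (t : Eis) * (d - (1 + (b : Eis) ^ 2) * la), ?_⟩
      push_cast
      linear_combination hy - hx - 2 * (t : Eis) * hd
    rw [pac_int] at h5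
    omega
  subst hb0
  refine ⟨qk, t, hqk, hk1, ?_, ?_⟩
  · rintro ⟨n, rfl⟩
    apply hk2
    obtain ⟨x, hx⟩ := h4
    refine ⟨la * x - 2 * om ^ 2 * (n : Eis) * (D - la ^ 2), ?_⟩
    push_cast at hx
    linear_combination hx + 2 * (n : Eis) * (D - la ^ 2) * CU.three_eq
  · have e : qk - 2 * (t : Eis) * (D - la ^ 2) = qk - 2 * (((0 : ℤ) : Eis) + (t : Eis) * (D - (1 + ((0 : ℤ) : Eis) ^ 2) * la ^ 2)) := by
      push_cast
      ring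
    rw [e]
    exact h4

theorem kwd_fin {x : F} (hx : N1 τ x) {q : Eis} (h : PsR r x q) {s : ℤ} (hs : la ^ 3 ∣ q - 2 * (s : Eis) * (D - la ^ 2)) :
    ∃ (i : ℕ) (q' : Eis), PsR r (x * (((1 + r) / (1 - r)) ^ 3) ^ i) q' ∧ la ^ 3 ∣ q' := by
  obtain ⟨qk, m, hqk, hk1, hm, hk⟩ := kwd_kap hD hl hl2 hQ
  have hk3 := n1_pow (psR_kap hD hl hl2 hQ).1 3
  have hlD : la ∣ D - la ^ 2 := dvd_sub hl ⟨la, by ring⟩
  have hq : la ∣ q := by
    have h1 : la ∣ q - 2 * (s : Eis) * (D - la ^ 2) := Dvd.dvd.trans ⟨la ^ 2, by ring⟩ hs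
    have h2 := dvd_add h1 (hlD.mul_left (2 * (s : Eis)))
    rwa [sub_add_cancel] at h2
  have hend : ∀ n : ℤ, (3 : ℤ) ∣ n → la ^ 3 ∣ 2 * (n : Eis) * (D - la ^ 2) := by
    rintro n ⟨k, rfl⟩
    obtain ⟨y, hy⟩ := hlD
    refine ⟨-(2 * om ^ 2 * (k : Eis) * y), ?_⟩
    rw [hy]
    push_cast
    linear_combination (2 * (k : Eis) * la * y) * CU.three_eq
  obtain ⟨x1, hx1⟩ := hs
  obtain ⟨x2, hx2⟩ := hk
  have hcase : (3 : ℤ) ∣ s ∨ (3 : ℤ) ∣ s + m ∨ (3 : ℤ) ∣ s + (m + m) := by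
    have k1 : s % 3 = 0 ∨ s % 3 = 1 ∨ s % 3 = 2 := by omega
    have k2 : m % 3 = 1 ∨ m % 3 = 2 := by omega
    rcases k1 with k1 | k1 | k1 <;> rcases k2 with k2 | k2 <;> omega
  rcases hcase with h3 | h3 | h3
  · refine ⟨0, q, ?_, ?_⟩
    · rw [pow_zero, mul_one]
      exact h
    · obtain ⟨y, hy⟩ := hend _ h3
      exact ⟨x1 + y, by linear_combination hx1 + hy⟩
  · refine ⟨1, q + qk, ?_, ?_⟩
    · rw [pow_one]
      exact psR_mul_la hD hl hl2 hQ hx hk3 h hqk hq hk1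
    · obtain ⟨y, hy⟩ := hend _ h3
      push_cast at hy
      exact ⟨x1 + x2 + y, by linear_combination hx1 + hx2 + hy⟩
  · refine ⟨2, q + qk + qk, ?_, ?_⟩
    · rw [pow_two, ← mul_assoc]
      exact psR_mul_la hD hl hl2 hQ (n1_mul hx hk3) hk3 (psR_mul_la hD hl hl2 hQ hx hk3 h hqk hq hk1) hqk (dvd_add hq hk1) hk1
    · obtain ⟨y, hy⟩ := hend _ h3
      push_cast at hy
      exact ⟨x1 + x2 + x2 + y, by linear_combination hx1 + 2 * hx2 + hy⟩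

theorem kwd_from {b : F} (hb : N1 τ b) {q : Eis} (h : PsR r b q) (hW : W1 D q) : Pg D r τ b := by
  obtain ⟨hD2, b₀, t, hb₀, h1⟩ := kwd_w1 hW
  have hgn := gE_n1 hD hl hl2 hQ
  obtain ⟨i, q₁, s, h2, h3⟩ : ∃ (i : ℤ) (q₁ : Eis) (s : ℤ), PsR r (b * gE D r ^ i) q₁ ∧
      la ^ 3 ∣ q₁ - 2 * (s : Eis) * (D - la ^ 2) := by
    rcases hb₀ with rfl | rfl | rfl
    · refine ⟨0, q, t, ?_, ?_⟩
      · rw [zpow_zero, mul_one]
        exact h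
      · have e : q - 2 * (t : Eis) * (D - la ^ 2) = q - 2 * (((0 : ℤ) : Eis) + (t : Eis) * (D - (1 + ((0 : ℤ) : Eis) ^ 2) * la ^ 2)) := by
          push_cast
          ring
        rw [e]
        exact h1
    · refine ⟨1, _, t + 1, ?_, kwd_sp hl hD2 h1⟩
      rw [zpow_one]
      exact psR_mulX hD hl hl2 hQ hb hgn h (psR_gE' hD hl hl2 hQ)
    · refine ⟨-1, _, t - 1, ?_, kwd_sm hl hD2 h1⟩
      rw [zpow_neg_one]
      exact psR_mulX hD hl hl2 hQ hb (n1_inv hgn) h (psR_inv hD hl hl2 hQ hgn (psR_gE' hD hl hl2 hQ))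
  obtain ⟨i', q', h4, h5⟩ := kwd_fin hD hl hl2 hQ (n1_mul hb (k1e_zpow hD hl hl2 hQ hgn i)) h2 h3
  obtain ⟨h6, h7⟩ := k1e_norm hD hl hl2 hQ hb i (i' : ℤ)
  rw [zpow_natCast] at h6 h7
  exact h7 (pg_of_zero hD hl hl2 hQ h6 h4 h5)

/-- [KWd] -/
theorem pg_iff {b : F} (hb : N1 τ b) {q : Eis} (h : PsR r b q) : Pg D r τ b ↔ W1 D q := by
  exact ⟨kwd_to hD hl hl2 hQ hb h, kwd_from hD hl hl2 hQ hb h⟩

end

end JG
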