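import Pool.Agent.JG.K0z
import Pool.Agent.JG.K24
import Pool.Agent.JG.K35
import Pool.Agent.JG.KW
import Pool.Agent.JG.SV

/-!
# [JG-P] the condition at `λ` for all types
-/

set_option autoImplicit false

open NumberField IsDedekindDomain
open scoped Classical

namespace JG

open CM27 CF JZ JX JXD
open JD hiding G5b_unit G5b_val LCW_ED below_val descent det_unit disc_eq eis_cube entire_ED exists_H exists_basis exists_cj exists_den exists_int exists_kappa exists_ov exists_phiE exists_quad exists_u0 final_of finite_of_phiE finprod_neron finprod_tam finrank_KD fix_int fix_of_two g4a_exp g4a_le g4a_norm g4a_one g4a_split g4b_place g5a_norm g5a_tau g5a_three g5a_unit int_KK int_jF int_r jr_inj kk_cube m1_cube min_all n5_gen ne_of_cl not_three ov_D ov_eight ov_mem ov_trans ov_val period_ED place_cases q3a_dvd_lt q3a_la_sq q3a_le q3a_sq_lt q3b_ext q3b_int q3b_le q3b_neg q3b_pos q3b_pos_iff q3b_sq q3b_tau q3b_three q4b_crt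 q5_coe q5_den quot_all quot_eq s5b_not_la sha_zero step tam_la tam_one tau_jF val_prime z1_norm
open CU (la om eE)

/-- `b^8 - b⁻⁸ ≡ q r' mod λ³` at the places over `λ` -/
def Qs {F : Type} [Field F] [NumberField F] [Algebra KK F] (r' b : F) (q : Eis) : Prop :=
  ∀ w : HeightOneSpectrum (𝓞 F), OvLa w →
    w.valuation F (b ^ 8 - (b ^ 8)⁻¹ - jF F q * r') ≤ w.valuation F (jF F la) ^ 3

/-- the class of `b` at `λ` is the class of a local point -/
def PG {F : Type} [Field F] [NumberField F] [Algebra KK F] (D : Eis) (r b : F) : Prop :=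
  ∃ (m : ℕ) (D' q : Eis), D = la ^ (2 * m) * D' ∧ ¬ la ^ 2 ∣ D' ∧ WG m D' q ∧ Qs (r / jF F la ^ m) b q

theorem m_unique {D' D'' : Eis} {m m' : ℕ} (h : la ^ (2 * m) * D' = la ^ (2 * m') * D'') (h1 : ¬ la ^ 2 ∣ D') (h2 : ¬ la ^ 2 ∣ D'') :
    m = m' ∧ D' = D'' := by
  have hdom : IsDomain Eis := eis_isDomain
  have key : ∀ (m m' : ℕ) (D' D'' : Eis), la ^ (2 * m) * D' = la ^ (2 * m') * D'' → ¬ la ^ 2 ∣ D' → m' ≤ m := by
    intro m m' D' D'' h h1
    by_contra hlt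
    rw [not_le] at hlt
    obtain ⟨j, rfl⟩ : ∃ j, m' = m + 1 + j := ⟨m' - (m + 1), by omega⟩
    apply h1
    have h3 : la ^ (2 * m) * D' = la ^ (2 * m) * (la ^ 2 * (la ^ (2 * j) * D'')) := by
      rw [h]
      ring
    exact ⟨_, mul_left_cancel₀ (pow_ne_zero _ pac_la0) h3⟩
  have e : m = m' := le_antisymm (key m' m D'' D' h.symm h2) (key m m' D' D'' h h1)
  subst e
  exact ⟨rfl, mul_left_cancel₀ (pow_ne_zero _ pac_la0) h⟩

section
variable {F : Type} [Field F] [NumberField F] [Algebra KK F] {τ : F ≃ₐ[KK] F}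

theorem pg_iffG {D D' : Eis} {r b : F} {m : ℕ} (hD : D = la ^ (2 * m) * D') (h2 : ¬ la ^ 2 ∣ D') :
    PG D r b ↔ ∃ q, WG m D' q ∧ Qs (r / jF F la ^ m) b q := by
  constructor
  · rintro ⟨m', D'', q, h3, h4, h5, h6⟩
    obtain ⟨rfl, rfl⟩ := m_unique (hD.symm.trans h3) h2 h4
    exact ⟨q, h5, h6⟩
  · rintro ⟨q, h5, h6⟩
    exact ⟨m, D', q, hD, h2, h5, h6⟩

theorem transfer {D : Eis} {r : F} {P P' : F → Prop} (h : ∀ b, N1 τ b → (P b ↔ P' b)) (h1 : ∀ a : F, a ^ 8 = 1 → P' a)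
    (hP : LC τ P ∧ Dir D r τ P ∧ Conv D r τ P) : LC τ P' ∧ Dir D r τ P' ∧ Conv D r τ P' := by
  obtain ⟨h2, h3, h4⟩ := hP
  refine ⟨⟨?_, ?_, ?_, h1, ?_⟩, ?_, ?_⟩
  · intro a b ha hb h5 h6
    exact (h _ (n1_mul ha hb)).1 (h2.mul a b ha hb ((h a ha).2 h5) ((h b hb).2 h6))
  · intro a ha h5
    exact (h _ (n1_inv ha)).1 (h2.inv a ha ((h a ha).2 h5))
  · intro a ha
    exact (h _ (n1_pow ha 3)).1 (h2.cube a ha)
  · intro a b ha hb h5
    obtain ⟨j, hj⟩ := h2.adjust a b ha hb (fun h6 => h5 ((h b hb).1 h6))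
    exact ⟨j, (h _ (n1_mul ha (n1_pow hb j))).1 hj⟩
  · intro b hb ht w hw hK a k ha hak
    exact (h a ha).1 (h3 b hb ht w hw hK a k ha hak)
  · intro a u y ha hPa
    exact h4 a u y ha ((h a ha).2 hPa)

end

theorem wg_of {m : ℕ} {D' : Eis} (hm : m ≤ 2) (h2 : ¬ la ^ 2 ∣ D') : WG m D' 0 := by
  by_cases hl : la ∣ D'
  · by_cases h0 : m = 0
    · obtain ⟨c, hc⟩ := hl
      obtain ⟨e₀, h3, b, hb⟩ := pac_digit c
      obtain ⟨e₁, h4, b', hb'⟩ := pac_digit b
      refine Or.inr (Or.inr (Or.inr (Or.inr (Or.inl ⟨h0, ⟨c, hc⟩, 0, e₀, e₁, 0, Or.inl rfl, ?_, ?_, ?_⟩))))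
      · rcases h3 with h3 | h3
        · exfalso
          apply h2
          rw [hc, hb, h3]
          exact ⟨b, by push_cast; ring⟩
        · exact h3
      · exact ⟨b', by rw [hc, hb, hb']; ring⟩
      · simp
    · exact Or.inr (Or.inr (Or.inr (Or.inr (Or.inr ⟨by omega, hl, dvd_zero _⟩))))
  · interval_cases m
    · by_cases h3 : ∃ η : Eis, (η = 1 ∨ η = -1) ∧ (3 : Eis) ∣ D' - η
      · exact Or.inr (Or.inl ⟨rfl, h3, dvd_zero _⟩)
      · push Not at h3
        obtain ⟨d₀, d₁, d₂, hd⟩ := exists_dig hl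
        exact Or.inl ⟨rfl, hl, h3, d₀, d₁, d₂, 0, hd, by simp⟩
    · exact Or.inr (Or.inr (Or.inl ⟨rfl, hl, 0, by simp⟩))
    · exact Or.inr (Or.inr (Or.inr (Or.inl ⟨rfl, hl, dvd_zero _⟩)))

section
variable {F : Type} [Field F] [NumberField F] [Algebra KK F] {τ : F ≃ₐ[KK] F}

theorem pg_one8 {D D' : Eis} {r : F} {m : ℕ} (hD : D = la ^ (2 * m) * D') (h2 : ¬ la ^ 2 ∣ D') (hm : m ≤ 2) (a : F) (ha : a ^ 8 = 1) :
    PG D r a := by
  rw [pg_iffG hD h2]
  refine ⟨0, wg_of hm h2, fun w _ => ?_⟩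
  rw [ha, inv_one, sub_self, map_zero, zero_mul, sub_zero, map_zero]
  exact zero_le

theorem quad' {D D' : Eis} {r : F} {m : ℕ} (hD : D = la ^ (2 * m) * D') (hQ : Quad D r τ) : Quad D' (r / jF F la ^ m) τ := by
  have hla : jF F la ≠ 0 := by
    intro h0
    exact pac_la0 (jF_inj F (by rw [h0, map_zero]))
  refine ⟨hQ.fr, ?_, ?_⟩
  · rw [div_pow, hQ.sq, hD, map_mul, map_pow, ← pow_mul, mul_comm m 2]
    field_simp
  · rw [map_div₀, map_pow, tau_jF, hQ.tau]
    ring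

theorem qs_congr {r' b : F} {q q' : Eis} {D' : Eis} (hQ : Quad D' r' τ) (h : Qs r' b q) (hq : la ^ 3 ∣ q - q') : Qs r' b q' := by
  intro w hw
  obtain ⟨c, hc⟩ := hq
  have e : b ^ 8 - (b ^ 8)⁻¹ - jF F q' * r' = (b ^ 8 - (b ^ 8)⁻¹ - jF F q * r') + jF F la ^ 3 * (jF F c * r') := by
    have h1 : jF F q' = jF F q - jF F la ^ 3 * jF F c := by
      rw [← map_pow, ← map_mul, ← hc, map_sub, sub_sub_cancel]
    rw [h1]
    ring
  rw [e]
  refine Valuation.map_add_le _ (h w hw) ?_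
  rw [map_mul, map_pow]
  calc w.valuation F (jF F la) ^ 3 * w.valuation F (jF F c * r') ≤ w.valuation F (jF F la) ^ 3 * 1 := by
        gcongr
        exact q3a_le w ((int_jF F _).mul (int_r hQ))
    _ = _ := mul_one _

/-- the even types -/
theorem pl_qs {D' : Eis} {r' : F} {L W : Eis → Prop} (hQ : Quad D' r' τ) (h1 : ∀ q, L q → ∃ q', W q' ∧ la ^ 3 ∣ q' - la * q)
    (h2 : ∀ q', W q' → ∃ q, L q ∧ la ^ 3 ∣ q' - la * q) (b : F) : PL L r' b ↔ ∃ q', W q' ∧ Qs r' b q' := by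
  constructor
  · rintro ⟨q, hq, hL⟩
    obtain ⟨q', hW, h3⟩ := h1 q hL
    refine ⟨q', hW, qs_congr (q := la * q) hQ hq ?_⟩
    rw [← dvd_neg, neg_sub]
    exact h3
  · rintro ⟨q', hW, hq⟩
    obtain ⟨q, hL, h3⟩ := h2 q' hW
    exact ⟨q, qs_congr (q := q') hQ hq h3, hL⟩

/-- the odd types -/
theorem psR_qs {D' : Eis} {r' b : F} {q : Eis} (hD : D' ≠ 0) (hl : la ∣ D') (hl2 : ¬ la ^ 2 ∣ D') (hQ : Quad D' r' τ)
    (h : PsR r' b q) (q' : Eis) : Qs r' b q' ↔ la ^ 3 ∣ q - q' := by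
  have hdom : IsDomain Eis := eis_isDomain
  have hqs : Qs r' b q := by
    intro w hw
    refine (h w hw).trans ?_
    calc w.valuation F (jF F la) ^ 3 * w.valuation F r' ≤ w.valuation F (jF F la) ^ 3 * 1 := by
          gcongr
          exact q3a_le w (int_r hQ)
      _ = _ := mul_one _
  constructor
  · intro h'
    obtain ⟨w, hw⟩ := exists_ov hD hQ
    obtain ⟨e1, e2⟩ := ovR hD hl hl2 hQ w hw
    have h3 : w.valuation F (jF F (q - q') * r') ≤ w.valuation F (jF F la) ^ 3 := by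
      have e : jF F (q - q') * r' = (b ^ 8 - (b ^ 8)⁻¹ - jF F q' * r') - (b ^ 8 - (b ^ 8)⁻¹ - jF F q * r') := by
        rw [map_sub]
        ring
      rw [e]
      exact Valuation.map_sub_le _ (h' w hw) (hqs w hw)
    by_contra hnot
    have key : ∀ (j : ℕ) (z : Eis), ¬ la ∣ z → w.valuation F (jF F (la ^ j * z)) = WithZero.exp (-2 * (j : ℤ)) := by
      intro j z hz
      have h4 : w.valuation F (jF F z) = 1 := by
        apply le_antisymm (q3a_le w (int_jF F z))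
        rw [← not_lt]
        intro h5
        exact hz ((ov_mem w hw z).1 h5)
      rw [map_mul, map_mul, map_pow, map_pow, e1, h4, mul_one, ← WithZero.exp_nsmul]
      congr 1
      simp [mul_comm]
    obtain ⟨j, z, hj, hz, hzq⟩ : ∃ (j : ℕ) (z : Eis), j ≤ 2 ∧ ¬ la ∣ z ∧ q - q' = la ^ j * z := by
      by_cases h5 : la ∣ q - q'
      · obtain ⟨z, hz⟩ := h5
        by_cases h6 : la ∣ z
        · obtain ⟨z', hz'⟩ := h6
          refine ⟨2, z', le_rfl, ?_, by rw [hz, hz']; ring⟩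
          rintro ⟨z'', h7⟩
          exact hnot ⟨z'', by rw [hz, hz', h7]; ring⟩
        · exact ⟨1, z, by norm_num, h6, by rw [hz, pow_one]⟩
      · exact ⟨0, _, by norm_num, h5, by rw [pow_zero, one_mul]⟩
    rw [map_mul, hzq, key j z hz, e1, e2, ← WithZero.exp_add, ← WithZero.exp_nsmul, WithZero.exp_le_exp] at h3
    simp at h3
    omega
  · intro h'
    exact qs_congr hQ hqs h'

theorem types {D : Eis} {r : F} (hD : ClG D) (hQ : Quad D r τ) : LC τ (PG D r) ∧ Dir D r τ (PG D r) ∧ Conv D r τ (PG D r) := by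
  have hdom : IsDomain Eis := eis_isDomain
  have hD0 : D ≠ 0 := nz hD
  have hla0 : jF F la ≠ 0 := by
    intro h0
    exact pac_la0 (jF_inj F (by rw [h0, map_zero]))
  obtain ⟨k, c, hk, hc, hDc⟩ := exists_kc hD CU.la_prime
  have hc0 : c ≠ 0 := by
    rintro rfl
    exact hc (dvd_zero _)
  obtain ⟨m, D', hm, hD', h2, hcase⟩ : ∃ (m : ℕ) (D' : Eis), m ≤ 2 ∧ D = la ^ (2 * m) * D' ∧ ¬ la ^ 2 ∣ D' ∧
      ((k = 2 * m ∧ D' = c) ∨ (k = 2 * m + 1 ∧ D' = la * c)) := by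
    have hodd : ∀ x : Eis, ¬ la ∣ x → ¬ la ^ 2 ∣ la * x := by
      rintro x hx ⟨y, hy⟩
      apply hx
      refine ⟨y, mul_left_cancel₀ pac_la0 ?_⟩
      rw [hy]
      ring
    have hev : ∀ x : Eis, ¬ la ∣ x → ¬ la ^ 2 ∣ x := fun x hx h => hx ((dvd_pow_self la two_ne_zero).trans h)
    rcases Nat.even_or_odd' k with ⟨m, hm | hm⟩
    · exact ⟨m, c, by omega, by rw [hDc, hm], hev c hc, Or.inl ⟨hm, rfl⟩⟩
    · exact ⟨m, la * c, by omega, by rw [hDc, hm]; ring, hodd c hc, Or.inr ⟨hm, rfl⟩⟩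
  have hD'0 : D' ≠ 0 := by
    rintro rfl
    exact h2 (dvd_zero _)
  have hQ' : Quad D' (r / jF F la ^ m) τ := quad' hD' hQ
  have hr : r = jF F (la ^ m) * (r / jF F la ^ m) := by
    rw [map_pow]
    field_simp
  have h8 := fun a ha => pg_one8 (r := r) hD' h2 hm a ha
  rcases hcase with ⟨hk2, rfl⟩ | ⟨hk2, rfl⟩
  · -- even
    have h24 := hD.la24 D' hc
    interval_cases m
    · have e0 : D = D' := by rw [hD']; ring
      have er : r / jF F la ^ 0 = r := by rw [pow_zero, div_one]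
      subst e0
      by_cases h3 : ∃ η : Eis, (η = 1 ∨ η = -1) ∧ (3 : Eis) ∣ D - η
      · have hz : ∃ η : Eis, (η = 1 ∨ η = -1) ∧ (3 : Eis) ∣ D - η ∧ ¬ la ^ 3 ∣ D - η - la ^ 2 := by
          obtain ⟨η, h4, h5⟩ := h3
          exact ⟨η, h4, h5, hD.la0 hc η h4⟩
        refine transfer (P := PL Li r) ?_ h8 ⟨lc_PL hD0 hc hQ line_i, dir_z hD0 hc hz hQ, conv_z hD0 hc hz hQ⟩
        intro b hb
        rw [pg_iffG hD' h2, er]
        refine pl_qs (D' := D) hQ ?_ ?_ b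
        · rintro q ⟨x, hx⟩
          refine ⟨la * q, Or.inr (Or.inl ⟨rfl, h3, ⟨x, by rw [hx]; ring⟩⟩), by rw [sub_self]; exact dvd_zero _⟩
        · intro q' hW
          rcases hW with ⟨-, -, h4, -⟩ | ⟨-, -, x, hx⟩ | ⟨h4, -⟩ | ⟨h4, -⟩ | ⟨-, h4, -⟩ | ⟨-, h4, -⟩
          · obtain ⟨η, h5, h6⟩ := h3
            exact absurd h6 (h4 η h5)
          · exact ⟨la * x, ⟨x, rfl⟩, by rw [hx]; exact ⟨0, by ring⟩⟩
          · exact absurd h4 (by norm_num)
          · exact absurd h4 (by norm_num)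
          · exact absurd h4 hc
          · exact absurd h4 hc
      · have h3' : ∀ η : Eis, (η = 1 ∨ η = -1) → ¬ (3 : Eis) ∣ D - η := fun η h4 h5 => h3 ⟨η, h4, h5⟩
        obtain ⟨d₀, d₁, d₂, hd⟩ := exists_dig hc
        refine transfer (P := PL (Lc (d₁ * (1 + d₂))) r) ?_ h8
          ⟨lc_PL hD0 hc hQ (line_c _), dir_x hD0 hc h3' hQ hd, conv_x hD0 hc h3' hQ hd⟩
        intro b hb
        rw [pg_iffG hD' h2, er]
        refine pl_qs (D' := D) hQ ?_ ?_ b
        · rintro q ⟨t, x, hx⟩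
          refine ⟨la * q, Or.inl ⟨rfl, hc, h3', d₀, d₁, d₂, t, hd, x, ?_⟩, by rw [sub_self]; exact dvd_zero _⟩
          linear_combination la * hx
        · intro q' hW
          rcases hW with ⟨-, -, -, e₀, e₁, e₂, t, he, x, hx⟩ | ⟨-, h4, -⟩ | ⟨h4, -⟩ | ⟨h4, -⟩ | ⟨-, h4, -⟩ | ⟨-, h4, -⟩
          · obtain ⟨rfl, rfl, rfl⟩ := dig_unique hd he
            exact ⟨(t : Eis) * (1 + ((d₁ * (1 + d₂) : ℤ) : Eis) * la), ⟨t, by rw [sub_self]; exact dvd_zero _⟩, x, by
              linear_combination hx⟩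
          · exact absurd h4 h3
          · exact absurd h4 (by norm_num)
          · exact absurd h4 (by norm_num)
          · exact absurd h4 hc
          · exact absurd h4 hc
    · have hl1 : la ∣ D' + 1 := h24 (Or.inl hD')
      have er : jF F la * (r / jF F la ^ 1) = r := by
        rw [pow_one]
        field_simp
      have hdir := dir_2 (τ := τ) hD'0 hl1 hQ'
      have hconv := conv_2 (τ := τ) hD'0 hl1 hQ'
      rw [er] at hdir hconv
      have e0 : la ^ 2 * D' = D := by rw [hD']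
      rw [e0] at hdir hconv
      refine transfer (P := PL (Lc 0) (r / jF F la ^ 1)) ?_ h8 ⟨lc_PL hD'0 hc hQ' (line_c _), hdir, hconv⟩
      intro b hb
      rw [pg_iffG hD' h2]
      refine pl_qs (D' := D') hQ' ?_ ?_ b
      · rintro q ⟨t, x, hx⟩
        refine ⟨la * q, Or.inr (Or.inr (Or.inl ⟨rfl, hc, t, x, ?_⟩)), by rw [sub_self]; exact dvd_zero _⟩
        push_cast at hx
        linear_combination la * hx
      · intro q' hW
        rcases hW with ⟨h4, -⟩ | ⟨h4, -⟩ | ⟨-, -, t, x, hx⟩ | ⟨h4, -⟩ | ⟨h4, -⟩ | ⟨-, h4, -⟩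
        · exact absurd h4 (by norm_num)
        · exact absurd h4 (by norm_num)
        · exact ⟨t, ⟨t, by simp⟩, x, by linear_combination hx⟩
        · exact absurd h4 (by norm_num)
        · exact absurd h4 (by norm_num)
        · exact absurd h4 hc
    · have hl1 : la ∣ D' + 1 := h24 (Or.inr hD')
      have er : jF F (la ^ 2) * (r / jF F la ^ 2) = r := by
        rw [map_pow]
        field_simp
      have hdir := dir_4 (τ := τ) hD'0 hl1 hQ'
      have hconv := conv_4 (τ := τ) hD'0 hl1 hQ'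
      rw [er] at hdir hconv
      have e0 : la ^ 4 * D' = D := by rw [hD']
      rw [e0] at hdir hconv
      refine transfer (P := PL Li (r / jF F la ^ 2)) ?_ h8 ⟨lc_PL hD'0 hc hQ' line_i, hdir, hconv⟩
      intro b hb
      rw [pg_iffG hD' h2]
      refine pl_qs (D' := D') hQ' ?_ ?_ b
      · rintro q ⟨x, hx⟩
        refine ⟨la * q, Or.inr (Or.inr (Or.inr (Or.inl ⟨rfl, hc, ⟨x, by rw [hx]; ring⟩⟩))), by rw [sub_self]; exact dvd_zero _⟩
      · intro q' hW
        rcases hW with ⟨h4, -⟩ | ⟨h4, -⟩ | ⟨h4, -⟩ | ⟨-, -, x, hx⟩ | ⟨h4, -⟩ | ⟨-, h4, -⟩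
        · exact absurd h4 (by norm_num)
        · exact absurd h4 (by norm_num)
        · exact absurd h4 (by norm_num)
        · exact ⟨la * x, ⟨x, rfl⟩, by rw [hx]; exact ⟨0, by ring⟩⟩
        · exact absurd h4 (by norm_num)
        · exact absurd h4 hc
  · -- odd
    have hl : la ∣ la * c := dvd_mul_right _ _
    have hq3 : m = 1 → ∀ η : Eis, (η = 1 ∨ η = -1) → ¬ la ^ 3 ∣ la * c - la * (η + la) := by
      rintro rfl η hη ⟨x, hx⟩
      apply hD.la3 c hc (by rw [hDc, hk2]) η hη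
      refine ⟨x, mul_left_cancel₀ pac_la0 ?_⟩
      linear_combination hx
    by_cases hm0 : m = 0
    · subst hm0
      have e0 : D = la * c := by rw [hD']; ring
      have er : r / jF F la ^ 0 = r := by rw [pow_zero, div_one]
      subst e0
      refine transfer (P := Pg (la * c) r τ) ?_ h8 ⟨lc_Pg hD0 hl h2 hQ, dir_1 hD0 hl h2 hQ, conv_1 hD0 hl h2 hQ⟩
      intro b hb
      obtain ⟨q, hq⟩ := psR_exists hD0 hl h2 hQ hb
      rw [pg_iffG hD' h2, er, pg_iff hD0 hl h2 hQ hb hq]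
      constructor
      · rintro ⟨b₀, e₀, e₁, t, h3, h4, h5, h6⟩
        refine ⟨q, Or.inr (Or.inr (Or.inr (Or.inr (Or.inl ⟨rfl, hl, b₀, e₀, e₁, t, h3, h4, h5, h6⟩)))),
          (psR_qs hD0 hl h2 hQ hq q).2 (by rw [sub_self]; exact dvd_zero _)⟩
      · rintro ⟨q', hW, hq'⟩
        have h7 := (psR_qs hD0 hl h2 hQ hq q').1 hq'
        rcases hW with ⟨-, h4, -⟩ | ⟨-, ⟨η, h4, h5⟩, -⟩ | ⟨h4, -⟩ | ⟨h4, -⟩ | ⟨-, -, b₀, e₀, e₁, t, h3, h4, h5, h6⟩ | ⟨h4, -⟩
        · exact absurd hl h4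
        · exfalso
          have h8 : la ∣ η := by
            have h9 : la ∣ la * c - η := by
              refine dvd_trans ?_ h5
              rw [CU.three_eq]
              exact (dvd_pow_self la two_ne_zero).mul_left _
            have h10 := dvd_sub hl h9
            rwa [sub_sub_cancel] at h10
          rcases h4 with rfl | rfl
          · exact CU.la_prime.not_isUnit (isUnit_of_dvd_one h8)
          · exact CU.la_prime.not_isUnit (isUnit_of_dvd_one ((dvd_neg).1 h8))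
        · exact absurd h4 (by norm_num)
        · exact absurd h4 (by norm_num)
        · refine w1_congr ⟨b₀, e₀, e₁, t, h3, h4, h5, h6⟩ ?_
          rw [← dvd_neg, neg_sub]
          exact h7
        · omega
    · have hm12 : m = 1 ∨ m = 2 := by omega
      have hdir := dir_35 (τ := τ) hD'0 hl h2 hQ' hm12 hq3
      have hconv := conv_35 (τ := τ) hD'0 hl h2 hQ' hm12 hq3
      rw [← hr, ← hD'] at hdir hconv
      refine transfer (P := P8) ?_ h8 ⟨lc_P8 hD'0 hl h2 hQ', hdir, hconv⟩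
      intro b hb
      obtain ⟨q, hq⟩ := psR_exists hD'0 hl h2 hQ' hb
      rw [pg_iffG hD' h2, p8_iff hD'0 hl h2 hQ' hb hq]
      constructor
      · intro h3
        exact ⟨q, Or.inr (Or.inr (Or.inr (Or.inr (Or.inr ⟨hm12, hl, h3⟩)))),
          (psR_qs hD'0 hl h2 hQ' hq q).2 (by rw [sub_self]; exact dvd_zero _)⟩
      · rintro ⟨q', hW, hq'⟩
        have h7 := (psR_qs hD'0 hl h2 hQ' hq q').1 hq'
        rcases hW with ⟨h4, -⟩ | ⟨h4, -⟩ | ⟨-, h4, -⟩ | ⟨-, h4, -⟩ | ⟨h4, -⟩ | ⟨-, -, h4⟩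
        · exact absurd h4 hm0
        · exact absurd h4 hm0
        · exact absurd hl h4
        · exact absurd hl h4
        · exact absurd h4 hm0
        · have h9 : la ∣ q - q' := (dvd_pow_self la (by norm_num : (3 : ℕ) ≠ 0)).trans h7
          have h10 := dvd_add h9 h4
          rwa [sub_add_cancel] at h10

end

end JG
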