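import Pool.Agent.JG.G5
import Pool.Agent.JXD.C1

/-!
# [JG-C1] `3 ∤ h(F)` and a unit with `¬ P (u / ū)` imply `NoBadP`
-/

set_option autoImplicit false

open NumberField IsDedekindDomain
open scoped Classical

namespace JG

open CM27 CF JZ JX JXD
open JD hiding G5b_unit G5b_val LCW_ED below_val descent det_unit disc_eq eis_cube entire_ED exists_H exists_basis exists_cj exists_den exists_int exists_kappa exists_ov exists_phiE exists_quad exists_u0 final_of finite_of_phiE finprod_neron finprod_tam finrank_KD fix_int fix_of_two g4a_exp g4a_le g4a_norm g4a_one g4a_split g4b_place g5a_norm g5a_tau g5a_three g5a_unit int_KK int_jF int_r jr_inj kk_cube m1_cube min_all n5_gen ne_of_cl not_three ov_D ov_eight ov_mem ov_trans ov_val period_ED place_cases q3a_dvd_lt q3a_la_sq q3a_le q3a_sq_lt q3b_ext q3b_int q3b_le q3b_neg q3b_pos q3b_pos_iff q3b_sq q3b_tau q3b_three q4b_crt q5_coe q5_den quot_all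 quot_eq s5b_not_la sha_zero step tam_la tam_one tau_jF val_prime z1_norm
open CU (la om eE)

section
variable {D : Eis} {F : Type} [Field F] [NumberField F] [Algebra KK F] {r : F} {τ : F ≃ₐ[KK] F} {P : F → Prop}

theorem px_pow (hP : LC τ P) {a : F} (ha : N1 τ a) (h : P a) (n : ℕ) : P (a ^ n) := by
  induction n with
  | zero =>
    rw [pow_zero]
    exact hP.one _ (by rw [one_pow])
  | succ n ih =>
    rw [pow_succ]
    exact hP.mul _ _ (n1_pow ha n) ha ih h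

theorem px_zpow (hP : LC τ P) {a : F} (ha : N1 τ a) (h : P a) (n : ℤ) : P (a ^ n) := by
  cases n with
  | ofNat n =>
    rw [Int.ofNat_eq_natCast, zpow_natCast]
    exact px_pow hP ha h n
  | negSucc n =>
    rw [zpow_negSucc]
    exact hP.inv _ (n1_pow ha _) (px_pow hP ha h _)

theorem px_tors (hD : D ≠ 0) (hQ : Quad D r τ) (hP : LC τ P) {z : F} {m : ℕ} (hm : 0 < m) (hm3 : ¬ 3 ∣ m) (hz : z ^ m = 1) : P z := by
  obtain ⟨w, hw⟩ := exists_ov hD hQ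
  have hwz : w.valuation F z = 1 := by
    have h1 : w.valuation F z ^ m = 1 := by rw [← map_pow, hz, map_one]
    exact (pow_eq_one_iff.1 h1).resolve_right hm.ne'
  have h8 := ov_eight hD hQ w hw hwz
  have hy : w.valuation F (z ^ 8) = 1 := by rw [map_pow, hwz, one_pow]
  have hgeom : (∑ i ∈ Finset.range m, (z ^ 8) ^ i) * (z ^ 8 - 1) = 0 := by
    rw [geom_sum_mul, ← pow_mul, mul_comm 8 m, pow_mul, hz, one_pow, sub_self]
  have hs := c1b_sum w hy h8 m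
  have hm1 := c1b_nat w hw hm3
  have hne : ∑ i ∈ Finset.range m, (z ^ 8) ^ i ≠ 0 := by
    intro h0
    rw [h0, zero_sub, Valuation.map_neg, hm1] at hs
    exact lt_irrefl _ hs
  exact hP.one _ (sub_eq_zero.1 ((mul_eq_zero.1 hgeom).resolve_left hne))

theorem n1_q (hD : D ≠ 0) (hQ : Quad D r τ) (u : (𝓞 F)ˣ) : N1 τ (c2b_q τ (u : F)) := g5_n1 hD hQ u

theorem unit_cube (hD : D ≠ 0) (hQ : Quad D r τ) (hP : LC τ P) {u v : (𝓞 F)ˣ} (hu : ¬ P ((u : F) / τ (u : F)))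
    (hv : P ((v : F) / τ (v : F))) :
    ∃ (ζ c : (𝓞 F)ˣ) (m : ℕ), 0 < m ∧ ζ ^ m = 1 ∧ v = ζ * c ^ 3 := by
  have hD0 : D ≠ 0 := hD
  obtain ⟨ε, hε⟩ := exists_fund F hQ.fr
  obtain ⟨ζ, n, m, hm, hζ, hvn⟩ := hε v
  by_cases h3 : (3 : ℤ) ∣ n
  · obtain ⟨l, rfl⟩ := h3
    refine ⟨ζ, ε ^ l, m, hm, hζ, ?_⟩
    rw [hvn, mul_comm 3 l, zpow_mul]
    rfl
  · exfalso
    apply hu
    obtain ⟨ζ', k, m', hm', hζ', huk⟩ := hε u
    obtain ⟨t, ht⟩ : (3 : ℤ) ∣ 1 - n ^ 2 := by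
      have h4 : n % 3 = 1 ∨ n % 3 = 2 := by omega
      rcases h4 with h4 | h4
      · obtain ⟨c, hc⟩ : ∃ c, n = 3 * c + 1 := ⟨n / 3, by omega⟩
        exact ⟨-(3 * c ^ 2 + 2 * c), by rw [hc]; ring⟩
      · obtain ⟨c, hc⟩ : ∃ c, n = 3 * c + 2 := ⟨n / 3, by omega⟩
        exact ⟨-(3 * c ^ 2 + 4 * c + 1), by rw [hc]; ring⟩
    have hk : k = n * (n * k) + (k * t) * 3 := by
      have h5 : k = k * n ^ 2 + k * (1 - n ^ 2) := by ring
      rw [ht] at h5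
      linarith [h5]
    have hu2 : u = (ζ' * ζ ^ (-(n * k))) * (v ^ (n * k) * (ε ^ (k * t)) ^ 3) := by
      have h6 : ε ^ k = (ε ^ n) ^ (n * k) * (ε ^ (k * t)) ^ 3 := by
        conv_lhs => rw [hk]
        rw [zpow_add, zpow_mul, zpow_mul ε (k * t) 3]
        rfl
      have h7 : v ^ (n * k) = ζ ^ (n * k) * (ε ^ n) ^ (n * k) := by
        rw [hvn, mul_zpow]
      rw [huk, h6, h7, zpow_neg]
      group
    set z : (𝓞 F)ˣ := ζ' * ζ ^ (-(n * k)) with hz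
    have hzm : z ^ (m * m') = 1 := by
      rw [hz, mul_pow, mul_comm m m', pow_mul, hζ', one_pow, one_mul, mul_comm m' m, pow_mul]
      have h8 : (ζ ^ (-(n * k))) ^ m = 1 := by
        rw [← zpow_natCast, ← zpow_mul, mul_comm, zpow_mul, zpow_natCast, hζ, one_zpow]
      rw [h8, one_pow]
    have hzF : (z : F) ^ (m * m') = 1 := by
      have h9 := congrArg (fun x : (𝓞 F)ˣ => ((x : 𝓞 F) : F)) hzm
      simpa using h9
    obtain ⟨m0, hm0, hm3, hz0⟩ := tors hD0 hQ (Nat.mul_pos hm hm') hzF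
    have hPz : P (c2b_q τ (z : F)) := px_tors hD hQ hP hm0 hm3 hz0
    have hPv : P (c2b_q τ (v : F) ^ (n * k)) := px_zpow hP (n1_q hD hQ v) hv _
    have hPe : P (c2b_q τ ((ε ^ (k * t) : (𝓞 F)ˣ) : F) ^ 3) :=
      hP.cube _ (n1_q hD hQ _)
    have huF : (u : F) = (z : F) * ((v : F) ^ (n * k) * ((ε ^ (k * t) : (𝓞 F)ˣ) : F) ^ 3) := by
      have h10 := congrArg (fun x : (𝓞 F)ˣ => ((x : 𝓞 F) : F)) hu2
      have h11 : ((v ^ (n * k) : (𝓞 F)ˣ) : F) = (v : F) ^ (n * k) := by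
        have h12 := map_zpow (Units.map (algebraMap (𝓞 F) F : 𝓞 F →* F)) v (n * k)
        have h13 := congrArg Units.val h12
        rw [Units.val_zpow_eq_zpow_val] at h13
        exact h13
      rw [← h11]
      have h14 : ∀ a b c : (𝓞 F)ˣ, ((a * (b * c ^ 3) : (𝓞 F)ˣ) : F) =
          (a : F) * ((b : F) * (c : F) ^ 3) := by
        intro a b c
        rw [Units.val_mul, Units.val_mul, Units.val_pow_eq_pow_val, map_mul, map_mul, map_pow]
      exact h10.trans (h14 _ _ _)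
    have hq : (u : F) / τ (u : F) = c2b_q τ (z : F) *
        (c2b_q τ (v : F) ^ (n * k) * c2b_q τ ((ε ^ (k * t) : (𝓞 F)ˣ) : F) ^ 3) := by
      rw [← c2b_q_zpow, ← c2b_q_pow, ← c2b_q_mul, ← c2b_q_mul, ← huF]
      rfl
    rw [hq]
    have hnv := n1_zpow (n1_q hD hQ v) (n * k)
    have hne := n1_pow (n1_q hD hQ (ε ^ (k * t))) 3
    exact hP.mul _ _ (n1_q hD hQ z) (n1_mul hnv hne) hPz (hP.mul _ _ hnv hne hPv hPe)

theorem noBad_of_uc (hD : D ≠ 0) (hQ : Quad D r τ) (hP : LC τ P) (h3 : ¬ 3 ∣ classNumber F)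
    (hu : ∃ u : (𝓞 F)ˣ, ¬ P ((u : F) / τ (u : F))) : NoBadP τ P := by
  obtain ⟨u, hu⟩ := hu
  have hD0 : D ≠ 0 := hD
  rintro a ⟨hN, hcub, hwa, hPa⟩
  have ha0 : a ≠ 0 := by
    rintro rfl
    rw [zero_mul] at hN
    exact zero_ne_one hN
  have hta0 : τ a ≠ 0 := by
    intro h
    rw [h, mul_zero] at hN
    exact zero_ne_one hN
  obtain ⟨v, γ, hv⟩ := exists_gamma F h3 ha0 hcub
  have hv0 : (v : F) ≠ 0 := fun h => ha0 (by rw [hv, h, zero_mul])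
  have hγ0 : γ ≠ 0 := fun h => ha0 (by rw [hv, h]; ring)
  have hτv0 : τ (v : F) ≠ 0 := fun h => hv0 ((map_eq_zero τ).1 h)
  have hτγ0 : τ γ ≠ 0 := fun h => hγ0 ((map_eq_zero τ).1 h)
  -- a ^ 2 = q v * q γ ^ 3
  have hsq : a ^ 2 = (v : F) / τ (v : F) * (γ / τ γ) ^ 3 := by
    have h1 : a ^ 2 = a / τ a := by
      rw [eq_div_iff hta0]
      linear_combination a * hN
    rw [h1, hv, map_mul, map_pow]
    field_simp
  -- valuations over `λ`
  have hwv : ∀ w : HeightOneSpectrum (𝓞 F), w.valuation F ((v : F) / τ (v : F)) = 1 := by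
    intro w
    obtain ⟨h1, h2⟩ := val_unit (τ := τ) v w
    rw [map_div₀, h1, h2, div_one]
  have hwγ : ∀ w : HeightOneSpectrum (𝓞 F), OvLa w → w.valuation F (γ / τ γ) = 1 := by
    intro w hw
    have h1 := congrArg (w.valuation F) hsq
    rw [map_pow, hwa w hw, one_pow, map_mul, hwv w, one_mul, map_pow] at h1
    exact (pow_eq_one_iff.1 h1.symm).resolve_right (by norm_num)
  have hna : N1 τ a := ⟨hN, hwa⟩
  have hγγ : (γ / τ γ) * τ (γ / τ γ) = 1 := by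
    rw [map_div₀, tau_tau hD0 hQ]
    field_simp
  have hnγ : N1 τ (γ / τ γ) := ⟨hγγ, hwγ⟩
  have hPXv : P ((v : F) / τ (v : F)) := by
    have h1 : (v : F) / τ (v : F) = a ^ 2 * ((γ / τ γ) ^ 3)⁻¹ := by
      rw [hsq]
      field_simp
    rw [h1]
    exact hP.mul _ _ (n1_pow hna 2) (n1_inv (n1_pow hnγ 3)) (px_pow hP hna hPa 2)
      (hP.inv _ (n1_pow hnγ 3) (hP.cube _ hnγ))
  obtain ⟨ζ, c, m, hm, hζ, hvc⟩ := unit_cube hD hQ hP hu hPXv
  have hζ' : ((ζ : 𝓞 F) : F) ^ m = 1 := by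
    have h1 := congrArg (fun x : (𝓞 F)ˣ => ((x : 𝓞 F) : F)) hζ
    simpa using h1
  obtain ⟨m', hm', hm3, hz⟩ := tors hD0 hQ hm hζ'
  have hζ0 : ((ζ : 𝓞 F) : F) ≠ 0 := by
    intro h
    rw [h, zero_pow hm.ne'] at hζ'
    exact zero_ne_one hζ'
  have hτζ0 : τ ((ζ : 𝓞 F) : F) ≠ 0 := fun h => hζ0 ((map_eq_zero τ).1 h)
  obtain ⟨y, hy⟩ := c3b_cube_of_tors hm3 hz (div_ne_zero hζ0 hτζ0)
  have hvc' : (v : F) = ((ζ : 𝓞 F) : F) * ((c : 𝓞 F) : F) ^ 3 := by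
    rw [hvc]
    simp
  have hc0 : ((c : 𝓞 F) : F) ≠ 0 := by
    intro h
    apply hv0
    rw [hvc', h]
    ring
  have hτc0 : τ ((c : 𝓞 F) : F) ≠ 0 := fun h => hc0 ((map_eq_zero τ).1 h)
  have hfin : a ^ 2 = (y * (((c : 𝓞 F) : F) / τ ((c : 𝓞 F) : F)) * (γ / τ γ)) ^ 3 := by
    rw [hsq, mul_pow, mul_pow, hy, hvc', map_mul, map_pow]
    field_simp
  set c' : F := y * (((c : 𝓞 F) : F) / τ ((c : 𝓞 F) : F)) * (γ / τ γ) with hc'
  refine ⟨a / c', ?_⟩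
  rw [div_pow, ← hfin]
  field_simp

end

end JG
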