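import Pool.Agent.JG.P
import Pool.Agent.JG.C1
import Pool.Agent.JG.E10
import Pool.Agent.JG.N5
import Pool.Agent.JG.M2
import Pool.Agent.JXD.T1

/-!
# [JG-TG] the field `ℚ(ω, √D)` inside `ℂ`

As in `JXD.T1`, with `PG` and `UCG`.
-/

set_option autoImplicit false

open NumberField IsDedekindDomain
open scoped Classical

namespace JG

open CM27 CF JZ JX JXD
open JD hiding G5b_unit G5b_val LCW_ED below_val descent det_unit disc_eq eis_cube entire_ED exists_H exists_basis exists_cj exists_den exists_int exists_kappa exists_ov exists_phiE exists_quad exists_u0 final_of finite_of_phiE finprod_neron finprod_tam finrank_KD fix_int fix_of_two g4a_exp g4a_le g4a_norm g4a_one g4a_split g4b_place g5a_norm g5a_tau g5a_three g5a_unit int_KK int_jF int_r jr_inj kk_cube m1_cube min_all n5_gen ne_of_cl not_three ov_D ov_eight ov_mem ov_trans ov_val period_ED place_cases q3a_dvd_lt q3a_la_sq q3a_le q3a_sq_lt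 q3b_ext q3b_int q3b_le q3b_neg q3b_pos q3b_pos_iff q3b_sq q3b_tau q3b_three q4b_crt q5_coe q5_den quot_all quot_eq s5b_not_la sha_zero step tam_la tam_one tau_jF val_prime z1_norm
open CU (la om eE)
open JL (KD sD)

section
variable {D : Eis} {F : Type} [Field F] [NumberField F] [Algebra KK F] {r : F} {τ : F ≃ₐ[KK] F}

theorem la_ne : jF F la ≠ 0 := by
  intro h0
  exact pac_la0 (jF_inj F (by rw [h0, map_zero]))

/-- `PG` for a unit as an integrality condition -/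
theorem pg_iff_int (hQ : Quad D r τ) (u : (𝓞 F)ˣ) :
    PG D r ((u : F) / τ (u : F)) ↔ ∃ (m : ℕ) (D' q : Eis), D = la ^ (2 * m) * D' ∧ ¬ la ^ 2 ∣ D' ∧ WG m D' q ∧
      IsIntegral ℤ ((((u : F) / τ (u : F)) ^ 8 - (((u : F) / τ (u : F)) ^ 8)⁻¹ - jF F q * (r / jF F la ^ m)) / jF F la ^ 3) := by
  have hla : jF F la ≠ 0 := la_ne
  have hla3 : jF F la ^ 3 ≠ 0 := pow_ne_zero 3 hla
  have hb1 : ∀ w : HeightOneSpectrum (𝓞 F), w.valuation F ((u : F) / τ (u : F)) = 1 := by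
    intro w
    rw [map_div₀, g5a_unit, g5a_tau, div_one]
  constructor
  · rintro ⟨m, D', q, hD, h2, hW, hq⟩
    refine ⟨m, D', q, hD, h2, hW, ?_⟩
    have hQ' := quad' hD hQ
    have key : ∀ w : HeightOneSpectrum (𝓞 F), w.valuation F ((((u : F) / τ (u : F)) ^ 8 -
        (((u : F) / τ (u : F)) ^ 8)⁻¹ - jF F q * (r / jF F la ^ m)) / jF F la ^ 3) ≤ 1 := by
      intro w
      rw [map_div₀, map_pow]
      by_cases hw : OvLa w
      · exact div_le_one_of_le₀ (hq w hw) zero_le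
      · have h4 : w.valuation F (jF F la) = 1 := by
          apply le_antisymm
          · exact q3a_le w (int_jF F la)
          · exact not_lt.1 hw
        rw [h4, one_pow, div_one]
        refine Valuation.map_sub_le _ (Valuation.map_sub_le _ ?_ ?_) ?_
        · rw [map_pow, hb1 w, one_pow]
        · rw [map_inv₀, map_pow, hb1 w, one_pow, inv_one]
        · exact q3a_le w ((int_jF F _).mul (int_r hQ'))
    obtain ⟨z, hz⟩ := HeightOneSpectrum.mem_integers_of_valuation_le_one (K := F) _ key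
    rw [← hz]
    exact RingOfIntegers.isIntegral_coe z
  · rintro ⟨m, D', q, hD, h2, hW, hi⟩
    refine ⟨m, D', q, hD, h2, hW, ?_⟩
    intro w hw
    have h1 := q3a_le w hi
    have h2 := mul_le_mul_left h1 (w.valuation F (jF F la ^ 3))
    rw [← map_mul, div_mul_cancel₀ _ hla3, one_mul, map_pow] at h2
    exact h2

end

theorem exists_tauG {D : Eis} (hD : ClG D) (F : Type) [Field F] [NumberField F] [Algebra KK F]
    (hfr : Module.finrank KK F = 2) (r : F) (hr : r ^ 2 = jF F D) : ∃ τ : F ≃ₐ[KK] F, Quad D r τ := by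
  haveI : Algebra.IsQuadraticExtension KK F := ⟨hfr⟩
  have hfix : ¬ ∀ τ : F ≃ₐ[KK] F, τ r = r := by
    intro h
    have h1 : r ∈ (⊥ : IntermediateField KK F) := (IsGalois.mem_bot_iff_fixed r).2 h
    obtain ⟨x, hx⟩ := IntermediateField.mem_bot.1 h1
    refine nsqK hD x ((algebraMap KK F).injective ?_)
    rw [map_pow, hx, hr, jF_apply]
  push_neg at hfix
  obtain ⟨τ, hτ⟩ := hfix
  refine ⟨τ, ⟨hfr, hr, ?_⟩⟩
  have h3 : (τ r) ^ 2 = r ^ 2 := by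
    rw [← map_pow, hr, jF_apply]
    exact τ.commutes _
  rcases sq_eq_sq_iff_eq_or_eq_neg.1 h3 with h | h
  · exact absurd h hτ
  · exact h

theorem t1_notG {D : Eis} (hD : ClG D) : sD D ∉ KK := by
  intro h
  apply nsqK hD ⟨sD D, h⟩
  apply Subtype.ext
  have h4 : ((jK D : KK) : ℂ) = emb D := CU.eE_coe D
  rw [h4]
  exact JL.sD_sq D

theorem finrank_G {D : Eis} (hD : ClG D) : letI := algK (KD D) (w_mem D); Module.finrank KK (KD D) = 2 := by
  exact t1a_fin (KD D) (w_mem D) (sD D) (sD_mem D) (t1_notG hD) (fun z hz => t1a_mem hz)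

/-- the quadratic extension exists -/
theorem exists_quadG {D : Eis} (hD : ClG D) : letI := algK (KD D) (w_mem D);
    ∃ τ : KD D ≃ₐ[KK] KD D, Quad D (⟨sD D, sD_mem D⟩ : KD D) τ := by
  exact @exists_tauG D hD (KD D) _ _ (algK (KD D) (w_mem D)) (finrank_G hD) ⟨sD D, sD_mem D⟩
    (t1a_sq (KD D) (w_mem D) D (sD_mem D))

/-- the same integrality in `F` and in `ℂ` -/
theorem int_iffG {D : Eis} (x y : KD D) (U V : ℂ) (hx : (x : ℂ) = U) (hy : (y : ℂ) = V) (m : ℕ) (q : Eis) :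
    letI := algK (KD D) (w_mem D);
    IsIntegral ℤ (((x / y) ^ 8 - ((x / y) ^ 8)⁻¹ - jF (KD D) q * (⟨sD D, sD_mem D⟩ / jF (KD D) la ^ m)) / jF (KD D) la ^ 3) ↔
    IsIntegral ℤ (((U / V) ^ 8 - ((U / V) ^ 8)⁻¹ - emb q * (sD D / emb la ^ m)) / emb la ^ 3) := by
  letI := algK (KD D) (w_mem D)
  have e : (((((x / y) ^ 8 - ((x / y) ^ 8)⁻¹ - jF (KD D) q * (⟨sD D, sD_mem D⟩ / jF (KD D) la ^ m)) / jF (KD D) la ^ 3 : KD D)) : ℂ) =
      ((U / V) ^ 8 - ((U / V) ^ 8)⁻¹ - emb q * (sD D / emb la ^ m)) / emb la ^ 3 := by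
    rw [← hx, ← hy, ← jF_coe D q, ← jF_coe D la]
    push_cast
    rfl
  rw [← e]
  exact (isIntegral_algebraMap_iff (A := KD D) (B := ℂ) (algebraMap (KD D) ℂ).injective).symm

theorem uc_of_noBadG {D : Eis} (hD : ClG D) : letI := algK (KD D) (w_mem D);
    ∀ τ : KD D ≃ₐ[KK] KD D, Quad D (⟨sD D, sD_mem D⟩ : KD D) τ →
      NoBadP τ (PG D (⟨sD D, sD_mem D⟩ : KD D)) → UCG D := by
  letI := algK (KD D) (w_mem D)
  intro τ hQ hN
  have hD0 : D ≠ 0 := nz hD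
  obtain ⟨h1, u, hu⟩ := class_unit hD0 hQ (types hD hQ).1 hN
  refine ⟨h1, ?_⟩
  obtain ⟨u₁, u₂, huv⟩ := exists_uv hD0 hQ ((u : 𝓞 (KD D)) : KD D)
  have hτ : τ ((u : 𝓞 (KD D)) : KD D) = algebraMap KK (KD D) u₁ - algebraMap KK (KD D) u₂ * ⟨sD D, sD_mem D⟩ := by
    rw [huv, map_add, map_mul, AlgEquiv.commutes, AlgEquiv.commutes, hQ.tau]
    ring
  have e1 : (((u : 𝓞 (KD D)) : KD D) : ℂ) = (u₁ : ℂ) + (u₂ : ℂ) * sD D := by
    rw [huv]
    rfl
  have e2 : ((τ ((u : 𝓞 (KD D)) : KD D) : KD D) : ℂ) = (u₁ : ℂ) - (u₂ : ℂ) * sD D := by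
    rw [hτ]
    rfl
  have e3 : (((u⁻¹ : (𝓞 (KD D))ˣ) : KD D) : ℂ) = ((u₁ : ℂ) + (u₂ : ℂ) * sD D)⁻¹ := by
    rw [← e1]
    have h2 : (((u⁻¹ : (𝓞 (KD D))ˣ) : 𝓞 (KD D)) : KD D) * ((u : 𝓞 (KD D)) : KD D) = 1 := by
      rw [← map_mul, Units.inv_mul, map_one]
    have h3 := congrArg (fun x : KD D => (x : ℂ)) h2
    simp only [MulMemClass.coe_mul, OneMemClass.coe_one] at h3
    exact eq_inv_of_mul_eq_one_left h3
  refine ⟨u₁, u₂, u₁.2, u₂.2, ?_, ?_, ?_, ?_⟩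
  · rw [← e1]
    intro h0
    have h2 : (((u⁻¹ : (𝓞 (KD D))ˣ) : 𝓞 (KD D)) : KD D) * ((u : 𝓞 (KD D)) : KD D) = 1 := by
      rw [← map_mul, Units.inv_mul, map_one]
    have h3 : ((u : 𝓞 (KD D)) : KD D) = 0 := by
      apply Subtype.ext
      exact h0
    rw [h3, mul_zero] at h2
    exact zero_ne_one h2
  · rw [← e1]
    exact (RingOfIntegers.isIntegral_coe (u : 𝓞 (KD D))).algebraMap (B := ℂ)
  · rw [← e3]
    exact (RingOfIntegers.isIntegral_coe ((u⁻¹ : (𝓞 (KD D))ˣ) : 𝓞 (KD D))).algebraMap (B := ℂ)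
  · rintro ⟨m, D', q, hDD, h2, hW, hi⟩
    apply hu
    rw [pg_iff_int hQ u]
    exact ⟨m, D', q, hDD, h2, hW, (int_iffG _ _ _ _ e1 e2 m q).2 hi⟩

theorem noBad_of_UCG {D : Eis} (hD : ClG D) (h : UCG D) : letI := algK (KD D) (w_mem D);
    ∀ τ : KD D ≃ₐ[KK] KD D, Quad D (⟨sD D, sD_mem D⟩ : KD D) τ → NoBadP τ (PG D (⟨sD D, sD_mem D⟩ : KD D)) := by
  letI := algK (KD D) (w_mem D)
  intro τ hQ
  have hD0 : D ≠ 0 := nz hD
  obtain ⟨h1, u₁, u₂, hu₁, hu₂, hne, hi, hi', hn⟩ := h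
  obtain ⟨x, hx⟩ : ∃ x : KD D, x = algebraMap KK (KD D) ⟨u₁, hu₁⟩ +
    algebraMap KK (KD D) ⟨u₂, hu₂⟩ * ⟨sD D, sD_mem D⟩ := ⟨_, rfl⟩
  have ex : (x : ℂ) = u₁ + u₂ * sD D := by
    rw [hx]
    rfl
  have hτ : τ x = algebraMap KK (KD D) ⟨u₁, hu₁⟩ -
      algebraMap KK (KD D) ⟨u₂, hu₂⟩ * ⟨sD D, sD_mem D⟩ := by
    rw [hx, map_add, map_mul, AlgEquiv.commutes, AlgEquiv.commutes, hQ.tau]
    ring
  have eτ : ((τ x : KD D) : ℂ) = u₁ - u₂ * sD D := by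
    rw [hτ]
    rfl
  have hx0 : x ≠ 0 := by
    intro h0
    apply hne
    rw [← ex, h0]
    rfl
  have hxi : IsIntegral ℤ x := by
    refine (isIntegral_algebraMap_iff (A := KD D) (B := ℂ) (algebraMap (KD D) ℂ).injective).1 ?_
    rw [← ex] at hi
    exact hi
  have hxi' : IsIntegral ℤ x⁻¹ := by
    refine (isIntegral_algebraMap_iff (A := KD D) (B := ℂ) (algebraMap (KD D) ℂ).injective).1 ?_
    rw [← ex] at hi'
    rw [map_inv₀]
    exact hi'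
  let u : (𝓞 (KD D))ˣ := ⟨⟨x, hxi⟩, ⟨x⁻¹, hxi'⟩, RingOfIntegers.ext (mul_inv_cancel₀ hx0),
    RingOfIntegers.ext (inv_mul_cancel₀ hx0)⟩
  refine noBad_of_uc hD0 hQ (types hD hQ).1 h1 ⟨u, fun hPX => hn ?_⟩
  obtain ⟨m, D', q, hDD, h2, hW, hii⟩ := (pg_iff_int hQ u).1 hPX
  exact ⟨m, D', q, hDD, h2, hW, (int_iffG x (τ x) _ _ ex eτ m q).1 hii⟩

end JG
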