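import Pool.Agent.JG.Defs

/-!
# [JG-B1] the quadratic extension: integers, general `D`
-/

set_option autoImplicit false

open NumberField IsDedekindDomain
open scoped Classical

namespace JG

open CM27 CF JZ JX JXD
open JD hiding G5b_unit G5b_val LCW_ED below_val descent det_unit disc_eq eis_cube entire_ED exists_H exists_basis exists_cj exists_den exists_int exists_kappa exists_ov exists_phiE exists_quad exists_u0 final_of finite_of_phiE finprod_neron finprod_tam finrank_KD fix_int fix_of_two g4a_exp g4a_le g4a_norm g4a_one g4a_split g4b_place g5a_norm g5a_tau g5a_three g5a_unit int_KK int_jF int_r jr_inj kk_cube m1_cube min_all n5_gen ne_of_cl not_three ov_D ov_eight ov_mem ov_trans ov_val period_ED place_cases q3a_dvd_lt q3a_la_sq q3a_le q3a_sq_lt q3b_ext q3b_int q3b_le q3b_neg q3b_pos q3b_pos_iff q3b_sq q3b_tau q3b_three q4b_crt q5_coe q5_den quot_all quot_eq s5b_not_la sha_zero step tam_la tam_one tau_jF val_prime z1_norm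
open CU (la om eE)

section
variable {D : Eis} {F : Type} [Field F] [NumberField F] [Algebra KK F] {r : F} {τ : F ≃ₐ[KK] F}
  (hD : D ≠ 0) (hQ : Quad D r τ)
include hD hQ

theorem jr_inj {a b : Eis} (h : jF F a + jF F b * r = 0) : a = 0 ∧ b = 0 := by
  rw [jF_apply, jF_apply] at h
  obtain ⟨h1, h2⟩ := uv_inj hD hQ h
  exact ⟨jK_inj (by rw [h1, map_zero]), jK_inj (by rw [h2, map_zero])⟩

theorem fix_int {z : F} (h : τ z = z) (hi : IsIntegral ℤ z) : ∃ a : Eis, z = jF F a := by
  obtain ⟨u, rfl⟩ := exists_of_fix hD hQ h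
  have hu : IsIntegral ℤ u := by
    obtain ⟨p, hp, hp2⟩ := hi
    refine ⟨p, hp, ?_⟩
    have h1 : algebraMap KK F (Polynomial.eval₂ (algebraMap ℤ KK) u p) = 0 := by
      rw [Polynomial.hom_eval₂, ← hp2]
      congr 1
      exact RingHom.ext_int _ _
    exact (map_eq_zero _).1 h1
  obtain ⟨a, ha⟩ := int_KK hu
  exact ⟨a, by rw [jF_apply, ha]⟩

/-- an integer times an element prime to `λ` is in `ℤ[ω] + ℤ[ω] √D` -/
theorem exists_intL (hl : ¬ la ^ 2 ∣ D) {z : F} (h : IsIntegral ℤ z) :
    ∃ s a b : Eis, la ∣ s - 1 ∧ jF F s * z = jF F a + jF F b * r := by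
  have hinj : Function.Injective (algebraMap KK F) := (algebraMap KK F).injective
  obtain ⟨u, v, huv⟩ := exists_uv hD hQ z
  have hτz : τ z = algebraMap KK F u - algebraMap KK F v * r := by
    rw [huv, map_add, map_mul, AlgEquiv.commutes, AlgEquiv.commutes, hQ.tau]
    ring
  have hττ := tau_tau hD hQ z
  have hτi : IsIntegral ℤ (τ z) := h.map (τ : F →ₐ[KK] F)
  obtain ⟨U, hU⟩ := fix_int hD hQ (z := z + τ z) (by rw [map_add, hττ, add_comm]) (h.add hτi)
  obtain ⟨N, hN⟩ := fix_int hD hQ (z := z * τ z) (by rw [map_mul, hττ, mul_comm]) (h.mul hτi)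
  have hU' : 2 * u = jK U := by
    apply hinj
    rw [← jF_apply, ← hU, hτz, huv, map_mul, map_ofNat]
    ring
  have hN' : u ^ 2 - v ^ 2 * jK D = jK N := by
    apply hinj
    rw [← jF_apply, ← hN, hτz, huv, map_sub, map_mul, map_pow, map_pow, ← jF_apply, ← hQ.sq]
    ring
  have hM : (2 * v) ^ 2 * jK D = jK (U ^ 2 - 4 * N) := by
    rw [map_sub, map_mul, map_pow, map_ofNat, ← hU', ← hN']
    ring
  have hw : IsIntegral ℤ ((2 * v) * jK D) := by
    apply IsIntegral.of_pow (n := 2) (by norm_num)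
    have h1 : ((2 * v) * jK D) ^ 2 = jK ((U ^ 2 - 4 * N) * D) := by
      rw [map_mul, ← hM]
      ring
    rw [h1, jK_apply]
    exact RingOfIntegers.isIntegral_coe _
  obtain ⟨P, hP⟩ := int_KK hw
  have hP2 : P ^ 2 = (U ^ 2 - 4 * N) * D := by
    apply jK_inj
    rw [map_pow, ← hP, map_mul, ← hM]
    ring
  have hdom : IsDomain Eis := eis_isDomain
  -- a multiplier prime to `λ`
  obtain ⟨t, p, ht, htp⟩ : ∃ t p : Eis, ¬ la ∣ t ∧ jK t * v = jK p ∧ ∃ q : Eis, jK t * u = jK q := by
    by_cases h1 : la ∣ D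
    · obtain ⟨D₁, rfl⟩ := h1
      have hD1 : ¬ la ∣ D₁ := by
        rintro ⟨c, rfl⟩
        exact hl ⟨c, by ring⟩
      have hlP : la ∣ P := by
        apply CU.la_prime.dvd_of_dvd_pow (n := 2)
        rw [hP2]
        exact Dvd.dvd.mul_left (dvd_mul_right _ _) _
      obtain ⟨P₁, rfl⟩ := hlP
      have hla : jK la ≠ 0 := fun h0 => CU.la_prime.ne_zero (jK_inj (by rw [h0, map_zero]))
      refine ⟨2 * D₁, P₁, ?_, ?_, D₁ * U, ?_⟩
      · intro h2
        rcases CU.la_prime.dvd_or_dvd h2 with h3 | h3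
        · rw [CU.la_dvd_iff] at h3
          revert h3
          decide
        · exact hD1 h3
      · apply mul_left_cancel₀ hla
        rw [map_mul, map_mul] at hP
        rw [map_mul, map_ofNat]
        linear_combination hP
      · rw [map_mul, map_mul, map_ofNat, ← hU']
        ring
    · refine ⟨2 * D, P, ?_, ?_, D * U, ?_⟩
      · intro h2
        rcases CU.la_prime.dvd_or_dvd h2 with h3 | h3
        · rw [CU.la_dvd_iff] at h3
          revert h3
          decide
        · exact h1 h3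
      · rw [map_mul, map_ofNat, ← hP]
        ring
      · rw [map_mul, map_mul, map_ofNat, ← hU']
        ring
  obtain ⟨hv, q, hu⟩ := htp
  refine ⟨t * t, t * q, t * p, q3a_la_sq t ht, ?_⟩
  have e1 : jF F t * algebraMap KK F v = jF F p := by
    rw [jF_apply, jF_apply, ← map_mul, hv]
  have e2 : jF F t * algebraMap KK F u = jF F q := by
    rw [jF_apply, jF_apply, ← map_mul, hu]
  rw [map_mul, map_mul, map_mul, huv]
  linear_combination jF F t * e2 + jF F t * r * e1

end

end JG
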