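import Pool.Agent.JG.G4
import Pool.Agent.JXD.Q4

/-!
# [JG-B3] places over `λ`, general `D`

PROOF. `exists_ov`: `g4b_place` for `p = la`.
`ov_trans` [B3a]: let `w₁'` be the conjugate of `w₁` (`exists_cj`), and suppose `w₂ ≠ w₁`, `w₂ ≠ w₁'`. Chinese remainder (`q3`-style, or prime avoidance): there is `x ∈ 𝓞 F` with `w₂ x < 1`, `w₁ x = 1`, `w₁' x = 1` (the ideals are maximal and `w₂.asIdeal` is not contained in the union of the two others:
`Ideal.subset_union_prime` / `Ideal.subset_union`; or multiply two elements...). `N = x * τ x` is integral and fixed by `τ` (`tau_tau`), so `N = jF c` (`fix_int`, `c : Eis`). `w₂ N = w₂ x * w₂ (τ x) < 1` (`w₂ (τ x) ≤ 1`, `q3a_le`), so `la ∣ c` (`ov_mem`), so `w₁ N < 1`. But `w₁ N = w₁ x * w₁ (τ x) = 1 * w₁' x = 1`. Contradiction.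
So `w₂ = w₁` or `w₂ = w₁'` (`w₁' x = w₁ (τ x)` for all `x`).
`ov_eight` [B3b]: first for integral `x`: `a = x + τ x`, `N = x τ x` are integral and fixed by `τ`: `a, N ∈ jF Eis` (`fix_int`), `x² = a x - N`. Modulo `la` the elements of `Eis` are `0, 1, -1` (`CU.la_dvd_iff`; `JXD.pac_digit`), so `w (x² - (a₀ x - N₀)) < 1` with `a₀, N₀ ∈ {0, 1, -1}` and it remains to show `w (x^9 - x) < 1` (then, with
`w x = 1`, `w (x^8 - 1) < 1`), from `w (x² - a₀ x + N₀) < 1` and `w 3 < 1` (`ov_mem`, `CU.three_eq`) in each of the 9 cases: modulo the maximal ideal (write `x² = a₀ x - N₀ + e`, `w e < 1`): if `a₀² - N₀ = 0` in `F₃` (`a₀ = 0, N₀ = 0`; `a₀ = ± 1, N₀ = 1`): `x² - a₀ x + N₀ ≡ (x + a₀)²` (`2 ≡ -1`), so `w (x + a₀) < 1`, `x ≡ -a₀`;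
`a₀² - N₀ = 1` (`a₀ = 0, N₀ = -1`: `(x-1)(x+1)`; `a₀ = ± 1`, `N₀ = 0`: `x (x - a₀)`): one factor has `w < 1`, so `x` is congruent to `0, 1, -1`; `a₀² - N₀ = -1` (`a₀ = 0`, `N₀ = 1`: `x² ≡ -1`, `x^8 ≡ 1`; `a₀ = ± 1`, `N₀ = -1`: `x² ≡ a₀ x + 1`, `x^4 ≡ (a₀ x + 1)² = x² + 2 a₀ x + 1 ≡ 3 a₀ x + 2 ≡ -1`, `x^8 ≡ 1`).
In general `x = n / d` with integers `n, d` of valuation 1, as in `JXD.ov_eight` (JXD/Q4.lean, the last part of the proof can be copied).
-/

set_option autoImplicit false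

open NumberField IsDedekindDomain
open scoped Classical

namespace JG

open CM27 CF JZ JX JXD
open JD hiding G5b_unit G5b_val LCW_ED below_val descent det_unit disc_eq eis_cube entire_ED exists_H exists_basis exists_cj exists_den exists_int exists_kappa exists_ov exists_phiE exists_quad exists_u0 final_of finite_of_phiE finprod_neron finprod_tam finrank_KD fix_int fix_of_two g4a_exp g4a_le g4a_norm g4a_one g4a_split g4b_place g5a_norm g5a_tau g5a_three g5a_unit int_KK int_jF int_r jr_inj kk_cube m1_cube min_all n5_gen ne_of_cl not_three ov_D ov_eight ov_mem ov_trans ov_val period_ED place_cases q3a_dvd_lt q3a_la_sq q3a_le q3a_sq_lt q3b_ext q3b_int q3b_le q3b_neg q3b_pos q3b_pos_iff q3b_sq q3b_tau q3b_three q4b_crt q5_coe q5_den quot_all quot_eq s5b_not_la sha_zero step tam_la tam_one tau_jF val_prime z1_norm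
open CU (la om eE)

private theorem b3b_field {k : Type*} [CommRing k] [IsDomain k] (h3 : (3 : k) = 0) {x d e : k}
    (hd : d = 0 ∨ d = 1 ∨ d = -1) (he : e = 0 ∨ e = 1 ∨ e = -1) (h : x ^ 2 = d * x - e) :
    x ^ 9 = x := by
  rcases hd with rfl | rfl | rfl <;> rcases he with rfl | rfl | rfl
  · have h1 : x ^ 2 = 0 := by rw [h]; ring
    have h2 : x = 0 := by simpa using h1
    rw [h2]; ring
  · have h1 : x ^ 2 = -1 := by rw [h]; ring
    calc x ^ 9 = (x ^ 2) ^ 4 * x := by ring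
      _ = x := by rw [h1]; ring
  · have h1 : x ^ 2 = 1 := by rw [h]; ring
    calc x ^ 9 = (x ^ 2) ^ 4 * x := by ring
      _ = x := by rw [h1]; ring
  · have h1 : x ^ 2 = x := by rw [h]; ring
    calc x ^ 9 = ((x ^ 2) ^ 2) ^ 2 * x := by ring
      _ = x := by rw [h1, h1, h1, ← sq, h1]
  · have h1 : (x + 1) ^ 2 = 0 := by linear_combination h + x * h3
    have h2 : x + 1 = 0 := by simpa using h1
    have h4 : x = -1 := by linear_combination h2
    rw [h4]; ring
  · have h1 : x ^ 4 = -1 := by linear_combination (x ^ 2 + x + 1) * h + h + (x + 1) * h3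
    calc x ^ 9 = (x ^ 4) ^ 2 * x := by ring
      _ = x := by rw [h1]; ring
  · have h1 : x ^ 2 = -x := by rw [h]; ring
    calc x ^ 9 = ((x ^ 2) ^ 2) ^ 2 * x := by ring
      _ = x := by
        have h2 : (-x) ^ 2 = -x := by rw [neg_sq, h1]
        rw [h1, h2, h2]
        linear_combination -h1
  · have h1 : (x - 1) ^ 2 = 0 := by linear_combination h - x * h3
    have h2 : x - 1 = 0 := by simpa using h1
    have h4 : x = 1 := by linear_combination h2
    rw [h4]; ring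
  · have h1 : x ^ 4 = -1 := by linear_combination (x ^ 2 - x + 1) * h + h + (1 - x) * h3
    calc x ^ 9 = (x ^ 4) ^ 2 * x := by ring
      _ = x := by rw [h1]; ring

section
variable {D : Eis} {F : Type} [Field F] [NumberField F] [Algebra KK F] {r : F} {τ : F ≃ₐ[KK] F}
  (hD : D ≠ 0) (hQ : Quad D r τ)
include hD hQ

theorem exists_ov : ∃ w : HeightOneSpectrum (𝓞 F), OvLa w := g4b_place hD hQ CU.la_prime

/-- [B3a] -/
theorem ov_trans (w₁ w₂ : HeightOneSpectrum (𝓞 F)) (h₁ : OvLa w₁) (h₂ : OvLa w₂) :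
    (∀ x : F, w₂.valuation F x = w₁.valuation F x) ∨ ∀ x : F, w₂.valuation F x = w₁.valuation F (τ x) := by
  by_cases h21 : w₂ = w₁
  · exact Or.inl fun x => by rw [h21]
  obtain ⟨w₁', hw'⟩ := exists_cj τ w₁
  by_cases h21' : w₂ = w₁'
  · exact Or.inr fun x => by rw [h21', hw']
  exfalso
  have hmax : w₂.asIdeal.IsMaximal := w₂.isMaximal
  have hnle : ∀ v : HeightOneSpectrum (𝓞 F), w₂ ≠ v → ¬ w₂.asIdeal ≤ v.asIdeal := fun v hv hle =>
    hv (HeightOneSpectrum.ext (hmax.eq_of_le v.isPrime.ne_top hle))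
  have hsub : ¬ (w₂.asIdeal : Set (𝓞 F)) ⊆ w₁.asIdeal ∪ w₁'.asIdeal := fun h =>
    (Ideal.subset_union.1 h).elim (hnle w₁ h21) (hnle w₁' h21')
  obtain ⟨x, hx2, hx1⟩ := Set.not_subset.1 hsub
  rw [Set.mem_union, not_or] at hx1
  have v2 : w₂.valuation F (algebraMap (𝓞 F) F x) < 1 :=
    (HeightOneSpectrum.valuation_lt_one_iff_mem (K := F) w₂ x).2 hx2
  have v1 : w₁.valuation F (algebraMap (𝓞 F) F x) = 1 :=
    (HeightOneSpectrum.valuation_eq_one_iff_notMem w₁).2 hx1.1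
  have v1' : w₁.valuation F (τ (algebraMap (𝓞 F) F x)) = 1 := by
    rw [← hw']
    exact (HeightOneSpectrum.valuation_eq_one_iff_notMem w₁').2 hx1.2
  obtain ⟨z, hz⟩ : ∃ z : F, z = algebraMap (𝓞 F) F x := ⟨_, rfl⟩
  have hzi : IsIntegral ℤ z := by
    rw [hz]
    exact RingOfIntegers.isIntegral_coe x
  rw [← hz] at v2 v1 v1'
  have hτi : IsIntegral ℤ (τ z) := hzi.map (τ : F ≃ₐ[KK] F).toRingEquiv.toRingHom.toIntAlgHom
  have hfix : τ (z * τ z) = z * τ z := by
    rw [map_mul, tau_tau hD hQ, mul_comm]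
  obtain ⟨c, hc⟩ := fix_int hD hQ hfix (hzi.mul hτi)
  have v3 : w₂.valuation F (jF F c) < 1 := by
    rw [← hc, map_mul]
    exact lt_of_le_of_lt (mul_le_of_le_one_right' (q3a_le w₂ hτi)) v2
  have v4 : w₁.valuation F (jF F c) < 1 := (ov_mem w₁ h₁ c).2 ((ov_mem w₂ h₂ c).1 v3)
  rw [← hc, map_mul, v1, v1', mul_one] at v4
  exact lt_irrefl _ v4

/-- `z ^ 9 ≡ z` for integers `z` -/
private theorem b3b_nine (w : HeightOneSpectrum (𝓞 F)) (hw : OvLa w) {z : F} (hz : IsIntegral ℤ z) :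
    w.valuation F (z ^ 9 - z) < 1 := by
  have htt : τ (τ z) = z := tau_tau hD hQ z
  have hτz : IsIntegral ℤ (τ z) := hz.map (τ : F ≃ₐ[KK] F).toRingEquiv.toRingHom.toIntAlgHom
  obtain ⟨a, ha⟩ := fix_int hD hQ (z := z + τ z) (by rw [map_add, htt, add_comm]) (hz.add hτz)
  obtain ⟨n, hn⟩ := fix_int hD hQ (z := z * τ z) (by rw [map_mul, htt, mul_comm]) (hz.mul hτz)
  obtain ⟨d, hd, b, hb⟩ := JXD.pac_digit a
  obtain ⟨e, he, c, hc⟩ := JXD.pac_digit n
  have h2 : la ∣ (3 : Eis) := by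
    rw [CU.three_eq]
    exact Dvd.intro_left (-om ^ 2 * la) (by ring)
  have h3 : w.valuation F (3 : F) < 1 := by
    have h := (JXD.ov_mem w hw 3).2 h2
    have h' : jF F 3 = (3 : F) := map_ofNat (jF F) 3
    rwa [h'] at h
  have hquad : z ^ 2 - (d : F) * z + (e : F) = jF F la * (jF F b * z - jF F c) := by
    have h4 : jF F a = (d : F) + jF F la * jF F b := by
      rw [hb, map_add, map_mul, map_intCast]
    have h5 : jF F n = (e : F) + jF F la * jF F c := by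
      rw [hc, map_add, map_mul, map_intCast]
    rw [h4] at ha
    rw [h5] at hn
    linear_combination z * ha - hn
  have hq : IsIntegral ℤ (jF F b * z - jF F c) :=
    ((JXD.int_jF F b).mul hz).sub (JXD.int_jF F c)
  have hlt : w.valuation F (z ^ 2 - (d : F) * z + (e : F)) < 1 := by
    rw [hquad, map_mul]
    exact lt_of_le_of_lt (mul_le_of_le_one_right' (JXD.q3a_le w hq)) hw
  -- the residue ring
  obtain ⟨Z, hZ⟩ : ∃ Z : 𝓞 F, algebraMap (𝓞 F) F Z = z := ⟨⟨z, hz⟩, rfl⟩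
  have hprime : w.asIdeal.IsPrime := w.isPrime
  have hmem : ∀ y : 𝓞 F, w.valuation F (algebraMap (𝓞 F) F y) < 1 ↔ y ∈ w.asIdeal := fun y =>
    w.valuation_lt_one_iff_mem y
  have hm3 : (Ideal.Quotient.mk w.asIdeal (3 : 𝓞 F)) = 0 := by
    rw [Ideal.Quotient.eq_zero_iff_mem, ← hmem]
    have : algebraMap (𝓞 F) F (3 : 𝓞 F) = 3 := map_ofNat _ 3
    rw [this]; exact h3
  have hmq : (Ideal.Quotient.mk w.asIdeal (Z ^ 2 - (d : 𝓞 F) * Z + (e : 𝓞 F))) = 0 := by
    rw [Ideal.Quotient.eq_zero_iff_mem, ← hmem]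
    have : algebraMap (𝓞 F) F (Z ^ 2 - (d : 𝓞 F) * Z + (e : 𝓞 F)) =
        z ^ 2 - (d : F) * z + (e : F) := by
      rw [map_add, map_sub, map_mul, map_pow, hZ, map_intCast, map_intCast]
    rw [this]; exact hlt
  have hk3 : (3 : 𝓞 F ⧸ w.asIdeal) = 0 := by
    rw [← hm3]; exact (map_ofNat (Ideal.Quotient.mk w.asIdeal) 3).symm
  have hkq : (Ideal.Quotient.mk w.asIdeal Z) ^ 2 = (d : 𝓞 F ⧸ w.asIdeal) *
      (Ideal.Quotient.mk w.asIdeal Z) - (e : 𝓞 F ⧸ w.asIdeal) := by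
    rw [map_add, map_sub, map_mul, map_pow, map_intCast, map_intCast] at hmq
    linear_combination hmq
  have hd' : (d : 𝓞 F ⧸ w.asIdeal) = 0 ∨ (d : 𝓞 F ⧸ w.asIdeal) = 1 ∨
      (d : 𝓞 F ⧸ w.asIdeal) = -1 := by
    rcases hd with rfl | rfl | rfl
    · left; push_cast; rfl
    · right; left; push_cast; rfl
    · right; right; push_cast; rfl
  have he' : (e : 𝓞 F ⧸ w.asIdeal) = 0 ∨ (e : 𝓞 F ⧸ w.asIdeal) = 1 ∨
      (e : 𝓞 F ⧸ w.asIdeal) = -1 := by
    rcases he with rfl | rfl | rfl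
    · left; push_cast; rfl
    · right; left; push_cast; rfl
    · right; right; push_cast; rfl
  have h9 := b3b_field hk3 hd' he' hkq
  have h10 : Ideal.Quotient.mk w.asIdeal (Z ^ 9 - Z) = 0 := by
    rw [map_sub, map_pow, h9, sub_self]
  rw [Ideal.Quotient.eq_zero_iff_mem, ← hmem, map_sub, map_pow, hZ] at h10
  exact h10

/-- [B3b] -/
theorem ov_eight (w : HeightOneSpectrum (𝓞 F)) (hw : OvLa w) {x : F} (hx : w.valuation F x = 1) :
    w.valuation F (x ^ 8 - 1) < 1 := by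
  have hz : ∀ z : 𝓞 F, w.valuation F (z : F) = 1 → w.valuation F ((z : F) ^ 8 - 1) < 1 := by
    intro z h1
    have h2 := b3b_nine hD hQ w hw z.2
    have e : (z : F) ^ 9 - z = z * ((z : F) ^ 8 - 1) := by ring
    have h3 : w.valuation F ((z : F) ^ 9 - z) < 1 := h2
    rw [e, map_mul, h1, one_mul] at h3
    exact h3
  obtain ⟨n, d, hnd⟩ := w.exists_primeCompl_mul_eq_of_integer x hx.le
  have hd : w.valuation F ((d : 𝓞 F) : F) = 1 := by
    have h := (w.intValuation_eq_one_iff_mem_primeCompl (d : 𝓞 F)).2 d.2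
    rw [← w.valuation_of_algebraMap (K := F)] at h
    exact h
  have hn : w.valuation F (n : F) = 1 := by
    have h := congrArg (w.valuation F) hnd
    rw [map_mul, hx, one_mul] at h
    exact h.symm.trans hd
  have hd0 : ((d : 𝓞 F) : F) ≠ 0 := by
    intro h
    rw [h, map_zero] at hd
    exact zero_ne_one hd
  have hx' : x = (n : F) / ((d : 𝓞 F) : F) := (eq_div_iff hd0).2 hnd
  have e : (x ^ 8 - 1) * ((d : 𝓞 F) : F) ^ 8 = ((n : F) ^ 8 - 1) - (((d : 𝓞 F) : F) ^ 8 - 1) := by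
    rw [hx']
    field_simp
    ring
  have h4 := congrArg (w.valuation F) e
  rw [map_mul, map_pow, hd, one_pow, mul_one] at h4
  rw [h4]
  exact Valuation.map_sub_lt _ (hz n hn) (hz d hd)

theorem exists_kappa {a : F} (ha : a * τ a = 1)
    (h3 : ∀ w : HeightOneSpectrum (𝓞 F), OvLa w → ∃ g : WithZero (Multiplicative ℤ), w.valuation F a = g ^ 3) :
    ∃ k : F, k * τ k = 1 ∧ ∀ w : HeightOneSpectrum (𝓞 F), OvLa w → w.valuation F a = w.valuation F k ^ 3 := by
  obtain ⟨w₁, hw₁⟩ := exists_ov hD hQ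
  obtain ⟨w₂, hw₂⟩ := exists_cj τ w₁
  have htt := fun z : F => tau_tau (hD) hQ z
  have ha0 : a ≠ 0 := by
    rintro rfl
    rw [zero_mul] at ha
    exact zero_ne_one ha
  by_cases hfix : ∀ x : F, w₁.valuation F (τ x) = w₁.valuation F x
  · refine ⟨1, by rw [map_one, mul_one], fun w hw => ?_⟩
    have h1 : w₁.valuation F a = 1 := by
      have h2 := congrArg (w₁.valuation F) ha
      rw [map_mul, hfix, map_one, ← pow_two] at h2
      exact (pow_eq_one_iff.1 h2).resolve_right two_ne_zero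
    rw [map_one, one_pow]
    rcases ov_trans hD hQ w₁ w hw₁ hw with h | h
    · rw [h, h1]
    · rw [h, hfix, h1]
  · have hne : w₁ ≠ w₂ := by
      intro h
      apply hfix
      intro x
      rw [← hw₂ x, ← h]
    obtain ⟨x, hx1, hx2⟩ := q4b_crt w₁ w₂ hne
    obtain ⟨g, hg⟩ := h3 w₁ hw₁
    have hg0 : g ≠ 0 := by
      rintro rfl
      rw [zero_pow three_ne_zero, map_eq_zero] at hg
      exact ha0 hg
    have hx0 : x ≠ 0 := by
      rintro rfl
      rw [map_zero] at hx2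
      exact zero_ne_one hx2
    have hβ0 : x ^ (-(WithZero.log g)) ≠ 0 := zpow_ne_zero _ hx0
    have hτβ0 : τ (x ^ (-(WithZero.log g))) ≠ 0 := (map_ne_zero _).2 hβ0
    have hβ1 : w₁.valuation F (x ^ (-(WithZero.log g))) = g := by
      rw [map_zpow₀, hx1, ← WithZero.exp_zsmul, smul_neg, neg_smul, neg_neg, zsmul_eq_mul, mul_one]
      exact WithZero.exp_log hg0
    have hβ2 : w₂.valuation F (x ^ (-(WithZero.log g))) = 1 := by
      rw [map_zpow₀, hx2, one_zpow]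
    have hκ1 : w₁.valuation F (x ^ (-(WithZero.log g)) / τ (x ^ (-(WithZero.log g)))) = g := by
      rw [map_div₀, hβ1, ← hw₂, hβ2, div_one]
    have hκ2 : w₂.valuation F (x ^ (-(WithZero.log g)) / τ (x ^ (-(WithZero.log g)))) = g⁻¹ := by
      rw [map_div₀, hβ2, hw₂, htt, hβ1, one_div]
    have ha2 : w₂.valuation F a = g⁻¹ ^ 3 := by
      have h2 := congrArg (w₁.valuation F) ha
      rw [map_mul, map_one, ← hw₂, hg] at h2
      rw [inv_pow]
      exact eq_inv_of_mul_eq_one_right h2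
    refine ⟨x ^ (-(WithZero.log g)) / τ (x ^ (-(WithZero.log g))), ?_, fun w hw => ?_⟩
    · rw [map_div₀, htt]
      field_simp
    · rcases ov_trans hD hQ w₁ w hw₁ hw with h | h
      · rw [h, h, hκ1, hg]
      · rw [h, h, ← hw₂, ← hw₂, hκ2, ha2]

end

end JG
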