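import Pool.Agent.JG.Defs
import Pool.Agent.JD.E5

/-!
# [JG-E5] the places not over `λ`

PROOF. `e5b_unitG`, `sol_splitG` [E5a]: copy the proofs of `JD.e5b_unit`, `JD.sol_split` (JD/E5.lean), where `Valued.v 2 = 1` was assumed. `e5b_unitG`: in the residue field `k` (`JD.e5b_card`: `Nat.card k % 3 = 1`): if `a` is not a cube, `JD.exists_sol` with `A = 1`, `B = -a²`, `C = a * ε` gives `h³ - a² g³ = a ε` in `k`; lift by
`JD.e5b_root` (if `h ≠ 0` in `k` solve for `h` with any lift `g ≠ 0` of the residue class of `g`; otherwise `g ≠ 0` in `k`, take `h = 0`, `g³ = -ε / a`). If `a` is a cube in `k`, it is a cube (`JD.e5b_root`).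
`sol_splitG`: `Valued.v (2 s) = γ³`, `γ ≠ 0`; `p` in the completion with `Valued.v p = γ` (the valuation is surjective: `v.valuation_surjective KK`, `valuedAdicCompletion_eq_valuation'`), `2 s = p³ ε`, `Valued.v ε = 1`; in the same way `a = q³ a'`, `Valued.v a' = 1`. `e5b_unitG` for `a'`, `ε`: (i) `g³ = a'`: `(q g)³ = a`.
(ii) `h³ - a'² g³ = a' ε`, `g ≠ 0`: `g₁ = p g / q`, `a g₁³ = p³ a' g³`, `y = s + a g₁³`, `y² - d = (y - s)(y + s) = a g₁³ (a g₁³ + 2 s) = p^6 a' g³ (a' g³ + ε)` and `a' (a' g³ + ε) = h³`, so it is `(p² g h)³ = x³`.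
`res_cheb` [E5b]: `L` an algebraic closure of `k`, `z ∈ L` with `z² - t z + 1 = 0`, `q = Nat.card k`. `x ∈ L` is in (the image of) `k` iff `x^q = x` (`FiniteField`; the polynomial `X^q - X` has `q` roots in `k`). `z^q` is also a root (Frobenius is a ring homomorphism fixing `k`), `z^q ≠ z` (no root in `k`), so `z^q = z⁻¹` (the product of the two roots is `1`;
`(z^q - z)(z^q - z⁻¹) = 0`), `z^(q+1) = 1`. `3` does not divide `q + 1`: `m` with `3 m ≡ 1 mod q + 1`, `w = z^m`, `w³ = z`, `w^(q+1) = 1`. `T = w + w⁻¹`: `T^q = w^q + w^(-q) = w⁻¹ + w = T`, so `T ∈ k`. `T³ - 3 T = w³ + w⁻³ = z + z⁻¹ = t`. `T² = 1` would give `w⁴ + w² + 1 = 0`, `w^6 = 1`, `z² = 1`, `z^q = z⁻¹ = z`, contradiction.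
`sol_nonsq` [E5c]: wanted `T` in `C = v.adicCompletion KK` with `T³ - 3 T = 2 u`, `T² ≠ 1` (`a = T / 2`, `b = y / (4 a² - 1)`). `y = 0`: `u = ± 1`, `a = u` (`4 - 1 = 3 ≠ 0`). `y ≠ 0`: `t = 2 u`, `t² - 4 = 4 y² d` is not a square (`hd`; `2 y ≠ 0`), so `z² - t z + 1` has no root in `C` (`(2 z - t)² = t² - 4`).
`Valued.v t ≤ 1`: otherwise `JD.hensel3` for `x³ - x² + (1/t²) x` (`p = -1`, `q = 1/t²`, `t = 0`) at `x₀ = 1`: a root `x` with `Valued.v (x - 1) < 1`, so `x ≠ 0`, `x² - x + 1/t² = 0`, `z = t x` is a root of `z² - t z + 1`. Let `t₀` be the residue of `t` in `k` (residue field of the integers, `JD.e5b_res0`, `JD.e5b_res1`).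
(i) `z² - t₀ z + 1` has no root in `k`: `res_cheb` (`JD.e5b_card`): `T₀ ∈ k`, lift to `x₀`, `JD.hensel3` for `x³ - 3 x - t`, derivative `3 (T₀² - 1) ≠ 0`; the root `T` has `T² ≠ 1` since its residue has. (ii) a root `z₀`: `z₀ ≠ 0`. If `2 z₀ ≠ t₀`: `z₀` lifts to a root in `C` (`hensel3` for `z (z² - t z + 1) = z³ - t z² + z`, derivative
`3 z₀² - 2 t₀ z₀ + 1 = z₀ (2 z₀ - t₀)` modulo `z₀² - t₀ z₀ + 1 = 0`), contradiction. If `2 z₀ = t₀`: `z₀² = t₀ z₀ - 1 = 2 z₀² - 1`, `z₀² = 1`; `T₀ = t₀ = 2 z₀`: `T₀³ - 3 T₀ = 8 z₀ - 6 z₀ = t₀`, derivative `3 T₀² - 3 = 9 ≠ 0`, `T₀² - 1 = 3 ≠ 0`: `hensel3` at a lift of `T₀`.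
-/

set_option autoImplicit false

open NumberField IsDedekindDomain
open scoped Classical

namespace JG

open CM27 CF JZ JX JXD
open JD hiding G5b_unit G5b_val LCW_ED below_val descent det_unit disc_eq eis_cube entire_ED exists_H exists_basis exists_cj exists_den exists_int exists_kappa exists_ov exists_phiE exists_quad exists_u0 final_of finite_of_phiE finprod_neron finprod_tam finrank_KD fix_int fix_of_two g4a_exp g4a_le g4a_norm g4a_one g4a_split g4b_place g5a_norm g5a_tau g5a_three g5a_unit int_KK int_jF int_r jr_inj kk_cube m1_cube min_all n5_gen ne_of_cl not_three ov_D ov_eight ov_mem ov_trans ov_val period_ED place_cases q3a_dvd_lt q3a_la_sq q3a_le q3a_sq_lt q3b_ext q3b_int q3b_le q3b_neg q3b_pos q3b_pos_iff q3b_sq q3b_tau q3b_three q4b_crt q5_coe q5_den quot_all quot_eq s5b_not_la sha_zero step tam_la tam_one tau_jF val_prime z1_norm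
open CU (la om eE)

theorem e5b_mem {k L : Type} [Field k] [Fintype k] [Field L] [Algebra k L] (x : L)
    (hx : x ^ Fintype.card k = x) : ∃ a : k, algebraMap k L a = x := by
  have hq : 1 < Fintype.card k := Fintype.one_lt_card
  have hdeg := FiniteField.X_pow_card_sub_X_natDegree_eq k hq
  have hmon : (Polynomial.X ^ Fintype.card k - Polynomial.X : Polynomial k).Monic :=
    Polynomial.monic_X_pow_sub (by rw [Polynomial.degree_X]; exact_mod_cast hq)
  have hroots := FiniteField.roots_X_pow_card_sub_X k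
  have hprod := Polynomial.prod_multiset_X_sub_C_of_monic_of_roots_card_eq hmon
    (by rw [hroots, hdeg]; rfl)
  rw [hroots] at hprod
  have h1 : (∏ a : k, (Polynomial.X - Polynomial.C a) : Polynomial k) =
      Polynomial.X ^ Fintype.card k - Polynomial.X := hprod
  have h2 := congrArg (Polynomial.aeval x) h1
  rw [map_prod, map_sub, map_pow, Polynomial.aeval_X, hx, sub_self, Finset.prod_eq_zero_iff] at h2
  obtain ⟨a, -, ha⟩ := h2
  rw [map_sub, Polynomial.aeval_X, Polynomial.aeval_C, sub_eq_zero] at ha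
  exact ⟨a, ha.symm⟩

/-- [E5b] -/
theorem res_cheb {k : Type} [Field k] [Finite k] (hq : Nat.card k % 3 = 1) {t : k} (h : ∀ z : k, z ^ 2 - t * z + 1 ≠ 0) :
    ∃ T : k, T ^ 3 - 3 * T = t ∧ T ^ 2 ≠ 1 := by
  have _ := Fintype.ofFinite k
  rw [Nat.card_eq_fintype_card] at hq
  obtain ⟨j, hj⟩ : ∃ j, Fintype.card k = 3 * j + 1 := ⟨Fintype.card k / 3, by omega⟩
  set q : ℕ := Fintype.card k with hqd
  let L := AlgebraicClosure k
  have hinj : Function.Injective (algebraMap k L) := (algebraMap k L).injective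
  -- a root
  obtain ⟨z, hz⟩ : ∃ z : L, z ^ 2 - algebraMap k L t * z + 1 = 0 := by
    obtain ⟨z, hz⟩ := IsAlgClosed.exists_root
      (Polynomial.C (1 : L) * Polynomial.X ^ 2 + Polynomial.C (-(algebraMap k L t)) * Polynomial.X
        + Polynomial.C 1) (by
        rw [Polynomial.degree_quadratic one_ne_zero]
        norm_num)
    refine ⟨z, ?_⟩
    rw [Polynomial.IsRoot.def] at hz
    simp only [Polynomial.eval_add, Polynomial.eval_mul, Polynomial.eval_C, Polynomial.eval_pow,
      Polynomial.eval_X] at hz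
    linear_combination hz
  have hφ : ∀ x : L, FiniteField.frobeniusAlgHom k L x = x ^ q := fun x => rfl
  have hz' : (z ^ q) ^ 2 - algebraMap k L t * z ^ q + 1 = 0 := by
    have h1 := congrArg (FiniteField.frobeniusAlgHom k L) hz
    rw [map_add, map_sub, map_mul, map_pow, map_one, map_zero, AlgHom.commutes, hφ] at h1
    exact h1
  have hne : z ^ q ≠ z := by
    intro h1
    obtain ⟨a, ha⟩ := e5b_mem (k := k) z h1
    apply h a
    apply hinj
    rw [map_add, map_sub, map_mul, map_pow, map_one, map_zero, ha]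
    exact hz
  have hsum : z ^ q + z = algebraMap k L t := by
    have h1 : (z ^ q - z) * (z ^ q + z - algebraMap k L t) = 0 := by
      linear_combination hz' - hz
    rcases mul_eq_zero.1 h1 with h2 | h2
    · exact absurd (sub_eq_zero.1 h2) hne
    · exact sub_eq_zero.1 h2
  have hmul : z ^ q * z = 1 := by
    linear_combination z * hsum - hz
  have hz1 : z ^ (q + 1) = 1 := by rw [pow_succ]; exact hmul
  set w : L := z ^ (j + 1) with hw
  have hw3 : w ^ 3 = z := by
    rw [hw, ← pow_mul, show (j + 1) * 3 = (q + 1) + 1 by omega, pow_succ, hz1, one_mul]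
  have hwq : w ^ q * w = 1 := by
    rw [← pow_succ, hw, ← pow_mul, mul_comm, pow_mul, hz1, one_pow]
  have hw0 : w ≠ 0 := by
    intro h1
    rw [h1, mul_zero] at hwq
    exact zero_ne_one hwq
  set v : L := w ^ q with hv
  have hvq : v ^ q = w := by
    have h1 : v = w⁻¹ := eq_inv_of_mul_eq_one_left hwq
    rw [h1, inv_pow, ← hv, h1, inv_inv]
  have hv3 : v ^ 3 = z ^ q := by
    rw [hv, ← pow_mul, mul_comm, pow_mul, hw3]
  obtain ⟨T, hT⟩ : ∃ T : k, algebraMap k L T = w + v := by
    apply e5b_mem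
    have h1 : (w + v) ^ q = FiniteField.frobeniusAlgHom k L (w + v) := rfl
    rw [← hqd, h1, map_add, hφ, hφ, hvq, ← hv, add_comm]
  refine ⟨T, ?_, ?_⟩
  · apply hinj
    rw [map_sub, map_mul, map_pow, hT, map_ofNat, ← hsum, ← hv3]
    linear_combination (3 * (w + v)) * hwq + hw3
  · intro h1
    have h2 : (w + v) ^ 2 = 1 := by
      rw [← hT, ← map_pow, h1, map_one]
    have h3 : w ^ 4 + w ^ 2 + 1 = 0 := by
      linear_combination w ^ 2 * h2 - (v * w + 1 + 2 * w ^ 2) * hwq
    have h4 : w ^ 6 = 1 := by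
      linear_combination (w ^ 2 - 1) * h3
    have h5 : z * z = 1 := by
      rw [← hw3]
      linear_combination h4
    apply hne
    have hz0 : z ≠ 0 := by
      intro h6
      rw [h6, mul_zero] at h5
      exact zero_ne_one h5
    exact mul_right_cancel₀ hz0 (hmul.trans h5.symm)

section
variable (v : HeightOneSpectrum (𝓞 KK)) {d s a u y : v.adicCompletion KK}

/-- [E5a] -/
theorem e5b_unitG (h3 : Valued.v (3 : v.adicCompletion KK) = (1 : WithZero (Multiplicative ℤ)))
    (a ε : v.adicCompletionIntegers KK)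
    (hε : Valued.v (ε : v.adicCompletion KK) = (1 : WithZero (Multiplicative ℤ)))
    (ha : Valued.v (a : v.adicCompletion KK) = (1 : WithZero (Multiplicative ℤ))) :
    (∃ g : v.adicCompletion KK, g ^ 3 = a) ∨ ∃ g h : v.adicCompletion KK, g ≠ 0 ∧
      h ^ 3 - (a : v.adicCompletion KK) ^ 2 * g ^ 3 = a * ε := by
  have hfin : Finite (IsLocalRing.ResidueField (v.adicCompletionIntegers KK)) := (card_residue KK v).2
  have hcard := e5b_card v h3
  set k := IsLocalRing.ResidueField (v.adicCompletionIntegers KK) with hk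
  set R : v.adicCompletionIntegers KK →+* k := IsLocalRing.residue (v.adicCompletionIntegers KK) with hR
  have hRs : Function.Surjective R := IsLocalRing.residue_surjective
  have hra : R a ≠ 0 := (e5b_res1 v a).2 ha
  have hrs : R ε ≠ 0 := (e5b_res1 v ε).2 hε
  have ha0 : (a : v.adicCompletion KK) ≠ 0 := by
    intro h0
    rw [h0, map_zero] at ha
    exact zero_ne_one ha
  by_cases hcu : ∃ t : k, t ^ 3 = R a
  · left
    obtain ⟨t, ht⟩ := hcu
    obtain ⟨t₀, rfl⟩ := hRs t
    have ht0 : R t₀ ≠ 0 := by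
      intro h0
      rw [h0] at ht
      apply hra
      rw [← ht]
      norm_num
    refine e5b_root v h3 ha.le ((e5b_res1 v t₀).1 ht0) ?_
    have h4 : R (t₀ ^ 3 - a) = 0 := by rw [map_sub, map_pow, ht, sub_self]
    have h5 := (e5b_res0 v _).1 h4
    simpa only [AddSubgroupClass.coe_sub, SubmonoidClass.coe_pow] using h5
  · right
    have hB : -(R a) ^ 2 ≠ 0 := neg_ne_zero.2 (pow_ne_zero 2 hra)
    obtain ⟨gb, hb, hgh⟩ := exists_sol hcard (A := (1 : k)) (B := -(R a) ^ 2) (C := R a * R ε) one_ne_zero hB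
      (mul_ne_zero hra hrs) (by
        rintro ⟨t, ht⟩
        rw [div_one] at ht
        have ht0 : t ≠ 0 := by
          rintro rfl
          apply hB
          rw [← ht]
          norm_num
        apply hcu
        refine ⟨R a / (-t), ?_⟩
        have h5 : (-t) ^ 3 = (R a) ^ 2 := by linear_combination -ht
        rw [div_pow, h5, div_eq_iff (pow_ne_zero 2 hra)]
        ring)
    rw [one_mul] at hgh
    obtain ⟨g₀, rfl⟩ := hRs gb
    obtain ⟨h₀, rfl⟩ := hRs hb
    have hkey : R (h₀ ^ 3 - a ^ 2 * g₀ ^ 3 - a * ε) = 0 := by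
      simp only [map_sub, map_mul, map_pow]
      linear_combination hgh
    by_cases hh : R h₀ = 0
    · have hg0 : R g₀ ≠ 0 := by
        intro h0
        rw [hh, h0] at hgh
        apply mul_ne_zero hra hrs
        rw [← hgh]
        norm_num
      have hkey2 : R (a ^ 2 * g₀ ^ 3 + a * ε) = 0 := by
        have h5 : R (a ^ 2 * g₀ ^ 3 + a * ε) = R h₀ ^ 3 - R (h₀ ^ 3 - a ^ 2 * g₀ ^ 3 - a * ε) := by
          simp only [map_sub, map_add, map_mul, map_pow]
          ring
        rw [h5, hkey, hh]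
        norm_num
      have hv2 := (e5b_res0 v _).1 hkey2
      have hcoe : ((a ^ 2 * g₀ ^ 3 + a * ε : v.adicCompletionIntegers KK) : v.adicCompletion KK) =
          (a : v.adicCompletion KK) ^ 2 * ((g₀ : v.adicCompletion KK) ^ 3 - (-ε / a)) := by
        rw [AddMemClass.coe_add, MulMemClass.coe_mul, MulMemClass.coe_mul,
          SubmonoidClass.coe_pow, SubmonoidClass.coe_pow]
        field_simp
        ring
      rw [hcoe, map_mul, map_pow, ha, one_pow, one_mul] at hv2
      have hcv : Valued.v (-(ε : v.adicCompletion KK) / a) = (1 : WithZero (Multiplicative ℤ)) := by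
        rw [map_div₀, Valuation.map_neg, hε, ha]
        norm_num
      obtain ⟨g, hg⟩ := e5b_root v h3 hcv.le ((e5b_res1 v g₀).1 hg0) hv2
      refine ⟨g, 0, ?_, ?_⟩
      · rintro rfl
        rw [← hg, zero_pow (by norm_num), map_zero] at hcv
        exact zero_ne_one hcv
      · rw [hg]
        field_simp
        ring
    · obtain ⟨g₁, hg1, hg2⟩ : ∃ g₁ : v.adicCompletionIntegers KK, g₁ ≠ 0 ∧ R g₁ = R g₀ := by
        by_cases hg : g₀ = 0
        · obtain ⟨ϖ, hϖ⟩ := IsDiscreteValuationRing.exists_irreducible (v.adicCompletionIntegers KK)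
          refine ⟨ϖ, hϖ.ne_zero, ?_⟩
          rw [hg, map_zero, hR, IsLocalRing.residue_eq_zero_iff, hϖ.maximalIdeal_eq]
          exact Ideal.mem_span_singleton_self ϖ
        · exact ⟨g₀, hg, rfl⟩
      have hkey1 : R (h₀ ^ 3 - (a ^ 2 * g₁ ^ 3 + a * ε)) = 0 := by
        simp only [map_sub, map_add, map_mul, map_pow, hg2]
        linear_combination hgh
      have hv1 := (e5b_res0 v _).1 hkey1
      rw [AddSubgroupClass.coe_sub, SubmonoidClass.coe_pow] at hv1
      obtain ⟨h, hh1⟩ := e5b_root v h3 (a ^ 2 * g₁ ^ 3 + a * ε : v.adicCompletionIntegers KK).2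
        ((e5b_res1 v h₀).1 hh) hv1
      refine ⟨g₁, h, ?_, ?_⟩
      · intro h0
        exact hg1 (Subtype.ext h0)
      · rw [hh1, AddMemClass.coe_add, MulMemClass.coe_mul, MulMemClass.coe_mul,
          SubmonoidClass.coe_pow, SubmonoidClass.coe_pow]
        ring

/-- [E5a] -/
theorem sol_splitG (h3 : Valued.v (3 : v.adicCompletion KK) = (1 : WithZero (Multiplicative ℤ)))
    (hs : s ^ 2 = d) (hs0 : s ≠ 0) (hsv : ∃ γ : WithZero (Multiplicative ℤ), Valued.v (2 * s) = γ ^ 3) (ha : a ≠ 0)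
    (hav : ∃ γ : WithZero (Multiplicative ℤ), Valued.v a = γ ^ 3) :
    (∃ g : v.adicCompletion KK, g ^ 3 = a) ∨
      ∃ x y g : v.adicCompletion KK, g ≠ 0 ∧ y ^ 2 = x ^ 3 + d ∧ y - s ≠ 0 ∧ y - s = a * g ^ 3 := by
  have surj : ∀ γ : WithZero (Multiplicative ℤ), ∃ p : v.adicCompletion KK, Valued.v p = γ := by
    intro γ
    obtain ⟨x, hx⟩ := v.valuation_surjective KK γ
    exact ⟨algebraMap KK (v.adicCompletion KK) x,
      (HeightOneSpectrum.valuedAdicCompletion_eq_valuation' (K := KK) v x).trans hx⟩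
  have h20 : (2 : v.adicCompletion KK) ≠ 0 := by
    have hinj := FaithfulSMul.algebraMap_injective KK (v.adicCompletion KK)
    intro h0
    have h1 : algebraMap KK (v.adicCompletion KK) 2 = algebraMap KK (v.adicCompletion KK) 0 := by
      rw [map_ofNat, map_zero, h0]
    have h2 := hinj h1
    norm_num at h2
  have h2s : 2 * s ≠ 0 := mul_ne_zero h20 hs0
  obtain ⟨γ, hγ⟩ := hsv
  obtain ⟨γ', hγ'⟩ := hav
  have hγ0 : γ ≠ 0 := by
    rintro rfl
    rw [zero_pow (by norm_num)] at hγ
    exact (Valuation.ne_zero_iff _).2 h2s hγ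
  have hγ'0 : γ' ≠ 0 := by
    rintro rfl
    rw [zero_pow (by norm_num)] at hγ'
    exact (Valuation.ne_zero_iff _).2 ha hγ'
  obtain ⟨p, hp⟩ := surj γ
  obtain ⟨q, hq⟩ := surj γ'
  have hp0 : p ≠ 0 := by
    rintro rfl
    rw [map_zero] at hp
    exact hγ0 hp.symm
  have hq0 : q ≠ 0 := by
    rintro rfl
    rw [map_zero] at hq
    exact hγ'0 hq.symm
  have he1 : Valued.v (2 * s / p ^ 3) = (1 : WithZero (Multiplicative ℤ)) := by
    rw [map_div₀, map_pow, hγ, hp, div_self (pow_ne_zero 3 hγ0)]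
  have ha1 : Valued.v (a / q ^ 3) = (1 : WithZero (Multiplicative ℤ)) := by
    rw [map_div₀, map_pow, hγ', hq, div_self (pow_ne_zero 3 hγ'0)]
  rcases e5b_unitG v h3 ⟨a / q ^ 3, ha1.le⟩ ⟨2 * s / p ^ 3, he1.le⟩ he1 ha1 with ⟨g, hg⟩ | ⟨g, h, hg0, hgh⟩
  · left
    refine ⟨q * g, ?_⟩
    rw [mul_pow, hg]
    field_simp
  · right
    have hgh' : h ^ 3 - (a / q ^ 3) ^ 2 * g ^ 3 = (a / q ^ 3) * (2 * s / p ^ 3) := hgh
    have hps : p ^ 3 * (2 * s / p ^ 3) = 2 * s := by field_simp
    refine ⟨p ^ 2 * g * h, s + p ^ 3 * (a / q ^ 3) * g ^ 3, p * g / q,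
      div_ne_zero (mul_ne_zero hp0 hg0) hq0, ?_, ?_, ?_⟩
    · linear_combination hs - (p ^ 6 * g ^ 3) * hgh' - (a / q ^ 3) * g ^ 3 * p ^ 3 * hps
    · rw [add_sub_cancel_left]
      exact mul_ne_zero (mul_ne_zero (pow_ne_zero 3 hp0) (div_ne_zero ha (pow_ne_zero 3 hq0)))
        (pow_ne_zero 3 hg0)
    · rw [add_sub_cancel_left, div_pow, mul_pow]
      ring

theorem e5c_two : (2 : v.adicCompletion KK) ≠ 0 := by
  intro h
  have h1 : algebraMap KK (v.adicCompletion KK) (2 : KK) = algebraMap KK (v.adicCompletion KK) 0 := by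
    rw [map_ofNat, map_zero, h]
  have h2 := (algebraMap KK (v.adicCompletion KK)).injective h1
  exact two_ne_zero h2

/-- if `z² - t z + 1` has no root, then `t` is integral -/
theorem e5c_int {t : v.adicCompletion KK} (hnr : ∀ z : v.adicCompletion KK, z ^ 2 - t * z + 1 ≠ 0) :
    Valued.v t ≤ (1 : WithZero (Multiplicative ℤ)) := by
  by_contra hcon
  rw [not_le] at hcon
  have ht0 : t ≠ 0 := by
    rintro rfl
    rw [map_zero] at hcon
    exact absurd hcon (not_lt.2 zero_le_one)
  have hq : Valued.v (1 / t ^ 2) < (1 : WithZero (Multiplicative ℤ)) := by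
    rw [map_div₀, map_one, map_pow]
    exact (div_lt_one₀ (pow_pos (lt_trans zero_lt_one hcon) 2)).2 (one_lt_pow₀ hcon two_ne_zero)
  obtain ⟨x, hx1, hx2⟩ := hensel3 v (p := -1) (q := 1 / t ^ 2) (t := 0) (x₀ := 1)
    (by rw [Valuation.map_neg, map_one]) hq.le (by rw [map_zero]; exact zero_le_one) (by rw [map_one])
    (by
      have e : (1 : v.adicCompletion KK) ^ 3 + -1 * 1 ^ 2 + 1 / t ^ 2 * 1 + 0 = 1 / t ^ 2 := by ring
      rw [e]; exact hq)
    (by
      have e : 3 * (1 : v.adicCompletion KK) ^ 2 + 2 * -1 * 1 + 1 / t ^ 2 = 1 + 1 / t ^ 2 := by ring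
      rw [e]; exact Valuation.map_one_add_of_lt _ hq)
  have hx0 : x ≠ 0 := by
    rintro rfl
    rw [zero_sub, Valuation.map_neg, map_one] at hx2
    exact lt_irrefl _ hx2
  have h1 : x * (x ^ 2 - x + 1 / t ^ 2) = 0 := by linear_combination hx1
  have h2 := (mul_eq_zero.1 h1).resolve_left hx0
  apply hnr (t * x)
  have h3 : t ^ 2 * (1 / t ^ 2) = 1 := by field_simp
  linear_combination t ^ 2 * h2 - h3

/-- [E5c] a root of the Chebyshev equation -/
theorem e5c_root (h3 : Valued.v (3 : v.adicCompletion KK) = (1 : WithZero (Multiplicative ℤ)))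
    {t : v.adicCompletion KK} (hnr : ∀ z : v.adicCompletion KK, z ^ 2 - t * z + 1 ≠ 0) :
    ∃ T : v.adicCompletion KK, T ^ 3 - 3 * T = t := by
  have ht := e5c_int v hnr
  have hfin : Finite (IsLocalRing.ResidueField (v.adicCompletionIntegers KK)) := (card_residue KK v).2
  have hcard := e5b_card v h3
  set k := IsLocalRing.ResidueField (v.adicCompletionIntegers KK) with hk
  set R : v.adicCompletionIntegers KK →+* k := IsLocalRing.residue (v.adicCompletionIntegers KK) with hR
  have hRs : Function.Surjective R := IsLocalRing.residue_surjective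
  have h30 : (3 : k) ≠ 0 := by
    have h1 := (e5b_res1 v (3 : v.adicCompletionIntegers KK)).2 h3
    rwa [map_ofNat] at h1
  obtain ⟨tI, htI⟩ : ∃ tI : v.adicCompletionIntegers KK, (tI : v.adicCompletion KK) = t :=
    ⟨⟨t, ht⟩, rfl⟩
  have c3 : ((3 : v.adicCompletionIntegers KK) : v.adicCompletion KK) = 3 := rfl
  have c2 : ((2 : v.adicCompletionIntegers KK) : v.adicCompletion KK) = 2 := rfl
  have c1 : ((1 : v.adicCompletionIntegers KK) : v.adicCompletion KK) = 1 := rfl
  have key : ∀ T₀ : k, T₀ ^ 3 - 3 * T₀ = R tI → T₀ ^ 2 ≠ 1 →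
      ∃ T : v.adicCompletion KK, T ^ 3 - 3 * T = t := by
    intro T₀ e1 e2
    obtain ⟨x0, rfl⟩ := hRs T₀
    have hk1 : R (x0 ^ 3 - 3 * x0 - tI) = 0 := by
      simp only [map_sub, map_mul, map_pow, map_ofNat]
      rw [e1, sub_self]
    have hv1 := (e5b_res0 v _).1 hk1
    have hk2 : R (3 * x0 ^ 2 - 3) ≠ 0 := by
      simp only [map_sub, map_mul, map_pow, map_ofNat]
      intro h0
      have h4 : (3 : k) * ((R x0) ^ 2 - 1) = 0 := by linear_combination h0
      exact e2 (sub_eq_zero.1 ((mul_eq_zero.1 h4).resolve_left h30))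
    have hv2 := (e5b_res1 v _).1 hk2
    obtain ⟨x, hx, -⟩ := hensel3 v (p := 0) (q := -3) (t := -t) (x₀ := x0)
      (by rw [map_zero]; exact zero_le_one) (by rw [Valuation.map_neg, h3])
      (by rw [Valuation.map_neg]; exact ht) x0.2
      (by
        have e : (x0 : v.adicCompletion KK) ^ 3 + 0 * x0 ^ 2 + -3 * x0 + -t =
            ((x0 ^ 3 - 3 * x0 - tI : v.adicCompletionIntegers KK) : v.adicCompletion KK) := by
          rw [AddSubgroupClass.coe_sub, AddSubgroupClass.coe_sub, MulMemClass.coe_mul,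
            SubmonoidClass.coe_pow, c3, htI]
          ring
        rw [e]; exact hv1)
      (by
        have e : 3 * (x0 : v.adicCompletion KK) ^ 2 + 2 * 0 * x0 + -3 =
            ((3 * x0 ^ 2 - 3 : v.adicCompletionIntegers KK) : v.adicCompletion KK) := by
          rw [AddSubgroupClass.coe_sub, MulMemClass.coe_mul, SubmonoidClass.coe_pow, c3]
          ring
        rw [e]; exact hv2)
    exact ⟨x, by linear_combination hx⟩
  by_cases hz : ∀ z : k, z ^ 2 - R tI * z + 1 ≠ 0
  · obtain ⟨T₀, e1, e2⟩ := res_cheb hcard hz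
    exact key T₀ e1 e2
  · push Not at hz
    obtain ⟨z₀, hz₀⟩ := hz
    have hz0 : z₀ ≠ 0 := by
      rintro rfl
      apply one_ne_zero (α := k)
      linear_combination hz₀
    by_cases h2z : 2 * z₀ = R tI
    · have hsq : z₀ ^ 2 = 1 := by
        rw [← h2z] at hz₀
        linear_combination -hz₀
      refine key (2 * z₀) ?_ ?_
      · rw [← h2z]
        linear_combination 8 * z₀ * hsq
      · intro h4
        apply h30
        linear_combination h4 - 4 * hsq
    · exfalso
      obtain ⟨z0, rfl⟩ := hRs z₀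
      have hk1 : R (z0 ^ 3 - tI * z0 ^ 2 + z0) = 0 := by
        simp only [map_sub, map_add, map_mul, map_pow]
        linear_combination (R z0) * hz₀
      have hv1 := (e5b_res0 v _).1 hk1
      have hk2 : R (3 * z0 ^ 2 - 2 * tI * z0 + 1) ≠ 0 := by
        simp only [map_sub, map_add, map_mul, map_pow, map_ofNat, map_one]
        intro h0
        have h4 : (R z0) * (2 * R z0 - R tI) = 0 := by linear_combination h0 - hz₀
        exact h2z (sub_eq_zero.1 ((mul_eq_zero.1 h4).resolve_left hz0))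
      have hv2 := (e5b_res1 v _).1 hk2
      obtain ⟨x, hx1, hx2⟩ := hensel3 v (p := -t) (q := 1) (t := 0) (x₀ := z0)
        (by rw [Valuation.map_neg]; exact ht) (by rw [map_one]) (by rw [map_zero]; exact zero_le_one)
        z0.2
        (by
          have e : (z0 : v.adicCompletion KK) ^ 3 + -t * z0 ^ 2 + 1 * z0 + 0 =
              ((z0 ^ 3 - tI * z0 ^ 2 + z0 : v.adicCompletionIntegers KK) : v.adicCompletion KK) := by
            rw [AddMemClass.coe_add, AddSubgroupClass.coe_sub, MulMemClass.coe_mul,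
              SubmonoidClass.coe_pow, SubmonoidClass.coe_pow, htI]
            ring
          rw [e]; exact hv1)
        (by
          have e : 3 * (z0 : v.adicCompletion KK) ^ 2 + 2 * -t * z0 + 1 =
              ((3 * z0 ^ 2 - 2 * tI * z0 + 1 : v.adicCompletionIntegers KK) : v.adicCompletion KK) := by
            rw [AddMemClass.coe_add, AddSubgroupClass.coe_sub, MulMemClass.coe_mul,
              MulMemClass.coe_mul, MulMemClass.coe_mul, SubmonoidClass.coe_pow, htI, c3, c2, c1]
            ring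
          rw [e]; exact hv2)
      have hzv : Valued.v (z0 : v.adicCompletion KK) = (1 : WithZero (Multiplicative ℤ)) :=
        (e5b_res1 v z0).1 hz0
      have hx0 : x ≠ 0 := by
        rintro rfl
        rw [zero_sub, Valuation.map_neg, hzv] at hx2
        exact lt_irrefl _ hx2
      have h5 : x * (x ^ 2 - t * x + 1) = 0 := by linear_combination hx1
      exact hnr x ((mul_eq_zero.1 h5).resolve_left hx0)

/-- [E5c] -/
theorem sol_nonsq (h3 : Valued.v (3 : v.adicCompletion KK) = (1 : WithZero (Multiplicative ℤ)))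
    (hd : ¬ ∃ s : v.adicCompletion KK, s ^ 2 = d) (h : u ^ 2 - y ^ 2 * d = 1) : Sol3 u y := by
  have h20 := e5c_two v
  have h30 : (3 : v.adicCompletion KK) ≠ 0 := by
    intro h0
    rw [h0, map_zero] at h3
    exact zero_ne_one h3
  by_cases hy : y = 0
  · rw [hy] at h
    have hu : u ^ 2 = 1 := by linear_combination h
    refine ⟨u, 0, ?_, ?_, ?_⟩
    · linear_combination 4 * u * hu
    · rw [hy, zero_mul]
    · intro h0
      apply h30
      linear_combination h0 - 4 * hu
  · have hnr : ∀ z : v.adicCompletion KK, z ^ 2 - (2 * u) * z + 1 ≠ 0 := by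
      intro z hz
      apply hd
      refine ⟨(z - u) / y, ?_⟩
      rw [div_pow, div_eq_iff (pow_ne_zero 2 hy)]
      linear_combination hz + h
    obtain ⟨T, hT⟩ := e5c_root v h3 hnr
    have hT1 : T ^ 2 ≠ 1 := by
      intro h1
      apply hnr (-T)
      have h4 : 2 * u = -2 * T := by linear_combination -hT + T * h1
      rw [h4]
      linear_combination -h1
    have h5 : 4 * (T / 2) ^ 2 - 1 = T ^ 2 - 1 := by
      field_simp
      ring
    have h6 : 4 * (T / 2) ^ 2 - 1 ≠ 0 := by
      rw [h5]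
      exact sub_ne_zero.2 hT1
    refine ⟨T / 2, y / (4 * (T / 2) ^ 2 - 1), ?_, div_mul_cancel₀ _ h6, h6⟩
    have h7 : 4 * (T / 2) ^ 3 - 3 * (T / 2) = (T ^ 3 - 3 * T) / 2 := by
      field_simp
      ring
    rw [h7, hT]
    field_simp

end

end JG
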