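import Pool.Agent.JG.ZG
import Pool.Agent.JG.SH
import Pool.Agent.JG.SJ
import Pool.Agent.ISO.Sha

/-!
# [JG-FG] every elliptic curve over `ℚ(ω)` with `j = 0`, without rational point of order `3` and with Tamagawa numbers prime to `3`, given the central values
-/

set_option autoImplicit false

open NumberField IsDedekindDomain
open scoped Classical

namespace JG

open CM27 CF JZ
open JD (ED ED_Δ jK)

/-- There is no point of order `3`. -/
def NoThree (K : Type) [Field K] (_i : DecidableEq K) (E : WeierstrassCurve K) : Prop :=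
  ∀ P : E.toAffine.Point, 3 • P = 0 → P = 0

theorem noThree_iff {K : Type} [Field K] (i j : DecidableEq K) (E : WeierstrassCurve K) :
    NoThree K i E ↔ NoThree K j E := by
  rw [Subsingleton.elim i j]

theorem exists_cl (W : WeierstrassCurve KK) (hΔ : W.Δ ≠ 0) (h4 : W.c₄ = 0)
    (h3 : ∀ P : W.toAffine.Point, 3 • P = 0 → P = 0) (htam : ∀ v : HeightOneSpectrum (𝓞 KK), ¬ 3 ∣ SBSD.tam W v) :
    ∃ (D : Eis) (C : WeierstrassCurve.VariableChange KK), ClG D ∧ W = C • ED (jK D) := by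
  obtain ⟨D, C, hfree, rfl⟩ := exists_D W hΔ h4
  have hD0 : D ≠ 0 := by
    rintro rfl
    exact hfree 2 TH.b4_two_prime (dvd_zero _)
  have hΔ0 : (ED (jK D)).Δ ≠ 0 := by
    rw [ED_Δ]
    have h1 : jK D ≠ 0 := fun h => hD0 (JD.jK_inj (h.trans (map_zero jK).symm))
    exact mul_ne_zero (by norm_num) (pow_ne_zero _ h1)
  refine ⟨D, C, clG_of hfree ?_ ?_, rfl⟩
  · have h := (ISO.pts (ED (jK D)) C).2.2.2.1 ((noThree_iff _ _ _).1 h3)
    exact nsq_of hD0 ((noThree_iff _ _ _).1 h)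
  · intro v
    rw [← ISO.tam_smul (ED (jK D)) hΔ0 C v]
    exact htam v

/-- The conjecture modulo `3`. -/
theorem modThree_all (hL : ∀ D : Eis, ClG D → LValG D) (W : WeierstrassCurve KK) (hΔ : W.Δ ≠ 0) (h4 : W.c₄ = 0)
    (h3 : ∀ P : W.toAffine.Point, 3 • P = 0 → P = 0) (htam : ∀ v : HeightOneSpectrum (𝓞 KK), ¬ 3 ∣ SBSD.tam W v) :
    CUE.ModThree W := by
  obtain ⟨D, C, hD, rfl⟩ := exists_cl W hΔ h4 h3 htam
  have hΔ0 : (ED (jK D)).Δ ≠ 0 := by
    rw [ED_Δ]
    have h1 : jK D ≠ 0 := fun h => nz hD (JD.jK_inj (h.trans (map_zero jK).symm))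
    exact mul_ne_zero (by norm_num) (pow_ne_zero _ h1)
  exact (ISO.modThree_smul (ED (jK D)) hΔ0 C).2 (modThreeG hD (hL D hD))

end JG
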