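import Pool.Agent.JG.B3
import Pool.Agent.JXD.G5

/-!
# [JG-G5] `NoBadP → 3 ∤ h(F)` and there is a unit `u` with `¬ P (u / ū)`
-/

set_option autoImplicit false

open NumberField IsDedekindDomain
open scoped Classical

namespace JG

open CM27 CF JZ JX JXD
open JD hiding G5b_unit G5b_val LCW_ED below_val descent det_unit disc_eq eis_cube entire_ED exists_H exists_basis exists_cj exists_den exists_int exists_kappa exists_ov exists_phiE exists_quad exists_u0 final_of finite_of_phiE finprod_neron finprod_tam finrank_KD fix_int fix_of_two g4a_exp g4a_le g4a_norm g4a_one g4a_split g4b_place g5a_norm g5a_tau g5a_three g5a_unit int_KK int_jF int_r jr_inj kk_cube m1_cube min_all n5_gen ne_of_cl not_three ov_D ov_eight ov_mem ov_trans ov_val period_ED place_cases q3a_dvd_lt q3a_la_sq q3a_le q3a_sq_lt q3b_ext q3b_int q3b_le q3b_neg q3b_pos q3b_pos_iff q3b_sq q3b_tau q3b_three q4b_crt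 q5_coe q5_den quot_all quot_eq s5b_not_la sha_zero step tam_la tam_one tau_jF val_prime z1_norm
open CU (la om eE)

section
variable {D : Eis} {F : Type} [Field F] [NumberField F] [Algebra KK F] {r : F} {τ : F ≃ₐ[KK] F} {P : F → Prop}

theorem g5a_norm (hD : D ≠ 0) (hQ : Quad D r τ) (u : (𝓞 F)ˣ) :
    ((u : F) / τ (u : F)) * τ ((u : F) / τ (u : F)) = 1 := by
  have hu : (u : F) ≠ 0 := by
    intro h
    have h1 : (u : 𝓞 F) = 0 := RingOfIntegers.ext h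
    exact u.ne_zero h1
  have hτ : τ (u : F) ≠ 0 := (map_ne_zero τ).2 hu
  rw [map_div₀, tau_tau (hD) hQ]
  field_simp

theorem g5_n1 (hD : D ≠ 0) (hQ : Quad D r τ) (u : (𝓞 F)ˣ) : N1 τ ((u : F) / τ (u : F)) :=
  ⟨g5a_norm hD hQ u, fun w _ => by rw [map_div₀, g5a_unit, g5a_tau, div_one]⟩

theorem exists_u0 (hD : D ≠ 0) (hQ : Quad D r τ) (hN : NoBadP τ P) : ∃ u : (𝓞 F)ˣ,
    ¬ P ((u : F) / τ (u : F)) := by
  by_contra hcon
  push Not at hcon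
  obtain ⟨u, hu⟩ := unit_not_cube (hD) hQ
  apply hu
  obtain ⟨c, hc⟩ := hN ((u : F) / τ (u : F)) ⟨g5a_norm hD hQ u, fun w => ⟨1, by
    rw [map_div₀, g5a_unit, g5a_tau, div_one, one_pow]⟩, (g5_n1 hD hQ u).2, hcon u⟩
  exact ⟨c ^ 8, by rw [← hc]; ring⟩

theorem not_three (hD : D ≠ 0) (hQ : Quad D r τ) (hP : LC τ P) (hN : NoBadP τ P) : ¬ 3 ∣ classNumber F := by
  intro h3
  have hD0 : D ≠ 0 := hD
  obtain ⟨u₀, hu₀⟩ := exists_u0 hD hQ hN
  obtain ⟨β, hβ0, hβ3, hβ⟩ := exists_beta F h3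
  have hτ0 : ∀ x : F, x ≠ 0 → τ x ≠ 0 := fun x hx h0 => hx (τ.injective (by rw [h0, map_zero]))
  have hττ : ∀ x : F, τ (τ x) = x := tau_tau hD0 hQ
  have hdiv : ∀ x : F, x ≠ 0 → (x / τ x) * τ (x / τ x) = 1 := by
    intro x hx
    rw [map_div₀, hττ]
    have := hτ0 x hx
    field_simp
  have hw0 : ∀ (w : HeightOneSpectrum (𝓞 F)) (x : F), x ≠ 0 → w.valuation F x ≠ 0 := fun w x hx =>
    (Valuation.ne_zero_iff _).2 hx
  -- `w (τ β)` is a cube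
  have hβ3' : ∀ w : HeightOneSpectrum (𝓞 F), ∃ g : WithZero (Multiplicative ℤ),
      w.valuation F (τ β) = g ^ 3 := by
    intro w
    obtain ⟨w', hw'⟩ := exists_cj τ w
    obtain ⟨g, hg⟩ := hβ3 w'
    exact ⟨g, by rw [← hw', hg]⟩
  have hα3 : ∀ w : HeightOneSpectrum (𝓞 F), ∃ g : WithZero (Multiplicative ℤ),
      w.valuation F (β / τ β) = g ^ 3 := by
    intro w
    obtain ⟨g, hg⟩ := hβ3 w
    obtain ⟨g', hg'⟩ := hβ3' w
    exact ⟨g / g', by rw [map_div₀, hg, hg', div_pow]⟩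
  obtain ⟨k, hk, hkv⟩ := exists_kappa hD hQ (hdiv β hβ0) (fun w _ => hα3 w)
  have hk0 : k ≠ 0 := by
    rintro rfl
    rw [zero_mul] at hk
    exact zero_ne_one hk
  set a : F := (β / τ β) / k ^ 3 with ha
  have ha1 : a * τ a = 1 := by
    have h1 : a * τ a = ((β / τ β) * τ (β / τ β)) / (k * τ k) ^ 3 := by
      rw [ha, map_div₀, map_pow]
      have := hτ0 k hk0
      have := hτ0 β hβ0
      field_simp
    rw [h1, hdiv β hβ0, hk, one_pow, div_one]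
  have hav : ∀ w : HeightOneSpectrum (𝓞 F), OvLa w → w.valuation F a = 1 := by
    intro w hw
    rw [ha, map_div₀, map_pow, ← hkv w hw]
    exact div_self (hw0 w _ (div_ne_zero hβ0 (hτ0 β hβ0)))
  have ha3 : ∀ w : HeightOneSpectrum (𝓞 F), ∃ g : WithZero (Multiplicative ℤ),
      w.valuation F a = g ^ 3 := by
    intro w
    obtain ⟨g, hg⟩ := hα3 w
    exact ⟨g / w.valuation F k, by rw [ha, map_div₀, map_pow, hg, div_pow]⟩
  -- the unit
  have hu0 : (u₀ : F) ≠ 0 := by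
    intro h0
    have h1 := G5b_val u₀ (exists_ov hD hQ).choose
    rw [h0, map_zero] at h1
    exact zero_ne_one h1
  have hinv : ((u₀⁻¹ : (𝓞 F)ˣ) : F) = (u₀ : F)⁻¹ := by
    have h2 := congrArg (algebraMap (𝓞 F) F) u₀.mul_inv
    rw [map_mul, map_one] at h2
    exact eq_inv_of_mul_eq_one_right h2
  have hτint : ∀ x : F, IsIntegral ℤ x → IsIntegral ℤ (τ x) := fun x hx =>
    hx.map ((τ : F →+* F).toIntAlgHom)
  obtain ⟨T, hT⟩ := G5b_unit (hτint _ (RingOfIntegers.isIntegral_coe (u₀ : 𝓞 F)))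
    (hτint _ (RingOfIntegers.isIntegral_coe ((u₀⁻¹ : (𝓞 F)ˣ) : 𝓞 F))) (by
      rw [← map_mul]
      have h2 := congrArg (algebraMap (𝓞 F) F) u₀.mul_inv
      rw [map_mul, map_one] at h2
      exact (congrArg τ h2).trans (map_one τ))
  have hT' : (T : F) = τ (u₀ : F) := hT
  have hbv : ∀ w : HeightOneSpectrum (𝓞 F), w.valuation F ((u₀ : F) / τ (u₀ : F)) = 1 := by
    intro w
    rw [map_div₀, ← hT', G5b_val, G5b_val, div_one]
  obtain ⟨j, hj⟩ := hP.adjust a ((u₀ : F) / τ (u₀ : F)) ⟨ha1, hav⟩ (g5_n1 hD hQ u₀) hu₀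
  have hLam : LamP τ P (a * ((u₀ : F) / τ (u₀ : F)) ^ j) := by
    have hn := n1_mul (τ := τ) (a := a) ⟨ha1, hav⟩ (n1_pow (g5_n1 hD hQ u₀) j)
    refine ⟨hn.1, ?_, hn.2, hj⟩
    intro w
    obtain ⟨g, hg⟩ := ha3 w
    exact ⟨g, by rw [map_mul, map_pow, hbv w, one_pow, mul_one, hg]⟩
  obtain ⟨γ, hγ⟩ := hN _ hLam
  have hγ0 : γ ≠ 0 := by
    rintro rfl
    rw [zero_pow (by norm_num)] at hγ
    have h1 := hLam.1
    rw [← hγ, zero_mul] at h1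
    exact zero_ne_one h1
  obtain ⟨x, hx⟩ := exists_of_fix hD0 hQ (z := β * τ β) (by rw [map_mul, hττ, mul_comm])
  have hx0 : x ≠ 0 := by
    rintro rfl
    rw [map_zero] at hx
    exact mul_ne_zero hβ0 (hτ0 β hβ0) hx
  obtain ⟨v, d, hv, hxd⟩ := kk_cube hD hQ hx0 (by
    intro w
    obtain ⟨g, hg⟩ := hβ3 w
    obtain ⟨g', hg'⟩ := hβ3' w
    exact ⟨g * g', by rw [← hx, map_mul, hg, hg', mul_pow]⟩)
  set δ : F := algebraMap KK F d with hδ
  have hx' : β * τ β = jF F v * δ ^ 3 := by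
    rw [hx, hxd, map_mul, map_pow, ← jF_apply]
  obtain ⟨v', hv'⟩ := hv.exists_right_inv
  obtain ⟨V, hV⟩ := G5b_unit (int_jF F v) (int_jF F v') (by rw [← map_mul, hv', map_one])
  have hjv0 : jF F v ≠ 0 := by
    intro h0
    rw [h0, zero_mul] at hx'
    exact mul_ne_zero hβ0 (hτ0 β hβ0) hx'
  have hδ0 : δ ≠ 0 := by
    intro h0
    rw [h0, zero_pow (by norm_num), mul_zero] at hx'
    exact mul_ne_zero hβ0 (hτ0 β hβ0) hx'
  have hτu0 : τ (u₀ : F) ≠ 0 := hτ0 _ hu0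
  have haβ : a = β ^ 2 / (jF F v * δ ^ 3 * k ^ 3) := by
    rw [ha, ← hx']
    have := hτ0 β hβ0
    field_simp
  have hVinv : ((V⁻¹ : (𝓞 F)ˣ) : F) = (jF F v)⁻¹ := by
    have h2 := congrArg (algebraMap (𝓞 F) F) V.mul_inv
    rw [map_mul, map_one] at h2
    rw [← hV]
    exact eq_inv_of_mul_eq_one_right h2
  have hTinv : ((T⁻¹ : (𝓞 F)ˣ) : F) = (τ (u₀ : F))⁻¹ := by
    have h2 := congrArg (algebraMap (𝓞 F) F) T.mul_inv
    rw [map_mul, map_one] at h2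
    rw [← hT']
    exact eq_inv_of_mul_eq_one_right h2
  refine hβ (V⁻¹ * (u₀ * T⁻¹) ^ j) (β / (γ * δ * k)) ?_
  have hU : (((V⁻¹ * (u₀ * T⁻¹) ^ j : (𝓞 F)ˣ)) : F) =
      (jF F v)⁻¹ * ((u₀ : F) / τ (u₀ : F)) ^ j := by
    have h1 : (((V⁻¹ * (u₀ * T⁻¹) ^ j : (𝓞 F)ˣ)) : F) =
        ((V⁻¹ : (𝓞 F)ˣ) : F) * ((u₀ : F) * ((T⁻¹ : (𝓞 F)ˣ) : F)) ^ j := by
      simp only [Units.val_mul, Units.val_pow_eq_pow_val, map_mul, map_pow]
    rw [h1, hVinv, hTinv, div_eq_mul_inv]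
  have hb0 : ((u₀ : F) / τ (u₀ : F)) ^ j ≠ 0 := pow_ne_zero _ (div_ne_zero hu0 hτu0)
  have e1 : (β / (γ * δ * k)) ^ 3 = β ^ 3 / (γ ^ 3 * δ ^ 3 * k ^ 3) := by
    rw [div_pow, mul_pow, mul_pow]
  rw [hU, e1, hγ, haβ]
  generalize ((u₀ : F) / τ (u₀ : F)) ^ j = B at hb0
  field_simp

theorem class_unit (hD : D ≠ 0) (hQ : Quad D r τ) (hP : LC τ P) (hN : NoBadP τ P) :
    ¬ 3 ∣ classNumber F ∧ ∃ u : (𝓞 F)ˣ, ¬ P ((u : F) / τ (u : F)) :=
  ⟨not_three hD hQ hP hN, exists_u0 hD hQ hN⟩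

end

end JG
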