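import Pool.Agent.JG.KB

/-!
# [JG-K0x] `D` prime to `λ`, `D ≢ ± 1 mod 3`: local points give classes on the line
-/

set_option autoImplicit false

open NumberField IsDedekindDomain
open scoped Classical

namespace JG

open CM27 CF JZ JX JXD
open JD hiding G5b_unit G5b_val LCW_ED below_val descent det_unit disc_eq eis_cube entire_ED exists_H exists_basis exists_cj exists_den exists_int exists_kappa exists_ov exists_phiE exists_quad exists_u0 final_of finite_of_phiE finprod_neron finprod_tam finrank_KD fix_int fix_of_two g4a_exp g4a_le g4a_norm g4a_one g4a_split g4b_place g5a_norm g5a_tau g5a_three g5a_unit int_KK int_jF int_r jr_inj kk_cube m1_cube min_all n5_gen ne_of_cl not_three ov_D ov_eight ov_mem ov_trans ov_val period_ED place_cases q3a_dvd_lt q3a_la_sq q3a_le q3a_sq_lt q3b_ext q3b_int q3b_le q3b_neg q3b_pos q3b_pos_iff q3b_sq q3b_tau q3b_three q4b_crt q5_coe q5_den quot_all quot_eq s5b_not_la sha_zero step tam_la tam_one tau_jF val_prime z1_norm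
open CU (la om eE)
open CUD (IsCube)

section
variable {D : Eis} {F : Type} [Field F] [NumberField F] [Algebra KK F] {r : F} {τ : F ≃ₐ[KK] F}
  {v : HeightOneSpectrum (𝓞 KK)} {w : HeightOneSpectrum (𝓞 F)} {φ : v.adicCompletion KK →+* w.adicCompletion F}
  (h : Below v w φ) (hw : OvLa w)
include h hw

theorem below_val (hD : D ≠ 0) (hl : ¬ la ∣ D) (hQ : Quad D r τ) (x : v.adicCompletion KK) : Valued.v (φ x) = Valued.v x := by
  have h1 := below_la h hw
  have h2 : Valued.v (φ (algebraMap KK (v.adicCompletion KK) (jK la))) = WithZero.exp (-1 : ℤ) := by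
    rw [h.comm]
    have h3 := ov_val hD hQ hl w hw
    rw [← HeightOneSpectrum.valuedAdicCompletion_eq_valuation'] at h3
    exact h3
  rcases eq_or_ne x 0 with rfl | hx
  · rw [map_zero, map_zero, map_zero]
  · set π := algebraMap KK (v.adicCompletion KK) (jK la) with hπ
    have hv0 : (Valued.v x : WithZero (Multiplicative ℤ)) ≠ 0 := (Valuation.ne_zero_iff _).2 hx
    obtain ⟨n, hn⟩ : ∃ n : ℤ, (Valued.v x : WithZero (Multiplicative ℤ)) = WithZero.exp (-1 : ℤ) ^ n := by
      refine ⟨-WithZero.log (Valued.v x : WithZero (Multiplicative ℤ)), ?_⟩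
      rw [← WithZero.exp_zsmul]
      simp only [smul_eq_mul, mul_neg, mul_one, neg_neg]
      exact (WithZero.exp_log hv0).symm
    have hπ0 : π ≠ 0 := by
      intro h3
      rw [h3, map_zero] at h1
      exact absurd h1.symm (by simp)
    set y := x * π ^ (-n) with hy
    have hy1 : Valued.v y = (1 : WithZero (Multiplicative ℤ)) := by
      rw [hy, map_mul, map_zpow₀, h1, hn, ← zpow_add₀ (by simp)]
      simp
    have hy0 : y ≠ 0 := mul_ne_zero hx (zpow_ne_zero _ hπ0)
    have e1 : Valued.v (φ y) ≤ (1 : WithZero (Multiplicative ℤ)) := h.int y hy1.le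
    have e2 : Valued.v (φ y⁻¹) ≤ (1 : WithZero (Multiplicative ℤ)) := by
      refine h.int y⁻¹ ?_
      rw [map_inv₀, hy1, inv_one]
    have e3 : Valued.v (φ y) = (1 : WithZero (Multiplicative ℤ)) := by
      refine le_antisymm e1 ?_
      rw [map_inv₀, map_inv₀] at e2
      have h0 : (Valued.v (φ y) : WithZero (Multiplicative ℤ)) ≠ 0 :=
        (Valuation.ne_zero_iff _).2 ((map_ne_zero φ).2 hy0)
      exact (inv_le_one₀ (zero_lt_iff.2 h0)).1 e2
    have e4 : x = y * π ^ n := by
      rw [hy, mul_assoc, ← zpow_add₀ hπ0, neg_add_cancel, zpow_zero, mul_one]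
    rw [hn, e4, map_mul, map_mul, e3, one_mul, map_zpow₀, map_zpow₀, h2]

end

section
variable {D : Eis} {F : Type} [Field F] [NumberField F] [Algebra KK F] {r : F} {τ : F ≃ₐ[KK] F}

/-- [LZa] -/
theorem dt_of (hD : D ≠ 0) (hl : ¬ la ∣ D) (h3 : ∀ η : Eis, (η = 1 ∨ η = -1) → ¬ (3 : Eis) ∣ D - η) (hQ : Quad D r τ) (w : HeightOneSpectrum (𝓞 F)) (hw : OvLa w) {d₀ d₁ d₂ : ℤ} (hd : Dig D d₀ d₁ d₂) :
    Dt (Valued.v (R := w.adicCompletion F)) (algebraMap F (w.adicCompletion F) (jF F la))
      (algebraMap F (w.adicCompletion F) (jF F (-om ^ 2))) (algebraMap F (w.adicCompletion F) (jF F D)) d₀ d₁ d₂ := by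
  have hv : ∀ x : F, Valued.v (algebraMap F (w.adicCompletion F) x) = w.valuation F x :=
    fun x => HeightOneSpectrum.valuedAdicCompletion_eq_valuation' w x
  have hl := ov_val hD hQ hl w hw
  have hla2 : la ^ 2 = 3 * (-om) := by
    rw [CU.three_eq]
    have h1 : om ^ 3 = 1 := lza_om
    linear_combination (-(la ^ 2)) * h1
  refine ⟨?_, ?_, ?_, hd.1, ?_, ?_⟩
  · rw [hv]
    exact hl
  · have h1 : w.valuation F (jF F (-om ^ 2 + 1)) < 1 := by
      rw [ov_mem w hw]
      exact lza_dvd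
    rw [← hv, map_add, map_add, map_one, map_one] at h1
    exact h1
  · rw [← map_pow, ← map_pow, ← map_mul, ← map_mul, ← CU.three_eq, map_ofNat, map_ofNat]
  · rcases hd.2.1 with h0 | h0
    · exfalso
      obtain ⟨c, hc⟩ := hd.2.2.2
      rw [h0, Int.cast_zero, zero_mul, add_zero] at hc
      have h3' : (3 : Eis) ∣ D - (d₀ : Eis) := by
        refine ⟨-om * (la * c + (d₂ : Eis)), ?_⟩
        have e : D - (d₀ : Eis) = la ^ 2 * (la * c + (d₂ : Eis)) := by
          linear_combination hc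
        rw [e, hla2]
        ring
      refine h3 (d₀ : Eis) ?_ h3'
      rcases hd.1 with h5 | h5
      · left
        rw [h5, Int.cast_one]
      · right
        rw [h5, Int.cast_neg, Int.cast_one]
    · exact h0
  · obtain ⟨c, hc⟩ := hd.2.2.2
    have e : algebraMap F (w.adicCompletion F) (jF F D) - ((d₀ : w.adicCompletion F) +
        (d₁ : w.adicCompletion F) * algebraMap F (w.adicCompletion F) (jF F la) +
        (d₂ : w.adicCompletion F) * algebraMap F (w.adicCompletion F) (jF F la) ^ 2) =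
        algebraMap F (w.adicCompletion F) (jF F (la ^ 3 * c)) := by
      rw [← hc]
      simp only [map_sub, map_add, map_mul, map_pow, map_intCast]
    rw [e, hv, map_mul, map_mul, map_pow, map_pow, hl]
    have k : (WithZero.exp (-3 : ℤ) : WithZero (Multiplicative ℤ)) = WithZero.exp (-1 : ℤ) ^ 3 := by
      rw [← WithZero.exp_nsmul]
      norm_num
    rw [k]
    exact mul_le_of_le_one_right' (q3b_le w (int_jF F c))

/-- [LZb] -/
theorem conj_inv (hD : D ≠ 0) (hQ : Quad D r τ) (w : HeightOneSpectrum (𝓞 F)) (hw : OvLa w) (hl : ¬ la ∣ D) (h : la ∣ D - (-1)) (x : F) :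
    w.valuation F (τ x) = w.valuation F x := by
  obtain ⟨w', hw'⟩ := exists_cj τ w
  have hwo : OvLa w' := by
    unfold OvLa
    rw [hw', tau_jF]
    exact hw
  have h1 : w' = w := by
    apply q3b_ext
    intro y hy
    obtain ⟨s, a, b, hs, hab⟩ := exists_intL hD hQ (sq_not_dvd hl) hy
    have e1 : w.valuation F y = w.valuation F (jF F a + jF F b * r) := by
      rw [← hab, map_mul, ov_one w hw hs, one_mul]
    have e2 : w'.valuation F y = w'.valuation F (jF F a + jF F b * r) := by
      rw [← hab, map_mul, ov_one w' hwo hs, one_mul]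
    rw [e1, e2, q3b_neg hQ w' hwo h, q3b_neg hQ w hw h]
  rw [← hw', h1]

/-- [LZc] -/
theorem la_of_LocK (hD : D ≠ 0) (hl : ¬ la ∣ D) (h3 : ∀ η : Eis, (η = 1 ∨ η = -1) → ¬ (3 : Eis) ∣ D - η) (hQ : Quad D r τ) {b : F} (hb : b ≠ 0) (hbt : ∃ t : F, b * τ b = t ^ 3)
    (w : HeightOneSpectrum (𝓞 F)) (hw : OvLa w) (h : LocK D r b w) {d₀ d₁ d₂ : ℤ} (hd : Dig D d₀ d₁ d₂) :
    ∃ h u : w.adicCompletion F, h ≠ 0 ∧ algebraMap F (w.adicCompletion F) b = h ^ 3 * u ∧
      Valued.v u = (1 : WithZero (Multiplicative ℤ)) ∧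
      ∃ t : ℤ, Valued.v (u ^ 16 - (u ^ 16)⁻¹ - algebraMap F (w.adicCompletion F)
        (jF F (la * ((t : Eis) * (1 + ((d₁ * (1 + d₂) : ℤ) : Eis) * la))) * r)) ≤ WithZero.exp (-3 : ℤ) := by
  have hv : ∀ x : F, Valued.v (algebraMap F (w.adicCompletion F) x) = w.valuation F x :=
    fun x => HeightOneSpectrum.valuedAdicCompletion_eq_valuation' w x
  have hdt := dt_of hD hl h3 hQ w hw hd
  have hr : algebraMap F (w.adicCompletion F) r ^ 2 =
      algebraMap F (w.adicCompletion F) (jF F D) := by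
    rw [← map_pow, hQ.sq]
  have hb' : algebraMap F (w.adicCompletion F) b ≠ 0 :=
    fun h0 => hb ((algebraMap F (w.adicCompletion F)).injective (by rw [h0, map_zero]))
  have hcase : IsCube (algebraMap F (w.adicCompletion F) b) ∨
      (d₀ = 1 ∧ IsCube (algebraMap F (w.adicCompletion F) (2 * r * b))) ∨
      ∃ (v : HeightOneSpectrum (𝓞 KK)) (φ : v.adicCompletion KK →+* w.adicCompletion F) (x y : v.adicCompletion KK)
        (g : w.adicCompletion F), Below v w φ ∧ g ≠ 0 ∧ y ^ 2 = x ^ 3 + algebraMap KK (v.adicCompletion KK) (jK D) ∧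
          φ y - algebraMap F (w.adicCompletion F) r ≠ 0 ∧
          algebraMap F (w.adicCompletion F) b = (φ y - algebraMap F (w.adicCompletion F) r) * g ^ 3 := by
    rcases hd.1 with h0 | h0
    · rcases h with h | h | h
      · exact Or.inl h
      · exact Or.inr (Or.inl ⟨h0, h⟩)
      · exact Or.inr (Or.inr h)
    · have h4 : la ∣ D - (-1) := by
        obtain ⟨c, hc⟩ := hd.2.2.2
        refine ⟨la ^ 2 * c + (d₁ : Eis) + (d₂ : Eis) * la, ?_⟩
        rw [h0] at hc
        push_cast at hc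
        linear_combination hc
      rcases loc_red hD hQ w hw (conj_inv hD hQ w hw hl h4) hb hbt h with h | h
      · exact Or.inl h
      · exact Or.inr (Or.inr h)
  rcases hcase with ⟨t, ht⟩ | ⟨h0, t, ht⟩ | ⟨v, φ, x, y, g, hB, hg, he, hne, hbg⟩
  · refine ⟨t, 1, ?_, ?_, map_one _, 0, ?_⟩
    · rintro rfl
      apply hb'
      rw [ht, zero_pow three_ne_zero]
    · rw [ht, mul_one]
    · rw [lzc_key, Int.cast_zero, zero_mul, zero_mul, sub_zero, one_pow, inv_one, sub_self, map_zero]
      exact zero_le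
  · rw [h0] at hd
    obtain ⟨ρ, hρ, hrρ⟩ := lzc_sign hQ w hw hd
    have h1 := dt_two_r hdt h0 hr hρ hrρ
    have h2 : Valued.v (2 * algebraMap F (w.adicCompletion F) r) = (1 : WithZero (Multiplicative ℤ)) := by
      have e : Valued.v (algebraMap F (w.adicCompletion F) r) = (1 : WithZero (Multiplicative ℤ)) := by
        rw [hv]
        exact (ov_D hl hQ w hw).2
      rw [map_mul, dt_two hdt, e, one_mul]
    have hne : (2 * algebraMap F (w.adicCompletion F) r) ≠ 0 := by
      intro h0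
      rw [h0, map_zero] at h2
      exact zero_ne_one h2
    have ht' : (2 * algebraMap F (w.adicCompletion F) r) *
        algebraMap F (w.adicCompletion F) b = t ^ 3 := by
      rw [← ht, map_mul, map_mul, map_ofNat]
    refine ⟨t, (2 * algebraMap F (w.adicCompletion F) r)⁻¹, ?_, ?_, ?_, -(ρ * d₁), ?_⟩
    · rintro rfl
      rw [zero_pow three_ne_zero] at ht'
      exact (mul_ne_zero hne hb') ht'
    · rw [← ht', mul_comm _ (2 * algebraMap F (w.adicCompletion F) r)⁻¹, ← mul_assoc,
        inv_mul_cancel₀ hne, one_mul]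
    · rw [map_inv₀, h2, inv_one]
    · rw [lzc_key, inv_pow, inv_inv, ← Valuation.map_neg]
      refine le_trans (le_of_eq ?_) h1
      congr 1
      rw [Int.cast_neg]
      ring
  · have hval : ∀ x : v.adicCompletion KK, Valued.v (φ x) = Valued.v x :=
      fun x => below_val hB hw hD hl hQ x
    have he' : (φ y) ^ 2 = (φ x) ^ 3 + algebraMap F (w.adicCompletion F) (jF F D) := by
      rw [← map_pow, he, map_add, map_pow]
      congr 1
      exact hB.comm (jK D)
    have hres : ∀ z : v.adicCompletion KK, Valued.v (φ z) ≤ (1 : WithZero (Multiplicative ℤ)) →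
        Valued.v (φ z) < (1 : WithZero (Multiplicative ℤ)) ∨
          Valued.v (φ z - 1) < (1 : WithZero (Multiplicative ℤ)) ∨
            Valued.v (φ z + 1) < (1 : WithZero (Multiplicative ℤ)) := by
      intro z hz
      have e4 : φ z - 1 = φ (z - 1) := by rw [map_sub, map_one]
      have e5 : φ z + 1 = φ (z + 1) := by rw [map_add, map_one]
      rw [hval] at hz
      rw [e4, e5, hval, hval, hval]
      exact below_res hB hw hz
    obtain ⟨h, u, hh, hyu, hu1, t, hu2⟩ := lx_point hdt hr he' (sub_ne_zero.2 (sub_ne_zero.1 hne)) (hres x) (hres y)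
    refine ⟨h * g, u, mul_ne_zero hh hg, ?_, hu1, t, ?_⟩
    · rw [hbg, hyu]
      ring
    · rw [lzc_key]
      exact hu2

theorem dir_x (hD : D ≠ 0) (hl : ¬ la ∣ D) (h3 : ∀ η : Eis, (η = 1 ∨ η = -1) → ¬ (3 : Eis) ∣ D - η) (hQ : Quad D r τ)
    {d₀ d₁ d₂ : ℤ} (hd : Dig D d₀ d₁ d₂) : Dir D r τ (PL (Lc (d₁ * (1 + d₂))) r) := by
  intro b hb hbt w hw h a k ha hak
  obtain ⟨h', u, -, hbu, hu1, t, ht⟩ := la_of_LocK hD hl h3 hQ hb hbt w hw h hd
  refine pl_of_unit hD hl hQ w hw ha (α := u ^ 2) (G := h' ^ 2 * algebraMap F (w.adicCompletion F) k)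
    (q := (t : Eis) * (1 + ((d₁ * (1 + d₂) : ℤ) : Eis) * la)) (by rw [map_pow, hu1, one_pow]) ?_ ⟨t, by rw [sub_self]; exact dvd_zero _⟩ ?_
  · rw [hak, map_mul, map_pow, map_pow, hbu]
    ring
  · rw [← pow_mul]
    exact ht

end

end JG
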