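import Pool.Agent.JG.K0y
import Pool.Agent.JD.T1

/-!
# [JG-K0z] `D` prime to `λ`, `D ≡ ± 1 mod 3`, `D ≢ ± 1 + λ² mod λ³`: the line generated by `λ`

PROOF. Models: `JD.l3_data`, `JD.l3_tri`, `JD.la_of_LocK` (JD/L3.lean), `JD.lam_la` (JD/E6.lean), `JD.locSol_la` (JD/E7.lean), for the class `JD.Cl D`; here only `hD, hl, hz`.
`la_of_LocKz` [K0zA]: copy of `JD.la_of_LocK` (with copies of `JD.l3_data`, `JD.l3_tri`; `ov_val hD hQ hl w hw` and `below_val hB hw hD hl hQ` (JG/Q3.lean, JG/K0x.lean) instead of those of JD).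
`dir_z` [K0zA]: `la_of_LocKz`: `i b = h³ u`, `Valued.v (u^8 - 1) ≤ exp (-2)`; `i a = u² (h² (i k))³`, `G = h² (i k)`, `Valued.v G = 1` (`Valued.v (i a) = 1`, `Valued.v u = 1`), `v_eightU`: `Valued.v (G^24 - 1) ≤ exp (-3)`; `(i a)^8 - 1 = u^16 G^24 - 1 = u^16 (G^24 - 1) + (u^8 - 1)(u^8 + 1)`, so
`w (a^8 - 1) ≤ exp (-2) = w (la)²` (`JD.h1_val`, `ov_val`), `li_of_one`.
`conv_z` [K0zB]: let `a = u + y r`, `C = v.adicCompletion KK`, `V = Valued.v`, `i : KK → C`, `M`, `ρ² = i (jK D)`. `one_of_li` at a place `w` over `λ` (`exists_ov`) gives `w (a^8 - 1) ≤ w (la)² = exp (-2)`, and `w ((a^8)⁻¹ - 1) ≤ exp (-2)`. `a^8 = T8 u + y U7 u r`, `(a^8)⁻¹ = T8 u - y U7 u r` (in `F`; `pow8`, `τ a = a⁻¹`; see the proof of `lam_la` in JG/K0y.lean).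
So `w (T8 u - 1) ≤ exp (-2)` (half of the sum) and `w (y U7 u) ≤ exp (-2)` (half of the difference, `w r = 1`), and the same at `v` (transfer as at the end of `lam_la` in JG/K0y.lean: `below_val`, `l0b_ideal`). Put `u₁ = T8 (i u)`, `y₁ = -(i y * U7 (i u))`: `u₁² - y₁² d = 1` (`pow8`), `V (u₁ - 1) ≤ exp (-2)`, `V y₁ ≤ exp (-2)`.
Now exactly as in `JD.locSol_la` (from `rcases hη`), with `u₁, y₁` for `i u, i y`: `LocSol d ρ (algebraMap u₁ + algebraMap y₁ * ρ)`. With `A = algebraMap (i u) + algebraMap (i y) ρ ∈ M` (`A ≠ 0`, it has the inverse `u - y ρ`): `algebraMap u₁ + algebraMap y₁ ρ = (A^8)⁻¹`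
(`(u - y ρ)^8`, `e3x_pow8` of JXD/E3.lean with `-y`), so `A = (A^8)⁻¹ * (A^3)^3`, `locSol_mul` (JG/KB.lean) with `g = A^3`.
-/

set_option autoImplicit false

open NumberField IsDedekindDomain
open scoped Classical

namespace JG

open CM27 CF JZ JX JXD
open JD hiding G5b_unit G5b_val LCW_ED below_val descent det_unit disc_eq eis_cube entire_ED exists_H exists_basis exists_cj exists_den exists_int exists_kappa exists_ov exists_phiE exists_quad exists_u0 final_of finite_of_phiE finprod_neron finprod_tam finrank_KD fix_int fix_of_two g4a_exp g4a_le g4a_norm g4a_one g4a_split g4b_place g5a_norm g5a_tau g5a_three g5a_unit int_KK int_jF int_r jr_inj kk_cube m1_cube min_all n5_gen ne_of_cl not_three ov_D ov_eight ov_mem ov_trans ov_val period_ED place_cases q3a_dvd_lt q3a_la_sq q3a_le q3a_sq_lt q3b_ext q3b_int q3b_le q3b_neg q3b_pos q3b_pos_iff q3b_sq q3b_tau q3b_three q4b_crt q5_coe q5_den quot_all quot_eq s5b_not_la sha_zero step tam_la tam_one tau_jF val_prime z1_norm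
open CU (la om eE)
open CUD (IsCube)

section
variable {D : Eis} {F : Type} [Field F] [NumberField F] [Algebra KK F] {r : F} {τ : F ≃ₐ[KK] F}
  (hD : D ≠ 0) (hl : ¬ la ∣ D) (hz : ∃ η : Eis, (η = 1 ∨ η = -1) ∧ (3 : Eis) ∣ D - η ∧ ¬ la ^ 3 ∣ D - η - la ^ 2) (hQ : Quad D r τ)
include hD hl hz hQ

/-- the local data at a place over `λ` -/
theorem K0zA_data (w : HeightOneSpectrum (𝓞 F)) (hw : OvLa w) :
    ∃ η : Eis, (η = 1 ∨ η = -1) ∧ w.valuation F (jF F (D - η)) ≤ WithZero.exp (-2 : ℤ) ∧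
      ¬ w.valuation F (jF F (D - η - la ^ 2)) ≤ WithZero.exp (-3 : ℤ) := by
  obtain ⟨η, hη, h3, hn⟩ := hz
  have hlv := ov_val hD hQ hl w hw
  exact ⟨η, hη, l3_three w hw hlv h3, fun h => hn (l3_cube w hw hlv h)⟩

/-- the alternatives of `tri` for a point over the completion of `KK` -/
theorem K0zA_tri (w : HeightOneSpectrum (𝓞 F)) (hw : OvLa w) (v : HeightOneSpectrum (𝓞 KK))
    (φ : v.adicCompletion KK →+* w.adicCompletion F) (hB : Below v w φ) (η : Eis)
    (hη : η = 1 ∨ η = -1) (h2 : w.valuation F (jF F (D - η)) ≤ WithZero.exp (-2 : ℤ))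
    (h3 : ¬ w.valuation F (jF F (D - η - la ^ 2)) ≤ WithZero.exp (-3 : ℤ))
    (x y : v.adicCompletion KK) (he : y ^ 2 = x ^ 3 + algebraMap KK (v.adicCompletion KK) (jK D)) :
    WithZero.exp (3 : ℤ) ≤ Valued.v (φ y) ∨
      (Valued.v (φ x) = (1 : WithZero (Multiplicative ℤ)) ∧ Valued.v (φ y) ≤ WithZero.exp (-2 : ℤ)) ∨
      (Valued.v (φ y) = (1 : WithZero (Multiplicative ℤ)) ∧
        algebraMap F (w.adicCompletion F) (jF F η) = 1 ∧
        (Valued.v (φ y - 1) < (1 : WithZero (Multiplicative ℤ)) ∨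
          Valued.v (φ y + 1) < (1 : WithZero (Multiplicative ℤ)))) ∨
      (Valued.v (φ y) = (1 : WithZero (Multiplicative ℤ)) ∧
        algebraMap F (w.adicCompletion F) (jF F η) = -1 ∧
        Valued.v (φ x) = (1 : WithZero (Multiplicative ℤ)) ∧
        Valued.v ((φ y) ^ 2 - algebraMap F (w.adicCompletion F) (jF F D) + 1) ≤
          WithZero.exp (-3 : ℤ)) := by
  have hv : ∀ x : F, Valued.v (algebraMap F (w.adicCompletion F) x) = w.valuation F x :=
    fun x => HeightOneSpectrum.valuedAdicCompletion_eq_valuation' w x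
  have hval : ∀ x : v.adicCompletion KK, Valued.v (φ x) = Valued.v x :=
    fun x => below_val hB hw hD hl hQ x
  have hφ : ∀ a : Eis, φ (algebraMap KK (v.adicCompletion KK) (jK a)) =
      algebraMap F (w.adicCompletion F) (jF F a) := fun a => hB.comm (jK a)
  have hv2 : ∀ a : Eis, Valued.v (algebraMap KK (v.adicCompletion KK) (jK a)) =
      w.valuation F (jF F a) := by
    intro a
    rw [← hval, hφ, hv]
  have hL : Loc3 (Valued.v (R := v.adicCompletion KK))
      (algebraMap KK (v.adicCompletion KK) (jK la))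
      (algebraMap KK (v.adicCompletion KK) (jK (-om ^ 2))) := by
    refine ⟨below_la hB hw, ?_, ?_, fun x hx => below_res hB hw hx⟩
    · rw [hv2]
      exact l3_unit w hw ((CU.om_unit.pow 2).neg)
    · rw [← map_pow, ← map_pow, ← map_mul, ← map_mul, ← CU.three_eq, map_ofNat, map_ofNat]
  have hη' : algebraMap KK (v.adicCompletion KK) (jK η) = 1 ∨
      algebraMap KK (v.adicCompletion KK) (jK η) = -1 := by
    rcases hη with rfl | rfl
    · left
      rw [map_one, map_one]
    · right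
      rw [map_neg, map_neg, map_one, map_one]
  have ht := tri hL hη' (d := algebraMap KK (v.adicCompletion KK) (jK D)) (by
    rw [← map_sub, ← map_sub, hv2]
    exact h2) (by
    rw [← map_sub, ← map_sub, ← map_pow, ← map_pow, ← map_sub, ← map_sub, hv2]
    exact h3) he
  have e1 : ∀ s : v.adicCompletion KK, Valued.v (φ s) = Valued.v s := hval
  rw [hval y, hval x]
  rcases ht with ht | ⟨ht, ht'⟩ | ⟨ht, hη1, ht'⟩ | ⟨ht, hη1, ht', ht''⟩
  · exact Or.inl ht
  · exact Or.inr (Or.inl ⟨ht, ht'⟩)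
  · refine Or.inr (Or.inr (Or.inl ⟨ht, ?_, ?_⟩))
    · rw [← hφ, hη1, map_one]
    · have e4 : φ (y - 1) = φ y - 1 := by rw [map_sub, map_one]
      have e5 : φ (y + 1) = φ y + 1 := by rw [map_add, map_one]
      have e2 : Valued.v (φ y - 1) = Valued.v (y - 1) := by
        rw [← hval (y - 1), e4]
      have e3 : Valued.v (φ y + 1) = Valued.v (y + 1) := by
        rw [← hval (y + 1), e5]
      rw [e2, e3]
      exact ht'
  · refine Or.inr (Or.inr (Or.inr ⟨ht, ?_, ht', ?_⟩))
    · rw [← hφ, hη1, map_neg, map_one]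
    · have e2 : Valued.v ((φ y) ^ 2 - algebraMap F (w.adicCompletion F) (jF F D) + 1) =
          Valued.v (y ^ 2 - algebraMap KK (v.adicCompletion KK) (jK D) + 1) := by
        have e4 : φ (y ^ 2 - algebraMap KK (v.adicCompletion KK) (jK D) + 1) =
            (φ y) ^ 2 - algebraMap F (w.adicCompletion F) (jF F D) + 1 := by
          rw [map_add, map_sub, map_pow, map_one, hφ]
        rw [← e4, hval]
      rw [e2]
      exact ht''

theorem la_of_LocKz {b : F} (hb : b ≠ 0) (w : HeightOneSpectrum (𝓞 F)) (hw : OvLa w) (h : LocK D r b w) :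
    ∃ h u : w.adicCompletion F, h ≠ 0 ∧ algebraMap F (w.adicCompletion F) b = h ^ 3 * u ∧
      Valued.v u = (1 : WithZero (Multiplicative ℤ)) ∧ Valued.v (u ^ 8 - 1) ≤ WithZero.exp (-2 : ℤ) := by
  have hv : ∀ x : F, Valued.v (algebraMap F (w.adicCompletion F) x) = w.valuation F x :=
    fun x => HeightOneSpectrum.valuedAdicCompletion_eq_valuation' w x
  have hlv : Valued.v (algebraMap F (w.adicCompletion F) (jF F la)) = WithZero.exp (-1 : ℤ) := by
    rw [hv]
    exact ov_val hD hQ hl w hw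
  have hε : Valued.v (algebraMap F (w.adicCompletion F) (jF F (-om ^ 2))) =
      (1 : WithZero (Multiplicative ℤ)) := by
    rw [hv]
    exact l3_unit w hw ((CU.om_unit.pow 2).neg)
  have h3 : (3 : w.adicCompletion F) = algebraMap F (w.adicCompletion F) (jF F (-om ^ 2)) *
      algebraMap F (w.adicCompletion F) (jF F la) ^ 2 := by
    rw [← map_pow, ← map_pow, ← map_mul, ← map_mul, ← CU.three_eq, map_ofNat, map_ofNat]
  have hr : algebraMap F (w.adicCompletion F) r ^ 2 =
      algebraMap F (w.adicCompletion F) (jF F D) := by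
    rw [← map_pow, hQ.sq]
  obtain ⟨η, hη, hd2, hd3⟩ := K0zA_data hD hl hz hQ w hw
  have hη' : algebraMap F (w.adicCompletion F) (jF F η) = 1 ∨
      algebraMap F (w.adicCompletion F) (jF F η) = -1 := by
    rcases hη with rfl | rfl
    · left
      rw [map_one, map_one]
    · right
      rw [map_neg, map_neg, map_one, map_one]
  have hd : Valued.v (algebraMap F (w.adicCompletion F) (jF F D) -
      algebraMap F (w.adicCompletion F) (jF F η)) ≤ WithZero.exp (-2 : ℤ) := by
    rw [← map_sub, ← map_sub, hv]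
    exact hd2
  have hb' : algebraMap F (w.adicCompletion F) b ≠ 0 :=
    fun h0 => hb ((algebraMap F (w.adicCompletion F)).injective (by rw [h0, map_zero]))
  rcases h with ⟨t, ht⟩ | ⟨t, ht⟩ | ⟨v, φ, x, y, g, hB, hg, he, hne, hbg⟩
  · refine ⟨t, 1, ?_, ?_, ?_, ?_⟩
    · rintro rfl
      apply hb'
      rw [ht, zero_pow three_ne_zero]
    · rw [ht, mul_one]
    · exact map_one _
    · rw [one_pow, sub_self, map_zero]
      exact zero_le
  · obtain ⟨h1, h2⟩ := ll_two (w := Valued.v (R := w.adicCompletion F)) hlv hε h3 hr hη' hd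
    have hne : (2 * algebraMap F (w.adicCompletion F) r) ≠ 0 := by
      intro h0
      rw [h0, map_zero] at h1
      exact zero_ne_one h1
    have ht' : (2 * algebraMap F (w.adicCompletion F) r) *
        algebraMap F (w.adicCompletion F) b = t ^ 3 := by
      rw [← ht, map_mul, map_mul, map_ofNat]
    refine ⟨t, (2 * algebraMap F (w.adicCompletion F) r)⁻¹, ?_, ?_, ?_, h2⟩
    · rintro rfl
      rw [zero_pow three_ne_zero] at ht'
      exact (mul_ne_zero hne hb') ht'
    · rw [← ht', mul_comm _ (2 * algebraMap F (w.adicCompletion F) r)⁻¹, ← mul_assoc,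
        inv_mul_cancel₀ hne, one_mul]
    · rw [map_inv₀, h1, inv_one]
  · have htri := K0zA_tri hD hl hz hQ w hw v φ hB η hη hd2 hd3 x y he
    have he' : (φ y) ^ 2 = (φ x) ^ 3 + algebraMap F (w.adicCompletion F) (jF F D) := by
      rw [← map_pow, he, map_add, map_pow]
      congr 1
      exact hB.comm (jK D)
    obtain ⟨h, u, hh, hyu, hu1, hu2⟩ := ll (w := Valued.v (R := w.adicCompletion F)) hlv hε h3 hr hη'
      hd he' hne htri
    refine ⟨h * g, u, mul_ne_zero hh hg, ?_, hu1, hu2⟩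
    rw [hbg, hyu]
    ring

/-- [K0zA] -/
theorem dir_z : Dir D r τ (PL Li r) := by
  intro b hb hbt w hw h a k ha hak
  obtain ⟨h', u, hh0, hbu, hu1, hu2⟩ := la_of_LocKz hD hl hz hQ hb w hw h
  refine li_of_one hD hl hQ w hw ha ?_
  set G : w.adicCompletion F := h' ^ 2 * algebraMap F (w.adicCompletion F) k with hG
  have hia : algebraMap F (w.adicCompletion F) a = u ^ 2 * G ^ 3 := by
    rw [hak, map_mul, map_pow, map_pow, hbu, hG]
    ring
  have hva : Valued.v (algebraMap F (w.adicCompletion F) a) = (1 : WithZero (Multiplicative ℤ)) := by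
    rw [h1_val]
    exact ha.2 w hw
  have hvG : Valued.v G = (1 : WithZero (Multiplicative ℤ)) := by
    rw [hia, map_mul, map_pow, map_pow, hu1, one_pow, one_mul] at hva
    exact (pow_eq_one_iff.mp hva).resolve_right three_ne_zero
  have h24 := v_eightU hD hl hQ w hw hvG
  rw [← h1_val w, map_sub, map_pow, map_one, ov_val hD hQ hl w hw, hia]
  have e2 : (WithZero.exp (-1 : ℤ) : WithZero (Multiplicative ℤ)) ^ 2 = WithZero.exp (-2 : ℤ) := by
    rw [← WithZero.exp_nsmul]
    norm_num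
  have e3 : (WithZero.exp (-3 : ℤ) : WithZero (Multiplicative ℤ)) ≤ WithZero.exp (-2 : ℤ) := by
    rw [WithZero.exp_le_exp]
    norm_num
  rw [e2]
  have e : (u ^ 2 * G ^ 3) ^ 8 - 1 = u ^ 16 * (G ^ 24 - 1) + (u ^ 8 - 1) * (u ^ 8 + 1) := by ring
  rw [e]
  refine Valuation.map_add_le _ ?_ ?_
  · rw [map_mul, map_pow, hu1, one_pow, one_mul]
    exact le_trans h24 e3
  · rw [map_mul]
    refine le_trans (mul_le_of_le_one_right' ?_) hu2
    refine Valuation.map_add_le _ ?_ ?_
    · rw [map_pow, hu1, one_pow]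
    · rw [map_one]

omit hz in
/-- the values of `T8 u - 1` and `y U7 u` at `λ` -/
theorem K0zB_val {a : F} {u y : KK} (ha : N1 τ a) (hP : PL Li r a)
    (huy : a = algebraMap KK F u + algebraMap KK F y * r)
    (v : HeightOneSpectrum (𝓞 KK)) (hv : v.asIdeal = Ideal.span {eE la}) :
    v.valuation KK (T8 u - 1) ≤ WithZero.exp (-2 : ℤ) ∧ v.valuation KK (y * U7 u) ≤ WithZero.exp (-2 : ℤ) := by
  obtain ⟨w, hw⟩ := exists_ov hD hQ
  have a1 : w.valuation F a = 1 := ha.2 w hw
  have h2 : w.valuation F (2 : F) = 1 := by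
    have h3 : (2 : F) = jF F 2 := by rw [map_ofNat]
    rw [h3]
    refine le_antisymm (q3a_le w (int_jF F 2)) (not_lt.1 fun h4 => ?_)
    have h5 := (ov_mem w hw 2).1 h4
    rw [CU.la_dvd_iff] at h5
    revert h5
    decide
  have hr := (ov_D hl hQ w hw).2
  have hτ : τ a = algebraMap KK F u - algebraMap KK F y * r := by
    rw [huy, map_add, map_mul, τ.commutes, τ.commutes, hQ.tau]
    ring
  have hn : algebraMap KK F u ^ 2 - algebraMap KK F y ^ 2 * jF F D = 1 := by
    have h1 := congrArg (algebraMap KK F) (lam_norm hQ ha.1 huy)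
    rw [map_sub, map_pow, map_mul, map_pow, map_one, ← jF_apply] at h1
    exact h1
  have hp := (pow8 hQ.sq hn).1
  have hp' := (pow8 (u := algebraMap KK F u) (y := -algebraMap KK F y) hQ.sq (by rw [neg_sq]; exact hn)).1
  rw [← huy] at hp
  have hp2 : τ a ^ 8 = T8 (algebraMap KK F u) - algebraMap KK F y * U7 (algebraMap KK F u) * r := by
    rw [hτ]
    have e1 : algebraMap KK F u - algebraMap KK F y * r = algebraMap KK F u + -algebraMap KK F y * r := by ring
    rw [e1, hp']
    ring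
  have hla : w.valuation F (jF F la) ^ 2 = WithZero.exp (-2 : ℤ) := by
    rw [ov_val hD hQ hl w hw, ← WithZero.exp_nsmul]
    norm_num
  have b1 := one_of_li hD hl hQ w hw ha hP
  rw [hla] at b1
  have a8 : a ^ 8 * τ a ^ 8 = 1 := by rw [← mul_pow, ha.1, one_pow]
  have b2 : w.valuation F (τ a ^ 8 - 1) ≤ WithZero.exp (-2 : ℤ) := by
    have e1 : a ^ 8 * (τ a ^ 8 - 1) = -(a ^ 8 - 1) := by
      rw [mul_sub, a8]
      ring
    have e2 : w.valuation F (τ a ^ 8 - 1) = w.valuation F (a ^ 8 - 1) := by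
      have e3 := congrArg (w.valuation F) e1
      rw [map_mul, map_pow, a1, one_pow, one_mul, Valuation.map_neg] at e3
      exact e3
    rw [e2]
    exact b1
  have hT : w.valuation F (T8 (algebraMap KK F u) - 1) ≤ WithZero.exp (-2 : ℤ) := by
    have e : (2 : F) * (T8 (algebraMap KK F u) - 1) = (a ^ 8 - 1) + (τ a ^ 8 - 1) := by
      rw [hp, hp2]
      ring
    have h5 : w.valuation F ((2 : F) * (T8 (algebraMap KK F u) - 1)) ≤ WithZero.exp (-2 : ℤ) := by
      rw [e]
      exact Valuation.map_add_le _ b1 b2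
    rwa [map_mul, h2, one_mul] at h5
  have hU : w.valuation F (algebraMap KK F y * U7 (algebraMap KK F u)) ≤ WithZero.exp (-2 : ℤ) := by
    have e : (2 : F) * (algebraMap KK F y * U7 (algebraMap KK F u)) * r = (a ^ 8 - 1) - (τ a ^ 8 - 1) := by
      rw [hp, hp2]
      ring
    have h5 : w.valuation F ((2 : F) * (algebraMap KK F y * U7 (algebraMap KK F u)) * r) ≤
        WithZero.exp (-2 : ℤ) := by
      rw [e]
      exact Valuation.map_sub_le _ b1 b2
    rwa [map_mul, map_mul, h2, hr, one_mul, mul_one] at h5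
  obtain ⟨v', φ, hB⟩ := exists_Below w
  have hv' := l0b_ideal hB hw
  have hvv : v' = v := HeightOneSpectrum.ext (hv'.trans hv.symm)
  subst hvv
  have key : ∀ x : KK, v'.valuation KK x = w.valuation F (algebraMap KK F x) := by
    intro x
    have h5 := below_val hB hw hD hl hQ (algebraMap KK (v'.adicCompletion KK) x)
    rw [hB.comm] at h5
    rw [← HeightOneSpectrum.valuedAdicCompletion_eq_valuation' w,
      ← HeightOneSpectrum.valuedAdicCompletion_eq_valuation' v']
    exact h5.symm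
  refine ⟨?_, ?_⟩
  · rw [key, map_sub, map_one, e6_T8]
    exact hT
  · rw [key, map_mul, e6_U7]
    exact hU

omit hD hl hQ in
/-- the local solution for an element close to `1` -/
theorem K0zB_core (v : HeightOneSpectrum (𝓞 KK)) (hv : v.asIdeal = Ideal.span {eE la})
    {M : Type} [Field M] [Algebra (v.adicCompletion KK) M] {ρ : M}
    (hρ : ρ ^ 2 = algebraMap (v.adicCompletion KK) M (algebraMap KK (v.adicCompletion KK) (jK D)))
    {u₁ y₁ : v.adicCompletion KK} (hu : Valued.v (u₁ - 1) ≤ WithZero.exp (-2 : ℤ))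
    (hy : Valued.v y₁ ≤ WithZero.exp (-2 : ℤ))
    (hnorm : u₁ ^ 2 - y₁ ^ 2 * algebraMap KK (v.adicCompletion KK) (jK D) = 1) :
    LocSol (algebraMap KK (v.adicCompletion KK) (jK D)) ρ
      (algebraMap (v.adicCompletion KK) M u₁ + algebraMap (v.adicCompletion KK) M y₁ * ρ) := by
  have hL := e7a_loc hv
  set V : Valuation (v.adicCompletion KK) (WithZero (Multiplicative ℤ)) := Valued.v with hV
  set i := algebraMap KK (v.adicCompletion KK) with hi
  have hε : V (i (jK (-om ^ 2)) + 1) < 1 := by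
    have h1 : i (jK (-om ^ 2)) + 1 = i (jK (-om ^ 2 + 1)) := by
      rw [map_add, map_add, map_one, map_one]
    rw [h1]
    have h2 : la ^ 1 ∣ (-om ^ 2 + 1 : Eis) := by
      refine ⟨1 + om, ?_⟩
      rw [pow_one]
      show (-om ^ 2 + 1 : Eis) = (1 - om) * (1 + om)
      ring
    have h3 := (e7a_le hv 1 _).2 h2
    exact lt_of_le_of_lt h3 l0b_lt
  obtain ⟨η, hη, h3, hn⟩ := hz
  have hd : V (i (jK D) - i (jK η)) ≤ WithZero.exp (-2 : ℤ) := by
    rw [← map_sub, ← map_sub]
    refine (e7a_le hv 2 _).2 (dvd_trans ?_ h3)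
    rw [CU.three_eq]
    exact dvd_mul_left _ _
  have hd' : ¬ V (i (jK D) - i (jK η) - i (jK la) ^ 2) ≤ WithZero.exp (-3 : ℤ) := by
    rw [← map_sub, ← map_sub, ← map_pow, ← map_pow, ← map_sub, ← map_sub]
    exact fun h => hn ((e7a_le hv 3 _).1 h)
  rcases hη with rfl | rfl
  · rw [map_one, map_one] at hd hd'
    have hd1 : V (i (jK D) - 1) < 1 := l1_of_le (by norm_num) hd
    obtain ⟨z, hz, -⟩ := sqrt_one v (l1_two hL) hd1
    obtain ⟨s, hs, -, hρs⟩ := e7a_root hρ hz
    have hVs : V s = 1 := by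
      have h5 : V (i (jK D)) = 1 := l1_one_of (map_one V) hd1
      rw [← hs, map_pow] at h5
      exact (pow_eq_one_iff.1 h5).resolve_right (by norm_num)
    have ha : V (u₁ + y₁ * s - 1) ≤ WithZero.exp (-2 : ℤ) := by
      have h5 : u₁ + y₁ * s - 1 = (u₁ - 1) + y₁ * s := by ring
      rw [h5]
      refine V.map_add_le hu ?_
      rw [map_mul, hVs, mul_one]
      exact hy
    have h6 := e7a_rat hρs (sol_plus v hL hε hs hd hd' ha)
    rw [map_add, map_mul, ← hρs] at h6
    exact h6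
  · rw [map_neg, map_neg, map_one, map_one, sub_neg_eq_add] at hd hd'
    by_cases hy3 : V y₁ ≤ WithZero.exp (-3 : ℤ)
    · exact locSol_of_sol3 hρ hnorm (sol_la v hL hε (l1_of_le (by norm_num) hd)
        (l1_of_le (by norm_num) hu) hy3 hnorm)
    · have hy2 : V y₁ = WithZero.exp (-2 : ℤ) := by
        refine le_antisymm hy ?_
        by_contra hcon
        exact hy3 (l1_lt (not_le.1 hcon))
      exact sol_minus v hL hε hd hd' hu hy2 hnorm hρ

/-- [K0zB] -/
theorem conv_z : Conv D r τ (PL Li r) := by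
  intro a u y ha hP huy v hv M _ _ ρ hρ
  obtain ⟨h1, h2⟩ := K0zB_val hD hl hQ ha hP huy v hv
  set i := algebraMap KK (v.adicCompletion KK) with hi
  set φ := algebraMap (v.adicCompletion KK) M with hφ
  have hval : ∀ x : KK, Valued.v (i x) = v.valuation KK x := fun x =>
    HeightOneSpectrum.valuedAdicCompletion_eq_valuation' v x
  have hnorm : i u ^ 2 - i y ^ 2 * i (jK D) = 1 := by
    have := congrArg i (lam_norm hQ ha.1 huy)
    simpa only [map_sub, map_mul, map_pow, map_one] using this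
  have hnorm' : i u ^ 2 - (-(i y)) ^ 2 * i (jK D) = 1 := by
    rw [neg_sq]
    exact hnorm
  obtain ⟨h8, hn8⟩ := e3x_pow8 φ hρ hnorm'
  have hT : T8 (i u) = i (T8 u) := e7x_T8 i u
  have hU : U7 (i u) = i (U7 u) := e7x_U7 i u
  have hcore := K0zB_core (D := D) hz v hv hρ (u₁ := T8 (i u)) (y₁ := -(i y) * U7 (i u)) (by
    have e : T8 (i u) - 1 = i (T8 u - 1) := by rw [hT, map_sub, map_one]
    rw [e, hval]
    exact h1) (by
    have e : -(i y) * U7 (i u) = -(i (y * U7 u)) := by rw [hU, map_mul, neg_mul]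
    rw [e, Valuation.map_neg, hval]
    exact h2) hn8
  set A : M := φ (i u) + φ (i y) * ρ with hA
  set A' : M := φ (i u) + φ (-(i y)) * ρ with hA'
  have hAA : A * A' = 1 := by
    have e := congrArg φ hnorm
    rw [map_sub, map_mul, map_pow, map_pow, map_one, ← hρ] at e
    rw [hA, hA', map_neg, ← e]
    ring
  have hA0 : A ≠ 0 := left_ne_zero_of_mul_eq_one hAA
  have hmem : A ^ 3 ∈ IntermediateField.adjoin (v.adicCompletion KK) {ρ} := by
    have hρm : ρ ∈ IntermediateField.adjoin (v.adicCompletion KK) {ρ} :=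
      IntermediateField.mem_adjoin_simple_self _ ρ
    exact pow_mem (add_mem (algebraMap_mem _ _) (mul_mem (algebraMap_mem _ _) hρm)) 3
  have hfin := locSol_mul hρ hcore hmem (pow_ne_zero 3 hA0)
  rw [← h8] at hfin
  have e : A' ^ 8 * (A ^ 3) ^ 3 = A := by
    have e1 : A' ^ 8 * (A ^ 3) ^ 3 = (A * A') ^ 8 * A := by ring
    rw [e1, hAA, one_pow, one_mul]
  rw [e] at hfin
  exact hfin

end

end JG
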