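import Pool.Agent.JG.KR
import Pool.Agent.JG.K0y
import Pool.Agent.JXD.F2

/-!
# [JG-K1] `λ` divides `D` exactly once: the line generated by the point `(1, √(1 + D))`

`Y0 D` is a square root of `1 + D` modulo `λ⁴`. `gE D r = (Y0 - √D)/(Y0 + √D)`. `Pg`: `b² ≡ gE^j c³ mod λ³` for an integer `j` and a `c` of norm one.

PROOF. `Y0_sq` [K1a]: `(Y0 D)² - 1 - D = 9 (D + 3 D² + 2 D³) + D⁴ (41 + 8 D + 16 D²)` and `9 = om^4 la^4` (`CU.three_eq`). `gE_n1` [K1a]: `τ r = -r`, `w (jF (Y0 D)) = 1` (`ov_mem`), `w r < 1` (`ovR`). `pg_mul`, `pg_inv`, `pg_cube`, `pg_one`, `pg_pow` [K1a]: valuations of `b`, `gE`, `c` are `1` at the places over `λ`.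
mul: `(a b)² - g^(i+j) (c d)³ = a² (b² - g^j d³) + (a² - g^i c³) g^j d³`. inv: `b⁻² - g^(-j) c⁻³ = -(b² - g^j c³) / (b² g^j c³)`. cube: `c = b²`, `j = 0`. one: `b^8 = 1`: `b² = b^(-6) = (b^(-2))³`, `c = b^(-2)`.
`pg_of_approx` [K1b]: `w (a - g^j c³) ≤ w (la)^3` at one place (all places over `λ` have the same valuation, `uniqR`, and `w (τ x) = w x`, `invR`). Apply `τ`: `τ a = a⁻¹`, `τ g = g⁻¹`: `w (a⁻¹ - g^(-j) (τ c)³) ≤ w (la)^3`. So `a² = a / a⁻¹ ≡ g^(2j) (c / τ c)³`: `a² - g^(2j) (c/τ c)³ = a (a - g^j c³ · ..)`; precisely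
`a² - g^(2j) (c / τ c)³ = a (a - g^j c³) + a g^j c³ - g^(2j) c³ (τ c)⁻³`, and `a g^j c³ - g^(2j) c³ (τ c)⁻³ = a g^(2j) c³ (τ c)⁻³ (g^(-j) (τ c)³ - a⁻¹)`. `c / τ c` has norm one, `w = 1`. `2 j` and `c / τ c` show `Pg`.
`psR_mul_la`, `psR_mul0` [K1c]: `E = a^8`, `E' = b^8`: `E E' - (E E')⁻¹ = (E - E⁻¹) + (E' - E'⁻¹) + (E - 1)(E' - 1)(E E' - 1) E⁻¹ E'⁻¹` (as in `ps_mul`, JG/PA.lean); `w (E - 1) ≤ exp (-1)`; if `la ∣ q` then `w (E - 1) = w (E - E⁻¹) ≤ exp (-3)` (`w (E + 1) = 1`). Always: the last term is `≤ exp (-3)`; if `la ∣ q, q'`: `≤ exp (-9)`.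
(`psR_mul0`: take `q₃` from `psR_exists` for `a b` and compare.) `psR_inv`: clear.
`psR_gE` [K1d]: `gE = (1 - e)/(1 + e)`, `e = r / Y0`, `w e = exp (-1)`: `f2_pure` (JXD/F2.lean) with `L = exp (-1)`, `-e`, `t = r`: `w (32 (-e) - r) ≤ exp (-3)`: `-(r / Y0)(32 + Y0) = -(r / Y0) (33 + (Y0 - 1))`, `w ≤ exp (-1-2)`. So `w (gE^8 - gE^-8 - r) ≤ exp (-3)`; with `q` from `psR_exists`: `w (jF (q - 1) r) ≤ exp (-3)`, `w (jF (q - 1)) < 1`, `la ∣ q - 1`.
`psR_kap` [K1d]: `κ = (1 + r)/(1 - r)`, `w r = exp (-1)`: `κ^24 - κ^-24 = ((1 + r)^48 - (1 - r)^48)/(1 - r²)^24 = 2 (48 r + 17296 r³ + r⁵ (..))/(1 - D)^24`; `w (48 r) ≤ exp (-5)`, `17296 = 3 * 5765 + 1`: so `w (κ^24 - κ^-24 - 2 D r) ≤ exp (-5)`, and `w (jF (q - 2 D) r) ≤ exp (-5)`, `w (jF (q - 2 D)) ≤ exp (-4)`, `la² ∣ q - 2 D`; `la ∣ D`, `¬ la² ∣ D`.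
`pg_of_zero` [K1e]: `w (b^8 - b^-8) ≤ w (la)^3`: `b² - (b^6)³ = b² (1 - b^16) = -b^10 (b^8 - b^-8)`: `j = 0`, `c = b^6`. `pg_rep` [K1e]: `q` for `b`; `q ≡ m mod la`, `i = -m`: `b gE^i` has `q' ≡ m + i ≡ 0 mod la` (`psR_mul0` repeated, by induction on powers: `psR_gE`); then `q' = la q''`, `q'' ≡ n mod la`; `κ³` has `q_κ = la q_κ'`, `¬ la ∣ q_κ'`,
`q_κ' ≡ n' = ± 1`; `i' = -n n'`; `b gE^i (κ³)^i'` has (`psR_mul_la`) `q' + i' q_κ ≡ 0 mod la²`. `lc_Pg` [K1e]: `adjust`: `pg_rep` for `a` and `b`: `a₁ = a gE^i κ^(3i')` with `la² t₁`, `b₁ = b gE^j κ^(3j')` with `la² t₂`, `t₁ ≡ m₁`, `t₂ ≡ m₂ mod la` (`JXD.pac_digit`). If `m₂ = 0` then `la³ ∣ la² t₂`, `Pg b₁` (`pg_of_zero`), so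
`Pg b` (`pg_mul`, `pg_inv`, `Pg gE`, `pg_cube`), contradiction. So there is `s ∈ {0, 1, 2}` with `3 ∣ m₁ + s m₂`, `a₁ b₁^s` has `la² (t₁ + s t₂)` (`psR_mul_la`), divisible by `la³`, so `Pg (a₁ b₁^s)` and `Pg (a b^s)`.
`dir_1` [K1f]: `loc_red` with `invR`. (1) `i b = t³`: `i a = (t² i k)³`, approximate `G = t² i k` (a unit) by `x ∈ F` with `Valued.v (i x * G⁻¹ - 1) ≤ w (la)^3` (`JXD.lzb_dense`), `w (a - x³) ≤ w (la)^3`, `pg_of_approx` with `j = 0`. (2) a point: over `v.adicCompletion KK`: `V d = exp (-1)`; `V x < 1` is impossible (`V y ^ 2 = exp (-1)`).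
`V x > 1`: `V x = exp n`, `n` even, `V y ≥ exp 3`, `w Y ≥ exp 6` (`below_valR`), `α = (Y - R)/(Y + R)`, `w (α - 1) = w (2 R / (Y + R)) ≤ exp (-7) ≤ w (la)^3 = exp (-6)`, `i a = α G³` with `G = X g² i k` a unit; approximate `G`: `j = 0`. `V x = 1`: `V y = 1`, `x ≡ 1 mod l` (`x ≡ -1` would give `y² ≡ -1`), `V (x³ - 1) ≤ exp (-3)` (`JD.l1_cube`),
`V (y² - Y₀²) ≤ exp (-3)` (`Y₀` the image of `jK (Y0 D)`, `Y0_sq`), `V (y - σ Y₀) ≤ exp (-3)`, `σ = ± 1`; so `w (Y - σ Y₀) ≤ exp (-6)`, `α = (Y - R)/(Y + R)`, `w (α - (i gE)^σ) ≤ exp (-7)` (`(Y - R)/(Y + R) - (Y₀ - R)/(Y₀ + R) = 2 R (Y - Y₀)/((Y + R)(Y₀ + R))`; `σ = -1`: `(Y - R)/(Y + R) = (-Y + R)/(-Y - R)`, the inverse of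
`(Z - R)/(Z + R)` for `Z = -Y`). `i a = α G³`, approximate `G`, `pg_of_approx` with `j = σ`.
`conv_1` [K1g]: `a = u + y r`, `Pg`: `j, c`. `β = a² g^(-j) c^(-3)`: norm one, `w (β - 1) ≤ w (la)^3 = exp (-6)`. `β = p + q r` (`exists_uv`, `p, q ∈ KK`), `2 q r = β - β⁻¹`, `w (q r) ≤ exp (-6)`, `w q ≤ exp (-5)`, at `v`: `Valued.v q ^ 2 ≤ exp (-5)` (`below_valR`; see the end of `lam_la` in JG/K0y.lean), so `Valued.v q ≤ exp (-3)`; `2 p = β + β⁻¹`, `Valued.v (p - 1) < 1`.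
`sol_laR`: `Sol3 p q`. The homomorphism `ψ : F → M`, `ψ (u' + y' r) = i u' + i y' ρ` (`JD.e6b_hom` in JD/E6.lean is the case `M = C`; copy its proof; or avoid `ψ`: ...). `ψ β = γ³`, `γ ∈ adjoin C {ρ}` (`cheb`, see `e3x_cube`, `locSol_of_sol3`), `ψ` has values in `adjoin C {ρ}`. So `(ψ a)² = (ψ g)^j (ψ c)³ γ³`.
`θ = y₀ - ρ`, `y₀² = 1 + d` (`sqrt_one`, JD/E3.lean), `V (y₀ - Y₀) ≤ exp (-3)` (`V (y₀² - Y₀²) ≤ exp (-4)`, `V (y₀ + Y₀) = 1`), `θ (y₀ + ρ) = 1`. `ψ g = (Y₀ - ρ)/(Y₀ + ρ)`, `ψ g / θ² = (Y₀ - ρ)(y₀ + ρ)/((Y₀ + ρ)(y₀ - ρ)) = N / N̄`, `N = (Y₀ y₀ - d) + (Y₀ - y₀) ρ`, `N̄ = (Y₀ y₀ - d) - (Y₀ - y₀) ρ`, it is `P₁ + Q₁ ρ` with `n = N N̄ = (Y₀ y₀ - d)² - (Y₀ - y₀)² d ∈ C`, `V n = 1`,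
`Q₁ = 2 (Y₀ y₀ - d)(Y₀ - y₀)/n`, `V Q₁ ≤ exp (-3)`, `P₁ = ((Y₀ y₀ - d)² + (Y₀ - y₀)² d)/n`, `V (P₁ - 1) < 1`, norm one: `sol_laR`: `ψ g = θ² · cube`. So `(ψ a)² = θ^(2j) · cube`, `ψ a = (ψ a)³ / (ψ a)² = θ^(-2j) · cube = θ^j · cube` (`θ^(-2j) = θ^j θ^(-3j)`). `j = 3 k + j₀`, `j₀ ∈ {0, 1, -1}`: `ψ a = θ^(j₀) · cube`; `j₀ = 0`: first alternative. `j₀ = 1`:
`φ y₀ - ρ = θ`, the point `(1, y₀)`; `j₀ = -1`: the point `(1, -y₀)`, `-φ y₀ - ρ = -θ⁻¹`.
-/

set_option autoImplicit false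

open NumberField IsDedekindDomain
open scoped Classical

namespace JG

open CM27 CF JZ JX JXD
open JD hiding G5b_unit G5b_val LCW_ED below_val descent det_unit disc_eq eis_cube entire_ED exists_H exists_basis exists_cj exists_den exists_int exists_kappa exists_ov exists_phiE exists_quad exists_u0 final_of finite_of_phiE finprod_neron finprod_tam finrank_KD fix_int fix_of_two g4a_exp g4a_le g4a_norm g4a_one g4a_split g4b_place g5a_norm g5a_tau g5a_three g5a_unit int_KK int_jF int_r jr_inj kk_cube m1_cube min_all n5_gen ne_of_cl not_three ov_D ov_eight ov_mem ov_trans ov_val period_ED place_cases q3a_dvd_lt q3a_la_sq q3a_le q3a_sq_lt q3b_ext q3b_int q3b_le q3b_neg q3b_pos q3b_pos_iff q3b_sq q3b_tau q3b_three q4b_crt q5_coe q5_den quot_all quot_eq s5b_not_la sha_zero step tam_la tam_one tau_jF val_prime z1_norm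
open CU (la om eE)
open CUD (IsCube)

/-- a square root of `1 + D` modulo `λ⁴` -/
def Y0 (D : Eis) : Eis := 1 + 5 * D + D ^ 2 + 4 * D ^ 3

/-- `(Y0 - √D)/(Y0 + √D)` -/
noncomputable def gE {F : Type} [Field F] [NumberField F] [Algebra KK F] (D : Eis) (r : F) : F :=
  (jF F (Y0 D) - r) / (jF F (Y0 D) + r)

/-- the subgroup generated by the class of `gE` -/
def Pg {F : Type} [Field F] [NumberField F] [Algebra KK F] (D : Eis) (r : F) (τ : F ≃ₐ[KK] F) (b : F) : Prop :=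
  ∃ (j : ℤ) (c : F), N1 τ c ∧ ∀ w : HeightOneSpectrum (𝓞 F), OvLa w →
    w.valuation F (b ^ 2 - gE D r ^ j * c ^ 3) ≤ w.valuation F (jF F la) ^ 3

section k1galg
variable {C M : Type} [Field C] [Field M] [Algebra C M]

theorem k1g_cube {d P Q : C} {ρ : M} (hr : ρ ^ 2 = algebraMap C M d) (hN : P ^ 2 - Q ^ 2 * d = 1)
    (hs : Sol3 P Q) :
    ∃ γ ∈ IntermediateField.adjoin C {ρ}, γ ^ 3 = algebraMap C M P + algebraMap C M Q * ρ := by
  obtain ⟨a, b, h1, h2, h3⟩ := hs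
  refine ⟨algebraMap C M a + algebraMap C M b * ρ, ?_, ?_⟩
  · have hr' : ρ ∈ IntermediateField.adjoin C {ρ} := IntermediateField.mem_adjoin_simple_self C ρ
    exact add_mem (algebraMap_mem _ a) (mul_mem (algebraMap_mem _ b) hr')
  · refine cheb hr ?_ ?_ ?_ ?_
    · rw [← h1]
      simp only [map_sub, map_mul, map_pow, map_ofNat]
    · rw [← h2]
      simp only [map_sub, map_mul, map_pow, map_ofNat, map_one]
    · have := congrArg (algebraMap C M) hN
      simpa only [map_sub, map_mul, map_pow, map_one] using this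
    · have := (map_ne_zero (algebraMap C M)).2 h3
      simpa only [map_sub, map_mul, map_pow, map_ofNat, map_one] using this

theorem k1g_fld {z Y d r n : M} (hr : r ^ 2 = d) (hz : z ^ 2 = 1 + d)
    (hn : n = (Y * z - d) ^ 2 - (Y - z) ^ 2 * d) (hn0 : n ≠ 0) :
    (Y - r) / (Y + r) = (z - r) ^ 2 * (((Y * z - d) ^ 2 + (Y - z) ^ 2 * d) / n +
      2 * (Y * z - d) * (Y - z) / n * r) := by
  have e1 : n = (Y - r) * (z + r) * ((Y + r) * (z - r)) := by
    rw [hn, ← hr]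
    ring
  have e2 : ((Y * z - d) ^ 2 + (Y - z) ^ 2 * d) + 2 * (Y * z - d) * (Y - z) * r =
      ((Y - r) * (z + r)) ^ 2 := by
    rw [← hr]
    ring
  have e3 : (z - r) * (z + r) = 1 := by
    linear_combination hz - hr
  have hY : Y + r ≠ 0 := by
    intro h
    apply hn0
    rw [e1, h]
    ring
  rw [div_eq_iff hY]
  have e4 : ((Y * z - d) ^ 2 + (Y - z) ^ 2 * d) / n + 2 * (Y * z - d) * (Y - z) / n * r =
      ((Y - r) * (z + r)) ^ 2 / n := by
    rw [← e2]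
    ring
  rw [e4, ← mul_div_assoc, div_mul_eq_mul_div, eq_div_iff hn0, e1]
  linear_combination ((Y - r) ^ 2 * (z + r) * (Y + r) * (z - r)) * (-e3)

theorem k1g_rat {d y₀ Y₀ n : C} {ρ : M} (hr : ρ ^ 2 = algebraMap C M d) (hy : y₀ ^ 2 = 1 + d)
    (hn : n = (Y₀ * y₀ - d) ^ 2 - (Y₀ - y₀) ^ 2 * d) (hn0 : n ≠ 0) :
    (algebraMap C M Y₀ - ρ) / (algebraMap C M Y₀ + ρ) = (algebraMap C M y₀ - ρ) ^ 2 *
      (algebraMap C M (((Y₀ * y₀ - d) ^ 2 + (Y₀ - y₀) ^ 2 * d) / n) +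
       algebraMap C M (2 * (Y₀ * y₀ - d) * (Y₀ - y₀) / n) * ρ) := by
  have h := k1g_fld (M := M) (z := algebraMap C M y₀) (Y := algebraMap C M Y₀)
    (n := algebraMap C M n) hr (by rw [← map_pow, hy, map_add, map_one])
    (by rw [hn]; simp only [map_sub, map_mul, map_pow]) ((map_ne_zero _).2 hn0)
  rw [h]
  simp only [map_div₀, map_add, map_sub, map_mul, map_pow, map_ofNat]

theorem k1g_eta {α t κ : M} (h : α ^ 2 = t ^ 2 * κ ^ 3) (ht : t ≠ 0) (hκ : κ ≠ 0) :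
    α = t * (α / (κ * t)) ^ 3 := by
  rw [div_pow, ← mul_div_assoc, eq_div_iff (pow_ne_zero _ (mul_ne_zero hκ ht))]
  linear_combination (-(α * t)) * h

theorem k1g_end {d y₀ : C} {ρ α η : M} (hr : ρ ^ 2 = algebraMap C M d) (hy : y₀ ^ 2 = 1 + d)
    (hη : η ∈ IntermediateField.adjoin C {ρ}) (hη0 : η ≠ 0) (j : ℤ)
    (h : α = (algebraMap C M y₀ - ρ) ^ j * η ^ 3) : LocSol d ρ α := by
  obtain ⟨θ, hθ⟩ : ∃ θ : M, θ = algebraMap C M y₀ - ρ := ⟨_, rfl⟩
  have hr' : ρ ∈ IntermediateField.adjoin C {ρ} := IntermediateField.mem_adjoin_simple_self C ρ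
  have hθm : θ ∈ IntermediateField.adjoin C {ρ} := by
    rw [hθ]
    exact sub_mem (algebraMap_mem _ _) hr'
  have e3 : θ * (algebraMap C M y₀ + ρ) = 1 := by
    have h1 := congrArg (algebraMap C M) hy
    rw [map_pow, map_add, map_one] at h1
    rw [hθ]
    linear_combination h1 - hr
  have hθ0 : θ ≠ 0 := left_ne_zero_of_mul_eq_one e3
  rw [← hθ] at h
  obtain ⟨k, j₀, hj, hj₀⟩ : ∃ k j₀ : ℤ, j = 3 * k + j₀ ∧ (j₀ = 0 ∨ j₀ = 1 ∨ j₀ = -1) := by
    rcases (by omega : j % 3 = 0 ∨ j % 3 = 1 ∨ j % 3 = 2) with h1 | h1 | h1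
    · exact ⟨j / 3, 0, by omega, Or.inl rfl⟩
    · exact ⟨j / 3, 1, by omega, Or.inr (Or.inl rfl)⟩
    · exact ⟨j / 3 + 1, -1, by omega, Or.inr (Or.inr rfl)⟩
  obtain ⟨η', hη'⟩ : ∃ η' : M, η' = θ ^ k * η := ⟨_, rfl⟩
  have hm : η' ∈ IntermediateField.adjoin C {ρ} := by
    rw [hη']
    exact mul_mem (zpow_mem hθm k) hη
  have h0 : η' ≠ 0 := by
    rw [hη']
    exact mul_ne_zero (zpow_ne_zero _ hθ0) hη0
  have hα : α = θ ^ j₀ * η' ^ 3 := by
    rw [h, hj, hη', zpow_add₀ hθ0, mul_pow, ← zpow_natCast (θ ^ k) 3, ← zpow_mul]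
    have : k * ((3 : ℕ) : ℤ) = 3 * k := by push_cast; ring
    rw [this]
    ring
  rcases hj₀ with rfl | rfl | rfl
  · left
    exact ⟨η', hm, by rw [hα, zpow_zero, one_mul]⟩
  · right
    refine ⟨1, y₀, η'⁻¹, inv_mem hm, inv_ne_zero h0, by rw [hy, one_pow], ?_, ?_⟩
    · rw [← hθ]; exact hθ0
    · rw [← hθ, hα, zpow_one, inv_pow, mul_assoc, mul_inv_cancel₀ (pow_ne_zero 3 h0), mul_one]
  · right
    have e5 : algebraMap C M (-y₀) - ρ = -θ⁻¹ := by
      rw [eq_comm, map_neg]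
      have : θ⁻¹ = algebraMap C M y₀ + ρ := inv_eq_of_mul_eq_one_right e3
      rw [this]
      ring
    refine ⟨1, -y₀, -η'⁻¹, neg_mem (inv_mem hm), neg_ne_zero.2 (inv_ne_zero h0),
      by rw [neg_sq, hy, one_pow], ?_, ?_⟩
    · rw [e5]
      exact neg_ne_zero.2 (inv_ne_zero hθ0)
    · rw [e5, hα, zpow_neg_one]
      have : (-η'⁻¹) ^ 3 = -(η' ^ 3)⁻¹ := by
        rw [← inv_pow]; ring
      rw [this]
      have h3 : η' ^ 3 * (η' ^ 3)⁻¹ = 1 := mul_inv_cancel₀ (pow_ne_zero 3 h0)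
      linear_combination (θ⁻¹) * h3

end k1galg

section k1gval
open WithZero

/-- the square root of `1 + d`, and the comparison with an approximate one -/
theorem k1g_theta (v : HeightOneSpectrum (𝓞 KK)) {l ε d Y₀ : v.adicCompletion KK}
    (hL : Loc3 (Valued.v : Valuation (v.adicCompletion KK) (WithZero (Multiplicative ℤ))) l ε)
    (hd : Valued.v d = (WithZero.exp (-1 : ℤ) : WithZero (Multiplicative ℤ)))
    (hY : Valued.v (Y₀ ^ 2 - 1 - d) ≤ (WithZero.exp (-4 : ℤ) : WithZero (Multiplicative ℤ)))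
    (hY1 : Valued.v (Y₀ - 1) < (1 : WithZero (Multiplicative ℤ))) :
    ∃ y₀ P Q : v.adicCompletion KK, y₀ ^ 2 = 1 + d ∧ P ^ 2 - Q ^ 2 * d = 1 ∧ Sol3 P Q ∧
      ∀ (M : Type) [Field M] [Algebra (v.adicCompletion KK) M] (ρ : M),
        ρ ^ 2 = algebraMap (v.adicCompletion KK) M d →
        (algebraMap (v.adicCompletion KK) M Y₀ - ρ) / (algebraMap (v.adicCompletion KK) M Y₀ + ρ) =
          (algebraMap (v.adicCompletion KK) M y₀ - ρ) ^ 2 *
          (algebraMap (v.adicCompletion KK) M P + algebraMap (v.adicCompletion KK) M Q * ρ) := by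
  set V : Valuation (v.adicCompletion KK) (WithZero (Multiplicative ℤ)) := Valued.v with hV
  have h2 : V 2 = 1 := l1_two hL
  have h1 : V 1 = 1 := map_one V
  have hd1 : V d < 1 := by
    rw [hd]
    exact l0b_lt
  obtain ⟨y₀, hy, hy1⟩ := sqrt_one v h2 (x := 1 + d) (by
    have : 1 + d - 1 = d := by ring
    rw [this]
    exact hd1)
  have hy1' : V (y₀ - 1) < 1 := hy1
  have hsum : V (y₀ + Y₀) = 1 := by
    have e : y₀ + Y₀ = 2 + ((y₀ - 1) + (Y₀ - 1)) := by ring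
    have h3 : V ((y₀ - 1) + (Y₀ - 1)) < 1 := V.map_add_lt hy1' hY1
    rw [e, Valuation.map_add_eq_of_lt_left V (by rw [h2]; exact h3), h2]
  have hdiff : V (Y₀ - y₀) ≤ exp (-4 : ℤ) := by
    have e : (Y₀ - y₀) * (y₀ + Y₀) = Y₀ ^ 2 - 1 - d := by linear_combination -hy
    have h3 : V ((Y₀ - y₀) * (y₀ + Y₀)) ≤ exp (-4 : ℤ) := by rw [e]; exact hY
    rwa [map_mul, hsum, mul_one] at h3
  have hdiff1 : V (Y₀ - y₀) < 1 := l1_of_le (by norm_num) hdiff
  have hVy : V y₀ = 1 := l1_one_of h1 hy1'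
  have hVY : V Y₀ = 1 := l1_one_of h1 hY1
  have hA : V (Y₀ * y₀ - d - 1) < 1 := by
    have e : Y₀ * y₀ - d - 1 = (Y₀ - 1) * y₀ + (y₀ - 1) - d := by ring
    rw [e]
    refine Valuation.map_sub_lt V (V.map_add_lt ?_ hy1') hd1
    rw [map_mul, hVy, mul_one]
    exact hY1
  have hVA : V (Y₀ * y₀ - d) = 1 := l1_one_of h1 hA
  obtain ⟨n, hn⟩ : ∃ n, n = (Y₀ * y₀ - d) ^ 2 - (Y₀ - y₀) ^ 2 * d := ⟨_, rfl⟩
  have hsm : V ((Y₀ - y₀) ^ 2 * d) < 1 := by
    rw [map_mul, map_pow]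
    calc V (Y₀ - y₀) ^ 2 * V d ≤ 1 * V d := mul_le_mul' (pow_le_one' hdiff1.le 2) le_rfl
      _ < 1 := by rw [one_mul]; exact hd1
  have hVn : V n = 1 := by
    rw [hn, Valuation.map_sub_eq_of_lt_left V (by rw [map_pow, hVA, one_pow]; exact hsm), map_pow,
      hVA, one_pow]
  have hn0 : n ≠ 0 := by
    intro h0
    rw [h0, map_zero] at hVn
    exact zero_ne_one hVn
  obtain ⟨P, hP⟩ : ∃ P, P = ((Y₀ * y₀ - d) ^ 2 + (Y₀ - y₀) ^ 2 * d) / n := ⟨_, rfl⟩
  obtain ⟨Q, hQ⟩ : ∃ Q, Q = 2 * (Y₀ * y₀ - d) * (Y₀ - y₀) / n := ⟨_, rfl⟩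
  have hN : P ^ 2 - Q ^ 2 * d = 1 := by
    rw [hP, hQ, div_pow, div_pow, div_mul_eq_mul_div, ← sub_div, div_eq_one_iff_eq (pow_ne_zero 2 hn0),
      hn]
    ring
  have hP1 : V (P - 1) < 1 := by
    have e : P - 1 = 2 * ((Y₀ - y₀) ^ 2 * d) / n := by
      rw [hP, eq_div_iff hn0, sub_mul, div_mul_cancel₀ _ hn0, hn]
      ring
    rw [e, map_div₀, map_mul, h2, hVn, one_mul, div_one]
    exact hsm
  have hQ1 : V Q ≤ exp (-3 : ℤ) := by
    rw [hQ, map_div₀, map_mul, map_mul, h2, hVA, hVn, one_mul, one_mul, div_one]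
    refine hdiff.trans ?_
    rw [exp_le_exp]
    norm_num
  refine ⟨y₀, P, Q, hy, hN, sol_laR v hL hd hP1 hQ1 hN, ?_⟩
  intro M _ _ ρ hρ
  rw [hP, hQ]
  exact k1g_rat hρ hy hn hn0

end k1gval

/-- [K1a] -/
theorem Y0_sq {D : Eis} (hl : la ∣ D) : la ^ 4 ∣ Y0 D ^ 2 - 1 - D ∧ la ∣ Y0 D - 1 := by
  obtain ⟨k, hk⟩ := hl
  have h3 : (3 : Eis) = -om ^ 2 * la ^ 2 := CU.three_eq
  have h9 : (9 : Eis) = om ^ 4 * la ^ 4 := by
    have e : (9 : Eis) = 3 * 3 := by norm_num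
    rw [e, h3]
    ring
  constructor
  · refine ⟨om ^ 4 * (D + 3 * D ^ 2 + 2 * D ^ 3) + k ^ 4 * (41 + 8 * D + 16 * D ^ 2), ?_⟩
    have e1 : Y0 D ^ 2 - 1 - D = 9 * (D + 3 * D ^ 2 + 2 * D ^ 3) + D ^ 4 * (41 + 8 * D + 16 * D ^ 2) := by
      unfold Y0
      ring
    have e2 : D ^ 4 = la ^ 4 * k ^ 4 := by rw [hk, mul_pow]
    rw [e1, e2, h9]
    ring
  · refine ⟨k * (5 + D + 4 * D ^ 2), ?_⟩
    have e1 : Y0 D - 1 = D * (5 + D + 4 * D ^ 2) := by
      unfold Y0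
      ring
    rw [e1]
    nth_rewrite 1 [hk]
    ring

/-- [K1f] the points over the completion of `KK` -/
theorem k1f_pt {C : Type} [Field C] {V : Valuation C (WithZero (Multiplicative ℤ))} {l ε : C} (hL : Loc3 V l ε) {d Y x y : C}
    (hd : V d = WithZero.exp (-1 : ℤ)) (hY : V (Y ^ 2 - 1 - d) ≤ WithZero.exp (-4 : ℤ)) (hY1 : V (Y - 1) < 1)
    (he : y ^ 2 = x ^ 3 + d) : WithZero.exp (3 : ℤ) ≤ V y ∨
      (V y = 1 ∧ ∃ s : C, (s = 1 ∨ s = -1) ∧ V (y - s * Y) ≤ WithZero.exp (-3 : ℤ)) := by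
  have hpar : ∀ (z : C) (n : ℤ), V (z ^ 2) = WithZero.exp n → ∃ m : ℤ, V z = WithZero.exp m ∧ 2 * m = n := by
    intro z n h
    have h0 : V z ≠ 0 := by
      intro h0
      rw [map_pow, h0, zero_pow two_ne_zero] at h
      exact WithZero.exp_ne_zero h.symm
    refine ⟨WithZero.log (V z), (WithZero.exp_log h0).symm, ?_⟩
    rw [map_pow, ← WithZero.exp_log h0, ← WithZero.exp_nsmul, WithZero.exp_inj] at h
    rw [← h]
    simp
  have hVY : V Y = 1 := l1_one_of (map_one V) hY1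
  by_cases hx0 : V x ≤ 1
  · rcases lt_or_eq_of_le hx0 with hx | hx
    · -- `V x < 1`
      exfalso
      have h1 : V (x ^ 3) < V d := by
        rw [map_pow, hd]
        calc V x ^ 3 ≤ WithZero.exp (-1 : ℤ) ^ 3 := pow_le_pow_left₀ zero_le (l1_lt1 hx) 3
          _ = WithZero.exp (-3 : ℤ) := by rw [← WithZero.exp_nsmul]; norm_num
          _ < _ := by rw [WithZero.exp_lt_exp]; norm_num
      have h2 : V (y ^ 2) = WithZero.exp (-1 : ℤ) := by
        rw [he, Valuation.map_add_eq_of_lt_right _ h1, hd]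
      obtain ⟨m, -, hm⟩ := hpar y _ h2
      omega
    · -- `V x = 1`
      right
      have hd1 : V d < 1 := by
        rw [hd, ← WithZero.exp_zero, WithZero.exp_lt_exp]
        norm_num
      have hy2 : V (y ^ 2) = 1 := by
        rw [he, Valuation.map_add_eq_of_lt_left _ (by rw [map_pow, hx, one_pow]; exact hd1), map_pow, hx, one_pow]
      have hy : V y = 1 := by
        rw [map_pow] at hy2
        exact (pow_eq_one_iff.1 hy2).resolve_right (by norm_num)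
      refine ⟨hy, ?_⟩
      obtain ⟨s, hs, hxs, hx3⟩ := l1_cube hL hx
      have hyy : ∃ s' : C, (s' = 1 ∨ s' = -1) ∧ V (y - s') < 1 := by
        rcases hL.res y hy.le with h1 | h1 | h1
        · exact absurd hy h1.ne
        · exact ⟨1, Or.inl rfl, h1⟩
        · exact ⟨-1, Or.inr rfl, by rw [sub_neg_eq_add]; exact h1⟩
      obtain ⟨s', hs', hys'⟩ := hyy
      have hs'2 : s' ^ 2 = 1 := by rcases hs' with rfl | rfl <;> ring
      have hVs' : V s' = 1 := l1_sgn hs'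
      have h2v : V (2 : C) = 1 := l1_two hL
      have hs1 : s = 1 := by
        rcases hs with h | h
        · exact h
        · exfalso
          have e1 : (2 : C) = -((y - s') * (y + s')) + (x ^ 3 - s) + d := by
            linear_combination he - hs'2 + h
          have h3 : V ((y - s') * (y + s')) < 1 := by
            rw [map_mul]
            exact mul_lt_one_of_lt_of_le hys' (V.map_add_le hy.le hVs'.le)
          have h4 : V (2 : C) < 1 := by
            rw [e1]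
            refine V.map_add_lt (V.map_add_lt (by rw [Valuation.map_neg]; exact h3) (l1_of_le (by norm_num) hx3)) hd1
          rw [h2v] at h4
          exact lt_irrefl _ h4
      rw [hs1] at hx3
      have h5 : V ((y - s' * Y) * (y + s' * Y)) ≤ WithZero.exp (-3 : ℤ) := by
        have e1 : (y - s' * Y) * (y + s' * Y) = (x ^ 3 - 1) - (Y ^ 2 - 1 - d) := by
          linear_combination he - Y ^ 2 * hs'2
        rw [e1]
        refine V.map_sub_le hx3 (hY.trans ?_)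
        rw [WithZero.exp_le_exp]
        norm_num
      refine ⟨s', hs', ?_⟩
      have h6 : V (y + s' * Y) = 1 := by
        have e1 : y + s' * Y = ((y - s') + s' * (Y - 1)) + 2 * s' := by ring
        have h7 : V ((y - s') + s' * (Y - 1)) < V (2 * s') := by
          rw [map_mul, h2v, hVs', mul_one]
          refine V.map_add_lt hys' ?_
          rw [map_mul, hVs', one_mul]
          exact hY1
        rw [e1, Valuation.map_add_eq_of_lt_right _ h7, map_mul, h2v, hVs', mul_one]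
      rwa [map_mul, h6, mul_one] at h5
  · left
    rw [not_le] at hx0
    have hx0' : V x ≠ 0 := (lt_trans zero_lt_one hx0).ne'
    obtain ⟨n, hn⟩ : ∃ n : ℤ, V x = WithZero.exp n := ⟨WithZero.log (V x), (WithZero.exp_log hx0').symm⟩
    have hn0 : 0 < n := by
      rw [hn, ← WithZero.exp_zero, WithZero.exp_lt_exp] at hx0
      exact hx0
    have h3 : V (x ^ 3) = WithZero.exp (3 * n) := by
      rw [map_pow, hn, ← WithZero.exp_nsmul]
      simp
    have h1 : V d < V (x ^ 3) := by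
      rw [hd, h3, WithZero.exp_lt_exp]
      omega
    have h2 : V (y ^ 2) = WithZero.exp (3 * n) := by
      rw [he, Valuation.map_add_eq_of_lt_left _ h1, h3]
    obtain ⟨m, hm, hm2⟩ := hpar y _ h2
    rw [hm, WithZero.exp_le_exp]
    omega

theorem k1a_n1one {F : Type} [Field F] [NumberField F] [Algebra KK F] {τ : F ≃ₐ[KK] F} : N1 τ (1 : F) :=
  ⟨by rw [map_one, one_mul], fun w _ => map_one _⟩

theorem k1a_n1inv {F : Type} [Field F] [NumberField F] [Algebra KK F] {τ : F ≃ₐ[KK] F} {b : F} (hb : N1 τ b) : N1 τ b⁻¹ := by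
  refine ⟨?_, fun w hw => ?_⟩
  · rw [map_inv₀, ← mul_inv, hb.1, inv_one]
  · rw [map_inv₀, hb.2 w hw, inv_one]

theorem k1a_n1pow {F : Type} [Field F] [NumberField F] [Algebra KK F] {τ : F ≃ₐ[KK] F} {b : F} (hb : N1 τ b) (n : ℕ) : N1 τ (b ^ n) := by
  refine ⟨?_, fun w hw => ?_⟩
  · rw [map_pow, ← mul_pow, hb.1, one_pow]
  · rw [map_pow, hb.2 w hw, one_pow]

section
variable {D : Eis} {F : Type} [Field F] [NumberField F] [Algebra KK F] {r : F} {τ : F ≃ₐ[KK] F}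
  (hD : D ≠ 0) (hl : la ∣ D) (hl2 : ¬ la ^ 2 ∣ D) (hQ : Quad D r τ)
include hD hl hl2 hQ

theorem k1a_val {w : HeightOneSpectrum (𝓞 F)} (hw : OvLa w) :
    w.valuation F (jF F (Y0 D) + r) = 1 ∧ w.valuation F (jF F (Y0 D) - r) = 1 := by
  have h1 : w.valuation F (jF F (Y0 D)) = 1 := ov_one w hw (Y0_sq hl).2
  have h2 : w.valuation F r < 1 := by
    rw [(ovR hD hl hl2 hQ w hw).2, ← WithZero.exp_zero, WithZero.exp_lt_exp]
    norm_num
  constructor
  · rw [Valuation.map_add_eq_of_lt_left _ (by rw [h1]; exact h2), h1]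
  · rw [Valuation.map_sub_eq_of_lt_left _ (by rw [h1]; exact h2), h1]

/-- [K1a] -/
theorem gE_n1 : N1 τ (gE D r) := by
  refine ⟨?_, fun w hw => ?_⟩
  · obtain ⟨w, hw⟩ := exists_ov hD hQ
    obtain ⟨h1, h2⟩ := k1a_val hD hl hl2 hQ hw
    have h3 := paa_ne h1
    have h4 := paa_ne h2
    unfold gE
    rw [map_div₀, map_sub, map_add, tau_jF, hQ.tau, sub_neg_eq_add, ← sub_eq_add_neg]
    field_simp
  · obtain ⟨h1, h2⟩ := k1a_val hD hl hl2 hQ hw
    unfold gE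
    rw [map_div₀, h1, h2, div_one]

theorem k1a_gval {w : HeightOneSpectrum (𝓞 F)} (hw : OvLa w) (j : ℤ) : w.valuation F (gE D r ^ j) = 1 := by
  rw [map_zpow₀, (gE_n1 hD hl hl2 hQ).2 w hw, one_zpow]

/-- [K1a] -/
theorem pg_mul {a b : F} (ha : N1 τ a) (hb : N1 τ b) (h : Pg D r τ a) (h' : Pg D r τ b) : Pg D r τ (a * b) := by
  obtain ⟨i, c, hc, h1⟩ := h
  obtain ⟨j, d, hd, h2⟩ := h'
  obtain ⟨w₀, hw₀⟩ := exists_ov hD hQ
  have hg0 : gE D r ≠ 0 := paa_ne ((gE_n1 hD hl hl2 hQ).2 w₀ hw₀)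
  refine ⟨i + j, c * d, n1_mul hc hd, fun w hw => ?_⟩
  have e : (a * b) ^ 2 - gE D r ^ (i + j) * (c * d) ^ 3 =
      a ^ 2 * (b ^ 2 - gE D r ^ j * d ^ 3) + (a ^ 2 - gE D r ^ i * c ^ 3) * (gE D r ^ j * d ^ 3) := by
    rw [zpow_add₀ hg0]
    ring
  rw [e]
  refine Valuation.map_add_le _ ?_ ?_
  · rw [map_mul, map_pow, ha.2 w hw, one_pow, one_mul]
    exact h2 w hw
  · rw [map_mul, map_mul, k1a_gval hD hl hl2 hQ hw, map_pow _ d, hd.2 w hw, one_pow, mul_one, mul_one]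
    exact h1 w hw

/-- [K1a] -/
theorem pg_inv {a : F} (ha : N1 τ a) (h : Pg D r τ a) : Pg D r τ a⁻¹ := by
  obtain ⟨i, c, hc, h1⟩ := h
  refine ⟨-i, c⁻¹, k1a_n1inv hc, fun w hw => ?_⟩
  have hg0 : gE D r ≠ 0 := paa_ne ((gE_n1 hD hl hl2 hQ).2 w hw)
  have ha0 : a ≠ 0 := paa_ne (ha.2 w hw)
  have hc0 : c ≠ 0 := paa_ne (hc.2 w hw)
  have hgi : gE D r ^ i ≠ 0 := zpow_ne_zero i hg0
  have e : a⁻¹ ^ 2 - gE D r ^ (-i) * c⁻¹ ^ 3 =
      -((a ^ 2 - gE D r ^ i * c ^ 3) * ((a ^ 2)⁻¹ * (gE D r ^ i)⁻¹ * (c ^ 3)⁻¹)) := by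
    rw [zpow_neg]
    generalize gE D r ^ i = g at *
    field_simp
    ring
  rw [e, Valuation.map_neg, map_mul, map_mul, map_mul, map_inv₀, map_inv₀, map_inv₀, k1a_gval hD hl hl2 hQ hw, map_pow _ a 2,
    map_pow _ c 3, ha.2 w hw, hc.2 w hw, one_pow, one_pow, inv_one, mul_one, mul_one, mul_one]
  exact h1 w hw

omit hD hl hl2 hQ in
/-- [K1a] -/
theorem k1a_cube {a : F} (ha : N1 τ a) : Pg D r τ (a ^ 3) := by
  refine ⟨0, a ^ 2, k1a_n1pow ha 2, fun w hw => ?_⟩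
  have e : (a ^ 3) ^ 2 - gE D r ^ (0 : ℤ) * (a ^ 2) ^ 3 = 0 := by
    rw [zpow_zero]
    ring
  rw [e, map_zero]
  exact zero_le

/-- [K1a] -/
theorem pg_cube {a : F} (ha : N1 τ a) : Pg D r τ (a ^ 3) := k1a_cube ha

theorem k1a_noti {z : F} (hz : z ^ 2 = -1) : False := by
  have hzv : ∀ w : HeightOneSpectrum (𝓞 F), OvLa w → w.valuation F z ≤ 1 := by
    intro w _
    have h1 : w.valuation F z ^ 2 = 1 := by rw [← map_pow, hz, Valuation.map_neg, map_one]
    by_contra hc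
    exact absurd h1 (one_lt_pow₀ (not_le.1 hc) two_ne_zero).ne'
  obtain ⟨s, a, c, hs, hab⟩ := exists_den hD hQ hl2 hzv
  obtain ⟨w, hw⟩ := exists_ov hD hQ
  have hr : w.valuation F r < 1 := by
    rw [(ovR hD hl hl2 hQ w hw).2, ← WithZero.exp_zero, WithZero.exp_lt_exp]
    norm_num
  have h1 : w.valuation F (jF F (s ^ 2 + a ^ 2)) < 1 := by
    have e : jF F (s ^ 2 + a ^ 2) = -(r * (jF F c * (jF F s * z + jF F a))) := by
      have e1 : jF F c * r = jF F s * z - jF F a := by rw [hab]; ring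
      have e2 : r * (jF F c * (jF F s * z + jF F a)) = (jF F s * z - jF F a) * (jF F s * z + jF F a) := by
        rw [← e1]
        ring
      rw [e2, map_add, map_pow, map_pow]
      linear_combination (jF F s) ^ 2 * hz
    rw [e, Valuation.map_neg, map_mul]
    refine mul_lt_one_of_nonneg_of_lt_one_left zero_le hr ?_
    rw [map_mul]
    refine mul_le_one' (q3a_le w (int_jF F c)) (Valuation.map_add_le _ ?_ (q3a_le w (int_jF F a)))
    rw [map_mul]
    exact mul_le_one' (q3a_le w (int_jF F s)) (hzv w hw)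
  have h2 := (ov_mem w hw _).1 h1
  obtain ⟨k, hk⟩ := hs
  obtain ⟨m, hm, b, hb⟩ := pac_digit a
  have h3 : la ∣ ((1 + m ^ 2 : ℤ) : Eis) := by
    have e : ((1 + m ^ 2 : ℤ) : Eis) = (s ^ 2 + a ^ 2) - la * (k * (s + 1) + b * (a + (m : Eis))) := by
      have e1 : s ^ 2 - 1 = la * k * (s + 1) := by rw [← hk]; ring
      have e2 : a ^ 2 - (m : Eis) ^ 2 = la * b * (a + (m : Eis)) := by
        have e3 : la * b = a - (m : Eis) := by rw [hb]; ring
        rw [e3]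
        ring
      push_cast
      linear_combination -e1 - e2
    rw [e]
    exact dvd_sub h2 (dvd_mul_right _ _)
  rw [pac_int] at h3
  rcases hm with rfl | rfl | rfl <;> norm_num at h3

/-- [K1a] -/
theorem pg_one {a : F} (h : a ^ 8 = 1) : Pg D r τ a := by
  have key : ∀ x : F, x ^ 2 = 1 → x = 1 ∨ x = -1 := fun x hx => by
    have h0 : (x - 1) * (x + 1) = 0 := by linear_combination hx
    rcases mul_eq_zero.1 h0 with h0 | h0
    · exact Or.inl (sub_eq_zero.1 h0)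
    · exact Or.inr (eq_neg_of_add_eq_zero_left h0)
  have h2 : a ^ 2 = 1 := by
    rcases key (a ^ 4) (by rw [← pow_mul]; exact h) with h1 | h1
    · rcases key (a ^ 2) (by rw [← pow_mul]; exact h1) with h2 | h2
      · exact h2
      · exact (k1a_noti hD hl hl2 hQ h2).elim
    · exact (k1a_noti hD hl hl2 hQ (z := a ^ 2) (by rw [← pow_mul]; exact h1)).elim
  refine ⟨0, 1, k1a_n1one, fun w hw => ?_⟩
  have e : a ^ 2 - gE D r ^ (0 : ℤ) * 1 ^ 3 = 0 := by
    rw [zpow_zero, h2]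
    ring
  rw [e, map_zero]
  exact zero_le

/-- [K1a] -/
theorem pg_gE : Pg D r τ (gE D r) := by
  refine ⟨2, 1, k1a_n1one, fun w hw => ?_⟩
  have e : gE D r ^ 2 - gE D r ^ (2 : ℤ) * 1 ^ 3 = 0 := by
    have e1 : gE D r ^ (2 : ℤ) = gE D r ^ 2 := zpow_ofNat _ 2
    rw [e1]
    ring
  rw [e, map_zero]
  exact zero_le

/-- [K1b] -/
theorem pg_of_approx {a c : F} (ha : N1 τ a) (w : HeightOneSpectrum (𝓞 F)) (hw : OvLa w) (hc : w.valuation F c = 1) {j : ℤ}
    (h : w.valuation F (a - gE D r ^ j * c ^ 3) ≤ w.valuation F (jF F la) ^ 3) : Pg D r τ a := by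
  have hg := gE_n1 hD hl hl2 hQ
  set g := gE D r with hgdef
  have hne : ∀ {x : F}, x * τ x = 1 → x ≠ 0 ∧ τ x = x⁻¹ := by
    intro x hx
    have hx0 : x ≠ 0 := left_ne_zero_of_mul_eq_one hx
    exact ⟨hx0, (eq_inv_of_mul_eq_one_right hx)⟩
  obtain ⟨ha0, haτ⟩ := hne ha.1
  obtain ⟨hg0, hgτ⟩ := hne hg.1
  have hc0 : c ≠ 0 := by
    intro h0
    rw [h0, map_zero] at hc
    exact zero_ne_one hc
  have hτc0 : τ c ≠ 0 := (map_ne_zero τ).2 hc0
  refine ⟨j + j, c / τ c, ⟨?_, ?_⟩, ?_⟩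
  · rw [map_div₀, tau_tau hD hQ]
    field_simp
  · intro w' hw'
    rw [map_div₀, invR hD hl hl2 hQ w' hw', uniqR hD hl hl2 hQ w w' hw hw', hc, div_one]
  · intro w' hw'
    rw [uniqR hD hl hl2 hQ w w' hw hw', uniqR hD hl hl2 hQ w w' hw hw', ← hgdef]
    set G := g ^ j with hG
    have hG0 : G ≠ 0 := zpow_ne_zero _ hg0
    have hGw : w.valuation F G = 1 := by
      rw [hG, map_zpow₀, hg.2 w hw, one_zpow]
    have e1 : τ (a - G * c ^ 3) = a⁻¹ - G⁻¹ * τ c ^ 3 := by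
      rw [map_sub, map_mul, map_pow, haτ, hG, map_zpow₀, hgτ, inv_zpow]
    have h2 : w.valuation F (a⁻¹ - G⁻¹ * τ c ^ 3) ≤ w.valuation F (jF F la) ^ 3 := by
      rw [← e1, invR hD hl hl2 hQ w hw]
      exact h
    have e2 : a ^ 2 - g ^ (j + j) * (c / τ c) ^ 3
        = a * (a - G * c ^ 3) - a * G ^ 2 * (c / τ c) ^ 3 * (a⁻¹ - G⁻¹ * τ c ^ 3) := by
      rw [zpow_add₀ hg0, ← hG]
      field_simp
      ring
    rw [e2]
    apply Valuation.map_sub_le
    · rw [map_mul, ha.2 w hw, one_mul]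
      exact h
    · have h3 : w.valuation F (τ c) = 1 := by
        rw [invR hD hl hl2 hQ w hw, hc]
      rw [map_mul, map_mul, map_mul, ha.2 w hw, map_pow, hGw, map_pow, map_div₀, hc, h3]
      simp only [one_pow, one_mul, div_one]
      exact h2

theorem k1c_one {w : HeightOneSpectrum (𝓞 F)} (hw : OvLa w) {b : F} (hb : w.valuation F b = 1) :
    w.valuation F (b ^ 8 - 1) ≤ WithZero.exp (-1 : ℤ) := paa_lt (ov_eight hD hQ w hw hb)

theorem k1c_two {w : HeightOneSpectrum (𝓞 F)} (hw : OvLa w) {b : F} (hb : w.valuation F b = 1) :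
    w.valuation F (b ^ 8 + 1) = 1 := by
  have h2 : w.valuation F (2 : F) = 1 := by
    have h3 : (2 : F) = jF F 2 := by rw [map_ofNat]
    rw [h3]
    refine le_antisymm (q3a_le w (int_jF F 2)) (not_lt.1 fun h4 => ?_)
    have h5 := (ov_mem w hw 2).1 h4
    rw [CU.la_dvd_iff] at h5
    revert h5
    decide
  have e : b ^ 8 + 1 = (b ^ 8 - 1) + 2 := by ring
  rw [e, Valuation.map_add_eq_of_lt_right _ (by rw [h2]; exact ov_eight hD hQ w hw hb), h2]

theorem k1c_sev {w : HeightOneSpectrum (𝓞 F)} (hw : OvLa w) :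
    w.valuation F (jF F la) ^ 3 * w.valuation F r = WithZero.exp (-7 : ℤ) := by
  rw [(ovR hD hl hl2 hQ w hw).1, (ovR hD hl hl2 hQ w hw).2, ← WithZero.exp_nsmul, ← WithZero.exp_add]
  rfl

theorem k1c_la {w : HeightOneSpectrum (𝓞 F)} (hw : OvLa w) {b : F} (hb : w.valuation F b = 1) {q : Eis} (h : PsR r b q) (hq : la ∣ q) :
    w.valuation F (b ^ 8 - 1) ≤ WithZero.exp (-3 : ℤ) := by
  have h1 := h w hw
  rw [k1c_sev hD hl hl2 hQ hw] at h1
  obtain ⟨k, rfl⟩ := hq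
  have h2 : w.valuation F (jF F (la * k) * r) ≤ WithZero.exp (-3 : ℤ) := by
    rw [map_mul, map_mul, map_mul, (ovR hD hl hl2 hQ w hw).1, (ovR hD hl hl2 hQ w hw).2]
    calc WithZero.exp (-2 : ℤ) * w.valuation F (jF F k) * WithZero.exp (-1 : ℤ) ≤
          WithZero.exp (-2 : ℤ) * 1 * WithZero.exp (-1 : ℤ) := by
          gcongr
          exact q3a_le w (int_jF F k)
      _ = WithZero.exp (-3 : ℤ) := by
          rw [mul_one, ← WithZero.exp_add]
          rfl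
  have h3 : w.valuation F (b ^ 8 - (b ^ 8)⁻¹) ≤ WithZero.exp (-3 : ℤ) := by
    have e : b ^ 8 - (b ^ 8)⁻¹ = (b ^ 8 - (b ^ 8)⁻¹ - jF F (la * k) * r) + jF F (la * k) * r := by ring
    rw [e]
    refine Valuation.map_add_le _ (h1.trans ?_) h2
    rw [WithZero.exp_le_exp]
    norm_num
  have hb0 : b ^ 8 ≠ 0 := pow_ne_zero 8 (paa_ne hb)
  have e : b ^ 8 * (b ^ 8 - (b ^ 8)⁻¹) = (b ^ 8 - 1) * (b ^ 8 + 1) := by
    rw [mul_sub, mul_inv_cancel₀ hb0]
    ring
  have h4 := congrArg (w.valuation F) e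
  rw [map_mul, map_mul, map_pow, hb, one_pow, one_mul, k1c_two hD hl hl2 hQ hw hb, mul_one] at h4
  rw [← h4]
  exact h3

theorem k1c_gen {w : HeightOneSpectrum (𝓞 F)} (hw : OvLa w) {a b : F} (ha : w.valuation F a = 1) (hb : w.valuation F b = 1)
    {q q' : Eis} {n : ℤ} (h : PsR r a q) (h' : PsR r b q') (h1 : w.valuation F (a ^ 8 - 1) ≤ WithZero.exp (-n))
    (h2 : w.valuation F (b ^ 8 - 1) ≤ WithZero.exp (-n)) (hn : 3 * n ≤ 7 ∨ 7 ≤ 3 * n) :
    w.valuation F ((a * b) ^ 8 - ((a * b) ^ 8)⁻¹ - jF F (q + q') * r) ≤ max (WithZero.exp (-7 : ℤ)) (WithZero.exp (-(3 * n))) := by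
  have a0 : a ^ 8 ≠ 0 := pow_ne_zero 8 (paa_ne ha)
  have b0 : b ^ 8 ≠ 0 := pow_ne_zero 8 (paa_ne hb)
  have hc : w.valuation F (a ^ 8 * b ^ 8 - 1) ≤ WithZero.exp (-n) := by
    have e : a ^ 8 * b ^ 8 - 1 = (a ^ 8 - 1) * b ^ 8 + (b ^ 8 - 1) := by ring
    rw [e]
    refine Valuation.map_add_le _ ?_ h2
    rw [map_mul, map_pow _ b, hb, one_pow, mul_one]
    exact h1
  have e : (a * b) ^ 8 - ((a * b) ^ 8)⁻¹ - jF F (q + q') * r =
      ((a ^ 8 - (a ^ 8)⁻¹ - jF F q * r) + (b ^ 8 - (b ^ 8)⁻¹ - jF F q' * r)) +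
      (a ^ 8 - 1) * (b ^ 8 - 1) * (a ^ 8 * b ^ 8 - 1) * (a ^ 8)⁻¹ * (b ^ 8)⁻¹ := by
    rw [mul_pow, map_add]
    generalize a ^ 8 = A at *
    generalize b ^ 8 = B at *
    field_simp
    ring
  have g1 := h w hw
  have g2 := h' w hw
  rw [k1c_sev hD hl hl2 hQ hw] at g1 g2
  rw [e]
  refine Valuation.map_add_le _ ((Valuation.map_add_le _ g1 g2).trans (le_max_left _ _)) (le_trans ?_ (le_max_right _ _))
  rw [map_mul, map_mul, map_mul, map_mul, map_inv₀, map_inv₀, map_pow _ a, map_pow _ b, ha, hb, one_pow, inv_one,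
    mul_one, mul_one]
  calc w.valuation F (a ^ 8 - 1) * w.valuation F (b ^ 8 - 1) * w.valuation F (a ^ 8 * b ^ 8 - 1) ≤
        WithZero.exp (-n) * WithZero.exp (-n) * WithZero.exp (-n) := by gcongr
    _ = _ := by
        rw [← WithZero.exp_add, ← WithZero.exp_add]
        congr 1
        ring

/-- [K1c] -/
theorem psR_mul_la {a b : F} (ha : N1 τ a) (hb : N1 τ b) {q q' : Eis} (h : PsR r a q) (h' : PsR r b q') (hq : la ∣ q)
    (hq' : la ∣ q') : PsR r (a * b) (q + q') := by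
  intro w hw
  have h1 := k1c_gen hD hl hl2 hQ hw (ha.2 w hw) (hb.2 w hw) (n := 3) h h' (k1c_la hD hl hl2 hQ hw (ha.2 w hw) h hq)
    (k1c_la hD hl hl2 hQ hw (hb.2 w hw) h' hq') (Or.inr (by norm_num))
  rw [k1c_sev hD hl hl2 hQ hw]
  refine h1.trans (max_le le_rfl ?_)
  rw [WithZero.exp_le_exp]
  norm_num

/-- [K1c] -/
theorem psR_mul0 {a b : F} (ha : N1 τ a) (hb : N1 τ b) {q q' : Eis} (h : PsR r a q) (h' : PsR r b q') :
    ∃ q₃ : Eis, PsR r (a * b) q₃ ∧ la ∣ q₃ - (q + q') := by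
  obtain ⟨q₃, h3⟩ := psR_exists hD hl hl2 hQ (n1_mul ha hb)
  refine ⟨q₃, h3, ?_⟩
  obtain ⟨w, hw⟩ := exists_ov hD hQ
  have h1 := k1c_gen hD hl hl2 hQ hw (ha.2 w hw) (hb.2 w hw) (n := 1) h h' (k1c_one hD hl hl2 hQ hw (ha.2 w hw))
    (k1c_one hD hl hl2 hQ hw (hb.2 w hw)) (Or.inl (by norm_num))
  have h2 := h3 w hw
  rw [k1c_sev hD hl hl2 hQ hw] at h2
  have h4 : w.valuation F (jF F (q₃ - (q + q')) * r) ≤ WithZero.exp (-3 : ℤ) := by
    have e : jF F (q₃ - (q + q')) * r = ((a * b) ^ 8 - ((a * b) ^ 8)⁻¹ - jF F (q + q') * r) -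
        ((a * b) ^ 8 - ((a * b) ^ 8)⁻¹ - jF F q₃ * r) := by
      rw [map_sub]
      ring
    rw [e]
    refine Valuation.map_sub_le _ (h1.trans (max_le ?_ ?_)) (h2.trans ?_)
    · rw [WithZero.exp_le_exp]
      norm_num
    · rw [WithZero.exp_le_exp]
      norm_num
    · rw [WithZero.exp_le_exp]
      norm_num
  rw [map_mul, (ovR hD hl hl2 hQ w hw).2] at h4
  rw [← ov_mem w hw]
  have h5 : (WithZero.exp (-3 : ℤ) : WithZero (Multiplicative ℤ)) = WithZero.exp (-2 : ℤ) * WithZero.exp (-1 : ℤ) := by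
    rw [← WithZero.exp_add]
    rfl
  rw [h5] at h4
  have h6 : w.valuation F (jF F (q₃ - (q + q'))) ≤ WithZero.exp (-2 : ℤ) :=
    le_of_mul_le_mul_right h4 (WithZero.exp_pos)
  refine lt_of_le_of_lt h6 ?_
  rw [← WithZero.exp_zero, WithZero.exp_lt_exp]
  norm_num

/-- [K1c] -/
theorem psR_inv {a : F} (ha : N1 τ a) {q : Eis} (h : PsR r a q) : PsR r a⁻¹ (-q) := by
  intro w hw
  have h1 := h w hw
  have e : a⁻¹ ^ 8 - (a⁻¹ ^ 8)⁻¹ - jF F (-q) * r = -(a ^ 8 - (a ^ 8)⁻¹ - jF F q * r) := by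
    rw [inv_pow, inv_inv, map_neg]
    ring
  rw [e, Valuation.map_neg]
  exact h1

omit hD hl hl2 hQ in
theorem k1d_exp (a b : ℤ) : (WithZero.exp a * WithZero.exp b : WithZero (Multiplicative ℤ)) = WithZero.exp (a + b) := by
  rw [← WithZero.exp_add]

omit hD hl hl2 hQ in
theorem k1d_pow (n : ℕ) (a : ℤ) : (WithZero.exp a ^ n : WithZero (Multiplicative ℤ)) = WithZero.exp (n * a) := by
  rw [← WithZero.exp_nsmul, nsmul_eq_mul]

omit hD hl hl2 hQ in
theorem k1d_le {a b : ℤ} (h : a ≤ b) : (WithZero.exp a : WithZero (Multiplicative ℤ)) ≤ WithZero.exp b := by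
  rwa [WithZero.exp_le_exp]

omit hD hl hl2 hQ in
theorem k1d_lt {a b : ℤ} (h : a < b) : (WithZero.exp a : WithZero (Multiplicative ℤ)) < WithZero.exp b := by
  rwa [WithZero.exp_lt_exp]

omit hD hl hl2 hQ in
theorem k1d_lt1 {a : ℤ} (h : a < 0) : (WithZero.exp a : WithZero (Multiplicative ℤ)) < 1 := by
  rw [← WithZero.exp_zero]
  exact k1d_lt h

/-- `w 3` -/
theorem k1d_three (w : HeightOneSpectrum (𝓞 F)) (hw : OvLa w) : w.valuation F (3 : F) ≤ WithZero.exp (-4 : ℤ) := by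
  have e3 : (3 : F) = jF F 3 := by rw [map_ofNat]
  rw [e3, CU.three_eq, map_mul, map_mul, map_pow, map_pow, (ovR hD hl hl2 hQ w hw).1]
  have h4 : w.valuation F (jF F (-om ^ 2)) ≤ 1 := q3a_le w (int_jF F _)
  calc _ ≤ WithZero.exp (-2 : ℤ) ^ 2 := mul_le_of_le_one_left' h4
    _ = WithZero.exp (-4 : ℤ) := by rw [k1d_pow]; norm_num

/-- a multiple of a small element by an integer of `F` -/
theorem k1d_mul (w : HeightOneSpectrum (𝓞 F)) {x y : F} {c : WithZero (Multiplicative ℤ)}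
    (hx : w.valuation F x ≤ c) (hy : w.valuation F y ≤ 1) : w.valuation F (x * y) ≤ c := by
  rw [map_mul]
  exact (mul_le_mul' hx hy).trans (mul_one _).le

/-- [K1d] -/
theorem psR_gE : ∃ q : Eis, PsR r (gE D r) q ∧ la ∣ q - 1 := by
  obtain ⟨q, hq⟩ := psR_exists hD hl hl2 hQ (gE_n1 hD hl hl2 hQ)
  refine ⟨q, hq, ?_⟩
  obtain ⟨w, hw⟩ := exists_ov hD hQ
  obtain ⟨hwl, hwr⟩ := ovR hD hl hl2 hQ w hw
  have hY : w.valuation F (jF F (Y0 D)) = 1 := ov_one w hw (Y0_sq hl).2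
  have hY0 : jF F (Y0 D) ≠ 0 := paa_ne hY
  set e : F := -(r / jF F (Y0 D)) with he
  have hwe : w.valuation F e = WithZero.exp (-1 : ℤ) := by
    rw [he, Valuation.map_neg, map_div₀, hY, div_one, hwr]
  have hwe1 : w.valuation F e < 1 := by
    rw [hwe]
    exact k1d_lt1 (by norm_num)
  have h1e : (1 - e) ≠ 0 := by
    intro h
    have h2 : e = 1 := (sub_eq_zero.1 h).symm
    rw [h2, map_one] at hwe1
    exact lt_irrefl _ hwe1
  have h2e : (1 + e) ≠ 0 := by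
    intro h
    have h2 : e = -1 := by linear_combination h
    rw [h2, Valuation.map_neg, map_one] at hwe1
    exact lt_irrefl _ hwe1
  have hg : gE D r = (1 + e) / (1 - e) := by
    have e1 : jF F (Y0 D) - r = jF F (Y0 D) * (1 + e) := by
      rw [he]
      field_simp
      ring
    have e2 : jF F (Y0 D) + r = jF F (Y0 D) * (1 - e) := by
      rw [he]
      field_simp
      ring
    unfold gE
    rw [e1, e2, mul_div_mul_left _ _ hY0]
  have h32 : w.valuation F (32 * e - r) ≤ WithZero.exp (-1 : ℤ) ^ 3 := by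
    have hdv : la ∣ 32 + Y0 D := by
      have e1 : (32 + Y0 D : Eis) = 3 * 11 + (Y0 D - 1) := by ring
      rw [e1]
      refine dvd_add ?_ (Y0_sq hl).2
      rw [CU.three_eq]
      exact Dvd.intro_left (-om ^ 2 * la) (by ring : -om ^ 2 * la * la = -om ^ 2 * la ^ 2) |>.mul_right _
    obtain ⟨c, hc⟩ := hdv
    have e1 : 32 * e - r = jF F la * jF F c * (e * 1) := by
      rw [← map_mul, ← hc, he, map_add, map_ofNat]
      field_simp
      ring
    rw [e1, map_mul, map_mul, map_mul, map_one, mul_one, hwl, hwe]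
    calc _ ≤ WithZero.exp (-2 : ℤ) * 1 * WithZero.exp (-1 : ℤ) := by
          gcongr
          exact q3a_le w (int_jF F c)
      _ = _ := by rw [mul_one, k1d_exp, k1d_pow]; norm_num
  have h3 := f2_pure (w.valuation F) (k1d_lt1 (by norm_num)) (fun n => G1_nat w n) hwe.le h32 h1e h2e
  rw [← hg] at h3
  have h4 := hq w hw
  rw [hwl, hwr, k1d_pow, k1d_exp] at h4
  rw [k1d_pow] at h3
  have h5 : w.valuation F (jF F (q - 1) * r) ≤ WithZero.exp (-3 : ℤ) := by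
    have e1 : jF F (q - 1) * r = (gE D r ^ 8 - (gE D r ^ 8)⁻¹ - r) - (gE D r ^ 8 - (gE D r ^ 8)⁻¹ - jF F q * r) := by
      rw [map_sub, map_one]
      ring
    rw [e1]
    refine Valuation.map_sub_le _ (h3.trans (k1d_le (by norm_num))) (h4.trans (k1d_le (by norm_num)))
  rw [← ov_mem w hw]
  rw [map_mul, hwr] at h5
  by_contra h6
  have h7 : w.valuation F (jF F (q - 1)) = 1 := le_antisymm (q3a_le w (int_jF F _)) (not_lt.1 h6)
  rw [h7, one_mul] at h5
  exact absurd h5 (not_le.2 (k1d_lt (by norm_num)))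

/-- `κ = (1 + r)/(1 - r)` -/
theorem k1d_ne (w : HeightOneSpectrum (𝓞 F)) (hw : OvLa w) : w.valuation F (1 + r) = 1 ∧ w.valuation F (1 - r) = 1 ∧
    1 + r ≠ 0 ∧ 1 - r ≠ 0 := by
  have hwr := (ovR hD hl hl2 hQ w hw).2
  have hr1 : w.valuation F r < w.valuation F (1 : F) := by
    rw [hwr, map_one]
    exact k1d_lt1 (by norm_num)
  have h1 : w.valuation F (1 + r) = 1 := by
    rw [Valuation.map_add_eq_of_lt_left _ hr1, map_one]
  have h2 : w.valuation F (1 - r) = 1 := by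
    rw [Valuation.map_sub_eq_of_lt_left _ hr1, map_one]
  exact ⟨h1, h2, paa_ne h1, paa_ne h2⟩

theorem k1d_n1 : N1 τ ((1 + r) / (1 - r)) := by
  obtain ⟨w, hw⟩ := exists_ov hD hQ
  obtain ⟨-, -, h1, h2⟩ := k1d_ne hD hl hl2 hQ w hw
  refine ⟨?_, ?_⟩
  · rw [map_div₀, map_add, map_sub, map_one, hQ.tau, ← sub_eq_add_neg, sub_neg_eq_add]
    field_simp
  · intro w' hw'
    obtain ⟨h3, h4, -, -⟩ := k1d_ne hD hl hl2 hQ w' hw'
    rw [map_div₀, h3, h4, div_one]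

/-- [K1d] -/
theorem psR_kap : N1 τ ((1 + r) / (1 - r)) ∧ ∃ q : Eis, PsR r (((1 + r) / (1 - r)) ^ 3) q ∧ la ∣ q ∧ ¬ la ^ 2 ∣ q := by
  have hdom : IsDomain Eis := eis_isDomain
  have hn := k1d_n1 hD hl hl2 hQ
  refine ⟨hn, ?_⟩
  obtain ⟨q, hq⟩ := psR_exists hD hl hl2 hQ (n1_pow hn 3)
  obtain ⟨w, hw⟩ := exists_ov hD hQ
  obtain ⟨hwl, hwr⟩ := ovR hD hl hl2 hQ w hw
  obtain ⟨-, -, h1, h2⟩ := k1d_ne hD hl hl2 hQ w hw
  set κ : F := (1 + r) / (1 - r) with hκ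
  have hk0 : κ ≠ 0 := div_ne_zero h1 h2
  have hw3 := k1d_three hD hl hl2 hQ w hw
  have h33 : w.valuation F (32 * r - (-r)) ≤ WithZero.exp (-1 : ℤ) ^ 3 := by
    have e1 : 32 * r - (-r) = 3 * (11 * r) := by ring
    have h11 : w.valuation F (11 : F) ≤ 1 := by exact_mod_cast G1_nat w 11
    rw [e1, map_mul, map_mul, hwr, k1d_pow]
    calc _ ≤ WithZero.exp (-4 : ℤ) * (1 * WithZero.exp (-1 : ℤ)) := by gcongr
      _ = WithZero.exp (-5 : ℤ) := by rw [one_mul, k1d_exp]; norm_num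
      _ ≤ _ := k1d_le (by norm_num)
  have h3 := f2_pure (w.valuation F) (k1d_lt1 (by norm_num)) (fun n => G1_nat w n) hwr.le h33 h2 h1
  rw [← hκ, k1d_pow] at h3
  set x : F := κ ^ 8 - (κ ^ 8)⁻¹ with hx
  have hx1 : w.valuation F (x + r) ≤ WithZero.exp (-3 : ℤ) := by
    have e1 : x + r = x - -r := by ring
    rw [e1]
    exact h3.trans (k1d_le (by norm_num))
  have hxv : w.valuation F x ≤ WithZero.exp (-1 : ℤ) := by
    have e1 : x = (x + r) - r := by ring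
    rw [e1]
    exact Valuation.map_sub_le _ (hx1.trans (k1d_le (by norm_num))) hwr.le
  have e2 : (κ ^ 3) ^ 8 - ((κ ^ 3) ^ 8)⁻¹ = x ^ 3 + 3 * x := by
    rw [hx]
    field_simp
    ring
  have h4 : w.valuation F ((κ ^ 3) ^ 8 - ((κ ^ 3) ^ 8)⁻¹ + jF F D * r) ≤ WithZero.exp (-5 : ℤ) := by
    have e3 : (κ ^ 3) ^ 8 - ((κ ^ 3) ^ 8)⁻¹ + jF F D * r = (x + r) * (x ^ 2 + (- (x * r)) + r ^ 2) + 3 * x := by
      rw [e2, ← hQ.sq]
      ring
    rw [e3]
    refine Valuation.map_add_le _ ?_ ?_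
    · rw [map_mul]
      have h5 : w.valuation F (x ^ 2 + (- (x * r)) + r ^ 2) ≤ WithZero.exp (-2 : ℤ) := by
        refine Valuation.map_add_le _ (Valuation.map_add_le _ ?_ ?_) ?_
        · rw [map_pow]
          calc _ ≤ WithZero.exp (-1 : ℤ) ^ 2 := pow_le_pow_left₀ zero_le hxv 2
            _ = _ := by rw [k1d_pow]; norm_num
        · rw [Valuation.map_neg, map_mul, hwr]
          calc _ ≤ WithZero.exp (-1 : ℤ) * WithZero.exp (-1 : ℤ) := by gcongr
            _ = _ := by rw [k1d_exp]; norm_num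
        · rw [map_pow, hwr, k1d_pow]
          exact k1d_le (by norm_num)
      calc _ ≤ WithZero.exp (-3 : ℤ) * WithZero.exp (-2 : ℤ) := mul_le_mul' hx1 h5
        _ = _ := by rw [k1d_exp]; norm_num
    · rw [map_mul]
      calc _ ≤ WithZero.exp (-4 : ℤ) * WithZero.exp (-1 : ℤ) := mul_le_mul' hw3 hxv
        _ = _ := by rw [k1d_exp]; norm_num
  have h5 := hq w hw
  rw [hwl, hwr, k1d_pow, k1d_exp] at h5
  have h6 : w.valuation F (jF F (q + D) * r) ≤ WithZero.exp (-5 : ℤ) := by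
    have e1 : jF F (q + D) * r = ((κ ^ 3) ^ 8 - ((κ ^ 3) ^ 8)⁻¹ + jF F D * r) -
        ((κ ^ 3) ^ 8 - ((κ ^ 3) ^ 8)⁻¹ - jF F q * r) := by
      rw [map_add]
      ring
    rw [e1]
    exact Valuation.map_sub_le _ h4 (h5.trans (k1d_le (by norm_num)))
  have h7 : w.valuation F (jF F (q + D)) ≤ WithZero.exp (-4 : ℤ) := by
    rw [map_mul, hwr] at h6
    have e1 : (WithZero.exp (-5 : ℤ) : WithZero (Multiplicative ℤ)) = WithZero.exp (-4 : ℤ) * WithZero.exp (-1 : ℤ) := by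
      rw [k1d_exp]; norm_num
    rw [e1] at h6
    exact le_of_mul_le_mul_right h6 (WithZero.exp_pos)
  obtain ⟨y, hy⟩ : la ∣ q + D := (ov_mem w hw _).1 (lt_of_le_of_lt h7 (k1d_lt1 (by norm_num)))
  have h8 : w.valuation F (jF F y) ≤ WithZero.exp (-2 : ℤ) := by
    rw [hy, map_mul, map_mul, hwl] at h7
    have e1 : (WithZero.exp (-4 : ℤ) : WithZero (Multiplicative ℤ)) = WithZero.exp (-2 : ℤ) * WithZero.exp (-2 : ℤ) := by
      rw [k1d_exp]; norm_num
    rw [e1] at h7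
    exact le_of_mul_le_mul_left h7 (WithZero.exp_pos)
  obtain ⟨z, hz⟩ : la ∣ y := (ov_mem w hw _).1 (lt_of_le_of_lt h8 (k1d_lt1 (by norm_num)))
  refine ⟨q, hq, ?_, ?_⟩
  · obtain ⟨c, hc⟩ := hl
    exact ⟨y - c, by linear_combination hy - hc⟩
  · rintro ⟨c, hc⟩
    exact hl2 ⟨z - c, by linear_combination hy - hc + la * hz⟩

/-- [K1e] -/
theorem pg_of_zero {b : F} (hb : N1 τ b) {q : Eis} (h : PsR r b q) (hq : la ^ 3 ∣ q) : Pg D r τ b := by
  refine ⟨0, b ^ 6, n1_pow hb 6, fun w hw => ?_⟩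
  have hvb := hb.2 w hw
  have hb0 : b ≠ 0 := paa_ne hvb
  have hwr : w.valuation F r ≤ 1 := by
    rw [(ovR hD hl hl2 hQ w hw).2]
    exact (k1d_lt1 (by norm_num)).le
  have h1 := h w hw
  have h2 : w.valuation F (b ^ 8 - (b ^ 8)⁻¹) ≤ w.valuation F (jF F la) ^ 3 := by
    have e1 : b ^ 8 - (b ^ 8)⁻¹ = (b ^ 8 - (b ^ 8)⁻¹ - jF F q * r) + jF F q * r := by ring
    rw [e1]
    refine Valuation.map_add_le _ (h1.trans (mul_le_of_le_one_right' hwr)) ?_
    obtain ⟨c, rfl⟩ := hq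
    rw [map_mul, map_mul, map_mul, map_pow, map_pow, mul_assoc]
    exact mul_le_of_le_one_right' (mul_le_one' (q3a_le w (int_jF F c)) hwr)
  have e2 : b ^ 2 - gE D r ^ (0 : ℤ) * (b ^ 6) ^ 3 = -(b ^ 10 * (b ^ 8 - (b ^ 8)⁻¹)) := by
    rw [zpow_zero, one_mul]
    field_simp
    ring
  rw [e2, Valuation.map_neg, map_mul, map_pow, hvb, one_pow, one_mul]
  exact h2

/-- integral powers -/
theorem k1e_zpow {b : F} (hb : N1 τ b) (n : ℤ) : N1 τ (b ^ n) := by
  obtain ⟨k, rfl | rfl⟩ := Int.eq_nat_or_neg n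
  · rw [zpow_natCast]
    exact n1_pow hb k
  · rw [zpow_neg, zpow_natCast]
    exact n1_inv (n1_pow hb k)

/-- the powers of `gE` -/
theorem k1e_gE (i : ℤ) : Pg D r τ (gE D r ^ i) := by
  refine ⟨2 * i, 1, ?_, fun w _ => ?_⟩
  · have := n1_pow (gE_n1 hD hl hl2 hQ) 0
    rwa [pow_zero] at this
  · have e1 : (gE D r ^ i) ^ 2 - gE D r ^ (2 * i) * 1 ^ 3 = 0 := by
      rw [one_pow, mul_one, mul_comm 2 i, zpow_mul, sub_eq_zero]
      norm_cast
    rw [e1, map_zero]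
    exact zero_le

/-- a nonzero digit can be used to remove a digit -/
theorem k1e_digit {q q' : Eis} (h : ¬ la ∣ q') : la ∣ q ∨ la ∣ q + q' ∨ la ∣ q + (q' + q') := line_i.line q q' h

/-- [K1e] -/
theorem pg_rep {b : F} (hb : N1 τ b) :
    ∃ (i i' : ℤ) (q : Eis), PsR r (b * gE D r ^ i * (((1 + r) / (1 - r)) ^ 3) ^ i') (la ^ 2 * q) := by
  obtain ⟨q₀, h₀⟩ := psR_exists hD hl hl2 hQ hb
  obtain ⟨qg, hg, hg1⟩ := psR_gE hD hl hl2 hQ
  obtain ⟨hk, qk, hqk, hk1, hk2⟩ := psR_kap hD hl hl2 hQ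
  have hgn := gE_n1 hD hl hl2 hQ
  have hk3 := n1_pow hk 3
  have hgl : ¬ la ∣ qg := by
    intro h1
    have h2 := dvd_sub h1 hg1
    rw [sub_sub_cancel] at h2
    exact CU.la_prime.not_isUnit (isUnit_of_dvd_one h2)
  -- the first digit
  obtain ⟨i, q₁, h₁, hq₁⟩ : ∃ (i : ℕ) (q₁ : Eis), PsR r (b * gE D r ^ i) q₁ ∧ la ∣ q₁ := by
    rcases k1e_digit hD hl hl2 hQ (q := q₀) hgl with h | h | h
    · refine ⟨0, q₀, ?_, h⟩
      rw [pow_zero, mul_one]
      exact h₀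
    · obtain ⟨q₃, h3, h4⟩ := psR_mul0 hD hl hl2 hQ hb hgn h₀ hg
      refine ⟨1, q₃, ?_, ?_⟩
      · rw [pow_one]
        exact h3
      · have := dvd_add h4 h
        rwa [sub_add_cancel] at this
    · obtain ⟨q₃, h3, h4⟩ := psR_mul0 hD hl hl2 hQ hb hgn h₀ hg
      obtain ⟨q₄, h5, h6⟩ := psR_mul0 hD hl hl2 hQ (n1_mul hb hgn) hgn h3 hg
      refine ⟨2, q₄, ?_, ?_⟩
      · rw [pow_two, ← mul_assoc]
        exact h5
      · have e1 : q₄ = (q₄ - (q₃ + qg)) + (q₃ - (q₀ + qg)) + (q₀ + (qg + qg)) := by ring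
        rw [e1]
        exact dvd_add (dvd_add h6 h4) h
  have hn1 : N1 τ (b * gE D r ^ i) := n1_mul hb (n1_pow hgn i)
  obtain ⟨m, rfl⟩ := hq₁
  obtain ⟨k, rfl⟩ := hk1
  have hkk : ¬ la ∣ k := by
    rintro ⟨c, rfl⟩
    exact hk2 ⟨c, by ring⟩
  -- the second digit
  obtain ⟨i', q₂, h₂⟩ : ∃ (i' : ℕ) (q₂ : Eis), PsR r (b * gE D r ^ i * (((1 + r) / (1 - r)) ^ 3) ^ i') (la ^ 2 * q₂) := by
    rcases k1e_digit hD hl hl2 hQ (q := m) hkk with h | h | h
    · obtain ⟨c, rfl⟩ := h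
      refine ⟨0, c, ?_⟩
      rw [pow_zero, mul_one]
      have e1 : la ^ 2 * c = la * (la * c) := by ring
      rw [e1]
      exact h₁
    · obtain ⟨c, hc⟩ := h
      refine ⟨1, c, ?_⟩
      rw [pow_one]
      have h3 := psR_mul_la hD hl hl2 hQ hn1 hk3 h₁ hqk (dvd_mul_right _ _) (dvd_mul_right _ _)
      have e1 : la ^ 2 * c = la * m + la * k := by
        linear_combination -la * hc
      rw [e1]
      exact h3
    · obtain ⟨c, hc⟩ := h
      refine ⟨2, c, ?_⟩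
      rw [pow_two, ← mul_assoc]
      have h3 := psR_mul_la hD hl hl2 hQ hn1 hk3 h₁ hqk (dvd_mul_right _ _) (dvd_mul_right _ _)
      have h4 := psR_mul_la hD hl hl2 hQ (n1_mul hn1 hk3) hk3 h3 hqk (dvd_add (dvd_mul_right _ _) (dvd_mul_right _ _))
        (dvd_mul_right _ _)
      have e1 : la ^ 2 * c = la * m + la * k + la * k := by
        linear_combination -la * hc
      rw [e1]
      exact h4
  refine ⟨i, i', q₂, ?_⟩
  rw [zpow_natCast, zpow_natCast]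
  exact h₂

/-- the normalisation does not change `Pg` -/
theorem k1e_norm {b : F} (hb : N1 τ b) (i i' : ℤ) :
    N1 τ (b * gE D r ^ i * (((1 + r) / (1 - r)) ^ 3) ^ i') ∧
    (Pg D r τ (b * gE D r ^ i * (((1 + r) / (1 - r)) ^ 3) ^ i') → Pg D r τ b) := by
  have hgn := k1e_zpow hD hl hl2 hQ (gE_n1 hD hl hl2 hQ) i
  have hkn := k1e_zpow hD hl hl2 hQ (psR_kap hD hl hl2 hQ).1 i'
  have e1 : (((1 + r) / (1 - r)) ^ 3) ^ i' = (((1 + r) / (1 - r)) ^ i') ^ 3 := by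
    rw [← zpow_natCast, ← zpow_natCast, ← zpow_mul, ← zpow_mul, mul_comm]
  rw [e1]
  set g : F := gE D r ^ i with hg
  set κ : F := ((1 + r) / (1 - r)) ^ i' with hκ
  have hk3 := n1_pow hkn 3
  refine ⟨n1_mul (n1_mul hb hgn) hk3, fun h => ?_⟩
  have hg0 : g ≠ 0 := left_ne_zero_of_mul (by rw [hgn.1]; exact one_ne_zero)
  have hk0 : κ ≠ 0 := left_ne_zero_of_mul (by rw [hkn.1]; exact one_ne_zero)
  have h1 := pg_mul hD hl hl2 hQ (n1_mul (n1_mul hb hgn) hk3) (n1_inv hgn) h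
    (pg_inv hD hl hl2 hQ hgn (k1e_gE hD hl hl2 hQ i))
  have h2 := pg_mul hD hl hl2 hQ (n1_mul (n1_mul (n1_mul hb hgn) hk3) (n1_inv hgn)) (n1_inv hk3) h1
    (pg_inv hD hl hl2 hQ hk3 (pg_cube hD hl hl2 hQ hkn))
  have e2 : b * g * κ ^ 3 * g⁻¹ * (κ ^ 3)⁻¹ = b := by
    field_simp
  rwa [e2] at h2

/-- [K1e] -/
theorem lc_Pg : LC τ (Pg D r τ) := by
  refine ⟨fun a b => pg_mul hD hl hl2 hQ, fun a => pg_inv hD hl hl2 hQ, fun a => pg_cube hD hl hl2 hQ,
    fun a => pg_one hD hl hl2 hQ, ?_⟩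
  intro a b ha hb hnb
  obtain ⟨i₁, i₁', t₁, h₁⟩ := pg_rep hD hl hl2 hQ ha
  obtain ⟨i₂, i₂', t₂, h₂⟩ := pg_rep hD hl hl2 hQ hb
  obtain ⟨hn₁, -⟩ := k1e_norm hD hl hl2 hQ ha i₁ i₁'
  obtain ⟨hn₂, hp₂⟩ := k1e_norm hD hl hl2 hQ hb i₂ i₂'
  have ht₂ : ¬ la ∣ t₂ := by
    rintro ⟨c, rfl⟩
    exact hnb (hp₂ (pg_of_zero hD hl hl2 hQ hn₂ h₂ ⟨c, by ring⟩))
  have hd : ∀ t : Eis, la ∣ la ^ 2 * t := fun t => (Dvd.intro_left la (by ring : la * la = la ^ 2)).mul_right t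
  set g₁ : F := gE D r ^ i₁ with hg₁
  set g₂ : F := gE D r ^ i₂ with hg₂
  set k₁ : F := (((1 + r) / (1 - r)) ^ 3) ^ i₁' with hk₁
  set k₂ : F := (((1 + r) / (1 - r)) ^ 3) ^ i₂' with hk₂
  have key : ∀ j : ℕ, Pg D r τ ((a * g₁ * k₁) * (b * g₂ * k₂) ^ j) → Pg D r τ (a * b ^ j) := by
    intro j hj
    have e1 : (a * g₁ * k₁) * (b * g₂ * k₂) ^ j = (a * b ^ j) * gE D r ^ (i₁ + i₂ * j) *
        (((1 + r) / (1 - r)) ^ 3) ^ (i₁' + i₂' * j) := by
      have hg0 : gE D r ≠ 0 := left_ne_zero_of_mul (by rw [(gE_n1 hD hl hl2 hQ).1]; exact one_ne_zero)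
      have hk0 : ((1 + r) / (1 - r)) ^ 3 ≠ 0 :=
        left_ne_zero_of_mul (by rw [(n1_pow (psR_kap hD hl hl2 hQ).1 3).1]; exact one_ne_zero)
      rw [zpow_add₀ hg0, zpow_add₀ hk0, zpow_mul, zpow_mul, zpow_natCast, zpow_natCast, ← hg₁, ← hg₂, ← hk₁, ← hk₂,
        mul_pow, mul_pow]
      ring
    rw [e1] at hj
    exact (k1e_norm hD hl hl2 hQ (n1_mul ha (n1_pow hb j)) _ _).2 hj
  rcases k1e_digit hD hl hl2 hQ (q := t₁) ht₂ with h | h | h
  · refine ⟨0, key 0 ?_⟩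
    rw [pow_zero, mul_one]
    obtain ⟨c, rfl⟩ := h
    exact pg_of_zero hD hl hl2 hQ hn₁ h₁ ⟨c, by ring⟩
  · refine ⟨1, key 1 ?_⟩
    rw [pow_one]
    have h3 := psR_mul_la hD hl hl2 hQ hn₁ hn₂ h₁ h₂ (hd _) (hd _)
    obtain ⟨c, hc⟩ := h
    refine pg_of_zero hD hl hl2 hQ (n1_mul hn₁ hn₂) h3 ⟨c, ?_⟩
    linear_combination la ^ 2 * hc
  · refine ⟨2, key 2 ?_⟩
    rw [pow_two, ← mul_assoc]
    have h3 := psR_mul_la hD hl hl2 hQ hn₁ hn₂ h₁ h₂ (hd _) (hd _)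
    have h4 := psR_mul_la hD hl hl2 hQ (n1_mul hn₁ hn₂) hn₂ h3 h₂ (dvd_add (hd _) (hd _)) (hd _)
    obtain ⟨c, hc⟩ := h
    refine pg_of_zero hD hl hl2 hQ (n1_mul (n1_mul hn₁ hn₂) hn₂) h4 ⟨c, ?_⟩
    linear_combination la ^ 2 * hc

/-- an element of the completion close to a power of `gE` times a cube -/
theorem k1f_approx (w : HeightOneSpectrum (𝓞 F)) (hw : OvLa w) {a : F} (ha : N1 τ a) {α G : w.adicCompletion F}
    (hα : Valued.v α = (1 : WithZero (Multiplicative ℤ))) (hia : algebraMap F (w.adicCompletion F) a = α * G ^ 3) (j : ℤ)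
    (h : Valued.v (α - algebraMap F (w.adicCompletion F) (gE D r ^ j)) ≤ WithZero.exp (-6 : ℤ)) : Pg D r τ a := by
  have hv : ∀ x : F, Valued.v (algebraMap F (w.adicCompletion F) x) = w.valuation F x :=
    fun x => HeightOneSpectrum.valuedAdicCompletion_eq_valuation' w x
  obtain ⟨hwl, -⟩ := ovR hD hl hl2 hQ w hw
  have hG : Valued.v G = (1 : WithZero (Multiplicative ℤ)) := by
    have h1 := hv a
    rw [hia, map_mul, hα, one_mul, map_pow, ha.2 w hw] at h1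
    exact (pow_eq_one_iff.1 h1).resolve_right (by norm_num)
  have hG0 : G ≠ 0 := by
    rintro rfl
    rw [map_zero] at hG
    exact zero_ne_one hG
  have hla0 : jF F la ^ 3 ≠ 0 := by
    apply pow_ne_zero
    intro h0
    have h1 : la = 0 := jF_inj F (by rw [h0, map_zero])
    exact CU.la_prime.ne_zero h1
  obtain ⟨x, hx⟩ := lzb_dense w hla0 hG0
  have hl6 : w.valuation F (jF F la) ^ 3 = WithZero.exp (-6 : ℤ) := by
    rw [hwl, k1d_pow]
    norm_num
  rw [map_pow, hl6] at hx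
  set δ : w.adicCompletion F := algebraMap F (w.adicCompletion F) x * G⁻¹ - 1 with hδ
  have hxG : algebraMap F (w.adicCompletion F) x = G * (1 + δ) := by
    rw [hδ]
    field_simp
    ring
  have hδ1 : Valued.v δ < (1 : WithZero (Multiplicative ℤ)) := hx.trans (k1d_lt1 (by norm_num))
  have hx1 : w.valuation F x = 1 := by
    rw [← hv, hxG, map_mul, hG, one_mul, Valuation.map_add_eq_of_lt_left _ (by rw [map_one]; exact hδ1), map_one]
  have hg1 : Valued.v (algebraMap F (w.adicCompletion F) (gE D r ^ j)) = (1 : WithZero (Multiplicative ℤ)) := by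
    rw [hv]
    exact (k1e_zpow hD hl hl2 hQ (gE_n1 hD hl hl2 hQ) j).2 w hw
  refine pg_of_approx hD hl hl2 hQ ha w hw hx1 (j := j) ?_
  rw [← hv, hl6]
  have e1 : algebraMap F (w.adicCompletion F) (a - gE D r ^ j * x ^ 3) =
      (α - algebraMap F (w.adicCompletion F) (gE D r ^ j)) * G ^ 3 -
      δ * (algebraMap F (w.adicCompletion F) (gE D r ^ j) * G ^ 3 * (3 + 3 * δ + δ ^ 2)) := by
    rw [map_sub, map_mul, map_pow, hia, hxG]
    ring
  have h3 : Valued.v (3 : w.adicCompletion F) ≤ (1 : WithZero (Multiplicative ℤ)) := by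
    have e3 : (3 : w.adicCompletion F) = algebraMap F (w.adicCompletion F) 3 := by rw [map_ofNat]
    rw [e3, hv]
    exact_mod_cast G1_nat w 3
  rw [e1]
  refine Valuation.map_sub_le _ ?_ ?_
  · rw [map_mul, map_pow, hG, one_pow, mul_one]
    exact h
  · rw [map_mul, map_mul, map_mul, map_pow, hG, hg1, one_pow, one_mul, one_mul]
    refine (mul_le_of_le_one_right' ?_).trans hx.le
    refine Valuation.map_add_le _ (Valuation.map_add_le _ h3 ?_) ?_
    · rw [map_mul]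
      exact mul_le_one' h3 hδ1.le
    · rw [map_pow]
      exact pow_le_one' hδ1.le 2

/-- the local computation -/
theorem k1f_alpha (w : HeightOneSpectrum (𝓞 F)) (hw : OvLa w) {Y Z R : w.adicCompletion F}
    (hR : Valued.v R = (WithZero.exp (-1 : ℤ) : WithZero (Multiplicative ℤ)))
    (hY : Valued.v Y = (1 : WithZero (Multiplicative ℤ))) (hZ : Valued.v Z = (1 : WithZero (Multiplicative ℤ)))
    (h : Valued.v (Y - Z) ≤ (WithZero.exp (-6 : ℤ) : WithZero (Multiplicative ℤ))) :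
    Valued.v ((Y - R) / (Y + R) - (Z - R) / (Z + R)) ≤ (WithZero.exp (-6 : ℤ) : WithZero (Multiplicative ℤ)) ∧
    Valued.v ((Y - R) / (Y + R)) = (1 : WithZero (Multiplicative ℤ)) := by
  have hlt : Valued.v R < (1 : WithZero (Multiplicative ℤ)) := by
    rw [hR]
    exact k1d_lt1 (by norm_num)
  have hYp : Valued.v (Y + R) = (1 : WithZero (Multiplicative ℤ)) := by
    rw [Valuation.map_add_eq_of_lt_left _ (by rw [hY]; exact hlt), hY]
  have hYm : Valued.v (Y - R) = (1 : WithZero (Multiplicative ℤ)) := by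
    rw [Valuation.map_sub_eq_of_lt_left _ (by rw [hY]; exact hlt), hY]
  have hZp : Valued.v (Z + R) = (1 : WithZero (Multiplicative ℤ)) := by
    rw [Valuation.map_add_eq_of_lt_left _ (by rw [hZ]; exact hlt), hZ]
  have hYp0 : Y + R ≠ 0 := by
    intro h0
    rw [h0, map_zero] at hYp
    exact zero_ne_one hYp
  have hZp0 : Z + R ≠ 0 := by
    intro h0
    rw [h0, map_zero] at hZp
    exact zero_ne_one hZp
  have h2 : Valued.v (2 : w.adicCompletion F) ≤ (1 : WithZero (Multiplicative ℤ)) := by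
    have e3 : (2 : w.adicCompletion F) = algebraMap F (w.adicCompletion F) 2 := by rw [map_ofNat]
    have h5 : w.valuation F (2 : F) ≤ 1 := by exact_mod_cast G1_nat w 2
    rw [e3]
    exact (HeightOneSpectrum.valuedAdicCompletion_eq_valuation' w (2 : F)).le.trans h5
  refine ⟨?_, by rw [map_div₀, hYp, hYm, div_one]⟩
  have e1 : (Y - R) / (Y + R) - (Z - R) / (Z + R) = (Y - Z) * (2 * R) / ((Y + R) * (Z + R)) := by
    field_simp
    ring
  rw [e1, map_div₀, map_mul, map_mul (Valued.v) (Y + R), hYp, hZp, one_mul, div_one, map_mul]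
  exact (mul_le_of_le_one_right' (mul_le_one' h2 hlt.le)).trans h

/-- [K1f] -/
theorem dir_1 : Dir D r τ (Pg D r τ) := by
  intro b hb hbt w hw h a k ha hak
  have hv : ∀ x : F, Valued.v (algebraMap F (w.adicCompletion F) x) = w.valuation F x :=
    fun x => HeightOneSpectrum.valuedAdicCompletion_eq_valuation' w x
  obtain ⟨hwl, hwr⟩ := ovR hD hl hl2 hQ w hw
  rcases loc_red hD hQ w hw (invR hD hl hl2 hQ w hw) hb hbt h with ⟨t, ht⟩ | ⟨v, φ, x, y, g, hB, hg, he, hne, hbg⟩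
  · refine k1f_approx hD hl hl2 hQ w hw ha (α := 1) (G := t ^ 2 * algebraMap F (w.adicCompletion F) k) (map_one _) ?_ 0 ?_
    · rw [hak, map_mul, map_pow, map_pow, ht]
      ring
    · rw [zpow_zero, map_one, sub_self, map_zero]
      exact zero_le
  · set R : w.adicCompletion F := algebraMap F (w.adicCompletion F) r with hRdef
    have hR : Valued.v R = (WithZero.exp (-1 : ℤ) : WithZero (Multiplicative ℤ)) := by
      rw [hRdef, hv, hwr]
    have hφ : ∀ z : v.adicCompletion KK, (Valued.v (φ z) : WithZero (Multiplicative ℤ)) = Valued.v z ^ 2 :=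
      below_valR hD hl hl2 hQ hB hw
    have hR2 : R ^ 2 = φ (algebraMap KK (v.adicCompletion KK) (jK D)) := by
      rw [hB.comm, hRdef, ← map_pow, hQ.sq, jF_apply]
    have hd : Valued.v (algebraMap KK (v.adicCompletion KK) (jK D)) = (WithZero.exp (-1 : ℤ) : WithZero (Multiplicative ℤ)) := by
      have h1 := hφ (algebraMap KK (v.adicCompletion KK) (jK D))
      rw [← hR2, map_pow, hR] at h1
      exact ((pow_left_inj₀ zero_le zero_le two_ne_zero).1 h1).symm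
    have hY2 : Valued.v (algebraMap KK (v.adicCompletion KK) (jK (Y0 D)) ^ 2 - 1 - algebraMap KK (v.adicCompletion KK) (jK D)) ≤
        (WithZero.exp (-4 : ℤ) : WithZero (Multiplicative ℤ)) := by
      have h1 := (e7a_le (l0b_ideal hB hw) 4 (Y0 D ^ 2 - 1 - D)).2 (Y0_sq hl).1
      simp only [map_sub, map_pow, map_one] at h1
      exact h1
    have hY1 : Valued.v (algebraMap KK (v.adicCompletion KK) (jK (Y0 D)) - 1) < (1 : WithZero (Multiplicative ℤ)) := by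
      have h1 := (e7a_le (l0b_ideal hB hw) 1 (Y0 D - 1)).2 (by rw [pow_one]; exact (Y0_sq hl).2)
      simp only [map_sub, map_one] at h1
      exact l1_of_le (by norm_num) h1
    have hP := k1f_pt (e7a_loc (l0b_ideal hB hw)) hd hY2 hY1 he
    have he' : (φ y) ^ 2 = (φ x) ^ 3 + R ^ 2 := by
      rw [hR2, ← map_pow, he, map_add, map_pow]
    have hyv : Valued.v (φ y) ≥ (1 : WithZero (Multiplicative ℤ)) := by
      rw [hφ]
      rcases hP with h1 | ⟨h1, -⟩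
      · have h2 : (1 : WithZero (Multiplicative ℤ)) ≤ Valued.v y := by
          refine le_trans ?_ h1
          rw [← WithZero.exp_zero]
          exact k1d_le (by norm_num)
        exact one_le_pow₀ h2
      · rw [h1, one_pow]
    have hlt : Valued.v R < Valued.v (φ y) := by
      refine lt_of_lt_of_le ?_ hyv
      rw [hR]
      exact k1d_lt1 (by norm_num)
    have hYp : Valued.v (φ y + R) = Valued.v (φ y) := Valuation.map_add_eq_of_lt_left _ hlt
    have hYm : Valued.v (φ y - R) = Valued.v (φ y) := Valuation.map_sub_eq_of_lt_left _ hlt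
    have hy0 : Valued.v (φ y) ≠ (0 : WithZero (Multiplicative ℤ)) := (lt_of_lt_of_le zero_lt_one hyv).ne'
    have hYp0 : φ y + R ≠ 0 := by
      intro h0
      rw [h0, map_zero] at hYp
      exact hy0 hYp.symm
    have hYm0 : φ y - R ≠ 0 := hne
    have hα : Valued.v ((φ y - R) / (φ y + R)) = (1 : WithZero (Multiplicative ℤ)) := by
      rw [map_div₀, hYp, hYm, div_self hy0]
    have hia : algebraMap F (w.adicCompletion F) a =
        (φ y - R) / (φ y + R) * (φ x * g ^ 2 * algebraMap F (w.adicCompletion F) k) ^ 3 := by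
      rw [hak, map_mul, map_pow, map_pow, hbg]
      have e1 : (φ x * g ^ 2 * algebraMap F (w.adicCompletion F) k) ^ 3 =
          ((φ y - R) * (φ y + R)) * (g ^ 6 * algebraMap F (w.adicCompletion F) k ^ 3) := by
        linear_combination (-(g ^ 6 * algebraMap F (w.adicCompletion F) k ^ 3)) * he'
      rw [e1]
      field_simp
    have hgE : algebraMap F (w.adicCompletion F) (gE D r) =
        (algebraMap F (w.adicCompletion F) (jF F (Y0 D)) - R) / (algebraMap F (w.adicCompletion F) (jF F (Y0 D)) + R) := by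
      unfold gE
      rw [map_div₀, map_sub, map_add]
    have hφY : φ (algebraMap KK (v.adicCompletion KK) (jK (Y0 D))) = algebraMap F (w.adicCompletion F) (jF F (Y0 D)) := by
      rw [hB.comm, jF_apply]
    have hZ : Valued.v (algebraMap F (w.adicCompletion F) (jF F (Y0 D))) = (1 : WithZero (Multiplicative ℤ)) := by
      rw [hv]
      exact ov_one w hw (Y0_sq hl).2
    rcases hP with h1 | ⟨h1, s, hs, h2⟩
    · refine k1f_approx hD hl hl2 hQ w hw ha hα hia 0 ?_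
      rw [zpow_zero, map_one]
      have e1 : (φ y - R) / (φ y + R) - 1 = -(2 * R) / (φ y + R) := by
        field_simp
        ring
      have h2 : Valued.v (2 : w.adicCompletion F) ≤ (1 : WithZero (Multiplicative ℤ)) := by
        have e3 : (2 : w.adicCompletion F) = algebraMap F (w.adicCompletion F) 2 := by rw [map_ofNat]
        rw [e3, hv]
        exact_mod_cast G1_nat w 2
      rw [e1, map_div₀, hYp, Valuation.map_neg, map_mul, hR, hφ, div_le_iff₀ (by rw [← hφ]; exact zero_lt_iff.2 hy0)]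
      calc Valued.v (2 : w.adicCompletion F) * WithZero.exp (-1 : ℤ) ≤ 1 * WithZero.exp (-1 : ℤ) := by gcongr
        _ ≤ WithZero.exp (-6 : ℤ) * WithZero.exp (3 : ℤ) ^ 2 := by
            rw [one_mul, k1d_pow, k1d_exp]
            exact k1d_le (by norm_num)
        _ ≤ _ := by gcongr
    · have h3 : Valued.v (φ y - φ s * algebraMap F (w.adicCompletion F) (jF F (Y0 D))) ≤
          (WithZero.exp (-6 : ℤ) : WithZero (Multiplicative ℤ)) := by
        rw [← hφY, ← map_mul, ← map_sub, hφ]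
        calc _ ≤ (WithZero.exp (-3 : ℤ) : WithZero (Multiplicative ℤ)) ^ 2 := pow_le_pow_left₀ zero_le h2 2
          _ = _ := by rw [k1d_pow]; norm_num
      have hy1 : Valued.v (φ y) = (1 : WithZero (Multiplicative ℤ)) := by rw [hφ, h1, one_pow]
      rcases hs with rfl | rfl
      · rw [map_one, one_mul] at h3
        refine k1f_approx hD hl hl2 hQ w hw ha hα hia 1 ?_
        rw [zpow_one, hgE]
        exact (k1f_alpha hD hl hl2 hQ w hw hR hy1 hZ h3).1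
      · rw [map_neg, map_one, neg_one_mul, sub_neg_eq_add] at h3
        refine k1f_approx hD hl hl2 hQ w hw ha hα hia (-1) ?_
        rw [zpow_neg_one, map_inv₀, hgE, inv_div]
        have hR' : Valued.v (-R) = (WithZero.exp (-1 : ℤ) : WithZero (Multiplicative ℤ)) := by
          rw [Valuation.map_neg, hR]
        have hy1' : Valued.v (-φ y) = (1 : WithZero (Multiplicative ℤ)) := by rw [Valuation.map_neg, hy1]
        have h4 : Valued.v (-φ y - algebraMap F (w.adicCompletion F) (jF F (Y0 D))) ≤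
            (WithZero.exp (-6 : ℤ) : WithZero (Multiplicative ℤ)) := by
          rw [← Valuation.map_neg]
          refine le_trans (le_of_eq ?_) h3
          congr 1
          ring
        have h5 := (k1f_alpha hD hl hl2 hQ w hw hR' hy1' hZ h4).1
        refine le_trans (le_of_eq ?_) h5
        congr 1
        have e1 : (-φ y - -R) / (-φ y + -R) = (φ y - R) / (φ y + R) := by
          rw [← neg_div_neg_eq]
          congr 1 <;> ring
        rw [e1, sub_neg_eq_add, ← sub_eq_add_neg]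

/-- the valuations at `v` and at a place over `λ` -/
theorem k1g_key {w : HeightOneSpectrum (𝓞 F)} (hw : OvLa w) {v : HeightOneSpectrum (𝓞 KK)}
    (hv : v.asIdeal = Ideal.span {eE la}) (x : KK) :
    (Valued.v (algebraMap KK (v.adicCompletion KK) x) : WithZero (Multiplicative ℤ)) ^ 2 =
      w.valuation F (algebraMap KK F x) := by
  obtain ⟨v', φ, hB⟩ := exists_Below w
  have hv' := l0b_ideal hB hw
  have hvv : v' = v := HeightOneSpectrum.ext (hv'.trans hv.symm)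
  subst hvv
  have h5 := below_valR hD hl hl2 hQ hB hw (algebraMap KK (v'.adicCompletion KK) x)
  rw [hB.comm] at h5
  rw [← HeightOneSpectrum.valuedAdicCompletion_eq_valuation' w]
  exact h5.symm

/-- an element of norm one close to `1` at the places over `λ` is a local cube -/
theorem k1g_sol {β : F} (hβ : N1 τ β) {w : HeightOneSpectrum (𝓞 F)} (hw : OvLa w)
    (h : w.valuation F (β - 1) ≤ w.valuation F (jF F la) ^ 3) {p q : KK}
    (hpq : β = algebraMap KK F p + algebraMap KK F q * r) {v : HeightOneSpectrum (𝓞 KK)}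
    (hv : v.asIdeal = Ideal.span {eE la})
    (hd : Valued.v (algebraMap KK (v.adicCompletion KK) (jK D)) =
      (WithZero.exp (-1 : ℤ) : WithZero (Multiplicative ℤ))) :
    Sol3 (algebraMap KK (v.adicCompletion KK) p) (algebraMap KK (v.adicCompletion KK) q) ∧
      algebraMap KK (v.adicCompletion KK) p ^ 2 - algebraMap KK (v.adicCompletion KK) q ^ 2 *
        algebraMap KK (v.adicCompletion KK) (jK D) = 1 := by
  obtain ⟨hwla, hwr⟩ := ovR hD hl hl2 hQ w hw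
  have hL := e7a_loc hv
  have h6 : w.valuation F (β - 1) ≤ WithZero.exp (-6 : ℤ) := by
    rw [hwla, ← WithZero.exp_nsmul] at h
    exact h
  have h2 : w.valuation F (2 : F) = 1 := by
    have h3 : (2 : F) = jF F 2 := by rw [map_ofNat]
    rw [h3]
    refine le_antisymm (q3a_le w (int_jF F 2)) (not_lt.1 fun h4 => ?_)
    have h5 := (ov_mem w hw 2).1 h4
    rw [CU.la_dvd_iff] at h5
    revert h5
    decide
  have hwβ : w.valuation F β = 1 := hβ.2 w hw
  have hτ : τ β = algebraMap KK F p - algebraMap KK F q * r := by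
    rw [hpq, map_add, map_mul, τ.commutes, τ.commutes, hQ.tau]
    ring
  have hββ : β * τ β = 1 := hβ.1
  have hq1 : w.valuation F (algebraMap KK F q) ≤ WithZero.exp (-5 : ℤ) := by
    have e : 2 * (algebraMap KK F q * r) * β = (β - 1) * (β + 1) := by
      have e1 : 2 * (algebraMap KK F q * r) = β - τ β := by
        rw [hτ]
        linear_combination (-1 : F) * hpq
      rw [e1]
      linear_combination (-1 : F) * hββ
    have h5 : w.valuation F (2 * (algebraMap KK F q * r) * β) ≤ WithZero.exp (-6 : ℤ) := by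
      rw [e, map_mul]
      refine (mul_le_of_le_one_right' (Valuation.map_add_le _ hwβ.le (map_one _).le)).trans h6
    rw [map_mul, map_mul, map_mul, h2, hwβ, hwr, one_mul, mul_one] at h5
    have e2 : (WithZero.exp (-6 : ℤ) : WithZero (Multiplicative ℤ)) =
        WithZero.exp (-5 : ℤ) * WithZero.exp (-1 : ℤ) := by
      rw [← WithZero.exp_add]
      norm_num
    rw [e2] at h5
    exact le_of_mul_le_mul_right h5 (zero_lt_iff.2 WithZero.exp_ne_zero)
  have hp1 : w.valuation F (algebraMap KK F (p - 1)) < 1 := by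
    have e : 2 * algebraMap KK F (p - 1) * β = (β - 1) ^ 2 := by
      have e1 : 2 * algebraMap KK F (p - 1) = β + τ β - 2 := by
        rw [hτ, map_sub, map_one]
        linear_combination (-1 : F) * hpq
      rw [e1]
      linear_combination (1 : F) * hββ
    have h5 : w.valuation F (2 * algebraMap KK F (p - 1) * β) < 1 := by
      rw [e, map_pow]
      have h7 : w.valuation F (β - 1) < 1 := l1_of_le (by norm_num) h6
      exact pow_lt_one₀ zero_le h7 (by norm_num)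
    rwa [map_mul, map_mul, h2, hwβ, one_mul, mul_one] at h5
  have hkey := fun x => k1g_key hD hl hl2 hQ hw hv x
  have hN : algebraMap KK (v.adicCompletion KK) p ^ 2 - algebraMap KK (v.adicCompletion KK) q ^ 2 *
        algebraMap KK (v.adicCompletion KK) (jK D) = 1 := by
    have := congrArg (algebraMap KK (v.adicCompletion KK)) (lam_norm hQ hββ hpq)
    simpa only [map_sub, map_mul, map_pow, map_one] using this
  refine ⟨sol_laR v hL hd ?_ ?_ hN, hN⟩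
  · have h7 : (Valued.v (algebraMap KK (v.adicCompletion KK) (p - 1)) : WithZero (Multiplicative ℤ)) ^ 2 < 1 := by
      rw [hkey]
      exact hp1
    rw [map_sub, map_one] at h7
    by_contra hcon
    rw [not_lt] at hcon
    exact absurd h7 (not_lt.2 (one_le_pow_of_one_le' hcon 2))
  · have h7 : (Valued.v (algebraMap KK (v.adicCompletion KK) q) : WithZero (Multiplicative ℤ)) ^ 2 ≤
        WithZero.exp (-5 : ℤ) := by
      rw [hkey]
      exact hq1
    by_cases h0 : (Valued.v (algebraMap KK (v.adicCompletion KK) q) : WithZero (Multiplicative ℤ)) = 0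
    · rw [h0]; exact zero_le
    · obtain ⟨k, hk⟩ : ∃ k : ℤ, (Valued.v (algebraMap KK (v.adicCompletion KK) q) :
          WithZero (Multiplicative ℤ)) = WithZero.exp k :=
        ⟨WithZero.log _, (WithZero.exp_log h0).symm⟩
      rw [hk] at h7 ⊢
      rw [← WithZero.exp_nsmul, WithZero.exp_le_exp] at h7
      rw [WithZero.exp_le_exp]
      rw [nsmul_eq_mul] at h7
      push_cast at h7
      omega

/-- [K1g] -/
theorem conv_1 : Conv D r τ (Pg D r τ) := by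
  intro a u y ha hP huy v hv M _ _ ρ hρ
  obtain ⟨j, c, hc, hjc⟩ := hP
  have hL := e7a_loc hv
  have hd : Valued.v (algebraMap KK (v.adicCompletion KK) (jK D)) =
      (WithZero.exp (-1 : ℤ) : WithZero (Multiplicative ℤ)) := by
    refine le_antisymm ((e7a_le hv 1 D).2 (by rw [pow_one]; exact hl)) ?_
    by_contra hcon
    rw [not_le] at hcon
    have h1 := l1_lt (w := (Valued.v : Valuation (v.adicCompletion KK) (WithZero (Multiplicative ℤ)))) hcon
    exact hl2 ((e7a_le hv 2 D).1 h1)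
  obtain ⟨hY4, hY1⟩ := Y0_sq hl
  obtain ⟨y₀, P, Q, hy₀, hN, hS, hM⟩ := k1g_theta v hL hd
    (Y₀ := algebraMap KK (v.adicCompletion KK) (jK (Y0 D))) (by
      have e : algebraMap KK (v.adicCompletion KK) (jK (Y0 D)) ^ 2 - 1 -
          algebraMap KK (v.adicCompletion KK) (jK D) =
          algebraMap KK (v.adicCompletion KK) (jK (Y0 D ^ 2 - 1 - D)) := by
        simp only [map_sub, map_pow, map_one]
      rw [e]
      exact (e7a_le hv 4 _).2 hY4) (by
      have e : algebraMap KK (v.adicCompletion KK) (jK (Y0 D)) - 1 =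
          algebraMap KK (v.adicCompletion KK) (jK (Y0 D - 1)) := by
        simp only [map_sub, map_one]
      rw [e]
      exact lt_of_le_of_lt ((e7a_le hv 1 _).2 (by rw [pow_one]; exact hY1)) l0b_lt)
  let alg : Algebra KK M :=
    ((algebraMap (v.adicCompletion KK) M).comp (algebraMap KK (v.adicCompletion KK))).toAlgebra
  obtain ⟨ψ, hψ⟩ := e6b_hom hD hQ (C := M) (s := ρ) hρ
  have hψ' : ∀ a b : KK, ψ (algebraMap KK F a + algebraMap KK F b * r) =
      algebraMap (v.adicCompletion KK) M (algebraMap KK (v.adicCompletion KK) a) +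
      algebraMap (v.adicCompletion KK) M (algebraMap KK (v.adicCompletion KK) b) * ρ := hψ
  have hψK : ∀ x : KK, ψ (algebraMap KK F x) =
      algebraMap (v.adicCompletion KK) M (algebraMap KK (v.adicCompletion KK) x) := by
    intro x
    have h := hψ' x 0
    simpa only [map_zero, zero_mul, add_zero] using h
  have hψr : ψ r = ρ := by
    have h := hψ' 0 1
    simpa only [map_zero, map_one, one_mul, zero_add] using h
  have hρm : ρ ∈ IntermediateField.adjoin (v.adicCompletion KK) {ρ} :=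
    IntermediateField.mem_adjoin_simple_self _ ρ
  have hψm : ∀ z : F, ψ z ∈ IntermediateField.adjoin (v.adicCompletion KK) {ρ} := by
    intro z
    obtain ⟨p, q, rfl⟩ := exists_uv hD hQ z
    rw [hψ']
    exact add_mem (algebraMap_mem _ _) (mul_mem (algebraMap_mem _ _) hρm)
  obtain ⟨w, hw⟩ := exists_ov hD hQ
  have hg := gE_n1 hD hl hl2 hQ
  have ne0 : ∀ z : F, z * τ z = 1 → z ≠ 0 := fun z hz => left_ne_zero_of_mul_eq_one hz
  have ha0 := ne0 a ha.1
  have hg0 := ne0 _ hg.1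
  have hc0 := ne0 c hc.1
  have hden : gE D r ^ j * c ^ 3 ≠ 0 := mul_ne_zero (zpow_ne_zero _ hg0) (pow_ne_zero _ hc0)
  obtain ⟨β, hβ⟩ : ∃ β : F, β = a ^ 2 * (gE D r ^ j * c ^ 3)⁻¹ := ⟨_, rfl⟩
  have hβa : β * (gE D r ^ j * c ^ 3) = a ^ 2 := by
    rw [hβ, mul_assoc, inv_mul_cancel₀ hden, mul_one]
  have hβ1 : N1 τ β := by
    refine ⟨?_, fun w' hw' => ?_⟩
    · have e1 : τ β * (τ (gE D r) ^ j * τ c ^ 3) = τ a ^ 2 := by
        rw [← map_zpow₀, ← map_pow, ← map_pow, ← map_mul, ← map_mul, hβa]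
      have e2 : (gE D r ^ j * c ^ 3) * (τ (gE D r) ^ j * τ c ^ 3) = 1 := by
        have : (gE D r ^ j * c ^ 3) * (τ (gE D r) ^ j * τ c ^ 3) =
            (gE D r * τ (gE D r)) ^ j * (c * τ c) ^ 3 := by
          rw [mul_zpow, mul_pow]; ring
        rw [this, hg.1, hc.1, one_zpow, one_pow, one_mul]
      calc β * τ β = (β * (gE D r ^ j * c ^ 3)) * (τ β * (τ (gE D r) ^ j * τ c ^ 3)) := by
            rw [← mul_one (β * τ β), ← e2]; ring
        _ = a ^ 2 * τ a ^ 2 := by rw [hβa, e1]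
        _ = (a * τ a) ^ 2 := by ring
        _ = 1 := by rw [ha.1, one_pow]
    · rw [hβ, map_mul, map_inv₀, map_mul, map_pow, map_pow, map_zpow₀, ha.2 w' hw', hg.2 w' hw',
        hc.2 w' hw']
      simp
  have hβ2 : w.valuation F (β - 1) ≤ w.valuation F (jF F la) ^ 3 := by
    have e : (β - 1) * (gE D r ^ j * c ^ 3) = a ^ 2 - gE D r ^ j * c ^ 3 := by
      rw [sub_mul, hβa, one_mul]
    have h1 := hjc w hw
    rw [← e, map_mul] at h1
    have h2 : w.valuation F (gE D r ^ j * c ^ 3) = 1 := by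
      rw [map_mul, map_pow, map_zpow₀, hg.2 w hw, hc.2 w hw]
      simp
    rwa [h2, mul_one] at h1
  obtain ⟨p, q, hpq⟩ := exists_uv hD hQ β
  obtain ⟨hs, hN'⟩ := k1g_sol hD hl hl2 hQ hβ1 hw hβ2 hpq hv hd
  obtain ⟨γ, hγm, hγ⟩ := k1g_cube hρ hN' hs
  obtain ⟨δ, hδm, hδ⟩ := k1g_cube hρ hN hS
  have hψβ : ψ β = γ ^ 3 := by rw [hγ, hpq, hψ']
  obtain ⟨θ, hθ⟩ : ∃ θ : M, θ = algebraMap (v.adicCompletion KK) M y₀ - ρ := ⟨_, rfl⟩
  have hψg : ψ (gE D r) = θ ^ 2 * δ ^ 3 := by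
    unfold gE
    rw [map_div₀, map_sub, map_add, hψr, jF_apply, hψK, hM M ρ hρ, ← hθ, hδ]
  have hψg0 : ψ (gE D r) ≠ 0 := (map_ne_zero ψ).2 hg0
  have hθ0 : θ ≠ 0 := by
    intro h0
    rw [hψg, h0] at hψg0
    exact hψg0 (by ring)
  have hδ0 : δ ≠ 0 := by
    intro h0
    rw [hψg, h0] at hψg0
    exact hψg0 (by ring)
  have hψc0 : ψ c ≠ 0 := (map_ne_zero ψ).2 hc0
  have hγ0 : γ ≠ 0 := by
    intro h0
    have h1 : ψ β ≠ 0 := (map_ne_zero ψ).2 (ne0 β hβ1.1)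
    rw [hψβ, h0] at h1
    exact h1 (by ring)
  have hsq : ψ a ^ 2 = (θ ^ j) ^ 2 * (γ * δ ^ j * ψ c) ^ 3 := by
    have e1 := congrArg ψ hβa
    rw [map_mul, map_mul, map_pow, map_pow, map_zpow₀, hψβ, hψg, mul_zpow] at e1
    have e2 : (θ ^ 2) ^ j = (θ ^ j) ^ 2 := by
      rw [← zpow_natCast, ← zpow_natCast, ← zpow_mul, ← zpow_mul, mul_comm]
    have e3 : (δ ^ 3) ^ j = (δ ^ j) ^ 3 := by
      rw [← zpow_natCast, ← zpow_natCast, ← zpow_mul, ← zpow_mul, mul_comm]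
    rw [e2, e3] at e1
    rw [← e1]
    ring
  have hκ0 : γ * δ ^ j * ψ c ≠ 0 := mul_ne_zero (mul_ne_zero hγ0 (zpow_ne_zero _ hδ0)) hψc0
  have hθj0 : θ ^ j ≠ 0 := zpow_ne_zero _ hθ0
  have hψa0 : ψ a ≠ 0 := (map_ne_zero ψ).2 ha0
  have hfin := k1g_eta hsq hθj0 hκ0
  have hθm : θ ∈ IntermediateField.adjoin (v.adicCompletion KK) {ρ} := by
    rw [hθ]
    exact sub_mem (algebraMap_mem _ _) hρm
  have hgoal : algebraMap (v.adicCompletion KK) M (algebraMap KK (v.adicCompletion KK) u) +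
      algebraMap (v.adicCompletion KK) M (algebraMap KK (v.adicCompletion KK) y) * ρ = ψ a := by
    rw [huy, hψ']
  rw [hgoal]
  refine k1g_end hρ hy₀ (η := ψ a / (γ * δ ^ j * ψ c * θ ^ j)) ?_ ?_ j (by rw [← hθ]; exact hfin)
  · exact div_mem (hψm a) (mul_mem (mul_mem (mul_mem hγm (zpow_mem hδm j)) (hψm c)) (zpow_mem hθm j))
  · exact div_ne_zero hψa0 (mul_ne_zero hκ0 hθj0)

end

end JG
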