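import Pool.Agent.JG.PA
import Pool.Agent.JG.H1
import Pool.Agent.JXD.E7

/-!
# [JG-KB] lemmas for the local conditions at `λ`

PROOF. `cube_F` [KBa]: `C = w.adicCompletion F`, `l` the image of `jF la`, `3 = ε l²` with `ε` the image of `jF (-om²)` (`CU.three_eq`), `Valued.v ε = 1` (`-om²` is a unit of `ℤ[ω]`), `Valued.v l < 1`, `l ≠ 0`. `c = (z - 1) / l³`, `Valued.v c ≤ Valued.v l < 1`. The polynomial `m³ + ε l m² + ε m - c` has the root `m` with `Valued.v m < 1` by Hensel's lemma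
(`HenselianLocalRing` of `w.adicCompletionIntegers F`; copy the proof of `JD.hensel3` (JD/E1.lean), which is for `KK`, for the number field `F`), at `x₀ = 0`: the derivative at `0` is `ε`. Then `(1 + l m)³ = 1 + 3 l m + 3 l² m² + l³ m³ = 1 + l³ (ε m + ε l m² + m³) = 1 + l³ c = z`. (`IsCube x` in CUD; see its definition.)
`loc_red` [KBb]: the second case of `LocK`: `i (2 r b) = t³`, `t ≠ 0`. `JXD.lzb_dense` (JXD/LZ.lean): `x ∈ F` with `Valued.v (i x * t⁻¹ - 1) < w (l)`, `l = (jF la)^4`. So `w (2 r b / x³ - 1) ≤ w (la)^4` (`2 r b / x³ = (t / i x)³`), by `hinv`: `w (τ (2 r b) / (τ x)³ - 1) ≤ w (la)^4`; product: `2 r b τ (2 r b) = -4 D t'³` (`b τ b = t'³`),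
`w (-4 D (t'/(x τ x))³ - 1) ≤ w (la)^4`. By `cube_F` `i (-4 D (t'/(x τ x))³)` is a cube, so `i (4 D)` is a cube `e³` (`e ≠ 0`), `i (2 r) = (i (2 r))³ / i (4 D) = (i (2 r) / e)³` (`(2 r)² = 4 D`), `i b = t³ / i (2 r)` is a cube: first alternative. The proof of `JXD.not_two` (JXD/LZ.lean) contains almost all of this.
`pl_of_unit` [KBc]: the proof of `JXD.px_of_locK` (JXD/LZ.lean) with `α` instead of `u²` and `G = h² k`: `(i a)^8 = α^8 G^24`, `Valued.v G = 1` (`Valued.v (i a) = 1`), `v_eightU`, `ps_tau`.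
`li_of_one` [KBd]: `ps_exists` gives `q` with `Ps r a q`; `w (a^8 - (a^8)⁻¹) ≤ w (la)²` (`a^8 - a^-8 = (a^8 - 1) + (a^8 - 1) a^-8`), so `w (jF (la q) r) ≤ w (la)²`, `w (jF q) ≤ w (la) < 1` (`w r = 1`, `ov_D`), `la ∣ q` (`ov_mem`).
`one_of_li` [KBd]: `Ps r a q`, `la ∣ q`: `w (a^8 - a^-8) ≤ w (la)²`, `a^16 - 1 = a^8 (a^8 - a^-8)`, `w (a^8 + 1) = 1` (`ov_eight`: `w (a^8 - 1) < 1`, `w 2 = 1`), so `w (a^8 - 1) ≤ w (la)²`.
-/

set_option autoImplicit false

open NumberField IsDedekindDomain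
open scoped Classical

namespace JG

open CM27 CF JZ JX JXD
open JD hiding G5b_unit G5b_val LCW_ED below_val descent det_unit disc_eq eis_cube entire_ED exists_H exists_basis exists_cj exists_den exists_int exists_kappa exists_ov exists_phiE exists_quad exists_u0 final_of finite_of_phiE finprod_neron finprod_tam finrank_KD fix_int fix_of_two g4a_exp g4a_le g4a_norm g4a_one g4a_split g4b_place g5a_norm g5a_tau g5a_three g5a_unit int_KK int_jF int_r jr_inj kk_cube m1_cube min_all n5_gen ne_of_cl not_three ov_D ov_eight ov_mem ov_trans ov_val period_ED place_cases q3a_dvd_lt q3a_la_sq q3a_le q3a_sq_lt q3b_ext q3b_int q3b_le q3b_neg q3b_pos q3b_pos_iff q3b_sq q3b_tau q3b_three q4b_crt q5_coe q5_den quot_all quot_eq s5b_not_la sha_zero step tam_la tam_one tau_jF val_prime z1_norm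
open CU (la om eE)
open CUD (IsCube)

theorem kba_hensel3 {F : Type} [Field F] [NumberField F] (v : HeightOneSpectrum (𝓞 F))
    {p q t x₀ : v.adicCompletion F} (hp : Valued.v p ≤ (1 : WithZero (Multiplicative ℤ)))
    (hq : Valued.v q ≤ (1 : WithZero (Multiplicative ℤ))) (ht : Valued.v t ≤ (1 : WithZero (Multiplicative ℤ)))
    (hx : Valued.v x₀ ≤ (1 : WithZero (Multiplicative ℤ)))
    (h0 : Valued.v (x₀ ^ 3 + p * x₀ ^ 2 + q * x₀ + t) < (1 : WithZero (Multiplicative ℤ)))
    (h1 : Valued.v (3 * x₀ ^ 2 + 2 * p * x₀ + q) = (1 : WithZero (Multiplicative ℤ))) :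
    ∃ x : v.adicCompletion F, x ^ 3 + p * x ^ 2 + q * x + t = 0 ∧ Valued.v (x - x₀) < (1 : WithZero (Multiplicative ℤ)) := by
  have hhens := CUD.c12a_hens F v
  have hint : (Valued.v : Valuation (v.adicCompletion F) _).Integers (v.adicCompletionIntegers F) :=
    Valuation.valuationSubring.integers _
  set P : v.adicCompletionIntegers F := ⟨p, hp⟩ with hP
  set Q : v.adicCompletionIntegers F := ⟨q, hq⟩ with hQ
  set T : v.adicCompletionIntegers F := ⟨t, ht⟩ with hT
  set X₀ : v.adicCompletionIntegers F := ⟨x₀, hx⟩ with hX₀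
  obtain ⟨s, hs, hs'⟩ := hhens.is_henselian
    (Polynomial.X ^ 3 + Polynomial.C P * Polynomial.X ^ 2 + Polynomial.C Q * Polynomial.X + Polynomial.C T)
    (by monicity!) X₀ (by
      have h4 : Polynomial.eval X₀ (Polynomial.X ^ 3 + Polynomial.C P * Polynomial.X ^ 2 + Polynomial.C Q * Polynomial.X +
          Polynomial.C T) = X₀ ^ 3 + P * X₀ ^ 2 + Q * X₀ + T := by simp
      rw [h4]
      refine (Valuation.mem_maximalIdeal_iff _ _).2 ?_
      exact h0) (by
      have h4 : Polynomial.eval X₀ (Polynomial.derivative (Polynomial.X ^ 3 + Polynomial.C P * Polynomial.X ^ 2 +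
          Polynomial.C Q * Polynomial.X + Polynomial.C T)) = 3 * X₀ ^ 2 + 2 * P * X₀ + Q := by
        simp
        ring
      rw [h4, hint.isUnit_iff_valuation_eq_one]
      exact h1)
  refine ⟨(s : v.adicCompletion F), ?_, ?_⟩
  · have h4 : s ^ 3 + P * s ^ 2 + Q * s + T = 0 := by
      have h5 := hs
      rw [Polynomial.IsRoot.def] at h5
      simpa only [Polynomial.eval_add, Polynomial.eval_mul, Polynomial.eval_pow, Polynomial.eval_X, Polynomial.eval_C] using h5
    exact congrArg (fun x : v.adicCompletionIntegers F => (x : v.adicCompletion F)) h4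
  · exact (Valuation.mem_maximalIdeal_iff _ _).1 hs'

/-- [KBa] -/
theorem cube_F {F : Type} [Field F] [NumberField F] [Algebra KK F] (w : HeightOneSpectrum (𝓞 F)) (hw : OvLa w)
    {z : w.adicCompletion F} (hz : Valued.v (z - 1) ≤ w.valuation F (jF F la) ^ 4) : IsCube z := by
  obtain ⟨l, hl⟩ : ∃ l : w.adicCompletion F, l = algebraMap F (w.adicCompletion F) (jF F la) := ⟨_, rfl⟩
  obtain ⟨ε, hε⟩ : ∃ ε : w.adicCompletion F, ε = algebraMap F (w.adicCompletion F) (jF F (-om ^ 2)) := ⟨_, rfl⟩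
  have hlv : Valued.v l = w.valuation F (jF F la) := by
    rw [hl, h1_val]
  have hl1 : Valued.v l < (1 : WithZero (Multiplicative ℤ)) := by
    rw [hlv]
    exact hw
  have hεv : Valued.v ε = (1 : WithZero (Multiplicative ℤ)) := by
    have h1 : w.valuation F (jF F (-om ^ 2)) ≤ 1 := h1_le w (int_jF F _)
    have h2 : w.valuation F (jF F (-om)) ≤ 1 := h1_le w (int_jF F _)
    have h3 : w.valuation F (jF F (-om ^ 2)) * w.valuation F (jF F (-om)) = 1 := by
      rw [← map_mul, ← map_mul]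
      have h4 : (-om ^ 2 : Eis) * (-om) = 1 := by
        have h5 := CU.om_cube
        calc (-om ^ 2 : Eis) * (-om) = om ^ 3 := by ring
          _ = 1 := h5
      rw [h4, map_one, map_one]
    rw [hε, h1_val]
    refine le_antisymm h1 ?_
    rw [← h3]
    exact mul_le_of_le_one_right' h2
  have h3 : (3 : w.adicCompletion F) = ε * l ^ 2 := by
    have e3 : (3 : w.adicCompletion F) = algebraMap F (w.adicCompletion F) (jF F 3) := by
      rw [map_ofNat, map_ofNat]
    rw [e3, CU.three_eq, map_mul, map_mul, map_pow, map_pow, hε, hl]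
  have hl0 : l ≠ 0 := by
    intro h0
    rw [h0] at h3
    have h4 : (3 : w.adicCompletion F) = 0 := by
      rw [h3]
      ring
    have h5 : algebraMap F (w.adicCompletion F) 3 = algebraMap F (w.adicCompletion F) 0 := by
      rw [map_ofNat, map_zero]
      exact h4
    have h6 := (algebraMap F (w.adicCompletion F)).injective h5
    exact absurd h6 (by norm_num)
  obtain ⟨c, hc⟩ : ∃ c : w.adicCompletion F, z = 1 + l ^ 3 * c := ⟨(z - 1) / l ^ 3, by field_simp; ring⟩
  have hcv : Valued.v c ≤ Valued.v l := by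
    have h4 : z - 1 = l ^ 3 * c := by rw [hc]; ring
    rw [h4, map_mul, map_pow, ← hlv, pow_succ _ 3] at hz
    have hl3 : (0 : WithZero (Multiplicative ℤ)) < Valued.v l ^ 3 := by
      refine pow_pos (zero_lt_iff.2 ?_) 3
      rw [Valuation.ne_zero_iff]
      exact hl0
    exact le_of_mul_le_mul_left hz hl3
  have hc1 : Valued.v c < (1 : WithZero (Multiplicative ℤ)) := lt_of_le_of_lt hcv hl1
  obtain ⟨m, hm, hm'⟩ := kba_hensel3 w (p := ε * l) (q := ε) (t := -c) (x₀ := 0)
    (by rw [map_mul, hεv, one_mul]; exact hl1.le) hεv.le (by rw [Valuation.map_neg]; exact hc1.le)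
    (by rw [map_zero]; exact zero_le) (by
      have h5 : (0 : w.adicCompletion F) ^ 3 + ε * l * 0 ^ 2 + ε * 0 + -c = -c := by ring
      rw [h5, Valuation.map_neg]
      exact hc1) (by
      have h5 : 3 * (0 : w.adicCompletion F) ^ 2 + 2 * (ε * l) * 0 + ε = ε := by ring
      rw [h5]
      exact hεv)
  refine ⟨1 + l * m, ?_⟩
  rw [hc]
  linear_combination (-(l ^ 3)) * hm - (l * m + l ^ 2 * m ^ 2) * h3

theorem locSol_mul {C M : Type} [Field C] [Field M] [Algebra C M] {d : C} {r α : M} (hr : r ^ 2 = algebraMap C M d)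
    (h : LocSol d r α) {g : M} (hg : g ∈ IntermediateField.adjoin C {r}) (hg0 : g ≠ 0) : LocSol d r (α * g ^ 3) := by
  rcases h with ⟨m, hm, hm3⟩ | ⟨x, y, m, hm, hm0, he, hne, hy⟩
  · left
    exact ⟨m * g, mul_mem hm hg, by rw [mul_pow, hm3]⟩
  · right
    refine ⟨x, y, m / g, div_mem hm hg, div_ne_zero hm0 hg0, he, hne, ?_⟩
    rw [hy, div_pow]
    field_simp

section
variable {D : Eis} {F : Type} [Field F] [NumberField F] [Algebra KK F] {r : F} {τ : F ≃ₐ[KK] F}

/-- [KBb] -/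
theorem loc_red (hD : D ≠ 0) (hQ : Quad D r τ) (w : HeightOneSpectrum (𝓞 F)) (hw : OvLa w)
    (hinv : ∀ x : F, w.valuation F (τ x) = w.valuation F x) {b : F} (hb : b ≠ 0) (hbt : ∃ t : F, b * τ b = t ^ 3)
    (h : LocK D r b w) : IsCube (algebraMap F (w.adicCompletion F) b) ∨
      ∃ (v : HeightOneSpectrum (𝓞 KK)) (φ : v.adicCompletion KK →+* w.adicCompletion F) (x y : v.adicCompletion KK)
        (g : w.adicCompletion F), Below v w φ ∧ g ≠ 0 ∧ y ^ 2 = x ^ 3 + algebraMap KK (v.adicCompletion KK) (jK D) ∧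
          φ y - algebraMap F (w.adicCompletion F) r ≠ 0 ∧
          algebraMap F (w.adicCompletion F) b = (φ y - algebraMap F (w.adicCompletion F) r) * g ^ 3 := by
  rcases h with h | h2 | h
  · exact Or.inl h
  · left
    obtain ⟨t, ht⟩ := h2
    have h20 : (2 : F) ≠ 0 := two_ne_zero
    have hr0 : r ≠ 0 := by
      intro h
      have := hQ.sq
      rw [h, zero_pow two_ne_zero] at this
      exact hD (JD.jF_inj F (by rw [← this, map_zero]))
    have hb2 : 2 * r * b ≠ 0 := mul_ne_zero (mul_ne_zero h20 hr0) hb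
    have ht0 : t ≠ 0 := by
      rintro rfl
      rw [zero_pow three_ne_zero] at ht
      exact hb2 ((map_eq_zero_iff _ (algebraMap F (w.adicCompletion F)).injective).1 ht)
    have hla0 : jF F la ≠ 0 := by
      intro h
      have h1 : la = 0 := JD.jF_inj F (by rw [h, map_zero])
      exact CU.la_prime.ne_zero h1
    obtain ⟨x, hx⟩ := lzb_dense w (l := jF F la ^ 4) (pow_ne_zero 4 hla0) ht0
    obtain ⟨ε, hε⟩ : ∃ ε : WithZero (Multiplicative ℤ), ε = w.valuation F (jF F la) ^ 4 := ⟨_, rfl⟩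
    rw [map_pow, ← hε] at hx
    have hwla : w.valuation F (jF F la) < 1 := hw
    have hlt1 : ε < (1 : WithZero (Multiplicative ℤ)) := by
      rw [hε]
      exact pow_lt_one₀ zero_le hwla (by norm_num)
    obtain ⟨y, hy⟩ : ∃ y, y = algebraMap F (w.adicCompletion F) x * t⁻¹ := ⟨_, rfl⟩
    rw [← hy] at hx
    have hyv : Valued.v y = (1 : WithZero (Multiplicative ℤ)) := by
      have e : y = 1 + (y - 1) := by ring
      rw [e, Valuation.map_add_eq_of_lt_left _ (by rw [map_one]; exact hx.trans hlt1), map_one]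
    have hy0 : y ≠ 0 := by
      rintro rfl
      rw [map_zero] at hyv
      exact zero_ne_one hyv
    have hx0 : x ≠ 0 := by
      rintro rfl
      rw [map_zero, zero_mul] at hy
      exact hy0 hy
    have hix : algebraMap F (w.adicCompletion F) x = y * t := by
      rw [hy, mul_assoc, inv_mul_cancel₀ ht0, mul_one]
    have hA : w.valuation F (2 * r * b / x ^ 3 - 1) < ε := by
      rw [← JD.h1_val w, map_sub, map_div₀, map_pow, map_one, ht, hix]
      have e : t ^ 3 / (y * t) ^ 3 - 1 = (1 ^ 3 - y ^ 3) / y ^ 3 := by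
        field_simp
        try ring
      have h4 : Valued.v (1 ^ 3 - y ^ 3) < ε := by
        refine JD.h1_pow _ (by rw [map_one]) hyv.le ?_ 3
        rw [Valuation.map_sub_swap]
        exact hx
      have h5 : Valued.v (y ^ 3) = (1 : WithZero (Multiplicative ℤ)) := by rw [map_pow, hyv, one_pow]
      rw [e, map_div₀, h5, div_one]
      exact h4
    have hB : w.valuation F (-(2 * r * τ b) / (τ x) ^ 3 - 1) < ε := by
      have e : -(2 * r * τ b) / (τ x) ^ 3 - 1 = τ (2 * r * b / x ^ 3 - 1) := by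
        rw [map_sub, map_div₀, map_mul, map_mul, map_pow, map_one, map_ofNat, hQ.tau]
        ring
      rw [e, hinv]
      exact hA
    obtain ⟨t', ht'⟩ := hbt
    have hτx : τ x ≠ 0 := fun h => hx0 ((map_eq_zero_iff τ τ.injective).1 h)
    obtain ⟨m', hm'⟩ : ∃ m', m' = t' / (x * τ x) := ⟨_, rfl⟩
    have hAB : w.valuation F (-(4 * jF F D) * m' ^ 3 - 1) < ε := by
      have hAv : w.valuation F (2 * r * b / x ^ 3) ≤ 1 := by
        have e : 2 * r * b / x ^ 3 = (2 * r * b / x ^ 3 - 1) + 1 := by ring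
        rw [e]
        exact Valuation.map_add_le _ (hA.trans hlt1).le (by rw [map_one])
      have e : -(4 * jF F D) * m' ^ 3 - 1 = (2 * r * b / x ^ 3) * (-(2 * r * τ b) / (τ x) ^ 3 - 1) +
          (2 * r * b / x ^ 3 - 1) := by
        have e1 : -(4 * jF F D) * m' ^ 3 = (2 * r * b / x ^ 3) * (-(2 * r * τ b) / (τ x) ^ 3) := by
          rw [hm', div_pow, ← ht', ← hQ.sq]
          field_simp
          try ring
        rw [e1]
        ring
      rw [e]
      refine Valuation.map_add_lt _ ?_ hA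
      rw [map_mul]
      exact lt_of_le_of_lt (mul_le_of_le_one_left' hAv) hB
    obtain ⟨i, hi⟩ : ∃ i : F →+* w.adicCompletion F, i = algebraMap F (w.adicCompletion F) := ⟨_, rfl⟩
    have hiinj : Function.Injective i := i.injective
    have hz : Valued.v (i (-(4 * jF F D) * m' ^ 3) - 1) < ε := by
      rw [hi, ← map_one (algebraMap F (w.adicCompletion F)), ← map_sub, JD.h1_val]
      exact hAB
    obtain ⟨e, he⟩ := cube_F w hw (z := i (-(4 * jF F D) * m' ^ 3)) (by rw [← hε]; exact hz.le)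
    have hz0 : i (-(4 * jF F D) * m' ^ 3) ≠ 0 := by
      intro h0
      rw [h0, zero_sub, Valuation.map_neg, map_one] at hz
      exact absurd hlt1 (not_lt.2 hz.le)
    have hm0 : i m' ≠ 0 := by
      intro h0
      apply hz0
      rw [map_mul, map_pow, h0, zero_pow three_ne_zero, mul_zero]
    have he0 : e ≠ 0 := by
      rintro rfl
      rw [zero_pow three_ne_zero] at he
      exact hz0 he
    rw [← hi] at ht ⊢
    have hR0 : i (2 * r) ≠ 0 := by
      rw [Ne, map_eq_zero_iff i hiinj]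
      exact mul_ne_zero h20 hr0
    have h4 : i (2 * r) ^ 2 = (-(e / i m')) ^ 3 := by
      have e1 : i (2 * r) ^ 2 = i (4 * jF F D) := by
        rw [← map_pow, mul_pow, hQ.sq]
        norm_num
      have e2 : i (4 * jF F D) * i m' ^ 3 = -(e ^ 3) := by
        rw [← he, map_mul i (-(4 * jF F D)) (m' ^ 3), map_neg i (4 * jF F D), map_pow i m' 3]
        ring
      have e3 : (-(e / i m')) ^ 3 = -(e ^ 3) / i m' ^ 3 := by
        rw [neg_pow, div_pow]
        ring
      rw [e1, e3, ← e2, mul_div_cancel_right₀ _ (pow_ne_zero 3 hm0)]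
    have h5 : i (2 * r) * i b = t ^ 3 := by
      rw [← map_mul]
      exact ht
    refine ⟨t * (-(e / i m')) / i (2 * r), ?_⟩
    rw [div_pow, mul_pow, ← h4, ← h5]
    field_simp
  · exact Or.inr h

theorem v_eightU (hD : D ≠ 0) (hl : ¬ la ∣ D) (hQ : Quad D r τ) (w : HeightOneSpectrum (𝓞 F)) (hw : OvLa w) {z : w.adicCompletion F}
    (hz : Valued.v z = (1 : WithZero (Multiplicative ℤ))) : Valued.v (z ^ 24 - 1) ≤ WithZero.exp (-3 : ℤ) := by
  obtain ⟨x, hx⟩ := h1_dense w z
  set X : w.adicCompletion F := algebraMap F (w.adicCompletion F) x with hX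
  have hXv : Valued.v X = (1 : WithZero (Multiplicative ℤ)) := by
    have e : X = z + (X - z) := by ring
    rw [e, Valuation.map_add_eq_of_lt_left _ (by rw [hz]; exact hx), hz]
  have hxw : w.valuation F x = 1 := by
    rw [← h1_val w x]
    exact hXv
  have h8 : Valued.v (X ^ 8 - 1) < (1 : WithZero (Multiplicative ℤ)) := by
    have h1 := ov_eight hD hQ w hw hxw
    rw [← h1_val w, map_sub, map_pow, map_one] at h1
    exact h1
  have h9 : Valued.v (z ^ 8 - 1) < (1 : WithZero (Multiplicative ℤ)) := by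
    have e : z ^ 8 - 1 = (X ^ 8 - 1) - (X ^ 8 - z ^ 8) := by ring
    rw [e]
    exact Valuation.map_sub_lt _ h8 (h1_pow _ hXv.le hz.le hx 8)
  have h10 := h1_lt h9
  set y := z ^ 8 - 1 with hy
  have e : z ^ 24 - 1 = 3 * y + 3 * y ^ 2 + y ^ 3 := by
    rw [hy]
    ring
  have h3 : Valued.v (3 : w.adicCompletion F) ≤ WithZero.exp (-2 : ℤ) := by
    have e3 : (3 : w.adicCompletion F) = algebraMap F (w.adicCompletion F) (jF F 3) := by
      rw [map_ofNat, map_ofNat]
    rw [e3, h1_val, CU.three_eq, map_mul, map_mul, map_pow, map_pow, ov_val hD hQ hl w hw]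
    have h4 : w.valuation F (jF F (-om ^ 2)) ≤ 1 := h1_le w (int_jF F _)
    calc _ ≤ WithZero.exp (-1 : ℤ) ^ 2 := mul_le_of_le_one_left' h4
      _ = WithZero.exp (-2 : ℤ) := by rw [← WithZero.exp_nsmul]; norm_num
  have hy1 : Valued.v y ≤ (1 : WithZero (Multiplicative ℤ)) := h9.le
  rw [e]
  have k3 : WithZero.exp (-3 : ℤ) = WithZero.exp (-2 : ℤ) * WithZero.exp (-1 : ℤ) := by
    rw [← WithZero.exp_add]
    norm_num
  have k1 : Valued.v (3 * y) ≤ WithZero.exp (-3 : ℤ) := by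
    rw [map_mul, k3]
    exact mul_le_mul' h3 h10
  apply Valuation.map_add_le
  · apply Valuation.map_add_le _ k1
    have e2 : 3 * y ^ 2 = (3 * y) * y := by ring
    rw [e2, map_mul]
    exact le_trans (mul_le_of_le_one_right' hy1) k1
  · rw [map_pow]
    calc _ ≤ WithZero.exp (-1 : ℤ) ^ 3 := pow_le_pow_left₀ zero_le h10 3
      _ = WithZero.exp (-3 : ℤ) := by rw [← WithZero.exp_nsmul]; norm_num

/-- [KBc] -/
theorem pl_of_unit (hD : D ≠ 0) (hl : ¬ la ∣ D) (hQ : Quad D r τ) {L : Eis → Prop} (w : HeightOneSpectrum (𝓞 F)) (hw : OvLa w)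
    {a : F} (ha : N1 τ a) {α G : w.adicCompletion F} (hα : Valued.v α = (1 : WithZero (Multiplicative ℤ)))
    (hia : algebraMap F (w.adicCompletion F) a = α * G ^ 3) {q : Eis} (hL : L q)
    (h : Valued.v (α ^ 8 - (α ^ 8)⁻¹ - algebraMap F (w.adicCompletion F) (jF F (la * q) * r)) ≤ WithZero.exp (-3 : ℤ)) :
    PL L r a := by
  refine ⟨q, ps_tau hD hl hQ ha w hw ?_, hL⟩
  set i := algebraMap F (w.adicCompletion F) with hi
  have hgv : Valued.v G = (1 : WithZero (Multiplicative ℤ)) := by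
    have h1 : Valued.v (i a) = (1 : WithZero (Multiplicative ℤ)) := by
      rw [hi, h1_val, ha.2 w hw]
    rw [hia, map_mul, hα, one_mul, map_pow] at h1
    rcases lt_trichotomy (Valued.v G) (1 : WithZero (Multiplicative ℤ)) with h2 | h2 | h2
    · exact absurd h1 (pow_lt_one₀ zero_le h2 (by norm_num)).ne
    · exact h2
    · exact absurd h1 (one_lt_pow₀ h2 (by norm_num)).ne'
  have h24 := v_eightU hD hl hQ w hw hgv
  have hg0 : G ≠ 0 := by
    rintro rfl
    rw [map_zero] at hgv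
    exact zero_ne_one hgv
  have hGv : Valued.v (G ^ 24) = (1 : WithZero (Multiplicative ℤ)) := by
    rw [map_pow, hgv, one_pow]
  have h24' : Valued.v ((G ^ 24)⁻¹ - 1) ≤ WithZero.exp (-3 : ℤ) := by
    have e : (G ^ 24)⁻¹ - 1 = -((G ^ 24 - 1) * (G ^ 24)⁻¹) := by
      have : G ^ 24 ≠ 0 := pow_ne_zero _ hg0
      field_simp
      ring
    rw [e, Valuation.map_neg, map_mul, map_inv₀, hGv, inv_one, mul_one]
    exact h24
  have hU : Valued.v (α ^ 8) = (1 : WithZero (Multiplicative ℤ)) := by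
    rw [map_pow, hα, one_pow]
  have hfin : Valued.v (i (a ^ 8 - (a ^ 8)⁻¹ - jF F (la * q) * r)) ≤ WithZero.exp (-3 : ℤ) := by
    have e : i (a ^ 8 - (a ^ 8)⁻¹ - jF F (la * q) * r) =
        (α ^ 8 - (α ^ 8)⁻¹ - i (jF F (la * q) * r)) +
        (α ^ 8 * (G ^ 24 - 1) - (α ^ 8)⁻¹ * ((G ^ 24)⁻¹ - 1)) := by
      rw [map_sub, map_sub, map_inv₀, map_pow, hia]
      have e2 : (α * G ^ 3) ^ 8 = α ^ 8 * G ^ 24 := by ring
      rw [e2, mul_inv]
      ring
    rw [e]
    apply Valuation.map_add_le _ h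
    refine (Valuation.map_sub _ _ _).trans (max_le ?_ ?_)
    · rw [map_mul, hU, one_mul]
      exact h24
    · rw [map_mul, map_inv₀, hU, inv_one, one_mul]
      exact h24'
  rw [hi, h1_val] at hfin
  have e3 : (WithZero.exp (-1 : ℤ)) ^ 3 = WithZero.exp (-3 : ℤ) := by
    rw [← WithZero.exp_nsmul]
    norm_num
  rw [ov_val hD hQ hl w hw, e3]
  exact hfin

/-- [KBd] -/
theorem li_of_one (hD : D ≠ 0) (hl : ¬ la ∣ D) (hQ : Quad D r τ) (w : HeightOneSpectrum (𝓞 F)) (hw : OvLa w)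
    {a : F} (ha : N1 τ a) (h : w.valuation F (a ^ 8 - 1) ≤ w.valuation F (jF F la) ^ 2) : PL Li r a := by
  obtain ⟨q, hq⟩ := ps_exists hD hl hQ ha
  refine ⟨q, hq, ?_⟩
  show la ∣ q
  have hva : w.valuation F a = 1 := ha.2 w hw
  have ha0 : a ≠ 0 := by
    rintro rfl
    rw [map_zero] at hva
    exact zero_ne_one hva
  have hlt : w.valuation F (jF F la) < 1 := hw
  have h1 : w.valuation F (a ^ 8 - (a ^ 8)⁻¹) ≤ w.valuation F (jF F la) ^ 2 := by
    have e : a ^ 8 - (a ^ 8)⁻¹ = (a ^ 8 - 1) + (a ^ 8 - 1) * (a ^ 8)⁻¹ := by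
      rw [sub_mul, mul_inv_cancel₀ (pow_ne_zero 8 ha0)]
      ring
    rw [e]
    refine Valuation.map_add_le _ h ?_
    rw [map_mul, map_inv₀, map_pow _ a, hva, one_pow, inv_one, mul_one]
    exact h
  have h2 : w.valuation F (jF F (la * q) * r) ≤ w.valuation F (jF F la) ^ 2 := by
    have e : jF F (la * q) * r = (a ^ 8 - (a ^ 8)⁻¹) - (a ^ 8 - (a ^ 8)⁻¹ - jF F (la * q) * r) := by
      ring
    rw [e]
    refine Valuation.map_sub_le _ h1 ((hq w hw).trans ?_)
    rw [pow_succ _ 2]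
    exact mul_le_of_le_one_right' hlt.le
  rw [map_mul _ _ r, (ov_D hl hQ w hw).2, mul_one, map_mul, map_mul, pow_two] at h2
  have h0 : w.valuation F (jF F la) ≠ 0 := by
    rw [ov_val hD hQ hl w hw]
    exact WithZero.exp_ne_zero
  have h3 : w.valuation F (jF F q) ≤ w.valuation F (jF F la) :=
    le_of_mul_le_mul_left h2 (zero_lt_iff.2 h0)
  exact (ov_mem w hw q).1 (lt_of_le_of_lt h3 hlt)

/-- [KBd] -/
theorem one_of_li (hD : D ≠ 0) (hl : ¬ la ∣ D) (hQ : Quad D r τ) (w : HeightOneSpectrum (𝓞 F)) (hw : OvLa w)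
    {a : F} (ha : N1 τ a) (h : PL Li r a) : w.valuation F (a ^ 8 - 1) ≤ w.valuation F (jF F la) ^ 2 := by
  obtain ⟨q, hq, hqL⟩ := h
  obtain ⟨m, rfl⟩ : la ∣ q := hqL
  have hva : w.valuation F a = 1 := ha.2 w hw
  have ha0 : a ≠ 0 := by
    rintro rfl
    rw [map_zero] at hva
    exact zero_ne_one hva
  have hlt : w.valuation F (jF F la) < 1 := hw
  have h2 : w.valuation F (jF F (la * (la * m)) * r) ≤ w.valuation F (jF F la) ^ 2 := by
    have e : la * (la * m) = la ^ 2 * m := by ring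
    rw [e, map_mul _ _ r, (ov_D hl hQ w hw).2, mul_one, map_mul, map_mul, map_pow, map_pow]
    exact mul_le_of_le_one_right' (q3b_le w (int_jF F m))
  have h1 : w.valuation F (a ^ 8 - (a ^ 8)⁻¹) ≤ w.valuation F (jF F la) ^ 2 := by
    have e : a ^ 8 - (a ^ 8)⁻¹ = (a ^ 8 - (a ^ 8)⁻¹ - jF F (la * (la * m)) * r) +
        jF F (la * (la * m)) * r := by ring
    rw [e]
    refine Valuation.map_add_le _ ((hq w hw).trans ?_) h2
    rw [pow_succ _ 2]
    exact mul_le_of_le_one_right' hlt.le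
  have h8 : w.valuation F (a ^ 8 - 1) < 1 := ov_eight hD hQ w hw hva
  have hv2 : w.valuation F (2 : F) = 1 := by
    have h3 : la ∣ (-2 : Eis) - 1 := by
      have e : (-2 : Eis) - 1 = -3 := by norm_num
      rw [e, CU.three_eq]
      exact ⟨om ^ 2 * la, by ring⟩
    have h4 := ov_one w hw h3
    rwa [map_neg, map_ofNat, Valuation.map_neg] at h4
  have h9 : w.valuation F (a ^ 8 + 1) = 1 := by
    have e : a ^ 8 + 1 = 2 + (a ^ 8 - 1) := by ring
    rw [e, Valuation.map_add_eq_of_lt_left _ (by rw [hv2]; exact h8), hv2]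
  have h10 : w.valuation F ((a ^ 8 - 1) * (a ^ 8 + 1)) ≤ w.valuation F (jF F la) ^ 2 := by
    have e : (a ^ 8 - 1) * (a ^ 8 + 1) = a ^ 8 * (a ^ 8 - (a ^ 8)⁻¹) := by
      rw [mul_sub, mul_inv_cancel₀ (pow_ne_zero 8 ha0)]
      ring
    rw [e, map_mul, map_pow, hva, one_pow, one_mul]
    exact h1
  rwa [map_mul, h9, mul_one] at h10

end

end JG
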