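import Pool.Agent.JG.KB
import Pool.Agent.JG.E7

/-!
# [JG-KR] `D` divisible by `λ` exactly once: the ramified case

PROOF. `ovR` [KRa]: `r² = jF D`, `D = la D₁`, `¬ la ∣ D₁`, `w (jF D₁) = 1` (`ov_mem`, `q3a_le`), so `w r ^ 2 = w (jF la)`; by `val_prime` (JG/G4.lean, `CU.la_prime`) `w (jF la)` is `exp (-1)` or `exp (-2)`; `w r = exp n` with `2 n = -1` is impossible, so `w (jF la) = exp (-2)`, `w r = exp (-1)`.
`invR` [KRa]: as `conj_inv` (JG/K0x.lean): `w'` the conjugate place (`exists_cj`), also over `λ`. For integral `y`: `exists_intL` (`hl2`): `jF s * y = jF a + jF b r`, `w s = w' s = 1` (`ov_one`), `w (jF b r) < 1`, `w' (jF b r) < 1` (`ovR`), so `w y < 1 ↔ w (jF a) < 1 ↔ la ∣ a ↔ w' y < 1`; `q3b_ext`.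
`uniqR` [KRa]: `ov_trans` and `invR`.
`psR_exists` [KRb]: as `ps_exists` (JG/PA.lean): `E = b^8`, `w (E - 1) ≤ exp (-1) = w r` (`ov_eight`), `z = (E - E⁻¹) / r`, `w z ≤ 1`, `τ z = z` (`τ (E - E⁻¹) = -(E - E⁻¹)`, `paa_tau`; `τ r = -r`). `exists_den hl2`: `jF s * z = jF a + jF c r`, `la ∣ s - 1`; apply `τ`: `jF c r = 0`. `n = 1 - s`, `la ∣ n`, `s' = 1 + n + n²`, `s s' = 1 - n³`.
`q = s' a`: `jF q = jF (s' s) z = z - jF (n³) z`, so `w (E - E⁻¹ - jF q r) = w (n³) w (z r) ≤ w (la)^3 w r`.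
`psR_unique`: `w (jF (q - q')) ≤ w (la)^3`, `la ∣ q - q'` (`ov_mem`), divide by `la` and repeat.
`p8_iff` [KRb]: `PsR r b q` and `w (la) = exp (-2)`: `w (E - E⁻¹) ≤ w (la)` iff `w (jF q r) ≤ exp (-2)` iff `w (jF q) ≤ exp (-1) < 1` iff `la ∣ q` (`w (jF q)` is `1` or `< 1`). And `w (E - E⁻¹) = w (E - 1)` (`E² - 1 = E (E - E⁻¹)`, `w (E + 1) = w 2 = 1`).
`lc_P8` [KRb]: `mul`: `E E' - 1 = (E - 1) E' + (E' - 1)`. `inv`: `E⁻¹ - 1 = -(E - 1) E⁻¹`. `cube`: `E³ - 1 = (E - 1)³ + 3 (E - 1)² + 3 (E - 1)`, `w (E - 1) ≤ exp (-1)`, `w 3 = exp (-4)`: `≤ exp (-3) ≤ exp (-2)`. `one`: `E = 1`. `adjust`: `q_a, q_b` (`psR_exists`), `q_a ≡ m`, `q_b ≡ n mod la` with integers (`JXD.pac_digit`), `3 ∤ n`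
(`p8_iff`); `j ∈ {0, 1, 2}` with `3 ∣ m + j n`. `(a b^j)^8 ≡ 1`: by `E ≡ 1 + (q/2) r mod w²`: `w (E - 1 - jF (2 q) r) ≤ exp (-2)` (`E - E⁻¹ - 2 (E - 1) = -(E - 1)² E⁻¹`, `w ≤ exp (-2)`, and `4 ≡ 1 mod 3`: `2 (E - 1) ≡ q r`, `E - 1 ≡ 2 q r`), so the product of `1 + j` such elements is `≡ 1 + 2 (m + j n) r ≡ 1 mod exp (-2)`.
`v_eightR` [KRc]: `w.adicCompletion F`, `z` a unit: approximate (`JD.h1_dense`), `ov_eight`: `w (z^8 - 1) ≤ exp (-1)`; `(z^8)³ - 1 = y³ + 3 y² + 3 y`, `y = z^8 - 1`, `w 3 = exp (-4)`: `≤ exp (-3)`. (As `v_eightU`, JG/KB.lean.)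
`below_valR` [KRc]: as `below_val` (JG/K0x.lean): `φ` maps units to units, the uniformizer `jK la` of `v` to `jF la` with `w = exp (-2)`.
`sol_laR` [KRd]: wanted `T = 2 a`: `T³ - 3 T = 2 u`. `V (u - 1) ≤ exp (-6)`: `(u - 1)(u + 1) = y² d'`, `V (u + 1) = 1`, `V (y² d') ≤ exp (-7)`: even `V (u - 1) ≤ exp (-7)`. `T = 2 + l² z`, `T³ - 3 T - 2 = (T - 2)(T + 1)² = l² z (3 + l² z)² = l^6 z (ε + z)²` (`3 = ε l²`) `= l^6 (z³ + 2 ε z² + ε² z)`.
`c = 2 (u - 1) / l^6`, `V c ≤ exp (-1) < 1`: `hensel3` (JD/E1.lean) with `p = 2 ε`, `q = ε²`, `t = -c`, `x₀ = 0` (the derivative at `0` is `ε²`): `V z < 1`. `T² - 1 = (T - 1)(T + 1)`, `T + 1 = l² (ε + z) ≠ 0`, `T - 1 = 1 + l² z ≠ 0`. `a = T / 2`, `b = y / (4 a² - 1)`.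
-/

set_option autoImplicit false

open NumberField IsDedekindDomain
open scoped Classical

namespace JG

open CM27 CF JZ JX JXD
open JD hiding G5b_unit G5b_val LCW_ED below_val descent det_unit disc_eq eis_cube entire_ED exists_H exists_basis exists_cj exists_den exists_int exists_kappa exists_ov exists_phiE exists_quad exists_u0 final_of finite_of_phiE finprod_neron finprod_tam finrank_KD fix_int fix_of_two g4a_exp g4a_le g4a_norm g4a_one g4a_split g4b_place g5a_norm g5a_tau g5a_three g5a_unit int_KK int_jF int_r jr_inj kk_cube m1_cube min_all n5_gen ne_of_cl not_three ov_D ov_eight ov_mem ov_trans ov_val period_ED place_cases q3a_dvd_lt q3a_la_sq q3a_le q3a_sq_lt q3b_ext q3b_int q3b_le q3b_neg q3b_pos q3b_pos_iff q3b_sq q3b_tau q3b_three q4b_crt q5_coe q5_den quot_all quot_eq s5b_not_la sha_zero step tam_la tam_one tau_jF val_prime z1_norm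
open CU (la om eE)
open CUD (IsCube)

/-- `b^8 - b⁻⁸ ≡ q √D` modulo `λ³ √D` at the places over `λ` -/
def PsR {F : Type} [Field F] [NumberField F] [Algebra KK F] (r b : F) (q : Eis) : Prop :=
  ∀ w : HeightOneSpectrum (𝓞 F), OvLa w →
    w.valuation F (b ^ 8 - (b ^ 8)⁻¹ - jF F q * r) ≤ w.valuation F (jF F la) ^ 3 * w.valuation F r

/-- `b^8 ≡ 1 mod λ` -/
def P8 {F : Type} [Field F] [NumberField F] [Algebra KK F] (b : F) : Prop :=
  ∀ w : HeightOneSpectrum (𝓞 F), OvLa w → w.valuation F (b ^ 8 - 1) ≤ w.valuation F (jF F la)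

section
variable {D : Eis} {F : Type} [Field F] [NumberField F] [Algebra KK F] {r : F} {τ : F ≃ₐ[KK] F}
  (hD : D ≠ 0) (hl : la ∣ D) (hl2 : ¬ la ^ 2 ∣ D) (hQ : Quad D r τ)
include hD hl hl2 hQ

/-- [KRa] -/
theorem ovR (w : HeightOneSpectrum (𝓞 F)) (hw : OvLa w) :
    w.valuation F (jF F la) = WithZero.exp (-2 : ℤ) ∧ w.valuation F r = WithZero.exp (-1 : ℤ) := by
  obtain ⟨D₁, hD₁⟩ := hl
  have hD₁l : ¬ la ∣ D₁ := by
    rintro ⟨c, rfl⟩
    exact hl2 ⟨c, by rw [hD₁]; ring⟩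
  have h1 : w.valuation F (jF F D₁) = 1 :=
    le_antisymm (q3a_le w (int_jF F D₁)) (not_lt.1 fun h => hD₁l ((ov_mem w hw D₁).1 h))
  have h2 : w.valuation F r ^ 2 = w.valuation F (jF F la) := by
    rw [← map_pow, hQ.sq, hD₁, map_mul, map_mul, h1, mul_one]
  have hr0 : r ≠ 0 := by
    intro h0
    apply hD
    apply jF_inj F
    rw [← hQ.sq, h0, map_zero]
    ring
  obtain ⟨n, hn⟩ := g4a_exp (w.valuation F) hr0
  rw [hn, ← WithZero.exp_nsmul] at h2
  rcases val_prime hD hQ CU.la_prime w hw with h3 | h3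
  · exfalso
    rw [h3] at h2
    have h4 := WithZero.exp_injective h2
    rw [nsmul_eq_mul] at h4
    push_cast at h4
    omega
  · refine ⟨h3, ?_⟩
    rw [h3] at h2
    have h4 := WithZero.exp_injective h2
    rw [nsmul_eq_mul] at h4
    push_cast at h4
    rw [hn, show n = -1 by omega]

theorem kra_lt (w : HeightOneSpectrum (𝓞 F)) (hw : OvLa w) (a b : Eis) :
    w.valuation F (jF F a + jF F b * r) < 1 ↔ la ∣ a := by
  have h1 : w.valuation F (jF F b * r) < 1 := by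
    rw [map_mul, (ovR hD hl hl2 hQ w hw).2]
    refine lt_of_le_of_lt (mul_le_of_le_one_left' (q3a_le w (int_jF F b))) ?_
    rw [← WithZero.exp_zero, WithZero.exp_lt_exp]
    norm_num
  rw [← ov_mem w hw a]
  constructor
  · intro h
    have e : jF F a = (jF F a + jF F b * r) - jF F b * r := by ring
    rw [e]
    exact Valuation.map_sub_lt _ h h1
  · intro h
    exact Valuation.map_add_lt _ h h1

/-- [KRa] -/
theorem invR (w : HeightOneSpectrum (𝓞 F)) (hw : OvLa w) (x : F) : w.valuation F (τ x) = w.valuation F x := by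
  obtain ⟨w', hw'⟩ := exists_cj τ w
  have hwo : OvLa w' := by
    unfold OvLa
    rw [hw', tau_jF]
    exact hw
  have h1 : w' = w := by
    apply q3b_ext
    intro y hy
    obtain ⟨s, a, b, hs, hab⟩ := exists_intL hD hQ hl2 hy
    have e1 : w.valuation F y = w.valuation F (jF F a + jF F b * r) := by
      rw [← hab, map_mul, ov_one w hw hs, one_mul]
    have e2 : w'.valuation F y = w'.valuation F (jF F a + jF F b * r) := by
      rw [← hab, map_mul, ov_one w' hwo hs, one_mul]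
    rw [e1, e2, kra_lt hD hl hl2 hQ w' hwo, kra_lt hD hl hl2 hQ w hw]
  rw [← hw', h1]

/-- [KRa] -/
theorem uniqR (w w' : HeightOneSpectrum (𝓞 F)) (hw : OvLa w) (hw' : OvLa w') (x : F) : w'.valuation F x = w.valuation F x := by
  rcases ov_trans hD hQ w w' hw hw' with h | h
  · exact h x
  · rw [h x]
    exact invR hD hl hl2 hQ w hw x

omit hl hl2 in
theorem krb_EE (w : HeightOneSpectrum (𝓞 F)) (hw : OvLa w) {b : F} (hb : w.valuation F b = 1) :
    w.valuation F (b ^ 8 - (b ^ 8)⁻¹) ≤ WithZero.exp (-1 : ℤ) := by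
  have h1 : w.valuation F (b ^ 8 - 1) ≤ WithZero.exp (-1 : ℤ) := paa_lt (ov_eight hD hQ w hw hb)
  have hE0 : b ^ 8 ≠ 0 := pow_ne_zero 8 (paa_ne hb)
  have e : b ^ 8 - (b ^ 8)⁻¹ = (b ^ 8 - 1) + (b ^ 8 - 1) * (b ^ 8)⁻¹ := by
    rw [sub_mul, mul_inv_cancel₀ hE0]
    ring
  rw [e]
  refine Valuation.map_add_le _ h1 ?_
  rw [map_mul, map_inv₀, map_pow, hb, one_pow, inv_one, mul_one]
  exact h1

omit hl hl2 in
theorem krb_eq (w : HeightOneSpectrum (𝓞 F)) (hw : OvLa w) {b : F} (hb : w.valuation F b = 1) :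
    w.valuation F (b ^ 8 - (b ^ 8)⁻¹) = w.valuation F (b ^ 8 - 1) := by
  have hE0 : b ^ 8 ≠ 0 := pow_ne_zero 8 (paa_ne hb)
  have h2 : w.valuation F (2 : F) = 1 := by
    have e : (2 : F) = jF F 2 := by rw [map_ofNat]
    rw [e]
    refine le_antisymm (q3a_le w (int_jF F _)) (not_lt.1 fun h => ?_)
    have h1 := (ov_mem w hw 2).1 h
    rw [CU.la_dvd_iff] at h1
    revert h1
    decide
  have h3 : w.valuation F (b ^ 8 + 1) = 1 := by
    have e : b ^ 8 + 1 = (b ^ 8 - 1) + 2 := by ring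
    rw [e, Valuation.map_add_eq_of_lt_right _ (by rw [h2]; exact ov_eight hD hQ w hw hb), h2]
  have e : b ^ 8 - (b ^ 8)⁻¹ = (b ^ 8 - 1) * (b ^ 8 + 1) * (b ^ 8)⁻¹ := by
    have h4 : (b ^ 8)⁻¹ * b ^ 8 = 1 := inv_mul_cancel₀ hE0
    linear_combination (-b ^ 8) * h4
  rw [e, map_mul, map_mul, map_inv₀, map_pow, hb, one_pow, inv_one, mul_one, h3, mul_one]

theorem krb_three (w : HeightOneSpectrum (𝓞 F)) (hw : OvLa w) :
    w.valuation F (3 : F) ≤ WithZero.exp (-4 : ℤ) := by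
  have e3 : (3 : F) = jF F 3 := by rw [map_ofNat]
  rw [e3, CU.three_eq, map_mul, map_mul, map_pow _ la, map_pow, (ovR hD hl hl2 hQ w hw).1]
  calc _ ≤ 1 * WithZero.exp (-2 : ℤ) ^ 2 := mul_le_mul' (q3a_le w (int_jF F _)) le_rfl
    _ = WithZero.exp (-4 : ℤ) := by rw [one_mul, ← WithZero.exp_nsmul]; norm_num

/-- `b^8 ≡ 1 + 2 m r` -/
theorem krb_K (w : HeightOneSpectrum (𝓞 F)) (hw : OvLa w) {b : F} (hb : w.valuation F b = 1) {q q1 : Eis}
    {m : ℤ} (hq : w.valuation F (b ^ 8 - (b ^ 8)⁻¹ - jF F q * r) ≤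
      w.valuation F (jF F la) ^ 3 * w.valuation F r) (hm : q = (m : Eis) + la * q1) :
    w.valuation F (b ^ 8 - 1 - 2 * (m : F) * r) ≤ WithZero.exp (-2 : ℤ) := by
  obtain ⟨hla, hr⟩ := ovR hD hl hl2 hQ w hw
  have hE0 : b ^ 8 ≠ 0 := pow_ne_zero 8 (paa_ne hb)
  have h1 : w.valuation F (b ^ 8 - 1) ≤ WithZero.exp (-1 : ℤ) := paa_lt (ov_eight hD hQ w hw hb)
  have h2 : w.valuation F (b ^ 8 - (b ^ 8)⁻¹ - jF F q * r) ≤ WithZero.exp (-2 : ℤ) := by
    refine le_trans hq ?_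
    rw [hla, hr, ← WithZero.exp_nsmul, ← WithZero.exp_add, WithZero.exp_le_exp]
    norm_num
  have h3 : w.valuation F ((b ^ 8 - 1) ^ 2 * (b ^ 8)⁻¹) ≤ WithZero.exp (-2 : ℤ) := by
    rw [map_mul, map_inv₀, map_pow _ b, hb, one_pow, inv_one, mul_one, map_pow]
    calc w.valuation F (b ^ 8 - 1) ^ 2 ≤ WithZero.exp (-1 : ℤ) ^ 2 := pow_le_pow_left₀ zero_le h1 2
      _ ≤ _ := by
        rw [← WithZero.exp_nsmul, WithZero.exp_le_exp]
        norm_num
  have h4 : w.valuation F (jF F la * (jF F q1 * r)) ≤ WithZero.exp (-2 : ℤ) := by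
    rw [map_mul, hla]
    exact mul_le_of_le_one_right' (q3a_le w ((int_jF F _).mul (int_r hQ)))
  have h5 : w.valuation F (3 * (b ^ 8 - 1)) ≤ WithZero.exp (-2 : ℤ) := by
    rw [map_mul]
    calc w.valuation F 3 * w.valuation F (b ^ 8 - 1) ≤ WithZero.exp (-4 : ℤ) * WithZero.exp (-1 : ℤ) :=
          mul_le_mul' (krb_three hD hl hl2 hQ w hw) h1
      _ ≤ _ := by
        rw [← WithZero.exp_add, WithZero.exp_le_exp]
        norm_num
  have h6 : ∀ x : F, w.valuation F x ≤ WithZero.exp (-2 : ℤ) →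
      w.valuation F (2 * x) ≤ WithZero.exp (-2 : ℤ) := by
    intro x hx
    rw [two_mul]
    exact Valuation.map_add_le _ hx hx
  have e : b ^ 8 - 1 - 2 * (m : F) * r = 2 * (b ^ 8 - (b ^ 8)⁻¹ - jF F q * r) +
      2 * ((b ^ 8 - 1) ^ 2 * (b ^ 8)⁻¹) + 2 * (jF F la * (jF F q1 * r)) - 3 * (b ^ 8 - 1) := by
    have h7 : jF F q = (m : F) + jF F la * jF F q1 := by
      rw [hm, map_add, map_mul, map_intCast]
    have h8 : (b ^ 8)⁻¹ * b ^ 8 = 1 := inv_mul_cancel₀ hE0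
    rw [h7]
    linear_combination (4 - 2 * b ^ 8) * h8
  rw [e]
  exact Valuation.map_sub_le _ (Valuation.map_add_le _ (Valuation.map_add_le _ (h6 _ h2) (h6 _ h3))
    (h6 _ h4)) h5

theorem krb_Kmul (w : HeightOneSpectrum (𝓞 F)) (hw : OvLa w) {x y : F} {m n : ℤ}
    (hy : w.valuation F y = 1) (hy1 : w.valuation F (y - 1) ≤ WithZero.exp (-1 : ℤ))
    (hx : w.valuation F (x - 1 - 2 * (m : F) * r) ≤ WithZero.exp (-2 : ℤ))
    (hn : w.valuation F (y - 1 - 2 * (n : F) * r) ≤ WithZero.exp (-2 : ℤ)) :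
    w.valuation F (x * y - 1 - 2 * ((m + n : ℤ) : F) * r) ≤ WithZero.exp (-2 : ℤ) := by
  obtain ⟨hla, hr⟩ := ovR hD hl hl2 hQ w hw
  have e : x * y - 1 - 2 * ((m + n : ℤ) : F) * r = (x - 1 - 2 * (m : F) * r) * y +
      (y - 1 - 2 * (n : F) * r) + jF F (2 * (m : Eis)) * r * (y - 1) := by
    rw [map_mul, map_ofNat, map_intCast]
    push_cast
    ring
  rw [e]
  refine Valuation.map_add_le _ (Valuation.map_add_le _ ?_ hn) ?_
  · rw [map_mul, hy, mul_one]
    exact hx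
  · rw [map_mul, map_mul _ _ r, hr]
    calc w.valuation F (jF F (2 * (m : Eis))) * WithZero.exp (-1 : ℤ) * w.valuation F (y - 1) ≤
        1 * WithZero.exp (-1 : ℤ) * WithZero.exp (-1 : ℤ) := by
          refine mul_le_mul' (mul_le_mul' (q3a_le w (int_jF F _)) le_rfl) hy1
      _ = _ := by
        rw [one_mul, ← WithZero.exp_add]
        norm_num

/-- [KRb] -/
theorem psR_exists {b : F} (hb : N1 τ b) : ∃ q : Eis, PsR r b q := by
  obtain ⟨w₀, hw₀⟩ := exists_ov hD hQ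
  have hb0 : b ≠ 0 := paa_ne (hb.2 w₀ hw₀)
  have hE0 : b ^ 8 ≠ 0 := pow_ne_zero 8 hb0
  have hr0 : r ≠ 0 := by
    rintro rfl
    have h1 := (ovR hD hl hl2 hQ w₀ hw₀).2
    rw [map_zero] at h1
    exact WithZero.exp_ne_zero h1.symm
  have hEE : ∀ w : HeightOneSpectrum (𝓞 F), OvLa w →
      w.valuation F (b ^ 8 - (b ^ 8)⁻¹) ≤ w.valuation F r := by
    intro w hw
    rw [(ovR hD hl hl2 hQ w hw).2]
    exact krb_EE hD hQ w hw (hb.2 w hw)
  obtain ⟨s, a, c, hs, hz⟩ := exists_den hD hQ hl2 (z := (b ^ 8 - (b ^ 8)⁻¹) / r) (by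
    intro w hw
    rw [map_div₀]
    exact div_le_one_of_le₀ (hEE w hw) zero_le)
  have hz2 : jF F s * ((b ^ 8 - (b ^ 8)⁻¹) / r) = jF F a - jF F c * r := by
    have h1 := congrArg τ hz
    rw [map_mul, tau_jF, map_div₀, hQ.tau, paa_tau hb hb0, map_add, map_mul, tau_jF, tau_jF,
      neg_div_neg_eq, hQ.tau] at h1
    rw [h1]
    ring
  have ha : jF F c * r = 0 := by
    have h2 : (2 : F) * (jF F c * r) = 0 := by linear_combination hz2 - hz
    rcases mul_eq_zero.1 h2 with h2 | h2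
    · exact absurd h2 two_ne_zero
    · exact h2
  rw [ha, add_zero] at hz
  have hz3 : jF F s * (b ^ 8 - (b ^ 8)⁻¹) = jF F a * r := by
    rw [← hz]
    field_simp
  obtain ⟨k, hk⟩ := hs
  refine ⟨(1 - la * k + (la * k) ^ 2) * a, ?_⟩
  intro w hw
  have e : b ^ 8 - (b ^ 8)⁻¹ - jF F ((1 - la * k + (la * k) ^ 2) * a) * r =
      -(jF F la ^ 3 * jF F (k ^ 3) * (b ^ 8 - (b ^ 8)⁻¹)) := by
    have h1 : jF F ((1 - la * k + (la * k) ^ 2) * a) * r =
        jF F (1 - la * k + (la * k) ^ 2) * (jF F a * r) := by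
      rw [map_mul]
      ring
    rw [h1, ← hz3]
    have h2 : jF F s = 1 + jF F la * jF F k := by
      rw [← map_mul, ← hk, map_sub, map_one]
      ring
    rw [h2, map_add, map_sub, map_one, map_pow, map_mul, map_pow]
    ring
  rw [e, Valuation.map_neg, map_mul, map_mul, map_pow]
  calc w.valuation F (jF F la) ^ 3 * w.valuation F (jF F (k ^ 3)) *
        w.valuation F (b ^ 8 - (b ^ 8)⁻¹) ≤
        w.valuation F (jF F la) ^ 3 * 1 * w.valuation F r := by
        gcongr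
        · exact q3a_le w (int_jF F _)
        · exact hEE w hw
    _ = _ := by rw [mul_one]

/-- [KRb] -/
theorem psR_unique {b : F} {q q' : Eis} (h : PsR r b q) (h' : PsR r b q') : la ^ 3 ∣ q - q' := by
  obtain ⟨w, hw⟩ := exists_ov hD hQ
  obtain ⟨hla, hr⟩ := ovR hD hl hl2 hQ w hw
  have hlt : w.valuation F (jF F la) < 1 := hw
  have hpos : 0 < w.valuation F (jF F la) := by
    rw [hla]
    exact zero_lt_iff.2 WithZero.exp_ne_zero
  have hrpos : 0 < w.valuation F r := by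
    rw [hr]
    exact zero_lt_iff.2 WithZero.exp_ne_zero
  have h1 : w.valuation F (jF F (q - q')) ≤ w.valuation F (jF F la) ^ 3 := by
    have e : jF F (q - q') * r = (b ^ 8 - (b ^ 8)⁻¹ - jF F q' * r) -
        (b ^ 8 - (b ^ 8)⁻¹ - jF F q * r) := by
      rw [map_sub]
      ring
    have h2 : w.valuation F (jF F (q - q') * r) ≤ w.valuation F (jF F la) ^ 3 * w.valuation F r := by
      rw [e]
      exact Valuation.map_sub_le _ (h' w hw) (h w hw)
    rw [map_mul] at h2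
    exact le_of_mul_le_mul_right h2 hrpos
  obtain ⟨m, hm⟩ := (ov_mem w hw (q - q')).1 (lt_of_le_of_lt h1 (pow_lt_one₀ zero_le hlt three_ne_zero))
  rw [hm, map_mul, map_mul, pow_succ' _ 2] at h1
  have h2 : w.valuation F (jF F m) ≤ w.valuation F (jF F la) ^ 2 := le_of_mul_le_mul_left h1 hpos
  obtain ⟨m', hm'⟩ := (ov_mem w hw m).1 (lt_of_le_of_lt h2 (pow_lt_one₀ zero_le hlt two_ne_zero))
  rw [hm', map_mul, map_mul, pow_succ' _ 1, pow_one] at h2
  have h3 : w.valuation F (jF F m') ≤ w.valuation F (jF F la) := le_of_mul_le_mul_left h2 hpos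
  obtain ⟨n, hn⟩ := (ov_mem w hw m').1 (lt_of_le_of_lt h3 hlt)
  refine ⟨n, ?_⟩
  rw [hm, hm', hn]
  ring

/-- [KRb] -/
theorem p8_iff {b : F} (hb : N1 τ b) {q : Eis} (h : PsR r b q) : P8 b ↔ la ∣ q := by
  have hsm : ∀ w : HeightOneSpectrum (𝓞 F), OvLa w →
      w.valuation F (b ^ 8 - (b ^ 8)⁻¹ - jF F q * r) ≤ WithZero.exp (-2 : ℤ) := by
    intro w hw
    obtain ⟨hla, hr⟩ := ovR hD hl hl2 hQ w hw
    refine le_trans (h w hw) ?_
    rw [hla, hr, ← WithZero.exp_nsmul, ← WithZero.exp_add, WithZero.exp_le_exp]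
    norm_num
  constructor
  · intro hP
    obtain ⟨w, hw⟩ := exists_ov hD hQ
    obtain ⟨hla, hr⟩ := ovR hD hl hl2 hQ w hw
    have h1 : w.valuation F (b ^ 8 - (b ^ 8)⁻¹) ≤ WithZero.exp (-2 : ℤ) := by
      rw [krb_eq hD hQ w hw (hb.2 w hw), ← hla]
      exact hP w hw
    have h2 : w.valuation F (jF F q * r) ≤ WithZero.exp (-2 : ℤ) := by
      have e : jF F q * r = (b ^ 8 - (b ^ 8)⁻¹) - (b ^ 8 - (b ^ 8)⁻¹ - jF F q * r) := by ring
      rw [e]
      exact Valuation.map_sub_le _ h1 (hsm w hw)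
    rw [map_mul, hr] at h2
    have e3 : WithZero.exp (-2 : ℤ) = WithZero.exp (-1 : ℤ) * WithZero.exp (-1 : ℤ) := by
      rw [← WithZero.exp_add]
      norm_num
    rw [e3] at h2
    have h3 : w.valuation F (jF F q) ≤ WithZero.exp (-1 : ℤ) :=
      le_of_mul_le_mul_right h2 (zero_lt_iff.2 WithZero.exp_ne_zero)
    rw [← ov_mem w hw]
    refine lt_of_le_of_lt h3 ?_
    rw [← WithZero.exp_zero, WithZero.exp_lt_exp]
    norm_num
  · rintro ⟨m, rfl⟩ w hw
    obtain ⟨hla, hr⟩ := ovR hD hl hl2 hQ w hw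
    rw [← krb_eq hD hQ w hw (hb.2 w hw), hla]
    have e : b ^ 8 - (b ^ 8)⁻¹ = (b ^ 8 - (b ^ 8)⁻¹ - jF F (la * m) * r) + jF F la * (jF F m * r) := by
      rw [map_mul]
      ring
    rw [e]
    refine Valuation.map_add_le _ (hsm w hw) ?_
    rw [map_mul, hla]
    refine mul_le_of_le_one_right' (q3a_le w ((int_jF F m).mul (int_r hQ)))

/-- [KRb] -/
theorem lc_P8 : LC τ (P8 : F → Prop) := by
  have h12 : ∀ w : HeightOneSpectrum (𝓞 F), OvLa w → ∀ b : F, w.valuation F b = 1 →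
      w.valuation F (b ^ 8 - 1) ≤ WithZero.exp (-1 : ℤ) := fun w hw b hb =>
    paa_lt (ov_eight hD hQ w hw hb)
  refine ⟨?_, ?_, ?_, ?_, ?_⟩
  · intro a b ha hb hPa hPb w hw
    have e : (a * b) ^ 8 - 1 = (a ^ 8 - 1) * b ^ 8 + (b ^ 8 - 1) := by ring
    rw [e]
    refine Valuation.map_add_le _ ?_ (hPb w hw)
    rw [map_mul, map_pow _ b, hb.2 w hw, one_pow, mul_one]
    exact hPa w hw
  · intro a ha hPa w hw
    have h0 : a ^ 8 ≠ 0 := pow_ne_zero 8 (paa_ne (ha.2 w hw))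
    have e : a⁻¹ ^ 8 - 1 = -((a ^ 8 - 1) * (a ^ 8)⁻¹) := by
      rw [inv_pow, sub_mul, mul_inv_cancel₀ h0]
      ring
    rw [e, Valuation.map_neg, map_mul, map_inv₀, map_pow _ a, ha.2 w hw, one_pow, inv_one, mul_one]
    exact hPa w hw
  · intro a ha w hw
    obtain ⟨hla, hr⟩ := ovR hD hl hl2 hQ w hw
    have h1 := h12 w hw a (ha.2 w hw)
    have h3 := krb_three hD hl hl2 hQ w hw
    have e : (a ^ 3) ^ 8 - 1 = (a ^ 8 - 1) ^ 3 + 3 * ((a ^ 8 - 1) ^ 2 + (a ^ 8 - 1)) := by ring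
    have hle1 : w.valuation F (a ^ 8 - 1) ≤ 1 := le_trans h1 (by
      rw [← WithZero.exp_zero, WithZero.exp_le_exp]
      norm_num)
    rw [e, hla]
    refine Valuation.map_add_le _ ?_ ?_
    · rw [map_pow]
      calc w.valuation F (a ^ 8 - 1) ^ 3 ≤ WithZero.exp (-1 : ℤ) ^ 3 := pow_le_pow_left₀ zero_le h1 3
        _ ≤ _ := by
          rw [← WithZero.exp_nsmul, WithZero.exp_le_exp]
          norm_num
    · rw [map_mul]
      calc w.valuation F 3 * w.valuation F ((a ^ 8 - 1) ^ 2 + (a ^ 8 - 1)) ≤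
          WithZero.exp (-4 : ℤ) * 1 := by
            refine mul_le_mul' h3 (Valuation.map_add_le _ ?_ hle1)
            rw [map_pow]
            exact pow_le_one₀ zero_le hle1
        _ ≤ _ := by
          rw [mul_one, WithZero.exp_le_exp]
          norm_num
  · intro a h w _
    rw [h, sub_self, map_zero]
    exact zero_le
  · intro a b ha hb hPb
    obtain ⟨qa, hqa⟩ := psR_exists hD hl hl2 hQ ha
    obtain ⟨qb, hqb⟩ := psR_exists hD hl hl2 hQ hb
    have hnb : ¬ la ∣ qb := fun h => hPb ((p8_iff hD hl hl2 hQ hb hqb).2 h)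
    obtain ⟨m, -, a1, hm⟩ := pac_digit qa
    obtain ⟨n, -, b1, hn⟩ := pac_digit qb
    have hn3 : ¬ (3 : ℤ) ∣ n := by
      intro h
      apply hnb
      rw [hn]
      exact dvd_add ((pac_int n).2 h) (dvd_mul_right _ _)
    obtain ⟨j, hj⟩ : ∃ j : ℕ, (3 : ℤ) ∣ m + j * n := by
      by_cases h0 : (3 : ℤ) ∣ m
      · exact ⟨0, by simpa using h0⟩
      · by_cases h1 : (3 : ℤ) ∣ m + n
        · exact ⟨1, by simpa using h1⟩
        · refine ⟨2, ?_⟩
          push_cast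
          have k1 : m % 3 = 1 ∨ m % 3 = 2 := by omega
          have k2 : n % 3 = 1 ∨ n % 3 = 2 := by omega
          rcases k1 with k1 | k1 <;> rcases k2 with k2 | k2 <;> omega
    refine ⟨j, ?_⟩
    intro w hw
    obtain ⟨hla, hr⟩ := ovR hD hl hl2 hQ w hw
    have Ka := krb_K hD hl hl2 hQ w hw (ha.2 w hw) (hqa w hw) hm
    have Kb := krb_K hD hl hl2 hQ w hw (hb.2 w hw) (hqb w hw) hn
    have Kbj : ∀ i : ℕ, w.valuation F ((b ^ i) ^ 8 - 1 - 2 * ((i * n : ℤ) : F) * r) ≤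
        WithZero.exp (-2 : ℤ) := by
      intro i
      induction i with
      | zero =>
        have e : (b ^ 0) ^ 8 - 1 - 2 * (((0 : ℕ) * n : ℤ) : F) * r = 0 := by
          push_cast
          ring
        rw [e, map_zero]
        exact zero_le
      | succ i ih =>
        have h1 := krb_Kmul hD hl hl2 hQ w hw (x := (b ^ i) ^ 8) (y := b ^ 8) (m := i * n) (n := n)
          (by rw [map_pow, hb.2 w hw, one_pow]) (h12 w hw b (hb.2 w hw)) ih Kb
        have e : (b ^ (i + 1)) ^ 8 - 1 - 2 * (((i + 1 : ℕ) * n : ℤ) : F) * r =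
            (b ^ i) ^ 8 * b ^ 8 - 1 - 2 * (((i * n + n : ℤ)) : F) * r := by
          push_cast
          ring
        rw [e]
        exact h1
    have hbj : w.valuation F (b ^ j) = 1 := by rw [map_pow, hb.2 w hw, one_pow]
    have h1 := krb_Kmul hD hl hl2 hQ w hw (x := a ^ 8) (y := (b ^ j) ^ 8) (m := m) (n := j * n)
      (by rw [map_pow, hbj, one_pow]) (h12 w hw _ hbj) Ka (Kbj j)
    obtain ⟨k, hk⟩ := hj
    have e : (a * b ^ j) ^ 8 - 1 = (a ^ 8 * (b ^ j) ^ 8 - 1 - 2 * ((m + j * n : ℤ) : F) * r) +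
        3 * (2 * (k : F) * r) := by
      rw [hk]
      push_cast
      ring
    rw [e, hla]
    refine Valuation.map_add_le _ h1 ?_
    rw [map_mul]
    have h2 : w.valuation F (2 * (k : F) * r) ≤ 1 := by
      have e2 : 2 * (k : F) * r = jF F (2 * (k : Eis)) * r := by
        rw [map_mul, map_ofNat, map_intCast]
      rw [e2]
      exact q3a_le w ((int_jF F _).mul (int_r hQ))
    calc w.valuation F 3 * w.valuation F (2 * (k : F) * r) ≤ WithZero.exp (-4 : ℤ) * 1 :=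
          mul_le_mul' (krb_three hD hl hl2 hQ w hw) h2
      _ ≤ _ := by
          rw [mul_one, WithZero.exp_le_exp]
          norm_num

/-- [KRc] -/
theorem v_eightR (w : HeightOneSpectrum (𝓞 F)) (hw : OvLa w) {z : w.adicCompletion F}
    (hz : Valued.v z = (1 : WithZero (Multiplicative ℤ))) :
    Valued.v (z ^ 8 - 1) ≤ WithZero.exp (-1 : ℤ) ∧ Valued.v (z ^ 24 - 1) ≤ WithZero.exp (-3 : ℤ) := by
  obtain ⟨x, hx⟩ := h1_dense w z
  set X : w.adicCompletion F := algebraMap F (w.adicCompletion F) x with hX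
  have hXv : Valued.v X = (1 : WithZero (Multiplicative ℤ)) := by
    have e : X = z + (X - z) := by ring
    rw [e, Valuation.map_add_eq_of_lt_left _ (by rw [hz]; exact hx), hz]
  have hxw : w.valuation F x = 1 := by
    rw [← h1_val w x]
    exact hXv
  have h8 : Valued.v (X ^ 8 - 1) < (1 : WithZero (Multiplicative ℤ)) := by
    have h1 := ov_eight hD hQ w hw hxw
    rw [← h1_val w, map_sub, map_pow, map_one] at h1
    exact h1
  have h9 : Valued.v (z ^ 8 - 1) < (1 : WithZero (Multiplicative ℤ)) := by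
    have e : z ^ 8 - 1 = (X ^ 8 - 1) - (X ^ 8 - z ^ 8) := by ring
    rw [e]
    exact Valuation.map_sub_lt _ h8 (h1_pow _ hXv.le hz.le hx 8)
  have h10 := h1_lt h9
  refine ⟨h10, ?_⟩
  set y := z ^ 8 - 1 with hy
  have e : z ^ 24 - 1 = 3 * y + 3 * y ^ 2 + y ^ 3 := by
    rw [hy]
    ring
  have h3 : Valued.v (3 : w.adicCompletion F) ≤ WithZero.exp (-2 : ℤ) := by
    have e3 : (3 : w.adicCompletion F) = algebraMap F (w.adicCompletion F) (jF F 3) := by
      rw [map_ofNat, map_ofNat]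
    rw [e3, h1_val, CU.three_eq, map_mul, map_mul, map_pow, map_pow, (ovR hD hl hl2 hQ w hw).1]
    have h4 : w.valuation F (jF F (-om ^ 2)) ≤ 1 := h1_le w (int_jF F _)
    calc _ ≤ WithZero.exp (-2 : ℤ) ^ 2 := mul_le_of_le_one_left' h4
      _ = WithZero.exp (-4 : ℤ) := by rw [← WithZero.exp_nsmul]; norm_num
      _ ≤ WithZero.exp (-2 : ℤ) := by rw [WithZero.exp_le_exp]; norm_num
  have hy1 : Valued.v y ≤ (1 : WithZero (Multiplicative ℤ)) := h9.le
  rw [e]
  have k3 : WithZero.exp (-3 : ℤ) = WithZero.exp (-2 : ℤ) * WithZero.exp (-1 : ℤ) := by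
    rw [← WithZero.exp_add]
    norm_num
  have k1 : Valued.v (3 * y) ≤ WithZero.exp (-3 : ℤ) := by
    rw [map_mul, k3]
    exact mul_le_mul' h3 h10
  apply Valuation.map_add_le
  · apply Valuation.map_add_le _ k1
    have e2 : 3 * y ^ 2 = (3 * y) * y := by ring
    rw [e2, map_mul]
    exact le_trans (mul_le_of_le_one_right' hy1) k1
  · rw [map_pow]
    calc _ ≤ WithZero.exp (-1 : ℤ) ^ 3 := pow_le_pow_left₀ zero_le h10 3
      _ = WithZero.exp (-3 : ℤ) := by rw [← WithZero.exp_nsmul]; norm_num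

/-- [KRc] -/
theorem below_valR {v : HeightOneSpectrum (𝓞 KK)} {w : HeightOneSpectrum (𝓞 F)} {φ : v.adicCompletion KK →+* w.adicCompletion F}
    (h : Below v w φ) (hw : OvLa w) (x : v.adicCompletion KK) :
    (Valued.v (φ x) : WithZero (Multiplicative ℤ)) = Valued.v x ^ 2 := by
  have h1 := below_la h hw
  have h2 : Valued.v (φ (algebraMap KK (v.adicCompletion KK) (jK la))) = WithZero.exp (-2 : ℤ) := by
    rw [h.comm]
    have h3 := (ovR hD hl hl2 hQ w hw).1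
    rw [← HeightOneSpectrum.valuedAdicCompletion_eq_valuation'] at h3
    exact h3
  rcases eq_or_ne x 0 with rfl | hx
  · rw [map_zero, map_zero, map_zero]
    simp
  · set π := algebraMap KK (v.adicCompletion KK) (jK la) with hπ
    have hv0 : (Valued.v x : WithZero (Multiplicative ℤ)) ≠ 0 := (Valuation.ne_zero_iff _).2 hx
    obtain ⟨n, hn⟩ : ∃ n : ℤ, (Valued.v x : WithZero (Multiplicative ℤ)) = WithZero.exp (-1 : ℤ) ^ n := by
      refine ⟨-WithZero.log (Valued.v x : WithZero (Multiplicative ℤ)), ?_⟩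
      rw [← WithZero.exp_zsmul]
      simp only [smul_eq_mul, mul_neg, mul_one, neg_neg]
      exact (WithZero.exp_log hv0).symm
    have hπ0 : π ≠ 0 := by
      intro h3
      rw [h3, map_zero] at h1
      exact absurd h1.symm (by simp)
    set y := x * π ^ (-n) with hy
    have hy1 : Valued.v y = (1 : WithZero (Multiplicative ℤ)) := by
      rw [hy, map_mul, map_zpow₀, h1, hn, ← zpow_add₀ (by simp)]
      simp
    have hy0 : y ≠ 0 := mul_ne_zero hx (zpow_ne_zero _ hπ0)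
    have e1 : Valued.v (φ y) ≤ (1 : WithZero (Multiplicative ℤ)) := h.int y hy1.le
    have e2 : Valued.v (φ y⁻¹) ≤ (1 : WithZero (Multiplicative ℤ)) := by
      refine h.int y⁻¹ ?_
      rw [map_inv₀, hy1, inv_one]
    have e3 : Valued.v (φ y) = (1 : WithZero (Multiplicative ℤ)) := by
      refine le_antisymm e1 ?_
      rw [map_inv₀, map_inv₀] at e2
      have h0 : (Valued.v (φ y) : WithZero (Multiplicative ℤ)) ≠ 0 :=
        (Valuation.ne_zero_iff _).2 ((map_ne_zero φ).2 hy0)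
      exact (inv_le_one₀ (zero_lt_iff.2 h0)).1 e2
    have e4 : x = y * π ^ n := by
      rw [hy, mul_assoc, ← zpow_add₀ hπ0, neg_add_cancel, zpow_zero, mul_one]
    rw [hn, e4, map_mul, map_mul, e3, one_mul, map_zpow₀, map_zpow₀, h2, ← WithZero.exp_zsmul, ← WithZero.exp_zsmul,
      ← WithZero.exp_nsmul]
    congr 1
    simp
    ring

end

/-- [KRd] -/
theorem sol_laR (v : HeightOneSpectrum (𝓞 KK)) {l ε d' u y : v.adicCompletion KK}
    (hL : Loc3 (Valued.v : Valuation (v.adicCompletion KK) (WithZero (Multiplicative ℤ))) l ε)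
    (hd : Valued.v d' = (WithZero.exp (-1 : ℤ) : WithZero (Multiplicative ℤ)))
    (hu : Valued.v (u - 1) < (1 : WithZero (Multiplicative ℤ))) (hy : Valued.v y ≤ WithZero.exp (-3 : ℤ))
    (h : u ^ 2 - y ^ 2 * d' = 1) : Sol3 u y := by
  have hl1 : Valued.v l = (WithZero.exp (-1 : ℤ) : WithZero (Multiplicative ℤ)) := hL.hl
  have heps : Valued.v ε = (1 : WithZero (Multiplicative ℤ)) := hL.heps
  have hthree := hL.three
  have hllt : Valued.v l < (1 : WithZero (Multiplicative ℤ)) := by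
    rw [hl1, ← WithZero.exp_zero, WithZero.exp_lt_exp]
    norm_num
  have hl0 : l ≠ 0 := by
    rintro rfl
    rw [map_zero] at hl1
    exact WithZero.exp_ne_zero hl1.symm
  have h3v : Valued.v (3 : v.adicCompletion KK) < (1 : WithZero (Multiplicative ℤ)) := by
    rw [hthree, map_mul, map_pow, heps, one_mul]
    exact pow_lt_one₀ zero_le hllt two_ne_zero
  have h2v : Valued.v (2 : v.adicCompletion KK) = (1 : WithZero (Multiplicative ℤ)) := by
    have e : (2 : v.adicCompletion KK) = -1 + 3 := by norm_num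
    rw [e, Valuation.map_add_eq_of_lt_left _ (by rw [Valuation.map_neg, map_one]; exact h3v),
      Valuation.map_neg, map_one]
  have h20 : (2 : v.adicCompletion KK) ≠ 0 := by
    intro h0
    rw [h0, map_zero] at h2v
    exact zero_ne_one h2v
  have hu1 : Valued.v (u + 1) = (1 : WithZero (Multiplicative ℤ)) := by
    have e : u + 1 = 2 + (u - 1) := by ring
    rw [e, Valuation.map_add_eq_of_lt_left _ (by rw [h2v]; exact hu), h2v]
  have hu7 : Valued.v (u - 1) ≤ (WithZero.exp (-7 : ℤ) : WithZero (Multiplicative ℤ)) := by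
    have e : (u - 1) * (u + 1) = y ^ 2 * d' := by linear_combination h
    have e2 : Valued.v (u - 1) = Valued.v y ^ 2 * Valued.v d' := by
      rw [← map_pow, ← map_mul, ← e, map_mul, hu1, mul_one]
    rw [e2, hd]
    calc Valued.v y ^ 2 * WithZero.exp (-1 : ℤ) ≤ WithZero.exp (-3 : ℤ) ^ 2 * WithZero.exp (-1 : ℤ) :=
          mul_le_mul' (pow_le_pow_left₀ zero_le hy 2) le_rfl
      _ = WithZero.exp (-7 : ℤ) := by
          rw [← WithZero.exp_nsmul, ← WithZero.exp_add]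
          norm_num
  obtain ⟨c, hc⟩ : ∃ c, c = 2 * (u - 1) / l ^ 6 := ⟨_, rfl⟩
  have hcl : l ^ 6 * c = 2 * (u - 1) := by
    rw [hc, mul_div_cancel₀ _ (pow_ne_zero 6 hl0)]
  have hcv : Valued.v c < (1 : WithZero (Multiplicative ℤ)) := by
    rw [hc, map_div₀, map_mul, h2v, one_mul, map_pow, hl1, ← WithZero.exp_nsmul]
    rw [div_lt_one₀ (zero_lt_iff.2 WithZero.exp_ne_zero)]
    refine lt_of_le_of_lt hu7 ?_
    rw [WithZero.exp_lt_exp]
    norm_num
  obtain ⟨z, hz, hz1⟩ := hensel3 v (p := 2 * ε) (q := ε ^ 2) (t := -c) (x₀ := 0)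
    (by rw [map_mul, h2v, heps, one_mul]) (by rw [map_pow, heps, one_pow])
    (by rw [Valuation.map_neg]; exact hcv.le) (by rw [map_zero]; exact zero_le) (by
      have h5 : (0 : v.adicCompletion KK) ^ 3 + 2 * ε * 0 ^ 2 + ε ^ 2 * 0 + -c = -c := by ring
      rw [h5, Valuation.map_neg]
      exact hcv) (by
      have h5 : 3 * (0 : v.adicCompletion KK) ^ 2 + 2 * (2 * ε) * 0 + ε ^ 2 = ε ^ 2 := by ring
      rw [h5, map_pow, heps, one_pow])
  rw [sub_zero] at hz1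
  have hezv : Valued.v (ε + z) = (1 : WithZero (Multiplicative ℤ)) := by
    rw [Valuation.map_add_eq_of_lt_left _ (by rw [heps]; exact hz1), heps]
  have hez0 : ε + z ≠ 0 := by
    intro h0
    rw [h0, map_zero] at hezv
    exact zero_ne_one hezv
  have hlz : Valued.v (l ^ 2 * z) < (1 : WithZero (Multiplicative ℤ)) := by
    rw [map_mul]
    have h5 : Valued.v (l ^ 2) ≤ (1 : WithZero (Multiplicative ℤ)) := by
      rw [map_pow]
      exact pow_le_one₀ zero_le hllt.le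
    exact lt_of_le_of_lt (mul_le_of_le_one_left' h5) hz1
  have hT1v : Valued.v (1 + l ^ 2 * z) = (1 : WithZero (Multiplicative ℤ)) := by
    rw [Valuation.map_add_eq_of_lt_left _ (by rw [map_one]; exact hlz), map_one]
  have hT10 : 1 + l ^ 2 * z ≠ 0 := by
    intro h0
    rw [h0, map_zero] at hT1v
    exact zero_ne_one hT1v
  obtain ⟨a, ha⟩ : ∃ a, a = (2 + l ^ 2 * z) / 2 := ⟨_, rfl⟩
  have h2a : 2 * a = 2 + l ^ 2 * z := by
    rw [ha, mul_div_cancel₀ _ h20]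
  have h4a : 4 * a ^ 2 - 1 = (1 + l ^ 2 * z) * (l ^ 2 * (ε + z)) := by
    have e1 : 4 * a ^ 2 - 1 = (2 * a) ^ 2 - 1 := by ring
    rw [e1, h2a]
    linear_combination (1 + l ^ 2 * z) * hthree
  have h4a0 : 4 * a ^ 2 - 1 ≠ 0 := by
    rw [h4a]
    exact mul_ne_zero hT10 (mul_ne_zero (pow_ne_zero 2 hl0) hez0)
  refine ⟨a, y / (4 * a ^ 2 - 1), ?_, div_mul_cancel₀ _ h4a0, h4a0⟩
  apply mul_left_cancel₀ h20
  have e1 : 2 * (4 * a ^ 3 - 3 * a) = (2 * a) ^ 3 - 3 * (2 * a) := by ring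
  rw [e1, h2a]
  have e2 : (2 + l ^ 2 * z) ^ 3 - 3 * (2 + l ^ 2 * z) = 2 + l ^ 2 * z * (3 + l ^ 2 * z) ^ 2 := by ring
  rw [e2, hthree]
  linear_combination l ^ 6 * hz + hcl

end JG
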