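import Pool.Agent.JG.UC

/-!
# [JG] the statement on the central values of the L-functions of `y² = x³ + D` for general `D`

`Good2`, `GoodL`: the curve has good reduction at `2`, resp. at `λ`, although `2`, `λ` divide `D`; the values of the Hecke character there are `p₂`, `p_λ`.
-/

set_option autoImplicit false

open NumberField IsDedekindDomain
open scoped Classical ComplexConjugate

namespace JG

open CM27 NAB JZ JL JX
open CU (la eE)

/-- `D = 16 D'` with `D'` an odd square modulo `4`: good reduction at `2`. -/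
def Good2 (D : Eis) : Prop := ∃ s c : Eis, ¬ (2 : Eis) ∣ s ∧ D = 16 * (s ^ 2 + 4 * c)

/-- `D = λ³ D'` with `D' ≡ ± 1 mod λ³`: good reduction at `λ`. -/
def GoodL (D : Eis) : Prop := ∃ η c : Eis, (η = 1 ∨ η = -1) ∧ D = la ^ 3 * (η + la ^ 3 * c)

/-- The factor of the period from the Néron differential. -/
noncomputable def kap (D : Eis) : ℕ := (if Good2 D then 4 else 1) * (if GoodL D then 3 else 1)

/-- `p` is a value of a Hecke character of the curve at the prime `(2)`: the trace of Frobenius is `p + p̄`. -/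
def Val2 (D p : Eis) : Prop :=
  (¬ Good2 D ∧ p = 0) ∨
  ∃ s c e ζ : Eis, ¬ (2 : Eis) ∣ s ∧ D = 16 * (s ^ 2 + 4 * c) ∧ p = -2 * e * ζ ∧
    (e = 1 ∨ e = -1) ∧ (e = 1 ↔ ∃ x : Eis, (2 : Eis) ∣ c - x ^ 2 - s * x) ∧ ζ ^ 3 = 1 ∧ (ζ = 1 ↔ (2 : Eis) ∣ s - 1)

/-- `p` is a value of a Hecke character of the curve at the prime `(λ)`: the trace of Frobenius is `p + p̄`. -/
def ValL (D p : Eis) : Prop :=
  (¬ GoodL D ∧ p = 0) ∨
  ∃ (η c : Eis) (n : ℤ), (η = 1 ∨ η = -1) ∧ D = la ^ 3 * (η + la ^ 3 * c) ∧ (n = 0 ∨ n = 1 ∨ n = -1) ∧ la ∣ c - n ∧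
    p * star p = 3 ∧ p + star p = -3 * n

/-- The values of the Hecke character at the primes. -/
noncomputable def psvG (D p₂ pl : Eis) (v : HeightOneSpectrum (𝓞 CF.KK)) : Eis :=
  if v.asIdeal = Ideal.span {eE 2} then p₂ else if v.asIdeal = Ideal.span {eE la} then pl else psv6 (eE D) v

/-- The Hecke character. -/
noncomputable def PsiG (D p₂ pl : Eis) (I : Ideal (𝓞 CF.KK)) : Eis := NAB.cm (psvG D p₂ pl) I

/-- The statement on the central values of the L-function of `E_D`. The number `q` is `#Ш ∏ c_v / #E(K)²` if the conjecture holds. -/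
def LValG (D : Eis) : Prop :=
  ∃ p₂ pl : Eis, Val2 D p₂ ∧ ValL D pl ∧
  ∃ Φ : ℂ → ℂ, Differentiable ℂ Φ ∧
    (∀ s : ℂ, 3 / 2 < s.re → Φ s = LSeries (fun n => IL CF.KK (fun I => conj (emb (PsiG D p₂ pl I))) n) s) ∧
    ∃ q : ℚ, Φ 1 * conj (Φ 1) = (((q : ℝ) * kap D / ‖emb (4 * D)‖ ^ ((1 : ℝ) / 3) : ℝ) : ℂ) * (Om : ℂ) ^ 2 ∧
      (q = 0 ∨ 0 ≤ padicValRat 3 q) ∧ ((q ≠ 0 ∧ padicValRat 3 q = 0) ↔ UCG D)

end JG
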