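import Pool.Agent.JG.Q3

/-!
# [JG-PA] the class of an element of norm `1` in `O / λ²` for `D` prime to `λ`, lines
-/

set_option autoImplicit false

open NumberField IsDedekindDomain
open scoped Classical

namespace JG

open CM27 CF JZ JX JXD
open JD hiding G5b_unit G5b_val LCW_ED below_val descent det_unit disc_eq eis_cube entire_ED exists_H exists_basis exists_cj exists_den exists_int exists_kappa exists_ov exists_phiE exists_quad exists_u0 final_of finite_of_phiE finprod_neron finprod_tam finrank_KD fix_int fix_of_two g4a_exp g4a_le g4a_norm g4a_one g4a_split g4b_place g5a_norm g5a_tau g5a_three g5a_unit int_KK int_jF int_r jr_inj kk_cube m1_cube min_all n5_gen ne_of_cl not_three ov_D ov_eight ov_mem ov_trans ov_val period_ED place_cases q3a_dvd_lt q3a_la_sq q3a_le q3a_sq_lt q3b_ext q3b_int q3b_le q3b_neg q3b_pos q3b_pos_iff q3b_sq q3b_tau q3b_three q4b_crt q5_coe q5_den quot_all quot_eq s5b_not_la sha_zero step tam_la tam_one tau_jF val_prime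 z1_norm
open CU (la om eE)

/-- a line in `ℤ[ω] / λ²` -/
structure Line (L : Eis → Prop) : Prop where
  zero : L 0
  add : ∀ a b, L a → L b → L (a + b)
  neg : ∀ a, L a → L (-a)
  congr : ∀ a b, L a → la ^ 2 ∣ a - b → L b
  line : ∀ q q', ¬ L q' → L q ∨ L (q + q') ∨ L (q + (q' + q'))

/-- the line generated by `1 + c λ` -/
def Lc (c : ℤ) (q : Eis) : Prop := ∃ t : ℤ, la ^ 2 ∣ q - (t : Eis) * (1 + (c : Eis) * la)

/-- the line generated by `λ` -/
def Li (q : Eis) : Prop := la ∣ q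

/-- the class of `b` is on the line `L` -/
def PL {F : Type} [Field F] [NumberField F] [Algebra KK F] (L : Eis → Prop) (r b : F) : Prop :=
  ∃ q : Eis, Ps r b q ∧ L q

theorem lc_iff (c m n : ℤ) {q : Eis} (hq : la ^ 2 ∣ q - ((m : Eis) + (n : Eis) * la)) : Lc c q ↔ (3 : ℤ) ∣ n - c * m := by
  have hdom : IsDomain Eis := eis_isDomain
  obtain ⟨k, hk⟩ := hq
  constructor
  · rintro ⟨t, l, hl⟩
    have h0 : (3 : ℤ) ∣ m - t := by
      rw [← pac_int]
      refine ⟨(t : Eis) * (c : Eis) - (n : Eis) + la * (l - k), ?_⟩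
      push_cast
      linear_combination hl - hk
    obtain ⟨x, hx⟩ := h0
    have h1 : (3 : Eis) = la * (-om ^ 2 * la) := by rw [CU.three_eq]; ring
    have h2 : (m : Eis) = (t : Eis) + 3 * (x : Eis) := by
      have : m = t + 3 * x := by linarith
      rw [this]
      push_cast
      ring
    have h3 : (n : Eis) - (c : Eis) * (t : Eis) = la * (l - k + om ^ 2 * (x : Eis)) := by
      apply mul_left_cancel₀ pac_la0
      have h4 := CU.three_eq
      linear_combination hl - hk - h2 - (x : Eis) * h4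
    have h4 : (3 : ℤ) ∣ n - c * t := by
      rw [← pac_int]
      push_cast
      exact ⟨_, h3⟩
    have e : n - c * m = (n - c * t) - 3 * (c * x) := by
      have : m = t + 3 * x := by linarith
      rw [this]
      ring
    rw [e]
    exact dvd_sub h4 (dvd_mul_right _ _)
  · intro h
    obtain ⟨l, hl⟩ := (pac_int _).2 h
    refine ⟨m, k + l, ?_⟩
    push_cast at hl ⊢
    linear_combination hk + la * hl

theorem line_c (c : ℤ) : Line (Lc c) := by
  refine ⟨⟨0, by simp⟩, ?_, ?_, ?_, ?_⟩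
  · rintro a b ⟨t, k, hk⟩ ⟨t', k', hk'⟩
    refine ⟨t + t', k + k', ?_⟩
    push_cast
    linear_combination hk + hk'
  · rintro a ⟨t, k, hk⟩
    refine ⟨-t, -k, ?_⟩
    push_cast
    linear_combination -hk
  · rintro a b ⟨t, k, hk⟩ ⟨m, hm⟩
    exact ⟨t, k - m, by linear_combination hk - hm⟩
  · intro q q' hq
    obtain ⟨m, n, h1⟩ := pac_mod q
    obtain ⟨m', n', h2⟩ := pac_mod q'
    rw [lc_iff c m' n' h2] at hq
    have h3 : la ^ 2 ∣ (q + q') - (((m + m' : ℤ) : Eis) + ((n + n' : ℤ) : Eis) * la) := by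
      have e : (q + q') - (((m + m' : ℤ) : Eis) + ((n + n' : ℤ) : Eis) * la) =
          (q - ((m : Eis) + (n : Eis) * la)) + (q' - ((m' : Eis) + (n' : Eis) * la)) := by
        push_cast
        ring
      rw [e]
      exact dvd_add h1 h2
    have h4 : la ^ 2 ∣ (q + (q' + q')) - (((m + 2 * m' : ℤ) : Eis) + ((n + 2 * n' : ℤ) : Eis) * la) := by
      have e : (q + (q' + q')) - (((m + 2 * m' : ℤ) : Eis) + ((n + 2 * n' : ℤ) : Eis) * la) =
          (q - ((m : Eis) + (n : Eis) * la)) + 2 * (q' - ((m' : Eis) + (n' : Eis) * la)) := by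
        push_cast
        ring
      rw [e]
      exact dvd_add h1 (Dvd.dvd.mul_left h2 _)
    rw [lc_iff c m n h1, lc_iff c _ _ h3, lc_iff c _ _ h4]
    have e1 : (n + n') - c * (m + m') = (n - c * m) + (n' - c * m') := by ring
    have e2 : (n + 2 * n') - c * (m + 2 * m') = (n - c * m) + 2 * (n' - c * m') := by ring
    rw [e1, e2]
    generalize n - c * m = x at *
    generalize n' - c * m' = y at *
    have hx : x % 3 = 0 ∨ x % 3 = 1 ∨ x % 3 = 2 := by omega
    have hy : y % 3 = 1 ∨ y % 3 = 2 := by omega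
    rcases hx with hx | hx | hx <;> rcases hy with hy | hy
    · left; omega
    · left; omega
    · right; right; omega
    · right; left; omega
    · right; left; omega
    · right; right; omega

theorem line_i : Line Li := by
  refine ⟨dvd_zero _, fun a b => dvd_add, fun a h => (dvd_neg).2 h, ?_, ?_⟩
  · intro a b h h1
    have h2 : la ∣ a - b := (Dvd.intro_left la (by ring : la * la = la ^ 2)).trans h1
    have h3 := dvd_sub h h2
    rwa [sub_sub_cancel] at h3
  · intro q q' hq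
    have k : ∀ a : Eis, Li a ↔ (3 : ℤ) ∣ a.re + a.im := fun a => CU.la_dvd_iff a
    have e1 : (q + q').re + (q + q').im = (q.re + q.im) + (q'.re + q'.im) := by
      simp only [QuadraticAlgebra.re_add, QuadraticAlgebra.im_add]
      ring
    have e2 : (q + (q' + q')).re + (q + (q' + q')).im = (q.re + q.im) + 2 * (q'.re + q'.im) := by
      simp only [QuadraticAlgebra.re_add, QuadraticAlgebra.im_add]
      ring
    rw [k] at hq
    rw [k, k, k, e1, e2]
    generalize q.re + q.im = x at *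
    generalize q'.re + q'.im = y at *
    clear e1 e2 k
    have hx : x % 3 = 0 ∨ x % 3 = 1 ∨ x % 3 = 2 := by omega
    have hy : y % 3 = 1 ∨ y % 3 = 2 := by omega
    rcases hx with hx | hx | hx <;> rcases hy with hy | hy
    · left; omega
    · left; omega
    · right; right; omega
    · right; left; omega
    · right; left; omega
    · right; right; omega

section
variable {D : Eis} {F : Type} [Field F] [NumberField F] [Algebra KK F] {r : F} {τ : F ≃ₐ[KK] F}
  (hD : D ≠ 0) (hl : ¬ la ∣ D) (hQ : Quad D r τ)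
include hD hl hQ

/-- `w (E - 1) ≤ w la` -/
theorem paa_one {w : HeightOneSpectrum (𝓞 F)} (hw : OvLa w) {b : F} (hb : w.valuation F b = 1) :
    w.valuation F (b ^ 8 - 1) ≤ w.valuation F (jF F la) := by
  rw [ov_val hD hQ hl w hw]
  exact paa_lt (ov_eight hD hQ w hw hb)

/-- [PAa] -/
theorem ps_exists {b : F} (hb : N1 τ b) : ∃ q : Eis, Ps r b q := by
  obtain ⟨w₀, hw₀⟩ := exists_ov hD hQ
  have hb0 : b ≠ 0 := paa_ne (hb.2 w₀ hw₀)
  have hla0 : jF F la ≠ 0 := by
    intro h0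
    have h1 : la = 0 := jF_inj F (by rw [h0, map_zero])
    exact CU.la_prime.ne_zero h1
  have hE0 : b ^ 8 ≠ 0 := pow_ne_zero 8 hb0
  have hEE : ∀ w : HeightOneSpectrum (𝓞 F), OvLa w →
      w.valuation F (b ^ 8 - (b ^ 8)⁻¹) ≤ w.valuation F (jF F la) := by
    intro w hw
    have h1 := paa_one hD hl hQ hw (hb.2 w hw)
    have e : b ^ 8 - (b ^ 8)⁻¹ = (b ^ 8 - 1) + (b ^ 8 - 1) * (b ^ 8)⁻¹ := by
      rw [sub_mul, mul_inv_cancel₀ hE0]
      ring
    rw [e]
    refine Valuation.map_add_le _ h1 ?_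
    rw [map_mul, map_inv₀, map_pow, hb.2 w hw, one_pow, inv_one, mul_one]
    exact h1
  obtain ⟨s, a, c, hs, hz⟩ := exists_den hD hQ (sq_not_dvd hl) (z := (b ^ 8 - (b ^ 8)⁻¹) / jF F la) (by
    intro w hw
    rw [map_div₀]
    exact div_le_one_of_le₀ (hEE w hw) zero_le)
  have hz2 : jF F s * (-((b ^ 8 - (b ^ 8)⁻¹) / jF F la)) = jF F a - jF F c * r := by
    have h1 := congrArg τ hz
    rw [map_mul, tau_jF, map_div₀, tau_jF, paa_tau hb hb0, map_add, map_mul, tau_jF, tau_jF, hQ.tau] at h1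
    rw [neg_div] at h1
    rw [h1]
    ring
  have ha : jF F a = 0 := by
    have h2 : (2 : F) * jF F a = 0 := by linear_combination -hz - hz2
    rcases mul_eq_zero.1 h2 with h2 | h2
    · exact absurd h2 two_ne_zero
    · exact h2
  rw [ha, zero_add] at hz
  have hz3 : jF F s * (b ^ 8 - (b ^ 8)⁻¹) = jF F la * jF F c * r := by
    have h1 : jF F la * (jF F s * ((b ^ 8 - (b ^ 8)⁻¹) / jF F la)) = jF F s * (b ^ 8 - (b ^ 8)⁻¹) := by
      field_simp
    rw [← h1, hz]
    ring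
  refine ⟨(2 - s) * c, ?_⟩
  intro w hw
  obtain ⟨k, hk⟩ := hs
  have e : b ^ 8 - (b ^ 8)⁻¹ - jF F (la * ((2 - s) * c)) * r = jF F la ^ 2 * jF F (k ^ 2) * (b ^ 8 - (b ^ 8)⁻¹) := by
    have h1 : jF F (la * ((2 - s) * c)) * r = jF F (2 - s) * (jF F la * jF F c * r) := by
      rw [map_mul, map_mul]
      ring
    rw [h1, ← hz3]
    have h2 : jF F (s - 1) = jF F (la * k) := by rw [hk]
    rw [map_sub, map_one, map_mul] at h2
    rw [map_sub, map_ofNat, map_pow]
    linear_combination (b ^ 8 - (b ^ 8)⁻¹) * (jF F s - 1 + jF F la * jF F k) * h2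
  rw [e, map_mul, map_mul, map_pow]
  calc w.valuation F (jF F la) ^ 2 * w.valuation F (jF F (k ^ 2)) * w.valuation F (b ^ 8 - (b ^ 8)⁻¹) ≤
        w.valuation F (jF F la) ^ 2 * 1 * w.valuation F (jF F la) := by
        gcongr
        · exact q3a_le w (int_jF F _)
        · exact hEE w hw
    _ = _ := by rw [mul_one]; exact (pow_succ _ 2).symm

/-- [PAa] -/
theorem ps_congr {b : F} {q q' : Eis} (h : Ps r b q) (hq : la ^ 2 ∣ q - q') : Ps r b q' := by
  obtain ⟨m, hm⟩ := hq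
  intro w hw
  have e : b ^ 8 - (b ^ 8)⁻¹ - jF F (la * q') * r = (b ^ 8 - (b ^ 8)⁻¹ - jF F (la * q) * r) +
      jF F la ^ 3 * (jF F m * r) := by
    have h1 : jF F (q - q') = jF F (la ^ 2 * m) := by rw [hm]
    rw [map_sub, map_mul, map_pow] at h1
    rw [map_mul, map_mul]
    linear_combination jF F la * r * h1
  rw [e]
  refine Valuation.map_add_le _ (h w hw) ?_
  rw [map_mul, map_pow]
  calc w.valuation F (jF F la) ^ 3 * w.valuation F (jF F m * r) ≤ w.valuation F (jF F la) ^ 3 * 1 := by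
        gcongr
        exact q3a_le w ((int_jF F m).mul (int_r hQ))
    _ = _ := mul_one _

/-- [PAa] -/
theorem ps_unique {b : F} {q q' : Eis} (h : Ps r b q) (h' : Ps r b q') : la ^ 2 ∣ q - q' := by
  obtain ⟨w, hw⟩ := exists_ov hD hQ
  have hr : w.valuation F r = 1 := (ov_D hl hQ w hw).2
  have hlt : w.valuation F (jF F la) < 1 := hw
  have hla0 : w.valuation F (jF F la) ≠ 0 := by
    rw [ov_val hD hQ hl w hw]
    exact WithZero.exp_ne_zero
  have h1 : w.valuation F (jF F la * jF F (q - q')) ≤ w.valuation F (jF F la) ^ 3 := by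
    have e : jF F la * jF F (q - q') * r = (b ^ 8 - (b ^ 8)⁻¹ - jF F (la * q') * r) -
        (b ^ 8 - (b ^ 8)⁻¹ - jF F (la * q) * r) := by
      rw [map_sub, map_mul, map_mul]
      ring
    have h2 : w.valuation F (jF F la * jF F (q - q') * r) ≤ w.valuation F (jF F la) ^ 3 := by
      rw [e]
      exact Valuation.map_sub_le _ (h' w hw) (h w hw)
    rwa [map_mul _ _ r, hr, mul_one] at h2
  have hpos : 0 < w.valuation F (jF F la) := zero_lt_iff.2 hla0
  have h2 : w.valuation F (jF F (q - q')) ≤ w.valuation F (jF F la) ^ 2 := by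
    rw [map_mul, pow_succ' _ 2] at h1
    exact le_of_mul_le_mul_left h1 hpos
  have h3 : la ∣ q - q' := by
    rw [← ov_mem w hw]
    exact lt_of_le_of_lt h2 (pow_lt_one₀ zero_le hlt two_ne_zero)
  obtain ⟨m, hm⟩ := h3
  rw [hm, map_mul, map_mul, pow_succ' _ 1, pow_one] at h2
  have h4 : w.valuation F (jF F m) ≤ w.valuation F (jF F la) := le_of_mul_le_mul_left h2 hpos
  obtain ⟨n, hn⟩ := (ov_mem w hw m).1 (lt_of_le_of_lt h4 hlt)
  refine ⟨n, ?_⟩
  rw [hm, hn]
  ring

/-- [PAb] -/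
theorem ps_mul {a b : F} (ha : N1 τ a) (hb : N1 τ b) {q q' : Eis} (h : Ps r a q) (h' : Ps r b q') :
    Ps r (a * b) (q + q') := by
  intro w hw
  have va := ha.2 w hw
  have vb := hb.2 w hw
  have ea := paa_one hD hl hQ hw va
  have eb := paa_one hD hl hQ hw vb
  have a0 : a ^ 8 ≠ 0 := pow_ne_zero 8 (paa_ne va)
  have b0 : b ^ 8 ≠ 0 := pow_ne_zero 8 (paa_ne vb)
  have hc : w.valuation F (a ^ 8 * b ^ 8 - 1) ≤ w.valuation F (jF F la) := by
    have e : a ^ 8 * b ^ 8 - 1 = (a ^ 8 - 1) * b ^ 8 + (b ^ 8 - 1) := by ring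
    rw [e]
    refine Valuation.map_add_le _ ?_ eb
    rw [map_mul, map_pow _ b, vb, one_pow, mul_one]
    exact ea
  have e : (a * b) ^ 8 - ((a * b) ^ 8)⁻¹ - jF F (la * (q + q')) * r =
      ((a ^ 8 - (a ^ 8)⁻¹ - jF F (la * q) * r) + (b ^ 8 - (b ^ 8)⁻¹ - jF F (la * q') * r)) +
      (a ^ 8 - 1) * (b ^ 8 - 1) * (a ^ 8 * b ^ 8 - 1) * (a ^ 8)⁻¹ * (b ^ 8)⁻¹ := by
    rw [mul_pow, mul_add, map_add]
    generalize a ^ 8 = A at *
    generalize b ^ 8 = B at *
    field_simp
    ring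
  rw [e]
  refine Valuation.map_add_le _ (Valuation.map_add_le _ (h w hw) (h' w hw)) ?_
  rw [map_mul, map_mul, map_mul, map_mul, map_inv₀, map_inv₀, map_pow _ a, map_pow _ b, va, vb, one_pow, inv_one,
    mul_one, mul_one]
  calc w.valuation F (a ^ 8 - 1) * w.valuation F (b ^ 8 - 1) * w.valuation F (a ^ 8 * b ^ 8 - 1) ≤
        w.valuation F (jF F la) * w.valuation F (jF F la) * w.valuation F (jF F la) := by gcongr
    _ = _ := by rw [pow_succ, pow_two]

/-- [PAb] -/
theorem ps_inv {a : F} (ha : N1 τ a) {q : Eis} (h : Ps r a q) : Ps r a⁻¹ (-q) := by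
  intro w hw
  have h1 := h w hw
  have e : a⁻¹ ^ 8 - (a⁻¹ ^ 8)⁻¹ - jF F (la * -q) * r = -(a ^ 8 - (a ^ 8)⁻¹ - jF F (la * q) * r) := by
    rw [inv_pow, inv_inv, mul_neg, map_neg]
    ring
  rw [e, Valuation.map_neg]
  exact h1

/-- [PAb] -/
theorem ps_cube {a : F} (ha : N1 τ a) : Ps r (a ^ 3) 0 := by
  obtain ⟨q, hq⟩ := ps_exists hD hl hQ ha
  have h1 := ps_mul hD hl hQ ha (n1_mul ha ha) hq (ps_mul hD hl hQ ha ha hq hq)
  have e : a * (a * a) = a ^ 3 := by ring
  rw [e] at h1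
  refine ps_congr hD hl hQ h1 ⟨-om ^ 2 * q, ?_⟩
  linear_combination q * CU.three_eq

/-- [PAb] -/
theorem ps_tau {b : F} (hb : N1 τ b) {q : Eis} (w : HeightOneSpectrum (𝓞 F)) (hw : OvLa w)
    (h : w.valuation F (b ^ 8 - (b ^ 8)⁻¹ - jF F (la * q) * r) ≤ w.valuation F (jF F la) ^ 3) : Ps r b q := by
  have hw0 : w.valuation F b = 1 := hb.2 w hw
  have hb0 : b ≠ 0 := paa_ne hw0
  intro w' hw'
  rcases ov_trans hD hQ w w' hw hw' with h1 | h1
  · rw [h1, h1]
    exact h
  · have h2 : τ b = b⁻¹ := eq_inv_of_mul_eq_one_right hb.1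
    rw [h1, h1, tau_jF]
    have e : τ (b ^ 8 - (b ^ 8)⁻¹ - jF F (la * q) * r) = -(b ^ 8 - (b ^ 8)⁻¹ - jF F (la * q) * r) := by
      rw [map_sub, map_sub, map_inv₀, map_pow, h2, inv_pow, inv_inv, map_mul, tau_jF, hQ.tau]
      ring
    rw [e, Valuation.map_neg]
    exact h

omit hD hl hQ in
theorem ps_zero_of_eight {a : F} (h : a ^ 8 = 1) : Ps r a 0 := by
  intro w _
  have e : a ^ 8 - (a ^ 8)⁻¹ - jF F (la * 0) * r = 0 := by
    rw [h, mul_zero, map_zero, zero_mul, inv_one, sub_self, sub_zero]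
  rw [e, map_zero]
  exact zero_le

/-- the class of elements of norm `1` on a line: all properties -/
theorem lc_PL {L : Eis → Prop} (hL : Line L) : LC τ (PL L r) := by
  refine ⟨?_, ?_, ?_, ?_, ?_⟩
  · rintro a b ha hb ⟨q, h1, h2⟩ ⟨q', h1', h2'⟩
    exact ⟨q + q', ps_mul hD hl hQ ha hb h1 h1', hL.add _ _ h2 h2'⟩
  · rintro a ha ⟨q, h1, h2⟩
    exact ⟨-q, ps_inv hD hl hQ ha h1, hL.neg _ h2⟩
  · intro a ha
    exact ⟨0, ps_cube hD hl hQ ha, hL.zero⟩
  · intro a h
    exact ⟨0, ps_zero_of_eight h, hL.zero⟩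
  · intro a b ha hb h
    obtain ⟨q, h1⟩ := ps_exists hD hl hQ ha
    obtain ⟨q', h2⟩ := ps_exists hD hl hQ hb
    have h3 : ¬ L q' := fun h3 => h ⟨q', h2, h3⟩
    rcases hL.line q q' h3 with h4 | h4 | h4
    · refine ⟨0, ?_⟩
      rw [pow_zero, mul_one]
      exact ⟨q, h1, h4⟩
    · refine ⟨1, ?_⟩
      rw [pow_one]
      exact ⟨q + q', ps_mul hD hl hQ ha hb h1 h2, h4⟩
    · refine ⟨2, ?_⟩
      rw [pow_two]
      exact ⟨q + (q' + q'), ps_mul hD hl hQ ha (n1_mul hb hb) h1 (ps_mul hD hl hQ hb hb h2 h2), h4⟩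

end

end JG
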