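import Pool.Agent.JG.B3
import Pool.Agent.JXD.PA

/-!
# [JG-Q3] the places over `λ` for `D` prime to `λ`; denominators
-/

set_option autoImplicit false

open NumberField IsDedekindDomain
open scoped Classical

namespace JG

open CM27 CF JZ JX JXD
open JD hiding G5b_unit G5b_val LCW_ED below_val descent det_unit disc_eq eis_cube entire_ED exists_H exists_basis exists_cj exists_den exists_int exists_kappa exists_ov exists_phiE exists_quad exists_u0 final_of finite_of_phiE finprod_neron finprod_tam finrank_KD fix_int fix_of_two g4a_exp g4a_le g4a_norm g4a_one g4a_split g4b_place g5a_norm g5a_tau g5a_three g5a_unit int_KK int_jF int_r jr_inj kk_cube m1_cube min_all n5_gen ne_of_cl not_three ov_D ov_eight ov_mem ov_trans ov_val period_ED place_cases q3a_dvd_lt q3a_la_sq q3a_le q3a_sq_lt q3b_ext q3b_int q3b_le q3b_neg q3b_pos q3b_pos_iff q3b_sq q3b_tau q3b_three q4b_crt q5_coe q5_den quot_all quot_eq s5b_not_la sha_zero step tam_la tam_one tau_jF val_prime z1_norm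
open CU (la om eE)

section
variable {D : Eis} {F : Type} [Field F] [NumberField F] [Algebra KK F] {r : F} {τ : F ≃ₐ[KK] F}

theorem sq_not_dvd (hl : ¬ la ∣ D) : ¬ la ^ 2 ∣ D := fun h => hl ((Dvd.intro_left la (by ring : la * la = la ^ 2)).trans h)

omit [Algebra KK F] in
theorem ov_one [Algebra KK F] (w : HeightOneSpectrum (𝓞 F)) (hw : OvLa w) {s : Eis} (hs : la ∣ s - 1) :
    w.valuation F (jF F s) = 1 := by
  refine le_antisymm (q3a_le w (int_jF F s)) (not_lt.1 fun h => ?_)
  have h1 := (ov_mem w hw s).1 h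
  have h2 := dvd_sub h1 hs
  rw [sub_sub_cancel] at h2
  exact CU.la_prime.not_isUnit (isUnit_of_dvd_one h2)

theorem ov_D (hl : ¬ la ∣ D) (hQ : Quad D r τ) (w : HeightOneSpectrum (𝓞 F)) (hw : OvLa w) :
    w.valuation F (jF F D) = 1 ∧ w.valuation F r = 1 := by
  have h2 : w.valuation F (jF F D) = 1 :=
    le_antisymm (q3a_le w (int_jF F D)) (not_lt.1 (fun h => hl ((ov_mem w hw D).1 h)))
  refine ⟨h2, le_antisymm (q3a_le w (int_r hQ)) (not_lt.1 (fun h => ?_))⟩
  rw [← hQ.sq, map_pow] at h2
  exact absurd h2 (pow_lt_one₀ (zero_le) h two_ne_zero).ne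

variable (hD : D ≠ 0) (hQ : Quad D r τ)
include hD hQ

theorem ov_val (hl : ¬ la ∣ D) (w : HeightOneSpectrum (𝓞 F)) (hw : OvLa w) : w.valuation F (jF F la) = WithZero.exp (-1 : ℤ) := by
  have hlt : w.valuation F (jF F la) < 1 := hw
  have hle : w.valuation F (jF F la) ≤ WithZero.exp (-1 : ℤ) := by
    obtain ⟨LA, hLA⟩ : ∃ LA : 𝓞 F, jF F la = algebraMap (𝓞 F) F LA := ⟨⟨jF F la, int_jF F la⟩, rfl⟩
    rw [hLA] at hlt ⊢
    rw [HeightOneSpectrum.valuation_lt_one_iff_mem] at hlt
    rw [HeightOneSpectrum.valuation_of_algebraMap]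
    have h1 := (w.intValuation_le_pow_iff_mem LA 1).2 (by rwa [pow_one])
    simpa using h1
  apply le_antisymm hle
  by_contra hc
  rw [not_le] at hc
  obtain ⟨π, hπ⟩ := w.valuation_exists_uniformizer' F
  obtain ⟨s, a, b, hs, hab⟩ := exists_intL hD hQ (sq_not_dvd hl) (z := (π : F)) π.2
  have hs1 := ov_one w hw hs
  have hπ' : w.valuation F (jF F a + jF F b * r) = WithZero.exp (-1 : ℤ) := by
    rw [← hab, map_mul, hs1, one_mul]
    exact hπ
  have hπlt : w.valuation F (jF F a + jF F b * r) < 1 := by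
    rw [hπ', ← WithZero.exp_zero, WithZero.exp_lt_exp]
    norm_num
  have hdvd : ∀ c : Eis, la ∣ c → w.valuation F (jF F c) < WithZero.exp (-1 : ℤ) := by
    rintro c ⟨c', rfl⟩
    rw [map_mul, map_mul]
    calc _ ≤ w.valuation F (jF F la) * 1 := mul_le_mul_right (q3b_le w (int_jF F c')) _
      _ < _ := by rw [mul_one]; exact hc
  obtain ⟨η, hη, h3⟩ := mod_la hl
  rcases hη with rfl | rfl
  · obtain ⟨s, hs, hr⟩ := q3b_pos hQ w hw h3
    have h1 := (q3b_pos_iff w hw s hr a b).1 hπlt
    have h2 : w.valuation F (r - jF F s) < WithZero.exp (-1 : ℤ) := by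
      have e : jF F (D - 1) = (r - jF F s) * (r + jF F s) := by
        rw [map_sub, ← hQ.sq]
        rcases hs with rfl | rfl
        · rw [map_one]; ring
        · rw [map_neg, map_one]; ring
      have h4 := hdvd (D - 1) (h3)
      have h5 : w.valuation F (r + jF F s) = 1 := by
        have e2 : r + jF F s = (r - jF F s) + jF F (2 * s) := by
          rw [map_mul, map_ofNat]
          ring
        have h6 : w.valuation F (jF F (2 * s)) = 1 := by
          apply le_antisymm (q3b_le w (int_jF F _))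
          rw [← not_lt, ov_mem w hw, CU.la_dvd_iff]
          rcases hs with rfl | rfl
          · decide
          · decide
        rw [e2, Valuation.map_add_eq_of_lt_right _ (by rw [h6]; exact hr), h6]
      rw [e, map_mul, h5, mul_one] at h4
      exact h4
    have h7 : w.valuation F (jF F a + jF F b * r) < WithZero.exp (-1 : ℤ) := by
      have e : jF F a + jF F b * r = jF F (a + b * s) + jF F b * (r - jF F s) := by
        rw [map_add, map_mul]
        ring
      rw [e]
      apply Valuation.map_add_lt _ (hdvd _ h1)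
      rw [map_mul]
      calc _ ≤ 1 * w.valuation F (r - jF F s) := mul_le_mul_left (q3b_le w (int_jF F b)) _
        _ < _ := by rw [one_mul]; exact h2
    rw [hπ'] at h7
    exact lt_irrefl _ h7
  · obtain ⟨h1, h2⟩ := (q3b_neg hQ w hw h3 a b).1 hπlt
    have h7 : w.valuation F (jF F a + jF F b * r) < WithZero.exp (-1 : ℤ) := by
      apply Valuation.map_add_lt _ (hdvd _ h1)
      rw [map_mul]
      calc _ ≤ w.valuation F (jF F b) * 1 := mul_le_mul_right (q3b_le w (int_r hQ)) _
        _ < _ := by rw [mul_one]; exact hdvd _ h2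
    rw [hπ'] at h7
    exact lt_irrefl _ h7

theorem exists_den (hl2 : ¬ la ^ 2 ∣ D) {z : F} (h : ∀ w : HeightOneSpectrum (𝓞 F), OvLa w → w.valuation F z ≤ 1) :
    ∃ s a b : Eis, la ∣ s - 1 ∧ jF F s * z = jF F a + jF F b * r := by
  obtain ⟨x, y, hy, hxz, hx⟩ := q5_den h
  have hint : ∀ u : F, IsIntegral ℤ u → IsIntegral ℤ (τ u) := fun u hu => hu.map τ
  have hxi : IsIntegral ℤ x := by
    rw [hx]
    exact isIntegral_one.add ((int_jF F la).mul hy)
  have hτx : τ x = 1 + jF F la * τ y := by
    rw [hx, map_add, map_mul, map_one, tau_jF]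
  have htt := tau_tau hD hQ y
  obtain ⟨c, hc⟩ := fix_int hD hQ (z := y + τ y + jF F la * (y * τ y))
    (by
      rw [map_add, map_add, map_mul, map_mul, htt, tau_jF]
      ring)
    ((hy.add (hint y hy)).add ((int_jF F la).mul (hy.mul (hint y hy))))
  have hs : jF F (1 + la * c) = x * τ x := by
    rw [map_add, map_mul, map_one, ← hc, hτx, hx]
    ring
  have hsz : IsIntegral ℤ (jF F (1 + la * c) * z) := by
    have e : jF F (1 + la * c) * z = τ x * (x * z) := by
      rw [hs]
      ring
    rw [e]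
    exact (hint x hxi).mul hxz
  obtain ⟨s, a, b, hs1, hab⟩ := exists_intL hD hQ hl2 hsz
  refine ⟨s * (1 + la * c), a, b, ?_, ?_⟩
  · obtain ⟨m, hm⟩ := hs1
    exact ⟨m + c * s, by linear_combination hm⟩
  · rw [map_mul, ← hab]
    ring

end

end JG
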