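import Pool.Agent.JD.S3
import Pool.Agent.JD.S4

/-!
# [JG-SA] the equation `y² = x³ + D` is minimal if the valuation of `D` is at most `5` (abstract discrete valuation ring `A`), except at the places of good reduction

PROOF. `exists_min` [SAa]: `J := (T • I.map (algebraMap A K)).integralModel A`, `WeierstrassCurve.baseChange_integralModel_eq`; `WeierstrassCurve.variableChange_Δ`, `variableChange_c₄`, `variableChange_c₆`. Minimality: the valuation of the discriminant of `T • I.map` is at least that of the integral equation `I.map` (see the proof of `CMT.unit_of_lt`,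
and `WeierstrassCurve.IsMinimal`), so `V (T.u) ^ 12 ≤ 1`, `V (T.u) ≤ 1`, `T.u = algebraMap A K w` (`IsDiscreteValuationRing.exists_lift_of_le_one`). Compare in `A` by injectivity of `algebraMap A K`.
`two_alt` [SAb]: `2` is prime, `A` is a domain, `2 ≠ 0`; `3` is a unit (`3 = 1 + 2`, `2` in the maximal ideal). `c₄ = b₂² - 24 b₄ = 0`, so `2 ∣ b₂ = a₁² + 4 a₂`, `2 ∣ a₁`, `a₁ = 2 α`, `b₂ = 4 β`, `β = α² + a₂`, `b₄ = 2 γ`, `γ = a₄ + α a₃`, `16 β² = 48 γ`, `β² = 3 γ`. `4 b₈ = b₂ b₆ - b₄²` (`WeierstrassCurve.b_relation`), so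
`b₈ = β b₆ - γ²`, `Δ = -b₂² b₈ - 8 b₄³ - 27 b₆² + 9 b₂ b₄ b₆ = 24 β γ b₆ - 16 γ³ - 27 b₆²`, `c₆ = -b₂³ + 36 b₂ b₄ - 216 b₆ = 96 β γ - 216 b₆`. `b₆ = a₃² + 4 a₆`. If `2 ∣ a₃` then `b₆ = 4 b`, `Δ = 96 β γ b - 16 γ³ - 432 b²`, divisible by `16`. Otherwise `a₃` is a unit (`hl.maximalIdeal_eq`), `s = 3 a₃`, `t = 9 a₆ - β γ`:
`-24 (s² + 4 t) = -216 b₆ + 96 β γ = c₆`.
`unit_two'` [SAb]: `k ≤ 3`: as `JD.unit_two` (`4 + 2 k < 12`; `2^k D'`). `k = 4, 5`: `exists_min` for `I = ED (2^k D')`: `w, J`; `c₄ = 0` (`ED_c₄`), `w ≠ 0` (`T.u` is a unit of `K`), so `J.c₄ = 0`; `c₆ (ED D) = -864 D`. If `w` is a unit of `A` the valuation of `T.u` is `1`. Otherwise `w = 2 w'`. `-27 D'² 2^(4+2k) = 2^12 w'^12 J.Δ`, so `-27 D'² 2^(2k-8) = w'^12 J.Δ`,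
and `-864 * 2^k D' = 2^6 w'^6 J.c₆`. `16 ∣ J.Δ` is impossible (`2k - 8 ≤ 2`, `27 D'²` is a unit). So `J.c₆ = -24 (s² + 4 t)`, `864 * 2^k D' = 2^6 * 24 w'^6 (s² + 4 t)`: `9 * 2^(k-4) D' = w'^6 (s² + 4 t)`. `k = 4`: `9 D' = w'^6 (s² + 4 t)`, `D' - (w'^3 s)² = 4 (w'^6 t - 2 D')`: contradiction to `h4`. `k = 5`: `18 D' = w'^6 (s² + 4 t)`,
`s² + 4 t` is a unit, so `2 ∣ w'`, `64 ∣ 18 D'`, contradiction.
`la_alt` [SAc]: `2` is a unit (see `JD.unit_la`). `c₄ = b₂² - 24 b₄ = 0`, `24 = 8 ε l²`, so `l ∣ b₂ = l β`, `β² = 8 ε b₄`. `4 b₈ = b₂ b₆ - b₄²`, `4 Δ = -b₂² (b₂ b₆ - b₄²) - 32 b₄³ - 108 b₆² + 36 b₂ b₄ b₆`, with `b₂² = 24 b₄`: `Δ = 3 b₂ b₄ b₆ - 2 b₄³ - 27 b₆²`. `c₆ = -b₂³ + 36 b₂ b₄ - 216 b₆ = 12 b₂ b₄ - 216 b₆`.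
If `l ∣ b₄` then `l ∣ β`, `l² ∣ b₄`, `l² ∣ b₂`, and `l^6 ∣ Δ` (`3 = ε l²`, `27 = ε³ l^6`). Otherwise `b₄` and `β` are units (`β² = 8 ε b₄`), `8 ε c₆ = 12 l β³ - 216 * 8 ε b₆` and `12 = 4 ε l²`, `216 = 8 ε³ l^6`: `8 ε c₆ = 4 ε l³ β³ - 64 ε⁴ l^6 b₆`, `2 c₆ = l³ (β³ - 16 ε³ l³ b₆)`.
`unit_la'` [SAc]: `k ≤ 2`: as `JD.unit_la`: `Δ = -(2⁴ ε³ D'²) l^(6+2k)`, `6 + 2 k < 12`. `k = 3, 4, 5`: `exists_min`: `w, J`, `J.c₄ = 0`; `w` not a unit: `w = l w'`. `-16 ε³ D'² l^(2k-6) = w'^12 J.Δ`; `l^6 ∣ J.Δ` is impossible (`2 k - 6 ≤ 4`). `-864 l^k D' = l^6 w'^6 J.c₆`, times `2`: `-1728 l^k D' = l^9 w'^6 (α³ + l³ t)`, `1728 = 64 ε³ l^6`: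
`-64 ε³ l^(k-3) D' = w'^6 (α³ + l³ t)`. `k = 4, 5`: `α³ + l³ t` is a unit, so `l ∣ w'`, `l^6 ∣ 64 ε³ l^(k-3) D'`, contradiction. `k = 3`: `w'` is a unit, `(-4 ε)³ D' = (w'² α)³ + l³ t'`; a unit `x` satisfies `x ≡ ± 1 mod l` (`hres`), `x³ ≡ ± 1 mod l³` (`x = η + l y`: `x³ = η + 3 l y + 3 η l² y² + l³ y³`, `3 = ε l²`); so `D' ≡ ± 1 mod l³`: contradiction to `h3'`.
`unit_p'` [SAd]: as `JD.unit_p`: `Δ = (-432 D'²) l^(2k)`, `2 k ≤ 10 < 12`.
-/

set_option autoImplicit false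

open NumberField IsDedekindDomain
open scoped Classical

namespace JG

open JD (ED ED_map ED_Δ ED_c₄ ED_equation)

section
variable {A : Type} [CommRing A] [IsDomain A] [IsDiscreteValuationRing A] {K : Type} [Field K]
  [Algebra A K] [IsFractionRing A K]

theorem saa_le (I : WeierstrassCurve A) (T : WeierstrassCurve.VariableChange K)
    (hT : (T • I.map (algebraMap A K)).IsMinimal A)
    (hg : (IsDiscreteValuationRing.maximalIdeal A).valuation K (I.map (algebraMap A K)).Δ ≠ 0) :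
    (IsDiscreteValuationRing.maximalIdeal A).valuation K (T.u : K) ≤ 1 := by
  haveI hW : WeierstrassCurve.IsIntegral A (I.map (algebraMap A K)) := ⟨⟨I, rfl⟩⟩
  obtain ⟨W, hWd⟩ : ∃ W : WeierstrassCurve K, W = I.map (algebraMap A K) := ⟨_, rfl⟩
  rw [← hWd] at hT hg hW
  have h1 := hT.val_Δ_maximal
  have hinv : T⁻¹ • (T • W) = W := inv_smul_smul T W
  have h2 := h1.2 (j := T⁻¹)
    (by show WeierstrassCurve.IsIntegral A (T⁻¹ • (T • W)); rw [hinv]; exact hW)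
  have hle : ((WeierstrassCurve.valuation_Δ_aux A ((1 : WeierstrassCurve.VariableChange K) •
      (T • W)) : { v : WithZero (Multiplicative ℤ) // v ≤ 1 }) : WithZero (Multiplicative ℤ)) =
      (IsDiscreteValuationRing.maximalIdeal A).valuation K (T • W).Δ := by
    rw [one_smul]
    exact WeierstrassCurve.valuation_Δ_aux_eq_of_isIntegral A _
  have hinvv : ((WeierstrassCurve.valuation_Δ_aux A (T⁻¹ • (T • W)) :
      { v : WithZero (Multiplicative ℤ) // v ≤ 1 }) : WithZero (Multiplicative ℤ)) =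
      (IsDiscreteValuationRing.maximalIdeal A).valuation K W.Δ := by
    rw [hinv, WeierstrassCurve.valuation_Δ_aux_eq_of_isIntegral A _]
  have hge : (IsDiscreteValuationRing.maximalIdeal A).valuation K W.Δ ≤
      (IsDiscreteValuationRing.maximalIdeal A).valuation K (T • W).Δ := by
    by_contra hlt
    push Not at hlt
    have h4 : (WeierstrassCurve.valuation_Δ_aux A ((1 : WeierstrassCurve.VariableChange K) •
        (T • W))) ≤ (WeierstrassCurve.valuation_Δ_aux A (T⁻¹ • (T • W))) := by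
      rw [← Subtype.coe_le_coe, hinvv, hle]
      exact hlt.le
    have h5 := h2 h4
    rw [← Subtype.coe_le_coe, hle] at h5
    have h6 := h5
    rw [show ((WeierstrassCurve.valuation_Δ_aux A (T⁻¹ • (T • W)) :
      { v : WithZero (Multiplicative ℤ) // v ≤ 1 }) : WithZero (Multiplicative ℤ)) =
      (IsDiscreteValuationRing.maximalIdeal A).valuation K W.Δ from hinvv] at h6
    exact absurd h6 (not_le.2 hlt)
  have hval : (IsDiscreteValuationRing.maximalIdeal A).valuation K (T • W).Δ =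
      (IsDiscreteValuationRing.maximalIdeal A).valuation K ((T.u⁻¹ : Kˣ) : K) ^ 12 *
        (IsDiscreteValuationRing.maximalIdeal A).valuation K W.Δ := by
    rw [WeierstrassCurve.variableChange_Δ, map_mul, map_pow]
  by_contra hcon
  push Not at hcon
  have hlt1 : (IsDiscreteValuationRing.maximalIdeal A).valuation K ((T.u⁻¹ : Kˣ) : K) < 1 := by
    rw [Units.val_inv_eq_inv_val, map_inv₀]
    exact inv_lt_one_of_one_lt₀ hcon
  have h12 : (IsDiscreteValuationRing.maximalIdeal A).valuation K ((T.u⁻¹ : Kˣ) : K) ^ 12 < 1 :=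
    pow_lt_one₀ zero_le hlt1 (by norm_num)
  rw [hval] at hge
  have hpos : 0 < (IsDiscreteValuationRing.maximalIdeal A).valuation K W.Δ := zero_lt_iff.2 hg
  have h13 : (IsDiscreteValuationRing.maximalIdeal A).valuation K ((T.u⁻¹ : Kˣ) : K) ^ 12 *
      (IsDiscreteValuationRing.maximalIdeal A).valuation K W.Δ <
      1 * (IsDiscreteValuationRing.maximalIdeal A).valuation K W.Δ :=
    mul_lt_mul_of_pos_right h12 hpos
  rw [one_mul] at h13
  exact absurd hge (not_le.2 h13)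

theorem sa_ndvd {l u : A} (hl : Irreducible l) (hu : IsUnit u) : ¬ l ∣ u :=
  fun h => hl.not_isUnit (isUnit_of_dvd_unit h hu)

theorem sa_dvd_of_not_unit {l w : A} (hl : Irreducible l) (hw : ¬ IsUnit w) : l ∣ w := by
  have h1 : w ∈ IsLocalRing.maximalIdeal A := (IsLocalRing.mem_maximalIdeal w).2 hw
  rw [hl.maximalIdeal_eq, Ideal.mem_span_singleton] at h1
  exact h1

theorem sa_unit_of_not_dvd {l w : A} (hl : Irreducible l) (hw : ¬ l ∣ w) : IsUnit w := by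
  by_contra h
  exact hw (sa_dvd_of_not_unit hl h)

theorem sa_unit_add {l u x : A} (hl : Irreducible l) (hu : IsUnit u) : IsUnit (u + l * x) := by
  refine sa_unit_of_not_dvd hl fun h => sa_ndvd hl hu ?_
  have h1 := dvd_sub h (Dvd.intro x rfl : l ∣ l * x)
  rwa [add_sub_cancel_right] at h1

theorem sa_two_unit {l ε : A} (hl : Irreducible l) (h3 : (3 : A) = ε * l ^ 2) : IsUnit (2 : A) := by
  have h1 := sa_unit_add (x := ε * l) hl (isUnit_one.neg : IsUnit (-1 : A))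
  rwa [show (-1 : A) + l * (ε * l) = 2 by linear_combination -h3] at h1

theorem sa_three_unit (h2 : Irreducible (2 : A)) : IsUnit (3 : A) := by
  have h1 := sa_unit_add (x := (1 : A)) h2 isUnit_one
  rwa [show (1 : A) + 2 * 1 = 3 by norm_num] at h1

/-- [SAa] -/
theorem exists_min (I : WeierstrassCurve A) (hΔ : I.Δ ≠ 0) (T : WeierstrassCurve.VariableChange K)
    (hT : (T • I.map (algebraMap A K)).IsMinimal A) :
    ∃ (w : A) (J : WeierstrassCurve A), algebraMap A K w = T.u ∧ T • I.map (algebraMap A K) = J.map (algebraMap A K) ∧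
      I.Δ = w ^ 12 * J.Δ ∧ I.c₄ = w ^ 4 * J.c₄ ∧ I.c₆ = w ^ 6 * J.c₆ := by
  haveI hI : WeierstrassCurve.IsIntegral A (I.map (algebraMap A K)) := ⟨⟨I, rfl⟩⟩
  have hinj : Function.Injective (algebraMap A K) := IsFractionRing.injective A K
  have hint : WeierstrassCurve.IsIntegral A (T • I.map (algebraMap A K)) := inferInstance
  obtain ⟨J, hJ⟩ := hint.integral
  have hJ' : T • I.map (algebraMap A K) = J.map (algebraMap A K) := hJ
  have hΔK : (I.map (algebraMap A K)).Δ ≠ 0 := by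
    rw [WeierstrassCurve.map_Δ]
    exact fun h => hΔ (hinj (h.trans (map_zero _).symm))
  have hg : (IsDiscreteValuationRing.maximalIdeal A).valuation K (I.map (algebraMap A K)).Δ ≠ 0 := by
    rw [Valuation.ne_zero_iff]
    exact hΔK
  have hV := saa_le I T hT hg
  obtain ⟨w, hw⟩ := IsDiscreteValuationRing.exists_lift_of_le_one hV
  have hu : (T.u : K) ≠ 0 := Units.ne_zero _
  have huu : ((T.u⁻¹ : Kˣ) : K) = (T.u : K)⁻¹ := Units.val_inv_eq_inv_val _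
  refine ⟨w, J, hw, hJ', ?_, ?_, ?_⟩
  · apply hinj
    have h1 := WeierstrassCurve.variableChange_Δ (I.map (algebraMap A K)) T
    rw [hJ', WeierstrassCurve.map_Δ, WeierstrassCurve.map_Δ, huu] at h1
    rw [map_mul, map_pow, hw, h1]
    field_simp
  · apply hinj
    have h1 := WeierstrassCurve.variableChange_c₄ (I.map (algebraMap A K)) T
    rw [hJ', WeierstrassCurve.map_c₄, WeierstrassCurve.map_c₄, huu] at h1
    rw [map_mul, map_pow, hw, h1]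
    field_simp
  · apply hinj
    have h1 := WeierstrassCurve.variableChange_c₆ (I.map (algebraMap A K)) T
    rw [hJ', WeierstrassCurve.map_c₆, WeierstrassCurve.map_c₆, huu] at h1
    rw [map_mul, map_pow, hw, h1]
    field_simp

/-- [SAb] -/
theorem two_alt (h2 : Irreducible (2 : A)) (J : WeierstrassCurve A) (h4 : J.c₄ = 0) :
    (16 : A) ∣ J.Δ ∨ ∃ s t : A, IsUnit s ∧ J.c₆ = -24 * (s ^ 2 + 4 * t) := by
  have h20 : (2 : A) ≠ 0 := h2.ne_zero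
  have hp := h2.prime
  have hc4 : J.b₂ ^ 2 = 24 * J.b₄ := by
    have h : J.b₂ ^ 2 - 24 * J.b₄ = 0 := h4
    linear_combination h
  have hb2 : (2 : A) ∣ J.b₂ := hp.dvd_of_dvd_pow (n := 2) ⟨12 * J.b₄, by rw [hc4]; ring⟩
  have hb2d : J.b₂ = J.a₁ ^ 2 + 4 * J.a₂ := rfl
  have ha1 : (2 : A) ∣ J.a₁ := by
    obtain ⟨y, hy⟩ := hb2
    refine hp.dvd_of_dvd_pow (n := 2) ⟨y - 2 * J.a₂, ?_⟩
    linear_combination hy - hb2d
  obtain ⟨α, hα⟩ := ha1
  obtain ⟨β, hβ⟩ : ∃ β : A, β = α ^ 2 + J.a₂ := ⟨_, rfl⟩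
  obtain ⟨γ, hγ⟩ : ∃ γ : A, γ = J.a₄ + α * J.a₃ := ⟨_, rfl⟩
  have e2 : J.b₂ = 4 * β := by
    rw [hb2d, hα, hβ]
    ring
  have e4 : J.b₄ = 2 * γ := by
    have h : J.b₄ = 2 * J.a₄ + J.a₁ * J.a₃ := rfl
    rw [h, hα, hγ]
    ring
  have hbg : β ^ 2 = 3 * γ := by
    rw [e2, e4] at hc4
    have h : (2 : A) ^ 4 * (β ^ 2 - 3 * γ) = 0 := by linear_combination hc4
    have h' := (mul_eq_zero.1 h).resolve_left (pow_ne_zero _ h20)
    linear_combination h'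
  have e8 : J.b₈ = β * J.b₆ - γ ^ 2 := by
    have h := J.b_relation
    rw [e2, e4] at h
    have h' : (2 : A) ^ 2 * (J.b₈ - (β * J.b₆ - γ ^ 2)) = 0 := by linear_combination h
    have h'' := (mul_eq_zero.1 h').resolve_left (pow_ne_zero _ h20)
    linear_combination h''
  have eΔ : J.Δ = 24 * β * γ * J.b₆ - 16 * γ ^ 3 - 27 * J.b₆ ^ 2 := by
    have h : J.Δ = -J.b₂ ^ 2 * J.b₈ - 8 * J.b₄ ^ 3 - 27 * J.b₆ ^ 2 + 9 * J.b₂ * J.b₄ * J.b₆ := rfl
    rw [h, e2, e4, e8]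
    linear_combination (-16 * (β * J.b₆ - γ ^ 2)) * hbg
  have e6 : J.c₆ = 96 * β * γ - 216 * J.b₆ := by
    have h : J.c₆ = -J.b₂ ^ 3 + 36 * J.b₂ * J.b₄ - 216 * J.b₆ := rfl
    rw [h, e2, e4]
    linear_combination (-64 * β) * hbg
  have hb6 : J.b₆ = J.a₃ ^ 2 + 4 * J.a₆ := rfl
  by_cases h : (2 : A) ∣ J.a₃
  · left
    obtain ⟨c, hc⟩ := h
    refine ⟨6 * β * γ * (c ^ 2 + J.a₆) - γ ^ 3 - 27 * (c ^ 2 + J.a₆) ^ 2, ?_⟩
    rw [eΔ, hb6, hc]
    ring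
  · right
    refine ⟨3 * J.a₃, 9 * J.a₆ - β * γ, (sa_three_unit h2).mul (sa_unit_of_not_dvd h2 h), ?_⟩
    rw [e6, hb6]
    ring

/-- [SAb] -/
theorem unit_two' (h2 : Irreducible (2 : A)) (D' : A) (hD : IsUnit D') (k : ℕ) (hk : k ≤ 5)
    (h4 : k = 4 → ∀ x : A, ¬ (4 : A) ∣ D' - x ^ 2) (T : WeierstrassCurve.VariableChange K)
    (hT : (T • (ED (2 ^ k * D')).map (algebraMap A K)).IsMinimal A) :
    (IsDiscreteValuationRing.maximalIdeal A).valuation K (T.u : K) = 1 := by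
  have h3 := sa_three_unit h2
  have h20 : (2 : A) ≠ 0 := h2.ne_zero
  by_cases hk3 : k ≤ 3
  · refine VC63.unit_of_irreducible_pow (ED (2 ^ k * D')) 2 h2 (-27 * D' ^ 2) ?_ (4 + 2 * k) (by omega) ?_ T hT
    · rw [show (-27 : A) * D' ^ 2 = -(3 ^ 3 * D' ^ 2) by ring]
      exact ((h3.pow 3).mul (hD.pow 2)).neg
    · rw [ED_Δ]
      ring
  have hΔ : (ED (2 ^ k * D')).Δ ≠ 0 := by
    rw [ED_Δ, show (-432 : A) = -(2 ^ 4 * 3 ^ 3) by norm_num]
    exact mul_ne_zero (neg_ne_zero.2 (mul_ne_zero (pow_ne_zero _ h20) (pow_ne_zero _ h3.ne_zero)))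
      (pow_ne_zero _ (mul_ne_zero (pow_ne_zero _ h20) hD.ne_zero))
  obtain ⟨w, J, hw, -, eΔ, e4, e6⟩ := exists_min (ED (2 ^ k * D')) hΔ T hT
  have hw0 : w ≠ 0 := by
    rintro rfl
    rw [map_zero] at hw
    exact Units.ne_zero _ hw.symm
  have hJ4 : J.c₄ = 0 := by
    rw [ED_c₄] at e4
    exact (mul_eq_zero.1 e4.symm).resolve_left (pow_ne_zero _ hw0)
  rw [ED_Δ] at eΔ
  have hc6 : (ED (2 ^ k * D')).c₆ = -864 * (2 ^ k * D') := by
    simp only [ED, WeierstrassCurve.c₆, WeierstrassCurve.b₂, WeierstrassCurve.b₄, WeierstrassCurve.b₆]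
    ring
  rw [hc6] at e6
  by_cases hwu : IsUnit w
  · rw [← hw]
    exact CMT.val_algebraMap_unit A w hwu
  exfalso
  obtain ⟨w', rfl⟩ := sa_dvd_of_not_unit h2 hwu
  obtain ⟨j, rfl, hj⟩ : ∃ j, k = 4 + j ∧ (j = 0 ∨ j = 1) := ⟨k - 4, by omega, by omega⟩
  have f1 : -27 * D' ^ 2 * 2 ^ (2 * j) = w' ^ 12 * J.Δ := by
    have h : (2 : A) ^ 12 * (-27 * D' ^ 2 * 2 ^ (2 * j) - w' ^ 12 * J.Δ) = 0 := by
      have h5 : ((2 : A) ^ (4 + j)) ^ 2 = 2 ^ 8 * 2 ^ (2 * j) := by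
        rw [← pow_mul, ← pow_add]
        congr 1
        ring
      rw [mul_pow (2 ^ (4 + j)) D', h5] at eΔ
      linear_combination eΔ
    have h' := (mul_eq_zero.1 h).resolve_left (pow_ne_zero _ h20)
    linear_combination h'
  rcases two_alt h2 J hJ4 with hd | ⟨s, t, hs, hst⟩
  · have hd2 : (2 : A) ^ 4 ∣ -27 * D' ^ 2 * 2 ^ (2 * j) := by
      rw [f1, show (2 : A) ^ 4 = 16 by norm_num]
      exact hd.mul_left _
    have h27 : IsUnit (-27 * D' ^ 2) := by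
      rw [show (-27 : A) * D' ^ 2 = -(3 ^ 3 * D' ^ 2) by ring]
      exact ((h3.pow 3).mul (hD.pow 2)).neg
    have hd3 : (2 : A) ^ 2 * 2 ^ 2 ∣ (-27 * D' ^ 2) * 2 ^ 2 := by
      refine Dvd.dvd.trans ?_ (mul_dvd_mul_left (-27 * D' ^ 2) (pow_dvd_pow (2 : A) (show 2 * j ≤ 2 by omega)))
      rw [← pow_add]
      exact hd2
    have hd4 : (2 : A) ^ 2 ∣ -27 * D' ^ 2 := (mul_dvd_mul_iff_right (pow_ne_zero 2 h20)).1 hd3
    exact sa_ndvd h2 h27 (dvd_trans (dvd_pow_self 2 two_ne_zero) hd4)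
  · have f2 : 9 * 2 ^ j * D' = w' ^ 6 * (s ^ 2 + 4 * t) := by
      have h : (2 : A) ^ 9 * (3 * (9 * 2 ^ j * D' - w' ^ 6 * (s ^ 2 + 4 * t))) = 0 := by
        rw [hst, pow_add] at e6
        linear_combination -e6
      have h' := (mul_eq_zero.1 ((mul_eq_zero.1 h).resolve_left (pow_ne_zero _ h20))).resolve_left h3.ne_zero
      linear_combination h'
    rcases hj with rfl | rfl
    · refine h4 rfl (w' ^ 3 * s) ⟨w' ^ 6 * t - 2 * D', ?_⟩
      linear_combination f2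
    · have hu : IsUnit (s ^ 2 + 4 * t) := by
        have := sa_unit_add (x := 2 * t) h2 (hs.pow 2)
        rwa [show s ^ 2 + 2 * (2 * t) = s ^ 2 + 4 * t by ring] at this
      have h2w : (2 : A) ∣ w' := by
        have h5 : (2 : A) ∣ w' ^ 6 * (s ^ 2 + 4 * t) := ⟨9 * D', by rw [← f2]; ring⟩
        rcases h2.prime.dvd_or_dvd h5 with h6 | h6
        · exact h2.prime.dvd_of_dvd_pow h6
        · exact absurd h6 (sa_ndvd h2 hu)
      obtain ⟨w2, rfl⟩ := h2w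
      have h9 : 9 * D' = 2 * (16 * w2 ^ 6 * (s ^ 2 + 4 * t)) := by
        have h : (2 : A) * (9 * D' - 2 * (16 * w2 ^ 6 * (s ^ 2 + 4 * t))) = 0 := by
          linear_combination f2
        have h' := (mul_eq_zero.1 h).resolve_left h20
        linear_combination h'
      refine sa_ndvd h2 (?_ : IsUnit (9 * D')) ⟨_, h9⟩
      rw [show (9 : A) * D' = 3 ^ 2 * D' by ring]
      exact (h3.pow 2).mul hD

/-- [SAc] -/
theorem la_alt {l ε : A} (hl : Irreducible l) (hε : IsUnit ε) (h3 : (3 : A) = ε * l ^ 2) (J : WeierstrassCurve A)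
    (h4 : J.c₄ = 0) : l ^ 6 ∣ J.Δ ∨ ∃ α t : A, IsUnit α ∧ 2 * J.c₆ = l ^ 3 * (α ^ 3 + l ^ 3 * t) := by
  have h2 := sa_two_unit hl h3
  have h20 := h2.ne_zero
  have hl0 := hl.ne_zero
  have hp := hl.prime
  have hε0 := hε.ne_zero
  have hc4 : J.b₂ ^ 2 = 24 * J.b₄ := by
    have h : J.b₂ ^ 2 - 24 * J.b₄ = 0 := h4
    linear_combination h
  have hb2 : l ∣ J.b₂ := hp.dvd_of_dvd_pow (n := 2) ⟨8 * ε * l * J.b₄, by
    rw [hc4]
    linear_combination (8 * J.b₄) * h3⟩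
  obtain ⟨β, hβ⟩ := hb2
  have hβ2 : β ^ 2 = 8 * ε * J.b₄ := by
    have h : l ^ 2 * (β ^ 2 - 8 * ε * J.b₄) = 0 := by
      rw [hβ] at hc4
      linear_combination hc4 + (8 * J.b₄) * h3
    have h' := (mul_eq_zero.1 h).resolve_left (pow_ne_zero _ hl0)
    linear_combination h'
  have eΔ : J.Δ = 3 * J.b₂ * J.b₄ * J.b₆ - 2 * J.b₄ ^ 3 - 27 * J.b₆ ^ 2 := by
    have h : J.Δ = -J.b₂ ^ 2 * J.b₈ - 8 * J.b₄ ^ 3 - 27 * J.b₆ ^ 2 + 9 * J.b₂ * J.b₄ * J.b₆ := rfl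
    have hr := J.b_relation
    have h' : (2 : A) ^ 2 * (J.Δ - (3 * J.b₂ * J.b₄ * J.b₆ - 2 * J.b₄ ^ 3 - 27 * J.b₆ ^ 2)) = 0 := by
      rw [h]
      linear_combination (-J.b₂ ^ 2) * hr + (-J.b₂ * J.b₆ + J.b₄ ^ 2) * hc4
    have h'' := (mul_eq_zero.1 h').resolve_left (pow_ne_zero _ h20)
    linear_combination h''
  have e6 : J.c₆ = 12 * J.b₂ * J.b₄ - 216 * J.b₆ := by
    have h : J.c₆ = -J.b₂ ^ 3 + 36 * J.b₂ * J.b₄ - 216 * J.b₆ := rfl
    rw [h]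
    linear_combination (-J.b₂) * hc4
  have h8ε : IsUnit (8 * ε) := by
    rw [show (8 : A) = 2 ^ 3 by norm_num]
    exact (h2.pow 3).mul hε
  by_cases hb4 : l ∣ J.b₄
  · left
    have hlβ : l ∣ β := by
      refine hp.dvd_of_dvd_pow (n := 2) ?_
      rw [hβ2]
      exact hb4.mul_left _
    obtain ⟨β', rfl⟩ := hlβ
    have hb4' : l ^ 2 ∣ J.b₄ := by
      have h5 : l ^ 2 ∣ (8 * ε) * J.b₄ := ⟨β' ^ 2, by rw [← hβ2]; ring⟩
      exact (h8ε.dvd_mul_left).1 h5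
    obtain ⟨g, hg⟩ := hb4'
    refine ⟨ε * β' * g * J.b₆ - 2 * g ^ 3 - ε ^ 3 * J.b₆ ^ 2, ?_⟩
    have h27 : (27 : A) = ε ^ 3 * l ^ 6 := by
      rw [show (27 : A) = 3 ^ 3 by norm_num, h3]
      ring
    rw [eΔ, hβ, hg, h27, h3]
    ring
  · right
    have hb4u := sa_unit_of_not_dvd hl hb4
    have hβu : IsUnit β := by
      have h5 : IsUnit (β ^ 2) := by
        rw [hβ2]
        exact h8ε.mul hb4u
      exact (isUnit_pow_iff two_ne_zero).1 h5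
    refine ⟨β, -16 * ε ^ 3 * J.b₆, hβu, ?_⟩
    have h5 : (2 : A) ^ 2 * (ε * (2 * J.c₆ - l ^ 3 * (β ^ 3 + l ^ 3 * (-16 * ε ^ 3 * J.b₆)))) = 0 := by
      have h27 : (27 : A) = ε ^ 3 * l ^ 6 := by
        rw [show (27 : A) = 3 ^ 3 by norm_num, h3]
        ring
      rw [e6, hβ]
      linear_combination (-12 * l * β) * hβ2 + (4 * l * β ^ 3) * h3 + (-64 * ε * J.b₆) * h27
    have h6 := (mul_eq_zero.1 ((mul_eq_zero.1 h5).resolve_left (pow_ne_zero _ h20))).resolve_left hε0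
    linear_combination h6

theorem sac_cube {l ε : A} (hl : Irreducible l) (h3 : (3 : A) = ε * l ^ 2)
    (hres : ∀ x : A, l ∣ x ∨ l ∣ x - 1 ∨ l ∣ x + 1) {x : A} (hx : IsUnit x) :
    ∃ η : A, (η = 1 ∨ η = -1) ∧ ∃ z : A, x ^ 3 = η + l ^ 3 * z := by
  rcases hres x with h | ⟨y, hy⟩ | ⟨y, hy⟩
  · exact absurd h (sa_ndvd hl hx)
  · refine ⟨1, Or.inl rfl, ε * y + ε * l * y ^ 2 + y ^ 3, ?_⟩
    have hx' : x = 1 + l * y := by linear_combination hy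
    rw [hx']
    linear_combination (l * y + l ^ 2 * y ^ 2) * h3
  · refine ⟨-1, Or.inr rfl, ε * y - ε * l * y ^ 2 + y ^ 3, ?_⟩
    have hx' : x = -1 + l * y := by linear_combination hy
    rw [hx']
    linear_combination (l * y - l ^ 2 * y ^ 2) * h3

/-- [SAc] -/
theorem unit_la' {l ε : A} (hl : Irreducible l) (hε : IsUnit ε) (h3 : (3 : A) = ε * l ^ 2)
    (hres : ∀ x : A, l ∣ x ∨ l ∣ x - 1 ∨ l ∣ x + 1) (D' : A) (hD : IsUnit D') (k : ℕ) (hk : k ≤ 5)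
    (h3' : k = 3 → ∀ η : A, (η = 1 ∨ η = -1) → ¬ l ^ 3 ∣ D' - η) (T : WeierstrassCurve.VariableChange K)
    (hT : (T • (ED (l ^ k * D')).map (algebraMap A K)).IsMinimal A) :
    (IsDiscreteValuationRing.maximalIdeal A).valuation K (T.u : K) = 1 := by
  have h2 := sa_two_unit hl h3
  have h20 := h2.ne_zero
  have hl0 := hl.ne_zero
  have hε0 := hε.ne_zero
  have h27 : (27 : A) = ε ^ 3 * l ^ 6 := by
    rw [show (27 : A) = 3 ^ 3 by norm_num, h3]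
    ring
  have h16 : IsUnit (-(2 ^ 4 * ε ^ 3 * D' ^ 2)) := (((h2.pow 4).mul (hε.pow 3)).mul (hD.pow 2)).neg
  by_cases hk2 : k ≤ 2
  · refine VC63.unit_of_irreducible_pow (ED (l ^ k * D')) l hl (-(2 ^ 4 * ε ^ 3 * D' ^ 2)) h16 (6 + 2 * k) (by omega) ?_ T hT
    rw [ED_Δ, show (-432 : A) = -(16 * 27) by norm_num, h27]
    ring
  have hΔ : (ED (l ^ k * D')).Δ ≠ 0 := by
    rw [ED_Δ, show (-432 : A) = -(2 ^ 4 * 27) by norm_num, h27]
    exact mul_ne_zero (neg_ne_zero.2 (mul_ne_zero (pow_ne_zero _ h20)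
      (mul_ne_zero (pow_ne_zero _ hε0) (pow_ne_zero _ hl0))))
      (pow_ne_zero _ (mul_ne_zero (pow_ne_zero _ hl0) hD.ne_zero))
  obtain ⟨w, J, hw, -, eΔ, e4, e6⟩ := exists_min (ED (l ^ k * D')) hΔ T hT
  have hw0 : w ≠ 0 := by
    rintro rfl
    rw [map_zero] at hw
    exact Units.ne_zero _ hw.symm
  have hJ4 : J.c₄ = 0 := by
    rw [ED_c₄] at e4
    exact (mul_eq_zero.1 e4.symm).resolve_left (pow_ne_zero _ hw0)
  rw [ED_Δ] at eΔ
  have hc6 : (ED (l ^ k * D')).c₆ = -864 * (l ^ k * D') := by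
    simp only [ED, WeierstrassCurve.c₆, WeierstrassCurve.b₂, WeierstrassCurve.b₄, WeierstrassCurve.b₆]
    ring
  rw [hc6] at e6
  by_cases hwu : IsUnit w
  · rw [← hw]
    exact CMT.val_algebraMap_unit A w hwu
  exfalso
  obtain ⟨w', rfl⟩ := sa_dvd_of_not_unit hl hwu
  obtain ⟨j, rfl, hj⟩ : ∃ j, k = 3 + j ∧ (j = 0 ∨ j = 1 ∨ j = 2) := ⟨k - 3, by omega, by omega⟩
  have f1 : -(2 ^ 4 * ε ^ 3 * D' ^ 2) * l ^ (2 * j) = w' ^ 12 * J.Δ := by
    have h : l ^ 12 * (-(2 ^ 4 * ε ^ 3 * D' ^ 2) * l ^ (2 * j) - w' ^ 12 * J.Δ) = 0 := by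
      have h5 : (l ^ (3 + j)) ^ 2 = l ^ 6 * l ^ (2 * j) := by
        rw [← pow_mul, ← pow_add]
        congr 1
        ring
      rw [mul_pow (l ^ (3 + j)) D', h5, show (-432 : A) = -(16 * 27) by norm_num, h27] at eΔ
      linear_combination eΔ
    have h' := (mul_eq_zero.1 h).resolve_left (pow_ne_zero _ hl0)
    linear_combination h'
  rcases la_alt hl hε h3 J hJ4 with hd | ⟨α, t, hα, hαt⟩
  · have hd2 : l ^ 6 ∣ -(2 ^ 4 * ε ^ 3 * D' ^ 2) * l ^ (2 * j) := by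
      rw [f1]
      exact hd.mul_left _
    have hd3 : l ^ 2 * l ^ 4 ∣ -(2 ^ 4 * ε ^ 3 * D' ^ 2) * l ^ 4 := by
      refine Dvd.dvd.trans ?_ (mul_dvd_mul_left (-(2 ^ 4 * ε ^ 3 * D' ^ 2)) (pow_dvd_pow l (show 2 * j ≤ 4 by omega)))
      rw [← pow_add]
      exact hd2
    have hd4 : l ^ 2 ∣ -(2 ^ 4 * ε ^ 3 * D' ^ 2) := (mul_dvd_mul_iff_right (pow_ne_zero 4 hl0)).1 hd3
    exact sa_ndvd hl h16 (dvd_trans (dvd_pow_self l two_ne_zero) hd4)
  · have f2 : -64 * ε ^ 3 * l ^ j * D' = w' ^ 6 * (α ^ 3 + l ^ 3 * t) := by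
      have h : l ^ 9 * (-64 * ε ^ 3 * l ^ j * D' - w' ^ 6 * (α ^ 3 + l ^ 3 * t)) = 0 := by
        rw [pow_add] at e6
        have h27' : (1728 : A) = 64 * (ε ^ 3 * l ^ 6) := by
          rw [← h27]
          norm_num
        linear_combination 2 * e6 + (l ^ 6 * w' ^ 6) * hαt + (l ^ 3 * l ^ j * D') * h27'
      have h' := (mul_eq_zero.1 h).resolve_left (pow_ne_zero _ hl0)
      linear_combination h'
    by_cases hj0 : j = 0
    · subst hj0
      have hεu : IsUnit ((-4) * ε) := by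
        rw [show (-4 : A) = -(2 ^ 2) by norm_num]
        exact ((h2.pow 2).neg).mul hε
      have hw'u : IsUnit w' := by
        have h5 : IsUnit (w' ^ 6 * (α ^ 3 + l ^ 3 * t)) := by
          rw [← f2]
          rw [show -64 * ε ^ 3 * l ^ 0 * D' = ((-4) * ε) ^ 3 * D' by ring]
          exact (hεu.pow 3).mul hD
        exact (isUnit_pow_iff (by norm_num)).1 (isUnit_of_mul_isUnit_left h5)
      obtain ⟨η₁, hη₁, x₁, hx₁⟩ := sac_cube hl h3 hres hεu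
      obtain ⟨η₂, hη₂, x₂, hx₂⟩ := sac_cube hl h3 hres ((hw'u.pow 2).mul hα)
      have hsq : η₁ * η₁ = 1 := by
        rcases hη₁ with rfl | rfl <;> ring
      have hη : η₁ * η₂ = 1 ∨ η₁ * η₂ = -1 := by
        rcases hη₁ with rfl | rfl <;> rcases hη₂ with rfl | rfl
        · left; ring
        · right; ring
        · right; ring
        · left; ring
      refine h3' rfl (η₁ * η₂) hη ⟨η₁ * (x₂ + w' ^ 6 * t - x₁ * D'), ?_⟩
      have f3 : ((-4) * ε) ^ 3 * D' = (w' ^ 2 * α) ^ 3 + l ^ 3 * (w' ^ 6 * t) := by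
        linear_combination f2
      rw [hx₁, hx₂] at f3
      linear_combination η₁ * f3 - D' * hsq
    · have hu : IsUnit (α ^ 3 + l ^ 3 * t) := by
        have := sa_unit_add (x := l ^ 2 * t) hl (hα.pow 3)
        rwa [show α ^ 3 + l * (l ^ 2 * t) = α ^ 3 + l ^ 3 * t by ring] at this
      have hlw : l ∣ w' := by
        have h5 : l ∣ w' ^ 6 * (α ^ 3 + l ^ 3 * t) := by
          rw [← f2]
          exact ((dvd_pow_self l hj0).mul_left _).mul_right _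
        rcases hl.prime.dvd_or_dvd h5 with h6 | h6
        · exact hl.prime.dvd_of_dvd_pow h6
        · exact absurd h6 (sa_ndvd hl hu)
      obtain ⟨w2, rfl⟩ := hlw
      have hud : IsUnit (-64 * ε ^ 3 * D') := by
        rw [show (-64 : A) * ε ^ 3 * D' = -(2 ^ 6 * ε ^ 3 * D') by ring]
        exact (((h2.pow 6).mul (hε.pow 3)).mul hD).neg
      have h7 : l ^ 4 * l ^ 2 ∣ (-64 * ε ^ 3 * D') * l ^ 2 := by
        refine Dvd.dvd.trans ?_ (mul_dvd_mul_left (-64 * ε ^ 3 * D') (pow_dvd_pow l (show j ≤ 2 by omega)))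
        refine ⟨w2 ^ 6 * (α ^ 3 + l ^ 3 * t), ?_⟩
        linear_combination f2
      have h8 : l ^ 4 ∣ -64 * ε ^ 3 * D' := (mul_dvd_mul_iff_right (pow_ne_zero 2 hl0)).1 h7
      exact sa_ndvd hl hud (dvd_trans (dvd_pow_self l (by norm_num)) h8)

/-- [SAd] -/
theorem unit_p' (h6 : IsUnit (6 : A)) (l D' : A) (hl : Irreducible l) (hD : IsUnit D') (k : ℕ) (hk : k ≤ 5)
    (T : WeierstrassCurve.VariableChange K) (hT : (T • (ED (l ^ k * D')).map (algebraMap A K)).IsMinimal A) :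
    (IsDiscreteValuationRing.maximalIdeal A).valuation K (T.u : K) = 1 := by
  have h2 : IsUnit (2 : A) := isUnit_of_dvd_unit ⟨3, by norm_num⟩ h6
  refine VC63.unit_of_irreducible_pow (ED (l ^ k * D')) l hl (-432 * D' ^ 2) ?_ (2 * k) (by omega) ?_ T hT
  · rw [show (-432 : A) * D' ^ 2 = -(6 ^ 3 * 2 * D' ^ 2) by ring]
    exact (((h6.pow 3).mul h2).mul (hD.pow 2)).neg
  · rw [ED_Δ]
    ring

end

end JG
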