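import Pool.Agent.JD.S3
import Pool.Agent.PI.T5b
import Pool.Agent.MP_9ab903_nt.Tam

/-!
# [JG-SG] the models of good reduction of `y² = x³ + 16 (s² + 4 c)` at `2` and of `y² = x³ + λ³ (η + λ³ c)` at `λ` (abstract discrete valuation ring `A`)

PROOF. `J2_Δ`, `J3_unit` [SGa]: `WeierstrassCurve.Δ`, `b₂`, ...: `J2`: `b₂ = b₄ = 0`, `b₆ = s² + 4 c`, `b₈ = 0`. `J3`: `b₂ = -4 η ε l`, `b₄ = 2 ε`, `b₆ = 4 c`, `b₈ = a₂ b₆ - a₄²`... (definition); `c₄ = b₂² - 24 b₄ = 16 ε (ε l² - 3) = 0` (`η² = 1`), `Δ = 3 b₂ b₄ b₆ - 2 b₄³ - 27 b₆²` is `-16 ε³ + l (...)`: `2` is a unit (see `JD.unit_la`),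
a unit plus an element of the maximal ideal is a unit.
`J2_smul` [SGa]: `C = ⟨u, 0, 0, -s/2⟩` with `u = 1/2` (`x = u² x' + r`, `y = u³ y' + u² s' x' + t`; `WeierstrassCurve.variableChange_a₁` ... or `ext` and the definition of the action). The new coefficients are `a₃ = u⁻³ (s + 2 t) = 0`, `a₆ = u⁻⁶ (c - t s - t²) = 64 (c + s²/4)`. `2 ≠ 0` in `K`: hypothesis.
`J3_smul` [SGa]: `C = ⟨1/l, η/l, 0, 0⟩`: `r = η / l`: `a₂' = u⁻² (a₂ + 3 r) = l² (-η ε l + 3 η / l) = 0` (`3 = ε l²`), `a₄' = u⁻⁴ (a₄ + 2 r a₂ + 3 r²) = l⁴ (ε - 2 ε + 3 / l²) = 0`, `a₆' = u⁻⁶ (a₆ + r a₄ + r² a₂ + r³) = l⁶ (c + η ε / l - η ε / l + η / l³) = l³ (η + l³ c)`. (`η² = 1`.)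
`good_u` [SGb]: `T • (C • J.map) = (T * C) • J.map` (`mul_smul`) is minimal, `VC63.unit_of_good` (MP_9ab903_nt/NT/V4.lean): the valuation of `(T * C).u = T.u * C.u` is `1`. `good_tam` [SGb]: `SBSD.tamagawa_eq_one`, `SBSD.nonsingular_of_good` (Tam.lean): `(C • J.map).minimal = T • (C • J.map) = (T * C) • J.map`, its discriminant is `((T * C).u⁻¹)^12` times a unit, its valuation is `1`
(`good_u`): `HasGoodReduction` (see `GE.localPoly_good` in MP_9ab903_nt/GE/E1.lean, whose proof constructs this). `good_poly` [SGb]: `GE.localPoly_good A J hJ C`.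
`neron_u` [SGb]: `SBSD.neron W v = ‖T.u‖⁻¹` for the chosen `T`; `good_u` gives `V (T.u) = V (C.u)⁻¹ = exp (-1)`; see the proof of `PI.neron_of` (PI/T5b.lean): `FinitePlace.norm_def`; the norm of an element of valuation `exp (-1)` is `(absNorm v)⁻¹` (compare `FinitePlace.norm_def'`, `HeightOneSpectrum.absNorm`..., `toNNReal`). The valuation of the maximal ideal of `v.adicCompletionIntegers K` on
`v.adicCompletion K` is `Valued.v` (use: an irreducible element `π` of the ring of integers has both valuations `exp (-1)` and units have valuation `1`; `T.u = unit * π`).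
-/

set_option autoImplicit false

open Polynomial NumberField IsDedekindDomain
open scoped Classical

namespace JG

open JD (ED ED_map ED_Δ ED_c₄ ED_equation)

/-- `y² + s y = x³ + c` -/
def J2 {R : Type*} [CommRing R] (s c : R) : WeierstrassCurve R := ⟨0, 0, s, 0, c⟩

/-- `y² = x³ - η ε l x² + ε x + c` -/
def J3 {R : Type*} [CommRing R] (l ε η c : R) : WeierstrassCurve R := ⟨0, -(η * ε * l), 0, ε, c⟩

theorem J2_map {R S : Type*} [CommRing R] [CommRing S] (f : R →+* S) (s c : R) : (J2 s c).map f = J2 (f s) (f c) := by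
  simp [J2, WeierstrassCurve.map]

theorem J3_map {R S : Type*} [CommRing R] [CommRing S] (f : R →+* S) (l ε η c : R) :
    (J3 l ε η c).map f = J3 (f l) (f ε) (f η) (f c) := by
  simp [J3, WeierstrassCurve.map]

/-- [SGa] -/
theorem J2_Δ {R : Type*} [CommRing R] (s c : R) : (J2 s c).Δ = -27 * (s ^ 2 + 4 * c) ^ 2 := by
  simp only [J2, WeierstrassCurve.Δ, WeierstrassCurve.b₂, WeierstrassCurve.b₄, WeierstrassCurve.b₆, WeierstrassCurve.b₈]
  ring

section
variable {A : Type} [CommRing A] [IsDomain A] [IsDiscreteValuationRing A]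

theorem sga_unit_add {l u x : A} (hl : Irreducible l) (hu : IsUnit u) : IsUnit (u + l * x) := by
  by_contra h
  have h1 : u + l * x ∈ IsLocalRing.maximalIdeal A := (IsLocalRing.mem_maximalIdeal _).2 h
  rw [hl.maximalIdeal_eq, Ideal.mem_span_singleton] at h1
  have h2 := dvd_sub h1 (Dvd.intro x rfl : l ∣ l * x)
  rw [add_sub_cancel_right] at h2
  exact hl.not_isUnit (isUnit_of_dvd_unit h2 hu)

theorem sga_two_unit {l ε : A} (hl : Irreducible l) (h3 : (3 : A) = ε * l ^ 2) : IsUnit (2 : A) := by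
  have h1 := sga_unit_add (x := ε * l) hl (isUnit_one.neg : IsUnit (-1 : A))
  rwa [show (-1 : A) + l * (ε * l) = 2 by linear_combination -h3] at h1

/-- [SGa] -/
theorem J3_unit {l ε η : A} (hl : Irreducible l) (hε : IsUnit ε) (h3 : (3 : A) = ε * l ^ 2) (hη : η = 1 ∨ η = -1) (c : A) :
    IsUnit (J3 l ε η c).Δ := by
  have h2 := sga_two_unit hl h3
  have hη2 : η ^ 2 = 1 := by
    rcases hη with rfl | rfl <;> ring
  have h27 : (27 : A) = ε ^ 3 * l ^ 6 := by
    rw [show (27 : A) = 3 ^ 3 by norm_num, h3]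
    ring
  have e : (J3 l ε η c).Δ = -(2 ^ 4 * ε ^ 3) +
      l * (64 * η * ε ^ 3 * l ^ 2 * c - 288 * η * ε ^ 2 * c - 16 * ε ^ 3 * l ^ 5 * c ^ 2) := by
    simp only [J3, WeierstrassCurve.Δ, WeierstrassCurve.b₂, WeierstrassCurve.b₄, WeierstrassCurve.b₆, WeierstrassCurve.b₈]
    linear_combination (16 * ε ^ 2 * l ^ 2 * (4 * η * ε * l * c + ε ^ 2)) * hη2 + (-16 * ε ^ 3) * h3 +
      (-16 * c ^ 2) * h27
  rw [e]
  exact sga_unit_add hl ((h2.pow 4).mul (hε.pow 3)).neg

variable {K : Type} [Field K] [Algebra A K] [IsFractionRing A K]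

/-- [SGa] -/
theorem J2_smul (h2 : (2 : K) ≠ 0) (s c : A) : ∃ C : WeierstrassCurve.VariableChange K, (C.u : K) = 2⁻¹ ∧
    C • (J2 s c).map (algebraMap A K) = (ED (16 * (s ^ 2 + 4 * c))).map (algebraMap A K) := by
  refine ⟨⟨Units.mk0 (2⁻¹ : K) (inv_ne_zero h2), 0, 0, -(algebraMap A K s) / 2⟩, rfl, ?_⟩
  have hu : (((Units.mk0 (2⁻¹ : K) (inv_ne_zero h2))⁻¹ : Kˣ) : K) = 2 := by
    rw [Units.val_inv_eq_inv_val, Units.val_mk0, inv_inv]
  rw [J2_map, ED_map]
  ext
  · rw [WeierstrassCurve.variableChange_a₁, hu]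
    simp only [J2, ED]
    ring
  · rw [WeierstrassCurve.variableChange_a₂, hu]
    simp only [J2, ED]
    ring
  · rw [WeierstrassCurve.variableChange_a₃, hu]
    simp only [J2, ED]
    field_simp
    ring
  · rw [WeierstrassCurve.variableChange_a₄, hu]
    simp only [J2, ED]
    field_simp
    ring
  · rw [WeierstrassCurve.variableChange_a₆, hu]
    simp only [J2, ED, map_mul, map_add, map_pow, map_ofNat]
    field_simp
    ring

/-- [SGa] -/
theorem J3_smul {l ε η : A} (hl : Irreducible l) (h3 : (3 : A) = ε * l ^ 2) (hη : η = 1 ∨ η = -1) (c : A) :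
    ∃ C : WeierstrassCurve.VariableChange K, (C.u : K) = (algebraMap A K l)⁻¹ ∧
    C • (J3 l ε η c).map (algebraMap A K) = (ED (l ^ 3 * (η + l ^ 3 * c))).map (algebraMap A K) := by
  have hlK : algebraMap A K l ≠ 0 := by
    intro h
    exact hl.ne_zero (IsFractionRing.injective A K (h.trans (map_zero _).symm))
  have hη2 : (algebraMap A K η) ^ 2 = 1 := by
    rcases hη with rfl | rfl <;> simp
  have h3K : (3 : K) = algebraMap A K ε * (algebraMap A K l) ^ 2 := by
    rw [← map_pow, ← map_mul, ← h3, map_ofNat]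
  refine ⟨⟨Units.mk0 ((algebraMap A K l)⁻¹ : K) (inv_ne_zero hlK), algebraMap A K η / algebraMap A K l, 0, 0⟩, rfl, ?_⟩
  have hu : (((Units.mk0 ((algebraMap A K l)⁻¹ : K) (inv_ne_zero hlK))⁻¹ : Kˣ) : K) = algebraMap A K l := by
    rw [Units.val_inv_eq_inv_val, Units.val_mk0, inv_inv]
  rw [J3_map, ED_map]
  ext
  · rw [WeierstrassCurve.variableChange_a₁, hu]
    simp only [J3, ED]
    ring
  · rw [WeierstrassCurve.variableChange_a₂, hu]
    simp only [J3, ED]
    field_simp
    rw [h3K]
    ring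
  · rw [WeierstrassCurve.variableChange_a₃, hu]
    simp only [J3, ED]
    ring
  · rw [WeierstrassCurve.variableChange_a₄, hu]
    simp only [J3, ED]
    generalize algebraMap A K l = L at *
    generalize algebraMap A K ε = E at *
    generalize algebraMap A K η = H at *
    field_simp
    linear_combination (L ^ 2 * (-2 * E * L ^ 2 + 3)) * hη2 + L ^ 2 * h3K
  · rw [WeierstrassCurve.variableChange_a₆, hu]
    simp only [J3, ED, map_mul, map_add, map_pow]
    generalize algebraMap A K l = L at *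
    generalize algebraMap A K ε = E at *
    generalize algebraMap A K η = H at *
    field_simp
    linear_combination (-H * E * L ^ 2 + H) * hη2

/-- [SGb] -/
theorem good_u {J : WeierstrassCurve A} (hJ : IsUnit J.Δ) (C T : WeierstrassCurve.VariableChange K)
    (hT : (T • (C • J.map (algebraMap A K))).IsMinimal A) :
    (IsDiscreteValuationRing.maximalIdeal A).valuation K (T.u : K) *
      (IsDiscreteValuationRing.maximalIdeal A).valuation K (C.u : K) = 1 := by
  have h1 := VC63.unit_of_good J hJ (T * C) (by rw [mul_smul]; exact hT)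
  have h2 : (((T * C).u : Kˣ) : K) = (T.u : K) * (C.u : K) := rfl
  rw [h2, map_mul] at h1
  exact h1

/-- [SGb] -/
theorem good_tam {J : WeierstrassCurve A} (hJ : IsUnit J.Δ) (C : WeierstrassCurve.VariableChange K) :
    SBSD.tamagawa A (C • J.map (algebraMap A K)) = 1 := by
  rw [VC63.tamagawa_smul J C (VC63.unit_of_good J hJ)]
  have h1 : {P : (J.map (algebraMap A K)).toAffine.Point | VC63.NR J P} = Set.univ :=
    Set.eq_univ_of_forall (VC63.nr_of_unit J hJ)
  rw [h1, AddSubgroup.closure_univ, AddSubgroup.index_top]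

/-- [SGb] -/
theorem good_poly [Finite (IsLocalRing.ResidueField A)] {J : WeierstrassCurve A} (hJ : IsUnit J.Δ)
    (C : WeierstrassCurve.VariableChange K) :
    (C • J.map (algebraMap A K)).localPolynomial A =
      1 - Polynomial.C ((Nat.card (IsLocalRing.ResidueField A) : ℤ) + 1 -
        Nat.card (J.map (IsLocalRing.residue A)).toAffine.Point) * X
      + Polynomial.C (Nat.card (IsLocalRing.ResidueField A) : ℤ) * X ^ 2 := by
  exact GE.localPoly_good A J hJ C

end

theorem sgb_toNNReal {e : NNReal} (he : e ≠ 0) : WithZeroMulInt.toNNReal he (WithZero.exp (-1 : ℤ)) = e⁻¹ := by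
  rw [WithZeroMulInt.toNNReal_neg_apply he WithZero.exp_ne_zero]
  have h1 : WithZero.unzero (WithZero.exp_ne_zero : (WithZero.exp (-1 : ℤ)) ≠ 0) = Multiplicative.ofAdd (-1 : ℤ) := by
    apply WithZero.coe_injective
    rw [WithZero.coe_unzero]
    rfl
  rw [h1, toAdd_ofAdd, zpow_neg_one]

theorem sgb_val (K : Type) [Field K] [NumberField K] (v : HeightOneSpectrum (𝓞 K))
    (π : v.adicCompletionIntegers K) (hπ : Irreducible π) :
    Valued.v ((π : v.adicCompletionIntegers K) : v.adicCompletion K) = WithZero.exp (-1 : ℤ) := by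
  obtain ⟨x, hx⟩ := v.intValuation_exists_uniformizer
  have hxv : x ∈ v.asIdeal := by
    rw [← v.intValuation_lt_one_iff_mem, hx, ← WithZero.exp_zero]
    exact WithZero.exp_lt_exp.2 (by norm_num)
  have hxv2 : x ∉ v.asIdeal ^ 2 := by
    rw [← v.intValuation_le_pow_iff_mem, hx, not_le]
    exact WithZero.exp_lt_exp.2 (by norm_num)
  have hirr := CMT.irreducible_completion' K v x hxv hxv2
  obtain ⟨u, hu⟩ := IsDiscreteValuationRing.associated_of_irreducible _ hirr hπ
  have hvu : Valued.v (((u : v.adicCompletionIntegers K)) : v.adicCompletion K) = 1 :=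
    HeightOneSpectrum.adicCompletionIntegers.isUnit_iff_valued_eq_one.1 u.isUnit
  have hvx : Valued.v ((algebraMap (𝓞 K) (v.adicCompletionIntegers K) x :
      v.adicCompletionIntegers K) : v.adicCompletion K) = v.intValuation x := by
    have h4 : ((algebraMap (𝓞 K) (v.adicCompletionIntegers K) x : v.adicCompletionIntegers K) : v.adicCompletion K) =
        ((algebraMap (𝓞 K) K x : K) : v.adicCompletion K) := rfl
    rw [h4, HeightOneSpectrum.valuedAdicCompletion_eq_valuation', HeightOneSpectrum.valuation_of_algebraMap]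
  rw [← hu]
  show Valued.v (((algebraMap (𝓞 K) (v.adicCompletionIntegers K) x : v.adicCompletionIntegers K) : v.adicCompletion K) *
    (((u : v.adicCompletionIntegers K)) : v.adicCompletion K)) = _
  rw [map_mul, hvu, hvx, hx, mul_one]

/-- [SGb] -/
theorem neron_u (K : Type) [Field K] [NumberField K] (v : HeightOneSpectrum (𝓞 K)) (W : WeierstrassCurve K)
    (J : WeierstrassCurve (v.adicCompletionIntegers K)) (hJ : IsUnit J.Δ) (C : WeierstrassCurve.VariableChange (v.adicCompletion K))
    (π : v.adicCompletionIntegers K) (hπ : Irreducible π)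
    (hC : (C.u : v.adicCompletion K) = (algebraMap (v.adicCompletionIntegers K) (v.adicCompletion K) π)⁻¹)
    (hW : W.baseChange (v.adicCompletion K) = C • J.map (algebraMap (v.adicCompletionIntegers K) (v.adicCompletion K))) :
    SBSD.neron W v = (Ideal.absNorm v.asIdeal : ℝ) := by
  have hspec := ((W.baseChange (v.adicCompletion K)).exists_isMinimal
        (v.adicCompletionIntegers K)).choose_spec
  unfold SBSD.neron
  generalize ((W.baseChange (v.adicCompletion K)).exists_isMinimal
        (v.adicCompletionIntegers K)).choose = T at hspec ⊢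
  have hmin : (T • (C • J.map (algebraMap (v.adicCompletionIntegers K) (v.adicCompletion K)))).IsMinimal
      (v.adicCompletionIntegers K) := by
    rw [← hW]
    exact hspec
  have h1 := good_u hJ C T hmin
  rw [hC, map_inv₀] at h1
  have hπ0 : algebraMap (v.adicCompletionIntegers K) (v.adicCompletion K) π ≠ 0 := by
    intro h
    exact hπ.ne_zero (IsFractionRing.injective (v.adicCompletionIntegers K) (v.adicCompletion K)
      (h.trans (map_zero _).symm))
  have h2 : (IsDiscreteValuationRing.maximalIdeal (v.adicCompletionIntegers K)).valuation (v.adicCompletion K)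
      ((T.u : v.adicCompletion K) * (algebraMap (v.adicCompletionIntegers K) (v.adicCompletion K) π)⁻¹) = 1 := by
    rw [map_mul, map_inv₀]
    exact h1
  have hmem : ((T.u : v.adicCompletion K) * (algebraMap (v.adicCompletionIntegers K) (v.adicCompletion K) π)⁻¹) ∈
      MonoidHom.mker ((IsDiscreteValuationRing.maximalIdeal
      (v.adicCompletionIntegers K)).valuation (v.adicCompletion K)) := h2
  rw [IsDiscreteValuationRing.mker_valuation_eq_isUnitSubmonoid] at hmem
  obtain ⟨u₀, hu₀, hu₁⟩ := hmem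
  have hu₀' : IsUnit u₀ := hu₀
  have hTu : (T.u : v.adicCompletion K) = algebraMap (v.adicCompletionIntegers K) (v.adicCompletion K) (u₀ * π) := by
    rw [map_mul]
    have h3 : algebraMap (v.adicCompletionIntegers K) (v.adicCompletion K) u₀ =
        (T.u : v.adicCompletion K) * (algebraMap (v.adicCompletionIntegers K) (v.adicCompletion K) π)⁻¹ := hu₁
    rw [h3, inv_mul_cancel_right₀ hπ0]
  have hvu : Valued.v ((u₀ : v.adicCompletionIntegers K) : v.adicCompletion K) = 1 :=
    HeightOneSpectrum.adicCompletionIntegers.isUnit_iff_valued_eq_one.1 hu₀'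
  have hvπ := sgb_val K v π hπ
  have hval : Valued.v (T.u : v.adicCompletion K) = WithZero.exp (-1 : ℤ) := by
    rw [hTu, map_mul, map_mul]
    have e1 : algebraMap (v.adicCompletionIntegers K) (v.adicCompletion K) u₀ = (u₀ : v.adicCompletion K) := rfl
    have e2 : algebraMap (v.adicCompletionIntegers K) (v.adicCompletion K) π = (π : v.adicCompletion K) := rfl
    rw [e1, e2, hvu, hvπ, one_mul]
  rw [FinitePlace.norm_def, hval]
  rw [sgb_toNNReal, NNReal.coe_inv, inv_inv]
  rfl

end JG
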