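import Pool.Agent.JX.Field

/-!
# [JG] the condition on the class group and the units of `ℚ(ω, √D)` for general `D`

`D = λ^(2m) D'`, `λ²` does not divide `D'`, `s' = √D / λ^m`, `s'² = D'`. For `E = (u / ū)^8`, `u` a unit of `ℚ(ω, √D)`, `E - E⁻¹ ≡ q s' mod λ³` with `q ∈ ℤ[ω]`
(`λ ∣ q` if `λ ∤ D'`).
-/

set_option autoImplicit false

open NumberField
open scoped Classical ComplexConjugate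

namespace JG

open CM27 JZ JL JX
open CU (la)

/-- The classes `q` modulo `λ³` of the local points. -/
def WG (m : ℕ) (D' q : Eis) : Prop :=
  (m = 0 ∧ ¬ la ∣ D' ∧ (∀ η : Eis, (η = 1 ∨ η = -1) → ¬ (3 : Eis) ∣ D' - η) ∧
    ∃ d₀ d₁ d₂ t : ℤ, Dig D' d₀ d₁ d₂ ∧ la ^ 3 ∣ q - (t : Eis) * (la * (1 + ((d₁ * (1 + d₂) : ℤ) : Eis) * la))) ∨
  (m = 0 ∧ (∃ η : Eis, (η = 1 ∨ η = -1) ∧ (3 : Eis) ∣ D' - η) ∧ la ^ 2 ∣ q) ∨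
  (m = 1 ∧ ¬ la ∣ D' ∧ ∃ t : ℤ, la ^ 3 ∣ q - (t : Eis) * la) ∨
  (m = 2 ∧ ¬ la ∣ D' ∧ la ^ 2 ∣ q) ∨
  (m = 0 ∧ la ∣ D' ∧ ∃ b e₀ e₁ t : ℤ, (b = 0 ∨ b = 1 ∨ b = -1) ∧ (e₀ = 1 ∨ e₀ = -1) ∧
    la ^ 3 ∣ D' - la * ((e₀ : Eis) + (e₁ : Eis) * la) ∧
    la ^ 3 ∣ q - 2 * ((b : Eis) + (t : Eis) * (la * ((e₀ : Eis) + ((e₁ - 1 - b ^ 2 : ℤ) : Eis) * la)))) ∨
  ((m = 1 ∨ m = 2) ∧ la ∣ D' ∧ la ∣ q)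

/-- `E - E⁻¹ ≡ q s / λ^m mod λ³` with `q` in `WG`. -/
def OnG (D : Eis) (s E : ℂ) : Prop :=
  ∃ (m : ℕ) (D' q : Eis), D = la ^ (2 * m) * D' ∧ ¬ la ^ 2 ∣ D' ∧ WG m D' q ∧
    IsIntegral ℤ ((E - E⁻¹ - emb q * (s / emb la ^ m)) / emb la ^ 3)

/-- The class number of `ℚ(ω, √D)` is prime to `3`, and there is a unit `u = u₁ + u₂ √D` such that
`E = (u / ū) ^ 8` does not satisfy `OnG`, `ū = u₁ - u₂ √D`. -/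
def UCG (D : Eis) : Prop :=
  ¬ 3 ∣ classNumber (KD D) ∧
  ∃ u₁ u₂ : ℂ, u₁ ∈ CF.KK ∧ u₂ ∈ CF.KK ∧ u₁ + u₂ * sD D ≠ 0 ∧ IsIntegral ℤ (u₁ + u₂ * sD D) ∧
    IsIntegral ℤ (u₁ + u₂ * sD D)⁻¹ ∧ ¬ OnG D (sD D) (((u₁ + u₂ * sD D) / (u₁ - u₂ * sD D)) ^ 8)

end JG
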